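import Mathlib

set_option autoImplicit false

open MeasureTheory Filter Topology
open scoped Real

namespace Pool.Agent.Helper19

/-- chord length -/
noncomputable def ch (y : ℝ) : ℝ := 2 * |Real.sin (y / 2)|

/-- regularised inverse chord -/
noncomputable def hh (u y : ℝ) : ℝ := (ch y + u)⁻¹

lemma ch_nonneg (y : ℝ) : 0 ≤ ch y := by unfold ch; positivity
lemma ch_le (y : ℝ) : ch y ≤ 2 := by
  unfold ch
  have := Real.abs_sin_le_one (y / 2)
  linarith

lemma ch_periodic : Function.Periodic ch (2 * π) := by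
  intro y
  unfold ch
  rw [show (y + 2 * π) / 2 = y / 2 + π by ring, Real.sin_add_pi, abs_neg]

lemma ch_lip (x y : ℝ) : |ch x - ch y| ≤ |x - y| := by
  unfold ch
  have h1 : |(2 * |Real.sin (x / 2)| - 2 * |Real.sin (y / 2)|)| ≤ 2 * |Real.sin (x / 2) - Real.sin (y / 2)| := by
    rw [← mul_sub, abs_mul, abs_two]
    have := abs_abs_sub_abs_le_abs_sub (Real.sin (x / 2)) (Real.sin (y / 2))
    linarith
  have h2 : |Real.sin (x / 2) - Real.sin (y / 2)| ≤ |x / 2 - y / 2| := by
    rw [Real.sin_sub_sin, abs_mul, abs_mul, abs_two]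
    have a1 := Real.abs_cos_le_one ((x / 2 + y / 2) / 2)
    have a2 : |Real.sin ((x / 2 - y / 2) / 2)| ≤ |(x / 2 - y / 2) / 2| := Real.abs_sin_le_abs
    have a3 := abs_nonneg (Real.sin ((x / 2 - y / 2) / 2))
    have a4 : |(x / 2 - y / 2) / 2| = |x / 2 - y / 2| / 2 := by rw [abs_div, abs_two]
    nlinarith
  have h3 : |x / 2 - y / 2| = |x - y| / 2 := by
    rw [show x / 2 - y / 2 = (x - y) / 2 by ring, abs_div, abs_two]
  linarith

lemma hh_pos {u : ℝ} (hu : 0 < u) (y : ℝ) : 0 < hh u y := by
  unfold hh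
  have := ch_nonneg y
  positivity

lemma hh_periodic (u : ℝ) : Function.Periodic (hh u) (2 * π) := by
  intro y
  unfold hh
  rw [ch_periodic y]

lemma hh_lip {u : ℝ} (hu : 0 < u) (x y : ℝ) : hh u x ≤ hh u y + |x - y| / u ^ 2 := by
  have hx := ch_nonneg x
  have hy := ch_nonneg y
  have h1 : hh u x - hh u y = (ch y - ch x) * (hh u x * hh u y) := by
    unfold hh
    field_simp
    ring
  have h2 : hh u x ≤ u⁻¹ := by
    unfold hh
    exact inv_anti₀ hu (by linarith)
  have h3 : hh u y ≤ u⁻¹ := by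
    unfold hh
    exact inv_anti₀ hu (by linarith)
  have h4 : hh u x * hh u y ≤ u⁻¹ * u⁻¹ :=
    mul_le_mul h2 h3 (hh_pos hu y).le (by positivity)
  have h5 : ch y - ch x ≤ |x - y| := by
    have := ch_lip x y
    have := neg_abs_le (ch x - ch y)
    linarith
  have h6 : (ch y - ch x) * (hh u x * hh u y) ≤ |x - y| * (u⁻¹ * u⁻¹) := by
    have h7 : 0 ≤ hh u x * hh u y := (mul_pos (hh_pos hu x) (hh_pos hu y)).le
    calc (ch y - ch x) * (hh u x * hh u y) ≤ |x - y| * (hh u x * hh u y) :=
          mul_le_mul_of_nonneg_right h5 h7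
      _ ≤ _ := mul_le_mul_of_nonneg_left h4 (abs_nonneg _)
  have h7 : |x - y| * (u⁻¹ * u⁻¹) = |x - y| / u ^ 2 := by
    field_simp
  linarith

lemma continuous_ch : Continuous ch := by unfold ch; fun_prop

lemma continuous_hh {u : ℝ} (hu : 0 < u) : Continuous (hh u) := by
  unfold hh
  apply Continuous.inv₀ (continuous_ch.add continuous_const)
  intro y
  have := ch_nonneg y
  have h2 : 0 < ch y + u := by linarith
  exact h2.ne'

lemma ch_ge {y : ℝ} (h0 : 0 ≤ y) (h1 : y ≤ π) : 2 / π * y ≤ ch y := by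
  have h2 := Real.mul_le_sin (x := y / 2) (by linarith) (by linarith)
  unfold ch
  have h3 := le_abs_self (Real.sin (y / 2))
  have h4 : 2 / π * (y / 2) = (2 / π * y) / 2 := by ring
  linarith

/-- the integral of the regularised inverse chord -/
lemma integral_hh {u : ℝ} (hu : 0 < u) : ∫ y in (0 : ℝ)..(2 * π), hh u y ≤ π * Real.log (1 + 2 / u) := by
  have hπ := Real.pi_pos
  have hc := continuous_hh hu
  have h1 : ∫ y in (0 : ℝ)..(2 * π), hh u y
      = (∫ y in (0 : ℝ)..π, hh u y) + (∫ y in π..(2 * π), hh u y) :=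
    (intervalIntegral.integral_add_adjacent_intervals (hc.intervalIntegrable _ _)
      (hc.intervalIntegrable _ _)).symm
  have h2 : ∫ y in π..(2 * π), hh u y = ∫ y in (0 : ℝ)..π, hh u y := by
    have h3 : ∀ y, hh u (2 * π - y) = hh u y := by
      intro y
      unfold hh ch
      rw [show (2 * π - y) / 2 = π - y / 2 by ring, Real.sin_pi_sub]
    have h4 := intervalIntegral.integral_comp_sub_left (a := π) (b := 2 * π) (fun y => hh u y) (2 * π)
    simp only [h3] at h4
    rw [h4]
    congr 1 <;> ring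
  have h3 : ∫ y in (0 : ℝ)..π, hh u y ≤ ∫ y in (0 : ℝ)..π, (2 / π * y + u)⁻¹ := by
    apply intervalIntegral.integral_mono_on hπ.le (hc.intervalIntegrable _ _)
    · apply ContinuousOn.intervalIntegrable
      apply ContinuousOn.inv₀ (by fun_prop)
      intro y hy
      rw [Set.uIcc_of_le hπ.le] at hy
      have := hy.1
      positivity
    · intro y hy
      unfold hh
      have := hy.1
      apply inv_anti₀ (by positivity)
      have := ch_ge hy.1 hy.2
      linarith
  have h4 : ∫ y in (0 : ℝ)..π, (2 / π * y + u)⁻¹ = π / 2 * Real.log (1 + 2 / u) := by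
    have h5 := intervalIntegral.integral_comp_mul_add (a := 0) (b := π) (fun y => y⁻¹)
      (c := 2 / π) (by positivity) u
    rw [h5, integral_inv_of_pos (by positivity) (by positivity)]
    have e1 : (2 / π * π + u) / (2 / π * 0 + u) = 1 + 2 / u := by
      field_simp
      ring
    rw [e1, smul_eq_mul]
    congr 1
    field_simp
  rw [h1, h2]
  linarith

/-- grid averages -/
lemma grid_hh {u : ℝ} (hu : 0 < u) {N : ℕ} (hN : 0 < N) (x : ℝ) :
    ∑ a ∈ Finset.range N, hh u (x + 2 * π * a / N)
      ≤ N * (1 / 2 * Real.log (1 + 2 / u) + 2 * π / (N * u ^ 2)) := by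
  have hπ := Real.pi_pos
  have hc := continuous_hh hu
  have hN' : (0 : ℝ) < N := by exact_mod_cast hN
  set pt : ℕ → ℝ := fun a => x + 2 * π * a / N with hpt
  have hstep : ∀ a, pt (a + 1) - pt a = 2 * π / N := by
    intro a
    simp only [hpt]
    push_cast
    field_simp
    ring
  have h1 : ∀ a, 2 * π / N * hh u (pt a) ≤ (∫ y in (pt a)..(pt (a + 1)), hh u y)
      + (2 * π / N) * ((2 * π / N) / u ^ 2) := by
    intro a
    have hle : pt a ≤ pt (a + 1) := by
      have := hstep a
      have : 0 < 2 * π / N := by positivity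
      linarith
    have h2 : ∫ _y in (pt a)..(pt (a + 1)), hh u (pt a)
        ≤ ∫ y in (pt a)..(pt (a + 1)), (hh u y + (2 * π / N) / u ^ 2) := by
      have hcc : Continuous (fun y => hh u y + (2 * π / N) / u ^ 2) := hc.add continuous_const
      apply intervalIntegral.integral_mono_on hle (by simp) (hcc.intervalIntegrable _ _)
      intro y hy
      have h3 := hh_lip hu (pt a) y
      have h4 : |pt a - y| ≤ 2 * π / N := by
        rw [abs_le]
        have := hstep a
        have := hy.1
        have := hy.2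
        constructor <;> linarith
      have h5 : |pt a - y| / u ^ 2 ≤ (2 * π / N) / u ^ 2 := by gcongr
      linarith
    rw [intervalIntegral.integral_const, hstep, smul_eq_mul,
      intervalIntegral.integral_add (hc.intervalIntegrable _ _) (by simp),
      intervalIntegral.integral_const, hstep, smul_eq_mul] at h2
    exact h2
  have h2 := Finset.sum_le_sum (fun a (_ : a ∈ Finset.range N) => h1 a)
  rw [← Finset.mul_sum, Finset.sum_add_distrib,
    intervalIntegral.sum_integral_adjacent_intervals (fun k _ => hc.intervalIntegrable _ _),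
    Finset.sum_const, Finset.card_range, nsmul_eq_mul] at h2
  have e0 : pt 0 = x := by simp [hpt]
  have e1 : pt N = x + 2 * π := by
    simp only [hpt]
    field_simp
  rw [e0, e1, (hh_periodic u).intervalIntegral_add_eq x 0, zero_add] at h2
  have h3 := integral_hh hu
  have h4 : 2 * π / N * ∑ a ∈ Finset.range N, hh u (pt a) ≤ 2 * π / N * (N *
      (1 / 2 * Real.log (1 + 2 / u) + 2 * π / (N * u ^ 2))) := by
    refine h2.trans ?_
    have e2 : 2 * π / N * (N * (1 / 2 * Real.log (1 + 2 / u) + 2 * π / (N * u ^ 2)))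
        = π * Real.log (1 + 2 / u) + N * (2 * π / N * (2 * π / N / u ^ 2)) := by
      field_simp
    rw [e2]
    linarith
  exact le_of_mul_le_mul_left h4 (by positivity)

/-- uniform grid bound -/
lemma grid_hh' {u : ℝ} (hu : 0 < u) (hu1 : u ≤ 1) {N : ℕ} (hN : 16 / u ^ 2 ≤ N) (x : ℝ) :
    ∑ a ∈ Finset.range N, hh u (x + 2 * π * a / N) ≤ N * Real.log (3 / u) := by
  have hu2 : 0 < 16 / u ^ 2 := by positivity
  have hN' : (0 : ℝ) < N := hu2.trans_le hN
  have hN0 : 0 < N := by exact_mod_cast hN'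
  refine (grid_hh hu hN0 x).trans ?_
  apply mul_le_mul_of_nonneg_left _ hN'.le
  have h1 : Real.log (1 + 2 / u) ≤ Real.log (3 / u) := by
    apply Real.log_le_log (by positivity)
    rw [show 3 / u = 1 / u + 2 / u by ring]
    have : 1 ≤ 1 / u := by rw [le_div_iff₀ hu]; linarith
    linarith
  have h2 : 2 * π / (N * u ^ 2) ≤ 1 / 2 := by
    rw [div_le_iff₀ (by positivity)]
    rw [div_le_iff₀ (by positivity)] at hN
    have := Real.pi_lt_d2
    nlinarith
  have h3 : 1 ≤ Real.log (3 / u) := by
    rw [Real.le_log_iff_exp_le (by positivity)]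
    have h4 : Real.exp 1 < 3 := by
      have := Real.exp_one_lt_d9
      linarith
    have : (3 : ℝ) ≤ 3 / u := by rw [le_div_iff₀ hu]; nlinarith
    linarith
  linarith

/-- representation of an energy in the band -/
lemma exists_angle {b c : ℝ} (hc : 0 < c) (h : |b| ≤ 2 * c) : ∃ β : ℝ, b = -(2 * c * Real.cos β) := by
  refine ⟨Real.arccos (-(b / (2 * c))), ?_⟩
  rw [abs_le] at h
  rw [Real.cos_arccos]
  · field_simp
  · rw [neg_le_neg_iff, div_le_one (by positivity)]
    linarith
  · rw [neg_le, le_div_iff₀ (by positivity)]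
    linarith

lemma prod_form (c β φ : ℝ) (hc : 0 < c) :
    |-(2 * c * Real.cos β) + 2 * c * Real.cos φ| = c * (ch (φ - β) * ch (φ + β)) := by
  have h1 : -(2 * c * Real.cos β) + 2 * c * Real.cos φ
      = -(4 * c) * (Real.sin ((φ + β) / 2) * Real.sin ((φ - β) / 2)) := by
    have := Real.cos_sub_cos φ β
    linear_combination 2 * c * this
  rw [h1, abs_mul, abs_mul, abs_neg, abs_of_pos (by positivity : 0 < 4 * c)]
  unfold ch
  ring

lemma sum_ch_ge (β φ : ℝ) : 2 * |Real.sin β| ≤ ch (φ - β) + ch (φ + β) := by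
  unfold ch
  have h1 : Real.sin β = Real.sin ((φ + β) / 2) * Real.cos ((φ - β) / 2)
      - Real.cos ((φ + β) / 2) * Real.sin ((φ - β) / 2) := by
    rw [← Real.sin_sub]
    congr 1
    ring
  have h2 : |Real.sin β| ≤ |Real.sin ((φ + β) / 2)| + |Real.sin ((φ - β) / 2)| := by
    rw [h1]
    refine (abs_sub _ _).trans ?_
    rw [abs_mul, abs_mul]
    have a1 := Real.abs_cos_le_one ((φ - β) / 2)
    have a2 := Real.abs_cos_le_one ((φ + β) / 2)
    have a3 := abs_nonneg (Real.sin ((φ + β) / 2))
    have a4 := abs_nonneg (Real.sin ((φ - β) / 2))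
    nlinarith
  linarith

/-- pointwise inner bound inside the band -/
lemma inner_in {u c β φ : ℝ} (hu : 0 < u) (hu1 : u ≤ 1) (hc : 1 ≤ c) :
    (|-(2 * c * Real.cos β) + 2 * c * Real.cos φ| + u)⁻¹
      ≤ 5 / 2 * (hh u (φ - β) + hh u (φ + β)) / (|Real.sin β| + u) := by
  rw [prod_form c β φ (by linarith)]
  set p := ch (φ - β) with hp
  set q := ch (φ + β) with hq
  have p0 : 0 ≤ p := ch_nonneg _
  have q0 : 0 ≤ q := ch_nonneg _
  have p2 : p ≤ 2 := ch_le _
  have q2 : q ≤ 2 := ch_le _
  have hs := sum_ch_ge β φ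
  rw [← hp, ← hq] at hs
  have hs0 := abs_nonneg (Real.sin β)
  have h1 : hh u (φ - β) = (p + u)⁻¹ := rfl
  have h2 : hh u (φ + β) = (q + u)⁻¹ := rfl
  rw [h1, h2]
  have hpq : 0 ≤ p * q := mul_nonneg p0 q0
  have h3 : (c * (p * q) + u)⁻¹ ≤ (p * q + u)⁻¹ := by
    apply inv_anti₀ (by positivity)
    nlinarith
  have h4 : (p * q + u)⁻¹ ≤ 5 * ((p + u) * (q + u))⁻¹ := by
    rw [← div_eq_mul_inv, le_div_iff₀ (by positivity), inv_mul_le_iff₀ (by positivity)]
    nlinarith
  have h5 : ((p + u) * (q + u))⁻¹ = ((p + u)⁻¹ + (q + u)⁻¹) / (p + q + 2 * u) := by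
    field_simp
    ring
  have h6 : ((p + u)⁻¹ + (q + u)⁻¹) / (p + q + 2 * u) ≤ ((p + u)⁻¹ + (q + u)⁻¹) / (2 * (|Real.sin β| + u)) := by
    apply div_le_div_of_nonneg_left (by positivity) (by positivity)
    linarith
  calc (c * (p * q) + u)⁻¹ ≤ 5 * (((p + u)⁻¹ + (q + u)⁻¹) / (2 * (|Real.sin β| + u))) := by
        refine h3.trans (h4.trans ?_)
        rw [h5]
        exact mul_le_mul_of_nonneg_left h6 (by norm_num)
    _ = _ := by field_simp

/-- inner bound -/
lemma inner_bound {u c b : ℝ} (hu : 0 < u) (hu1 : u ≤ 1) (hc : 1 ≤ c) (hc2 : c ≤ 2) {N : ℕ}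
    (hN : 16 / u ^ 2 ≤ N) (x : ℝ) :
    ∑ a ∈ Finset.range N, (|b + 2 * c * Real.cos (x + 2 * π * a / N)| + u)⁻¹
      ≤ N * (10 * Real.log (3 / u) / (Real.sqrt (|(|b| - 2 * c)|) + u)) := by
  have hu2 : 0 < 16 / u ^ 2 := by positivity
  have hN' : (0 : ℝ) < N := hu2.trans_le hN
  have hlog : 0 < Real.log (3 / u) := by
    apply Real.log_pos
    rw [lt_div_iff₀ hu]; linarith
  set Lg := Real.log (3 / u) with hLg
  rcases le_or_gt |b| (2 * c) with h | h
  · obtain ⟨β, hβ⟩ := exists_angle (by linarith) h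
    have hsum : ∑ a ∈ Finset.range N, (|b + 2 * c * Real.cos (x + 2 * π * a / N)| + u)⁻¹
        ≤ 5 / 2 * (N * Lg + N * Lg) / (|Real.sin β| + u) := by
      calc ∑ a ∈ Finset.range N, (|b + 2 * c * Real.cos (x + 2 * π * a / N)| + u)⁻¹
          ≤ ∑ a ∈ Finset.range N, 5 / 2 * (hh u (x + 2 * π * a / N - β) + hh u (x + 2 * π * a / N + β))
            / (|Real.sin β| + u) := by
            apply Finset.sum_le_sum
            intro a _
            rw [hβ]
            exact inner_in hu hu1 hc
        _ = 5 / 2 * (∑ a ∈ Finset.range N, hh u ((x - β) + 2 * π * a / N)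
            + ∑ a ∈ Finset.range N, hh u ((x + β) + 2 * π * a / N)) / (|Real.sin β| + u) := by
            rw [← Finset.sum_div, ← Finset.mul_sum, Finset.sum_add_distrib]
            congr 3
            · apply Finset.sum_congr rfl
              intro a _
              congr 1; ring
            · apply Finset.sum_congr rfl
              intro a _
              congr 1; ring
        _ ≤ _ := by
            have h1 := grid_hh' hu hu1 hN (x - β)
            have h2 := grid_hh' hu hu1 hN (x + β)
            gcongr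
    refine hsum.trans ?_
    have h3 : Real.sqrt (|(|b| - 2 * c)|) ≤ 2 * |Real.sin β| := by
      rw [Real.sqrt_le_left (by positivity)]
      rw [abs_of_nonpos (by linarith), mul_pow, sq_abs]
      have h4 : |b| = 2 * c * |Real.cos β| := by
        rw [hβ, abs_neg, abs_mul, abs_of_pos (by linarith : 0 < 2 * c)]
      rw [h4]
      have h5 := Real.sin_sq_add_cos_sq β
      have h6 := Real.abs_cos_le_one β
      have h7 := abs_nonneg (Real.cos β)
      have h8 : |Real.cos β| ^ 2 = Real.cos β ^ 2 := sq_abs _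
      nlinarith
    have hs0 := abs_nonneg (Real.sin β)
    have hq0 := Real.sqrt_nonneg (|(|b| - 2 * c)|)
    have h9 : N * (10 * Lg / (Real.sqrt (|(|b| - 2 * c)|) + u)) = (10 * (N * Lg)) / (Real.sqrt (|(|b| - 2 * c)|) + u) := by
      ring
    have h10 : 5 / 2 * (N * Lg + N * Lg) / (|Real.sin β| + u) = (5 * (N * Lg)) / (|Real.sin β| + u) := by
      ring
    rw [h9, h10, div_le_div_iff₀ (by positivity) (by positivity)]
    have h11 : 0 ≤ N * Lg := by positivity
    nlinarith [mul_nonneg h11 hs0, mul_nonneg h11 hq0, mul_nonneg h11 hu.le]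
  · set τ := |b| - 2 * c with hτ
    have hτ0 : 0 < τ := by rw [hτ]; linarith
    obtain ⟨β, hβ⟩ : ∃ β : ℝ, ∀ φ : ℝ, |b + 2 * c * Real.cos φ| = τ + c * ch (φ - β) ^ 2 := by
      rcases le_total 0 b with hb | hb
      · refine ⟨π, fun φ => ?_⟩
        rw [abs_of_nonneg hb] at hτ
        have h1 : ch (φ - π) ^ 2 = 2 + 2 * Real.cos φ := by
          unfold ch
          rw [mul_pow, sq_abs, show (φ - π) / 2 = φ / 2 - π / 2 by ring, Real.sin_sub_pi_div_two, neg_sq]
          have h2 := Real.cos_sq (φ / 2)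
          rw [show 2 * (φ / 2) = φ by ring] at h2
          rw [h2]; ring
        rw [h1, abs_of_nonneg, hτ]
        · ring
        · have := Real.neg_one_le_cos φ
          nlinarith
      · refine ⟨0, fun φ => ?_⟩
        rw [abs_of_nonpos hb] at hτ
        have h1 : ch (φ - 0) ^ 2 = 2 - 2 * Real.cos φ := by
          unfold ch
          rw [sub_zero, mul_pow, sq_abs, Real.sin_sq]
          have h2 := Real.cos_sq (φ / 2)
          rw [show 2 * (φ / 2) = φ by ring] at h2
          rw [h2]; ring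
        rw [h1, abs_of_nonpos, hτ]
        · ring
        · have := Real.cos_le_one φ
          nlinarith
    set s := Real.sqrt (τ + u) with hs
    have hs2 : s ^ 2 = τ + u := Real.sq_sqrt (by positivity)
    have hs0 : 0 < s := Real.sqrt_pos.mpr (by positivity)
    have hsu : u ≤ s := by
      rw [hs]
      apply Real.le_sqrt_of_sq_le
      nlinarith
    have hpt : ∀ φ : ℝ, (|b + 2 * c * Real.cos φ| + u)⁻¹ ≤ 2 / s * hh u (φ - β) := by
      intro φ
      rw [hβ]
      unfold hh
      have hp := ch_nonneg (φ - β)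
      set p := ch (φ - β)
      rw [← div_eq_mul_inv, div_div, inv_le_comm₀ (by positivity) (by positivity), inv_div,
        div_le_iff₀ (by norm_num)]
      have h1 : p ^ 2 ≤ c * p ^ 2 := by nlinarith [sq_nonneg p]
      nlinarith [sq_nonneg (p - s)]
    calc ∑ a ∈ Finset.range N, (|b + 2 * c * Real.cos (x + 2 * π * a / N)| + u)⁻¹
        ≤ ∑ a ∈ Finset.range N, 2 / s * hh u ((x - β) + 2 * π * a / N) := by
          apply Finset.sum_le_sum
          intro a _
          refine (hpt _).trans (le_of_eq ?_)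
          congr 2; ring
      _ ≤ 2 / s * (N * Lg) := by
          rw [← Finset.mul_sum]
          apply mul_le_mul_of_nonneg_left (grid_hh' hu hu1 hN (x - β)) (by positivity)
      _ ≤ _ := by
          rw [abs_of_pos hτ0]
          have h9 : N * (10 * Lg / (Real.sqrt τ + u)) = (10 * (N * Lg)) / (Real.sqrt τ + u) := by
            ring
          have hτs := Real.sqrt_nonneg τ
          have hτs2 := Real.sq_sqrt hτ0.le
          have h10 : 2 / s * (N * Lg) = (2 * (N * Lg)) / s := by ring
          rw [h9, h10, div_le_div_iff₀ hs0 (by positivity)]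
          have h12 : Real.sqrt τ ≤ s := Real.sqrt_le_sqrt (by linarith)
          have h11 : 0 ≤ N * Lg := by positivity
          nlinarith [mul_nonneg h11 hs0.le, mul_le_mul_of_nonneg_left h12 h11,
            mul_le_mul_of_nonneg_left hsu h11]

/-- outer bound -/
lemma outer_bound {u D : ℝ} (hu : 0 < u) (hu1 : u ≤ 1) {L : ℕ} (hL : 16 / u ^ 2 ≤ L) :
    ∑ a ∈ Finset.range L, (Real.sqrt |D + 2 * Real.cos (2 * π * a / L)| + u)⁻¹
      ≤ L * (2 * Real.log (3 / u)) := by
  have hlog : 0 < Real.log (3 / u) := by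
    apply Real.log_pos
    rw [lt_div_iff₀ hu]; linarith
  have hLn : (0 : ℝ) ≤ L := Nat.cast_nonneg _
  have key : ∃ β : ℝ, ∀ φ : ℝ, (Real.sqrt |D + 2 * Real.cos φ| + u)⁻¹ ≤ hh u (φ - β) + hh u (φ + β) := by
    rcases le_or_gt |D| 2 with h | h
    · obtain ⟨β, hβ⟩ := exists_angle (c := 1) (by norm_num) (by linarith : |D| ≤ 2 * 1)
      refine ⟨β, fun φ => ?_⟩
      have h1 := prod_form 1 β φ (by norm_num)
      rw [← hβ] at h1
      simp only [mul_one, one_mul] at h1
      rw [h1]
      unfold hh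
      set p := ch (φ - β) with hp
      set q := ch (φ + β) with hq
      have p0 : 0 ≤ p := ch_nonneg _
      have q0 : 0 ≤ q := ch_nonneg _
      rcases le_total p q with hpq | hpq
      · have h2 : p ≤ Real.sqrt (p * q) := by
          apply Real.le_sqrt_of_sq_le
          nlinarith
        have h3 : (Real.sqrt (p * q) + u)⁻¹ ≤ (p + u)⁻¹ := inv_anti₀ (by positivity) (by linarith)
        have h4 : 0 ≤ (q + u)⁻¹ := by positivity
        linarith
      · have h2 : q ≤ Real.sqrt (p * q) := by
          apply Real.le_sqrt_of_sq_le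
          nlinarith
        have h3 : (Real.sqrt (p * q) + u)⁻¹ ≤ (q + u)⁻¹ := inv_anti₀ (by positivity) (by linarith)
        have h4 : 0 ≤ (p + u)⁻¹ := by positivity
        linarith
    · rcases le_total 0 D with hD | hD
      · rw [abs_of_nonneg hD] at h
        refine ⟨π, fun φ => ?_⟩
        have h1 : ch (φ - π) ^ 2 = 2 + 2 * Real.cos φ := by
          unfold ch
          rw [mul_pow, sq_abs, show (φ - π) / 2 = φ / 2 - π / 2 by ring, Real.sin_sub_pi_div_two, neg_sq]
          have h2 := Real.cos_sq (φ / 2)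
          rw [show 2 * (φ / 2) = φ by ring] at h2
          rw [h2]; ring
        have h2 : ch (φ - π) ≤ Real.sqrt |D + 2 * Real.cos φ| := by
          apply Real.le_sqrt_of_sq_le
          rw [h1]
          have := le_abs_self (D + 2 * Real.cos φ)
          linarith
        have h3 : (Real.sqrt |D + 2 * Real.cos φ| + u)⁻¹ ≤ hh u (φ - π) := by
          unfold hh
          have := ch_nonneg (φ - π)
          exact inv_anti₀ (by positivity) (by linarith)
        have := (hh_pos hu (φ + π)).le
        linarith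
      · rw [abs_of_nonpos hD] at h
        refine ⟨0, fun φ => ?_⟩
        have h1 : ch (φ - 0) ^ 2 = 2 - 2 * Real.cos φ := by
          unfold ch
          rw [sub_zero, mul_pow, sq_abs, Real.sin_sq]
          have h2 := Real.cos_sq (φ / 2)
          rw [show 2 * (φ / 2) = φ by ring] at h2
          rw [h2]; ring
        have h2 : ch (φ - 0) ≤ Real.sqrt |D + 2 * Real.cos φ| := by
          apply Real.le_sqrt_of_sq_le
          rw [h1]
          have := neg_abs_le (D + 2 * Real.cos φ)
          linarith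
        have h3 : (Real.sqrt |D + 2 * Real.cos φ| + u)⁻¹ ≤ hh u (φ - 0) := by
          unfold hh
          have := ch_nonneg (φ - 0)
          exact inv_anti₀ (by positivity) (by linarith)
        have := (hh_pos hu (φ + 0)).le
        linarith
  obtain ⟨β, hβ⟩ := key
  have hsum := Finset.sum_le_sum (fun a (_ : a ∈ Finset.range L) => hβ (2 * π * a / L))
  refine hsum.trans ?_
  rw [Finset.sum_add_distrib]
  have h1 := grid_hh' hu hu1 hL (-β)
  have h2 := grid_hh' hu hu1 hL β
  have e1 : ∀ a : ℕ, 2 * π * (a : ℝ) / L - β = -β + 2 * π * a / L := fun a => by ring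
  have e2 : ∀ a : ℕ, 2 * π * (a : ℝ) / L + β = β + 2 * π * a / L := fun a => by ring
  simp only [e1, e2]
  linarith

/-- the double sum -/
lemma double_bound {u c e : ℝ} (hu : 0 < u) (hu1 : u ≤ 1) (hc : 1 ≤ c) (hc2 : c ≤ 2) {N L : ℕ}
    (hN : 16 / u ^ 2 ≤ N) (hL : 16 / u ^ 2 ≤ L) (x : ℝ) :
    ∑ a ∈ Finset.range N, ∑ b ∈ Finset.range L,
      (|e + 2 * Real.cos (2 * π * b / L) + 2 * c * Real.cos (x + 2 * π * a / N)| + u)⁻¹
      ≤ N * L * (40 * Real.log (3 / u) ^ 2) := by
  have hlog : 0 < Real.log (3 / u) := by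
    apply Real.log_pos
    rw [lt_div_iff₀ hu]; linarith
  rw [Finset.sum_comm]
  have h1 : ∀ b ∈ Finset.range L, ∑ a ∈ Finset.range N,
      (|e + 2 * Real.cos (2 * π * b / L) + 2 * c * Real.cos (x + 2 * π * a / N)| + u)⁻¹
      ≤ N * (10 * Real.log (3 / u) * ((Real.sqrt |(e - 2 * c) + 2 * Real.cos (2 * π * b / L)| + u)⁻¹
        + (Real.sqrt |(e + 2 * c) + 2 * Real.cos (2 * π * b / L)| + u)⁻¹)) := by
    intro b _
    refine (inner_bound hu hu1 hc hc2 hN x).trans ?_
    apply mul_le_mul_of_nonneg_left _ (Nat.cast_nonneg _)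
    rw [div_eq_mul_inv]
    apply mul_le_mul_of_nonneg_left _ (by positivity)
    set y := e + 2 * Real.cos (2 * π * b / L) with hy
    have e1 : (e - 2 * c) + 2 * Real.cos (2 * π * b / L) = y - 2 * c := by rw [hy]; ring
    have e2 : (e + 2 * c) + 2 * Real.cos (2 * π * b / L) = y + 2 * c := by rw [hy]; ring
    rw [e1, e2]
    have h2 : 0 ≤ (Real.sqrt |y - 2 * c| + u)⁻¹ := by positivity
    have h3 : 0 ≤ (Real.sqrt |y + 2 * c| + u)⁻¹ := by positivity
    rcases le_total 0 y with h | h
    · rw [abs_of_nonneg h]; linarith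
    · rw [abs_of_nonpos h]
      have : |-y - 2 * c| = |y + 2 * c| := by
        rw [show -y - 2 * c = -(y + 2 * c) by ring, abs_neg]
      rw [this]; linarith
  refine (Finset.sum_le_sum h1).trans ?_
  rw [← Finset.mul_sum, ← Finset.mul_sum, Finset.sum_add_distrib]
  have h2 := outer_bound (D := e - 2 * c) hu hu1 hL
  have h3 := outer_bound (D := e + 2 * c) hu hu1 hL
  have hN0 : (0 : ℝ) ≤ N := Nat.cast_nonneg _
  calc (N : ℝ) * (10 * Real.log (3 / u) *
        (∑ b ∈ Finset.range L, (Real.sqrt |(e - 2 * c) + 2 * Real.cos (2 * π * b / L)| + u)⁻¹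
        + ∑ b ∈ Finset.range L, (Real.sqrt |(e + 2 * c) + 2 * Real.cos (2 * π * b / L)| + u)⁻¹))
      ≤ (N : ℝ) * (10 * Real.log (3 / u) * (L * (2 * Real.log (3 / u)) + L * (2 * Real.log (3 / u)))) := by
        gcongr
    _ = _ := by ring

end Pool.Agent.Helper19
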