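import Mathlib

set_option autoImplicit false

open MeasureTheory Filter Topology Polynomial Real
open scoped ENNReal NNReal

namespace Pool.Agent.Helper19

/-- logarithm of the modulus of a polynomial -/
noncomputable def lp (Q : ℂ[X]) (z : ℂ) : ℝ := Real.log ‖Q.eval z‖

/-- the circle mean of `lp` -/
noncomputable def cmn (Q : ℂ[X]) (c : ℂ) (R : ℝ) : ℝ :=
  Real.log ‖Q.leadingCoeff‖ + (Q.roots.map (fun a => Real.log (max R ‖c - a‖))).sum

lemma circ_root (a c : ℂ) {R : ℝ} (hR : 0 < R) :
    circleAverage (fun z => Real.log ‖z - a‖) c R = Real.log (max R ‖c - a‖) := by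
  have h1 := circleAverage_log_norm_sub_const_eq_log_radius_add_posLog (a := a) (c := c) hR.ne'
  have h2 : Real.posLog (R⁻¹ * ‖c - a‖) = max 0 (Real.log (R⁻¹ * ‖c - a‖)) := rfl
  rw [h1, h2]
  rcases le_total R ‖c - a‖ with h | h
  · have hpos : 0 < ‖c - a‖ := hR.trans_le h
    rw [max_eq_right h, max_eq_right, Real.log_mul (by positivity) hpos.ne', Real.log_inv]
    · ring
    · apply Real.log_nonneg
      rw [inv_mul_eq_div, one_le_div hR]
      exact h
  · rw [max_eq_left h, max_eq_left, add_zero]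
    apply Real.log_nonpos (by positivity)
    rw [inv_mul_eq_div, div_le_one hR]
    exact h

/-- the product function of a multiset of roots -/
noncomputable def mp' (κ : ℂ) (s : Multiset ℂ) (z : ℂ) : ℂ := κ * (s.map (fun a => z - a)).prod

lemma mp'_cons (κ a : ℂ) (s : Multiset ℂ) (z : ℂ) : mp' κ (a ::ₘ s) z = mp' κ s z * (z - a) := by
  unfold mp'
  rw [Multiset.map_cons, Multiset.prod_cons]
  ring

lemma mp'_eq_zero {κ : ℂ} (hκ : κ ≠ 0) (s : Multiset ℂ) {z : ℂ} (h : mp' κ s z = 0) : z ∈ s := by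
  unfold mp' at h
  rcases mul_eq_zero.mp h with h | h
  · exact absurd h hκ
  · rw [Multiset.prod_eq_zero_iff, Multiset.mem_map] at h
    obtain ⟨a, ha, h⟩ := h
    rw [sub_eq_zero.mp h]
    exact ha

lemma congr_log_mp' {κ : ℂ} (hκ : κ ≠ 0) (a : ℂ) (s : Multiset ℂ) (c : ℂ) (R : ℝ) :
    (fun z => Real.log ‖mp' κ (a ::ₘ s) z‖) =ᶠ[codiscreteWithin (Metric.sphere c |R|)]
      (fun z => Real.log ‖mp' κ s z‖ + Real.log ‖z - a‖) := by
  classical
  have : {z : ℂ | z ∉ a ::ₘ s} ∈ codiscreteWithin (Metric.sphere c |R|) := by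
    apply codiscreteWithin_iff_locallyFiniteComplementWithin.2
    intro z hz
    use Set.univ
    simp only [univ_mem, Set.univ_inter, true_and]
    apply Set.Finite.subset (Multiset.toFinset (a ::ₘ s)).finite_toSet
    intro w hw
    simp only [Set.mem_sdiff, Set.mem_ofPred_eq, not_not] at hw
    simpa using hw.2
  filter_upwards [this] with z hz
  have hz' : z ∉ a ::ₘ s := hz
  rw [Multiset.mem_cons, not_or] at hz'
  rw [mp'_cons, norm_mul, Real.log_mul]
  · intro h
    exact hz'.2 (mp'_eq_zero hκ s (norm_eq_zero.mp h))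
  · exact norm_ne_zero_iff.mpr (sub_ne_zero.mpr hz'.1)

lemma circ_mp' {κ : ℂ} (hκ : κ ≠ 0) (s : Multiset ℂ) (c : ℂ) {R : ℝ} (hR : 0 < R) :
    CircleIntegrable (fun z => Real.log ‖mp' κ s z‖) c R ∧
    circleAverage (fun z => Real.log ‖mp' κ s z‖) c R
      = Real.log ‖κ‖ + (s.map (fun a => Real.log (max R ‖c - a‖))).sum := by
  induction s using Multiset.induction_on with
  | empty =>
    have h : (fun z => Real.log ‖mp' κ 0 z‖) = fun _ : ℂ => Real.log ‖κ‖ := by
      funext z; simp [mp']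
    rw [h]
    refine ⟨circleIntegrable_const _ _ _, ?_⟩
    rw [circleAverage_const]; simp
  | cons a s ih =>
    obtain ⟨h1, h2⟩ := ih
    have h3 := congr_log_mp' hκ a s c R
    have h4 : CircleIntegrable (fun z => Real.log ‖z - a‖) c R := circleIntegrable_log_norm_sub_const R
    constructor
    · exact (circleIntegrable_congr_codiscreteWithin h3).mpr (h1.add h4)
    · rw [circleAverage_congr_codiscreteWithin h3 hR.ne', circleAverage_fun_add h1 h4, h2,
        circ_root a c hR, Multiset.map_cons, Multiset.sum_cons]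
      ring

lemma eval_eq_mp' (Q : ℂ[X]) (z : ℂ) : Q.eval z = mp' Q.leadingCoeff Q.roots z := by
  unfold mp'
  exact (IsAlgClosed.splits Q).eval_eq_prod_roots z

lemma circ_poly {Q : ℂ[X]} (hQ : Q ≠ 0) (c : ℂ) {R : ℝ} (hR : 0 < R) :
    CircleIntegrable (lp Q) c R ∧ circleAverage (lp Q) c R = cmn Q c R := by
  have h : lp Q = fun z => Real.log ‖mp' Q.leadingCoeff Q.roots z‖ := by
    funext z
    unfold lp
    rw [eval_eq_mp']
  rw [h]
  exact circ_mp' (leadingCoeff_ne_zero.mpr hQ) Q.roots c hR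

lemma lp_eq_sum {Q : ℂ[X]} {c : ℂ} (hc : Q.eval c ≠ 0) :
    lp Q c = Real.log ‖Q.leadingCoeff‖ + (Q.roots.map (fun a => Real.log ‖c - a‖)).sum := by
  have hQ : Q ≠ 0 := by rintro rfl; simp at hc
  unfold lp
  rw [eval_eq_mp'] at hc ⊢
  unfold mp' at hc ⊢
  obtain ⟨h1, h2⟩ := mul_ne_zero_iff.mp hc
  rw [norm_mul, Real.log_mul (norm_ne_zero_iff.mpr h1) (norm_ne_zero_iff.mpr h2)]
  congr 1
  have h3 : ∀ s : Multiset ℂ, (s.map (fun a => c - a)).prod ≠ 0 →
      Real.log ‖(s.map (fun a => c - a)).prod‖ = (s.map (fun a => Real.log ‖c - a‖)).sum := by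
    intro s
    induction s using Multiset.induction_on with
    | empty => intro _; simp
    | cons a s ih =>
      intro h
      rw [Multiset.map_cons, Multiset.prod_cons] at h ⊢
      obtain ⟨h4, h5⟩ := mul_ne_zero_iff.mp h
      rw [norm_mul, Real.log_mul (norm_ne_zero_iff.mpr h4) (norm_ne_zero_iff.mpr h5), ih h5,
        Multiset.map_cons, Multiset.sum_cons]
  exact h3 Q.roots h2

/-- Jensen: the value at the centre is at most the mean -/
lemma lp_le_cmn {Q : ℂ[X]} {c : ℂ} (hc : Q.eval c ≠ 0) (R : ℝ) : lp Q c ≤ cmn Q c R := by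
  rw [lp_eq_sum hc]
  unfold cmn
  apply add_le_add le_rfl
  apply Multiset.sum_map_le_sum_map
  intro a ha
  have : c ≠ a := by
    rintro rfl
    exact hc (Polynomial.isRoot_of_mem_roots ha)
  apply Real.log_le_log (norm_pos_iff.mpr (sub_ne_zero.mpr this)) (le_max_right _ _)

/-- the means increase with the radius -/
lemma cmn_mono (Q : ℂ[X]) (c : ℂ) {R R' : ℝ} (hR : 0 < R) (h : R ≤ R') : cmn Q c R ≤ cmn Q c R' := by
  unfold cmn
  apply add_le_add le_rfl
  apply Multiset.sum_map_le_sum_map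
  intro a _
  apply Real.log_le_log (hR.trans_le (le_max_left _ _))
  exact max_le_max h le_rfl

/-- three circles -/
lemma cmn_convex (Q : ℂ[X]) (c : ℂ) {R0 R1 R2 p : ℝ} (h1 : 0 < R1) (h2 : 0 < R2) (h0 : 0 < R0)
    (hp0 : 0 ≤ p) (hp1 : p ≤ 1) (h : Real.log R0 = p * Real.log R1 + (1 - p) * Real.log R2) :
    cmn Q c R0 ≤ p * cmn Q c R1 + (1 - p) * cmn Q c R2 := by
  unfold cmn
  have key : ∀ s : Multiset ℂ, (s.map (fun a => Real.log (max R0 ‖c - a‖))).sum
      ≤ p * (s.map (fun a => Real.log (max R1 ‖c - a‖))).sum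
        + (1 - p) * (s.map (fun a => Real.log (max R2 ‖c - a‖))).sum := by
    intro s
    induction s using Multiset.induction_on with
    | empty => simp
    | cons a s ih =>
      simp only [Multiset.map_cons, Multiset.sum_cons]
      have h3 : Real.log (max R0 ‖c - a‖) ≤ p * Real.log (max R1 ‖c - a‖)
          + (1 - p) * Real.log (max R2 ‖c - a‖) := by
        have a1 : Real.log R1 ≤ Real.log (max R1 ‖c - a‖) := Real.log_le_log h1 (le_max_left _ _)
        have a2 : Real.log R2 ≤ Real.log (max R2 ‖c - a‖) := Real.log_le_log h2 (le_max_left _ _)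
        rcases le_total R0 ‖c - a‖ with h4 | h4
        · have hpos : 0 < ‖c - a‖ := h0.trans_le h4
          rw [max_eq_right h4]
          have b1 : Real.log ‖c - a‖ ≤ Real.log (max R1 ‖c - a‖) :=
            Real.log_le_log hpos (le_max_right _ _)
          have b2 : Real.log ‖c - a‖ ≤ Real.log (max R2 ‖c - a‖) :=
            Real.log_le_log hpos (le_max_right _ _)
          nlinarith
        · rw [max_eq_left h4, h]
          nlinarith
      linarith
  have := key Q.roots
  linarith

end Pool.Agent.Helper19
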