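import Pool.Agent.Helper19.CMat

set_option autoImplicit false

open MeasureTheory Filter Topology Matrix
open scoped ENNReal NNReal Real

namespace Pool.Agent.Helper19

set_option linter.unusedSectionVars false

/-- `log (1 + x) ≤ x ^ a / a` -/
lemma log_one_add_le_rpow {x a : ℝ} (hx : 0 ≤ x) (ha : 0 < a) (ha1 : a ≤ 1) :
    Real.log (1 + x) ≤ x ^ a / a := by
  rw [le_div_iff₀ ha, mul_comm, ← Real.log_rpow (by linarith)]
  have h1 : (1 + x) ^ a ≤ 1 + x ^ a := by
    lift x to ℝ≥0 using hx
    have h2 := NNReal.rpow_add_le_add_rpow (1 : ℝ≥0) x ha.le ha1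
    rw [NNReal.one_rpow] at h2
    exact_mod_cast h2
  have h4 : 0 < (1 + x) ^ a := Real.rpow_pos_of_pos (by linarith) a
  have h5 := Real.log_le_sub_one_of_pos h4
  linarith

/-- pointwise bound for the change of coupling -/
lemma cpl_pointwise {q l x : ℝ} (hq : 0 < q) (hq2 : q ≤ 1 / 2) (hl : 0 < l) {z0 α β : ℂ}
    (hz : ‖z0 - 1‖ ≤ l) (hβ : β ≠ 0) (h0 : x + (α / β).re ≠ 0)
    (hne : α + z0 * (x : ℂ) * β ≠ 0) :
    Real.log ‖α + z0 * (x : ℂ) * β‖ - Real.log ‖α + (x : ℂ) * β‖
      ≤ l ^ (q / 2) / q * (|x| ^ q + 1 + (Real.sqrt |x + (α / β).re|)⁻¹) := by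
  set γ : ℂ := (x : ℂ) + α / β with hγ
  have hγre : γ.re = x + (α / β).re := by simp [hγ]
  have hβn : 0 < ‖β‖ := norm_pos_iff.mpr hβ
  have hγ0 : γ ≠ 0 := by
    intro h; rw [h] at hγre; exact h0 hγre.symm
  have hγn : 0 < ‖γ‖ := norm_pos_iff.mpr hγ0
  have h1 : α + (x : ℂ) * β = γ * β := by rw [hγ]; field_simp; ring
  have h2 : α + z0 * (x : ℂ) * β = (γ + (z0 - 1) * x) * β := by rw [hγ]; field_simp; ring
  set D : ℝ := ‖γ‖⁻¹ with hD
  have hD0 : 0 < D := by positivity
  have hx0 := abs_nonneg x
  have hE0 : 0 ≤ l ^ (q / 2) / q * (|x| ^ q + 1 + (Real.sqrt |x + (α / β).re|)⁻¹) := by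
    have : 0 ≤ |x| ^ q := Real.rpow_nonneg hx0 _
    positivity
  have hzero : γ + (z0 - 1) * x ≠ 0 := by
    intro h
    apply hne
    rw [h2, h, zero_mul]
  · have h3 : ‖γ + (z0 - 1) * x‖ ≤ ‖γ‖ * (1 + l * (|x| * D)) := by
      have h4 : ‖γ + (z0 - 1) * x‖ ≤ ‖γ‖ + l * |x| := by
        refine (norm_add_le _ _).trans ?_
        rw [norm_mul, Complex.norm_real, Real.norm_eq_abs]
        have := mul_le_mul_of_nonneg_right hz hx0
        linarith
      have h5 : ‖γ‖ * (1 + l * (|x| * D)) = ‖γ‖ + l * |x| := by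
        rw [hD]; field_simp
      rw [h5]; exact h4
    rw [h1, h2, norm_mul, norm_mul, Real.log_mul (norm_ne_zero_iff.mpr hzero) hβn.ne',
      Real.log_mul hγn.ne' hβn.ne']
    have h4 := Real.log_le_log (norm_pos_iff.mpr hzero) h3
    rw [Real.log_mul hγn.ne' (by positivity)] at h4
    have h5 := log_one_add_le_rpow (x := l * (|x| * D)) (a := q / 2) (by positivity) (by positivity)
      (by linarith)
    have h6 : (l * (|x| * D)) ^ (q / 2) ≤ l ^ (q / 2) * ((|x| ^ q + D ^ q) / 2) := by
      rw [Real.mul_rpow hl.le (by positivity)]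
      apply mul_le_mul_of_nonneg_left _ (by positivity)
      have h7 : (|x| * D) ^ (q / 2) = |x| ^ (q / 2) * D ^ (q / 2) := Real.mul_rpow hx0 hD0.le
      have h8 : |x| ^ q = (|x| ^ (q / 2)) ^ 2 := by
        rw [← Real.rpow_natCast, ← Real.rpow_mul hx0]; congr 1; push_cast; ring
      have h9 : D ^ q = (D ^ (q / 2)) ^ 2 := by
        rw [← Real.rpow_natCast, ← Real.rpow_mul hD0.le]; congr 1; push_cast; ring
      rw [h7, h8, h9]
      nlinarith [sq_nonneg (|x| ^ (q / 2) - D ^ (q / 2))]
    have h10 : D ^ q ≤ 1 + (Real.sqrt |x + (α / β).re|)⁻¹ := by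
      have hs : 0 < Real.sqrt |x + (α / β).re| := Real.sqrt_pos.mpr (abs_pos.mpr h0)
      have hDs : Real.sqrt D ≤ (Real.sqrt |x + (α / β).re|)⁻¹ := by
        rw [hD, Real.sqrt_inv]
        apply inv_anti₀ hs
        apply Real.sqrt_le_sqrt
        rw [← hγre]
        exact Complex.abs_re_le_norm γ
      rcases le_total D 1 with h | h
      · have := Real.rpow_le_one hD0.le h hq.le
        have : 0 < (Real.sqrt |x + (α / β).re|)⁻¹ := by positivity
        linarith
      · have h11 : D ^ q ≤ D ^ (1 / 2 : ℝ) := Real.rpow_le_rpow_of_exponent_le h hq2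
        rw [← Real.sqrt_eq_rpow] at h11
        linarith
    have h12 : (l * (|x| * D)) ^ (q / 2) / (q / 2)
        ≤ l ^ (q / 2) / q * (|x| ^ q + 1 + (Real.sqrt |x + (α / β).re|)⁻¹) := by
      rw [div_le_iff₀ (by positivity)]
      have h13 : l ^ (q / 2) / q * (|x| ^ q + 1 + (Real.sqrt |x + (α / β).re|)⁻¹) * (q / 2)
        = l ^ (q / 2) * ((|x| ^ q + 1 + (Real.sqrt |x + (α / β).re|)⁻¹) / 2) := by
        field_simp
      rw [h13]
      refine h6.trans ?_
      apply mul_le_mul_of_nonneg_left _ (by positivity)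
      linarith
    linarith

/-- bound for one site -/
noncomputable def E1 (μ : Measure ℝ) (M lam kap q l : ℝ) : ℝ :=
  l ^ (q / 2) / q * ((∫ t, |lam * t - kap| ^ q ∂μ) + 2 + 2 * M / lam)

lemma E1_nonneg {μ : Measure ℝ} {M lam kap q l : ℝ} (hM : 0 ≤ M) (hlam : 0 < lam) (hq : 0 < q)
    (hl : 0 ≤ l) : 0 ≤ E1 μ M lam kap q l := by
  unfold E1
  have h1 : 0 ≤ ∫ t, |lam * t - kap| ^ q ∂μ := integral_nonneg (fun t => by positivity)
  positivity

lemma single_cpl {μ : Measure ℝ} [IsProbabilityMeasure μ] {M : ℝ≥0} (hM : μ ≤ M • volume)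
    {lam kap : ℝ} (hlam : 0 < lam) {q : ℝ} (hq : 0 < q) (hq2 : q ≤ 1 / 2)
    (hint : Integrable (fun t => |lam * t - kap| ^ q) μ) {l : ℝ} (hl : 0 < l) (hl1 : l < 1)
    {z0 : ℂ} (hz : ‖z0 - 1‖ ≤ l) (α β : ℂ) :
    ∫⁻ t, ENNReal.ofReal (Real.log ‖α + z0 * ((lam * t - kap : ℝ) : ℂ) * β‖
      - Real.log ‖α + ((lam * t - kap : ℝ) : ℂ) * β‖) ∂μ ≤ ENNReal.ofReal (E1 μ M lam kap q l) := by
  by_cases hβ : β = 0
  · subst hβ; simp
  have hz0 : z0 ≠ 0 := by
    rintro rfl
    rw [zero_sub, norm_neg, norm_one] at hz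
    linarith
  have hac : μ ≪ volume := (Measure.absolutelyContinuous_of_le_smul (c := M) hM)
  have hsing : ∀ (a : ℝ), ∀ᵐ t ∂μ, lam * t - kap + a ≠ 0 := by
    intro a
    have : μ {t | ¬ (lam * t - kap + a ≠ 0)} = 0 := by
      apply hac
      apply Set.Subsingleton.measure_zero
      intro s hs t ht
      simp only [Set.mem_ofPred_eq, ne_eq, not_not] at hs ht
      have : lam * (s - t) = 0 := by linarith
      rcases mul_eq_zero.mp this with h | h
      · exact absurd h hlam.ne'
      · linarith
    rwa [ae_iff]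
  have h1 := hsing (α / β).re
  have h2 := hsing (α / (z0 * β)).re
  have hqi : Integrable (fun t => |lam * t - kap| ^ q + 1) μ := hint.add (integrable_const 1)
  calc ∫⁻ t, ENNReal.ofReal (Real.log ‖α + z0 * ((lam * t - kap : ℝ) : ℂ) * β‖
      - Real.log ‖α + ((lam * t - kap : ℝ) : ℂ) * β‖) ∂μ
      ≤ ∫⁻ t, (ENNReal.ofReal (l ^ (q / 2) / q) * (ENNReal.ofReal (|lam * t - kap| ^ q + 1)
        + ENNReal.ofReal ((Real.sqrt |lam * t + (-kap + (α / β).re)|)⁻¹))) ∂μ := by
        apply lintegral_mono_ae
        filter_upwards [h1, h2] with t ht1 ht2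
        have hne : α + z0 * ((lam * t - kap : ℝ) : ℂ) * β ≠ 0 := by
          intro h
          apply ht2
          have h3 : ((lam * t - kap : ℝ) : ℂ) + α / (z0 * β) = 0 := by
            field_simp
            linear_combination h
          have h4 := congrArg Complex.re h3
          simpa using h4
        have h3 := cpl_pointwise hq hq2 hl hz hβ ht1 hne
        have h4 : lam * t - kap + (α / β).re = lam * t + (-kap + (α / β).re) := by ring
        rw [h4] at h3
        rw [← ENNReal.ofReal_add (by positivity) (by positivity), ← ENNReal.ofReal_mul (by positivity)]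
        exact ENNReal.ofReal_le_ofReal h3
    _ = ENNReal.ofReal (l ^ (q / 2) / q) * ((∫⁻ t, ENNReal.ofReal (|lam * t - kap| ^ q + 1) ∂μ)
        + ∫⁻ t, ENNReal.ofReal ((Real.sqrt |lam * t + (-kap + (α / β).re)|)⁻¹) ∂μ) := by
        rw [lintegral_const_mul' _ _ ENNReal.ofReal_ne_top, lintegral_add_right _ (by fun_prop)]
    _ ≤ ENNReal.ofReal (l ^ (q / 2) / q) * (ENNReal.ofReal ((∫ t, |lam * t - kap| ^ q ∂μ) + 1)
        + ENNReal.ofReal (1 + 2 * M / lam)) := by
        gcongr
        · rw [← ofReal_integral_eq_lintegral_ofReal hqi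
            (Filter.Eventually.of_forall (fun t => by simp only [Pi.zero_apply]; positivity)),
            integral_add hint (integrable_const 1)]
          apply ENNReal.ofReal_le_ofReal
          simp
        · exact lint_inv_sqrt hM hlam _
    _ = ENNReal.ofReal (E1 μ M lam kap q l) := by
        have h5 : 0 ≤ ∫ t, |lam * t - kap| ^ q ∂μ := integral_nonneg (fun t => by positivity)
        rw [← ENNReal.ofReal_add (by positivity) (by positivity), ← ENNReal.ofReal_mul (by positivity)]
        congr 1
        unfold E1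
        ring

section
variable {ι : Type*} [Fintype ι] [DecidableEq ι]

/-- determinant with site dependent couplings -/
noncomputable def DD (M0 : Matrix ι ι ℂ) (s : ι → Site) (lam kap : ℝ) (c : ι → ℂ) (w : Site → ℝ) : ℂ :=
  (GM M0 c s (fun x => ((pot lam kap w x : ℝ) : ℂ))).det

lemma continuous_DD (M0 : Matrix ι ι ℂ) (s : ι → Site) (lam kap : ℝ) (c : ι → ℂ) :
    Continuous (DD M0 s lam kap c) := by
  unfold DD
  apply Continuous.matrix_det
  apply continuous_matrix
  intro p q
  unfold GM pot
  apply continuous_const.add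
  by_cases h : p = q
  · simp only [if_pos h]; fun_prop
  · simp only [if_neg h]; exact continuous_const

lemma DD_aff (M0 : Matrix ι ι ℂ) {s : ι → Site} (hs : Function.Injective s) (lam kap : ℝ)
    (c : ι → ℂ) (x : ι) (w : Site → ℝ) : ∃ α β : ℂ, ∀ (t : ℝ) (c0 : ℂ),
      DD M0 s lam kap (Function.update c x c0) (Function.update w (s x) t)
        = α + c0 * ((lam * t - kap : ℝ) : ℂ) * β := by
  set K := GM M0 (Function.update c x 0) s (fun y => ((pot lam kap w y : ℝ) : ℂ)) with hK
  refine ⟨K.det, (K.updateRow x (Pi.single x 1)).det, fun t c0 => ?_⟩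
  unfold DD
  rw [← det_add_single]
  congr 1
  ext p r
  rw [hK]
  unfold GM
  by_cases hp : p = x
  · subst hp
    by_cases hr : r = p
    · subst hr
      simp [pot]
    · simp [hr, Ne.symm hr]
  · have h1 : s p ≠ s x := fun h => hp (hs h)
    have h2 : pot lam kap (Function.update w (s x) t) (s p) = pot lam kap w (s p) := by
      unfold pot; rw [Function.update_of_ne h1]
    simp only [Function.update_of_ne hp, h2, hp, false_and, if_false, add_zero]

/-- almost sure invertibility -/
lemma ae_DD_ne_zero {μ : Measure ℝ} [IsProbabilityMeasure μ] (hac : μ ≪ volume) {lam kap : ℝ}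
    (hlam : 0 < lam) {M0 : Matrix ι ι ℂ} (hM0 : M0.det ≠ 0) {s : ι → Site}
    (hs : Function.Injective s) (S : Finset ι) :
    ∀ c : ι → ℂ, (∀ p, p ∉ S → c p = 0) → ∀ᵐ w ∂(iid Site μ), DD M0 s lam kap c w ≠ 0 := by
  induction S using Finset.induction_on with
  | empty =>
    intro c hc
    apply Filter.Eventually.of_forall
    intro w
    have : GM M0 c s (fun x => ((pot lam kap w x : ℝ) : ℂ)) = M0 := by
      ext p q
      unfold GM
      rw [hc p (by simp)]
      simp
    unfold DD
    rw [this]; exact hM0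
  | insert x S hx ih =>
    intro c hc
    have ih1 := ih (Function.update c x 0) (by
      intro p hp
      by_cases h : p = x
      · subst h; simp
      · rw [Function.update_of_ne h]
        exact hc p (by simp [h, hp]))
    have hA : MeasurableSet {w : Site → ℝ | DD M0 s lam kap c w = 0} :=
      (continuous_DD M0 s lam kap c).measurable (measurableSet_singleton 0)
    have : (iid Site μ) {w : Site → ℝ | DD M0 s lam kap c w = 0} = 0 := by
      apply null_of_sections_ae (s x) hA
      filter_upwards [ae_update (s x) ih1] with w hw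
      obtain ⟨α, β, hαβ⟩ := DD_aff M0 hs lam kap c x w
      have hα : α ≠ 0 := by
        obtain ⟨t, ht⟩ := hw.exists
        have h1 := hαβ t 0
        rw [zero_mul, zero_mul, add_zero] at h1
        rw [← h1]; exact ht
      have h2 : ∀ t : ℝ, DD M0 s lam kap c (Function.update w (s x) t)
          = α + c x * ((lam * t - kap : ℝ) : ℂ) * β := by
        intro t
        have := hαβ t (c x)
        rwa [Function.update_eq_self] at this
      have h0 : μ {t : ℝ | α + c x * ((lam * t - kap : ℝ) : ℂ) * β = 0} = 0 := by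
        apply hac
        apply Set.Subsingleton.measure_zero
        intro a ha b hb
        simp only [Set.mem_ofPred_eq] at ha hb
        have hcb : c x * β ≠ 0 := by
          intro h
          apply hα
          have : α + (c x * β) * ((lam * a - kap : ℝ) : ℂ) = 0 := by linear_combination ha
          rwa [h, zero_mul, add_zero] at this
        have h3 : (((lam * a - kap : ℝ)) : ℂ) = ((lam * b - kap : ℝ) : ℂ) := by
          apply mul_left_cancel₀ hcb
          linear_combination ha - hb
        have h4 : lam * a - kap = lam * b - kap := by exact_mod_cast h3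
        have h5 : lam * a = lam * b := by linarith
        exact mul_left_cancel₀ hlam.ne' h5
      have h1 : ∀ᵐ t ∂μ, ¬ (α + c x * ((lam * t - kap : ℝ) : ℂ) * β = 0) := by
        rw [ae_iff]; simpa using h0
      filter_upwards [h1] with t ht hmem
      have hmem2 : DD M0 s lam kap c (Function.update w (s x) t) = 0 := hmem
      rw [h2] at hmem2
      exact ht hmem2
    rw [ae_iff]
    simpa using this

/-- coupling function -/
noncomputable def ct (z0 : ℂ) (T : Finset ι) (p : ι) : ℂ := if p ∈ T then 1 else z0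

/-- change of the coupling at all sites -/
lemma replace_all {μ : Measure ℝ} [IsProbabilityMeasure μ] {M : ℝ≥0} (hM : μ ≤ M • volume)
    {lam kap : ℝ} (hlam : 0 < lam) {q : ℝ} (hq : 0 < q) (hq2 : q ≤ 1 / 2)
    (hint : Integrable (fun t => |lam * t - kap| ^ q) μ) {l : ℝ} (hl : 0 < l) (hl1 : l < 1)
    {z0 : ℂ} (hz : ‖z0 - 1‖ ≤ l) (M0 : Matrix ι ι ℂ) {s : ι → Site}
    (hs : Function.Injective s) (T : Finset ι) :
    ∫⁻ w, ENNReal.ofReal (Real.log ‖DD M0 s lam kap (ct z0 ∅) w‖
      - Real.log ‖DD M0 s lam kap (ct z0 T) w‖) ∂(iid Site μ)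
      ≤ T.card * ENNReal.ofReal (E1 μ M lam kap q l) := by
  have hmeasD : ∀ c : ι → ℂ, Measurable (fun w : Site → ℝ => Real.log ‖DD M0 s lam kap c w‖) :=
    fun c => Real.measurable_log.comp ((continuous_DD M0 s lam kap c).measurable.norm)
  induction T using Finset.induction_on with
  | empty => simp
  | insert x T hx ih =>
    have hstep : ∫⁻ w, ENNReal.ofReal (Real.log ‖DD M0 s lam kap (ct z0 T) w‖
        - Real.log ‖DD M0 s lam kap (ct z0 (insert x T)) w‖) ∂(iid Site μ)
        ≤ ENNReal.ofReal (E1 μ M lam kap q l) := by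
      have hf : Measurable (fun w : Site → ℝ => ENNReal.ofReal
        (Real.log ‖DD M0 s lam kap (ct z0 T) w‖ - Real.log ‖DD M0 s lam kap (ct z0 (insert x T)) w‖)) :=
        ENNReal.measurable_ofReal.comp ((hmeasD _).sub (hmeasD _))
      have hf2 := hf.comp (measurable_upd (s x))
      simp only [Function.comp_def] at hf2
      rw [← (mp_update μ (s x)).lintegral_comp hf]
      rw [lintegral_prod _ hf2.aemeasurable]
      calc ∫⁻ w, ∫⁻ t, ENNReal.ofReal (Real.log ‖DD M0 s lam kap (ct z0 T) (Function.update w (s x) t)‖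
            - Real.log ‖DD M0 s lam kap (ct z0 (insert x T)) (Function.update w (s x) t)‖)
              ∂μ ∂(iid Site μ)
          ≤ ∫⁻ w, ENNReal.ofReal (E1 μ M lam kap q l) ∂(iid Site μ) := by
            apply lintegral_mono
            intro w
            obtain ⟨α, β, hαβ⟩ := DD_aff M0 hs lam kap (ct z0 T) x w
            have e1 : ct z0 T = Function.update (ct z0 T) x z0 := by
              funext p
              by_cases h : p = x
              · subst h; simp [ct, hx]
              · rw [Function.update_of_ne h]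
            have e2 : ct z0 (insert x T) = Function.update (ct z0 T) x 1 := by
              funext p
              by_cases h : p = x
              · subst h; simp [ct]
              · rw [Function.update_of_ne h]; simp [ct, h]
            have h1 : ∀ t : ℝ, DD M0 s lam kap (ct z0 T) (Function.update w (s x) t)
                = α + z0 * ((lam * t - kap : ℝ) : ℂ) * β := by
              intro t
              rw [e1]; exact hαβ t z0
            have h2 : ∀ t : ℝ, DD M0 s lam kap (ct z0 (insert x T)) (Function.update w (s x) t)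
                = α + ((lam * t - kap : ℝ) : ℂ) * β := by
              intro t
              rw [e2, hαβ t 1, one_mul]
            simp only [h1, h2]
            exact single_cpl hM hlam hq hq2 hint hl hl1 hz α β
        _ = _ := by rw [lintegral_const, measure_univ, mul_one]
    calc ∫⁻ w, ENNReal.ofReal (Real.log ‖DD M0 s lam kap (ct z0 ∅) w‖
          - Real.log ‖DD M0 s lam kap (ct z0 (insert x T)) w‖) ∂(iid Site μ)
        ≤ ∫⁻ w, (ENNReal.ofReal (Real.log ‖DD M0 s lam kap (ct z0 ∅) w‖
          - Real.log ‖DD M0 s lam kap (ct z0 T) w‖)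
          + ENNReal.ofReal (Real.log ‖DD M0 s lam kap (ct z0 T) w‖
          - Real.log ‖DD M0 s lam kap (ct z0 (insert x T)) w‖)) ∂(iid Site μ) := by
          apply lintegral_mono
          intro w
          have hsplit : Real.log ‖DD M0 s lam kap (ct z0 ∅) w‖
            - Real.log ‖DD M0 s lam kap (ct z0 (insert x T)) w‖
            = (Real.log ‖DD M0 s lam kap (ct z0 ∅) w‖ - Real.log ‖DD M0 s lam kap (ct z0 T) w‖)
            + (Real.log ‖DD M0 s lam kap (ct z0 T) w‖
              - Real.log ‖DD M0 s lam kap (ct z0 (insert x T)) w‖) := by ring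
          beta_reduce
          rw [hsplit]
          exact ENNReal.ofReal_add_le
      _ = (∫⁻ w, ENNReal.ofReal (Real.log ‖DD M0 s lam kap (ct z0 ∅) w‖
          - Real.log ‖DD M0 s lam kap (ct z0 T) w‖) ∂(iid Site μ))
          + ∫⁻ w, ENNReal.ofReal (Real.log ‖DD M0 s lam kap (ct z0 T) w‖
          - Real.log ‖DD M0 s lam kap (ct z0 (insert x T)) w‖) ∂(iid Site μ) := by
          rw [lintegral_add_left]
          exact ENNReal.measurable_ofReal.comp ((hmeasD _).sub (hmeasD _))
      _ ≤ T.card * ENNReal.ofReal (E1 μ M lam kap q l)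
          + ENNReal.ofReal (E1 μ M lam kap q l) := add_le_add ih hstep
      _ = _ := by
          rw [Finset.card_insert_of_notMem hx]
          push_cast
          ring

end

end Pool.Agent.Helper19
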