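import Pool.Agent.Helper19.Ana1
import Pool.Agent.Helper19.CP
import Pool.Agent.Helper19.Rep

set_option autoImplicit false

open MeasureTheory Filter Topology Polynomial
open scoped Real

namespace Pool.Agent.Helper19

/-- the transfer symbol -/
noncomputable def mz (g b φ : ℝ) : ℂ :=
  (b : ℂ) + Complex.exp ((g : ℂ) + φ * Complex.I) + Complex.exp (-((g : ℂ) + φ * Complex.I))

lemma mz_re (g b φ : ℝ) : (mz g b φ).re = b + 2 * Real.cosh g * Real.cos φ := by
  unfold mz
  have h1 : (Complex.exp ((g : ℂ) + φ * Complex.I)).re = Real.exp g * Real.cos φ := by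
    rw [Complex.exp_re]; simp
  have h2 : (Complex.exp (-((g : ℂ) + φ * Complex.I))).re = Real.exp (-g) * Real.cos φ := by
    rw [Complex.exp_re]; simp
  rw [Complex.add_re, Complex.add_re, h1, h2, Complex.ofReal_re, Real.cosh_eq]
  ring

lemma mz_im (g b φ : ℝ) : (mz g b φ).im = 2 * Real.sinh g * Real.sin φ := by
  unfold mz
  have h1 : (Complex.exp ((g : ℂ) + φ * Complex.I)).im = Real.exp g * Real.sin φ := by
    rw [Complex.exp_im]; simp
  have h2 : (Complex.exp (-((g : ℂ) + φ * Complex.I))).im = -(Real.exp (-g) * Real.sin φ) := by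
    rw [Complex.exp_im]; simp
  rw [Complex.add_im, Complex.add_im, h1, h2, Complex.ofReal_im, Real.sinh_eq]
  ring

lemma abs_re_le_mz (g b φ : ℝ) : |b + 2 * Real.cosh g * Real.cos φ| ≤ ‖mz g b φ‖ := by
  rw [← mz_re]
  exact Complex.abs_re_le_norm _

lemma mz_ne_zero {g : ℝ} (hg : 0 < g) (b : ℝ) {φ : ℝ} (h : Real.sin φ ≠ 0) : mz g b φ ≠ 0 := by
  intro h0
  have h1 := mz_im g b φ
  rw [h0, Complex.zero_im] at h1
  have h2 : 0 < Real.sinh g := Real.sinh_pos_iff.mpr hg
  have : 2 * Real.sinh g * Real.sin φ ≠ 0 := by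
    apply mul_ne_zero _ h
    positivity
  exact this h1.symm

lemma norm_mz_le {g b φ : ℝ} (hg : 0 ≤ g) (hg1 : g ≤ 1) : ‖mz g b φ‖ ≤ |b| + 4 := by
  unfold mz
  have h1 : ‖Complex.exp ((g : ℂ) + φ * Complex.I)‖ = Real.exp g := by
    rw [Complex.norm_exp]; simp
  have h2 : ‖Complex.exp (-((g : ℂ) + φ * Complex.I))‖ = Real.exp (-g) := by
    rw [Complex.norm_exp]; simp
  refine (norm_add_le _ _).trans ?_
  have h3 := norm_add_le (b : ℂ) (Complex.exp ((g : ℂ) + φ * Complex.I))
  rw [h1, Complex.norm_real, Real.norm_eq_abs] at h3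
  rw [h2]
  have h4 : Real.exp g ≤ 3 := by
    have := Real.exp_one_lt_d9
    have := Real.exp_le_exp.mpr hg1
    linarith
  have h5 : Real.exp (-g) ≤ 1 := Real.exp_le_one_iff.mpr (by linarith)
  linarith

/-- the quadratic polynomial -/
noncomputable def PQ (b : ℝ) : ℂ[X] := X ^ 2 + Polynomial.C (b : ℂ) * X + 1

lemma PQ_eval (b : ℝ) (z : ℂ) : (PQ b).eval z = z ^ 2 + b * z + 1 := by
  unfold PQ; simp

lemma PQ_eval_exp (g b φ : ℝ) : (PQ b).eval (Complex.exp ((g : ℂ) + φ * Complex.I))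
    = Complex.exp ((g : ℂ) + φ * Complex.I) * mz g b φ := by
  rw [PQ_eval]
  unfold mz
  have h : Complex.exp ((g : ℂ) + φ * Complex.I) * Complex.exp (-((g : ℂ) + φ * Complex.I)) = 1 := by
    rw [← Complex.exp_add, add_neg_cancel, Complex.exp_zero]
  linear_combination -h

lemma norm_exp_g (g φ : ℝ) : ‖Complex.exp ((g : ℂ) + φ * Complex.I)‖ = Real.exp g := by
  rw [Complex.norm_exp]; simp

lemma log_mz {g b φ : ℝ} (h : mz g b φ ≠ 0) :
    Real.log ‖mz g b φ‖ = lp (PQ b) (Complex.exp ((g : ℂ) + φ * Complex.I)) - g := by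
  unfold lp
  rw [PQ_eval_exp, norm_mul, norm_exp_g, Real.log_mul (Real.exp_pos _).ne' (norm_pos_iff.mpr h).ne',
    Real.log_exp]
  ring

lemma log_mz0 (b φ : ℝ) :
    Real.log ‖mz 0 b φ‖ = lp (PQ b) (Complex.exp (((0 : ℝ) : ℂ) + φ * Complex.I)) := by
  unfold lp
  rw [PQ_eval_exp, norm_mul, norm_exp_g, Real.exp_zero, one_mul]

lemma circleMap_exp (g φ : ℝ) : circleMap 0 (Real.exp g) φ = Complex.exp ((g : ℂ) + φ * Complex.I) := by
  unfold circleMap
  rw [zero_add, Complex.exp_add, Complex.ofReal_exp]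

/-- roots -/
lemma exists_root_PQ (b : ℝ) : ∃ a : ℂ, a ≠ 0 ∧ 1 ≤ ‖a‖ ∧ (|b| ≤ 2 → ‖a‖ = 1) ∧
    PQ b = (X - Polynomial.C a) * (X - Polynomial.C a⁻¹) := by
  have key : ∀ a : ℂ, a ≠ 0 → a + a⁻¹ = -b → PQ b = (X - Polynomial.C a) * (X - Polynomial.C a⁻¹) := by
    intro a ha hab
    have h1 : (b : ℂ) = -(a + a⁻¹) := by rw [hab]; ring
    have h2 : a * a⁻¹ = 1 := mul_inv_cancel₀ ha
    unfold PQ
    rw [h1]
    have h3 : (1 : ℂ[X]) = Polynomial.C a * Polynomial.C a⁻¹ := by
      rw [← Polynomial.C_mul, h2, Polynomial.C_1]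
    rw [h3, Polynomial.C_neg, Polynomial.C_add]
    ring
  rcases le_or_gt |b| 2 with h | h
  · set a : ℂ := ⟨-(b / 2), Real.sqrt (1 - b ^ 2 / 4)⟩ with ha
    have hb2 : b ^ 2 ≤ 4 := by
      rw [← sq_abs]; nlinarith [abs_nonneg b]
    have hn : Complex.normSq a = 1 := by
      rw [Complex.normSq_apply, ha]
      simp only
      rw [Real.mul_self_sqrt (by linarith)]
      ring
    have hn' : ‖a‖ = 1 := by
      have := Complex.normSq_eq_norm_sq a
      rw [hn] at this
      have h0 := norm_nonneg a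
      nlinarith
    have ha0 : a ≠ 0 := by
      intro h0; rw [h0, norm_zero] at hn'; norm_num at hn'
    refine ⟨a, ha0, hn'.ge, fun _ => hn', key a ha0 ?_⟩
    rw [Complex.inv_def, hn, _root_.inv_one, Complex.ofReal_one, mul_one, Complex.add_conj, ha]
    push_cast; ring
  · set D := Real.sqrt (b ^ 2 - 4) with hD
    have hb2 : 4 < b ^ 2 := by
      rw [← sq_abs]; nlinarith
    have hD2 : D ^ 2 = b ^ 2 - 4 := Real.sq_sqrt (by linarith)
    have hD0 : 0 ≤ D := Real.sqrt_nonneg _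
    obtain ⟨s, hs, hsb⟩ : ∃ s : ℝ, (s = 1 ∨ s = -1) ∧ s * b = |b| := by
      rcases le_total 0 b with h0 | h0
      · exact ⟨1, Or.inl rfl, by rw [abs_of_nonneg h0]; ring⟩
      · exact ⟨-1, Or.inr rfl, by rw [abs_of_nonpos h0]; ring⟩
    have hs2 : s ^ 2 = 1 := by rcases hs with rfl | rfl <;> norm_num
    set r : ℝ := -(s * (|b| + D) / 2) with hr
    have hr1 : |r| = (|b| + D) / 2 := by
      rw [hr, abs_neg, abs_div, abs_mul, abs_of_nonneg (by positivity : 0 ≤ |b| + D), abs_two]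
      have : |s| = 1 := by rcases hs with rfl | rfl <;> norm_num
      rw [this, one_mul]
    have hr0 : r ≠ 0 := by
      rw [← abs_pos, hr1]; positivity
    have hrr : r + r⁻¹ = -b := by
      have h1 : r * r + 1 = -b * r := by
        rw [hr]
        have hb3 : b = s * |b| := by
          rw [← hsb, ← mul_assoc, ← sq, hs2, one_mul]
        have e1 : (-(s * (|b| + D) / 2)) * (-(s * (|b| + D) / 2)) = s ^ 2 * (|b| + D) ^ 2 / 4 := by ring
        have e2 : -b * (-(s * (|b| + D) / 2)) = (s * b) * (|b| + D) / 2 := by ring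
        rw [e1, e2, hs2, hsb]
        have e3 : |b| ^ 2 = b ^ 2 := sq_abs b
        nlinarith
      field_simp
      linarith
    refine ⟨(r : ℂ), by exact_mod_cast hr0, ?_, fun h2 => absurd h2 (not_le.mpr h), key _ (by exact_mod_cast hr0) ?_⟩
    · rw [Complex.norm_real, Real.norm_eq_abs, hr1]; linarith
    · have : ((r + r⁻¹ : ℝ) : ℂ) = ((-b : ℝ) : ℂ) := by rw [hrr]
      push_cast at this
      exact this

lemma PQ_ne_zero (b : ℝ) : PQ b ≠ 0 := by
  intro h
  have := PQ_eval b 0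
  rw [h] at this
  simp at this

/-- the circle mean of the quadratic -/
noncomputable def Jm (g b : ℝ) : ℝ := cmn (PQ b) 0 (Real.exp g)

lemma Jm_ge {g : ℝ} (hg : 0 ≤ g) (b : ℝ) : Jm 0 b + (if |b| ≤ 2 then g else 0) ≤ Jm g b - g := by
  obtain ⟨a, ha0, ha1, ha2, hQ⟩ := exists_root_PQ b
  have h1 : ∀ R : ℝ, cmn (PQ b) 0 R = Real.log (max R ‖a‖) + Real.log (max R ‖a‖⁻¹) := by
    intro R
    unfold cmn
    have hne : (X - Polynomial.C a) * (X - Polynomial.C a⁻¹) ≠ 0 := by
      rw [← hQ]; exact PQ_ne_zero b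
    rw [hQ, Polynomial.roots_mul hne, Polynomial.roots_X_sub_C, Polynomial.roots_X_sub_C,
      Polynomial.leadingCoeff_mul, Polynomial.leadingCoeff_X_sub_C, Polynomial.leadingCoeff_X_sub_C]
    simp
  unfold Jm
  rw [h1, h1, Real.exp_zero]
  have hinv : ‖a‖⁻¹ ≤ 1 := inv_le_one_of_one_le₀ ha1
  have hR : 1 ≤ Real.exp g := Real.one_le_exp hg
  rw [max_eq_left hinv, max_eq_left (hinv.trans hR), Real.log_one, Real.log_exp, max_eq_right ha1]
  split_ifs with h
  · rw [ha2 h, max_eq_left hR, Real.log_exp, Real.log_one]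
    linarith
  · have : Real.log ‖a‖ ≤ Real.log (max (Real.exp g) ‖a‖) :=
      Real.log_le_log (by linarith) (le_max_right _ _)
    linarith

/-- integrals over the circle -/
lemma lp_int (g b : ℝ) :
    IntervalIntegrable (fun φ : ℝ => lp (PQ b) (Complex.exp ((g : ℂ) + φ * Complex.I))) volume 0 (2 * π) ∧
    ∫ φ in (0 : ℝ)..(2 * π), lp (PQ b) (Complex.exp ((g : ℂ) + φ * Complex.I)) = 2 * π * Jm g b := by
  obtain ⟨h1, h2⟩ := circ_poly (PQ_ne_zero b) 0 (Real.exp_pos g)
  have h3 : (fun φ : ℝ => lp (PQ b) (circleMap 0 (Real.exp g) φ))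
      = fun φ : ℝ => lp (PQ b) (Complex.exp ((g : ℂ) + φ * Complex.I)) := by
    funext φ
    rw [circleMap_exp]
  constructor
  · have h4 : IntervalIntegrable (fun φ : ℝ => lp (PQ b) (circleMap 0 (Real.exp g) φ)) volume 0 (2 * π) := h1
    rwa [h3] at h4
  · unfold Real.circleAverage at h2
    rw [h3, smul_eq_mul] at h2
    unfold Jm
    rw [← h2, ← mul_assoc, mul_inv_cancel₀ (by positivity), one_mul]

/-- lower bound of the real part by chords -/
lemma exists_chord {b c : ℝ} (hc : 1 ≤ c) : ∃ β : ℝ, ∀ φ : ℝ,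
    min (ch (φ - β)) (ch (φ + β)) ^ 2 ≤ |b + 2 * c * Real.cos φ| := by
  rcases le_or_gt |b| (2 * c) with h | h
  · obtain ⟨β, hβ⟩ := exists_angle (by linarith) h
    refine ⟨β, fun φ => ?_⟩
    have h1 := prod_form c β φ (by linarith)
    rw [← hβ] at h1
    rw [h1]
    set p := ch (φ - β) with hp
    set q := ch (φ + β) with hq
    have p0 : 0 ≤ p := ch_nonneg _
    have q0 : 0 ≤ q := ch_nonneg _
    have h2 : min p q ^ 2 ≤ p * q := by
      rcases le_total p q with hpq | hpq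
      · rw [min_eq_left hpq]; nlinarith
      · rw [min_eq_right hpq]; nlinarith
    have h3 : 0 ≤ p * q := mul_nonneg p0 q0
    nlinarith
  · have hmin : ∀ β φ : ℝ, min (ch (φ - β)) (ch (φ + β)) ^ 2 ≤ ch (φ - β) ^ 2 := by
      intro β φ
      apply pow_le_pow_left₀ (le_min (ch_nonneg _) (ch_nonneg _)) (min_le_left _ _)
    rcases le_total 0 b with hb | hb
    · rw [abs_of_nonneg hb] at h
      refine ⟨π, fun φ => (hmin π φ).trans ?_⟩
      have h1 : ch (φ - π) ^ 2 = 2 + 2 * Real.cos φ := by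
        unfold ch
        rw [mul_pow, sq_abs, show (φ - π) / 2 = φ / 2 - π / 2 by ring, Real.sin_sub_pi_div_two, neg_sq]
        have h2 := Real.cos_sq (φ / 2)
        rw [show 2 * (φ / 2) = φ by ring] at h2
        rw [h2]; ring
      rw [h1]
      have h2 := Real.neg_one_le_cos φ
      have h3 := le_abs_self (b + 2 * c * Real.cos φ)
      nlinarith
    · rw [abs_of_nonpos hb] at h
      refine ⟨0, fun φ => (hmin 0 φ).trans ?_⟩
      have h1 : ch (φ - 0) ^ 2 = 2 - 2 * Real.cos φ := by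
        unfold ch
        rw [sub_zero, mul_pow, sq_abs, Real.sin_sq]
        have h2 := Real.cos_sq (φ / 2)
        rw [show 2 * (φ / 2) = φ by ring] at h2
        rw [h2]; ring
      rw [h1]
      have h2 := Real.cos_le_one φ
      have h3 := neg_abs_le (b + 2 * c * Real.cos φ)
      nlinarith

/-- inverse square root of the chord -/
noncomputable def hp (y : ℝ) : ℝ := (Real.sqrt (ch y))⁻¹

lemma hp_nonneg (y : ℝ) : 0 ≤ hp y := by unfold hp; positivity
lemma hp_periodic : Function.Periodic hp (2 * π) := by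
  intro y; unfold hp; rw [ch_periodic y]
lemma measurable_hp : Measurable hp := by
  unfold hp
  exact (continuous_ch.measurable.sqrt).inv

lemma hp_int_half : IntervalIntegrable hp volume 0 π := by
  have hπ := Real.pi_pos
  have h1 : IntervalIntegrable (fun y : ℝ => Real.sqrt (π / 2) * y ^ (-(1 / 2) : ℝ)) volume 0 π :=
    (intervalIntegral.intervalIntegrable_rpow' (by norm_num)).const_mul _
  rw [intervalIntegrable_iff_integrableOn_Ioc_of_le hπ.le] at h1 ⊢
  refine h1.mono' measurable_hp.aestronglyMeasurable ?_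
  rw [ae_restrict_iff' measurableSet_Ioc]
  refine Filter.Eventually.of_forall (fun y hy => ?_)
  rw [Real.norm_eq_abs, abs_of_nonneg (hp_nonneg y)]
  have h2 := ch_ge hy.1.le hy.2
  have hy0 := hy.1
  unfold hp
  have h3 : Real.sqrt (2 / π * y) ≤ Real.sqrt (ch y) := Real.sqrt_le_sqrt h2
  have h4 : (Real.sqrt (ch y))⁻¹ ≤ (Real.sqrt (2 / π * y))⁻¹ :=
    inv_anti₀ (Real.sqrt_pos.mpr (by positivity)) h3
  refine h4.trans (le_of_eq ?_)
  rw [Real.sqrt_mul (by positivity), mul_inv, Real.rpow_neg hy0.le, ← Real.sqrt_eq_rpow,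
    ← Real.sqrt_inv, inv_div]

lemma hp_int : IntervalIntegrable hp volume 0 (2 * π) := by
  have h1 := hp_int_half
  have h2 : IntervalIntegrable (fun y => hp (2 * π - y)) volume (2 * π - 0) (2 * π - π) :=
    h1.comp_sub_left (2 * π)
  have h3 : (fun y => hp (2 * π - y)) = hp := by
    funext y
    unfold hp ch
    rw [show (2 * π - y) / 2 = π - y / 2 by ring, Real.sin_pi_sub]
  rw [h3, sub_zero, show 2 * π - π = π by ring] at h2
  exact h1.trans h2.symm

/-- the constant -/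
noncomputable def I0 : ℝ := ∫ y in (0 : ℝ)..(2 * π), hp y

lemma I0_nonneg : 0 ≤ I0 := by
  unfold I0
  apply intervalIntegral.integral_nonneg (by positivity)
  intro y _
  exact hp_nonneg y

lemma hp_int_shift (x : ℝ) : IntervalIntegrable (fun y => hp (y + x)) volume 0 (2 * π) ∧
    ∫ y in (0 : ℝ)..(2 * π), hp (y + x) = I0 := by
  have h0 : IntervalIntegrable hp volume (0 + x) (2 * π + x) :=
    hp_periodic.intervalIntegrable₀ (by positivity) hp_int _ _
  constructor
  · have := h0.comp_add_right x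
    simpa using this
  · rw [intervalIntegral.integral_comp_add_right, zero_add,
      show 2 * π + x = x + 2 * π by ring, hp_periodic.intervalIntegral_add_eq x 0, zero_add]
    rfl

lemma ae_ch_ne (x : ℝ) : ∀ᵐ φ : ℝ, ch (φ + x) ≠ 0 := by
  have h1 : {φ : ℝ | ¬ ch (φ + x) ≠ 0} ⊆ Set.range (fun n : ℤ => 2 * (n * π) - x) := by
    intro φ hφ
    simp only [Set.mem_ofPred_eq, not_not] at hφ
    unfold ch at hφ
    have h2 : Real.sin ((φ + x) / 2) = 0 := by
      have : |Real.sin ((φ + x) / 2)| = 0 := by linarith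
      exact abs_eq_zero.mp this
    obtain ⟨n, hn⟩ := Real.sin_eq_zero_iff.mp h2
    exact ⟨n, by simp only; linarith⟩
  rw [ae_iff]
  exact measure_mono_null h1 ((Set.countable_range _).measure_zero volume)

/-- integral of the regularisation error -/
lemma dl_int {g b η : ℝ} (hη : 0 ≤ η) :
    IntervalIntegrable (fun φ : ℝ => Real.log (1 + η / ‖mz g b φ‖)) volume 0 (2 * π) ∧
    ∫ φ in (0 : ℝ)..(2 * π), Real.log (1 + η / ‖mz g b φ‖) ≤ 8 * I0 * η ^ (1 / 4 : ℝ) := by
  obtain ⟨β, hβ⟩ := exists_chord (b := b) (Real.one_le_cosh g)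
  obtain ⟨i1, e1⟩ := hp_int_shift (-β)
  obtain ⟨i2, e2⟩ := hp_int_shift β
  have hdom : IntervalIntegrable (fun φ : ℝ => 4 * η ^ (1 / 4 : ℝ) * (hp (φ + -β) + hp (φ + β)))
      volume 0 (2 * π) := (i1.add i2).const_mul _
  have hpt : ∀ᵐ φ : ℝ, Real.log (1 + η / ‖mz g b φ‖) ≤ 4 * η ^ (1 / 4 : ℝ) * (hp (φ + -β) + hp (φ + β)) := by
    filter_upwards [ae_ch_ne (-β), ae_ch_ne β] with φ h1 h2
    have h3 := hβ φ
    rw [sub_eq_add_neg] at h3
    have p0 : 0 < ch (φ + -β) := lt_of_le_of_ne (ch_nonneg _) (Ne.symm h1)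
    have q0 : 0 < ch (φ + β) := lt_of_le_of_ne (ch_nonneg _) (Ne.symm h2)
    have hm0 : 0 < min (ch (φ + -β)) (ch (φ + β)) := lt_min p0 q0
    have h4 : min (ch (φ + -β)) (ch (φ + β)) ^ 2 ≤ ‖mz g b φ‖ := h3.trans (abs_re_le_mz g b φ)
    have h5 : 0 < ‖mz g b φ‖ := lt_of_lt_of_le (by positivity) h4
    have h6 := log_one_add_le_rpow (x := η / ‖mz g b φ‖) (a := 1 / 4) (by positivity) (by norm_num)
      (by norm_num)
    refine h6.trans ?_
    rw [Real.div_rpow hη h5.le, div_div_eq_mul_div, div_one, div_mul_eq_mul_div, mul_comm (η ^ (1 / 4 : ℝ)) 4,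
      div_eq_mul_inv]
    apply mul_le_mul_of_nonneg_left _ (by positivity)
    have h7 : Real.sqrt (min (ch (φ + -β)) (ch (φ + β))) ≤ ‖mz g b φ‖ ^ (1 / 4 : ℝ) := by
      have h8 := Real.rpow_le_rpow (by positivity) h4 (by norm_num : (0 : ℝ) ≤ 1 / 4)
      rw [← Real.rpow_natCast, ← Real.rpow_mul hm0.le] at h8
      rw [Real.sqrt_eq_rpow]
      convert h8 using 2
      norm_num
    have h8 : (‖mz g b φ‖ ^ (1 / 4 : ℝ))⁻¹ ≤ (Real.sqrt (min (ch (φ + -β)) (ch (φ + β))))⁻¹ :=
      inv_anti₀ (Real.sqrt_pos.mpr hm0) h7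
    refine h8.trans ?_
    rcases le_total (ch (φ + -β)) (ch (φ + β)) with h9 | h9
    · rw [min_eq_left h9]
      have := hp_nonneg (φ + β)
      unfold hp at this ⊢
      linarith
    · rw [min_eq_right h9]
      have := hp_nonneg (φ + -β)
      unfold hp at this ⊢
      linarith
  have hnn : ∀ φ : ℝ, 0 ≤ Real.log (1 + η / ‖mz g b φ‖) := by
    intro φ
    apply Real.log_nonneg
    have : 0 ≤ η / ‖mz g b φ‖ := by positivity
    linarith
  have hmeas : Measurable (fun φ : ℝ => Real.log (1 + η / ‖mz g b φ‖)) := by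
    unfold mz
    fun_prop
  have hint : IntervalIntegrable (fun φ : ℝ => Real.log (1 + η / ‖mz g b φ‖)) volume 0 (2 * π) := by
    rw [intervalIntegrable_iff_integrableOn_Ioc_of_le (by positivity)] at hdom ⊢
    refine hdom.mono' hmeas.aestronglyMeasurable ?_
    filter_upwards [ae_restrict_of_ae hpt] with φ h
    rw [Real.norm_eq_abs, abs_of_nonneg (hnn φ)]
    exact h
  refine ⟨hint, ?_⟩
  have h1 : ∫ φ in (0 : ℝ)..(2 * π), Real.log (1 + η / ‖mz g b φ‖)
      ≤ ∫ φ in (0 : ℝ)..(2 * π), 4 * η ^ (1 / 4 : ℝ) * (hp (φ + -β) + hp (φ + β)) := by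
    apply intervalIntegral.integral_mono_ae (by positivity) hint hdom
    exact hpt
  rw [intervalIntegral.integral_const_mul, intervalIntegral.integral_add i1 i2, e1, e2] at h1
  linarith

/-- averaging over the grid offset -/
lemma avg_sum {f : ℝ → ℝ} {N : ℕ} (hN : 0 < N) (hf : IntervalIntegrable f volume 0 (2 * π)) :
    (∀ a < N, IntervalIntegrable (fun θ : ℝ => f ((θ + 2 * π * a) / N)) volume 0 (2 * π)) ∧
    ∫ θ in (0 : ℝ)..(2 * π), ∑ a ∈ Finset.range N, f ((θ + 2 * π * a) / N)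
      = N * ∫ φ in (0 : ℝ)..(2 * π), f φ := by
  have hπ := Real.pi_pos
  have hN' : (0 : ℝ) < N := by exact_mod_cast hN
  set pt : ℕ → ℝ := fun a => 2 * π * a / N with hpt
  have hsub : ∀ a < N, IntervalIntegrable f volume (pt a) (pt (a + 1)) := by
    intro a ha
    apply hf.mono_set
    have hle : pt a ≤ pt (a + 1) := by
      simp only [hpt]
      push_cast
      gcongr
      linarith
    have hle2 : (0 : ℝ) ≤ 2 * π := by positivity
    rw [Set.uIcc_of_le hle, Set.uIcc_of_le hle2]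
    apply Set.Icc_subset_Icc
    · simp only [hpt]; positivity
    · simp only [hpt]
      rw [div_le_iff₀ hN']
      have : ((a + 1 : ℕ) : ℝ) ≤ N := by exact_mod_cast ha
      have h2 := mul_le_mul_of_nonneg_left this (by positivity : 0 ≤ 2 * π)
      exact h2
  have hint : ∀ a < N, IntervalIntegrable (fun θ : ℝ => f ((θ + 2 * π * a) / N)) volume 0 (2 * π) := by
    intro a ha
    have h1 := hsub a ha
    have h2 : IntervalIntegrable (fun x => f (x + pt a)) volume (pt a - pt a) (pt (a + 1) - pt a) :=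
      h1.comp_add_right (pt a)
    have h3 : IntervalIntegrable (fun x => f (x * (N : ℝ)⁻¹ + pt a)) volume
        ((pt a - pt a) / (N : ℝ)⁻¹) ((pt (a + 1) - pt a) / (N : ℝ)⁻¹) :=
      h2.comp_mul_right (c := (N : ℝ)⁻¹)
    have e1 : (pt a - pt a) / (N : ℝ)⁻¹ = 0 := by simp
    have e2 : (pt (a + 1) - pt a) / (N : ℝ)⁻¹ = 2 * π := by
      simp only [hpt]
      push_cast
      field_simp
      ring
    rw [e1, e2] at h3
    convert h3 using 2 with θ
    simp only [hpt]
    congr 1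
    field_simp
  refine ⟨hint, ?_⟩
  rw [intervalIntegral.integral_finsetSum (fun a ha => hint a (Finset.mem_range.mp ha))]
  have h1 : ∀ a ∈ Finset.range N, ∫ θ in (0 : ℝ)..(2 * π), f ((θ + 2 * π * a) / N)
      = N * ∫ φ in (pt a)..(pt (a + 1)), f φ := by
    intro a _
    have h2 := intervalIntegral.integral_comp_div_add (a := 0) (b := 2 * π) f hN'.ne' (pt a)
    have e1 : (0 : ℝ) / N + pt a = pt a := by simp
    have e2 : 2 * π / N + pt a = pt (a + 1) := by
      simp only [hpt]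
      push_cast
      field_simp
      ring
    rw [e1, e2, smul_eq_mul] at h2
    rw [← h2]
    apply intervalIntegral.integral_congr
    intro θ _
    simp only [hpt]
    congr 1
    field_simp
  rw [Finset.sum_congr rfl h1, ← Finset.mul_sum,
    intervalIntegral.sum_integral_adjacent_intervals (fun a ha => hsub a ha)]
  have e0 : pt 0 = 0 := by simp [hpt]
  have e1 : pt N = 2 * π := by
    simp only [hpt]
    field_simp
  rw [e0, e1]

end Pool.Agent.Helper19
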