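import Pool.Agent.Helper19.CP

set_option autoImplicit false

open MeasureTheory Filter Topology Polynomial Real
open scoped ENNReal NNReal

namespace Pool.Agent.Helper19

/-- polar coordinates on a disc -/
lemma polar_ball {f : ℂ → ℝ≥0∞} (hf : Measurable f) (c : ℂ) {R : ℝ} :
    ∫⁻ z in Metric.ball c R, f z
      = ∫⁻ ρ in Set.Ioo 0 R, ENNReal.ofReal ρ * ∫⁻ φ in Set.Ioo (-π) π, f (circleMap c ρ φ) := by
  have hb : MeasurableSet (Metric.ball c R) := Metric.isOpen_ball.measurableSet
  rw [← lintegral_indicator hb]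
  have h1 : ∫⁻ z, (Metric.ball c R).indicator f z = ∫⁻ z, (Metric.ball c R).indicator f (z + c) :=
    (lintegral_add_right_eq_self (fun z => (Metric.ball c R).indicator f z) c).symm
  rw [h1, ← Complex.lintegral_comp_polarCoord_symm]
  have htar : polarCoord.target = Set.Ioi (0 : ℝ) ×ˢ Set.Ioo (-π) π := rfl
  rw [htar, Measure.volume_eq_prod, ← Measure.prod_restrict, lintegral_prod]
  · have h2 : ∀ ρ ∈ Set.Ioi (0 : ℝ), ∫⁻ φ in Set.Ioo (-π) π, ENNReal.ofReal (ρ, φ).1 •
        (Metric.ball c R).indicator f (Complex.polarCoord.symm (ρ, φ) + c)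
        = (Set.Ioo 0 R).indicator (fun ρ => ENNReal.ofReal ρ * ∫⁻ φ in Set.Ioo (-π) π,
          f (circleMap c ρ φ)) ρ := by
      intro ρ hρ
      have hρ0 : 0 < ρ := hρ
      have h3 : ∀ φ : ℝ, Complex.polarCoord.symm (ρ, φ) + c = circleMap c ρ φ := by
        intro φ
        rw [Complex.polarCoord_symm_apply]
        unfold circleMap
        rw [Complex.exp_mul_I]
        push_cast
        ring
      by_cases hR : ρ < R
      · have hmem : ρ ∈ Set.Ioo 0 R := ⟨hρ0, hR⟩
        rw [Set.indicator_of_mem hmem]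
        have h4 : ∀ φ : ℝ, ENNReal.ofReal (ρ, φ).1 • (Metric.ball c R).indicator f
            (Complex.polarCoord.symm (ρ, φ) + c) = ENNReal.ofReal ρ * f (circleMap c ρ φ) := by
          intro φ
          rw [h3, Set.indicator_of_mem, smul_eq_mul]
          rw [Metric.mem_ball, dist_eq_norm, circleMap_sub_center, norm_circleMap_zero,
            abs_of_pos hρ0]
          exact hR
        simp only [h4]
        rw [lintegral_const_mul]
        exact hf.comp (continuous_circleMap c ρ).measurable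
      · rw [Set.indicator_of_notMem (fun h => hR h.2)]
        have h4 : ∀ φ : ℝ, ENNReal.ofReal (ρ, φ).1 • (Metric.ball c R).indicator f
            (Complex.polarCoord.symm (ρ, φ) + c) = 0 := by
          intro φ
          rw [h3, Set.indicator_of_notMem, smul_zero]
          rw [Metric.mem_ball, dist_eq_norm, circleMap_sub_center, norm_circleMap_zero,
            abs_of_pos hρ0]
          exact hR
        simp only [h4, lintegral_zero]
    rw [setLIntegral_congr_fun measurableSet_Ioi h2, lintegral_indicator measurableSet_Ioo,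
      Measure.restrict_restrict measurableSet_Ioo]
    congr 2
    ext x
    simp only [Set.mem_inter_iff, Set.mem_Ioo, Set.mem_Ioi]
    tauto
  · apply Measurable.aemeasurable
    simp only [smul_eq_mul]
    apply Measurable.mul
    · exact ENNReal.measurable_ofReal.comp measurable_fst
    · apply (hf.indicator hb).comp
      apply Measurable.add_const
      have : (fun p : ℝ × ℝ => Complex.polarCoord.symm p)
          = fun p : ℝ × ℝ => (p.1 : ℂ) * (Real.cos p.2 + Real.sin p.2 * Complex.I) := by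
        funext p; rw [Complex.polarCoord_symm_apply]
      have h5 : Measurable (fun p : ℝ × ℝ => Complex.polarCoord.symm p) := by
        rw [this]; fun_prop
      exact h5

lemma integral_Ioo_circ' (f : ℂ → ℝ) (c : ℂ) (R : ℝ) :
    ∫ θ in Set.Ioo (-π) π, f (circleMap c R θ) = (2 * π) * Real.circleAverage f c R := by
  have h1 := Real.circleAverage_eq_integral_add (f := f) (c := c) (R := R) (-π)
  rw [h1, smul_eq_mul, ← mul_assoc, mul_inv_cancel₀ (by positivity), one_mul]
  rw [← integral_Ioc_eq_integral_Ioo, ← intervalIntegral.integral_of_le (by linarith [Real.pi_pos])]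
  have h2 := intervalIntegral.integral_comp_add_right (a := 0) (b := 2 * π)
    (fun θ => f (circleMap c R θ)) (-π)
  rw [h2]
  congr 1
  · ring
  · ring

lemma integrableOn_Ioo_circ' {f : ℂ → ℝ} {c : ℂ} {R : ℝ} (hf : CircleIntegrable f c R) :
    IntegrableOn (fun θ => f (circleMap c R θ)) (Set.Ioo (-π) π) := by
  have hper : Function.Periodic (fun θ => f (circleMap c R θ)) (2 * π) := by
    intro θ
    simp only
    rw [periodic_circleMap c R θ]
  have h1 : IntervalIntegrable (fun θ => f (circleMap c R θ)) volume (-π) π := by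
    have h2 : IntervalIntegrable (fun θ => f (circleMap c R θ)) volume 0 (0 + 2 * π) := by
      rw [zero_add]; exact hf
    exact hper.intervalIntegrable (by positivity) h2 _ _
  have h3 := (intervalIntegrable_iff_integrableOn_Ioc_of_le (by linarith [Real.pi_pos])).mp h1
  exact h3.mono_set Set.Ioo_subset_Ioc_self

lemma volume_Ioo_pi : (volume (Set.Ioo (-π) π)) = ENNReal.ofReal (2 * π) := by
  rw [Real.volume_Ioo]; congr 1; ring

/-- lower integral over a circle -/
lemma lint_circ {Q : ℂ[X]} (hQ : Q ≠ 0) {C : ℝ} {c : ℂ} {ρ : ℝ} (hρ : 0 < ρ)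
    (hC : ∀ φ : ℝ, lp Q (circleMap c ρ φ) ≤ C) :
    ∫⁻ φ in Set.Ioo (-π) π, ENNReal.ofReal (C - lp Q (circleMap c ρ φ))
      = ENNReal.ofReal (2 * π * (C - cmn Q c ρ)) := by
  obtain ⟨h1, h2⟩ := circ_poly hQ c hρ
  have h3 := integrableOn_Ioo_circ' h1
  have hfin : IsFiniteMeasure (volume.restrict (Set.Ioo (-π) π)) :=
    ⟨by rw [Measure.restrict_apply_univ, volume_Ioo_pi]; exact ENNReal.ofReal_lt_top⟩
  have h4 : Integrable (fun φ => C - lp Q (circleMap c ρ φ)) (volume.restrict (Set.Ioo (-π) π)) :=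
    (integrable_const C).sub h3
  rw [← ofReal_integral_eq_lintegral_ofReal h4 (Filter.Eventually.of_forall (fun φ => by
    have := hC φ
    simp only [Pi.zero_apply]; linarith))]
  congr 1
  rw [integral_sub (integrable_const C) h3, integral_const, integral_Ioo_circ' (lp Q) c ρ, h2,
    Measure.real, Measure.restrict_apply_univ, volume_Ioo_pi, ENNReal.toReal_ofReal (by positivity),
    smul_eq_mul]
  ring

lemma lint_Ioo_id {R : ℝ} (hR : 0 ≤ R) : ∫⁻ ρ in Set.Ioo 0 R, ENNReal.ofReal ρ = ENNReal.ofReal (R ^ 2 / 2) := by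
  have h1 : IntegrableOn (fun ρ : ℝ => ρ) (Set.Ioo 0 R) := by
    apply (continuous_id.integrableOn_Icc (a := 0) (b := R)).mono_set
    exact Set.Ioo_subset_Icc_self
  rw [← ofReal_integral_eq_lintegral_ofReal h1]
  · congr 1
    rw [← integral_Ioc_eq_integral_Ioo, ← intervalIntegral.integral_of_le hR, integral_id]
    ring
  · filter_upwards [ae_restrict_mem measurableSet_Ioo] with x hx
    exact hx.1.le

lemma measurable_lp (Q : ℂ[X]) : Measurable (lp Q) := by
  unfold lp
  exact Real.measurable_log.comp (Q.continuous.measurable.norm)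

/-- area mean over the large disc -/
lemma area_big {Q : ℂ[X]} (hQ : Q.eval 0 ≠ 0) {C : ℝ} (hC : ∀ z : ℂ, ‖z‖ ≤ 2 → lp Q z ≤ C) :
    ∫⁻ z in Metric.ball (0 : ℂ) 2, ENNReal.ofReal (C - lp Q z) ≤ ENNReal.ofReal (4 * π * (C - lp Q 0)) := by
  have hQ0 : Q ≠ 0 := by rintro rfl; simp at hQ
  have hmeas : Measurable (fun z => ENNReal.ofReal (C - lp Q z)) :=
    (measurable_const.sub (measurable_lp Q)).ennreal_ofReal
  rw [polar_ball hmeas]
  have h0 : lp Q 0 ≤ C := hC 0 (by simp)
  have h1 : ∀ ρ ∈ Set.Ioo (0 : ℝ) 2, ENNReal.ofReal ρ * ∫⁻ φ in Set.Ioo (-π) π,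
      ENNReal.ofReal (C - lp Q (circleMap 0 ρ φ))
      ≤ ENNReal.ofReal ρ * ENNReal.ofReal (2 * π * (C - lp Q 0)) := by
    intro ρ hρ
    rw [lint_circ hQ0 hρ.1 (fun φ => hC _ (by
      rw [norm_circleMap_zero, abs_of_pos hρ.1]; exact hρ.2.le))]
    gcongr
    exact lp_le_cmn hQ ρ
  refine (setLIntegral_mono' measurableSet_Ioo h1).trans ?_
  rw [lintegral_mul_const _ (by fun_prop), lint_Ioo_id (by norm_num), ← ENNReal.ofReal_mul (by norm_num)]
  apply ENNReal.ofReal_le_ofReal
  apply le_of_eq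
  ring

/-- area mean over the small disc -/
lemma area_small {Q : ℂ[X]} (hQ : Q ≠ 0) {C : ℝ} (hC : ∀ z : ℂ, ‖z‖ ≤ 2 → lp Q z ≤ C) :
    ENNReal.ofReal (π / 4 * (C - cmn Q 1 (1 / 2)))
      ≤ ∫⁻ z in Metric.ball (1 : ℂ) (1 / 2), ENNReal.ofReal (C - lp Q z) := by
  have hmeas : Measurable (fun z => ENNReal.ofReal (C - lp Q z)) :=
    (measurable_const.sub (measurable_lp Q)).ennreal_ofReal
  rw [polar_ball hmeas]
  have h1 : ∀ ρ ∈ Set.Ioo (0 : ℝ) (1 / 2),
      ENNReal.ofReal ρ * ENNReal.ofReal (2 * π * (C - cmn Q 1 (1 / 2)))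
      ≤ ENNReal.ofReal ρ * ∫⁻ φ in Set.Ioo (-π) π, ENNReal.ofReal (C - lp Q (circleMap 1 ρ φ)) := by
    intro ρ hρ
    rw [lint_circ hQ hρ.1 (fun φ => hC _ (by
      have h2 : ‖circleMap (1 : ℂ) ρ φ‖ ≤ ‖(1 : ℂ)‖ + ‖circleMap (1 : ℂ) ρ φ - 1‖ := by
        have := norm_add_le (1 : ℂ) (circleMap (1 : ℂ) ρ φ - 1)
        rwa [add_sub_cancel] at this
      rw [circleMap_sub_center, norm_circleMap_zero, abs_of_pos hρ.1, norm_one] at h2
      linarith [hρ.2]))]
    gcongr
    exact cmn_mono Q 1 hρ.1 hρ.2.le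
  refine le_trans ?_ (setLIntegral_mono' measurableSet_Ioo h1)
  rw [lintegral_mul_const _ (by fun_prop), lint_Ioo_id (by norm_num), ← ENNReal.ofReal_mul (by norm_num)]
  apply ENNReal.ofReal_le_ofReal
  apply le_of_eq
  ring

end Pool.Agent.Helper19
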