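import Pool.Agent.Helper19.Det
import Pool.Agent.Helper19.Dich

set_option autoImplicit false

open MeasureTheory Filter Topology Matrix
open scoped ENNReal NNReal ComplexOrder

namespace Pool.Agent.Helper19

/-- site of a box index -/
def st (n L : ℕ) (p : Fin n × Fin L) : Site := (((p.1 : ℕ) : ℤ), ((p.2 : ℕ) : ℤ))

lemma st_injective (n L : ℕ) : Function.Injective (st n L) := by
  rintro ⟨a, b⟩ ⟨c, d⟩ h
  simp only [st, Prod.mk.injEq, Nat.cast_inj] at h
  ext <;> simp [h.1, h.2]

/-- the finite volume matrix -/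
noncomputable def BM (n L : ℕ) (V : Site → ℝ) : Matrix (Fin n × Fin L) (Fin n × Fin L) ℂ :=
  fun p q => (if p = q then ((V (st n L p) : ℝ) : ℂ) else 0)
    - ∑ d ∈ dirs, if st n L q = st n L p + d then 1 else 0

lemma neg_mem_dirs {d : Site} (h : d ∈ dirs) : -d ∈ dirs := by
  simp only [dirs, Finset.mem_insert, Finset.mem_singleton] at h ⊢
  rcases h with rfl | rfl | rfl | rfl <;> simp [Prod.ext_iff]

lemma BM_symm (n L : ℕ) (V : Site → ℝ) (p q : Fin n × Fin L) : BM n L V p q = BM n L V q p := by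
  unfold BM
  congr 1
  · by_cases h : p = q
    · subst h; rfl
    · rw [if_neg h, if_neg (Ne.symm h)]
  · refine Finset.sum_nbij' (fun d => -d) (fun d => -d) (fun d hd => neg_mem_dirs hd)
      (fun d hd => neg_mem_dirs hd) (fun d _ => neg_neg d) (fun d _ => neg_neg d) ?_
    intro d _
    have : (st n L q = st n L p + d) ↔ (st n L p = st n L q + -d) := by
      constructor
      · intro h; rw [h]; abel
      · intro h; rw [h]; abel
    simp only [this]

lemma BM_real (n L : ℕ) (V : Site → ℝ) (p q : Fin n × Fin L) :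
    star (BM n L V p q) = BM n L V p q := by
  unfold BM
  rw [star_sub, star_sum]
  congr 1
  · split_ifs
    · simp
    · simp
  · apply Finset.sum_congr rfl
    intro d _
    split_ifs <;> simp

lemma BM_hermitian (n L : ℕ) (V : Site → ℝ) : (BM n L V).IsHermitian := by
  ext p q
  rw [Matrix.conjTranspose_apply, BM_real, BM_symm]

/-- membership in the box -/
lemma mem_range_st {n L : ℕ} {x : Site} :
    (∃ p, st n L p = x) ↔ (0 ≤ x.1 ∧ x.1 < n ∧ 0 ≤ x.2 ∧ x.2 < L) := by
  constructor
  · rintro ⟨⟨a, b⟩, rfl⟩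
    simp only [st]
    have ha := a.2
    have hb := b.2
    omega
  · rintro ⟨h1, h2, h3, h4⟩
    refine ⟨(⟨x.1.toNat, by omega⟩, ⟨x.2.toNat, by omega⟩), ?_⟩
    simp only [st]
    ext
    · simp only; omega
    · simp only; omega

lemma BM_mulVec (n L : ℕ) (V : Site → ℝ) (u : Site → ℂ) (p : Fin n × Fin L) :
    (BM n L V).mulVec (fun q => u (st n L q)) p
      = ((V (st n L p) : ℝ) : ℂ) * u (st n L p) - ∑ d ∈ dirs,
        (if ∃ q, st n L q = st n L p + d then u (st n L p + d) else 0) := by
  unfold BM Matrix.mulVec dotProduct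
  simp only [sub_mul, Finset.sum_sub_distrib, ite_mul, zero_mul, Finset.sum_mul, one_mul]
  congr 1
  · simp
  · rw [Finset.sum_comm]
    apply Finset.sum_congr rfl
    intro d _
    by_cases h : ∃ q, st n L q = st n L p + d
    · rw [if_pos h]
      obtain ⟨q0, hq0⟩ := h
      rw [Finset.sum_eq_single q0]
      · rw [if_pos hq0, hq0]
      · intro q _ hq
        rw [if_neg]
        intro h2
        exact hq (st_injective n L (h2.trans hq0.symm))
      · intro h2; exact absurd (Finset.mem_univ _) h2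
    · rw [if_neg h]
      apply Finset.sum_eq_zero
      intro q _
      rw [if_neg (fun h2 => h ⟨q, h2⟩)]

lemma adj_eq_sum (u : Site → ℂ) (x : Site) : adj u x = ∑ d ∈ dirs, u (x + d) := by
  rw [sum_dirs, adj_eq]; rfl

/-- boundary term -/
noncomputable def bdry (n L : ℕ) (u : Site → ℂ) (p : Fin n × Fin L) : ℂ :=
  ∑ d ∈ dirs, (if ∃ q, st n L q = st n L p + d then 0 else u (st n L p + d))

lemma BM_mulVec_sol (n L : ℕ) (V : Site → ℝ) {u f : Site → ℂ} (h : Sol V 0 u f)
    (p : Fin n × Fin L) :
    (BM n L V).mulVec (fun q => u (st n L q)) p = f (st n L p) + bdry n L u p := by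
  rw [BM_mulVec, ← h (st n L p), adj_eq_sum]
  unfold bdry
  rw [sub_zero, sub_add, ← Finset.sum_sub_distrib]
  congr 1
  apply Finset.sum_congr rfl
  intro d _
  split_ifs <;> simp

end Pool.Agent.Helper19
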