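import Pool.Agent.Helper19.Cent

set_option autoImplicit false

open MeasureTheory Filter Topology
open scoped ENNReal NNReal Real

namespace Pool.Agent.Helper19

set_option linter.unusedSectionVars false

lemma allGood_shift (lam kap kap2 m e : ℝ) :
    AllGood lam kap m e = AllGood lam kap2 m (e + kap - kap2) := by
  ext w
  unfold AllGood Good Sol pot
  simp only [Set.mem_ofPred_eq]
  have h : ∀ x : Site, lam * w x - kap2 - (e + kap - kap2) = lam * w x - kap - e := fun x => by ring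
  simp only [h]

lemma cm_mono {m m' : ℝ} (h : m' ≤ m) {u : Site → ℂ} (hu : Cm m u) : Cm m' u := by
  obtain ⟨C, hC⟩ := hu
  refine ⟨C, fun x => (hC x).trans ?_⟩
  apply mul_le_mul_of_nonneg_left _ hC.nonneg
  apply Real.exp_le_exp.mpr
  have := mul_le_mul_of_nonneg_right h (nrm_nonneg (x - 0))
  linarith

lemma abs_sub_rpow_le {q : ℝ} (hq : 0 < q) (hq1 : q ≤ 1) (x y : ℝ) : |x - y| ^ q ≤ |x| ^ q + |y| ^ q := by
  have h1 : |x - y| ≤ |x| + |y| := abs_sub _ _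
  have h2 := Real.rpow_le_rpow (abs_nonneg _) h1 hq.le
  refine h2.trans ?_
  have hx := abs_nonneg x
  have hy := abs_nonneg y
  lift |x| to ℝ≥0 using hx with u
  lift |y| to ℝ≥0 using hy with v
  have := NNReal.rpow_add_le_add_rpow u v hq.le hq1
  exact_mod_cast this

section
variable {μ : Measure ℝ} [IsProbabilityMeasure μ] {M : ℝ≥0} {q : ℝ}

lemma integrable_shift (hq : 0 < q) (hq2 : q ≤ 1 / 2) (hint : Integrable (fun t : ℝ => |t| ^ q) μ)
    {lam κ : ℝ} (hlam : 0 < lam) : Integrable (fun t => |lam * t - κ| ^ q) μ ∧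
      ∫ t, |lam * t - κ| ^ q ∂μ ≤ lam ^ q * (∫ t, |t| ^ q ∂μ) + |κ| ^ q := by
  have hb : Integrable (fun t => lam ^ q * |t| ^ q + |κ| ^ q) μ := (hint.const_mul _).add (integrable_const _)
  have hpt : ∀ t : ℝ, |lam * t - κ| ^ q ≤ lam ^ q * |t| ^ q + |κ| ^ q := by
    intro t
    have := abs_sub_rpow_le hq (by linarith) (lam * t) κ
    rwa [rpow_mul_abs hlam] at this
  have hi : Integrable (fun t => |lam * t - κ| ^ q) μ := by
    have hm : Measurable (fun t : ℝ => |lam * t - κ| ^ q) := by fun_prop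
    refine hb.mono' hm.aestronglyMeasurable (Filter.Eventually.of_forall (fun t => ?_))
    rw [Real.norm_eq_abs, abs_of_nonneg (Real.rpow_nonneg (abs_nonneg _) _)]
    exact hpt t
  refine ⟨hi, ?_⟩
  have h1 : ∫ t, |lam * t - κ| ^ q ∂μ ≤ ∫ t, (lam ^ q * |t| ^ q + |κ| ^ q) ∂μ := integral_mono hi hb hpt
  rw [integral_add (hint.const_mul _) (integrable_const _), integral_const_mul] at h1
  simp only [integral_const, probReal_univ, smul_eq_mul, one_mul] at h1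
  exact h1

/-- the constant of the final bound -/
noncomputable def KK (μ : Measure ℝ) (M q : ℝ) : ℝ :=
  187 / q * (8 * I0 / (2 * π * rr μ 1) + 10 ^ 9) + ((∫ t, |t| ^ q ∂μ) + 3 + 2 * M) / (q * rr μ 1)

lemma log_two_bounds : (0.69 : ℝ) < Real.log 2 ∧ Real.log 2 < 0.7 := by
  have h1 := Real.log_two_gt_d9
  have h2 := Real.log_two_lt_d9
  constructor <;> linarith

/-- the numerical evaluation -/
lemma eval_bound (hac : μ ≪ volume) (hq : 0 < q) (hq2 : q ≤ 1 / 2)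
    (hint : Integrable (fun t : ℝ => |t| ^ q) μ) {lam κ : ℝ} (hlam : 0 < lam) (hlam3 : lam ≤ 1 / 3)
    (hκ : κ ^ 2 ≤ 6 * rr μ lam) (hκ1 : |κ| ≤ 1) :
    (CL (lam ^ (8 / q)) + 1) * (8 * I0 / (2 * π) * (lam ^ 8) ^ (1 / 4 : ℝ) + RR μ lam κ (lam ^ 8))
      + E1 μ M lam κ q (lam ^ (8 / q)) ≤ KK μ M q * (rr μ lam * Real.log (1 / lam) ^ 5) := by
  set Λ := Real.log (1 / lam) with hΛ
  set r := rr μ lam with hr
  set r1 := rr μ 1 with hr1
  have hr1pos : 0 < r1 := rr_one_pos hac hq hq2 hint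
  have hr0 : 0 ≤ r := rr_nonneg μ lam
  obtain ⟨l1, l2⟩ := log_two_bounds
  have hlam1 : lam ≤ 1 := by linarith
  have hlr : lam ^ 2 * r1 ≤ r := rr_ge hq hq2 hint hlam hlam1
  have hlr2 : lam ^ 2 ≤ r / r1 := by rwa [le_div_iff₀ hr1pos]
  have hlog3 : Real.log 3 ≤ Λ := by
    rw [hΛ]
    apply Real.log_le_log (by norm_num)
    rw [le_div_iff₀ hlam]; linarith
  have hlog3' : 1 ≤ Real.log 3 := by
    rw [Real.le_log_iff_exp_le (by norm_num)]
    have := Real.exp_one_lt_d9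
    linarith
  have hΛ1 : 1 ≤ Λ := hlog3'.trans hlog3
  have hΛeq : Real.log lam = -Λ := by
    rw [hΛ, one_div, Real.log_inv, neg_neg]
  -- pieces
  have e1 : (lam ^ 8) ^ (1 / 4 : ℝ) = lam ^ 2 := by
    rw [← Real.rpow_natCast, ← Real.rpow_mul hlam.le, ← Real.rpow_natCast lam 2]
    norm_num
  have e2 : Real.log (1 / lam ^ (8 / q)) = 8 / q * Λ := by
    rw [one_div, Real.log_inv, Real.log_rpow hlam, hΛeq]
    ring
  have e3 : (lam ^ (8 / q)) ^ (q / 2) = lam ^ 4 := by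
    rw [← Real.rpow_mul hlam.le, ← Real.rpow_natCast lam 4]
    congr 1
    push_cast
    field_simp
    norm_num
  have hCL : CL (lam ^ (8 / q)) + 1 ≤ 187 / q * Λ := by
    unfold CL
    rw [e2]
    have h1 : 16 * (8 / q * Λ / Real.log 2) = (128 / Real.log 2) * (Λ / q) := by ring
    have h2 : 128 / Real.log 2 ≤ 186 := by
      rw [div_le_iff₀ (by linarith)]; linarith
    have h3 : 1 ≤ Λ / q := by
      rw [le_div_iff₀ hq]; linarith
    have h4 : 187 / q * Λ = 187 * (Λ / q) := by ring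
    have h5 : (128 / Real.log 2) * (Λ / q) ≤ 186 * (Λ / q) := mul_le_mul_of_nonneg_right h2 (by linarith)
    rw [h1, h4]
    linarith
  have hAA : AA (lam ^ 8) ≤ 3240 * Λ ^ 2 := by
    unfold AA
    have h1 : Real.log (3 / lam ^ 8) = Real.log 3 + 8 * Λ := by
      rw [Real.log_div (by norm_num) (by positivity), Real.log_pow, hΛeq]
      push_cast; ring
    rw [h1]
    have h2 : Real.log 3 + 8 * Λ ≤ 9 * Λ := by linarith
    have h3 := pow_le_pow_left₀ (by linarith) h2 2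
    have h4 : (9 * Λ) ^ 2 = 81 * Λ ^ 2 := by ring
    linarith
  have hAA0 := AA_nonneg (lam ^ 8)
  have hpoly : 16 * AA (lam ^ 8) + 4 * AA (lam ^ 8) ^ 2 ≤ 42042240 * Λ ^ 4 := by
    have h1 := pow_le_pow_left₀ hAA0 hAA 2
    have h2 : Λ ^ 2 ≤ Λ ^ 4 := pow_le_pow_right₀ hΛ1 (by norm_num)
    have h3 : (3240 * Λ ^ 2) ^ 2 = 10497600 * Λ ^ 4 := by ring
    rw [h3] at h1
    linarith
  obtain ⟨hLB, hY2⟩ := LB_Y2_le hq hq2 hint (κ := κ) hlam
  rw [← hr] at hLB hY2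
  have hY0 := Y2_nonneg μ lam κ
  have hY : Y2 μ lam κ ≤ 21 * r := by
    have : 0.69 * Y2 μ lam κ ≤ Real.log 2 * Y2 μ lam κ := mul_le_mul_of_nonneg_right l1.le hY0
    linarith
  have hLB' : LB μ lam κ ≤ 7 * r := by linarith
  have hRR : RR μ lam κ (lam ^ 8) ≤ 10 ^ 9 * (r * Λ ^ 4) := by
    unfold RR
    have h1 : Y2 μ lam κ * (16 * AA (lam ^ 8) + 4 * AA (lam ^ 8) ^ 2) ≤ (21 * r) * (42042240 * Λ ^ 4) :=
      mul_le_mul hY hpoly (by positivity) (by positivity)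
    have h2 : r ≤ r * Λ ^ 4 := le_mul_of_one_le_right hr0 (one_le_pow₀ hΛ1)
    have h3 : (21 * r) * (42042240 * Λ ^ 4) = 882887040 * (r * Λ ^ 4) := by ring
    rw [h3] at h1
    norm_num
    linarith
  have hI0 := I0_nonneg
  have hπ := Real.pi_pos
  have hfirst : 8 * I0 / (2 * π) * (lam ^ 8) ^ (1 / 4 : ℝ) + RR μ lam κ (lam ^ 8)
      ≤ (8 * I0 / (2 * π * r1) + 10 ^ 9) * (r * Λ ^ 4) := by
    rw [e1]
    have h1 : 8 * I0 / (2 * π) * lam ^ 2 ≤ 8 * I0 / (2 * π) * (r / r1) :=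
      mul_le_mul_of_nonneg_left hlr2 (by positivity)
    have h2 : 8 * I0 / (2 * π) * (r / r1) = 8 * I0 / (2 * π * r1) * r := by field_simp
    have h3 : r ≤ r * Λ ^ 4 := le_mul_of_one_le_right hr0 (one_le_pow₀ hΛ1)
    have h4 : 8 * I0 / (2 * π * r1) * r ≤ 8 * I0 / (2 * π * r1) * (r * Λ ^ 4) :=
      mul_le_mul_of_nonneg_left h3 (by positivity)
    rw [add_mul]
    linarith
  have hfirst0 : 0 ≤ 8 * I0 / (2 * π) * (lam ^ 8) ^ (1 / 4 : ℝ) + RR μ lam κ (lam ^ 8) := by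
    unfold RR
    have := LB_nonneg μ lam κ
    positivity
  set Iq := ∫ t, |t| ^ q ∂μ with hIq
  have hIq0 : 0 ≤ Iq := integral_nonneg (fun t => Real.rpow_nonneg (abs_nonneg _) _)
  have hE1 : E1 μ M lam κ q (lam ^ (8 / q)) ≤ (Iq + 3 + 2 * M) / (q * r1) * (r * Λ ^ 5) := by
    unfold E1
    rw [e3]
    obtain ⟨_, h1⟩ := integrable_shift hq hq2 hint (κ := κ) hlam
    rw [← hIq] at h1
    have h2 : lam ^ q ≤ 1 := Real.rpow_le_one hlam.le hlam1 hq.le
    have h3 : |κ| ^ q ≤ 1 := Real.rpow_le_one (abs_nonneg _) hκ1 hq.le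
    have h4 : ∫ t, |lam * t - κ| ^ q ∂μ ≤ Iq + 1 := by
      have : lam ^ q * Iq ≤ 1 * Iq := mul_le_mul_of_nonneg_right h2 hIq0
      linarith
    have hM0 : (0 : ℝ) ≤ M := M.2
    have h5 : (∫ t, |lam * t - κ| ^ q ∂μ) + 2 + 2 * M / lam ≤ (Iq + 3 + 2 * M) / lam := by
      rw [le_div_iff₀ hlam, add_mul, div_mul_cancel₀ _ hlam.ne']
      have h6 : ((∫ t, |lam * t - κ| ^ q ∂μ) + 2) * lam ≤ (Iq + 3) * 1 :=
        mul_le_mul (by linarith) hlam1 hlam.le (by positivity)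
      linarith
    have h6 : lam ^ 4 / q * ((∫ t, |lam * t - κ| ^ q ∂μ) + 2 + 2 * M / lam)
        ≤ lam ^ 4 / q * ((Iq + 3 + 2 * M) / lam) := mul_le_mul_of_nonneg_left h5 (by positivity)
    have h7 : lam ^ 4 / q * ((Iq + 3 + 2 * M) / lam) = (Iq + 3 + 2 * M) / q * (lam ^ 2 * lam) := by
      field_simp
    have h8 : lam ^ 2 * lam ≤ r / r1 := by
      have : lam ^ 2 * lam ≤ lam ^ 2 * 1 := mul_le_mul_of_nonneg_left hlam1 (by positivity)
      linarith
    have h9 : (Iq + 3 + 2 * M) / q * (lam ^ 2 * lam) ≤ (Iq + 3 + 2 * M) / q * (r / r1) :=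
      mul_le_mul_of_nonneg_left h8 (by positivity)
    have h10 : (Iq + 3 + 2 * M) / q * (r / r1) = (Iq + 3 + 2 * M) / (q * r1) * r := by field_simp
    have h11 : r ≤ r * Λ ^ 5 := le_mul_of_one_le_right hr0 (one_le_pow₀ hΛ1)
    have h12 : (Iq + 3 + 2 * M) / (q * r1) * r ≤ (Iq + 3 + 2 * M) / (q * r1) * (r * Λ ^ 5) :=
      mul_le_mul_of_nonneg_left h11 (by positivity)
    linarith
  have hmain : (CL (lam ^ (8 / q)) + 1) * (8 * I0 / (2 * π) * (lam ^ 8) ^ (1 / 4 : ℝ) + RR μ lam κ (lam ^ 8))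
      ≤ (187 / q * Λ) * ((8 * I0 / (2 * π * r1) + 10 ^ 9) * (r * Λ ^ 4)) :=
    mul_le_mul hCL hfirst hfirst0 (by positivity)
  unfold KK
  rw [← hIq, ← hr1]
  have hfin : (187 / q * (8 * I0 / (2 * π * r1) + 10 ^ 9) + (Iq + 3 + 2 * M) / (q * r1)) * (r * Λ ^ 5)
      = (187 / q * Λ) * ((8 * I0 / (2 * π * r1) + 10 ^ 9) * (r * Λ ^ 4))
        + (Iq + 3 + 2 * M) / (q * r1) * (r * Λ ^ 5) := by ring
  rw [hfin]
  linarith

/-- the product of the disorder size and the logarithm tends to zero -/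
lemma tendsto_rr (hq : 0 < q) (hq2 : q ≤ 1 / 2) (hint : Integrable (fun t : ℝ => |t| ^ q) μ) :
    Tendsto (fun lam => rr μ lam * Real.log (1 / lam) ^ 5) (𝓝[>] 0) (𝓝 0) ∧
    Tendsto (fun lam => rr μ lam) (𝓝[>] 0) (𝓝 0) := by
  set B := 2 / q * ∫ t, |t| ^ q ∂μ with hB
  have h1 : Tendsto (fun lam : ℝ => Real.log lam * lam ^ (q / 5)) (𝓝[>] 0) (𝓝 0) :=
    tendsto_log_mul_rpow_nhdsGT_zero (by positivity)
  have h2 : Tendsto (fun lam : ℝ => B * (-(Real.log lam * lam ^ (q / 5))) ^ 5) (𝓝[>] 0) (𝓝 (B * (-0) ^ 5)) :=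
    ((h1.neg).pow 5).const_mul B
  have e0 : B * (-(0 : ℝ)) ^ 5 = 0 := by ring
  rw [e0] at h2
  have hmem : ∀ᶠ lam : ℝ in 𝓝[>] 0, 0 < lam ∧ lam < 1 := by
    have : Set.Ioo (0 : ℝ) 1 ∈ 𝓝[>] (0 : ℝ) := Ioo_mem_nhdsGT one_pos
    exact this
  constructor
  · apply tendsto_of_tendsto_of_tendsto_of_le_of_le' tendsto_const_nhds h2
    · filter_upwards [hmem] with lam h
      have h3 : 0 ≤ Real.log (1 / lam) := by
        apply Real.log_nonneg
        rw [le_div_iff₀ h.1]; linarith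
      have := rr_nonneg μ lam
      positivity
    · filter_upwards [hmem] with lam h
      have h3 : 0 ≤ Real.log (1 / lam) := by
        apply Real.log_nonneg
        rw [le_div_iff₀ h.1]; linarith
      have h4 := rr_le hq hq2 hint h.1
      have h5 : B * (-(Real.log lam * lam ^ (q / 5))) ^ 5 = (B * lam ^ q) * Real.log (1 / lam) ^ 5 := by
        have h6 : (lam ^ (q / 5)) ^ 5 = lam ^ q := by
          rw [← Real.rpow_natCast, ← Real.rpow_mul h.1.le]
          congr 1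
          push_cast; ring
        have h7 : Real.log (1 / lam) = -Real.log lam := by rw [one_div, Real.log_inv]
        rw [h7, ← h6]
        ring
      rw [h5]
      exact mul_le_mul_of_nonneg_right h4 (by positivity)
  · have h3 : Tendsto (fun lam : ℝ => B * lam ^ q) (𝓝[>] 0) (𝓝 (B * 0)) := by
      apply Tendsto.const_mul
      have h4 : Tendsto (fun lam : ℝ => lam ^ q) (𝓝 0) (𝓝 ((0 : ℝ) ^ q)) :=
        (Real.continuousAt_rpow_const 0 q (Or.inr hq.le)).tendsto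
      rw [Real.zero_rpow hq.ne'] at h4
      exact h4.mono_left nhdsWithin_le_nhds
    rw [mul_zero] at h3
    apply tendsto_of_tendsto_of_tendsto_of_le_of_le' tendsto_const_nhds h3
    · exact Filter.Eventually.of_forall (fun lam => rr_nonneg μ lam)
    · filter_upwards [hmem] with lam h
      exact rr_le hq hq2 hint h.1

/-- the bound at all bulk energies -/
theorem bulk_main (hM : μ ≤ M • volume) (hq : 0 < q) (hq2 : q ≤ 1 / 2)
    (hint : Integrable (fun t : ℝ => |t| ^ q) μ) {a : ℝ} (ha : 0 < a) :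
    ∃ C : ℝ, 0 < C ∧ ∃ lam0 : ℝ, 0 < lam0 ∧ ∀ lam : ℝ, 0 < lam → lam < lam0 →
      ∀ kap : ℝ, |kap| ≤ 4 - a → ∀ δ : ℝ, 0 < δ → ∀ m : ℝ,
      C * rr μ lam * Real.log (1 / lam) ^ 5 < m →
      ∀ᵐ w ∂(iid Site μ), ¬ ((∀ (ψ : Site → ℂ) (e : ℝ), L2 ψ → |e| < δ →
        Sol (pot lam kap w) e ψ 0 → Cm m ψ) ∧ Complete (pot lam kap w)) := by
  have hac : μ ≪ volume :=
    (Measure.absolutelyContinuous_of_le hM).trans (Measure.smul_absolutelyContinuous)
  have hns : NullSingletonClass μ := ⟨fun x => hac (measure_singleton x)⟩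
  obtain ⟨T, hT1, hT⟩ := exists_T μ
  have hr1pos : 0 < rr μ 1 := rr_one_pos hac hq hq2 hint
  have hKpos : 0 < KK μ M q := by
    unfold KK
    have h1 := I0_nonneg
    have h2 : 0 ≤ ∫ t, |t| ^ q ∂μ := integral_nonneg (fun t => Real.rpow_nonneg (abs_nonneg _) _)
    have h3 : (0 : ℝ) ≤ M := M.2
    have hπ := Real.pi_pos
    positivity
  have hsa : 0 < Real.sqrt (a / 2) := Real.sqrt_pos.mpr (by positivity)
  have hπ := Real.pi_pos
  set C : ℝ := 8 * π / Real.sqrt (a / 2) * KK μ M q with hC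
  have hCpos : 0 < C := by positivity
  obtain ⟨t1, t2⟩ := tendsto_rr (μ := μ) hq hq2 hint
  set b0 : ℝ := min (1 / 2) (a / 4) with hb0
  have hb0pos : 0 < b0 := lt_min (by norm_num) (by positivity)
  have ev1 : ∀ᶠ lam : ℝ in 𝓝[>] 0, rr μ lam < b0 ^ 2 / 6 :=
    t2.eventually (gt_mem_nhds (by positivity))
  have ev2 : ∀ᶠ lam : ℝ in 𝓝[>] 0, C * (rr μ lam * Real.log (1 / lam) ^ 5) < 4 := by
    have := t1.const_mul C
    rw [mul_zero] at this
    exact this.eventually (gt_mem_nhds (by norm_num))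
  have ev3 : ∀ᶠ lam : ℝ in 𝓝[>] 0, lam < min (1 / 3) (min (1 / (2 * T)) (a / T)) := by
    have h1 : 0 < min (1 / 3) (min (1 / (2 * T)) (a / T)) := by
      apply lt_min (by norm_num)
      apply lt_min <;> positivity
    have : Set.Ioo (0 : ℝ) (min (1 / 3) (min (1 / (2 * T)) (a / T))) ∈ 𝓝[>] (0 : ℝ) := Ioo_mem_nhdsGT h1
    filter_upwards [this] with lam h
    exact h.2
  obtain ⟨lam0, hlam0, hsub⟩ := mem_nhdsGT_iff_exists_Ioo_subset.mp ((ev1.and ev2).and ev3)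
  refine ⟨C, hCpos, lam0, hlam0, fun lam hlam hlt kap hkap δ hδ m hm => ?_⟩
  obtain ⟨⟨c1, c2⟩, c3⟩ := hsub ⟨hlam, hlt⟩
  have hlam3 : lam ≤ 1 / 3 := c3.le.trans (min_le_left _ _)
  have hlT : lam * T ≤ 1 / 2 := by
    have h1 : lam ≤ 1 / (2 * T) := c3.le.trans ((min_le_right _ _).trans (min_le_left _ _))
    rw [le_div_iff₀ (by positivity)] at h1
    linarith
  have hlTa : lam * T ≤ a := by
    have h1 : lam ≤ a / T := c3.le.trans ((min_le_right _ _).trans (min_le_right _ _))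
    rwa [le_div_iff₀ (by positivity)] at h1
  obtain ⟨l1, l2⟩ := log_two_bounds
  -- centring
  have hcf := abs_cf_zero (μ := μ) hq hq2 hint hlam
  have hcf2 : (2 * |cf μ lam 0|) ^ 2 ≤ 6 * rr μ lam := by
    rw [mul_pow, sq_abs]
    have h1 : 0.69 * cf μ lam 0 ^ 2 ≤ Real.log 2 * cf μ lam 0 ^ 2 :=
      mul_le_mul_of_nonneg_right l1.le (sq_nonneg _)
    have h2 := rr_nonneg μ lam
    linarith
  have hcf3 : 2 * |cf μ lam 0| ≤ b0 := by
    have h1 : (2 * |cf μ lam 0|) ^ 2 ≤ b0 ^ 2 := by linarith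
    exact le_of_sq_le_sq h1 hb0pos.le
  obtain ⟨κ, hκ1, hκ0⟩ := exists_centre hlam hT hlT (hcf3.trans (min_le_left _ _))
  have hκb : |κ| ≤ b0 := hκ1.trans hcf3
  have hκsq : κ ^ 2 ≤ 6 * rr μ lam := by
    rw [← sq_abs]
    exact (pow_le_pow_left₀ (abs_nonneg _) hκ1 2).trans hcf2
  have hκ1' : |κ| ≤ 1 := hκb.trans ((min_le_left _ _).trans (by norm_num))
  have hκa : |κ| ≤ a / 4 := hκb.trans (min_le_right _ _)
  -- reduce to rates at most 4
  set m4 := min m 4 with hm4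
  have hlarge : C * (rr μ lam * Real.log (1 / lam) ^ 5) < m4 := by
    apply lt_min _ c2
    rw [← mul_assoc]; exact hm
  have hΛ0 : 0 ≤ Real.log (1 / lam) := by
    apply Real.log_nonneg
    rw [le_div_iff₀ hlam]; linarith
  have hm4pos : 0 < m4 := lt_of_le_of_lt (by
    have := rr_nonneg μ lam
    positivity) hlarge
  by_contra hcon
  have H : ¬ ∀ᵐ w ∂(iid Site μ), ¬ ((∀ (ψ : Site → ℂ) (e : ℝ), L2 ψ → |e| < δ →
      Sol (pot lam kap w) e ψ 0 → Cm m4 ψ) ∧ Complete (pot lam kap w)) := by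
    intro h
    apply hcon
    filter_upwards [h] with w hw hw2
    apply hw
    refine ⟨fun ψ e h1 h2 h3 => cm_mono (min_le_left _ _) (hw2.1 ψ e h1 h2 h3), hw2.2⟩
  have H3 : μ {t | |lam * t - kap| ≤ 4} ≠ 0 := by
    intro h0
    have h1 : {t : ℝ | |t| ≤ T} ⊆ {t | |lam * t - kap| ≤ 4} := by
      intro t ht
      have ht' : |t| ≤ T := ht
      simp only [Set.mem_ofPred_eq]
      have h2 : |lam * t - kap| ≤ |lam * t| + |kap| := abs_sub _ _
      have h3 : |lam * t| ≤ a := by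
        rw [abs_mul, abs_of_pos hlam]
        exact (mul_le_mul_of_nonneg_left ht' hlam.le).trans hlTa
      linarith
    have h2 := measure_mono_null h1 h0
    unfold Measure.real at hT
    rw [h2] at hT
    norm_num at hT
  obtain ⟨e, he, hAG⟩ := exists_energy' (μ := μ) hac hlam.ne' hm4pos hδ H H3 (by positivity : 0 < a / 4)
  rw [allGood_shift lam kap κ m4 e] at hAG
  have heps : |e + kap - κ| ≤ 4 - a / 2 := by
    have h1 := abs_add_le e kap
    have h2 := abs_sub (e + kap) κ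
    linarith
  have hη0 : (0 : ℝ) < lam ^ 8 := by positivity
  have hη1 : lam ^ 8 ≤ 1 := pow_le_one₀ hlam.le (by linarith)
  have hl0 : 0 < lam ^ (8 / q) := Real.rpow_pos_of_pos hlam _
  have hl2 : lam ^ (8 / q) < 1 / 2 := by
    have h1 : (1 : ℝ) ≤ 8 / q := by rw [le_div_iff₀ hq]; linarith
    have h2 := Real.rpow_le_rpow_of_exponent_ge hlam (by linarith) h1
    rw [Real.rpow_one] at h2
    linarith
  obtain ⟨hint', _⟩ := integrable_shift hq hq2 hint (κ := κ) hlam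
  have key := rate_main hM hlam hq hq2 hint' hκ0 (by positivity : 0 < a / 2) heps hm4pos (min_le_right _ _)
    hAG hη0 hη1 hl0 hl2
  have key2 := key.trans (eval_bound hac hq hq2 hint hlam hlam3 hκsq hκ1')
  have key3 : m4 ≤ C * (rr μ lam * Real.log (1 / lam) ^ 5) := by
    rw [hC]
    have h1 : m4 / 4 * (Real.sqrt (a / 2) / (2 * π)) = m4 * Real.sqrt (a / 2) / (8 * π) := by
      field_simp
      ring
    rw [h1, div_le_iff₀ (by positivity)] at key2
    have h2 : 8 * π / Real.sqrt (a / 2) * KK μ M q * (rr μ lam * Real.log (1 / lam) ^ 5)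
        = (KK μ M q * (rr μ lam * Real.log (1 / lam) ^ 5) * (8 * π)) / Real.sqrt (a / 2) := by
      field_simp
    rw [h2, le_div_iff₀ hsa]
    exact key2
  linarith

end

end Pool.Agent.Helper19
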