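import Mathlib
import Pool.Agent.Helper19.Bulk

set_option autoImplicit false

open MeasureTheory
open scoped ENNReal NNReal

/-- For a single-site law `μ` with bounded density and a finite absolute moment of some order `q > 0`
(`q` may be arbitrarily small) and every `a > 0` there are constants `C` and `lam0 > 0` such that for
all `0 < lam < lam0`, all `E₀ ∈ [a, 8 - a]`, all `δ > 0` and all
`m > C (∫ log (1 + (lam t)²) dμ) (log (1/lam))⁵`: almost surely it is false that the eigenfunctions
of `-Δ + lam V` on `ℤ²` are complete and that all of those with energy within `δ` of `E₀` decay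
exponentially with rate `m` (with arbitrary prefactors). -/
theorem Pool.Agent.Helper19.bulkRate_full :
    ∀ (μ : Measure ℝ) [IsProbabilityMeasure μ],
      (∃ f : ℝ → ℝ≥0, Measurable f ∧ (∃ M : ℝ≥0, ∀ t, f t ≤ M) ∧
          μ = volume.withDensity (fun t => ((f t : ℝ≥0) : ℝ≥0∞))) →
      (∃ q : ℝ, 0 < q ∧ Integrable (fun t : ℝ => |t| ^ q) μ) →
      ∀ a : ℝ, 0 < a →
        ∃ C : ℝ, ∃ lam0 : ℝ, 0 < lam0 ∧
          ∀ lam : ℝ, 0 < lam → lam < lam0 →
            ∀ E₀ : ℝ, a ≤ E₀ → E₀ ≤ 8 - a →
              ∀ δ : ℝ, 0 < δ →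
                ∀ m : ℝ, C * (∫ t, Real.log (1 + (lam * t) ^ 2) ∂μ) * Real.log (1 / lam) ^ 5 < m →
                  ∀ᵐ ω ∂(Measure.infinitePi (fun _ : ℤ × ℤ => μ)),
                    ¬ ((∀ (ψ : ℤ × ℤ → ℂ) (E : ℝ),
                        Summable (fun x => ‖ψ x‖ ^ 2) →
                        (∀ x : ℤ × ℤ,
                          4 * ψ x - (ψ (x.1 + 1, x.2) + ψ (x.1 - 1, x.2) + ψ (x.1, x.2 + 1)
                              + ψ (x.1, x.2 - 1)) + ((lam * ω x : ℝ) : ℂ) * ψ x = (E : ℂ) * ψ x) →
                        |E - E₀| < δ →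
                        ∃ C : ℝ, ∀ x : ℤ × ℤ,
                          ‖ψ x‖ ≤ C * Real.exp (-(m * (((|x.1| + |x.2| : ℤ)) : ℝ)))) ∧
                    (∀ φ : ℤ × ℤ → ℂ, Summable (fun x => ‖φ x‖ ^ 2) →
                        (∀ (ψ : ℤ × ℤ → ℂ) (E : ℝ),
                          Summable (fun x => ‖ψ x‖ ^ 2) →
                          (∀ x : ℤ × ℤ,
                            4 * ψ x - (ψ (x.1 + 1, x.2) + ψ (x.1 - 1, x.2) + ψ (x.1, x.2 + 1)
                                + ψ (x.1, x.2 - 1)) + ((lam * ω x : ℝ) : ℂ) * ψ x = (E : ℂ) * ψ x) →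
                          ∑' x, star (ψ x) * φ x = 0) →
                        φ = 0)) := by
  intro μ _ hf hq a ha
  obtain ⟨f, hfm, ⟨M, hM⟩, hμf⟩ := hf
  have hM' : μ ≤ M • volume := by
    have h1 : (M • volume : Measure ℝ) = ((M : ℝ≥0) : ℝ≥0∞) • volume := rfl
    rw [hμf, h1, ← withDensity_const]
    apply withDensity_mono
    filter_upwards with t
    exact_mod_cast hM t
  obtain ⟨q, hq0, hint⟩ := hq
  have hq1 : 0 < min q (1 / 2) := lt_min hq0 (by norm_num)
  have hint' : Integrable (fun t : ℝ => |t| ^ (min q (1 / 2))) μ := by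
    have hb : Integrable (fun t : ℝ => 1 + |t| ^ q) μ := (integrable_const 1).add hint
    have hm : Measurable (fun t : ℝ => |t| ^ (min q (1 / 2))) := by fun_prop
    refine hb.mono' hm.aestronglyMeasurable (Filter.Eventually.of_forall (fun t => ?_))
    rw [Real.norm_eq_abs, abs_of_nonneg (Real.rpow_nonneg (abs_nonneg _) _)]
    rcases le_total |t| 1 with h | h
    · have h1 := Real.rpow_le_one (abs_nonneg t) h hq1.le
      have h2 := Real.rpow_nonneg (abs_nonneg t) q
      linarith
    · have h1 := Real.rpow_le_rpow_of_exponent_le h (min_le_left q (1 / 2))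
      linarith
  obtain ⟨C, _, lam0, hlam0, hmain⟩ :=
    Pool.Agent.Helper19.bulk_main hM' hq1 (min_le_right _ _) hint' ha
  refine ⟨C, lam0, hlam0, fun lam hlam hlt E₀ h1 h2 δ hδ m hm => ?_⟩
  have hkap : |E₀ - 4| ≤ 4 - a := by
    rw [abs_le]; constructor <;> linarith
  have key := hmain lam hlam hlt (E₀ - 4) hkap δ hδ m hm
  filter_upwards [key] with ω h1 hω
  apply h1
  constructor
  · intro ψ e hψ he hS
    obtain ⟨C, hC⟩ := hω.1 ψ (e + E₀) hψ (by
      intro x
      have := hS x
      simp only [Pool.Agent.Helper19.pot, Pool.Agent.Helper19.adj, Pi.zero_apply] at this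
      push_cast at this ⊢
      linear_combination this) (by
      have h2 : e + E₀ - E₀ = e := by ring
      rw [h2]; exact he)
    refine ⟨C, fun x => ?_⟩
    rw [sub_zero]
    exact hC x
  · intro φ hφ h
    apply hω.2 φ hφ
    intro ψ E hψ hE
    apply h ψ (E - E₀) hψ
    intro x
    have := hE x
    simp only [Pool.Agent.Helper19.pot, Pool.Agent.Helper19.adj, Pi.zero_apply]
    push_cast at this ⊢
    linear_combination this
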