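import Pool.Agent.Helper19.Single
import Pool.Agent.Helper19.Box
import Pool.Agent.Helper19.ZeroOne

set_option autoImplicit false

open MeasureTheory Filter Topology Matrix
open scoped ENNReal NNReal ComplexOrder

namespace Pool.Agent.Helper19

/-- full potential with energy -/
def VV (lam kap e : ℝ) (w : Site → ℝ) (x : Site) : ℝ := pot lam kap w x - e

/-- box matrix with imaginary shift outside `T` -/
noncomputable def KM (n L : ℕ) (V : Site → ℝ) (τ : ℝ) (T : Finset (Fin n × Fin L)) :
    Matrix (Fin n × Fin L) (Fin n × Fin L) ℂ :=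
  fun p q => BM n L V p q - if p = q ∧ p ∉ T then Complex.I * τ else 0

lemma KM_univ (n L : ℕ) (V : Site → ℝ) (τ : ℝ) : KM n L V τ Finset.univ = BM n L V := by
  ext p q; simp [KM]

lemma continuous_BM_entry (n L : ℕ) (lam kap e : ℝ) (p q : Fin n × Fin L) :
    Continuous (fun w : Site → ℝ => BM n L (VV lam kap e w) p q) := by
  unfold BM VV pot
  apply Continuous.sub
  · by_cases h : p = q
    · simp only [if_pos h]; fun_prop
    · simp only [if_neg h]; fun_prop
  · exact continuous_const

lemma continuous_KM_det (n L : ℕ) (lam kap e τ : ℝ) (T : Finset (Fin n × Fin L)) :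
    Continuous (fun w : Site → ℝ => (KM n L (VV lam kap e w) τ T).det) := by
  apply Continuous.matrix_det
  apply continuous_matrix
  intro p q
  unfold KM
  exact (continuous_BM_entry _ _ _ _ _ _ _).sub continuous_const

lemma KM_update (n L : ℕ) (lam kap e τ : ℝ) (T : Finset (Fin n × Fin L)) (x : Fin n × Fin L)
    (w : Site → ℝ) (t : ℝ) :
    (KM n L (VV lam kap e (Function.update w (st n L x) t)) τ T)
      = fun p q => KM n L (VV lam kap e (Function.update w (st n L x) 0)) τ T p q
        + if p = x ∧ q = x then ((lam * t : ℝ) : ℂ) else 0 := by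
  ext p q
  unfold KM BM VV
  rw [pot_update lam kap w (st n L x) t 0]
  by_cases hp : p = x
  · subst hp
    by_cases hq : q = p
    · subst hq
      simp only [if_true, and_self]
      push_cast
      ring
    · have h2 : ¬ (p = p ∧ q = p) := fun h => hq h.2
      have h3 : ¬ (p = q ∧ p ∉ T) := fun h => hq h.1.symm
      rw [if_neg (Ne.symm hq), if_neg (Ne.symm hq), if_neg h2, if_neg h3, add_zero]
  · have h1 : st n L p ≠ st n L x := fun h => hp (st_injective n L h)
    have h2 : ¬ (p = x ∧ q = x) := fun h => hp h.1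
    rw [if_neg h1, add_zero, if_neg h2, add_zero]

lemma KM_insert (n L : ℕ) (V : Site → ℝ) (τ : ℝ) (T : Finset (Fin n × Fin L)) (x : Fin n × Fin L)
    (hx : x ∉ T) :
    KM n L V τ T = fun p q => KM n L V τ (insert x T) p q
        + if p = x ∧ q = x then -(Complex.I * τ) else 0 := by
  ext p q
  unfold KM
  by_cases hp : p = x
  · subst hp
    by_cases hq : q = p
    · subst hq
      simp [hx]
      ring
    · have h2 : ¬ (p = p ∧ q = p) := fun h => hq h.2
      have h3 : ¬ (p = q ∧ p ∉ T) := fun h => hq h.1.symm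
      have h4 : ¬ (p = q ∧ p ∉ insert p T) := fun h => hq h.1.symm
      rw [if_neg h2, if_neg h3, if_neg h4, add_zero]
  · have h2 : ¬ (p = x ∧ q = x) := fun h => hp h.1
    rw [if_neg h2, add_zero]
    simp [hp]

/-- both determinants as affine functions of the value at `x` -/
lemma KM_det_affine (n L : ℕ) (lam kap e τ : ℝ) (T : Finset (Fin n × Fin L)) (x : Fin n × Fin L)
    (hx : x ∉ T) (w : Site → ℝ) :
    ∃ α β : ℂ, ∀ t : ℝ,
      (KM n L (VV lam kap e (Function.update w (st n L x) t)) τ (insert x T)).det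
        = α + ((lam * t : ℝ) : ℂ) * β ∧
      (KM n L (VV lam kap e (Function.update w (st n L x) t)) τ T).det
        = α + (((lam * t : ℝ) : ℂ) - Complex.I * τ) * β := by
  set K := KM n L (VV lam kap e (Function.update w (st n L x) 0)) τ (insert x T) with hK
  refine ⟨K.det, (K.updateRow x (Pi.single x 1)).det, fun t => ⟨?_, ?_⟩⟩
  · rw [KM_update, det_add_single]
  · rw [KM_update, KM_insert n L _ τ T x hx]
    have : (fun p q => (fun p q => KM n L (VV lam kap e (Function.update w (st n L x) 0)) τ (insert x T) p q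
        + if p = x ∧ q = x then -(Complex.I * τ) else 0 : Matrix _ _ ℂ) p q
        + if p = x ∧ q = x then ((lam * t : ℝ) : ℂ) else 0 : Matrix (Fin n × Fin L) (Fin n × Fin L) ℂ)
        = fun p q => K p q + if p = x ∧ q = x then (((lam * t : ℝ) : ℂ) - Complex.I * τ) else 0 := by
      ext p q
      by_cases h : p = x ∧ q = x
      · simp only [if_pos h]; rw [hK]; ring
      · simp only [if_neg h]; rw [hK]; ring
    rw [this, det_add_single]

lemma KM_empty_ne_zero (n L : ℕ) (V : Site → ℝ) {τ : ℝ} (hτ : 0 < τ) :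
    (KM n L V τ ∅).det ≠ 0 := by
  intro h
  rw [← Matrix.exists_mulVec_eq_zero_iff] at h
  obtain ⟨v, hv, h⟩ := h
  have h1 : KM n L V τ ∅ = BM n L V - (Complex.I * τ) • (1 : Matrix _ _ ℂ) := by
    ext p q
    rw [Matrix.sub_apply, Matrix.smul_apply, Matrix.one_apply]
    simp [KM]
  rw [h1, Matrix.sub_mulVec, Matrix.smul_mulVec, Matrix.one_mulVec, sub_eq_zero] at h
  have h2 := (BM_hermitian n L V).im_star_dotProduct_mulVec_self v
  rw [h, dotProduct_smul] at h2
  have h3 : star v ⬝ᵥ v = ((∑ i, ‖v i‖ ^ 2 : ℝ) : ℂ) := by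
    rw [dotProduct]
    push_cast
    apply Finset.sum_congr rfl
    intro i _
    rw [Pi.star_apply, RCLike.star_def, ← Complex.normSq_eq_conj_mul_self, Complex.normSq_eq_norm_sq]
    push_cast; rfl
  rw [h3] at h2
  have h5 : τ * (∑ i, ‖v i‖ ^ 2) = 0 := by
    generalize (∑ i, ‖v i‖ ^ 2) = S at h2
    simpa using h2
  rcases mul_eq_zero.mp h5 with h2 | h2
  · exact absurd h2 hτ.ne'
  · apply hv
    funext i
    have h4 := (Finset.sum_eq_zero_iff_of_nonneg (fun i _ => by positivity)).mp h2 i (Finset.mem_univ i)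
    simpa using h4

/-- the shift induction -/
theorem shift_induction {μ : Measure ℝ} [IsProbabilityMeasure μ] {M : ℝ≥0} (hM : μ ≤ M • volume)
    {lam : ℝ} (hlam : 0 < lam) {τ : ℝ} (hτ : 0 < τ) (n L : ℕ) (kap e : ℝ)
    (T : Finset (Fin n × Fin L)) :
    (∀ᵐ w ∂(iid Site μ), (KM n L (VV lam kap e w) τ T).det ≠ 0) ∧
    ∫⁻ w, ENNReal.ofReal (Real.log ‖(KM n L (VV lam kap e w) τ ∅).det‖
      - Real.log ‖(KM n L (VV lam kap e w) τ T).det‖) ∂(iid Site μ)
      ≤ T.card * ENNReal.ofReal (2 * Real.sqrt τ * (1 + 2 * M / lam)) := by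
  have hac : μ ≪ volume := (Measure.absolutelyContinuous_of_le_smul (c := M) hM)
  have hmeasD : ∀ T : Finset (Fin n × Fin L), Measurable (fun w : Site → ℝ =>
      Real.log ‖(KM n L (VV lam kap e w) τ T).det‖) := fun T =>
    Real.measurable_log.comp ((continuous_KM_det n L lam kap e τ T).measurable.norm)
  induction T using Finset.induction_on with
  | empty =>
    refine ⟨Filter.Eventually.of_forall (fun w => KM_empty_ne_zero n L _ hτ), ?_⟩
    simp
  | insert x T hx ih =>
    obtain ⟨ih1, ih2⟩ := ih
    refine ⟨?_, ?_⟩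
    · have hA : MeasurableSet {w : Site → ℝ | (KM n L (VV lam kap e w) τ (insert x T)).det = 0} :=
        (continuous_KM_det n L lam kap e τ (insert x T)).measurable (measurableSet_singleton 0)
      have : (iid Site μ) {w : Site → ℝ | (KM n L (VV lam kap e w) τ (insert x T)).det = 0} = 0 := by
        apply null_of_sections_ae (st n L x) hA
        filter_upwards [ae_update (st n L x) ih1] with w hw
        obtain ⟨α, β, hαβ⟩ := KM_det_affine n L lam kap e τ T x hx w
        by_cases hβ : β = 0
        · filter_upwards [hw] with t ht hmem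
          have hmem2 : (KM n L (VV lam kap e (Function.update w (st n L x) t)) τ (insert x T)).det = 0 := hmem
          rw [(hαβ t).1, hβ, mul_zero] at hmem2
          rw [(hαβ t).2, hβ, mul_zero] at ht
          exact ht hmem2
        · have h0 : μ {t : ℝ | α + ((lam * t : ℝ) : ℂ) * β = 0} = 0 := by
            apply hac
            apply Set.Subsingleton.measure_zero
            intro s hs t ht
            simp only [Set.mem_ofPred_eq] at hs ht
            have h1 : ((lam * s : ℝ) : ℂ) * β = ((lam * t : ℝ) : ℂ) * β := by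
              linear_combination hs - ht
            have h2 := mul_right_cancel₀ hβ h1
            have h3 : lam * s = lam * t := by exact_mod_cast h2
            exact mul_left_cancel₀ hlam.ne' h3
          have h1 : ∀ᵐ t ∂μ, ¬ (α + ((lam * t : ℝ) : ℂ) * β = 0) := by
            rw [ae_iff]; simpa using h0
          filter_upwards [h1] with t ht hmem
          have hmem2 : (KM n L (VV lam kap e (Function.update w (st n L x) t)) τ (insert x T)).det = 0 := hmem
          rw [(hαβ t).1] at hmem2
          exact ht hmem2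
      rw [ae_iff]
      simpa using this
    · have hstep : ∫⁻ w, ENNReal.ofReal (Real.log ‖(KM n L (VV lam kap e w) τ T).det‖
          - Real.log ‖(KM n L (VV lam kap e w) τ (insert x T)).det‖) ∂(iid Site μ)
          ≤ ENNReal.ofReal (2 * Real.sqrt τ * (1 + 2 * M / lam)) := by
        have hf : Measurable (fun w : Site → ℝ => ENNReal.ofReal
          (Real.log ‖(KM n L (VV lam kap e w) τ T).det‖
          - Real.log ‖(KM n L (VV lam kap e w) τ (insert x T)).det‖)) :=
          ENNReal.measurable_ofReal.comp ((hmeasD T).sub (hmeasD (insert x T)))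
        have hf2 := hf.comp (measurable_upd (st n L x))
        simp only [Function.comp_def] at hf2
        rw [← (mp_update μ (st n L x)).lintegral_comp hf]
        rw [lintegral_prod _ hf2.aemeasurable]
        calc ∫⁻ w, ∫⁻ t, ENNReal.ofReal (Real.log ‖(KM n L (VV lam kap e
              (Function.update w (st n L x) t)) τ T).det‖
              - Real.log ‖(KM n L (VV lam kap e (Function.update w (st n L x) t)) τ
                (insert x T)).det‖) ∂μ ∂(iid Site μ)
            ≤ ∫⁻ w, ENNReal.ofReal (2 * Real.sqrt τ * (1 + 2 * M / lam)) ∂(iid Site μ) := by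
              apply lintegral_mono
              intro w
              obtain ⟨α, β, hαβ⟩ := KM_det_affine n L lam kap e τ T x hx w
              simp only [(hαβ _).1, (hαβ _).2]
              exact single_site hM hlam hτ α β
          _ = _ := by rw [lintegral_const, measure_univ, mul_one]
      calc ∫⁻ w, ENNReal.ofReal (Real.log ‖(KM n L (VV lam kap e w) τ ∅).det‖
            - Real.log ‖(KM n L (VV lam kap e w) τ (insert x T)).det‖) ∂(iid Site μ)
          ≤ ∫⁻ w, (ENNReal.ofReal (Real.log ‖(KM n L (VV lam kap e w) τ ∅).det‖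
            - Real.log ‖(KM n L (VV lam kap e w) τ T).det‖)
            + ENNReal.ofReal (Real.log ‖(KM n L (VV lam kap e w) τ T).det‖
            - Real.log ‖(KM n L (VV lam kap e w) τ (insert x T)).det‖)) ∂(iid Site μ) := by
            apply lintegral_mono
            intro w
            have hsplit : Real.log ‖(KM n L (VV lam kap e w) τ ∅).det‖
              - Real.log ‖(KM n L (VV lam kap e w) τ (insert x T)).det‖
              = (Real.log ‖(KM n L (VV lam kap e w) τ ∅).det‖
              - Real.log ‖(KM n L (VV lam kap e w) τ T).det‖)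
              + (Real.log ‖(KM n L (VV lam kap e w) τ T).det‖
              - Real.log ‖(KM n L (VV lam kap e w) τ (insert x T)).det‖) := by ring
            beta_reduce
            rw [hsplit]
            exact ENNReal.ofReal_add_le
        _ = (∫⁻ w, ENNReal.ofReal (Real.log ‖(KM n L (VV lam kap e w) τ ∅).det‖
            - Real.log ‖(KM n L (VV lam kap e w) τ T).det‖) ∂(iid Site μ))
            + ∫⁻ w, ENNReal.ofReal (Real.log ‖(KM n L (VV lam kap e w) τ T).det‖
            - Real.log ‖(KM n L (VV lam kap e w) τ (insert x T)).det‖) ∂(iid Site μ) := by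
            rw [lintegral_add_left]
            exact ENNReal.measurable_ofReal.comp ((hmeasD ∅).sub (hmeasD T))
        _ ≤ T.card * ENNReal.ofReal (2 * Real.sqrt τ * (1 + 2 * M / lam))
            + ENNReal.ofReal (2 * Real.sqrt τ * (1 + 2 * M / lam)) := add_le_add ih2 hstep
        _ = _ := by
            rw [Finset.card_insert_of_notMem hx]
            push_cast
            ring

/-- the determinant with imaginary shift controls the Frobenius norm of the inverse -/
lemma one_add_fro_le {n L : ℕ} {V : Site → ℝ} {τ : ℝ} (hdet : (BM n L V).det ≠ 0) :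
    ‖(BM n L V).det‖ ^ 2 * (1 + τ ^ 2 * fro (BM n L V)⁻¹) ≤ ‖(KM n L V τ ∅).det‖ ^ 2 := by
  set A := BM n L V with hA
  set G := A⁻¹ with hG
  have hAG : A * G = 1 := Matrix.mul_nonsing_inv A (isUnit_iff_ne_zero.mpr hdet)
  have hGh : Gᴴ = G := by
    rw [hG, Matrix.conjTranspose_nonsing_inv, (BM_hermitian n L V).eq]
  have h1 : KM n L V τ ∅ = A * (1 - (Complex.I * τ) • G) := by
    rw [mul_sub, mul_one, Matrix.mul_smul, hAG]
    ext p q
    rw [Matrix.sub_apply, Matrix.smul_apply, Matrix.one_apply]
    simp [KM, hA]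
  rw [h1, Matrix.det_mul, norm_mul, mul_pow]
  apply mul_le_mul_of_nonneg_left _ (by positivity)
  set Q := (1 - (Complex.I * τ) • G)ᴴ * (1 - (Complex.I * τ) • G) with hQ
  have hQeq : Q = 1 + ((τ ^ 2 : ℝ) : ℂ) • (Gᴴ * G) := by
    rw [hQ, Matrix.conjTranspose_sub, Matrix.conjTranspose_smul, Matrix.conjTranspose_one, hGh]
    have : star (Complex.I * (τ : ℂ)) = -(Complex.I * τ) := by
      simp
    rw [this]
    rw [neg_smul, sub_neg_eq_add, add_mul, mul_sub, mul_sub, one_mul, mul_one, one_mul,
      Matrix.smul_mul, Matrix.mul_smul, smul_smul]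
    have h2 : Complex.I * (τ : ℂ) * (Complex.I * τ) = -((τ ^ 2 : ℝ) : ℂ) := by
      push_cast
      linear_combination (τ : ℂ) ^ 2 * Complex.I_mul_I
    rw [h2]
    module
  have hdetQ : (Q.det) = ((‖(1 - (Complex.I * τ) • G).det‖ ^ 2 : ℝ) : ℂ) := by
    rw [hQ, Matrix.det_mul, Matrix.det_conjTranspose, RCLike.star_def,
        ← Complex.normSq_eq_conj_mul_self, Complex.normSq_eq_norm_sq]
  have hP : (Gᴴ * G).PosSemidef := Matrix.posSemidef_conjTranspose_mul_self G
  have hQh : Q.IsHermitian := by
    rw [hQ]; exact Matrix.isHermitian_conjTranspose_mul_self _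
  have h3 : Q.det = ∏ i, (hQh.eigenvalues i : ℂ) := hQh.det_eq_prod_eigenvalues
  have h4 : Q.trace = ∑ i, (hQh.eigenvalues i : ℂ) := hQh.trace_eq_sum_eigenvalues
  have h5 : ‖(1 - (Complex.I * τ) • G).det‖ ^ 2 = ∏ i, hQh.eigenvalues i := by
    have := hdetQ.symm.trans h3
    exact_mod_cast this
  have h6 : ∑ i, (hQh.eigenvalues i - 1) = τ ^ 2 * fro G := by
    have h7 : Q.trace = Fintype.card (Fin n × Fin L) + ((τ ^ 2 : ℝ) : ℂ) * (fro G : ℂ) := by
      rw [hQeq, Matrix.trace_add, Matrix.trace_one, Matrix.trace_smul, trace_conj_mul, smul_eq_mul]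
    rw [h4] at h7
    have h8 : ∑ i, hQh.eigenvalues i = Fintype.card (Fin n × Fin L) + τ ^ 2 * fro G := by
      exact_mod_cast h7
    rw [Finset.sum_sub_distrib, h8]
    simp
  have h9 : ∀ i, 1 ≤ hQh.eigenvalues i := by
    intro i
    rw [hQh.eigenvalues_eq]
    have hv := hQh.eigenvectorBasis.orthonormal.1 i
    set v : (Fin n × Fin L) → ℂ := ⇑(hQh.eigenvectorBasis i) with hvdef
    have hv2 : star v ⬝ᵥ v = 1 := by
      have := inner_self_eq_norm_sq_to_K (𝕜 := ℂ) (hQh.eigenvectorBasis i)
      rw [hv, EuclideanSpace.inner_eq_star_dotProduct] at this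
      rw [dotProduct_comm]
      simpa using this
    rw [hQeq, Matrix.add_mulVec, Matrix.one_mulVec, dotProduct_add, hv2, Matrix.smul_mulVec,
      dotProduct_smul]
    have h10 := hP.dotProduct_mulVec_nonneg v
    have h11 : 0 ≤ RCLike.re (((τ ^ 2 : ℝ) : ℂ) • (star v ⬝ᵥ (Gᴴ * G) *ᵥ v)) := by
      have h12 := (RCLike.nonneg_iff.mp h10).1
      rw [smul_eq_mul, RCLike.re_to_complex, Complex.re_ofReal_mul]
      rw [RCLike.re_to_complex] at h12
      positivity
    rw [map_add, RCLike.one_re]
    linarith
  rw [h5, ← h6]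
  have h13 : ∀ s : Finset (Fin n × Fin L),
      1 + ∑ i ∈ s, (hQh.eigenvalues i - 1) ≤ ∏ i ∈ s, hQh.eigenvalues i := by
    intro s
    induction s using Finset.induction_on with
    | empty => simp
    | insert a s ha ih =>
      rw [Finset.sum_insert ha, Finset.prod_insert ha]
      have h14 := h9 a
      have h15 : 0 ≤ ∑ i ∈ s, (hQh.eigenvalues i - 1) :=
        Finset.sum_nonneg (fun i _ => by linarith [h9 i])
      nlinarith
  exact h13 Finset.univ

/-- `w ↦ fro (inverse)` is measurable -/
lemma measurable_fro_inv (n L : ℕ) (lam kap e : ℝ) :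
    Measurable (fun w : Site → ℝ => fro (BM n L (VV lam kap e w))⁻¹) := by
  unfold fro
  apply Finset.measurable_sum
  intro i _
  apply Finset.measurable_sum
  intro j _
  apply Measurable.pow_const
  apply Measurable.norm
  have h1 : Measurable (fun w : Site → ℝ => (BM n L (VV lam kap e w)).det) := by
    have := (continuous_KM_det n L lam kap e 0 Finset.univ).measurable
    simpa only [KM_univ] using this
  have h2 : Continuous (fun w : Site → ℝ => (BM n L (VV lam kap e w)).adjugate) := by
    apply Continuous.matrix_adjugate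
    apply continuous_matrix
    intro p q
    exact continuous_BM_entry _ _ _ _ _ _ _
  have h3 : Measurable (fun w : Site → ℝ => (BM n L (VV lam kap e w)).adjugate i j) :=
    (h2.matrix_elem i j).measurable
  have h4 : (fun w : Site → ℝ => (BM n L (VV lam kap e w))⁻¹ i j)
    = fun w => ((BM n L (VV lam kap e w)).det)⁻¹ * (BM n L (VV lam kap e w)).adjugate i j := by
    funext w
    rw [Matrix.inv_def, Ring.inverse_eq_inv', Matrix.smul_apply, smul_eq_mul]
  rw [h4]
  exact h1.inv.mul h3

lemma measurable_log_det (n L : ℕ) (lam kap e : ℝ) :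
    Measurable (fun w : Site → ℝ => Real.log ‖(BM n L (VV lam kap e w)).det‖) := by
  have := (continuous_KM_det n L lam kap e 0 Finset.univ).measurable
  simp only [KM_univ] at this
  exact Real.measurable_log.comp this.norm

/-- Wegner type estimate -/
theorem wegner {μ : Measure ℝ} [IsProbabilityMeasure μ] {M : ℝ≥0} (hM : μ ≤ M • volume)
    {lam : ℝ} (hlam : 0 < lam) {n L : ℕ} (hn : 0 < n) (hL : 0 < L) (kap e : ℝ) :
    (∀ᵐ w ∂(iid Site μ), (BM n L (VV lam kap e w)).det ≠ 0) ∧
    ∫⁻ w, ENNReal.ofReal (Real.log (1 + fro (BM n L (VV lam kap e w))⁻¹)) ∂(iid Site μ)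
      ≤ ENNReal.ofReal (4 * Real.log ((n : ℝ) * L) + 4 + 8 * M / lam) := by
  set Om : ℝ := (n : ℝ) * L with hOm
  have hOm1 : 1 ≤ Om := by
    have h1 : (1 : ℝ) ≤ n := by exact_mod_cast hn
    have h2 : (1 : ℝ) ≤ L := by exact_mod_cast hL
    exact one_le_mul_of_one_le_of_one_le h1 h2
  set τ : ℝ := (Om ^ 2)⁻¹ with hτdef
  have hτ : 0 < τ := by positivity
  obtain ⟨h1, h2⟩ := shift_induction hM hlam hτ n L kap e Finset.univ
  simp only [KM_univ] at h1 h2
  refine ⟨h1, ?_⟩
  have hlogOm : 0 ≤ Real.log Om := Real.log_nonneg hOm1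
  have hpt : ∀ᵐ w ∂(iid Site μ), ENNReal.ofReal (Real.log (1 + fro (BM n L (VV lam kap e w))⁻¹))
      ≤ ENNReal.ofReal (4 * Real.log Om) + 2 * ENNReal.ofReal
        (Real.log ‖(KM n L (VV lam kap e w) τ ∅).det‖ - Real.log ‖(BM n L (VV lam kap e w)).det‖) := by
    filter_upwards [h1] with w hw
    have h3 := one_add_fro_le (τ := τ) hw
    set F := fro (BM n L (VV lam kap e w))⁻¹ with hF
    have hF0 : 0 ≤ F := fro_nonneg _
    have hd : 0 < ‖(BM n L (VV lam kap e w)).det‖ := norm_pos_iff.mpr hw
    have h4 : Real.log (1 + F) ≤ 4 * Real.log Om + Real.log (1 + τ ^ 2 * F) := by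
      have h5 : 1 + F ≤ Om ^ 4 * (1 + τ ^ 2 * F) := by
        have h6 : Om ^ 4 * τ ^ 2 = 1 := by
          rw [hτdef]; field_simp
        have h7 : 1 ≤ Om ^ 4 := one_le_pow₀ hOm1
        calc 1 + F ≤ Om ^ 4 + F := by linarith
          _ = Om ^ 4 + (Om ^ 4 * τ ^ 2) * F := by rw [h6, one_mul]
          _ = _ := by ring
      have h8 := Real.log_le_log (by linarith) h5
      rw [Real.log_mul (by positivity) (by positivity), Real.log_pow] at h8
      push_cast at h8
      exact h8
    have h9 : Real.log (1 + τ ^ 2 * F) ≤ 2 * (Real.log ‖(KM n L (VV lam kap e w) τ ∅).det‖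
        - Real.log ‖(BM n L (VV lam kap e w)).det‖) := by
      have h10 := Real.log_le_log (by positivity) h3
      rw [Real.log_mul (by positivity) (by positivity), Real.log_pow, Real.log_pow] at h10
      push_cast at h10
      linarith
    have h11 : (2 : ℝ≥0∞) = ENNReal.ofReal 2 := by norm_num
    rw [h11, ← ENNReal.ofReal_mul (by norm_num)]
    refine le_trans ?_ ENNReal.ofReal_add_le
    apply ENNReal.ofReal_le_ofReal
    linarith
  have hmeas : Measurable (fun w : Site → ℝ => ENNReal.ofReal
        (Real.log ‖(KM n L (VV lam kap e w) τ ∅).det‖ - Real.log ‖(BM n L (VV lam kap e w)).det‖)) := by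
    apply ENNReal.measurable_ofReal.comp
    exact (Real.measurable_log.comp ((continuous_KM_det n L lam kap e τ ∅).measurable.norm)).sub
      (measurable_log_det n L lam kap e)
  calc ∫⁻ w, ENNReal.ofReal (Real.log (1 + fro (BM n L (VV lam kap e w))⁻¹)) ∂(iid Site μ)
      ≤ ∫⁻ w, (ENNReal.ofReal (4 * Real.log Om) + 2 * ENNReal.ofReal
        (Real.log ‖(KM n L (VV lam kap e w) τ ∅).det‖
          - Real.log ‖(BM n L (VV lam kap e w)).det‖)) ∂(iid Site μ) := lintegral_mono_ae hpt
    _ = ENNReal.ofReal (4 * Real.log Om) + 2 * ∫⁻ w, ENNReal.ofReal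
        (Real.log ‖(KM n L (VV lam kap e w) τ ∅).det‖
          - Real.log ‖(BM n L (VV lam kap e w)).det‖) ∂(iid Site μ) := by
        rw [lintegral_add_left measurable_const, lintegral_const, measure_univ, mul_one,
          lintegral_const_mul _ hmeas]
    _ ≤ ENNReal.ofReal (4 * Real.log Om) + 2 * ((Finset.univ : Finset (Fin n × Fin L)).card *
        ENNReal.ofReal (2 * Real.sqrt τ * (1 + 2 * M / lam))) := by gcongr
    _ = ENNReal.ofReal (4 * Real.log Om + 4 + 8 * M / lam) := by
        have h11 : (2 : ℝ≥0∞) = ENNReal.ofReal 2 := by norm_num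
        have h12 : ((Finset.univ : Finset (Fin n × Fin L)).card : ℝ≥0∞) = ENNReal.ofReal Om := by
          rw [Finset.card_univ, Fintype.card_prod, Fintype.card_fin, Fintype.card_fin, hOm]
          rw [← Nat.cast_mul, ENNReal.ofReal_natCast]
        have h13 : Real.sqrt τ = Om⁻¹ := by
          rw [hτdef, Real.sqrt_inv, Real.sqrt_sq (by linarith)]
        rw [h12, h11, h13, ← ENNReal.ofReal_mul (by linarith), ← ENNReal.ofReal_mul (by norm_num),
          ← ENNReal.ofReal_add (by positivity) (by positivity)]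
        congr 1
        field_simp
        ring

end Pool.Agent.Helper19
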