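import Pool.Agent.Helper19.Single
import Pool.Agent.Helper19.Box
import Pool.Agent.Helper19.Wegner
import Pool.Agent.Helper19.ZeroOne

set_option autoImplicit false

open MeasureTheory Filter Topology Matrix
open scoped ENNReal NNReal ComplexOrder

namespace Pool.Agent.Helper19

set_option linter.unusedSectionVars false

variable {ι : Type*} [Fintype ι] [DecidableEq ι]

/-- Hermitian matrix plus real diagonal -/
noncomputable def RM (M0 : Matrix ι ι ℂ) (s : ι → Site) (V : Site → ℝ) : Matrix ι ι ℂ :=
  fun p q => M0 p q + if p = q then ((V (s p) : ℝ) : ℂ) else 0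

/-- box matrix with imaginary shift outside `T` -/
noncomputable def GK (M0 : Matrix ι ι ℂ) (s : ι → Site) (V : Site → ℝ) (τ : ℝ) (T : Finset ι) :
    Matrix ι ι ℂ :=
  fun p q => RM M0 s V p q - if p = q ∧ p ∉ T then Complex.I * τ else 0

lemma GK_univ (M0 : Matrix ι ι ℂ) (s : ι → Site) (V : Site → ℝ) (τ : ℝ) : GK M0 s V τ Finset.univ = RM M0 s V := by
  ext p q; simp [GK]

lemma continuous_RM_entry (M0 : Matrix ι ι ℂ) (s : ι → Site) (lam kap e : ℝ) (p q : ι) :
    Continuous (fun w : Site → ℝ => RM M0 s (VV lam kap e w) p q) := by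
  unfold RM VV pot
  apply Continuous.add continuous_const
  by_cases h : p = q
  · simp only [if_pos h]; fun_prop
  · simp only [if_neg h]; fun_prop

lemma RM_hermitian {M0 : Matrix ι ι ℂ} (hM0 : M0.IsHermitian) (s : ι → Site) (V : Site → ℝ) :
    (RM M0 s V).IsHermitian := by
  ext p q
  rw [Matrix.conjTranspose_apply]
  unfold RM
  rw [star_add]
  congr 1
  · exact hM0.apply p q
  · by_cases h : p = q
    · subst h; simp
    · rw [if_neg h, if_neg (Ne.symm h), star_zero]

lemma continuous_GK_det (M0 : Matrix ι ι ℂ) (s : ι → Site) (lam kap e τ : ℝ) (T : Finset ι) :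
    Continuous (fun w : Site → ℝ => (GK M0 s (VV lam kap e w) τ T).det) := by
  apply Continuous.matrix_det
  apply continuous_matrix
  intro p q
  unfold GK
  exact (continuous_RM_entry _ _ _ _ _ _ _).sub continuous_const

lemma GK_update (M0 : Matrix ι ι ℂ) {s : ι → Site} (hs : Function.Injective s) (lam kap e τ : ℝ) (T : Finset ι) (x : ι)
    (w : Site → ℝ) (t : ℝ) :
    (GK M0 s (VV lam kap e (Function.update w (s x) t)) τ T)
      = fun p q => GK M0 s (VV lam kap e (Function.update w (s x) 0)) τ T p q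
        + if p = x ∧ q = x then ((lam * t : ℝ) : ℂ) else 0 := by
  ext p q
  unfold GK RM VV
  rw [pot_update lam kap w (s x) t 0]
  by_cases hp : p = x
  · subst hp
    by_cases hq : q = p
    · subst hq
      simp only [if_true, and_self]
      push_cast
      ring
    · have h2 : ¬ (p = p ∧ q = p) := fun h => hq h.2
      have h3 : ¬ (p = q ∧ p ∉ T) := fun h => hq h.1.symm
      rw [if_neg (Ne.symm hq), if_neg (Ne.symm hq), if_neg h2, if_neg h3]; ring
  · have h1 : s p ≠ s x := fun h => hp (hs h)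
    have h2 : ¬ (p = x ∧ q = x) := fun h => hp h.1
    rw [if_neg h1, add_zero, if_neg h2, add_zero]

lemma GK_insert (M0 : Matrix ι ι ℂ) (s : ι → Site) (V : Site → ℝ) (τ : ℝ) (T : Finset ι) (x : ι)
    (hx : x ∉ T) :
    GK M0 s V τ T = fun p q => GK M0 s V τ (insert x T) p q
        + if p = x ∧ q = x then -(Complex.I * τ) else 0 := by
  ext p q
  unfold GK
  by_cases hp : p = x
  · subst hp
    by_cases hq : q = p
    · subst hq
      simp [hx]
      ring
    · have h2 : ¬ (p = p ∧ q = p) := fun h => hq h.2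
      have h3 : ¬ (p = q ∧ p ∉ T) := fun h => hq h.1.symm
      have h4 : ¬ (p = q ∧ p ∉ insert p T) := fun h => hq h.1.symm
      rw [if_neg h2, if_neg h3, if_neg h4, add_zero]
  · have h2 : ¬ (p = x ∧ q = x) := fun h => hp h.1
    rw [if_neg h2, add_zero]
    simp [hp]

/-- both determinants as affine functions of the value at `x` -/
lemma GK_det_affine (M0 : Matrix ι ι ℂ) {s : ι → Site} (hs : Function.Injective s) (lam kap e τ : ℝ) (T : Finset ι) (x : ι)
    (hx : x ∉ T) (w : Site → ℝ) :
    ∃ α β : ℂ, ∀ t : ℝ,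
      (GK M0 s (VV lam kap e (Function.update w (s x) t)) τ (insert x T)).det
        = α + ((lam * t : ℝ) : ℂ) * β ∧
      (GK M0 s (VV lam kap e (Function.update w (s x) t)) τ T).det
        = α + (((lam * t : ℝ) : ℂ) - Complex.I * τ) * β := by
  set K := GK M0 s (VV lam kap e (Function.update w (s x) 0)) τ (insert x T) with hK
  refine ⟨K.det, (K.updateRow x (Pi.single x 1)).det, fun t => ⟨?_, ?_⟩⟩
  · rw [GK_update M0 hs, det_add_single]
  · rw [GK_update M0 hs, GK_insert M0 s _ τ T x hx]
    have : (fun p q => (fun p q => GK M0 s (VV lam kap e (Function.update w (s x) 0)) τ (insert x T) p q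
        + if p = x ∧ q = x then -(Complex.I * τ) else 0 : Matrix _ _ ℂ) p q
        + if p = x ∧ q = x then ((lam * t : ℝ) : ℂ) else 0 : Matrix ι ι ℂ)
        = fun p q => K p q + if p = x ∧ q = x then (((lam * t : ℝ) : ℂ) - Complex.I * τ) else 0 := by
      ext p q
      by_cases h : p = x ∧ q = x
      · simp only [if_pos h]; rw [hK]; ring
      · simp only [if_neg h]; rw [hK]; ring
    rw [this, det_add_single]

lemma GK_empty_ne_zero {M0 : Matrix ι ι ℂ} (hM0 : M0.IsHermitian) (s : ι → Site) (V : Site → ℝ) {τ : ℝ} (hτ : 0 < τ) :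
    (GK M0 s V τ ∅).det ≠ 0 := by
  intro h
  rw [← Matrix.exists_mulVec_eq_zero_iff] at h
  obtain ⟨v, hv, h⟩ := h
  have h1 : GK M0 s V τ ∅ = RM M0 s V - (Complex.I * τ) • (1 : Matrix _ _ ℂ) := by
    ext p q
    rw [Matrix.sub_apply, Matrix.smul_apply, Matrix.one_apply]
    simp [GK]
  rw [h1, Matrix.sub_mulVec, Matrix.smul_mulVec, Matrix.one_mulVec, sub_eq_zero] at h
  have h2 := (RM_hermitian hM0 s V).im_star_dotProduct_mulVec_self v
  rw [h, dotProduct_smul] at h2
  have h3 : star v ⬝ᵥ v = ((∑ i, ‖v i‖ ^ 2 : ℝ) : ℂ) := by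
    rw [dotProduct]
    push_cast
    apply Finset.sum_congr rfl
    intro i _
    rw [Pi.star_apply, RCLike.star_def, ← Complex.normSq_eq_conj_mul_self, Complex.normSq_eq_norm_sq]
    push_cast; rfl
  rw [h3] at h2
  have h5 : τ * (∑ i, ‖v i‖ ^ 2) = 0 := by
    generalize (∑ i, ‖v i‖ ^ 2) = S at h2
    simpa using h2
  rcases mul_eq_zero.mp h5 with h2 | h2
  · exact absurd h2 hτ.ne'
  · apply hv
    funext i
    have h4 := (Finset.sum_eq_zero_iff_of_nonneg (fun i _ => by positivity)).mp h2 i (Finset.mem_univ i)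
    simpa using h4

/-- the shift induction -/
theorem gshift_induction {μ : Measure ℝ} [IsProbabilityMeasure μ] {M : ℝ≥0} (hM : μ ≤ M • volume)
    {lam : ℝ} (hlam : 0 < lam) {τ : ℝ} (hτ : 0 < τ) {M0 : Matrix ι ι ℂ} (hM0 : M0.IsHermitian)
    {s : ι → Site} (hs : Function.Injective s) (kap e : ℝ)
    (T : Finset ι) :
    (∀ᵐ w ∂(iid Site μ), (GK M0 s (VV lam kap e w) τ T).det ≠ 0) ∧
    ∫⁻ w, ENNReal.ofReal (Real.log ‖(GK M0 s (VV lam kap e w) τ ∅).det‖
      - Real.log ‖(GK M0 s (VV lam kap e w) τ T).det‖) ∂(iid Site μ)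
      ≤ T.card * ENNReal.ofReal (2 * Real.sqrt τ * (1 + 2 * M / lam)) := by
  have hac : μ ≪ volume := (Measure.absolutelyContinuous_of_le_smul (c := M) hM)
  have hmeasD : ∀ T : Finset ι, Measurable (fun w : Site → ℝ =>
      Real.log ‖(GK M0 s (VV lam kap e w) τ T).det‖) := fun T =>
    Real.measurable_log.comp ((continuous_GK_det M0 s lam kap e τ T).measurable.norm)
  induction T using Finset.induction_on with
  | empty =>
    refine ⟨Filter.Eventually.of_forall (fun w => GK_empty_ne_zero hM0 s _ hτ), ?_⟩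
    simp
  | insert x T hx ih =>
    obtain ⟨ih1, ih2⟩ := ih
    refine ⟨?_, ?_⟩
    · have hA : MeasurableSet {w : Site → ℝ | (GK M0 s (VV lam kap e w) τ (insert x T)).det = 0} :=
        (continuous_GK_det M0 s lam kap e τ (insert x T)).measurable (measurableSet_singleton 0)
      have : (iid Site μ) {w : Site → ℝ | (GK M0 s (VV lam kap e w) τ (insert x T)).det = 0} = 0 := by
        apply null_of_sections_ae (s x) hA
        filter_upwards [ae_update (s x) ih1] with w hw
        obtain ⟨α, β, hαβ⟩ := GK_det_affine M0 hs lam kap e τ T x hx w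
        by_cases hβ : β = 0
        · filter_upwards [hw] with t ht hmem
          have hmem2 : (GK M0 s (VV lam kap e (Function.update w (s x) t)) τ (insert x T)).det = 0 := hmem
          rw [(hαβ t).1, hβ, mul_zero] at hmem2
          rw [(hαβ t).2, hβ, mul_zero] at ht
          exact ht hmem2
        · have h0 : μ {t : ℝ | α + ((lam * t : ℝ) : ℂ) * β = 0} = 0 := by
            apply hac
            apply Set.Subsingleton.measure_zero
            intro s hs t ht
            simp only [Set.mem_ofPred_eq] at hs ht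
            have h1 : ((lam * s : ℝ) : ℂ) * β = ((lam * t : ℝ) : ℂ) * β := by
              linear_combination hs - ht
            have h2 := mul_right_cancel₀ hβ h1
            have h3 : lam * s = lam * t := by exact_mod_cast h2
            exact mul_left_cancel₀ hlam.ne' h3
          have h1 : ∀ᵐ t ∂μ, ¬ (α + ((lam * t : ℝ) : ℂ) * β = 0) := by
            rw [ae_iff]; simpa using h0
          filter_upwards [h1] with t ht hmem
          have hmem2 : (GK M0 s (VV lam kap e (Function.update w (s x) t)) τ (insert x T)).det = 0 := hmem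
          rw [(hαβ t).1] at hmem2
          exact ht hmem2
      rw [ae_iff]
      simpa using this
    · have hstep : ∫⁻ w, ENNReal.ofReal (Real.log ‖(GK M0 s (VV lam kap e w) τ T).det‖
          - Real.log ‖(GK M0 s (VV lam kap e w) τ (insert x T)).det‖) ∂(iid Site μ)
          ≤ ENNReal.ofReal (2 * Real.sqrt τ * (1 + 2 * M / lam)) := by
        have hf : Measurable (fun w : Site → ℝ => ENNReal.ofReal
          (Real.log ‖(GK M0 s (VV lam kap e w) τ T).det‖
          - Real.log ‖(GK M0 s (VV lam kap e w) τ (insert x T)).det‖)) :=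
          ENNReal.measurable_ofReal.comp ((hmeasD T).sub (hmeasD (insert x T)))
        have hf2 := hf.comp (measurable_upd (s x))
        simp only [Function.comp_def] at hf2
        rw [← (mp_update μ (s x)).lintegral_comp hf]
        rw [lintegral_prod _ hf2.aemeasurable]
        calc ∫⁻ w, ∫⁻ t, ENNReal.ofReal (Real.log ‖(GK M0 s (VV lam kap e
              (Function.update w (s x) t)) τ T).det‖
              - Real.log ‖(GK M0 s (VV lam kap e (Function.update w (s x) t)) τ
                (insert x T)).det‖) ∂μ ∂(iid Site μ)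
            ≤ ∫⁻ w, ENNReal.ofReal (2 * Real.sqrt τ * (1 + 2 * M / lam)) ∂(iid Site μ) := by
              apply lintegral_mono
              intro w
              obtain ⟨α, β, hαβ⟩ := GK_det_affine M0 hs lam kap e τ T x hx w
              simp only [(hαβ _).1, (hαβ _).2]
              exact single_site hM hlam hτ α β
          _ = _ := by rw [lintegral_const, measure_univ, mul_one]
      calc ∫⁻ w, ENNReal.ofReal (Real.log ‖(GK M0 s (VV lam kap e w) τ ∅).det‖
            - Real.log ‖(GK M0 s (VV lam kap e w) τ (insert x T)).det‖) ∂(iid Site μ)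
          ≤ ∫⁻ w, (ENNReal.ofReal (Real.log ‖(GK M0 s (VV lam kap e w) τ ∅).det‖
            - Real.log ‖(GK M0 s (VV lam kap e w) τ T).det‖)
            + ENNReal.ofReal (Real.log ‖(GK M0 s (VV lam kap e w) τ T).det‖
            - Real.log ‖(GK M0 s (VV lam kap e w) τ (insert x T)).det‖)) ∂(iid Site μ) := by
            apply lintegral_mono
            intro w
            have hsplit : Real.log ‖(GK M0 s (VV lam kap e w) τ ∅).det‖
              - Real.log ‖(GK M0 s (VV lam kap e w) τ (insert x T)).det‖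
              = (Real.log ‖(GK M0 s (VV lam kap e w) τ ∅).det‖
              - Real.log ‖(GK M0 s (VV lam kap e w) τ T).det‖)
              + (Real.log ‖(GK M0 s (VV lam kap e w) τ T).det‖
              - Real.log ‖(GK M0 s (VV lam kap e w) τ (insert x T)).det‖) := by ring
            beta_reduce
            rw [hsplit]
            exact ENNReal.ofReal_add_le
        _ = (∫⁻ w, ENNReal.ofReal (Real.log ‖(GK M0 s (VV lam kap e w) τ ∅).det‖
            - Real.log ‖(GK M0 s (VV lam kap e w) τ T).det‖) ∂(iid Site μ))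
            + ∫⁻ w, ENNReal.ofReal (Real.log ‖(GK M0 s (VV lam kap e w) τ T).det‖
            - Real.log ‖(GK M0 s (VV lam kap e w) τ (insert x T)).det‖) ∂(iid Site μ) := by
            rw [lintegral_add_left]
            exact ENNReal.measurable_ofReal.comp ((hmeasD ∅).sub (hmeasD T))
        _ ≤ T.card * ENNReal.ofReal (2 * Real.sqrt τ * (1 + 2 * M / lam))
            + ENNReal.ofReal (2 * Real.sqrt τ * (1 + 2 * M / lam)) := add_le_add ih2 hstep
        _ = _ := by
            rw [Finset.card_insert_of_notMem hx]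
            push_cast
            ring

/-- the determinant with imaginary shift controls the Frobenius norm of the inverse -/
lemma one_add_fro_le_g {M0 : Matrix ι ι ℂ} (hM0 : M0.IsHermitian) {s : ι → Site} {V : Site → ℝ} {τ : ℝ} (hdet : (RM M0 s V).det ≠ 0) :
    ‖(RM M0 s V).det‖ ^ 2 * (1 + τ ^ 2 * fro (RM M0 s V)⁻¹) ≤ ‖(GK M0 s V τ ∅).det‖ ^ 2 := by
  set A := RM M0 s V with hA
  set G := A⁻¹ with hG
  have hAG : A * G = 1 := Matrix.mul_nonsing_inv A (isUnit_iff_ne_zero.mpr hdet)
  have hGh : Gᴴ = G := by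
    rw [hG, Matrix.conjTranspose_nonsing_inv, (RM_hermitian hM0 s V).eq]
  have h1 : GK M0 s V τ ∅ = A * (1 - (Complex.I * τ) • G) := by
    rw [mul_sub, mul_one, Matrix.mul_smul, hAG]
    ext p q
    rw [Matrix.sub_apply, Matrix.smul_apply, Matrix.one_apply]
    simp [GK, hA]
  rw [h1, Matrix.det_mul, norm_mul, mul_pow]
  apply mul_le_mul_of_nonneg_left _ (by positivity)
  set Q := (1 - (Complex.I * τ) • G)ᴴ * (1 - (Complex.I * τ) • G) with hQ
  have hQeq : Q = 1 + ((τ ^ 2 : ℝ) : ℂ) • (Gᴴ * G) := by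
    rw [hQ, Matrix.conjTranspose_sub, Matrix.conjTranspose_smul, Matrix.conjTranspose_one, hGh]
    have : star (Complex.I * (τ : ℂ)) = -(Complex.I * τ) := by
      simp
    rw [this]
    rw [neg_smul, sub_neg_eq_add, add_mul, mul_sub, mul_sub, one_mul, mul_one, one_mul,
      Matrix.smul_mul, Matrix.mul_smul, smul_smul]
    have h2 : Complex.I * (τ : ℂ) * (Complex.I * τ) = -((τ ^ 2 : ℝ) : ℂ) := by
      push_cast
      linear_combination (τ : ℂ) ^ 2 * Complex.I_mul_I
    rw [h2]
    module
  have hdetQ : (Q.det) = ((‖(1 - (Complex.I * τ) • G).det‖ ^ 2 : ℝ) : ℂ) := by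
    rw [hQ, Matrix.det_mul, Matrix.det_conjTranspose, RCLike.star_def,
        ← Complex.normSq_eq_conj_mul_self, Complex.normSq_eq_norm_sq]
  have hP : (Gᴴ * G).PosSemidef := Matrix.posSemidef_conjTranspose_mul_self G
  have hQh : Q.IsHermitian := by
    rw [hQ]; exact Matrix.isHermitian_conjTranspose_mul_self _
  have h3 : Q.det = ∏ i, (hQh.eigenvalues i : ℂ) := hQh.det_eq_prod_eigenvalues
  have h4 : Q.trace = ∑ i, (hQh.eigenvalues i : ℂ) := hQh.trace_eq_sum_eigenvalues
  have h5 : ‖(1 - (Complex.I * τ) • G).det‖ ^ 2 = ∏ i, hQh.eigenvalues i := by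
    have := hdetQ.symm.trans h3
    exact_mod_cast this
  have h6 : ∑ i, (hQh.eigenvalues i - 1) = τ ^ 2 * fro G := by
    have h7 : Q.trace = Fintype.card (ι) + ((τ ^ 2 : ℝ) : ℂ) * (fro G : ℂ) := by
      rw [hQeq, Matrix.trace_add, Matrix.trace_one, Matrix.trace_smul, trace_conj_mul, smul_eq_mul]
    rw [h4] at h7
    have h8 : ∑ i, hQh.eigenvalues i = Fintype.card (ι) + τ ^ 2 * fro G := by
      exact_mod_cast h7
    rw [Finset.sum_sub_distrib, h8]
    simp
  have h9 : ∀ i, 1 ≤ hQh.eigenvalues i := by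
    intro i
    rw [hQh.eigenvalues_eq]
    have hv := hQh.eigenvectorBasis.orthonormal.1 i
    set v : (ι) → ℂ := ⇑(hQh.eigenvectorBasis i) with hvdef
    have hv2 : star v ⬝ᵥ v = 1 := by
      have := inner_self_eq_norm_sq_to_K (𝕜 := ℂ) (hQh.eigenvectorBasis i)
      rw [hv, EuclideanSpace.inner_eq_star_dotProduct] at this
      rw [dotProduct_comm]
      simpa using this
    rw [hQeq, Matrix.add_mulVec, Matrix.one_mulVec, dotProduct_add, hv2, Matrix.smul_mulVec,
      dotProduct_smul]
    have h10 := hP.dotProduct_mulVec_nonneg v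
    have h11 : 0 ≤ RCLike.re (((τ ^ 2 : ℝ) : ℂ) • (star v ⬝ᵥ (Gᴴ * G) *ᵥ v)) := by
      have h12 := (RCLike.nonneg_iff.mp h10).1
      rw [smul_eq_mul, RCLike.re_to_complex, Complex.re_ofReal_mul]
      rw [RCLike.re_to_complex] at h12
      positivity
    rw [map_add, RCLike.one_re]
    linarith
  rw [h5, ← h6]
  have h13 : ∀ s : Finset ι,
      1 + ∑ i ∈ s, (hQh.eigenvalues i - 1) ≤ ∏ i ∈ s, hQh.eigenvalues i := by
    intro s
    induction s using Finset.induction_on with
    | empty => simp
    | insert a s ha ih =>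
      rw [Finset.sum_insert ha, Finset.prod_insert ha]
      have h14 := h9 a
      have h15 : 0 ≤ ∑ i ∈ s, (hQh.eigenvalues i - 1) :=
        Finset.sum_nonneg (fun i _ => by linarith [h9 i])
      nlinarith
  exact h13 Finset.univ

/-- `w ↦ fro (inverse)` is measurable -/
lemma measurable_fro_inv_g (M0 : Matrix ι ι ℂ) (s : ι → Site) (lam kap e : ℝ) :
    Measurable (fun w : Site → ℝ => fro (RM M0 s (VV lam kap e w))⁻¹) := by
  unfold fro
  apply Finset.measurable_sum
  intro i _
  apply Finset.measurable_sum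
  intro j _
  apply Measurable.pow_const
  apply Measurable.norm
  have h1 : Measurable (fun w : Site → ℝ => (RM M0 s (VV lam kap e w)).det) := by
    have := (continuous_GK_det M0 s lam kap e 0 Finset.univ).measurable
    simpa only [GK_univ] using this
  have h2 : Continuous (fun w : Site → ℝ => (RM M0 s (VV lam kap e w)).adjugate) := by
    apply Continuous.matrix_adjugate
    apply continuous_matrix
    intro p q
    exact continuous_RM_entry _ _ _ _ _ _ _
  have h3 : Measurable (fun w : Site → ℝ => (RM M0 s (VV lam kap e w)).adjugate i j) :=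
    (h2.matrix_elem i j).measurable
  have h4 : (fun w : Site → ℝ => (RM M0 s (VV lam kap e w))⁻¹ i j)
    = fun w => ((RM M0 s (VV lam kap e w)).det)⁻¹ * (RM M0 s (VV lam kap e w)).adjugate i j := by
    funext w
    rw [Matrix.inv_def, Ring.inverse_eq_inv', Matrix.smul_apply, smul_eq_mul]
  rw [h4]
  exact h1.inv.mul h3

lemma measurable_log_det_g (M0 : Matrix ι ι ℂ) (s : ι → Site) (lam kap e : ℝ) :
    Measurable (fun w : Site → ℝ => Real.log ‖(RM M0 s (VV lam kap e w)).det‖) := by
  have := (continuous_GK_det M0 s lam kap e 0 Finset.univ).measurable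
  simp only [GK_univ] at this
  exact Real.measurable_log.comp this.norm

/-- Wegner type estimate -/
theorem gwegner {μ : Measure ℝ} [IsProbabilityMeasure μ] {M : ℝ≥0} (hM : μ ≤ M • volume)
    {lam : ℝ} (hlam : 0 < lam) {M0 : Matrix ι ι ℂ} (hM0 : M0.IsHermitian)
    {s : ι → Site} (hs : Function.Injective s) (hn : 0 < Fintype.card ι) (kap e : ℝ) :
    (∀ᵐ w ∂(iid Site μ), (RM M0 s (VV lam kap e w)).det ≠ 0) ∧
    ∫⁻ w, ENNReal.ofReal (Real.log (1 + fro (RM M0 s (VV lam kap e w))⁻¹)) ∂(iid Site μ)
      ≤ ENNReal.ofReal (4 * Real.log (Fintype.card ι) + 4 + 8 * M / lam) := by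
  set Om : ℝ := (Fintype.card ι : ℝ) with hOm
  have hOm1 : 1 ≤ Om := by
    have : 1 ≤ Fintype.card ι := hn
    rw [hOm]; exact_mod_cast this
  set τ : ℝ := (Om ^ 2)⁻¹ with hτdef
  have hτ : 0 < τ := by positivity
  obtain ⟨h1, h2⟩ := gshift_induction hM hlam hτ hM0 hs kap e Finset.univ
  simp only [GK_univ] at h1 h2
  refine ⟨h1, ?_⟩
  have hlogOm : 0 ≤ Real.log Om := Real.log_nonneg hOm1
  have hpt : ∀ᵐ w ∂(iid Site μ), ENNReal.ofReal (Real.log (1 + fro (RM M0 s (VV lam kap e w))⁻¹))
      ≤ ENNReal.ofReal (4 * Real.log Om) + 2 * ENNReal.ofReal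
        (Real.log ‖(GK M0 s (VV lam kap e w) τ ∅).det‖ - Real.log ‖(RM M0 s (VV lam kap e w)).det‖) := by
    filter_upwards [h1] with w hw
    have h3 := one_add_fro_le_g (τ := τ) hM0 hw
    set F := fro (RM M0 s (VV lam kap e w))⁻¹ with hF
    have hF0 : 0 ≤ F := fro_nonneg _
    have hd : 0 < ‖(RM M0 s (VV lam kap e w)).det‖ := norm_pos_iff.mpr hw
    have h4 : Real.log (1 + F) ≤ 4 * Real.log Om + Real.log (1 + τ ^ 2 * F) := by
      have h5 : 1 + F ≤ Om ^ 4 * (1 + τ ^ 2 * F) := by
        have h6 : Om ^ 4 * τ ^ 2 = 1 := by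
          rw [hτdef]; field_simp
        have h7 : 1 ≤ Om ^ 4 := one_le_pow₀ hOm1
        calc 1 + F ≤ Om ^ 4 + F := by linarith
          _ = Om ^ 4 + (Om ^ 4 * τ ^ 2) * F := by rw [h6, one_mul]
          _ = _ := by ring
      have h8 := Real.log_le_log (by linarith) h5
      rw [Real.log_mul (by positivity) (by positivity), Real.log_pow] at h8
      push_cast at h8
      exact h8
    have h9 : Real.log (1 + τ ^ 2 * F) ≤ 2 * (Real.log ‖(GK M0 s (VV lam kap e w) τ ∅).det‖
        - Real.log ‖(RM M0 s (VV lam kap e w)).det‖) := by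
      have h10 := Real.log_le_log (by positivity) h3
      rw [Real.log_mul (by positivity) (by positivity), Real.log_pow, Real.log_pow] at h10
      push_cast at h10
      linarith
    have h11 : (2 : ℝ≥0∞) = ENNReal.ofReal 2 := by norm_num
    rw [h11, ← ENNReal.ofReal_mul (by norm_num)]
    refine le_trans ?_ ENNReal.ofReal_add_le
    apply ENNReal.ofReal_le_ofReal
    linarith
  have hmeas : Measurable (fun w : Site → ℝ => ENNReal.ofReal
        (Real.log ‖(GK M0 s (VV lam kap e w) τ ∅).det‖ - Real.log ‖(RM M0 s (VV lam kap e w)).det‖)) := by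
    apply ENNReal.measurable_ofReal.comp
    exact (Real.measurable_log.comp ((continuous_GK_det M0 s lam kap e τ ∅).measurable.norm)).sub
      (measurable_log_det_g M0 s lam kap e)
  calc ∫⁻ w, ENNReal.ofReal (Real.log (1 + fro (RM M0 s (VV lam kap e w))⁻¹)) ∂(iid Site μ)
      ≤ ∫⁻ w, (ENNReal.ofReal (4 * Real.log Om) + 2 * ENNReal.ofReal
        (Real.log ‖(GK M0 s (VV lam kap e w) τ ∅).det‖
          - Real.log ‖(RM M0 s (VV lam kap e w)).det‖)) ∂(iid Site μ) := lintegral_mono_ae hpt
    _ = ENNReal.ofReal (4 * Real.log Om) + 2 * ∫⁻ w, ENNReal.ofReal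
        (Real.log ‖(GK M0 s (VV lam kap e w) τ ∅).det‖
          - Real.log ‖(RM M0 s (VV lam kap e w)).det‖) ∂(iid Site μ) := by
        rw [lintegral_add_left measurable_const, lintegral_const, measure_univ, mul_one,
          lintegral_const_mul _ hmeas]
    _ ≤ ENNReal.ofReal (4 * Real.log Om) + 2 * ((Finset.univ : Finset ι).card *
        ENNReal.ofReal (2 * Real.sqrt τ * (1 + 2 * M / lam))) := by gcongr
    _ = ENNReal.ofReal (4 * Real.log Om + 4 + 8 * M / lam) := by
        have h11 : (2 : ℝ≥0∞) = ENNReal.ofReal 2 := by norm_num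
        have h12 : ((Finset.univ : Finset ι).card : ℝ≥0∞) = ENNReal.ofReal Om := by
          rw [Finset.card_univ, hOm, ENNReal.ofReal_natCast]
        have h13 : Real.sqrt τ = Om⁻¹ := by
          rw [hτdef, Real.sqrt_inv, Real.sqrt_sq (by linarith)]
        rw [h12, h11, h13, ← ENNReal.ofReal_mul (by linarith), ← ENNReal.ofReal_mul (by norm_num),
          ← ENNReal.ofReal_add (by positivity) (by positivity)]
        congr 1
        field_simp
        ring

end Pool.Agent.Helper19
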