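import Pool.Agent.Helper19.MAff2
import Pool.Agent.Helper19.GW

set_option autoImplicit false

open MeasureTheory Filter Topology Matrix
open scoped ENNReal NNReal Real

namespace Pool.Agent.Helper19

set_option linter.unusedSectionVars false

section
variable {ι : Type*} [Fintype ι] [DecidableEq ι]

/-- matrix with diagonal entries affine in the potentials -/
def GM (M0 : Matrix ι ι ℂ) (c : ι → ℂ) (s : ι → Site) (v : Site → ℂ) : Matrix ι ι ℂ :=
  fun p q => M0 p q + if p = q then c p * v (s p) else 0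

lemma GM_update (M0 : Matrix ι ι ℂ) (c : ι → ℂ) {s : ι → Site} (hs : Function.Injective s)
    (v : Site → ℂ) (x : ι) (z : ℂ) :
    GM M0 c s (Function.update v (s x) z) = fun p q => GM M0 c s (Function.update v (s x) 0) p q
      + if p = x ∧ q = x then c x * z else 0 := by
  ext p q
  unfold GM
  by_cases hp : p = x
  · subst hp
    by_cases hq : q = p
    · subst hq; simp
    · simp [hq, Ne.symm hq]
  · have h1 : s p ≠ s x := fun h => hp (hs h)
    simp [Function.update_of_ne h1, hp]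

lemma GM_aff (M0 : Matrix ι ι ℂ) (c : ι → ℂ) {s : ι → Site} (hs : Function.Injective s)
    (v : Site → ℂ) (x : Site) :
    ∃ α β : ℂ, ∀ z : ℂ, (GM M0 c s (Function.update v x z)).det = α + z * β := by
  by_cases hx : ∃ y, s y = x
  · obtain ⟨y, rfl⟩ := hx
    refine ⟨(GM M0 c s (Function.update v (s y) 0)).det,
      c y * ((GM M0 c s (Function.update v (s y) 0)).updateRow y (Pi.single y 1)).det, fun z => ?_⟩
    rw [GM_update M0 c hs, det_add_single]
    ring
  · refine ⟨(GM M0 c s v).det, 0, fun z => ?_⟩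
    rw [mul_zero, add_zero]
    congr 1
    ext p q
    unfold GM
    have h1 : s p ≠ x := fun h => hx ⟨p, h⟩
    rw [Function.update_of_ne h1]

lemma GM_maff (M0 : Matrix ι ι ℂ) (c : ι → ℂ) {s : ι → Site} (hs : Function.Injective s) :
    ∃ B : ℝ, 0 ≤ B ∧ MAff (fun v => (GM M0 c s v).det) (Finset.univ.image s) B := by
  set a : ℝ := 1 + ∑ p, ∑ q, ‖M0 p q‖ + ∑ p, ‖c p‖ with ha
  have ha1 : 1 ≤ a := by
    have h1 : 0 ≤ ∑ p, ∑ q, ‖M0 p q‖ := by positivity
    have h2 : 0 ≤ ∑ p, ‖c p‖ := by positivity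
    linarith
  have hent : ∀ (v : Site → ℂ) (p q : ι), ‖GM M0 c s v p q‖ ≤ a * (1 + ‖v (s q)‖) := by
    intro v p q
    have hv := norm_nonneg (v (s q))
    have h1 : ‖M0 p q‖ ≤ ∑ p, ∑ q, ‖M0 p q‖ := by
      refine le_trans ?_ (Finset.single_le_sum (f := fun p => ∑ q, ‖M0 p q‖)
        (fun i _ => by positivity) (Finset.mem_univ p))
      exact Finset.single_le_sum (f := fun q => ‖M0 p q‖) (fun i _ => by positivity) (Finset.mem_univ q)
    have h2 : ‖c q‖ ≤ ∑ p, ‖c p‖ :=
      Finset.single_le_sum (f := fun p => ‖c p‖) (fun i _ => by positivity) (Finset.mem_univ q)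
    have h3 : 0 ≤ ∑ p, ∑ q, ‖M0 p q‖ := by positivity
    have h4 : 0 ≤ ∑ p, ‖c p‖ := by positivity
    unfold GM
    by_cases h : p = q
    · subst h
      rw [if_pos rfl]
      refine (norm_add_le _ _).trans ?_
      rw [norm_mul]
      nlinarith [norm_nonneg (c p), norm_nonneg (M0 p p)]
    · rw [if_neg h, add_zero]
      nlinarith
  have hn : (1 : ℝ) ≤ (Fintype.card ι).factorial := by
    exact_mod_cast Nat.one_le_iff_ne_zero.mpr (Nat.factorial_ne_zero _)
  set C : ℝ := (Fintype.card ι).factorial * a ^ (Fintype.card ι) with hC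
  have hC1 : 1 ≤ C := one_le_mul_of_one_le_of_one_le hn (one_le_pow₀ ha1)
  refine ⟨Real.log C, Real.log_nonneg hC1, fun v x => GM_aff M0 c hs v x, ?_, ?_, ?_⟩
  · intro v v' h
    have : GM M0 c s v = GM M0 c s v' := by
      ext p q
      unfold GM
      rw [h (s p) (Finset.mem_image_of_mem s (Finset.mem_univ p))]
    simp only [this]
  · intro v
    rw [Real.exp_log (by linarith), Matrix.det_apply]
    refine (norm_sum_le _ _).trans ?_
    have h1 : ∀ σ : Equiv.Perm ι, ‖Equiv.Perm.sign σ • ∏ i, GM M0 c s v (σ i) i‖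
        ≤ a ^ (Fintype.card ι) * ∏ x ∈ Finset.univ.image s, (1 + ‖v x‖) := by
      intro σ
      have h2 : ‖Equiv.Perm.sign σ • ∏ i, GM M0 c s v (σ i) i‖ = ∏ i, ‖GM M0 c s v (σ i) i‖ := by
        rcases Int.units_eq_one_or (Equiv.Perm.sign σ) with h | h <;> rw [h] <;> simp [norm_prod]
      rw [h2, Finset.prod_image (fun x _ y _ h => hs h)]
      calc ∏ i, ‖GM M0 c s v (σ i) i‖ ≤ ∏ i, (a * (1 + ‖v (s i)‖)) :=
            Finset.prod_le_prod (fun i _ => norm_nonneg _) (fun i _ => hent v (σ i) i)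
        _ = _ := by rw [Finset.prod_mul_distrib]; simp
    refine (Finset.sum_le_sum (fun σ _ => h1 σ)).trans_eq ?_
    rw [Finset.sum_const, Finset.card_univ, Fintype.card_perm, nsmul_eq_mul, hC]
    ring
  · apply Continuous.matrix_det
    apply continuous_matrix
    intro p q
    unfold GM
    apply continuous_const.add
    by_cases h : p = q
    · simp only [if_pos h]
      exact continuous_const.mul (continuous_apply _)
    · simp only [if_neg h]; exact continuous_const

/-- Hermitian matrix plus complex diagonal -/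
noncomputable def CM (M0 : Matrix ι ι ℂ) (s : ι → Site) (v : Site → ℂ) : Matrix ι ι ℂ :=
  fun p q => M0 p q + if p = q then v (s p) else 0

omit [Fintype ι] in
lemma RM_eq_CM (M0 : Matrix ι ι ℂ) (s : ι → Site) (V : Site → ℝ) :
    RM M0 s V = CM M0 s (fun x => ((V x : ℝ) : ℂ)) := rfl

/-- imaginary part of the quadratic form on a null vector -/
lemma im_null {M0 : Matrix ι ι ℂ} (hM0 : M0.IsHermitian) {s : ι → Site} {v : Site → ℂ} {u : ι → ℂ}
    (hu : (CM M0 s v).mulVec u = 0) : ∑ p, (v (s p)).im * ‖u p‖ ^ 2 = 0 := by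
  have h1 : CM M0 s v = M0 + Matrix.diagonal (fun p => v (s p)) := by
    ext p q
    rw [Matrix.add_apply, Matrix.diagonal_apply]
    rfl
  have h2 : star u ⬝ᵥ (CM M0 s v).mulVec u = 0 := by rw [hu]; simp
  rw [h1, Matrix.add_mulVec, dotProduct_add] at h2
  have h3 := hM0.im_star_dotProduct_mulVec_self u
  have h4 : star u ⬝ᵥ (Matrix.diagonal (fun p => v (s p))).mulVec u
      = ∑ p, v (s p) * ((‖u p‖ ^ 2 : ℝ) : ℂ) := by
    rw [dotProduct]
    apply Finset.sum_congr rfl
    intro i _
    rw [Matrix.mulVec_diagonal, Pi.star_apply, RCLike.star_def]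
    have : (starRingEnd ℂ) (u i) * u i = ((‖u i‖ ^ 2 : ℝ) : ℂ) := by
      rw [← Complex.normSq_eq_conj_mul_self, Complex.normSq_eq_norm_sq]
    rw [← this]; ring
  have h5 := congrArg Complex.im h2
  have h3' : (star u ⬝ᵥ M0.mulVec u).im = 0 := h3
  rw [Complex.add_im, h3', zero_add, h4, Complex.im_sum] at h5
  rw [← Complex.zero_im, ← h5]
  apply Finset.sum_congr rfl
  intro p _
  rw [Complex.im_mul_ofReal]

/-- nonsingularity for potentials in the upper half plane -/
lemma CM_ne_zero {M0 : Matrix ι ι ℂ} (hM0 : M0.IsHermitian) {s : ι → Site} {V : Site → ℝ}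
    {v : Site → ℂ} (hv : ∀ x, v x = ((V x : ℝ) : ℂ) ∨ 0 < (v x).im)
    (hV : (RM M0 s V).det ≠ 0 ∨ ∀ x, 0 < (v x).im) : (CM M0 s v).det ≠ 0 := by
  intro h
  rw [← Matrix.exists_mulVec_eq_zero_iff] at h
  obtain ⟨u, hu0, hu⟩ := h
  have h1 := im_null hM0 hu
  have h2 : ∀ p, 0 ≤ (v (s p)).im * ‖u p‖ ^ 2 := by
    intro p
    rcases hv (s p) with h | h
    · rw [h, Complex.ofReal_im, zero_mul]
    · positivity
  have h3 : ∀ p, (v (s p)).im * ‖u p‖ ^ 2 = 0 := fun p =>
    (Finset.sum_eq_zero_iff_of_nonneg (fun p _ => h2 p)).mp h1 p (Finset.mem_univ p)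
  have h4 : ∀ p, 0 < (v (s p)).im → u p = 0 := by
    intro p hp
    rcases mul_eq_zero.mp (h3 p) with h | h
    · exact absurd h hp.ne'
    · simpa using h
  rcases hV with hV | hV
  · apply hV
    rw [← Matrix.exists_mulVec_eq_zero_iff]
    refine ⟨u, hu0, ?_⟩
    rw [← hu]
    funext p
    unfold Matrix.mulVec dotProduct
    apply Finset.sum_congr rfl
    intro q _
    unfold RM CM
    by_cases h : p = q
    · subst h
      rcases hv (s p) with h | h
      · rw [h]
      · rw [h4 p h]; ring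
    · simp only [if_neg h]
  · apply hu0
    funext p
    exact h4 p (hV (s p))

end

end Pool.Agent.Helper19
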