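import Pool.Agent.Helper19.Lower

set_option autoImplicit false

open MeasureTheory Filter Topology Matrix ProbabilityTheory
open scoped ENNReal NNReal ComplexOrder

namespace Pool.Agent.Helper19

lemma integral_eval {μ : Measure ℝ} [IsProbabilityMeasure μ] {f : ℝ → ℝ}
    (hf : AEStronglyMeasurable f μ) (x : Site) :
    ∫ w, f (w x) ∂(iid Site μ) = ∫ t, f t ∂μ := by
  have h1 : MeasurePreserving (fun w : Site → ℝ => w x) (iid Site μ) μ :=
    measurePreserving_eval_infinitePi (fun _ : Site => μ) x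
  have h2 := integral_map (μ := iid Site μ) (φ := fun w : Site → ℝ => w x)
    h1.measurable.aemeasurable (f := f) (by rw [h1.map_eq]; exact hf)
  rw [h1.map_eq] at h2
  exact h2.symm

section
variable {μ : Measure ℝ} [IsProbabilityMeasure μ] {ι : Type*} [Fintype ι]
  {s : ι → Site} {lam kap : ℝ}

lemma memLp_pot (hμ : MemLp (fun t : ℝ => t) 2 μ) (x : Site) :
    MemLp (fun w : Site → ℝ => pot lam kap w x) 2 (iid Site μ) := by
  unfold pot
  exact ((memLp_eval hμ _).const_mul lam).sub (memLp_const _)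

lemma memLp_lin (hμ : MemLp (fun t : ℝ => t) 2 μ) (a : ι → ℝ) :
    MemLp (fun w : Site → ℝ => ∑ p, a p * pot lam kap w (s p)) 2 (iid Site μ) :=
  memLp_finsetSum _ (fun p _ => (memLp_pot hμ (s p)).const_mul (a p))

lemma integral_lin (hμ : MemLp (fun t : ℝ => t) 2 μ) (hmean : ∫ t, (lam * t - kap) ∂μ = 0)
    (a : ι → ℝ) :
    ∫ w, ∑ p, a p * pot lam kap w (s p) ∂(iid Site μ) = 0 := by
  rw [integral_finsetSum _ (fun p _ => ((memLp_pot hμ (s p)).integrable (by norm_num)).const_mul (a p))]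
  apply Finset.sum_eq_zero
  intro p _
  rw [integral_const_mul]
  have h1 : ∫ w, pot lam kap w (s p) ∂(iid Site μ) = ∫ t, (lam * t - kap) ∂μ :=
    integral_eval (f := fun t => lam * t - kap) (by fun_prop) (s p)
  rw [h1, hmean, mul_zero]

lemma integral_sq_lin (hs : Function.Injective s) (hμ : MemLp (fun t : ℝ => t) 2 μ)
    (hmean : ∫ t, (lam * t - kap) ∂μ = 0) (a : ι → ℝ) :
    ∫ w, (∑ p, a p * pot lam kap w (s p)) ^ 2 ∂(iid Site μ)
      = (∫ t, (lam * t - kap) ^ 2 ∂μ) * ∑ p, a p ^ 2 := by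
  classical
  have hZ := memLp_lin (s := s) (lam := lam) (kap := kap) hμ a
  have h1 : Var[fun w : Site → ℝ => ∑ p, a p * pot lam kap w (s p); iid Site μ]
      = ∫ w, (∑ p, a p * pot lam kap w (s p)) ^ 2 ∂(iid Site μ) :=
    variance_of_integral_eq_zero hZ.aemeasurable (integral_lin hμ hmean a)
  have h2 : (fun w : Site → ℝ => ∑ p, a p * pot lam kap w (s p))
      = ∑ p, (fun w : Site → ℝ => a p * pot lam kap w (s p)) := by
    funext w; simp
  have hind : iIndepFun (fun (x : Site) (w : Site → ℝ) => lam * w x - kap) (iid Site μ) :=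
    iIndepFun_infinitePi (X := fun _ t => lam * t - kap) (fun _ => by fun_prop)
  rw [← h1, h2, IndepFun.variance_sum (fun p _ => (memLp_pot hμ (s p)).const_mul (a p))]
  · rw [Finset.mul_sum]
    apply Finset.sum_congr rfl
    intro p _
    have h3 : ∫ w, a p * pot lam kap w (s p) ∂(iid Site μ) = 0 := by
      rw [integral_const_mul]
      have h1 : ∫ w, pot lam kap w (s p) ∂(iid Site μ) = ∫ t, (lam * t - kap) ∂μ :=
        integral_eval (f := fun t => lam * t - kap) (by fun_prop) (s p)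
      rw [h1, hmean, mul_zero]
    rw [variance_of_integral_eq_zero ((memLp_pot hμ (s p)).const_mul (a p)).aemeasurable h3]
    have h4 : ∀ w : Site → ℝ, (a p * pot lam kap w (s p)) ^ 2 = a p ^ 2 * (pot lam kap w (s p)) ^ 2 :=
      fun w => by ring
    simp only [h4]
    rw [integral_const_mul]
    have h5 : ∫ w, (pot lam kap w (s p)) ^ 2 ∂(iid Site μ) = ∫ t, (lam * t - kap) ^ 2 ∂μ :=
      integral_eval (f := fun t => (lam * t - kap) ^ 2) (by fun_prop) (s p)
    rw [h5]; ring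
  · intro p _ q _ hpq
    have h3 := hind.indepFun (fun h => hpq (hs h) : s p ≠ s q)
    exact h3.comp (measurable_const_mul (a p)) (measurable_const_mul (a q))

lemma integral_affine_sq (hs : Function.Injective s) (hμ : MemLp (fun t : ℝ => t) 2 μ)
    (hmean : ∫ t, (lam * t - kap) ∂μ = 0) (c : ℝ) (a : ι → ℝ) :
    Integrable (fun w : Site → ℝ => (c + ∑ p, a p * pot lam kap w (s p)) ^ 2) (iid Site μ) ∧
    ∫ w, (c + ∑ p, a p * pot lam kap w (s p)) ^ 2 ∂(iid Site μ)
      = c ^ 2 + (∫ t, (lam * t - kap) ^ 2 ∂μ) * ∑ p, a p ^ 2 := by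
  have hZ := memLp_lin (s := s) (lam := lam) (kap := kap) hμ a
  have hc : MemLp (fun w : Site → ℝ => c + ∑ p, a p * pot lam kap w (s p)) 2 (iid Site μ) :=
    (memLp_const c).add hZ
  refine ⟨hc.integrable_sq, ?_⟩
  have h1 : ∀ w : Site → ℝ, (c + ∑ p, a p * pot lam kap w (s p)) ^ 2
      = (c ^ 2 + 2 * c * ∑ p, a p * pot lam kap w (s p)) + (∑ p, a p * pot lam kap w (s p)) ^ 2 :=
    fun w => by ring
  simp only [h1]
  have hZ1 : Integrable (fun w : Site → ℝ => ∑ p, a p * pot lam kap w (s p)) (iid Site μ) :=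
    hZ.integrable (by norm_num)
  have hZ2 : Integrable (fun w : Site → ℝ => (∑ p, a p * pot lam kap w (s p)) ^ 2) (iid Site μ) :=
    hZ.integrable_sq
  have hZ3 : Integrable (fun w : Site → ℝ => c ^ 2 + 2 * c * ∑ p, a p * pot lam kap w (s p)) (iid Site μ) :=
    (integrable_const _).add (hZ1.const_mul _)
  rw [integral_add hZ3 hZ2, integral_add (integrable_const _) (hZ1.const_mul _), integral_const_mul,
    integral_lin hμ hmean, integral_sq_lin hs hμ hmean]
  simp

/-- complex version -/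
lemma integral_complex (hs : Function.Injective s) (hμ : MemLp (fun t : ℝ => t) 2 μ)
    (hmean : ∫ t, (lam * t - kap) ∂μ = 0) (c : ℂ) (a : ι → ℂ) :
    Integrable (fun w : Site → ℝ => ‖c + ∑ p, a p * ((pot lam kap w (s p) : ℝ) : ℂ)‖ ^ 2) (iid Site μ) ∧
    ∫ w, ‖c + ∑ p, a p * ((pot lam kap w (s p) : ℝ) : ℂ)‖ ^ 2 ∂(iid Site μ)
      = ‖c‖ ^ 2 + (∫ t, (lam * t - kap) ^ 2 ∂μ) * ∑ p, ‖a p‖ ^ 2 := by
  have h1 : ∀ w : Site → ℝ, ‖c + ∑ p, a p * ((pot lam kap w (s p) : ℝ) : ℂ)‖ ^ 2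
      = (c.re + ∑ p, (a p).re * pot lam kap w (s p)) ^ 2
        + (c.im + ∑ p, (a p).im * pot lam kap w (s p)) ^ 2 := by
    intro w
    rw [← Complex.normSq_eq_norm_sq, Complex.normSq_apply, Complex.add_re, Complex.add_im,
      Complex.re_sum, Complex.im_sum]
    simp only [Complex.re_mul_ofReal, Complex.im_mul_ofReal]
    ring
  obtain ⟨hr, hr2⟩ := integral_affine_sq hs hμ hmean c.re (fun p => (a p).re)
  obtain ⟨hi, hi2⟩ := integral_affine_sq hs hμ hmean c.im (fun p => (a p).im)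
  simp only [h1]
  refine ⟨hr.add hi, ?_⟩
  rw [integral_add hr hi, hr2, hi2]
  have h2 : ∀ z : ℂ, ‖z‖ ^ 2 = z.re ^ 2 + z.im ^ 2 := by
    intro z
    rw [← Complex.normSq_eq_norm_sq, Complex.normSq_apply]; ring
  simp only [h2, Finset.sum_add_distrib]
  ring

end

end Pool.Agent.Helper19
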