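import Pool.Agent.Helper19.Upper2
import Pool.Agent.Helper19.VarLin

set_option autoImplicit false

open MeasureTheory Filter Topology Matrix ProbabilityTheory
open scoped ENNReal NNReal ComplexOrder

namespace Pool.Agent.Helper19

section
variable {L : ℕ} [NeZero L]

lemma conj_PA (η : ℝ) (hη : 0 < η) :
    (FM L η)ᴴ * PA L * FM L η = Matrix.diagonal (fun k => ((al k * d2 η k : ℝ) : ℂ)) := by
  ext k l
  rw [conj_FM, Matrix.mul_assoc, PA_mul_FU, ← Matrix.mul_assoc, FU_unitary, Matrix.one_mul,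
    Matrix.diagonal_apply, Matrix.diagonal_apply]
  by_cases h : k = l
  · subst h
    rw [if_pos rfl, if_pos rfl, ← dd_sq hη]
    push_cast
    ring
  · rw [if_neg h, if_neg h]; ring

lemma conj_one (η : ℝ) (hη : 0 < η) :
    (FM L η)ᴴ * FM L η = Matrix.diagonal (fun k => ((d2 η k : ℝ) : ℂ)) := by
  have h0 : (FM L η)ᴴ * FM L η = (FM L η)ᴴ * 1 * FM L η := by rw [Matrix.mul_one]
  rw [h0]
  ext k l
  rw [conj_FM, Matrix.mul_one, FU_unitary, Matrix.one_apply, Matrix.diagonal_apply]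
  by_cases h : k = l
  · subst h
    rw [if_pos rfl, if_pos rfl, ← dd_sq hη]
    push_cast
    ring
  · rw [if_neg h, if_neg h]; ring

lemma fro_conj_BC {η : ℝ} (hη : 0 < η) : fro ((FM L η)ᴴ * BC L * FM L η) ≤ η⁻¹ ^ 2 * (64 * L) := by
  have h1 : fro ((FM L η)ᴴ * BC L * FM L η) ≤ η⁻¹ ^ 2 * fro ((FU L)ᴴ * BC L * FU L) := by
    unfold fro
    rw [Finset.mul_sum]
    apply Finset.sum_le_sum
    intro k _
    rw [Finset.mul_sum]
    apply Finset.sum_le_sum
    intro l _
    rw [conj_FM, norm_mul, norm_mul, Complex.norm_real, Complex.norm_real, Real.norm_eq_abs,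
      Real.norm_eq_abs, abs_of_pos (dd_pos hη k), abs_of_pos (dd_pos hη l), mul_pow, mul_pow,
      dd_sq hη, dd_sq hη]
    have a1 := d2_le hη k
    have a2 := d2_le hη l
    have a3 := d2_pos hη k
    have a4 := d2_pos hη l
    have a5 : d2 η k * d2 η l ≤ η⁻¹ * η⁻¹ := mul_le_mul a1 a2 a4.le (by positivity)
    have a6 : 0 ≤ ‖((FU L)ᴴ * BC L * FU L) k l‖ ^ 2 := by positivity
    nlinarith
  rw [fro_unitary FU_unitary] at h1
  refine h1.trans ?_
  apply mul_le_mul_of_nonneg_left fro_BC_le (by positivity)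

omit [NeZero L] in
lemma fro_diag (f : Fin L × Fin L → ℝ) :
    fro (Matrix.diagonal (fun k => ((f k : ℝ) : ℂ))) = ∑ k, f k ^ 2 := by
  unfold fro
  apply Finset.sum_congr rfl
  intro k _
  rw [Finset.sum_eq_single k]
  · rw [Matrix.diagonal_apply_eq, Complex.norm_real, Real.norm_eq_abs, sq_abs]
  · intro l _ hl
    rw [Matrix.diagonal_apply_ne _ (Ne.symm hl), norm_zero]
    norm_num
  · intro h; exact absurd (Finset.mem_univ _) h

/-- the random part -/
noncomputable def XM (L : ℕ) [NeZero L] (η lam kap : ℝ) (w : Site → ℝ) :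
    Matrix (Fin L × Fin L) (Fin L × Fin L) ℂ :=
  (FM L η)ᴴ * Matrix.diagonal (fun p => ((pot lam kap w (st L L p) : ℝ) : ℂ)) * FM L η
          - Matrix.diagonal (fun k => ((al k * d2 η k : ℝ) : ℂ))

lemma decomp (η : ℝ) (hη : 0 < η) (lam kap e : ℝ) (w : Site → ℝ) :
    (FM L η)ᴴ * BM L L (VV lam kap e w) * FM L η
      = XM L η lam kap w
        + ((FM L η)ᴴ * BC L * FM L η + Matrix.diagonal (fun k => ((-(e * d2 η k) : ℝ) : ℂ))) := by
  have h1 : Matrix.diagonal (fun p : Fin L × Fin L => ((VV lam kap e w (st L L p) : ℝ) : ℂ))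
      = Matrix.diagonal (fun p => ((pot lam kap w (st L L p) : ℝ) : ℂ)) - (e : ℂ) • 1 := by
    ext p q
    rw [Matrix.sub_apply, Matrix.smul_apply, Matrix.diagonal_apply, Matrix.diagonal_apply,
      Matrix.one_apply]
    unfold VV
    split_ifs
    · push_cast; simp
    · simp
  have h2 : Matrix.diagonal (fun k : Fin L × Fin L => ((-(e * d2 η k) : ℝ) : ℂ))
      = -((e : ℂ) • Matrix.diagonal (fun k => ((d2 η k : ℝ) : ℂ))) := by
    ext p q
    rw [Matrix.neg_apply, Matrix.smul_apply, Matrix.diagonal_apply, Matrix.diagonal_apply]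
    split_ifs
    · push_cast; simp
    · simp
  unfold XM
  rw [BM_decomp, h1, h2, ← conj_PA η hη, ← conj_one η hη]
  rw [Matrix.mul_add, Matrix.mul_sub, Matrix.mul_sub, Matrix.add_mul, Matrix.sub_mul, Matrix.sub_mul,
    Matrix.mul_smul, Matrix.smul_mul, Matrix.mul_one]
  abel

/-- expectation of the random part -/
lemma exp_fro_X {μ : Measure ℝ} [IsProbabilityMeasure μ] (hμ : MemLp (fun t : ℝ => t) 2 μ)
    {lam kap : ℝ} (hmean : ∫ t, (lam * t - kap) ∂μ = 0) {η : ℝ} (hη : 0 < η) :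
    Integrable (fun w : Site → ℝ => fro (XM L η lam kap w)) (iid Site μ) ∧
    ∫ w, fro (XM L η lam kap w) ∂(iid Site μ)
      = ∑ k : Fin L × Fin L, (al k * d2 η k) ^ 2
        + (∫ t, (lam * t - kap) ^ 2 ∂μ) * ((∑ k : Fin L × Fin L, d2 η k) / L) ^ 2 := by
  have hL : (L : ℝ) ≠ 0 := by exact_mod_cast NeZero.ne L
  set σ2 := ∫ t, (lam * t - kap) ^ 2 ∂μ with hσ2
  have hentry : ∀ (w : Site → ℝ) (k l : Fin L × Fin L), XM L η lam kap w k l
      = (-(if k = l then ((al k * d2 η k : ℝ) : ℂ) else 0))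
        + ∑ p, (star (FM L η p k) * FM L η p l) * ((pot lam kap w (st L L p) : ℝ) : ℂ) := by
    intro w k l
    unfold XM
    rw [Matrix.sub_apply, Matrix.mul_apply, Matrix.diagonal_apply, sub_eq_add_neg, add_comm]
    congr 1
    apply Finset.sum_congr rfl
    intro p _
    rw [Matrix.mul_diagonal, Matrix.conjTranspose_apply]
    ring
  have hnorm : ∀ (k l p : Fin L × Fin L), ‖star (FM L η p k) * FM L η p l‖ ^ 2
      = d2 η k * d2 η l / (L : ℝ) ^ 4 := by
    intro k l p
    rw [norm_mul, norm_star, FM_apply, FM_apply, norm_mul, norm_mul, norm_FU, norm_FU,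
      Complex.norm_real, Complex.norm_real, Real.norm_eq_abs, Real.norm_eq_abs,
      abs_of_pos (dd_pos hη k), abs_of_pos (dd_pos hη l), ← dd_sq hη, ← dd_sq hη]
    field_simp
  have hE : ∀ k l : Fin L × Fin L, Integrable (fun w : Site → ℝ => ‖XM L η lam kap w k l‖ ^ 2)
        (iid Site μ) ∧
      ∫ w, ‖XM L η lam kap w k l‖ ^ 2 ∂(iid Site μ)
      = (if k = l then (al k * d2 η k) ^ 2 else 0) + σ2 * (d2 η k * d2 η l / (L : ℝ) ^ 2) := by
    intro k l
    simp only [hentry]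
    obtain ⟨h1, h2⟩ := integral_complex (s := st L L) (st_injective L L) hμ hmean
      (-(if k = l then ((al k * d2 η k : ℝ) : ℂ) else 0)) (fun p => star (FM L η p k) * FM L η p l)
    refine ⟨h1, ?_⟩
    rw [h2]
    congr 1
    · split_ifs
      · rw [norm_neg, Complex.norm_real, Real.norm_eq_abs, sq_abs]
      · simp
    · rw [Finset.sum_congr rfl (fun p _ => hnorm k l p), Finset.sum_const, Finset.card_univ,
        Fintype.card_prod, Fintype.card_fin, nsmul_eq_mul, ← hσ2]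
      push_cast
      congr 1
      field_simp
  unfold fro
  refine ⟨integrable_finsetSum _ (fun k _ => integrable_finsetSum _ (fun l _ => (hE k l).1)), ?_⟩
  rw [integral_finsetSum _ (fun k _ => integrable_finsetSum _ (fun l _ => (hE k l).1))]
  have h3 : ∀ k : Fin L × Fin L, ∫ w, ∑ l, ‖XM L η lam kap w k l‖ ^ 2 ∂(iid Site μ)
      = (al k * d2 η k) ^ 2 + σ2 / (L : ℝ) ^ 2 * (d2 η k * ∑ l : Fin L × Fin L, d2 η l) := by
    intro k
    rw [integral_finsetSum _ (fun l _ => (hE k l).1), Finset.sum_congr rfl (fun l _ => (hE k l).2),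
      Finset.sum_add_distrib, Finset.sum_ite_eq, if_pos (Finset.mem_univ k), Finset.mul_sum,
      Finset.mul_sum]
    congr 1
    apply Finset.sum_congr rfl
    intro l _
    ring
  rw [Finset.sum_congr rfl (fun k _ => h3 k), Finset.sum_add_distrib, ← Finset.mul_sum,
    ← Finset.sum_mul]
  congr 1
  rw [div_pow]
  ring

/-- upper bound for the expected log-determinant -/
theorem upper_bound {μ : Measure ℝ} [IsProbabilityMeasure μ] (hμ : MemLp (fun t : ℝ => t) 2 μ)
    {M : ℝ≥0} (hM : μ ≤ M • volume)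
    {lam kap : ℝ} (hlam : 0 < lam) (hmean : ∫ t, (lam * t - kap) ∂μ = 0) {η t : ℝ} (hη : 0 < η)
    (ht : 0 < t) (e : ℝ) :
    ∫ w, LD L L lam kap e w ∂(iid Site μ)
      ≤ (1 / 2) * ∑ k : Fin L × Fin L, Real.log (al k ^ 2 + η ^ 2)
        + ((1 + t) * ((L : ℝ) * L + (∫ t, (lam * t - kap) ^ 2 ∂μ)
            * ((∑ k : Fin L × Fin L, d2 η k) / L) ^ 2)
          + (1 + t⁻¹) * (2 * (η⁻¹ ^ 2 * (64 * L)) + 2 * (e ^ 2 * (η⁻¹ ^ 2 * ((L : ℝ) * L))))
          - (L : ℝ) * L) / 2 := by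
  have hL0 : 0 < L := Nat.pos_of_ne_zero (NeZero.ne L)
  obtain ⟨hX1, hX2⟩ := exp_fro_X (L := L) hμ hmean hη
  set X : (Site → ℝ) → ℝ := fun w => fro (XM L η lam kap w) with hX
  set S := (1 / 2) * ∑ k : Fin L × Fin L, Real.log (al k ^ 2 + η ^ 2) with hS
  set Yb := 2 * (η⁻¹ ^ 2 * (64 * (L : ℝ))) + 2 * (e ^ 2 * (η⁻¹ ^ 2 * ((L : ℝ) * L))) with hYb
  have hY : fro ((FM L η)ᴴ * BC L * FM L η + Matrix.diagonal (fun k => ((-(e * d2 η k) : ℝ) : ℂ)))
      ≤ Yb := by
    have h1 := fro_add_le ((FM L η)ᴴ * BC L * FM L η)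
      (Matrix.diagonal (fun k : Fin L × Fin L => ((-(e * d2 η k) : ℝ) : ℂ))) one_pos
    have h2 := fro_conj_BC (L := L) hη
    have h3 : ∑ k : Fin L × Fin L, (-(e * d2 η k)) ^ 2 ≤ e ^ 2 * (η⁻¹ ^ 2 * ((L : ℝ) * L)) := by
      have h4 : ∀ k : Fin L × Fin L, (-(e * d2 η k)) ^ 2 ≤ e ^ 2 * η⁻¹ ^ 2 := by
        intro k
        have := pow_le_pow_left₀ (d2_pos hη k).le (d2_le hη k) 2
        rw [neg_sq, mul_pow]
        exact mul_le_mul_of_nonneg_left this (by positivity)
      refine (Finset.sum_le_sum (fun k _ => h4 k)).trans_eq ?_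
      rw [Finset.sum_const, Finset.card_univ, Fintype.card_prod, Fintype.card_fin, nsmul_eq_mul]
      push_cast
      ring
    rw [fro_diag] at h1
    have h5 : (1 : ℝ)⁻¹ = 1 := inv_one
    rw [h5] at h1
    linarith
  have h1 : ∫ w, LD L L lam kap e w ∂(iid Site μ)
      ≤ ∫ w, (S + ((1 + t) * X w + (1 + t⁻¹) * Yb - (L : ℝ) * L) / 2) ∂(iid Site μ) := by
    apply integral_mono_ae (integrable_LD hμ hM hlam hL0 hL0 kap e)
    · exact (integrable_const _).add (((((hX1.const_mul _)).add (integrable_const _)).sub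
        (integrable_const _)).div_const _)
    · filter_upwards [(wegner hM hlam hL0 hL0 kap e).1] with w hw
      have h2 := log_det_upper hη hw
      rw [decomp η hη] at h2
      have h3 := fro_add_le (XM L η lam kap w)
        ((FM L η)ᴴ * BC L * FM L η + Matrix.diagonal (fun k => ((-(e * d2 η k) : ℝ) : ℂ))) ht
      have h4 : (1 + t⁻¹) * fro ((FM L η)ᴴ * BC L * FM L η
        + Matrix.diagonal (fun k => ((-(e * d2 η k) : ℝ) : ℂ))) ≤ (1 + t⁻¹) * Yb :=
        mul_le_mul_of_nonneg_left hY (by positivity)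
      unfold LD
      simp only [hX]
      linarith
  refine h1.trans ?_
  have hXc : ∫ w, X w ∂(iid Site μ) ≤ (L : ℝ) * L + (∫ t, (lam * t - kap) ^ 2 ∂μ)
            * ((∑ k : Fin L × Fin L, d2 η k) / L) ^ 2 := by
    rw [hX2]
    have h5 : ∑ k : Fin L × Fin L, (al k * d2 η k) ^ 2 ≤ (L : ℝ) * L := by
      have h6 : ∀ k : Fin L × Fin L, (al k * d2 η k) ^ 2 ≤ 1 := by
        intro k
        have h7 := sq_add_pos hη k
        rw [mul_pow, d2, inv_pow, Real.sq_sqrt h7.le, mul_inv_le_iff₀ h7]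
        nlinarith [sq_nonneg η]
      refine (Finset.sum_le_sum (fun k _ => h6 k)).trans_eq ?_
      rw [Finset.sum_const, Finset.card_univ, Fintype.card_prod, Fintype.card_fin, nsmul_eq_mul]
      push_cast
      ring
    linarith
  have hi1 : Integrable (fun w => (1 + t) * X w) (iid Site μ) := hX1.const_mul _
  have hi2 : Integrable (fun w => (1 + t) * X w + (1 + t⁻¹) * Yb) (iid Site μ) :=
    hi1.add (integrable_const _)
  have hi3 : Integrable (fun w => (1 + t) * X w + (1 + t⁻¹) * Yb - (L : ℝ) * L) (iid Site μ) :=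
    hi2.sub (integrable_const _)
  have hi4 : ∫ w, (1 + t) * X w ∂(iid Site μ) = (1 + t) * ∫ w, X w ∂(iid Site μ) :=
    integral_const_mul _ _
  rw [integral_add (integrable_const _) (hi3.div_const _), integral_div,
    integral_sub hi2 (integrable_const _), integral_add hi1 (integrable_const _), hi4]
  simp only [integral_const, measure_univ, Measure.real, ENNReal.toReal_one, one_smul]
  have h8 := mul_le_mul_of_nonneg_left hXc (by linarith : 0 ≤ 1 + t)
  linarith

end

end Pool.Agent.Helper19
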