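import Pool.Agent.Helper19.Sums
import Pool.Agent.Helper19.UpperE

set_option autoImplicit false

open MeasureTheory Filter Topology

namespace Pool.Agent.Helper19

/-- the comparison function -/
noncomputable def cf (u : ℝ) : ℝ :=
  u * (Real.log 5 ^ 2 + 2 * Real.log 5 + 2) - (2 * Real.log 5 + 2) * (u * Real.log u)
    + (2 * (Real.sqrt u * Real.log (Real.sqrt u))) ^ 2

lemma continuous_cf : Continuous cf := by
  unfold cf
  have h1 : Continuous (fun u : ℝ => u * Real.log u) := Real.continuous_mul_log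
  have h2 : Continuous (fun u : ℝ => Real.sqrt u * Real.log (Real.sqrt u)) :=
    Real.continuous_mul_log.comp Real.continuous_sqrt
  exact ((continuous_id.mul continuous_const).sub (continuous_const.mul h1)).add
    ((continuous_const.mul h2).pow 2)

lemma cf_eq {u : ℝ} (hu : 0 < u) :
    cf u = u * ((Real.log 5 - Real.log u) ^ 2 + 2 * (Real.log 5 - Real.log u) + 2) := by
  unfold cf
  rw [Real.log_sqrt hu.le]
  have : (2 * (Real.sqrt u * (Real.log u / 2))) ^ 2 = Real.sqrt u ^ 2 * Real.log u ^ 2 := by ring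
  rw [this, Real.sq_sqrt hu.le]
  ring

lemma cf_zero : cf 0 = 0 := by
  unfold cf; simp

lemma hasDerivAt_cf {u : ℝ} (hu : 0 < u) :
    HasDerivAt cf ((Real.log 5 - Real.log u) ^ 2) u := by
  have h1 : HasDerivAt (fun u : ℝ => u * ((Real.log 5 - Real.log u) ^ 2
      + 2 * (Real.log 5 - Real.log u) + 2))
      (1 * ((Real.log 5 - Real.log u) ^ 2 + 2 * (Real.log 5 - Real.log u) + 2)
        + u * (2 * (Real.log 5 - Real.log u) * (0 - u⁻¹) + 2 * (0 - u⁻¹))) u := by
    have h2 : HasDerivAt (fun u : ℝ => Real.log 5 - Real.log u) (0 - u⁻¹) u :=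
      (hasDerivAt_const u _).sub (Real.hasDerivAt_log hu.ne')
    have h3 := (h2.pow 2).add (h2.const_mul 2)
    have h4 := h3.add_const 2
    have h5 := (hasDerivAt_id u).mul h4
    refine HasDerivAt.congr_deriv (h5.congr_of_eventuallyEq ?_) ?_
    · exact Filter.Eventually.of_forall (fun x => by simp [id])
    · simp [id]
  have h2 : 1 * ((Real.log 5 - Real.log u) ^ 2 + 2 * (Real.log 5 - Real.log u) + 2)
        + u * (2 * (Real.log 5 - Real.log u) * (0 - u⁻¹) + 2 * (0 - u⁻¹))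
      = (Real.log 5 - Real.log u) ^ 2 := by
    field_simp
    ring
  rw [h2] at h1
  refine h1.congr_of_eventuallyEq ?_
  filter_upwards [lt_mem_nhds hu] with x hx
  exact cf_eq hx

/-- integrated resolvent bound -/
lemma sum_log_le {ι : Type*} [Fintype ι] {a : ι → ℝ} (ha : ∀ i, 0 < a i) {N : ℝ}
    (h : ∀ u : ℝ, 0 < u → u ≤ 1 → ∑ i, 1 / (a i + u) ≤ N * (Real.log (5 / u)) ^ 2)
    {η : ℝ} (hη : 0 < η) (hη1 : η ≤ 1) :
    ∑ i, Real.log (a i + η) ≤ ∑ i, Real.log (a i) + N * cf η := by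
  set Φ : ℝ → ℝ := fun u => N * cf u - ∑ i, Real.log (a i + u) with hΦ
  have hcont : ContinuousOn Φ (Set.Icc 0 1) := by
    apply ContinuousOn.sub
    · exact (continuous_const.mul continuous_cf).continuousOn
    · apply continuousOn_finsetSum
      intro i _
      apply ContinuousOn.log (by fun_prop)
      intro u hu
      have := ha i
      have := hu.1
      exact ne_of_gt (by linarith)
  have hderiv : ∀ u ∈ Set.Ioo (0 : ℝ) 1, HasDerivAt Φ (N * (Real.log 5 - Real.log u) ^ 2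
      - ∑ i, 1 / (a i + u)) u := by
    intro u hu
    apply HasDerivAt.sub
    · exact (hasDerivAt_cf hu.1).const_mul N
    · apply HasDerivAt.fun_sum
      intro i _
      have h1 : HasDerivAt (fun u : ℝ => a i + u) 1 u := by
        simpa using (hasDerivAt_id u).const_add (a i)
      have h2 : a i + u ≠ 0 := by
        have := ha i
        have := hu.1
        exact ne_of_gt (by linarith)
      exact h1.log h2
  have hmono : MonotoneOn Φ (Set.Icc 0 1) := by
    apply monotoneOn_of_deriv_nonneg (convex_Icc 0 1) hcont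
    · rw [interior_Icc]
      intro u hu
      exact (hderiv u hu).differentiableAt.differentiableWithinAt
    · rw [interior_Icc]
      intro u hu
      rw [(hderiv u hu).deriv]
      have h1 := h u hu.1 hu.2.le
      rw [Real.log_div (by norm_num) hu.1.ne'] at h1
      linarith
  have h1 := hmono ⟨le_rfl, zero_le_one⟩ ⟨hη.le, hη1⟩ hη.le
  simp only [hΦ, cf_zero, mul_zero, add_zero] at h1
  linarith

section
variable {L : ℕ} [NeZero L]

/-- bound on the averaged weights -/
lemma sum_d2_le (hodd : Odd L) {η : ℝ} (hη : 0 < η) (hη1 : η ≤ 1) :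
    (∑ k : Fin L × Fin L, d2 η k) / L ≤ Real.sqrt 2 * (L * (5 / 4 * Real.log (5 / η) ^ 2)) := by
  have hL : (0 : ℝ) < L := by exact_mod_cast Nat.pos_of_ne_zero (NeZero.ne L)
  have h1 : ∑ k : Fin L × Fin L, d2 η k
      = ∑ s : ZMod L, ∑ r : ZMod L, (Real.sqrt ((ps s * ps r) ^ 2 + η ^ 2))⁻¹ :=
    sum_al hodd (fun x => (Real.sqrt (x + η ^ 2))⁻¹)
  have h2 : ∀ s r : ZMod L, (Real.sqrt ((ps s * ps r) ^ 2 + η ^ 2))⁻¹
      ≤ Real.sqrt 2 * (1 / (ps s * ps r + η)) := by
    intro s r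
    have a1 := ps_nonneg s
    have a2 := ps_nonneg r
    have a3 : 0 ≤ ps s * ps r := by positivity
    have h3 : ps s * ps r + η ≤ Real.sqrt 2 * Real.sqrt ((ps s * ps r) ^ 2 + η ^ 2) := by
      rw [← Real.sqrt_mul (by norm_num)]
      apply Real.le_sqrt_of_sq_le
      nlinarith [sq_nonneg (ps s * ps r - η)]
    have h4 : 0 < Real.sqrt ((ps s * ps r) ^ 2 + η ^ 2) := Real.sqrt_pos.mpr (by positivity)
    have h5 : 0 < ps s * ps r + η := by linarith
    rw [mul_one_div, le_div_iff₀ h5, inv_mul_le_iff₀ h4]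
    linarith
  have h3 := sum_inv_al hodd hη hη1
  rw [div_le_iff₀ hL, h1]
  calc ∑ s : ZMod L, ∑ r : ZMod L, (Real.sqrt ((ps s * ps r) ^ 2 + η ^ 2))⁻¹
      ≤ ∑ s : ZMod L, ∑ r : ZMod L, Real.sqrt 2 * (1 / (ps s * ps r + η)) :=
        Finset.sum_le_sum (fun s _ => Finset.sum_le_sum (fun r _ => h2 s r))
    _ = Real.sqrt 2 * ∑ s : ZMod L, ∑ r : ZMod L, 1 / (ps s * ps r + η) := by
        simp only [Finset.mul_sum]
    _ ≤ Real.sqrt 2 * ((L : ℝ) * L * (5 / 4 * Real.log (5 / η) ^ 2)) :=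
        mul_le_mul_of_nonneg_left h3 (by positivity)
    _ = _ := by ring

/-- bound on the log sum -/
lemma sum_log_al_le (hodd : Odd L) {η : ℝ} (hη : 0 < η) (hη1 : η ≤ 1) :
    (1 / 2) * ∑ k : Fin L × Fin L, Real.log (al k ^ 2 + η ^ 2)
      ≤ 2 * L * Real.log 2 + (L : ℝ) * L * (5 / 4 * cf η) := by
  have hL : (0 : ℝ) < L := by exact_mod_cast Nat.pos_of_ne_zero (NeZero.ne L)
  have h1 : ∑ k : Fin L × Fin L, Real.log (al k ^ 2 + η ^ 2)
      = ∑ s : ZMod L, ∑ r : ZMod L, Real.log ((ps s * ps r) ^ 2 + η ^ 2) :=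
    sum_al hodd (fun x => Real.log (x + η ^ 2))
  have hpp : ∀ s r : ZMod L, 0 < ps s * ps r := fun s r => mul_pos (ps_pos hodd s) (ps_pos hodd r)
  have h2 : ∀ s r : ZMod L, Real.log ((ps s * ps r) ^ 2 + η ^ 2) ≤ 2 * Real.log (ps s * ps r + η) := by
    intro s r
    have h3 := hpp s r
    have h4 : (ps s * ps r) ^ 2 + η ^ 2 ≤ (ps s * ps r + η) ^ 2 := by nlinarith
    have h5 := Real.log_le_log (by positivity) h4
    rw [Real.log_pow] at h5
    exact_mod_cast h5
  have h3 := sum_log_le (ι := ZMod L × ZMod L) (a := fun q => ps q.1 * ps q.2)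
    (fun q => hpp q.1 q.2) (N := (L : ℝ) * L * (5 / 4)) (fun u hu hu1 => by
      have := sum_inv_al hodd hu hu1
      rw [Fintype.sum_prod_type]
      linarith) hη hη1
  rw [Fintype.sum_prod_type, Fintype.sum_prod_type] at h3
  have h4 : ∑ s : ZMod L, ∑ r : ZMod L, Real.log (ps s * ps r) = 2 * L * Real.log 2 := by
    have h5 : ∀ s r : ZMod L, Real.log (ps s * ps r) = Real.log (ps s) + Real.log (ps r) := fun s r =>
      Real.log_mul (ps_pos hodd s).ne' (ps_pos hodd r).ne'
    simp only [h5, Finset.sum_add_distrib, sum_log_ps hodd, Finset.sum_const, Finset.card_univ,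
      ZMod.card, nsmul_eq_mul]
    rw [← Finset.mul_sum, sum_log_ps hodd]
    ring
  simp only at h3
  rw [h4] at h3
  rw [h1]
  have h6 : ∑ s : ZMod L, ∑ r : ZMod L, Real.log ((ps s * ps r) ^ 2 + η ^ 2)
      ≤ 2 * ∑ s : ZMod L, ∑ r : ZMod L, Real.log (ps s * ps r + η) := by
    rw [Finset.mul_sum]
    apply Finset.sum_le_sum
    intro s _
    rw [Finset.mul_sum]
    exact Finset.sum_le_sum (fun r _ => h2 s r)
  linarith

end

end Pool.Agent.Helper19
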