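import Mathlib

set_option autoImplicit false

open MeasureTheory Filter Topology
open scoped ENNReal NNReal Real

namespace Pool.Agent.Helper19

lemma circInt_log (A B : ℂ) : CircleIntegrable (fun z => Real.log ‖A * z + B‖) 0 1 :=
  MeromorphicOn.circleIntegrable_log_norm (fun _ _ ↦ by fun_prop)

/-- circle average of `log ‖A z + B‖` -/
lemma circ_log (A B : ℂ) (h : A ≠ 0 ∨ B ≠ 0) :
    Real.circleAverage (fun z => Real.log ‖A * z + B‖) 0 1 = Real.log (max ‖A‖ ‖B‖) := by
  by_cases hA : A = 0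
  · subst hA
    have hB : B ≠ 0 := by simpa using h
    simp only [zero_mul, zero_add, norm_zero]
    rw [Real.circleAverage_const, max_eq_right (norm_nonneg _)]
  · have hA' : 0 < ‖A‖ := norm_pos_iff.mpr hA
    set a : ℂ := -B / A with ha
    have hpt : ∀ z : ℂ, A * z + B = A * (z - a) := by
      intro z; rw [ha]; field_simp; ring
    have h1 : Real.circleAverage (fun z => Real.log ‖A * z + B‖) 0 1
        = Real.circleAverage (fun z ↦ Real.log ‖A‖ + Real.log ‖z - a‖) 0 1 := by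
      apply Real.circleAverage_congr_codiscreteWithin _ (zero_ne_one' ℝ).symm
      have : {z | ‖z - a‖ ≠ 0} ∈ codiscreteWithin (Metric.sphere (0 : ℂ) |1|) := by
        apply codiscreteWithin_iff_locallyFiniteComplementWithin.2
        intro z hz
        use Set.univ
        simp only [univ_mem, ne_eq, norm_eq_zero, Set.univ_inter, true_and]
        apply Set.Subsingleton.finite
        intro z₁ hz₁ z₂ hz₂
        simp only [Set.mem_sdiff, Set.mem_ofPred_eq, not_not] at hz₁ hz₂
        rw [sub_eq_zero.mp hz₁.2, sub_eq_zero.mp hz₂.2]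
      filter_upwards [this] with z hz
      rw [hpt, norm_mul, Real.log_mul hA'.ne' hz]
    have h2 : Real.circleAverage (fun z ↦ Real.log ‖A‖ + Real.log ‖z - a‖) 0 1
        = Real.log ‖A‖ + Real.posLog ‖a‖ := by
      rw [Real.circleAverage_fun_add (circleIntegrable_const (Real.log ‖A‖) 0 1)
        (circleIntegrable_log_norm_sub_const 1), Real.circleAverage_const,
        circleAverage_log_norm_sub_const_eq_posLog]
    have hp : Real.posLog (‖B‖ / ‖A‖) = max 0 (Real.log (‖B‖ / ‖A‖)) := rfl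
    rw [h1, h2, ha, norm_div, norm_neg, hp]
    rcases le_total ‖B‖ ‖A‖ with h3 | h3
    · rw [max_eq_left h3, max_eq_left, add_zero]
      apply Real.log_nonpos (by positivity)
      exact (div_le_one hA').mpr h3
    · have hB : 0 < ‖B‖ := hA'.trans_le h3
      rw [max_eq_right h3, max_eq_right, Real.log_div hB.ne' hA'.ne']
      · ring
      · apply Real.log_nonneg
        exact (one_le_div hA').mpr h3

/-- integral over a symmetric interval as circle average -/
lemma integral_Ioo_circ (f : ℂ → ℝ) :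
    ∫ θ in Set.Ioo (-π) π, f (circleMap 0 1 θ) = (2 * π) * Real.circleAverage f 0 1 := by
  have h1 := Real.circleAverage_eq_integral_add (f := f) (c := 0) (R := 1) (-π)
  rw [h1, smul_eq_mul, ← mul_assoc, mul_inv_cancel₀ (by positivity), one_mul]
  rw [← integral_Ioc_eq_integral_Ioo, ← intervalIntegral.integral_of_le (by linarith [Real.pi_pos])]
  have h2 := intervalIntegral.integral_comp_add_right (a := 0) (b := 2 * π)
    (fun θ => f (circleMap 0 1 θ)) (-π)
  rw [h2]
  congr 1
  · ring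
  · ring

lemma integrableOn_Ioo_circ {f : ℂ → ℝ} (hf : CircleIntegrable f 0 1) :
    IntegrableOn (fun θ => f (circleMap 0 1 θ)) (Set.Ioo (-π) π) := by
  have hper : Function.Periodic (fun θ => f (circleMap 0 1 θ)) (2 * π) := by
    intro θ
    simp only
    rw [periodic_circleMap 0 1 θ]
  have h1 : IntervalIntegrable (fun θ => f (circleMap 0 1 θ)) volume (-π) π := by
    have h2 : IntervalIntegrable (fun θ => f (circleMap 0 1 θ)) volume 0 (0 + 2 * π) := by
      rw [zero_add]; exact hf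
    exact hper.intervalIntegrable (by positivity) h2 _ _
  have h3 := (intervalIntegrable_iff_integrableOn_Ioc_of_le (by linarith [Real.pi_pos])).mp h1
  exact h3.mono_set Set.Ioo_subset_Ioc_self

/-- the angle coordinate -/
noncomputable def ang (x0 : ℝ) (γ : ℝ) (t : ℝ) : ℝ := 2 * Real.arctan ((t - x0) / γ)

lemma hasDerivAt_ang {x0 γ : ℝ} (hγ : 0 < γ) (t : ℝ) :
    HasDerivAt (ang x0 γ) (2 * π * (π⁻¹ * γ * ((t - x0) ^ 2 + γ ^ 2)⁻¹)) t := by
  have h1 : HasDerivAt (fun t : ℝ => (t - x0) / γ) (1 / γ) t :=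
    ((hasDerivAt_id t).sub_const x0).div_const γ
  have h2 := (h1.arctan).const_mul 2
  refine h2.congr_deriv ?_
  have hpi := Real.pi_pos.ne'
  field_simp
  ring

lemma ang_image {x0 γ : ℝ} (hγ : 0 < γ) : ang x0 γ '' Set.univ = Set.Ioo (-π) π := by
  ext θ
  simp only [Set.image_univ, Set.mem_range, Set.mem_Ioo, ang]
  constructor
  · rintro ⟨t, rfl⟩
    have h1 := Real.arctan_lt_pi_div_two ((t - x0) / γ)
    have h2 := Real.neg_pi_div_two_lt_arctan ((t - x0) / γ)
    constructor <;> linarith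
  · rintro ⟨h1, h2⟩
    refine ⟨x0 + γ * Real.tan (θ / 2), ?_⟩
    have : (x0 + γ * Real.tan (θ / 2) - x0) / γ = Real.tan (θ / 2) := by field_simp; ring
    rw [this, Real.arctan_tan (by linarith) (by linarith)]
    ring

lemma ang_inj {x0 γ : ℝ} (hγ : 0 < γ) : Set.InjOn (ang x0 γ) Set.univ := by
  intro a _ b _ h
  unfold ang at h
  have h1 : Real.arctan ((a - x0) / γ) = Real.arctan ((b - x0) / γ) := by linarith
  have h2 := Real.arctan_injective h1
  field_simp at h2
  linarith

/-- the key algebraic identity -/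
lemma log_ang {x0 γ : ℝ} (hγ : 0 < γ) (p : ℂ) (t : ℝ) (hp : (t : ℂ) ≠ p) :
    Real.log ‖(t : ℂ) - p‖ = Real.log ‖((x0 - p) - γ * Complex.I) * circleMap 0 1 (ang x0 γ t)
      + ((x0 - p) + γ * Complex.I)‖ - Real.log ‖1 * circleMap 0 1 (ang x0 γ t) + 1‖ := by
  set u : ℝ := (t - x0) / γ with hu
  have htu : (t : ℂ) = x0 + γ * u := by
    have : t = x0 + γ * u := by rw [hu]; field_simp; ring
    rw [this]; push_cast; ring
  have hs : 0 < Real.sqrt (1 + u ^ 2) := Real.sqrt_pos.mpr (by positivity)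
  have hs2 : ((Real.sqrt (1 + u ^ 2) : ℝ) : ℂ) ^ 2 = 1 + (u : ℂ) ^ 2 := by
    rw [← Complex.ofReal_pow, Real.sq_sqrt (by positivity)]; push_cast; ring
  have hne : (1 : ℂ) - Complex.I * u ≠ 0 := by
    intro h
    have := congrArg Complex.re h
    simp at this
  have hne2 : (1 : ℂ) + (u : ℂ) ^ 2 ≠ 0 := by
    rw [← hs2]
    exact pow_ne_zero _ (Complex.ofReal_ne_zero.mpr hs.ne')
  have hsc : ((Real.sqrt (1 + u ^ 2) : ℝ) : ℂ) ≠ 0 := Complex.ofReal_ne_zero.mpr hs.ne'
  have hz : circleMap 0 1 (ang x0 γ t) = (1 + Complex.I * u) / (1 - Complex.I * u) := by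
    unfold ang
    rw [← hu]
    have h1 : circleMap 0 1 (2 * Real.arctan u)
        = ((Real.cos (Real.arctan u) : ℝ) + (Real.sin (Real.arctan u) : ℝ) * Complex.I) ^ 2 := by
      rw [circleMap, Complex.ofReal_cos, Complex.ofReal_sin, ← Complex.exp_mul_I, ← Complex.exp_nat_mul]
      push_cast
      rw [zero_add, one_mul]
      congr 1
      ring
    rw [h1, Real.cos_arctan, Real.sin_arctan]
    push_cast
    have h2 : ((1 : ℂ) / ((Real.sqrt (1 + u ^ 2) : ℝ) : ℂ)
        + (u : ℂ) / ((Real.sqrt (1 + u ^ 2) : ℝ) : ℂ) * Complex.I) ^ 2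
        = (1 + Complex.I * u) ^ 2 / ((Real.sqrt (1 + u ^ 2) : ℝ) : ℂ) ^ 2 := by
      field_simp
    rw [h2, hs2, div_eq_div_iff hne2 hne]
    have h3 : (1 : ℂ) + (u : ℂ) ^ 2 = (1 + Complex.I * u) * (1 - Complex.I * u) := by
      linear_combination ((u : ℂ) ^ 2) * Complex.I_sq
    rw [h3]; ring
  have e1 : ((x0 - p) - γ * Complex.I) * circleMap 0 1 (ang x0 γ t) + ((x0 - p) + γ * Complex.I)
      = 2 * ((t : ℂ) - p) / (1 - Complex.I * u) := by
    rw [hz, htu]
    field_simp
    linear_combination (-2 * (γ : ℂ) * u) * Complex.I_sq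
  have e2 : 1 * circleMap 0 1 (ang x0 γ t) + 1 = 2 / (1 - Complex.I * u) := by
    rw [hz]
    field_simp
    ring
  rw [e1, e2, norm_div, norm_div, norm_mul]
  have hn1 : ‖(1 : ℂ) - Complex.I * u‖ ≠ 0 := norm_ne_zero_iff.mpr hne
  have hn2 : ‖(t : ℂ) - p‖ ≠ 0 := norm_ne_zero_iff.mpr (sub_ne_zero.mpr hp)
  have hn3 : ‖(2 : ℂ)‖ ≠ 0 := by norm_num
  rw [Real.log_div (mul_ne_zero hn3 hn2) hn1, Real.log_div hn3 hn1, Real.log_mul hn3 hn2]
  ring

/-- logarithmic potential of the Cauchy law -/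
theorem cauchy_log {x0 : ℝ} {γ : ℝ≥0} (hγ : γ ≠ 0) (p : ℂ) :
    Integrable (fun t : ℝ => Real.log ‖(t : ℂ) - p‖) (ProbabilityTheory.cauchyMeasure x0 γ) ∧
    ∫ t, Real.log ‖(t : ℂ) - p‖ ∂(ProbabilityTheory.cauchyMeasure x0 γ)
      = Real.log (max ‖((x0 : ℂ) + (γ : ℝ) * Complex.I) - p‖ ‖((x0 : ℂ) - (γ : ℝ) * Complex.I) - p‖) := by
  have hγ0 : 0 < (γ : ℝ) := by
    have := γ.2
    exact lt_of_le_of_ne this (fun h => hγ (NNReal.coe_eq_zero.mp h.symm))
  rw [ProbabilityTheory.cauchyMeasure_of_scale_ne_zero x0 hγ]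
  set A : ℂ := (x0 - p) - (γ : ℝ) * Complex.I with hA
  set B : ℂ := (x0 - p) + (γ : ℝ) * Complex.I with hB
  set F : ℂ → ℝ := fun z => Real.log ‖A * z + B‖ - Real.log ‖1 * z + 1‖ with hF
  have hAB : A ≠ 0 ∨ B ≠ 0 := by
    by_contra hcon
    simp only [not_or, not_not] at hcon
    have h1 : (2 : ℂ) * ((γ : ℝ) * Complex.I) = 0 := by
      have : B - A = 0 := by rw [hcon.1, hcon.2, sub_zero]
      rw [hA, hB] at this
      linear_combination this
    have h2 := congrArg Complex.im h1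
    simp at h2
    exact hγ h2
  have hFi : CircleIntegrable F 0 1 := (circInt_log A B).sub (circInt_log 1 1)
  have hFa : Real.circleAverage F 0 1 = Real.log (max ‖A‖ ‖B‖) := by
    rw [hF, Real.circleAverage_fun_sub (circInt_log A B) (circInt_log 1 1), circ_log A B hAB,
      circ_log 1 1 (Or.inl one_ne_zero)]
    simp
  have hder : ∀ t ∈ (Set.univ : Set ℝ), HasDerivWithinAt (ang x0 γ)
      (2 * π * (π⁻¹ * γ * ((t - x0) ^ 2 + γ ^ 2)⁻¹)) Set.univ t :=
    fun t _ => (hasDerivAt_ang hγ0 t).hasDerivWithinAt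
  have hpdf : ∀ t : ℝ, 0 ≤ ProbabilityTheory.cauchyPDFReal x0 γ t := fun t =>
    (ProbabilityTheory.cauchyPDF_pos x0 hγ t).le
  have hae : ∀ᵐ t : ℝ, |2 * π * (π⁻¹ * γ * ((t - x0) ^ 2 + γ ^ 2)⁻¹)| • F (circleMap 0 1 (ang x0 γ t))
      = (2 * π) * (ProbabilityTheory.cauchyPDFReal x0 γ t * Real.log ‖(t : ℂ) - p‖) := by
    have h1 : ∀ᵐ t : ℝ, t ≠ p.re := by
      rw [ae_iff]; simp
    filter_upwards [h1] with t ht
    have htp : (t : ℂ) ≠ p := by
      intro h
      exact ht (by rw [← h]; simp)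
    rw [log_ang hγ0 p t htp, ProbabilityTheory.cauchyPDFReal_def, smul_eq_mul,
      abs_of_nonneg (by positivity)]
    simp only [hF, hA, hB]
    ring
  have hI1 := integrableOn_Ioo_circ hFi
  rw [← ang_image (x0 := x0) hγ0] at hI1
  rw [integrableOn_image_iff_integrableOn_abs_deriv_smul MeasurableSet.univ hder (ang_inj hγ0)] at hI1
  rw [integrableOn_univ, integrable_congr hae] at hI1
  have hI2 : Integrable (fun t : ℝ => ProbabilityTheory.cauchyPDFReal x0 γ t * Real.log ‖(t : ℂ) - p‖) := by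
    have := hI1.const_mul (2 * π)⁻¹
    refine this.congr (Filter.Eventually.of_forall (fun t => ?_))
    have hpi := Real.pi_pos.ne'
    simp only
    field_simp
  have hm : Measurable (ProbabilityTheory.cauchyPDF x0 γ) := by fun_prop
  have hlt : ∀ᵐ t : ℝ, ProbabilityTheory.cauchyPDF x0 γ t < ⊤ :=
    Filter.Eventually.of_forall (fun t => ENNReal.ofReal_lt_top)
  have htr : ∀ t, (ProbabilityTheory.cauchyPDF x0 γ t).toReal = ProbabilityTheory.cauchyPDFReal x0 γ t :=
    fun t => ENNReal.toReal_ofReal (hpdf t)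
  constructor
  · rw [integrable_withDensity_iff_integrable_smul' hm hlt]
    simpa only [htr, smul_eq_mul] using hI2
  · rw [integral_withDensity_eq_integral_toReal_smul hm hlt]
    simp only [htr, smul_eq_mul]
    have h1 := integral_Ioo_circ F
    rw [← ang_image (x0 := x0) hγ0, integral_image_eq_integral_abs_deriv_smul MeasurableSet.univ hder
      (ang_inj hγ0), setIntegral_univ, integral_congr_ae hae, integral_const_mul, hFa] at h1
    have h2 := mul_left_cancel₀ (by positivity : (2 * π : ℝ) ≠ 0) h1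
    rw [h2, max_comm]
    congr 3
    · rw [hB]; ring
    · rw [hA]; ring

end Pool.Agent.Helper19
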