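import Pool.Agent.Helper19.Ident

set_option autoImplicit false

open MeasureTheory Filter Topology Matrix
open scoped ENNReal NNReal ComplexOrder

namespace Pool.Agent.Helper19

lemma nrm_ge {c q L s : ℕ} (hcq : c ≤ q) (hs : c ≤ s) (hs2 : s + c < L) {x : Site}
    (hx : ¬ (0 ≤ x.1 ∧ x.1 < ((c + q + 1 : ℕ) : ℤ) ∧ 0 ≤ x.2 ∧ x.2 < (L : ℤ))) :
    (c : ℝ) ≤ nrm (x - ((c : ℤ), (s : ℤ))) := by
  unfold nrm
  have h1 : (c : ℤ) ≤ |(x - ((c : ℤ), (s : ℤ))).1| + |(x - ((c : ℤ), (s : ℤ))).2| := by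
    simp only [Prod.fst_sub, Prod.snd_sub]
    push_cast at hx
    have a1 := abs_nonneg (x.1 - (c : ℤ))
    have a2 := abs_nonneg (x.2 - (s : ℤ))
    have a3 := le_abs_self (x.1 - (c : ℤ))
    have a4 := neg_abs_le (x.1 - (c : ℤ))
    have a5 := le_abs_self (x.2 - (s : ℤ))
    have a6 := neg_abs_le (x.2 - (s : ℤ))
    omega
  exact_mod_cast h1

lemma norm_bdry_le {c q L s : ℕ} (hcq : c ≤ q) (hs : c ≤ s) (hs2 : s + c < L) {m k : ℝ}
    (hm : 0 ≤ m) {u : Site → ℂ} (hu : Dec m k ((c : ℤ), (s : ℤ)) u)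
    (p : Fin (c + q + 1) × Fin L) :
    ‖bdry (c + q + 1) L u p‖ ≤ 4 * (k * Real.exp (-(m * c))) := by
  unfold bdry
  have hk := hu.nonneg
  refine (norm_sum_le _ _).trans ?_
  have h1 : ∀ d ∈ dirs, ‖(if ∃ q', st (c + q + 1) L q' = st (c + q + 1) L p + d then 0
      else u (st (c + q + 1) L p + d))‖ ≤ k * Real.exp (-(m * c)) := by
    intro d _
    split_ifs with h
    · rw [norm_zero]; positivity
    · refine (hu _).trans ?_
      apply mul_le_mul_of_nonneg_left _ hk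
      apply Real.exp_le_exp.mpr
      rw [mem_range_st] at h
      have := nrm_ge hcq hs hs2 h
      nlinarith
  refine (Finset.sum_le_sum h1).trans ?_
  rw [Finset.sum_const, nsmul_eq_mul]
  have : (dirs.card : ℝ) ≤ 4 := by
    have : dirs.card ≤ 4 := by
      unfold dirs
      exact Finset.card_le_four
    exact_mod_cast this
  apply mul_le_mul_of_nonneg_right this
  positivity

/-- column bound -/
lemma column_bound {c q L s : ℕ} (hcq : c ≤ q) (hs : c ≤ s) (hs2 : s + c < L) {m k : ℝ}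
    (hm : 0 ≤ m) {V : Site → ℝ} (hdet : (BM (c + q + 1) L V).det ≠ 0) {u : Site → ℂ}
    (hu : Dec m k ((c : ℤ), (s : ℤ)) u) (hS : Sol V 0 u (dl ((c : ℤ), (s : ℤ)))) :
    ∑ r : Fin L, ‖(BM (c + q + 1) L V)⁻¹ ((0 : Fin (c + q + 1)), r)
      ((⟨c, by omega⟩ : Fin (c + q + 1)), (⟨s, by omega⟩ : Fin L))‖ ^ 2
      ≤ 32 * k ^ 2 * (((c + q + 1 : ℕ) : ℝ) * L) * Real.exp (-(2 * m * c))
        * (1 + fro (BM (c + q + 1) L V)⁻¹) := by
  set N := c + q + 1 with hN
  set A := BM N L V with hA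
  set G := A⁻¹ with hG
  set j : Fin N × Fin L := ((⟨c, by omega⟩ : Fin N), (⟨s, by omega⟩ : Fin L)) with hj
  set E := Real.exp (-(m * c)) with hE
  have hk := hu.nonneg
  have hEpos : 0 < E := Real.exp_pos _
  have hE2 : Real.exp (-(2 * m * c)) = E ^ 2 := by
    rw [hE, ← Real.exp_nat_mul]; congr 1; push_cast; ring
  have hGA : G * A = 1 := Matrix.nonsing_inv_mul A (isUnit_iff_ne_zero.mpr hdet)
  have hstj : st N L j = ((c : ℤ), (s : ℤ)) := rfl
  -- representation of the column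
  have hcol : ∀ i, G i j = u (st N L i) - ∑ i', G i i' * bdry N L u i' := by
    intro i
    have h1 : A.mulVec (fun q => u (st N L q)) = fun p => (if p = j then (1 : ℂ) else 0) + bdry N L u p := by
      funext p
      rw [hA, BM_mulVec_sol N L V hS p, ← hstj, dl_apply]
      simp only [(st_injective N L).eq_iff]
    have h2 : G.mulVec (A.mulVec (fun q => u (st N L q))) = fun q => u (st N L q) := by
      rw [Matrix.mulVec_mulVec, hGA, Matrix.one_mulVec]
    rw [h1] at h2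
    have h3 := congrFun h2 i
    rw [Matrix.mulVec, dotProduct] at h3
    simp only [mul_add, Finset.sum_add_distrib, mul_ite, mul_one, mul_zero, Finset.sum_ite_eq',
      Finset.mem_univ, if_true] at h3
    rw [← h3]; ring
  have hcard : (Fintype.card (Fin N × Fin L) : ℝ) = (N : ℝ) * L := by
    rw [Fintype.card_prod, Fintype.card_fin, Fintype.card_fin]; push_cast; ring
  have hbound : ∀ r : Fin L, ‖G ((0 : Fin (c + q + 1)), r) j‖ ^ 2 ≤ 2 * k ^ 2 * E ^ 2
      + 32 * k ^ 2 * E ^ 2 * ((N : ℝ) * L) * ∑ i', ‖G ((0 : Fin (c + q + 1)), r) i'‖ ^ 2 := by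
    intro r
    rw [hcol]
    have h1 : ‖u (st N L ((0 : Fin (c + q + 1)), r))‖ ≤ k * E := by
      refine (hu _).trans ?_
      apply mul_le_mul_of_nonneg_left _ hk
      apply Real.exp_le_exp.mpr
      have : (c : ℝ) ≤ nrm (st N L ((0 : Fin (c + q + 1)), r) - ((c : ℤ), (s : ℤ))) := by
        unfold nrm
        have : (c : ℤ) ≤ |(st N L ((0 : Fin (c + q + 1)), r) - ((c : ℤ), (s : ℤ))).1|
          + |(st N L ((0 : Fin (c + q + 1)), r) - ((c : ℤ), (s : ℤ))).2| := by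
          have a1 := abs_nonneg (st N L ((0 : Fin (c + q + 1)), r) - ((c : ℤ), (s : ℤ))).2
          have a2 := neg_abs_le (st N L ((0 : Fin (c + q + 1)), r) - ((c : ℤ), (s : ℤ))).1
          have a3 : (st N L ((0 : Fin (c + q + 1)), r) - ((c : ℤ), (s : ℤ))).1 = 0 - (c : ℤ) := rfl
          rw [a3] at a2 ⊢
          omega
        exact_mod_cast this
      nlinarith
    have h2 : ‖∑ i', G ((0 : Fin (c + q + 1)), r) i' * bdry N L u i'‖ ^ 2 ≤
        16 * k ^ 2 * E ^ 2 * ((N : ℝ) * L) * ∑ i', ‖G ((0 : Fin (c + q + 1)), r) i'‖ ^ 2 := by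
      have h3 : ‖∑ i', G ((0 : Fin (c + q + 1)), r) i' * bdry N L u i'‖ ≤
          ∑ i', ‖G ((0 : Fin (c + q + 1)), r) i'‖ * (4 * (k * E)) := by
        refine (norm_sum_le _ _).trans ?_
        apply Finset.sum_le_sum
        intro i' _
        rw [norm_mul]
        exact mul_le_mul_of_nonneg_left (norm_bdry_le hcq hs hs2 hm hu i') (norm_nonneg _)
      rw [← Finset.sum_mul] at h3
      have h4 : (∑ i', ‖G ((0 : Fin (c + q + 1)), r) i'‖) ^ 2 ≤
          ((N : ℝ) * L) * ∑ i', ‖G ((0 : Fin (c + q + 1)), r) i'‖ ^ 2 := by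
        have := sq_sum_le_card_mul_sum_sq (s := (Finset.univ : Finset (Fin N × Fin L)))
          (f := fun i' => ‖G ((0 : Fin (c + q + 1)), r) i'‖)
        rw [Finset.card_univ, hcard] at this
        exact this
      calc ‖∑ i', G ((0 : Fin (c + q + 1)), r) i' * bdry N L u i'‖ ^ 2
          ≤ ((∑ i', ‖G ((0 : Fin (c + q + 1)), r) i'‖) * (4 * (k * E))) ^ 2 :=
            pow_le_pow_left₀ (norm_nonneg _) h3 2
        _ = (16 * k ^ 2 * E ^ 2) * (∑ i', ‖G ((0 : Fin (c + q + 1)), r) i'‖) ^ 2 := by ring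
        _ ≤ (16 * k ^ 2 * E ^ 2) * (((N : ℝ) * L) * ∑ i', ‖G ((0 : Fin (c + q + 1)), r) i'‖ ^ 2) :=
            mul_le_mul_of_nonneg_left h4 (by positivity)
        _ = _ := by ring
    have h5 := norm_sub_le (u (st N L ((0 : Fin (c + q + 1)), r)))
      (∑ i', G ((0 : Fin (c + q + 1)), r) i' * bdry N L u i')
    have h6 := pow_le_pow_left₀ (norm_nonneg _) h5 2
    have h7 := pow_le_pow_left₀ (norm_nonneg _) h1 2
    nlinarith [sq_nonneg (‖u (st N L ((0 : Fin (c + q + 1)), r))‖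
      - ‖∑ i', G ((0 : Fin (c + q + 1)), r) i' * bdry N L u i'‖)]
  have hfro : ∑ r : Fin L, ∑ i', ‖G ((0 : Fin (c + q + 1)), r) i'‖ ^ 2 ≤ fro G := by
    unfold fro
    rw [Fintype.sum_prod_type]
    exact Finset.single_le_sum (f := fun a : Fin N => ∑ r : Fin L, ∑ i', ‖G (a, r) i'‖ ^ 2)
      (fun a _ => by positivity) (Finset.mem_univ (0 : Fin (c + q + 1)))
  calc ∑ r : Fin L, ‖G ((0 : Fin (c + q + 1)), r) j‖ ^ 2
      ≤ ∑ r : Fin L, (2 * k ^ 2 * E ^ 2
      + 32 * k ^ 2 * E ^ 2 * ((N : ℝ) * L) * ∑ i', ‖G ((0 : Fin (c + q + 1)), r) i'‖ ^ 2) :=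
        Finset.sum_le_sum (fun r _ => hbound r)
    _ = L * (2 * k ^ 2 * E ^ 2) + 32 * k ^ 2 * E ^ 2 * ((N : ℝ) * L) *
        ∑ r : Fin L, ∑ i', ‖G ((0 : Fin (c + q + 1)), r) i'‖ ^ 2 := by
        rw [Finset.sum_add_distrib, Finset.sum_const, ← Finset.mul_sum]; simp
    _ ≤ ((N : ℝ) * L) * (32 * k ^ 2 * E ^ 2) + 32 * k ^ 2 * E ^ 2 * ((N : ℝ) * L) * fro G := by
        apply add_le_add
        · have hN1 : (1 : ℝ) ≤ N := by
            have : 1 ≤ N := by omega
            exact_mod_cast this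
          have hL0 : (0 : ℝ) ≤ L := Nat.cast_nonneg _
          have h1 : (L : ℝ) ≤ (N : ℝ) * L := by nlinarith
          apply mul_le_mul h1 _ (by positivity) (by positivity)
          have : 0 ≤ k ^ 2 * E ^ 2 := by positivity
          nlinarith
        · exact mul_le_mul_of_nonneg_left hfro (by positivity)
    _ = _ := by rw [hE2]; ring

lemma col_le_fro {c q L : ℕ} {V : Site → ℝ} (j : Fin (c + q + 1) × Fin L) :
    ∑ r : Fin L, ‖(BM (c + q + 1) L V)⁻¹ ((0 : Fin (c + q + 1)), r) j‖ ^ 2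
      ≤ fro (BM (c + q + 1) L V)⁻¹ := by
  unfold fro
  rw [Fintype.sum_prod_type]
  refine le_trans ?_ (Finset.single_le_sum (f := fun a : Fin (c + q + 1) => ∑ r : Fin L,
    ∑ i', ‖(BM (c + q + 1) L V)⁻¹ (a, r) i'‖ ^ 2)
    (fun a _ => by positivity) (Finset.mem_univ (0 : Fin (c + q + 1))))
  apply Finset.sum_le_sum
  intro r _
  exact Finset.single_le_sum (f := fun i' => ‖(BM (c + q + 1) L V)⁻¹ ((0 : Fin (c + q + 1)), r) i'‖ ^ 2)
    (fun a _ => by positivity) (Finset.mem_univ j)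

/-- a site with a controlled decaying solution -/
def CtrlSite (m k : ℝ) (V : Site → ℝ) (b : Site) : Prop := ∃ u, Dec m k b u ∧ Sol V 0 u (dl b)

open Classical in
/-- one step of the lower bound -/
theorem log_step {c q L : ℕ} (hcq : c ≤ q) {m k : ℝ} (hm : 0 ≤ m) (hk : 1 ≤ k) (V : Site → ℝ)
    (hdet : (BM (c + q + 1) L V).det ≠ 0)
    (hdet2 : (BM q L (fun x => V (x + ((c : ℤ) + 1, 0)))).det ≠ 0) :
    Real.log ‖(BM q L (fun x => V (x + ((c : ℤ) + 1, 0)))).det‖
      + m * c * ∑ s ∈ Finset.Ico c (L - c), (if CtrlSite m k V ((c : ℤ), (s : ℤ)) then (1 : ℝ) else 0)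
      ≤ Real.log ‖(BM (c + q + 1) L V).det‖
        + (L : ℝ) / 2 * (Real.log (1 + fro (BM (c + q + 1) L V)⁻¹)
          + Real.log (32 * k ^ 2 * (((c + q + 1 : ℕ) : ℝ) * L))) := by
  have hid := det_ident c q L V hdet
  set X : Matrix (Fin L) (Fin L) ℂ := Matrix.of (fun r s : Fin L => (BM (c + q + 1) L V)⁻¹
      ((0 : Fin (c + q + 1)), r) ((⟨c, by omega⟩ : Fin (c + q + 1)), s)) with hX
  have hXdet : ‖X.det‖ ≠ 0 := by
    intro h
    rw [h, mul_zero] at hid
    exact hdet2 (norm_eq_zero.mp hid.symm)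
  have hXpos : 0 < ‖X.det‖ := lt_of_le_of_ne (norm_nonneg _) (Ne.symm hXdet)
  have hDpos : 0 < ‖(BM (c + q + 1) L V).det‖ := norm_pos_iff.mpr hdet
  rw [← hid, Real.log_mul hDpos.ne' hXpos.ne']
  rcases Nat.eq_zero_or_pos L with hL | hL
  · subst hL
    simp
  set F := 1 + fro (BM (c + q + 1) L V)⁻¹ with hF
  have hF1 : 1 ≤ F := by
    have := fro_nonneg (BM (c + q + 1) L V)⁻¹
    linarith
  set W := 32 * k ^ 2 * (((c + q + 1 : ℕ) : ℝ) * L) with hW
  have hW1 : 1 ≤ W := by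
    have h1 : (1 : ℝ) ≤ ((c + q + 1 : ℕ) : ℝ) := by
      have : 1 ≤ c + q + 1 := by omega
      exact_mod_cast this
    have h2 : (1 : ℝ) ≤ L := by exact_mod_cast hL
    have h3 : (1 : ℝ) ≤ k ^ 2 := one_le_pow₀ hk
    have h4 : (1 : ℝ) ≤ ((c + q + 1 : ℕ) : ℝ) * L := one_le_mul_of_one_le_of_one_le h1 h2
    rw [hW]
    nlinarith
  set good : Fin L → Prop := fun s => (s : ℕ) ∈ Finset.Ico c (L - c) ∧
    CtrlSite m k V ((c : ℤ), ((s : ℕ) : ℤ)) with hgood
  set ρ : Fin L → ℝ := fun s => Real.sqrt F * (if good s then Real.sqrt W * Real.exp (-(m * c)) else 1)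
    with hρ
  have hFpos : 0 < Real.sqrt F := Real.sqrt_pos.mpr (by linarith)
  have hWpos : 0 < Real.sqrt W := Real.sqrt_pos.mpr (by linarith)
  have hρpos : ∀ j, 0 < ρ j := by
    intro j
    simp only [hρ]
    split_ifs
    · positivity
    · positivity
  have hcolj : ∀ j, ∑ i, ‖X i j‖ ^ 2 ≤ ρ j ^ 2 := by
    intro j
    simp only [hρ]
    split_ifs with h
    · obtain ⟨h1, u, hu, hS⟩ := h
      rw [Finset.mem_Ico] at h1
      have h2 := column_bound hcq h1.1 (by omega : (j : ℕ) + c < L) hm hdet hu hS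
      refine h2.trans_eq ?_
      rw [mul_pow, mul_pow, Real.sq_sqrt (by linarith), Real.sq_sqrt (by linarith),
        ← Real.exp_nat_mul, hF, hW]
      have : -(2 * m * c) = ((2 : ℕ) : ℝ) * -(m * c) := by push_cast; ring
      rw [this]
      ring
    · rw [mul_one, Real.sq_sqrt (by linarith)]
      refine (col_le_fro _).trans ?_
      linarith
  have h1 := hadamard X ρ hρpos hcolj
  have h2 := Real.log_le_log hXpos h1
  rw [Real.log_prod (fun j _ => (hρpos j).ne')] at h2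
  have h3 : ∑ j, Real.log (ρ j) ≤ ∑ j : Fin L, (1 / 2 * (Real.log F + Real.log W)
      - m * c * (if good j then 1 else 0)) := by
    apply Finset.sum_le_sum
    intro j _
    have hlF : Real.log (Real.sqrt F) = 1 / 2 * Real.log F := by
      rw [Real.log_sqrt (by linarith)]; ring
    have hlW : Real.log (Real.sqrt W) = 1 / 2 * Real.log W := by
      rw [Real.log_sqrt (by linarith)]; ring
    simp only [hρ]
    split_ifs
    · rw [Real.log_mul hFpos.ne' (by positivity), Real.log_mul hWpos.ne' (Real.exp_pos _).ne',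
        Real.log_exp, hlF, hlW]
      linarith
    · rw [mul_one, hlF]
      have := Real.log_nonneg hW1
      linarith
  have h4 : ∑ j : Fin L, (if good j then (1 : ℝ) else 0)
      = ∑ s ∈ Finset.Ico c (L - c), (if CtrlSite m k V ((c : ℤ), (s : ℤ)) then (1 : ℝ) else 0) := by
    rw [Fin.sum_univ_eq_sum_range (fun s : ℕ => if (s ∈ Finset.Ico c (L - c) ∧
      CtrlSite m k V ((c : ℤ), (s : ℤ))) then (1 : ℝ) else 0) L]
    simp only [ite_and]
    rw [← Finset.sum_filter]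
    apply Finset.sum_congr _ (fun _ _ => rfl)
    ext s
    simp only [Finset.mem_filter, Finset.mem_range, Finset.mem_Ico]
    omega
  rw [Finset.sum_sub_distrib, Finset.sum_const, ← Finset.mul_sum, h4, Finset.card_univ,
    Fintype.card_fin, nsmul_eq_mul] at h3
  linarith

/-- crude lower bound of the determinant -/
theorem log_det_ge {n L : ℕ} {V : Site → ℝ} (hdet : (BM n L V).det ≠ 0) :
    -((n : ℝ) * L / 2 * Real.log (1 + fro (BM n L V)⁻¹)) ≤ Real.log ‖(BM n L V).det‖ := by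
  set F := 1 + fro (BM n L V)⁻¹ with hF
  have hF1 : 1 ≤ F := by
    have := fro_nonneg (BM n L V)⁻¹
    linarith
  have hFpos : 0 < Real.sqrt F := Real.sqrt_pos.mpr (by linarith)
  have h1 := hadamard (BM n L V)⁻¹ (fun _ => Real.sqrt F) (fun _ => hFpos) (fun j => by
    rw [Real.sq_sqrt (by linarith)]
    have : ∑ i, ‖(BM n L V)⁻¹ i j‖ ^ 2 ≤ fro (BM n L V)⁻¹ := by
      unfold fro
      apply Finset.sum_le_sum
      intro i _
      exact Finset.single_le_sum (f := fun i' => ‖(BM n L V)⁻¹ i i'‖ ^ 2)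
        (fun a _ => by positivity) (Finset.mem_univ j)
    linarith)
  have hu : IsUnit (BM n L V).det := isUnit_iff_ne_zero.mpr hdet
  have h2 : ‖((BM n L V)⁻¹).det‖ = ‖(BM n L V).det‖⁻¹ := by
    rw [Matrix.det_nonsing_inv, Ring.inverse_eq_inv', norm_inv]
  rw [h2] at h1
  have hpos : 0 < ‖(BM n L V).det‖ := norm_pos_iff.mpr hdet
  have h3 := Real.log_le_log (by positivity) h1
  rw [Real.log_inv, Real.log_prod (fun j _ => hFpos.ne'), Finset.sum_const, Finset.card_univ,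
    Fintype.card_prod, Fintype.card_fin, Fintype.card_fin, nsmul_eq_mul, Real.log_sqrt (by linarith)] at h3
  push_cast at h3
  linarith

end Pool.Agent.Helper19
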