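import Pool.Agent.Helper19.Wegner
import Pool.Agent.Helper19.Column

set_option autoImplicit false

open MeasureTheory Filter Topology Matrix
open scoped ENNReal NNReal ComplexOrder

namespace Pool.Agent.Helper19

lemma VV_shift (lam kap e : ℝ) (w : Site → ℝ) (a x : Site) :
    VV lam kap e w (x + a) = VV lam kap e (fun i => w (sh a i)) x := rfl

lemma sol_VV {lam kap e : ℝ} {w : Site → ℝ} {u f : Site → ℂ} :
    Sol (pot lam kap w) e u f ↔ Sol (VV lam kap e w) 0 u f := by
  unfold Sol VV
  simp only [sub_zero]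

lemma adj_shift (u : Site → ℂ) (a x : Site) : adj (fun y => u (y + a)) x = adj u (x + a) := by
  rw [adj_eq_sum, adj_eq_sum]
  apply Finset.sum_congr rfl
  intro d _
  congr 1
  abel

lemma ctrlSite_shift {m k lam kap e : ℝ} {w : Site → ℝ} {b : Site} :
    CtrlSite m k (VV lam kap e w) b ↔ CtrlSite m k (VV lam kap e (fun i => w (sh b i))) 0 := by
  constructor
  · rintro ⟨u, hu, hS⟩
    refine ⟨fun x => u (x + b), fun x => ?_, fun x => ?_⟩
    · have := hu (x + b)
      rw [add_sub_cancel_right] at this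
      rw [sub_zero]
      exact this
    · rw [adj_shift]
      have := hS (x + b)
      rw [VV_shift] at this
      rw [this, dl_apply, dl_apply]
      have : (x + b = b) ↔ (x = 0) := by
        constructor
        · intro h; simpa using h
        · rintro rfl; simp
      simp only [this]
  · rintro ⟨u, hu, hS⟩
    refine ⟨fun x => u (x + -b), fun x => ?_, fun x => ?_⟩
    · have := hu (x + -b)
      rw [sub_zero] at this
      rw [sub_eq_add_neg]
      exact this
    · rw [adj_shift]
      have := hS (x + -b)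
      rw [← VV_shift] at this
      rw [neg_add_cancel_right] at this
      rw [this, dl_apply, dl_apply]
      have : (x + -b = 0) ↔ (x = b) := by
        constructor
        · intro h
          have := congrArg (· + b) h
          simpa using this
        · rintro rfl; simp
      simp only [this]

/-- the set of configurations with controlled solution at `b` -/
def CS (lam kap e m k : ℝ) (b : Site) : Set (Site → ℝ) := {w | CtrlSite m k (VV lam kap e w) b}

lemma measurableSet_CS (lam kap e m k : ℝ) (b : Site) : MeasurableSet (CS lam kap e m k b) := by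
  have : CS lam kap e m k b = (fun w => ((w, e) : (Site → ℝ) × ℝ)) ⁻¹' HasDec lam kap m k b b := by
    ext w
    simp only [CS, CtrlSite, HasDec, Set.mem_ofPred_eq, Set.mem_preimage, sol_VV]
  rw [this]
  exact (measurable_id.prodMk measurable_const) (isClosed_hasDec _ _ _ _ _ _).measurableSet

lemma measure_CS {μ : Measure ℝ} [IsProbabilityMeasure μ] (lam kap e m k : ℝ) (b : Site) :
    (iid Site μ) (CS lam kap e m k b) = (iid Site μ) (CS lam kap e m k 0) := by
  rw [← (mp_shift μ (sh b)).measure_preimage (measurableSet_CS lam kap e m k 0).nullMeasurableSet]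
  congr 1
  ext w
  exact ctrlSite_shift

/-- the probability tends to one -/
lemma tendsto_CS {μ : Measure ℝ} [IsProbabilityMeasure μ] {lam kap e m : ℝ}
    (h : (iid Site μ) (AllGood lam kap m e) = 1) :
    Tendsto (fun k : ℕ => (iid Site μ).real (CS lam kap e m (k + 1) 0)) atTop (𝓝 1) := by
  have hmono : Monotone (fun k : ℕ => CS lam kap e m (k + 1) 0) := by
    intro a b hab w hw
    obtain ⟨u, hu, hS⟩ := hw
    refine ⟨u, hu.mono ?_, hS⟩
    have : (a : ℝ) ≤ b := by exact_mod_cast hab
    linarith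
  have h1 := tendsto_measure_iUnion_atTop (μ := iid Site μ) hmono
  have h2 : (iid Site μ) (⋃ k : ℕ, CS lam kap e m (k + 1) 0) = 1 := by
    apply le_antisymm prob_le_one
    rw [← h]
    apply measure_mono
    intro w hw
    obtain ⟨u, ⟨C, hC⟩, hS⟩ := hw 0
    obtain ⟨k, hk⟩ := dec_nat hC
    rw [Set.mem_iUnion]
    refine ⟨k, u, hk.mono (by linarith), ?_⟩
    exact sol_VV.mp hS
  rw [h2] at h1
  have h3 := (ENNReal.tendsto_toReal ENNReal.one_ne_top).comp h1
  simpa [Measure.real, Function.comp_def] using h3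

/-- second moments -/
lemma memLp_eval {μ : Measure ℝ} [IsProbabilityMeasure μ] (hμ : MemLp (fun t : ℝ => t) 2 μ)
    (x : Site) : MemLp (fun w : Site → ℝ => w x) 2 (iid Site μ) := by
  have h1 : MeasurePreserving (fun w : Site → ℝ => w x) (iid Site μ) μ :=
    measurePreserving_eval_infinitePi (fun _ : Site => μ) x
  exact hμ.comp_measurePreserving h1

lemma integrable_fro {μ : Measure ℝ} [IsProbabilityMeasure μ] (hμ : MemLp (fun t : ℝ => t) 2 μ)
    (n L : ℕ) (lam kap e : ℝ) :
    Integrable (fun w : Site → ℝ => fro (BM n L (VV lam kap e w))) (iid Site μ) := by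
  unfold fro
  apply integrable_finsetSum
  intro i _
  apply integrable_finsetSum
  intro j _
  have h1 : MemLp (fun w : Site → ℝ => BM n L (VV lam kap e w) i j) 2 (iid Site μ) := by
    unfold BM
    apply MemLp.sub
    · by_cases h : i = j
      · simp only [if_pos h]
        have h2 : MemLp (fun w : Site → ℝ => VV lam kap e w (st n L i)) 2 (iid Site μ) := by
          unfold VV pot
          exact (((memLp_eval hμ _).const_mul lam).sub (memLp_const _)).sub (memLp_const _)
        exact h2.ofReal
      · simp only [if_neg h]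
        exact MemLp.zero
    · exact memLp_const _
  exact h1.integrable_norm_pow (by norm_num)

/-- the log Frobenius term -/
noncomputable def LF (n L : ℕ) (lam kap e : ℝ) (w : Site → ℝ) : ℝ :=
  Real.log (1 + fro (BM n L (VV lam kap e w))⁻¹)

/-- log determinant -/
noncomputable def LD (n L : ℕ) (lam kap e : ℝ) (w : Site → ℝ) : ℝ :=
  Real.log ‖(BM n L (VV lam kap e w)).det‖

lemma LF_nonneg (n L : ℕ) (lam kap e : ℝ) (w : Site → ℝ) : 0 ≤ LF n L lam kap e w := by
  unfold LF
  apply Real.log_nonneg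
  have := fro_nonneg (BM n L (VV lam kap e w))⁻¹
  linarith

/-- the Wegner constant -/
noncomputable def WZ (M lam y : ℝ) : ℝ := 4 * Real.log y + 4 + 8 * M / lam

section
variable {μ : Measure ℝ} [IsProbabilityMeasure μ] {M : ℝ≥0} {lam : ℝ} {n L : ℕ}

lemma measurable_LF (n L : ℕ) (lam kap e : ℝ) : Measurable (LF n L lam kap e) := by
  unfold LF
  exact Real.measurable_log.comp (measurable_const.add (measurable_fro_inv n L lam kap e))

lemma integrable_LF (hM : μ ≤ M • volume) (hlam : 0 < lam) (hn : 0 < n) (hL : 0 < L) (kap e : ℝ) :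
    Integrable (LF n L lam kap e) (iid Site μ) := by
  refine ⟨(measurable_LF n L lam kap e).aestronglyMeasurable, ?_⟩
  rw [hasFiniteIntegral_iff_ofReal (Filter.Eventually.of_forall (LF_nonneg n L lam kap e))]
  exact lt_of_le_of_lt (wegner hM hlam hn hL kap e).2 ENNReal.ofReal_lt_top

lemma integral_LF_le (hM : μ ≤ M • volume) (hlam : 0 < lam) (hn : 0 < n) (hL : 0 < L) (kap e : ℝ) :
    ∫ w, LF n L lam kap e w ∂(iid Site μ) ≤ WZ M lam ((n : ℝ) * L) := by
  rw [integral_eq_lintegral_of_nonneg_ae (Filter.Eventually.of_forall (LF_nonneg n L lam kap e))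
    (measurable_LF n L lam kap e).aestronglyMeasurable]
  have h1 := (wegner hM hlam hn hL kap e).2
  have hOm1 : 1 ≤ (n : ℝ) * L := by
    have h1 : (1 : ℝ) ≤ n := by exact_mod_cast hn
    have h2 : (1 : ℝ) ≤ L := by exact_mod_cast hL
    exact one_le_mul_of_one_le_of_one_le h1 h2
  have h2 : 0 ≤ WZ M lam ((n : ℝ) * L) := by
    unfold WZ
    have := Real.log_nonneg hOm1
    positivity
  exact ENNReal.toReal_le_of_le_ofReal h2 h1

lemma integrable_LD (hμ : MemLp (fun t : ℝ => t) 2 μ) (hM : μ ≤ M • volume) (hlam : 0 < lam)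
    (hn : 0 < n) (hL : 0 < L) (kap e : ℝ) :
    Integrable (LD n L lam kap e) (iid Site μ) := by
  have h1 := (integrable_fro hμ n L lam kap e).add
    ((integrable_LF hM hlam hn hL kap e).const_mul ((n : ℝ) * L / 2))
  refine h1.mono' ((measurable_log_det n L lam kap e).aestronglyMeasurable) ?_
  filter_upwards [(wegner hM hlam hn hL kap e).1] with w hw
  have h2 := log_det_ge hw
  have h3 := log_det_le _ hw
  have h4 := fro_nonneg (BM n L (VV lam kap e w))
  have h5 := LF_nonneg n L lam kap e w
  rw [Real.norm_eq_abs, abs_le]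
  unfold LD
  simp only [Pi.add_apply]
  have h6 : 0 ≤ (n : ℝ) * L / 2 * LF n L lam kap e w := by positivity
  constructor
  · unfold LF at h6 ⊢
    linarith
  · have h7 : (0 : ℝ) ≤ Fintype.card (Fin n × Fin L) := by positivity
    linarith

lemma integral_LD_ge (hμ : MemLp (fun t : ℝ => t) 2 μ) (hM : μ ≤ M • volume) (hlam : 0 < lam)
    (hn : 0 < n) (hL : 0 < L) (kap e : ℝ) :
    -((n : ℝ) * L / 2 * WZ M lam ((n : ℝ) * L)) ≤ ∫ w, LD n L lam kap e w ∂(iid Site μ) := by
  have h1 : ∫ w, -((n : ℝ) * L / 2 * LF n L lam kap e w) ∂(iid Site μ)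
      ≤ ∫ w, LD n L lam kap e w ∂(iid Site μ) := by
    apply integral_mono_ae ((integrable_LF hM hlam hn hL kap e).const_mul _).neg
      (integrable_LD hμ hM hlam hn hL kap e)
    filter_upwards [(wegner hM hlam hn hL kap e).1] with w hw
    exact log_det_ge hw
  rw [integral_neg, integral_const_mul] at h1
  have h2 := integral_LF_le hM hlam hn hL kap e
  have h3 : (0 : ℝ) ≤ (n : ℝ) * L / 2 := by positivity
  have h4 := mul_le_mul_of_nonneg_left h2 h3
  linarith

lemma integral_LD_shift (q L : ℕ) (kap e : ℝ) (a : Site) :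
    ∫ w, Real.log ‖(BM q L (fun x => VV lam kap e w (x + a))).det‖ ∂(iid Site μ)
      = ∫ w, LD q L lam kap e w ∂(iid Site μ) := by
  have h1 : ∀ w : Site → ℝ, Real.log ‖(BM q L (fun x => VV lam kap e w (x + a))).det‖
      = LD q L lam kap e (fun i => w (sh a i)) := fun w => rfl
  simp only [h1]
  have h2 := mp_shift μ (sh a)
  have h3 := integral_map (μ := iid Site μ) h2.measurable.aemeasurable
    (f := LD q L lam kap e) ((measurable_log_det q L lam kap e).aestronglyMeasurable)
  rw [h2.map_eq] at h3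
  exact h3.symm

lemma ae_det_shift (hM : μ ≤ M • volume) (hlam : 0 < lam) {q L : ℕ} (hq : 0 < q) (hL : 0 < L)
    (kap e : ℝ) (a : Site) :
    ∀ᵐ w ∂(iid Site μ), (BM q L (fun x => VV lam kap e w (x + a))).det ≠ 0 :=
  (mp_shift μ (sh a)).quasiMeasurePreserving.ae (wegner hM hlam hq hL kap e).1

lemma integrable_LD_shift (hμ : MemLp (fun t : ℝ => t) 2 μ) (hM : μ ≤ M • volume) (hlam : 0 < lam)
    {q L : ℕ} (hq : 0 < q) (hL : 0 < L) (kap e : ℝ) (a : Site) :
    Integrable (fun w => Real.log ‖(BM q L (fun x => VV lam kap e w (x + a))).det‖) (iid Site μ) :=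
  (mp_shift μ (sh a)).integrable_comp_of_integrable (integrable_LD hμ hM hlam hq hL kap e)

/-- one step in expectation -/
theorem step_integral (hμ : MemLp (fun t : ℝ => t) 2 μ) (hM : μ ≤ M • volume) (hlam : 0 < lam)
    {c q L : ℕ} (hq : 0 < q) (hcq : c ≤ q) (hcL : 2 * c < L) {m k : ℝ} (hm : 0 ≤ m) (hk : 1 ≤ k)
    (kap e : ℝ) :
    ∫ w, LD q L lam kap e w ∂(iid Site μ)
      + m * c * (((L : ℝ) - 2 * c) * (iid Site μ).real (CS lam kap e m k 0))
      ≤ ∫ w, LD (c + q + 1) L lam kap e w ∂(iid Site μ)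
        + (L : ℝ) / 2 * (WZ M lam (((c + q + 1 : ℕ) : ℝ) * L)
          + Real.log (32 * k ^ 2 * (((c + q + 1 : ℕ) : ℝ) * L))) := by
  classical
  have hL : 0 < L := by omega
  have hn : 0 < c + q + 1 := by omega
  set a : Site := ((c : ℤ) + 1, 0) with ha
  have hint1 := integrable_LD_shift hμ hM hlam hq hL kap e a
  have hint2 := integrable_LD hμ hM hlam hn hL kap e
  have hint3 := integrable_LF hM hlam hn hL kap e
  have hind : ∀ s : ℕ, Integrable (fun w => if CtrlSite m k (VV lam kap e w) ((c : ℤ), (s : ℤ))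
      then (1 : ℝ) else 0) (iid Site μ) ∧
      ∫ w, (if CtrlSite m k (VV lam kap e w) ((c : ℤ), (s : ℤ)) then (1 : ℝ) else 0) ∂(iid Site μ)
        = (iid Site μ).real (CS lam kap e m k 0) := by
    intro s
    have h1 : (fun w => if CtrlSite m k (VV lam kap e w) ((c : ℤ), (s : ℤ)) then (1 : ℝ) else 0)
        = (CS lam kap e m k ((c : ℤ), (s : ℤ))).indicator (fun _ => (1 : ℝ)) := by
      funext w
      by_cases h : CtrlSite m k (VV lam kap e w) ((c : ℤ), (s : ℤ))
      · have h' : w ∈ CS lam kap e m k ((c : ℤ), (s : ℤ)) := h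
        rw [if_pos h, Set.indicator_of_mem h']
      · have h' : w ∉ CS lam kap e m k ((c : ℤ), (s : ℤ)) := h
        rw [if_neg h, Set.indicator_of_notMem h']
    have hms := measurableSet_CS lam kap e m k ((c : ℤ), (s : ℤ))
    rw [h1]
    refine ⟨(integrable_const 1).indicator hms, ?_⟩
    rw [integral_indicator hms, setIntegral_const, smul_eq_mul, mul_one]
    unfold Measure.real
    rw [measure_CS]
  have hsum : Integrable (fun w => ∑ s ∈ Finset.Ico c (L - c),
      (if CtrlSite m k (VV lam kap e w) ((c : ℤ), (s : ℤ)) then (1 : ℝ) else 0)) (iid Site μ) :=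
    integrable_finsetSum _ (fun s _ => (hind s).1)
  have hsumv : ∫ w, ∑ s ∈ Finset.Ico c (L - c),
      (if CtrlSite m k (VV lam kap e w) ((c : ℤ), (s : ℤ)) then (1 : ℝ) else 0) ∂(iid Site μ)
      = ((L : ℝ) - 2 * c) * (iid Site μ).real (CS lam kap e m k 0) := by
    rw [integral_finsetSum _ (fun s _ => (hind s).1)]
    rw [Finset.sum_congr rfl (fun s _ => (hind s).2), Finset.sum_const, Nat.card_Ico, nsmul_eq_mul]
    congr 1
    have : L - c - c = L - 2 * c := by omega
    rw [this, Nat.cast_sub (by omega)]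
    push_cast
    ring
  have h1 : ∫ w, (Real.log ‖(BM q L (fun x => VV lam kap e w (x + a))).det‖
      + m * c * ∑ s ∈ Finset.Ico c (L - c),
      (if CtrlSite m k (VV lam kap e w) ((c : ℤ), (s : ℤ)) then (1 : ℝ) else 0)) ∂(iid Site μ)
      ≤ ∫ w, (LD (c + q + 1) L lam kap e w + (L : ℝ) / 2 * (LF (c + q + 1) L lam kap e w
          + Real.log (32 * k ^ 2 * (((c + q + 1 : ℕ) : ℝ) * L)))) ∂(iid Site μ) := by
    apply integral_mono_ae (hint1.add (hsum.const_mul _))
      (hint2.add ((hint3.add (integrable_const _)).const_mul _))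
    filter_upwards [(wegner hM hlam hn hL kap e).1, ae_det_shift hM hlam hq hL kap e a] with w hw hw2
    have := log_step hcq hm hk (VV lam kap e w) hw hw2
    simp only [Pi.add_apply]
    unfold LD LF
    convert this
  have hint4 : Integrable (fun w => LF (c + q + 1) L lam kap e w
          + Real.log (32 * k ^ 2 * (((c + q + 1 : ℕ) : ℝ) * L))) (iid Site μ) :=
    hint3.add (integrable_const _)
  rw [integral_add hint1 (hsum.const_mul _), integral_const_mul, hsumv,
    integral_LD_shift, integral_add hint2 (hint4.const_mul _),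
    integral_const_mul, integral_add hint3 (integrable_const _), integral_const] at h1
  have h2 := integral_LF_le hM hlam hn hL kap e
  have h3 : (0 : ℝ) ≤ (L : ℝ) / 2 := by positivity
  have h4 := mul_le_mul_of_nonneg_left h2 h3
  simp only [Measure.real, measure_univ, ENNReal.toReal_one, one_smul] at h1
  unfold Measure.real
  nlinarith

lemma WZ_mono {M lam x y : ℝ} (hx : 0 < x) (hxy : x ≤ y) : WZ M lam x ≤ WZ M lam y := by
  unfold WZ
  have := Real.log_le_log hx hxy
  linarith

lemma WZ_nonneg {M lam x : ℝ} (hM : 0 ≤ M) (hlam : 0 < lam) (hx : 1 ≤ x) : 0 ≤ WZ M lam x := by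
  unfold WZ
  have := Real.log_nonneg hx
  positivity

/-- lower bound for the log-determinant of the square box of side `p²` -/
theorem lower_bound (hμ : MemLp (fun t : ℝ => t) 2 μ) (hM : μ ≤ M • volume) (hlam : 0 < lam)
    {c p L : ℕ} (hp : p = c + 1) (hL : L = p * p) {m k : ℝ} (hm : 0 ≤ m) (hk : 1 ≤ k)
    (kap e : ℝ) :
    (c : ℝ) * (m * c * (((L : ℝ) - 2 * c) * (iid Site μ).real (CS lam kap e m k 0))
      - (L : ℝ) / 2 * (WZ M lam ((L : ℝ) * L) + Real.log (32 * k ^ 2 * ((L : ℝ) * L))))
      - (p : ℝ) * L / 2 * WZ M lam ((L : ℝ) * L)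
      ≤ ∫ w, LD L L lam kap e w ∂(iid Site μ) := by
  have hp0 : 0 < p := by omega
  have hL0 : 0 < L := by rw [hL]; positivity
  have hpL : p ≤ L := by rw [hL]; nlinarith
  have hcL : 2 * c < L := by rw [hL, hp]; nlinarith
  have hL1 : (1 : ℝ) ≤ L := by exact_mod_cast hL0
  have hk0 : 0 < k := by linarith
  set P := (iid Site μ).real (CS lam kap e m k 0) with hP
  set S := m * c * (((L : ℝ) - 2 * c) * P)
      - (L : ℝ) / 2 * (WZ M lam ((L : ℝ) * L) + Real.log (32 * k ^ 2 * ((L : ℝ) * L))) with hS
  have key : ∀ j : ℕ, j + 1 ≤ p → (j : ℝ) * S - (p : ℝ) * L / 2 * WZ M lam ((L : ℝ) * L)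
      ≤ ∫ w, LD ((j + 1) * p) L lam kap e w ∂(iid Site μ) := by
    intro j
    induction j with
    | zero =>
      intro _
      have h1 := integral_LD_ge hμ hM hlam hp0 hL0 kap e
      have h2 : WZ M lam ((p : ℝ) * L) ≤ WZ M lam ((L : ℝ) * L) := by
        apply WZ_mono (by positivity)
        have : (p : ℝ) ≤ L := by exact_mod_cast hpL
        nlinarith
      have h3 : (0 : ℝ) ≤ (p : ℝ) * L / 2 := by positivity
      have h4 := mul_le_mul_of_nonneg_left h2 h3
      simp only [Nat.cast_zero, zero_mul, zero_add, one_mul]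
      linarith
    | succ j ih =>
      intro hj
      have h1 := ih (by omega)
      have hq : 0 < (j + 1) * p := by positivity
      have hcq : c ≤ (j + 1) * p := by nlinarith
      have h2 := step_integral hμ hM hlam hq hcq hcL hm hk kap e
      have hn : c + (j + 1) * p + 1 = (j + 1 + 1) * p := by rw [hp]; ring
      rw [hn] at h2
      have hnL : (((j + 1 + 1) * p : ℕ) : ℝ) ≤ L := by
        have : (j + 1 + 1) * p ≤ L := by rw [hL]; exact Nat.mul_le_mul_right p hj
        exact_mod_cast this
      have hn1 : (1 : ℝ) ≤ (((j + 1 + 1) * p : ℕ) : ℝ) := by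
        have : 1 ≤ (j + 1 + 1) * p := Nat.succ_le_of_lt (by positivity)
        exact_mod_cast this
      set N : ℝ := (((j + 1 + 1) * p : ℕ) : ℝ) with hN
      have hNL : N * L ≤ (L : ℝ) * L := by nlinarith
      have hNL0 : 0 < N * L := by positivity
      have h3 : WZ M lam (N * L) ≤ WZ M lam ((L : ℝ) * L) := WZ_mono hNL0 hNL
      have h4 : Real.log (32 * k ^ 2 * (N * L)) ≤ Real.log (32 * k ^ 2 * ((L : ℝ) * L)) := by
        apply Real.log_le_log (by positivity)
        apply mul_le_mul_of_nonneg_left hNL (by positivity)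
      have h5 : (0 : ℝ) ≤ (L : ℝ) / 2 := by positivity
      have h6 := mul_le_mul_of_nonneg_left (add_le_add h3 h4) h5
      push_cast
      have h7 : ((j : ℝ) + 1) * S = (j : ℝ) * S + S := by ring
      rw [h7]
      rw [hS] at h1 ⊢
      linarith
  have h1 := key c (by omega)
  rw [← hp, ← hL] at h1
  exact h1

end

end Pool.Agent.Helper19
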