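import Pool.Agent.Helper19.Exist
import Pool.Agent.Helper19.Lower

set_option autoImplicit false

open MeasureTheory Filter Topology
open scoped ENNReal NNReal

namespace Pool.Agent.Helper19

/-- configurations whose potential is close to `s` on the translated box -/
def NearSet (lam kap s ε : ℝ) (R : ℕ) (a : Site) : Set (Site → ℝ) :=
  {w | ∀ x ∈ bx R, |pot lam kap w (x + a) - s| < ε}

lemma measurableSet_nearSet (lam kap s ε : ℝ) (R : ℕ) (a : Site) :
    MeasurableSet (NearSet lam kap s ε R a) := by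
  have : NearSet lam kap s ε R a = ⋂ x ∈ bx R, {w | |pot lam kap w (x + a) - s| < ε} := by
    ext w; simp [NearSet]
  rw [this]
  apply Finset.measurableSet_biInter
  intro x _
  apply measurableSet_lt _ measurable_const
  unfold pot
  fun_prop

lemma measure_nearSet_shift {μ : Measure ℝ} [IsProbabilityMeasure μ] (lam kap s ε : ℝ) (R : ℕ)
    (a : Site) : (iid Site μ) (NearSet lam kap s ε R a) = (iid Site μ) (NearSet lam kap s ε R 0) := by
  rw [← (mp_shift μ (sh a)).measure_preimage (measurableSet_nearSet lam kap s ε R 0).nullMeasurableSet]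
  congr 1
  ext w
  simp only [NearSet, Set.mem_ofPred_eq, Set.mem_preimage, add_zero]
  rfl

lemma measure_nearSet_pos {μ : Measure ℝ} [IsProbabilityMeasure μ] {lam kap s ε : ℝ} (R : ℕ)
    (hs : μ {t | |lam * t - kap - s| < ε} ≠ 0) : (iid Site μ) (NearSet lam kap s ε R 0) ≠ 0 := by
  have hm : MeasurableSet {t : ℝ | |lam * t - kap - s| < ε} := by
    apply measurableSet_lt _ measurable_const
    fun_prop
  have h1 : (iid Site μ) (((bx R : Finset Site) : Set Site).pi (fun _ => {t | |lam * t - kap - s| < ε})) ≠ 0 := by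
    rw [Measure.infinitePi_pi _ (fun i _ => hm)]
    exact Finset.prod_ne_zero_iff.mpr (fun _ _ => hs)
  intro h0
  apply h1
  apply measure_mono_null _ h0
  intro w hw x hx
  have := hw x (by exact_mod_cast hx)
  simpa [pot] using this

lemma nrm_bx_le {R : ℕ} {x : Site} (hx : x ∈ bx R) : nrm x ≤ 2 * R := by
  rw [mem_bx] at hx
  unfold nrm
  have h1 : |x.1| = x.1 := abs_of_nonneg hx.1.1
  have h2 : |x.2| = x.2 := abs_of_nonneg hx.2.1
  rw [h1, h2]
  have h3 : x.1 + x.2 ≤ 2 * (R : ℤ) := by omega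
  exact_mod_cast h3

/-- almost surely the potential is close to `s` on some translated box -/
lemma ae_exists_near {μ : Measure ℝ} [IsProbabilityMeasure μ] {lam kap s ε : ℝ} (R : ℕ)
    (hs : μ {t | |lam * t - kap - s| < ε} ≠ 0) :
    ∀ᵐ w ∂(iid Site μ), ∃ a : Site, ∀ x ∈ bx R, |pot lam kap w (x + a) - s| < ε := by
  set B : ℕ → Set (Site → ℝ) := fun K => ⋃ a : {a : Site // (K : ℝ) ≤ nrm a},
    NearSet lam kap s ε R (a : Site) with hB
  have hBm : ∀ K, MeasurableSet (B K) := fun K =>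
    MeasurableSet.iUnion (fun a => measurableSet_nearSet _ _ _ _ _ _)
  have hmem : ∀ (K : ℕ) (w : Site → ℝ), w ∈ B K ↔ ∃ a : Site, (K : ℝ) ≤ nrm a ∧
      w ∈ NearSet lam kap s ε R a := by
    intro K w
    simp only [hB, Set.mem_iUnion, Subtype.exists, exists_prop]
  have hanti : Antitone B := by
    intro K K' hKK w hw
    rw [hmem] at hw ⊢
    obtain ⟨a, ha, hw⟩ := hw
    have : (K : ℝ) ≤ K' := by exact_mod_cast hKK
    exact ⟨a, this.trans ha, hw⟩
  set p := (iid Site μ) (NearSet lam kap s ε R 0) with hp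
  have hp0 : p ≠ 0 := measure_nearSet_pos R hs
  have hge : ∀ K, p ≤ (iid Site μ) (B K) := by
    intro K
    rw [hp, ← measure_nearSet_shift lam kap s ε R ((K : ℤ), 0)]
    apply measure_mono
    intro w hw
    rw [hmem]
    refine ⟨((K : ℤ), 0), ?_, hw⟩
    unfold nrm
    simp
  have hNm : MeasurableSet (⋂ K, B K) := MeasurableSet.iInter hBm
  have hNp : (iid Site μ) (⋂ K, B K) ≠ 0 := by
    rw [hanti.measure_iInter (fun K => (hBm K).nullMeasurableSet) ⟨0, measure_ne_top _ _⟩]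
    have : p ≤ ⨅ K, (iid Site μ) (B K) := le_iInf hge
    intro h0
    rw [h0] at this
    exact hp0 (le_zero_iff.mp this)
  have hone : (iid Site μ) (⋂ K, B K) = 1 := by
    refine (zero_one hNm ?_).resolve_left hNp
    intro y
    apply Filter.Eventually.of_forall
    have hone_dir : ∀ w w' : Site → ℝ, (∀ x, x ≠ y → w x = w' x) → w ∈ (⋂ K, B K) → w' ∈ (⋂ K, B K) := by
      intro w w' hww hw
      rw [Set.mem_iInter] at hw ⊢
      intro K
      obtain ⟨K0, hK0⟩ := exists_nat_gt (nrm y + 2 * R)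
      have h1 := hw (max K K0)
      rw [hmem] at h1 ⊢
      obtain ⟨a, ha, hn⟩ := h1
      have hKa : (K : ℝ) ≤ nrm a := by
        refine le_trans ?_ ha
        exact_mod_cast le_max_left K K0
      have hK0a : (K0 : ℝ) ≤ nrm a := by
        refine le_trans ?_ ha
        exact_mod_cast le_max_right K K0
      refine ⟨a, hKa, fun x hx => ?_⟩
      have hne : x + a ≠ y := by
        intro h
        have h2 : a = y + -x := by rw [← h]; abel
        have h3 := nrm_add_le y (-x)
        rw [nrm_neg, ← h2] at h3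
        have h4 := nrm_bx_le hx
        linarith
      have h5 := hn x hx
      unfold pot at h5 ⊢
      rw [← hww _ hne]
      exact h5
    intro p
    constructor
    · apply hone_dir
      intro x hx
      rw [Function.update_of_ne hx]
    · apply hone_dir
      intro x hx
      rw [Function.update_of_ne hx]
  have hae : ∀ᵐ w ∂(iid Site μ), w ∈ ⋂ K, B K := by
    exact (mem_ae_iff_prob_eq_one hNm).mpr hone
  filter_upwards [hae] with w hw
  rw [Set.mem_iInter] at hw
  have h1 := hw 0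
  rw [hmem] at h1
  obtain ⟨a, _, ha⟩ := h1
  exact ⟨a, ha⟩

/-- the gap property is translation invariant -/
lemma gap_shift {V : Site → ℝ} {c : ℝ} (a : Site)
    (h : ∀ φ g : Site → ℂ, L2 φ → L2 g → Sol V 0 φ g → c * ∑' x, ‖φ x‖ ^ 2 ≤ ∑' x, ‖g x‖ ^ 2)
    (φ g : Site → ℂ) (hφ : L2 φ) (hg : L2 g) (hS : Sol (fun x => V (x + a)) 0 φ g) :
    c * ∑' x, ‖φ x‖ ^ 2 ≤ ∑' x, ‖g x‖ ^ 2 := by
  have h1 := h (fun x => φ (x + -a)) (fun x => g (x + -a)) (hφ.comp_equiv (sh (-a)))
    (hg.comp_equiv (sh (-a))) (by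
      intro x
      rw [adj_shift]
      have := hS (x + -a)
      simp only [neg_add_cancel_right] at this
      exact this)
  have e1 : ∑' x, ‖φ (x + -a)‖ ^ 2 = ∑' x, ‖φ x‖ ^ 2 := (sh (-a)).tsum_eq (fun x => ‖φ x‖ ^ 2)
  have e2 : ∑' x, ‖g (x + -a)‖ ^ 2 = ∑' x, ‖g x‖ ^ 2 := (sh (-a)).tsum_eq (fun x => ‖g x‖ ^ 2)
  rw [e1, e2] at h1
  exact h1

/-- localisation with positive outer probability gives energies where all sites are good -/
lemma exists_energy' {μ : Measure ℝ} [IsProbabilityMeasure μ] [NullSingletonClass μ]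
    (hac : μ ≪ volume) {lam : ℝ} (hlam : lam ≠ 0) {kap m : ℝ} (hm : 0 < m) {δ : ℝ} (hδ : 0 < δ)
    (H : ¬ ∀ᵐ w ∂(iid Site μ), ¬ ((∀ (ψ : Site → ℂ) (e : ℝ), L2 ψ → |e| < δ →
      Sol (pot lam kap w) e ψ 0 → Cm m ψ) ∧ Complete (pot lam kap w)))
    (H3 : μ {t | |lam * t - kap| ≤ 4} ≠ 0) {δ' : ℝ} (hδ' : 0 < δ') :
    ∃ e : ℝ, |e| ≤ δ' ∧ (iid Site μ) (AllGood lam kap m e) = 1 := by
  by_contra hcon
  simp only [not_exists, not_and] at hcon
  set d := min δ' (δ / 2) with hd
  have hd0 : 0 < d := lt_min hδ' (by linarith)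
  have hno : ∀ e : ℝ, |e| ≤ d → (iid Site μ) (AllGood lam kap m e) ≠ 1 :=
    fun e he => hcon e (he.trans (min_le_left _ _))
  have h1 : ∀ᵐ w ∂(iid Site μ), ∀ y, w ∉ EigSet lam kap m (Set.Icc (-d) d) y := by
    rw [ae_all_iff]
    intro y
    have := measure_eigSet hac hlam hm hno y
    rw [ae_iff]; simpa using this
  obtain ⟨s, hs4, hs⟩ := exists_support H3
  obtain ⟨R, hR⟩ := exists_nat_gt (max (4 * 512 * 3 / d ^ 2) 1)
  have hR1 : 4 * 512 * 3 / d ^ 2 < R := (le_max_left _ _).trans_lt hR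
  have hR2 : 1 ≤ R := by
    have : (1 : ℝ) < R := (le_max_right _ _).trans_lt hR
    exact_mod_cast this.le
  have hnear := ae_exists_near (μ := μ) R (hs (d / 2) (by linarith))
  apply H
  filter_upwards [h1, hnear] with w hw1 hw4 hw
  obtain ⟨hw2, hw3⟩ := hw
  obtain ⟨a, ha⟩ := hw4
  refine no_gap (V := fun x => pot lam kap w (x + a)) hd0 hs4 hR1 hR2 ha (fun φ g hφ hg hS => ?_)
  refine gap_shift a (fun φ g hφ hg hS => ?_) φ g hφ hg hS
  refine gap_of_complete hw3 hd0.le ?_ hφ hg hS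
  intro e he u hu hSu
  have hc := hw2 u e hu (he.trans_lt (by
    have : d ≤ δ / 2 := min_le_right _ _
    linarith)) hSu
  funext y
  by_contra hy
  exact hw1 y ⟨e, abs_le.mp he, u, hc, hSu, hy⟩

end Pool.Agent.Helper19
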