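import Pool.Agent.Helper19.Fin4
import Pool.Agent.Helper19.Exist2

set_option autoImplicit false

open MeasureTheory Filter Topology
open scoped ENNReal NNReal Real

namespace Pool.Agent.Helper19

set_option linter.unusedSectionVars false

/-! ### the truncated potential -/

lemma yw_of_abs_le {v : ℝ} (h : |v| ≤ 1) : yw v = v := by
  unfold yw bw
  rw [max_eq_left h, _root_.inv_one, mul_one]

lemma yw_eq (v : ℝ) : yw v = max (-1) (min v 1) := by
  rcases le_or_gt |v| 1 with h | h
  · rw [yw_of_abs_le h]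
    rw [abs_le] at h
    rw [min_eq_left h.2, max_eq_right h.1]
  · unfold yw bw
    rw [max_eq_right h.le]
    rcases le_total 0 v with h0 | h0
    · rw [abs_of_nonneg h0] at h ⊢
      rw [min_eq_right h.le, max_eq_right (by norm_num), mul_inv_cancel₀ (by linarith)]
    · rw [abs_of_nonpos h0] at h ⊢
      have h1 : v ≤ -1 := by linarith
      rw [min_eq_left (by linarith), max_eq_left h1]
      have : v ≠ 0 := by linarith
      field_simp

lemma yw_mono : Monotone yw := by
  intro v w h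
  rw [yw_eq, yw_eq]
  exact max_le_max le_rfl (min_le_min h le_rfl)

lemma continuous_yw : Continuous yw := by
  have : yw = fun v => max (-1) (min v 1) := funext yw_eq
  rw [this]
  fun_prop

lemma min_le_log {x : ℝ} (hx : 0 ≤ x) : Real.log 2 * min 1 x ≤ Real.log (1 + x) := by
  have hl2 : 0 < Real.log 2 := Real.log_pos (by norm_num)
  rcases le_total 1 x with h | h
  · rw [min_eq_left h, mul_one]
    exact Real.log_le_log (by norm_num) (by linarith)
  · rw [min_eq_right h]
    have h1 : (2 : ℝ) ^ x ≤ 1 + x := by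
      have := rpow_one_add_le_one_add_mul_self (s := 1) (by norm_num) hx h
      rw [show (1 : ℝ) + 1 = 2 by norm_num] at this
      linarith
    have h2 := Real.log_le_log (by positivity) h1
    rw [Real.log_rpow (by norm_num)] at h2
    linarith

lemma yw_sq_le (v : ℝ) : Real.log 2 * yw v ^ 2 ≤ Real.log (1 + v ^ 2) := by
  have h1 : yw v ^ 2 ≤ min 1 (v ^ 2) := by
    apply le_min
    · have := abs_yw_le v
      rw [← sq_abs]
      exact pow_le_one₀ (abs_nonneg _) this
    · unfold yw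
      have h2 := bw_pos v
      have h3 := bw_le v
      rw [mul_pow]
      have : bw v ^ 2 ≤ 1 := pow_le_one₀ h2.le h3
      nlinarith [sq_nonneg v]
  have h2 := min_le_log (sq_nonneg v)
  have hl2 : 0 < Real.log 2 := Real.log_pos (by norm_num)
  have := mul_le_mul_of_nonneg_left h1 hl2.le
  linarith

lemma logmax_le (v : ℝ) : Real.log (max 1 |v|) ≤ 1 / 2 * Real.log (1 + v ^ 2) := by
  have h1 : (max 1 |v|) ^ 2 ≤ 1 + v ^ 2 := by
    rcases le_total 1 |v| with h | h
    · rw [max_eq_right h, sq_abs]; linarith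
    · rw [max_eq_left h]; nlinarith [sq_nonneg v]
  have h2 := Real.log_le_log (by positivity) h1
  rw [Real.log_pow] at h2
  push_cast at h2
  linarith

lemma log_shift_le (x y : ℝ) : Real.log (1 + (x - y) ^ 2) ≤ 2 * Real.log (1 + x ^ 2) + 2 * y ^ 2 := by
  have h1 : 1 + (x - y) ^ 2 ≤ (1 + x ^ 2) ^ 2 * (1 + 2 * y ^ 2) := by
    nlinarith [sq_nonneg (x + y), sq_nonneg x, sq_nonneg y, sq_nonneg (x ^ 2), mul_nonneg (sq_nonneg x) (sq_nonneg y),
      mul_nonneg (sq_nonneg (x ^ 2)) (sq_nonneg y)]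
  have h2 := Real.log_le_log (by positivity) h1
  rw [Real.log_mul (by positivity) (by positivity), Real.log_pow] at h2
  have h3 := Real.log_le_sub_one_of_pos (by positivity : 0 < 1 + 2 * y ^ 2)
  push_cast at h2
  linarith

/-! ### the size of the disorder -/

/-- the size of the disorder -/
noncomputable def rr (μ : Measure ℝ) (lam : ℝ) : ℝ := ∫ t, Real.log (1 + (lam * t) ^ 2) ∂μ

section
variable {μ : Measure ℝ} [IsProbabilityMeasure μ] {q : ℝ}

lemma log_sq_le_rpow (hq : 0 < q) (hq2 : q ≤ 1 / 2) (v : ℝ) : Real.log (1 + v ^ 2) ≤ 2 / q * |v| ^ q := by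
  have h1 : 1 + v ^ 2 ≤ (1 + |v|) ^ 2 := by
    have := abs_nonneg v
    have h2 := sq_abs v
    nlinarith
  have h2 := Real.log_le_log (by positivity) h1
  rw [Real.log_pow] at h2
  have h3 := log_one_add_le_rpow (abs_nonneg v) hq (by linarith)
  push_cast at h2
  have h4 : 2 / q * |v| ^ q = 2 * (|v| ^ q / q) := by ring
  rw [h4]
  linarith

lemma rpow_mul_abs {lam : ℝ} (hlam : 0 < lam) (q t : ℝ) : |lam * t| ^ q = lam ^ q * |t| ^ q := by
  rw [abs_mul, abs_of_pos hlam, Real.mul_rpow hlam.le (abs_nonneg _)]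

lemma integrable_rr (hq : 0 < q) (hq2 : q ≤ 1 / 2) (hint : Integrable (fun t : ℝ => |t| ^ q) μ)
    {lam : ℝ} (hlam : 0 < lam) : Integrable (fun t => Real.log (1 + (lam * t) ^ 2)) μ := by
  have hm : Measurable (fun t : ℝ => Real.log (1 + (lam * t) ^ 2)) := by fun_prop
  refine (hint.const_mul (2 / q * lam ^ q)).mono' hm.aestronglyMeasurable
    (Filter.Eventually.of_forall (fun t => ?_))
  have h0 : 0 ≤ (lam * t) ^ 2 := sq_nonneg _
  rw [Real.norm_eq_abs, abs_of_nonneg (Real.log_nonneg (by linarith))]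
  refine (log_sq_le_rpow hq hq2 _).trans (le_of_eq ?_)
  rw [rpow_mul_abs hlam]
  ring

lemma rr_nonneg (μ : Measure ℝ) (lam : ℝ) : 0 ≤ rr μ lam := by
  unfold rr
  apply integral_nonneg
  intro t
  apply Real.log_nonneg
  have : 0 ≤ (lam * t) ^ 2 := sq_nonneg _
  linarith

lemma rr_le (hq : 0 < q) (hq2 : q ≤ 1 / 2) (hint : Integrable (fun t : ℝ => |t| ^ q) μ)
    {lam : ℝ} (hlam : 0 < lam) : rr μ lam ≤ 2 / q * (∫ t, |t| ^ q ∂μ) * lam ^ q := by
  unfold rr
  calc ∫ t, Real.log (1 + (lam * t) ^ 2) ∂μ ≤ ∫ t, (2 / q * lam ^ q) * |t| ^ q ∂μ := by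
        apply integral_mono (integrable_rr hq hq2 hint hlam) (hint.const_mul _)
        intro t
        refine (log_sq_le_rpow hq hq2 _).trans (le_of_eq ?_)
        rw [rpow_mul_abs hlam]
        ring
    _ = _ := by rw [integral_const_mul]; ring

lemma rr_ge (hq : 0 < q) (hq2 : q ≤ 1 / 2) (hint : Integrable (fun t : ℝ => |t| ^ q) μ)
    {lam : ℝ} (hlam : 0 < lam) (hlam1 : lam ≤ 1) : lam ^ 2 * rr μ 1 ≤ rr μ lam := by
  unfold rr
  rw [← integral_const_mul]
  apply integral_mono ((integrable_rr hq hq2 hint one_pos).const_mul _) (integrable_rr hq hq2 hint hlam)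
  intro t
  beta_reduce
  rw [one_mul]
  have h1 : lam ^ 2 ≤ 1 := pow_le_one₀ hlam.le hlam1
  have h2 := rpow_one_add_le_one_add_mul_self (s := t ^ 2) (p := lam ^ 2)
    (by nlinarith [sq_nonneg t]) (sq_nonneg _) h1
  have h3 := Real.log_le_log (by positivity) h2
  rw [Real.log_rpow (by positivity)] at h3
  have : (lam * t) ^ 2 = lam ^ 2 * t ^ 2 := by ring
  rw [this]
  exact h3

lemma rr_one_pos (hac : μ ≪ volume) (hq : 0 < q) (hq2 : q ≤ 1 / 2)
    (hint : Integrable (fun t : ℝ => |t| ^ q) μ) : 0 < rr μ 1 := by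
  rcases (rr_nonneg μ 1).lt_or_eq with h | h
  · exact h
  · exfalso
    unfold rr at h
    have h1 := (integral_eq_zero_iff_of_nonneg (fun t : ℝ => Real.log_nonneg (by
      have : 0 ≤ (1 * t) ^ 2 := sq_nonneg _
      linarith)) (integrable_rr hq hq2 hint one_pos)).mp h.symm
    have h2 : ∀ᵐ t ∂μ, t ≠ 0 := by
      rw [ae_iff]
      apply hac
      simp
    obtain ⟨t, h3, h4⟩ := (h1.and h2).exists
    have h5 : Real.log (1 + (1 * t) ^ 2) = 0 := h3
    have h6 : 0 < (1 * t) ^ 2 := by positivity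
    have := Real.log_pos (by linarith : 1 < 1 + (1 * t) ^ 2)
    linarith

/-- a large symmetric interval -/
lemma exists_T (μ : Measure ℝ) [IsProbabilityMeasure μ] :
    ∃ T : ℝ, 1 ≤ T ∧ 1 / 2 ≤ μ.real {t | |t| ≤ T} := by
  have hmono : Monotone (fun n : ℕ => {t : ℝ | |t| ≤ n}) := by
    intro a b hab t ht
    have : (a : ℝ) ≤ b := by exact_mod_cast hab
    exact le_trans ht this
  have h1 := tendsto_measure_iUnion_atTop (μ := μ) hmono
  have h2 : (⋃ n : ℕ, {t : ℝ | |t| ≤ n}) = Set.univ := by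
    ext t
    simp only [Set.mem_iUnion, Set.mem_univ, iff_true]
    obtain ⟨n, hn⟩ := exists_nat_ge |t|
    exact ⟨n, hn⟩
  rw [h2, measure_univ] at h1
  have h3 := (ENNReal.tendsto_toReal ENNReal.one_ne_top).comp h1
  have h4 : ∀ᶠ n : ℕ in atTop, 1 / 2 ≤ μ.real {t : ℝ | |t| ≤ n} := by
    have : ∀ᶠ n : ℕ in atTop, 1 / 2 < (μ {t : ℝ | |t| ≤ n}).toReal :=
      h3.eventually (lt_mem_nhds (by simp; norm_num))
    filter_upwards [this] with n hn
    exact hn.le
  obtain ⟨n, hn1, hn2⟩ := (h4.and (eventually_ge_atTop 1)).exists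
  exact ⟨n, by exact_mod_cast hn2, hn1⟩

/-! ### centring -/

/-- the centring function -/
noncomputable def cf (μ : Measure ℝ) (lam κ : ℝ) : ℝ := ∫ t, yw (lam * t - κ) ∂μ

lemma integrable_yw (lam κ : ℝ) : Integrable (fun t : ℝ => yw (lam * t - κ)) μ := by
  have hm : Measurable (fun t : ℝ => yw (lam * t - κ)) := measurable_yw.comp (by fun_prop)
  apply Integrable.of_bound hm.aestronglyMeasurable 1
  exact Filter.Eventually.of_forall (fun _ => by rw [Real.norm_eq_abs]; exact abs_yw_le _)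

lemma continuous_cf (lam : ℝ) : Continuous (cf μ lam) := by
  unfold cf
  apply continuous_of_dominated (bound := fun _ => 1)
  · intro κ
    exact (integrable_yw lam κ).aestronglyMeasurable
  · intro κ
    exact Filter.Eventually.of_forall (fun t => by rw [Real.norm_eq_abs]; exact abs_yw_le _)
  · exact integrable_const 1
  · apply Filter.Eventually.of_forall
    intro t
    exact continuous_yw.comp (by fun_prop)

lemma abs_cf_zero (hq : 0 < q) (hq2 : q ≤ 1 / 2) (hint : Integrable (fun t : ℝ => |t| ^ q) μ)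
    {lam : ℝ} (hlam : 0 < lam) : Real.log 2 * cf μ lam 0 ^ 2 ≤ rr μ lam := by
  have hi := integrable_yw (μ := μ) lam 0
  have hm : Measurable (fun t : ℝ => yw (lam * t - 0)) := measurable_yw.comp (by fun_prop)
  have hi2 : Integrable (fun t : ℝ => yw (lam * t - 0) ^ 2) μ := by
    apply Integrable.of_bound (hm.pow_const 2).aestronglyMeasurable 1
    exact Filter.Eventually.of_forall (fun t => by
      rw [Real.norm_eq_abs, abs_of_nonneg (sq_nonneg _), ← sq_abs]
      exact pow_le_one₀ (abs_nonneg _) (abs_yw_le _))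
  have h1 : cf μ lam 0 ^ 2 ≤ ∫ t, yw (lam * t - 0) ^ 2 ∂μ := by
    set c := cf μ lam 0 with hc
    have h2 : 0 ≤ ∫ t, (yw (lam * t - 0) - c) ^ 2 ∂μ := integral_nonneg (fun t => sq_nonneg _)
    have h3 : ∀ t : ℝ, (yw (lam * t - 0) - c) ^ 2 = yw (lam * t - 0) ^ 2 + ((-2 * c) * yw (lam * t - 0) + c ^ 2) :=
      fun t => by ring
    simp only [h3] at h2
    have hi3 : Integrable (fun t : ℝ => (-2 * c) * yw (lam * t - 0) + c ^ 2) μ :=
      (hi.const_mul _).add (integrable_const _)
    rw [integral_add hi2 hi3, integral_add (hi.const_mul _) (integrable_const _), integral_const_mul] at h2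
    have h4 : ∫ t, yw (lam * t - 0) ∂μ = c := rfl
    rw [h4] at h2
    simp only [integral_const, probReal_univ, smul_eq_mul, one_mul] at h2
    nlinarith
  have hl2 : 0 < Real.log 2 := Real.log_pos (by norm_num)
  have h2 : Real.log 2 * ∫ t, yw (lam * t - 0) ^ 2 ∂μ ≤ rr μ lam := by
    rw [← integral_const_mul]
    unfold rr
    apply integral_mono (hi2.const_mul _) (integrable_rr hq hq2 hint hlam)
    intro t
    beta_reduce
    rw [sub_zero]
    exact yw_sq_le _
  have := mul_le_mul_of_nonneg_left h1 hl2.le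
  linarith

lemma cf_drop {lam T κ : ℝ} (hlam : 0 < lam) (hT : 1 / 2 ≤ μ.real {t | |t| ≤ T}) (hlT : lam * T ≤ 1 / 2)
    (hκ : 0 ≤ κ) (hκ2 : κ ≤ 1 / 2) :
    cf μ lam κ ≤ cf μ lam 0 - κ / 2 ∧ cf μ lam 0 + κ / 2 ≤ cf μ lam (-κ) := by
  have hms : MeasurableSet {t : ℝ | |t| ≤ T} := measurableSet_le (by fun_prop) (by fun_prop)
  have hind : Integrable (fun t : ℝ => {t : ℝ | |t| ≤ T}.indicator (fun _ => κ) t) μ :=
    (integrable_const κ).indicator hms
  have hval : κ / 2 ≤ ∫ t, {t : ℝ | |t| ≤ T}.indicator (fun _ => κ) t ∂μ := by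
    rw [integral_indicator hms, setIntegral_const, smul_eq_mul]
    nlinarith
  constructor
  · have h1 : ∫ t, ({t : ℝ | |t| ≤ T}.indicator (fun _ => κ) t + yw (lam * t - κ)) ∂μ
        ≤ ∫ t, yw (lam * t - 0) ∂μ := by
      have hadd : Integrable (fun t : ℝ => {t : ℝ | |t| ≤ T}.indicator (fun _ => κ) t + yw (lam * t - κ)) μ :=
        hind.add (integrable_yw lam κ)
      apply integral_mono hadd (integrable_yw lam 0)
      intro t
      beta_reduce
      by_cases h : |t| ≤ T
      · rw [Set.indicator_of_mem (show t ∈ {t : ℝ | |t| ≤ T} from h)]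
        have h2 : |lam * t| ≤ 1 / 2 := by
          rw [abs_mul, abs_of_pos hlam]
          exact (mul_le_mul_of_nonneg_left h hlam.le).trans hlT
        rw [abs_le] at h2
        rw [yw_of_abs_le (v := lam * t - κ) (by rw [abs_le]; constructor <;> linarith),
          yw_of_abs_le (v := lam * t - 0) (by rw [abs_le]; constructor <;> linarith)]
        linarith
      · rw [Set.indicator_of_notMem (show t ∉ {t : ℝ | |t| ≤ T} from h), zero_add]
        exact yw_mono (by linarith)
    rw [integral_add hind (integrable_yw lam κ)] at h1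
    unfold cf
    linarith
  · have h1 : ∫ t, ({t : ℝ | |t| ≤ T}.indicator (fun _ => κ) t + yw (lam * t - 0)) ∂μ
        ≤ ∫ t, yw (lam * t - (-κ)) ∂μ := by
      have hadd : Integrable (fun t : ℝ => {t : ℝ | |t| ≤ T}.indicator (fun _ => κ) t + yw (lam * t - 0)) μ :=
        hind.add (integrable_yw lam 0)
      apply integral_mono hadd (integrable_yw lam (-κ))
      intro t
      beta_reduce
      by_cases h : |t| ≤ T
      · rw [Set.indicator_of_mem (show t ∈ {t : ℝ | |t| ≤ T} from h)]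
        have h2 : |lam * t| ≤ 1 / 2 := by
          rw [abs_mul, abs_of_pos hlam]
          exact (mul_le_mul_of_nonneg_left h hlam.le).trans hlT
        rw [abs_le] at h2
        rw [yw_of_abs_le (v := lam * t - (-κ)) (by rw [abs_le]; constructor <;> linarith),
          yw_of_abs_le (v := lam * t - 0) (by rw [abs_le]; constructor <;> linarith)]
        linarith
      · rw [Set.indicator_of_notMem (show t ∉ {t : ℝ | |t| ≤ T} from h), zero_add]
        exact yw_mono (by linarith)
    rw [integral_add hind (integrable_yw lam 0)] at h1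
    unfold cf
    linarith

/-- existence of the centring -/
lemma exists_centre {lam T : ℝ} (hlam : 0 < lam) (hT : 1 / 2 ≤ μ.real {t | |t| ≤ T}) (hlT : lam * T ≤ 1 / 2)
    (hc : 2 * |cf μ lam 0| ≤ 1 / 2) : ∃ κ : ℝ, |κ| ≤ 2 * |cf μ lam 0| ∧ cf μ lam κ = 0 := by
  set κ1 := 2 * |cf μ lam 0| with hκ1
  have h0 : 0 ≤ κ1 := by positivity
  obtain ⟨h1, h2⟩ := cf_drop hlam hT hlT h0 hc
  have h3 : cf μ lam κ1 ≤ 0 := by
    have := le_abs_self (cf μ lam 0)
    linarith
  have h4 : 0 ≤ cf μ lam (-κ1) := by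
    have := neg_abs_le (cf μ lam 0)
    linarith
  have h5 : (0 : ℝ) ∈ Set.Icc (cf μ lam κ1) (cf μ lam (-κ1)) := ⟨h3, h4⟩
  have h6 := intermediate_value_Icc' (by linarith : -κ1 ≤ κ1) ((continuous_cf (μ := μ) lam).continuousOn) h5
  obtain ⟨κ, hκ, hκ0⟩ := h6
  exact ⟨κ, abs_le.mpr ⟨hκ.1, hκ.2⟩, hκ0⟩

lemma LB_Y2_le (hq : 0 < q) (hq2 : q ≤ 1 / 2) (hint : Integrable (fun t : ℝ => |t| ^ q) μ)
    {lam κ : ℝ} (hlam : 0 < lam) :
    LB μ lam κ ≤ rr μ lam + κ ^ 2 ∧ Real.log 2 * Y2 μ lam κ ≤ 2 * rr μ lam + 2 * κ ^ 2 := by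
  have h1 := integrable_rr hq hq2 hint hlam
  have h2 : Integrable (fun t => 2 * Real.log (1 + (lam * t) ^ 2) + 2 * κ ^ 2) μ :=
    (h1.const_mul 2).add (integrable_const _)
  have h3 : Integrable (fun t => Real.log (1 + (lam * t - κ) ^ 2)) μ := by
    have hm : Measurable (fun t : ℝ => Real.log (1 + (lam * t - κ) ^ 2)) := by fun_prop
    refine h2.mono' hm.aestronglyMeasurable (Filter.Eventually.of_forall (fun t => ?_))
    have h0 : 0 ≤ (lam * t - κ) ^ 2 := sq_nonneg _
    rw [Real.norm_eq_abs, abs_of_nonneg (Real.log_nonneg (by linarith))]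
    exact log_shift_le _ _
  have h4 : ∫ t, Real.log (1 + (lam * t - κ) ^ 2) ∂μ ≤ 2 * rr μ lam + 2 * κ ^ 2 := by
    have h5 : ∫ t, Real.log (1 + (lam * t - κ) ^ 2) ∂μ
        ≤ ∫ t, (2 * Real.log (1 + (lam * t) ^ 2) + 2 * κ ^ 2) ∂μ :=
      integral_mono h3 h2 (fun t => log_shift_le _ _)
    rw [integral_add (h1.const_mul 2) (integrable_const _), integral_const_mul] at h5
    simp only [integral_const, probReal_univ, smul_eq_mul, one_mul] at h5
    exact h5
  constructor
  · have h5 : Integrable (fun t => Real.log (max 1 |lam * t - κ|)) μ := by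
      have hm : Measurable (fun t : ℝ => Real.log (max 1 |lam * t - κ|)) := by fun_prop
      refine (h3.const_mul (1 / 2)).mono' hm.aestronglyMeasurable (Filter.Eventually.of_forall (fun t => ?_))
      rw [Real.norm_eq_abs, abs_of_nonneg (Real.log_nonneg (le_max_left _ _))]
      exact logmax_le _
    have h6 : LB μ lam κ ≤ ∫ t, 1 / 2 * Real.log (1 + (lam * t - κ) ^ 2) ∂μ :=
      integral_mono h5 (h3.const_mul _) (fun t => logmax_le _)
    rw [integral_const_mul] at h6
    linarith
  · have hm : Measurable (fun t : ℝ => yw (lam * t - κ)) := measurable_yw.comp (by fun_prop)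
    have hi2 : Integrable (fun t : ℝ => yw (lam * t - κ) ^ 2) μ := by
      apply Integrable.of_bound (hm.pow_const 2).aestronglyMeasurable 1
      exact Filter.Eventually.of_forall (fun t => by
        rw [Real.norm_eq_abs, abs_of_nonneg (sq_nonneg _), ← sq_abs]
        exact pow_le_one₀ (abs_nonneg _) (abs_yw_le _))
    have h5 : Real.log 2 * Y2 μ lam κ ≤ ∫ t, Real.log (1 + (lam * t - κ) ^ 2) ∂μ := by
      unfold Y2
      rw [← integral_const_mul]
      exact integral_mono (hi2.const_mul _) h3 (fun t => yw_sq_le _)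
    linarith

end

end Pool.Agent.Helper19
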