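import Pool.Agent.Helper19.AreaM

set_option autoImplicit false

open MeasureTheory Filter Topology Polynomial Real
open scoped ENNReal NNReal

namespace Pool.Agent.Helper19

section
variable {Ω : Type*} [MeasurableSpace Ω] {P : Measure Ω} [IsProbabilityMeasure P]
  {Q : Ω → ℂ[X]} {C : Ω → ℝ}

lemma measurable_gap (hCm : Measurable C) (hjoint : Measurable (fun p : Ω × ℂ => lp (Q p.1) p.2)) :
    Measurable (fun p : Ω × ℂ => ENNReal.ofReal (C p.1 - lp (Q p.1) p.2)) :=
  ((hCm.comp measurable_fst).sub hjoint).ennreal_ofReal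

/-- exchange of the circle integral and the expectation -/
lemma circ_exchange (hCm : Measurable C)
    (hjoint : Measurable (fun p : Ω × ℂ => lp (Q p.1) p.2))
    (hQ : ∀ ω, Q ω ≠ 0) {ρ : ℝ} (hρ : 0 < ρ) (c : ℂ)
    (hC : ∀ ω φ, lp (Q ω) (circleMap c ρ φ) ≤ C ω) :
    ∫⁻ φ in Set.Ioo (-π) π, (∫⁻ ω, ENNReal.ofReal (C ω - lp (Q ω) (circleMap c ρ φ)) ∂P)
      = ENNReal.ofReal (2 * π) * ∫⁻ ω, ENNReal.ofReal (C ω - cmn (Q ω) c ρ) ∂P := by
  have hm : Measurable (fun p : ℝ × Ω => ENNReal.ofReal (C p.2 - lp (Q p.2) (circleMap c ρ p.1))) := by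
    have h1 : Measurable (fun p : ℝ × Ω => (p.2, circleMap c ρ p.1)) :=
      measurable_snd.prodMk ((continuous_circleMap c ρ).measurable.comp measurable_fst)
    exact (measurable_gap hCm hjoint).comp h1
  rw [lintegral_lintegral_swap hm.aemeasurable]
  have h2 : ∀ ω, ∫⁻ φ in Set.Ioo (-π) π, ENNReal.ofReal (C ω - lp (Q ω) (circleMap c ρ φ))
      = ENNReal.ofReal (2 * π) * ENNReal.ofReal (C ω - cmn (Q ω) c ρ) := by
    intro ω
    rw [lint_circ (hQ ω) hρ (hC ω), ENNReal.ofReal_mul (by positivity)]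
  simp only [h2]
  rw [lintegral_const_mul']
  exact ENNReal.ofReal_ne_top

lemma ball_subset : Metric.ball (1 : ℂ) (1 / 2) ⊆ Metric.ball (0 : ℂ) 2 := by
  intro z hz
  rw [Metric.mem_ball, dist_eq_norm] at hz ⊢
  have h := norm_add_le (1 : ℂ) (z - 1)
  rw [add_sub_cancel, norm_one] at h
  rw [sub_zero]
  linarith

lemma vol_diff : volume (Metric.ball (0 : ℂ) 2 \ Metric.ball (1 : ℂ) (1 / 2))
    = ENNReal.ofReal (15 * π / 4) := by
  rw [measure_sdiff ball_subset Metric.isOpen_ball.measurableSet.nullMeasurableSet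
    (by rw [Complex.volume_ball]; exact ENNReal.mul_ne_top (by simp) (by simp)),
    Complex.volume_ball, Complex.volume_ball]
  have h1 : ENNReal.ofReal 2 ^ 2 * (NNReal.pi : ℝ≥0∞) = ENNReal.ofReal (4 * π) := by
    rw [← ENNReal.ofReal_pow (by norm_num), ENNReal.ofReal_mul (by norm_num),
      show ((2 : ℝ) ^ 2) = 4 by norm_num, ← NNReal.coe_real_pi, ENNReal.ofReal_coe_nnreal]
  have h2 : ENNReal.ofReal (1 / 2) ^ 2 * (NNReal.pi : ℝ≥0∞) = ENNReal.ofReal (π / 4) := by
    rw [← ENNReal.ofReal_pow (by norm_num), show π / 4 = (1 / 2) ^ 2 * π by ring,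
      ENNReal.ofReal_mul (by norm_num), ← NNReal.coe_real_pi, ENNReal.ofReal_coe_nnreal]
  rw [h1, h2, ← ENNReal.ofReal_sub _ (by positivity)]
  congr 1
  ring

/-- from the value at coupling `0` to couplings near `1` -/
theorem coupling (hCm : Measurable C) (hCi : Integrable C P)
    (hjoint : Measurable (fun p : Ω × ℂ => lp (Q p.1) p.2))
    (h0 : ∀ ω, (Q ω).eval 0 ≠ 0) {u0 : ℝ} (hu0 : ∀ ω, lp (Q ω) 0 = u0)
    (hC : ∀ ω z, ‖z‖ ≤ 2 → lp (Q ω) z ≤ C ω) {U : ℝ} (hU0 : u0 ≤ U)
    (hU : ∀ z : ℂ, ‖z‖ ≤ 2 → ENNReal.ofReal ((∫ ω, C ω ∂P) - U)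
      ≤ ∫⁻ ω, ENNReal.ofReal (C ω - lp (Q ω) z) ∂P)
    {l : ℝ} (hl : 0 < l) (hl2 : l < 1 / 2) :
    ∃ z : ℂ, ‖z - 1‖ = l ∧ ∫⁻ ω, ENNReal.ofReal (C ω - lp (Q ω) z) ∂P
      ≤ ENNReal.ofReal ((∫ ω, C ω ∂P) - u0 + 16 * (Real.log (1 / l) / Real.log 2) * (U - u0)) := by
  have hQ : ∀ ω, Q ω ≠ 0 := by
    intro ω h; have := h0 ω; rw [h] at this; simp at this
  set EC := ∫ ω, C ω ∂P with hEC
  set G : ℂ → ℝ≥0∞ := fun z => ∫⁻ ω, ENNReal.ofReal (C ω - lp (Q ω) z) ∂P with hG
  have hCu : ∀ ω, u0 ≤ C ω := fun ω => by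
    rw [← hu0 ω]; exact hC ω 0 (by simp)
  have hECu : u0 ≤ EC := by
    have h1 : ∫ _ω : Ω, u0 ∂P ≤ ∫ ω, C ω ∂P := integral_mono (integrable_const u0) hCi hCu
    simpa using h1
  have hgap := measurable_gap hCm hjoint
  have hgap2 : Measurable (fun p : ℂ × Ω => ENNReal.ofReal (C p.2 - lp (Q p.2) p.1)) :=
    hgap.comp measurable_swap
  have hGm : Measurable G := hgap2.lintegral_prod_right'
  have hlog2 : 0 < Real.log 2 := Real.log_pos (by norm_num)
  have hlogl : Real.log 2 < Real.log (1 / l) := by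
    apply Real.log_lt_log (by norm_num)
    rw [lt_div_iff₀ hl]; linarith
  set p := Real.log 2 / Real.log (1 / l) with hp
  have hp0 : 0 < p := div_pos hlog2 (hlog2.trans hlogl)
  have hp1 : p < 1 := (div_lt_one (hlog2.trans hlogl)).mpr hlogl
  set y := ∫⁻ ω, ENNReal.ofReal (C ω - cmn (Q ω) 1 l) ∂P with hy
  -- total mass
  have hA : ∫⁻ z in Metric.ball (0 : ℂ) 2, G z ≤ ENNReal.ofReal (4 * π * (EC - u0)) := by
    simp only [hG]
    rw [lintegral_lintegral_swap hgap2.aemeasurable]
    calc ∫⁻ ω, (∫⁻ z in Metric.ball (0 : ℂ) 2, ENNReal.ofReal (C ω - lp (Q ω) z)) ∂P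
        ≤ ∫⁻ ω, ENNReal.ofReal (4 * π * (C ω - u0)) ∂P := by
          apply lintegral_mono
          intro ω
          have := area_big (h0 ω) (hC ω)
          rwa [hu0 ω] at this
      _ = ENNReal.ofReal (4 * π * (EC - u0)) := by
          have hint : Integrable (fun ω => 4 * π * (C ω - u0)) P :=
            (hCi.sub (integrable_const u0)).const_mul (4 * π)
          rw [← ofReal_integral_eq_lintegral_ofReal hint
            (Filter.Eventually.of_forall (fun ω => by
              have := hCu ω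
              simp only [Pi.zero_apply]
              have hpi := Real.pi_pos
              have : 0 ≤ C ω - u0 := by linarith
              positivity))]
          congr 1
          rw [integral_const_mul, integral_sub hCi (integrable_const u0)]
          simp [hEC]
  -- splitting
  have hB : ENNReal.ofReal (15 * π / 4) * ENNReal.ofReal (EC - U)
      + ∫⁻ z in Metric.ball (1 : ℂ) (1 / 2), G z ≤ ∫⁻ z in Metric.ball (0 : ℂ) 2, G z := by
    have hdec : Metric.ball (0 : ℂ) 2 = (Metric.ball (0 : ℂ) 2 \ Metric.ball (1 : ℂ) (1 / 2))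
        ∪ Metric.ball (1 : ℂ) (1 / 2) := (Set.sdiff_union_of_subset ball_subset).symm
    rw [hdec, lintegral_union Metric.isOpen_ball.measurableSet Set.disjoint_sdiff_left]
    gcongr
    rw [mul_comm, ← vol_diff, ← setLIntegral_const]
    apply setLIntegral_mono' (Metric.isOpen_ball.measurableSet.diff Metric.isOpen_ball.measurableSet)
    intro z hz
    apply hU
    have h2 := hz.1
    rw [Metric.mem_ball, dist_eq_norm, sub_zero] at h2
    exact h2.le
  have hCc : ENNReal.ofReal (π / 4) * ∫⁻ ω, ENNReal.ofReal (C ω - cmn (Q ω) 1 (1 / 2)) ∂P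
      ≤ ∫⁻ z in Metric.ball (1 : ℂ) (1 / 2), G z := by
    simp only [hG]
    rw [lintegral_lintegral_swap hgap2.aemeasurable, ← lintegral_const_mul' _ _ ENNReal.ofReal_ne_top]
    apply lintegral_mono
    intro ω
    have := area_small (hQ ω) (hC ω)
    rwa [ENNReal.ofReal_mul (by positivity)] at this
  -- circles inside the large disc
  have hcirc : ∀ ρ : ℝ, 0 < ρ → ρ ≤ 1 → ∀ ω φ, lp (Q ω) (circleMap 1 ρ φ) ≤ C ω := by
    intro ρ hρ hρ1 ω φ
    apply hC
    have h := norm_add_le (1 : ℂ) (circleMap 1 ρ φ - 1)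
    rw [add_sub_cancel, norm_one, circleMap_sub_center, norm_circleMap_zero, abs_of_pos hρ] at h
    linarith
  have hcm : ∀ ρ : ℝ, 0 < ρ → ρ ≤ 1 → ∀ ω, cmn (Q ω) 1 ρ ≤ C ω := by
    intro ρ hρ hρ1 ω
    obtain ⟨h1, h2⟩ := circ_poly (hQ ω) 1 hρ
    rw [← h2]
    apply circleAverage_mono_on_of_le_circle h1
    intro x hx
    apply hC
    rw [abs_of_pos hρ, mem_sphere_iff_norm] at hx
    have h := norm_add_le (1 : ℂ) (x - 1)
    rw [add_sub_cancel, norm_one, hx] at h
    linarith
  have hD : ENNReal.ofReal p * y + ENNReal.ofReal (1 - p) * ENNReal.ofReal (EC - U)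
      ≤ ∫⁻ ω, ENNReal.ofReal (C ω - cmn (Q ω) 1 (1 / 2)) ∂P := by
    have hone : ENNReal.ofReal (EC - U) ≤ ∫⁻ ω, ENNReal.ofReal (C ω - cmn (Q ω) 1 1) ∂P := by
      have h1 := circ_exchange (P := P) hCm hjoint hQ one_pos 1 (hcirc 1 one_pos le_rfl)
      have h2 : ENNReal.ofReal (2 * π) * ENNReal.ofReal (EC - U)
          ≤ ∫⁻ φ in Set.Ioo (-π) π, (∫⁻ ω, ENNReal.ofReal (C ω - lp (Q ω) (circleMap 1 1 φ)) ∂P) := by
        rw [mul_comm, ← volume_Ioo_pi, ← setLIntegral_const]
        apply setLIntegral_mono' measurableSet_Ioo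
        intro φ _
        apply hU
        have h := norm_add_le (1 : ℂ) (circleMap 1 1 φ - 1)
        rw [add_sub_cancel, norm_one, circleMap_sub_center, norm_circleMap_zero, abs_one] at h
        linarith
      rw [h1] at h2
      have hpi : ENNReal.ofReal (2 * π) ≠ 0 := by
        rw [ne_eq, ENNReal.ofReal_eq_zero, not_le]; positivity
      exact (ENNReal.mul_le_mul_iff_right hpi ENNReal.ofReal_ne_top).mp h2
    calc ENNReal.ofReal p * y + ENNReal.ofReal (1 - p) * ENNReal.ofReal (EC - U)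
        ≤ ENNReal.ofReal p * y + ENNReal.ofReal (1 - p)
          * ∫⁻ ω, ENNReal.ofReal (C ω - cmn (Q ω) 1 1) ∂P := by gcongr
      _ ≤ ∫⁻ ω, (ENNReal.ofReal p * ENNReal.ofReal (C ω - cmn (Q ω) 1 l)
          + ENNReal.ofReal (1 - p) * ENNReal.ofReal (C ω - cmn (Q ω) 1 1)) ∂P := by
          rw [hy, ← lintegral_const_mul' _ _ ENNReal.ofReal_ne_top,
            ← lintegral_const_mul' _ _ ENNReal.ofReal_ne_top]
          exact le_lintegral_add _ _
      _ ≤ ∫⁻ ω, ENNReal.ofReal (C ω - cmn (Q ω) 1 (1 / 2)) ∂P := by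
          apply lintegral_mono
          intro ω
          have a1 := hcm l hl (by linarith) ω
          have a2 := hcm 1 one_pos le_rfl ω
          beta_reduce
          rw [← ENNReal.ofReal_mul hp0.le, ← ENNReal.ofReal_mul (by linarith),
            ← ENNReal.ofReal_add (mul_nonneg hp0.le (by linarith))
              (mul_nonneg (by linarith) (by linarith))]
          apply ENNReal.ofReal_le_ofReal
          have h3 := cmn_convex (Q ω) 1 (R0 := 1 / 2) (R1 := l) (R2 := 1) (p := p) hl one_pos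
            (by norm_num) hp0.le hp1.le (by
              rw [Real.log_one, mul_zero, add_zero, hp]
              have e1 : Real.log (1 / 2) = -Real.log 2 := by rw [one_div, Real.log_inv]
              have e2 : Real.log (1 / l) = -Real.log l := by rw [one_div, Real.log_inv]
              have e3 : Real.log (1 / l) ≠ 0 := (hlog2.trans hlogl).ne'
              rw [e1, ← neg_eq_iff_eq_neg.mpr e2]
              field_simp)
          linarith
  -- combine
  have hfin : ENNReal.ofReal (4 * π * (EC - u0)) ≠ ⊤ := ENNReal.ofReal_ne_top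
  have hall : ENNReal.ofReal (15 * π / 4) * ENNReal.ofReal (EC - U)
      + ENNReal.ofReal (π / 4) * (ENNReal.ofReal p * y
        + ENNReal.ofReal (1 - p) * ENNReal.ofReal (EC - U)) ≤ ENNReal.ofReal (4 * π * (EC - u0)) := by
    refine le_trans ?_ hA
    refine le_trans ?_ hB
    gcongr
    refine le_trans ?_ hCc
    gcongr
  have hyfin : y ≠ ⊤ := by
    intro h
    rw [h, ENNReal.mul_top (by rw [ne_eq, ENNReal.ofReal_eq_zero, not_le]; exact hp0), top_add,
      ENNReal.mul_top (by rw [ne_eq, ENNReal.ofReal_eq_zero, not_le]; positivity), add_top] at hall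
    exact hfin (top_le_iff.mp hall)
  set T := EC - u0 + 16 * (Real.log (1 / l) / Real.log 2) * (U - u0) with hT
  have hyT : y ≤ ENNReal.ofReal T := by
    rw [← ENNReal.ofReal_toReal hyfin] at hall ⊢
    apply ENNReal.ofReal_le_ofReal
    set yr := y.toReal with hyr
    have hyr0 : 0 ≤ yr := ENNReal.toReal_nonneg
    set e := max (EC - U) 0 with he
    have he0 : 0 ≤ e := le_max_right _ _
    have he1 : ENNReal.ofReal (EC - U) = ENNReal.ofReal e := by
      rw [he]
      rcases le_total 0 (EC - U) with h | h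
      · rw [max_eq_left h]
      · rw [max_eq_right h, ENNReal.ofReal_of_nonpos h, ENNReal.ofReal_zero]
    have hpi := Real.pi_pos
    rw [he1, ← ENNReal.ofReal_mul (by positivity), ← ENNReal.ofReal_mul hp0.le,
      ← ENNReal.ofReal_mul (by linarith), ← ENNReal.ofReal_add (by positivity)
        (mul_nonneg (by linarith) he0), ← ENNReal.ofReal_mul (by positivity),
      ← ENNReal.ofReal_add (by positivity) (mul_nonneg (by positivity)
        (add_nonneg (by positivity) (mul_nonneg (by linarith) he0)))] at hall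
    have h4 : 0 ≤ 4 * π * (EC - u0) := by
      have : 0 ≤ EC - u0 := by linarith
      positivity
    rw [ENNReal.ofReal_le_ofReal_iff h4] at hall
    -- divide by pi/4
    have h5 : 15 * e + (p * yr + (1 - p) * e) ≤ 16 * (EC - u0) := by
      have h6 : (π / 4) * (15 * e + (p * yr + (1 - p) * e)) ≤ (π / 4) * (16 * (EC - u0)) := by
        linarith
      exact le_of_mul_le_mul_left h6 (by positivity)
    have hinv : Real.log (1 / l) / Real.log 2 = p⁻¹ := by rw [hp, inv_div]
    rw [hT, hinv]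
    have h7 : p * yr ≤ p * (EC - u0 + 16 * p⁻¹ * (U - u0)) := by
      have h8 : p * (EC - u0 + 16 * p⁻¹ * (U - u0)) = p * (EC - u0) + 16 * (U - u0) := by
        field_simp
      rw [h8]
      rcases le_total 0 (EC - U) with h | h
      · have : e = EC - U := max_eq_left h
        rw [this] at h5
        nlinarith
      · have : e = 0 := max_eq_right h
        rw [this] at h5
        nlinarith
    exact le_of_mul_le_mul_left h7 hp0
  -- choose the angle
  have hex := circ_exchange (P := P) hCm hjoint hQ hl 1 (hcirc l hl (by linarith))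
  have hvol0 : volume (Set.Ioo (-π) π) ≠ 0 := by
    rw [volume_Ioo_pi, ne_eq, ENNReal.ofReal_eq_zero, not_le]; positivity
  have hvol1 : volume (Set.Ioo (-π) π) ≠ ⊤ := by
    rw [volume_Ioo_pi]; exact ENNReal.ofReal_ne_top
  have hgm : Measurable (fun φ : ℝ => G (circleMap 1 l φ)) :=
    hGm.comp (continuous_circleMap 1 l).measurable
  obtain ⟨φ, _, hφ⟩ := exists_le_setLAverage (μ := volume) (s := Set.Ioo (-π) π) hvol0 hvol1
    hgm.aemeasurable
  refine ⟨circleMap 1 l φ, ?_, ?_⟩
  · rw [circleMap_sub_center, norm_circleMap_zero, abs_of_pos hl]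
  · refine le_trans hφ ?_
    rw [setLAverage_eq, hex, volume_Ioo_pi, ← hy]
    refine le_trans ?_ hyT
    rw [mul_comm, mul_div_assoc, ENNReal.div_self, mul_one]
    · rw [ne_eq, ENNReal.ofReal_eq_zero, not_le]; positivity
    · exact ENNReal.ofReal_ne_top

end

end Pool.Agent.Helper19
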