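import Pool.Agent.Helper19.Flat
import Pool.Agent.Helper19.Cpl

set_option autoImplicit false

open MeasureTheory Filter Topology Matrix Polynomial
open scoped ENNReal NNReal Real

namespace Pool.Agent.Helper19

set_option linter.unusedSectionVars false

lemma ofReal_integral_le {Ω : Type*} [MeasurableSpace Ω] {P : Measure Ω} {f : Ω → ℝ}
    (hf : Integrable f P) : ENNReal.ofReal (∫ x, f x ∂P) ≤ ∫⁻ x, ENNReal.ofReal (f x) ∂P := by
  rw [integral_eq_lintegral_pos_part_sub_lintegral_neg_part hf]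
  have h1 : ∫⁻ x, ENNReal.ofReal (f x) ∂P ≠ ∞ := hf.lintegral_lt_top.ne
  calc ENNReal.ofReal ((∫⁻ x, ENNReal.ofReal (f x) ∂P).toReal - (∫⁻ x, ENNReal.ofReal (-f x) ∂P).toReal)
      ≤ ENNReal.ofReal ((∫⁻ x, ENNReal.ofReal (f x) ∂P).toReal) := by
        apply ENNReal.ofReal_le_ofReal
        have : 0 ≤ (∫⁻ x, ENNReal.ofReal (-f x) ∂P).toReal := ENNReal.toReal_nonneg
        linarith
    _ = _ := ENNReal.ofReal_toReal h1

section
variable {ι : Type*} [Fintype ι] [DecidableEq ι]

/-- polynomial matrix -/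
noncomputable def QM (M0 : Matrix ι ι ℂ) (s : ι → Site) (V : Site → ℝ) : Matrix ι ι ℂ[X] :=
  fun p q => Polynomial.C (M0 p q)
    + if p = q then Polynomial.X * Polynomial.C ((V (s p) : ℝ) : ℂ) else 0

/-- the determinant as a polynomial in the coupling -/
noncomputable def QP (M0 : Matrix ι ι ℂ) (s : ι → Site) (V : Site → ℝ) : ℂ[X] := (QM M0 s V).det

lemma QP_eval (M0 : Matrix ι ι ℂ) (s : ι → Site) (V : Site → ℝ) (z : ℂ) :
    (QP M0 s V).eval z = (GM M0 (fun _ => z) s (fun x => ((V x : ℝ) : ℂ))).det := by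
  unfold QP
  rw [← Polynomial.coe_evalRingHom, RingHom.map_det]
  congr 1
  ext p q
  rw [RingHom.mapMatrix_apply, Matrix.map_apply]
  unfold GM QM
  by_cases h : p = q
  · subst h
    rw [if_pos rfl, if_pos rfl, Polynomial.coe_evalRingHom, Polynomial.eval_add, Polynomial.eval_mul,
      Polynomial.eval_X, Polynomial.eval_C, Polynomial.eval_C]
  · simp [h]

lemma GM_scale (M0 : Matrix ι ι ℂ) (s : ι → Site) (v : Site → ℂ) (z : ℂ) :
    GM M0 (fun _ => z) s v = GM M0 (fun _ => 1) s (fun x => z * v x) := by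
  ext p q
  unfold GM
  by_cases h : p = q
  · simp [h]
  · simp [h]

/-- crude bound constant -/
noncomputable def Bc (M0 : Matrix ι ι ℂ) (s : ι → Site) (hs : Function.Injective s) : ℝ :=
  (GM_maff M0 (fun _ => 1) hs).choose

/-- crude bound -/
noncomputable def Cb (M0 : Matrix ι ι ℂ) (s : ι → Site) (hs : Function.Injective s) (V : Site → ℝ) : ℝ :=
  Bc M0 s hs + ∑ p, Real.log (1 + 2 * |V (s p)|)

lemma lp_QP_le (M0 : Matrix ι ι ℂ) {s : ι → Site} (hs : Function.Injective s) (V : Site → ℝ) {z : ℂ}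
    (hz : ‖z‖ ≤ 2) : lp (QP M0 s V) z ≤ Cb M0 s hs V := by
  obtain ⟨h0, hP⟩ := (GM_maff M0 (fun _ => 1) hs).choose_spec
  obtain ⟨_, _, h3, _⟩ := hP
  have h4 := h3 (fun x => z * ((V x : ℝ) : ℂ))
  beta_reduce at h4
  rw [Finset.prod_image (fun x _ y _ h => hs h)] at h4
  have hpos : ∀ p, (0 : ℝ) < 1 + 2 * |V (s p)| := fun p => by positivity
  have h5 : ‖(GM M0 (fun _ => 1) s (fun x => z * ((V x : ℝ) : ℂ))).det‖
      ≤ Real.exp (Bc M0 s hs) * ∏ p, (1 + 2 * |V (s p)|) := by
    refine h4.trans ?_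
    apply mul_le_mul_of_nonneg_left _ (Real.exp_pos _).le
    apply Finset.prod_le_prod (fun p _ => by positivity)
    intro p _
    rw [norm_mul, Complex.norm_real, Real.norm_eq_abs]
    have := mul_le_mul_of_nonneg_right hz (abs_nonneg (V (s p)))
    linarith
  unfold lp Cb
  rw [QP_eval, GM_scale]
  have hprod : 0 < ∏ p, (1 + 2 * |V (s p)|) := Finset.prod_pos (fun p _ => hpos p)
  by_cases hd : (GM M0 (fun _ => 1) s (fun x => z * ((V x : ℝ) : ℂ))).det = 0
  · rw [hd, norm_zero, Real.log_zero]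
    apply add_nonneg h0
    apply Finset.sum_nonneg
    intro p _
    apply Real.log_nonneg
    have := abs_nonneg (V (s p))
    linarith
  · have h6 := Real.log_le_log (norm_pos_iff.mpr hd) h5
    rwa [Real.log_mul (Real.exp_pos _).ne' hprod.ne', Real.log_exp,
      Real.log_prod (fun p _ => (hpos p).ne')] at h6

lemma continuous_QP_joint (M0 : Matrix ι ι ℂ) (s : ι → Site) (lam kap : ℝ) :
    Continuous (fun p : (Site → ℝ) × ℂ =>
      (GM M0 (fun _ => p.2) s (fun x => ((pot lam kap p.1 x : ℝ) : ℂ))).det) := by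
  apply Continuous.matrix_det
  apply continuous_matrix
  intro p q
  unfold GM pot
  apply continuous_const.add
  by_cases h : p = q
  · simp only [if_pos h]
    apply Continuous.mul continuous_snd
    apply Complex.continuous_ofReal.comp
    fun_prop
  · simp only [if_neg h]; exact continuous_const

lemma measurable_joint (M0 : Matrix ι ι ℂ) (s : ι → Site) (lam kap : ℝ) :
    Measurable (fun p : (Site → ℝ) × ℂ => lp (QP M0 s (pot lam kap p.1)) p.2) := by
  unfold lp
  simp only [QP_eval]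
  exact Real.measurable_log.comp (continuous_QP_joint M0 s lam kap).measurable.norm

/-- integrability of logarithmic moments -/
lemma integrable_log_of_rpow {μ : Measure ℝ} [IsProbabilityMeasure μ] {lam kap q : ℝ} (hq : 0 < q)
    (hq2 : q ≤ 1 / 2) (hint : Integrable (fun t => |lam * t - kap| ^ q) μ) {b : ℝ} (hb : 0 ≤ b) :
    Integrable (fun t => Real.log (1 + b * |lam * t - kap|)) μ := by
  have hm : Measurable (fun t : ℝ => Real.log (1 + b * |lam * t - kap|)) := by fun_prop
  refine Integrable.mono' ((hint.const_mul (b ^ q)).div_const q) hm.aestronglyMeasurable ?_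
  refine Filter.Eventually.of_forall (fun t => ?_)
  have h0 : 0 ≤ b * |lam * t - kap| := by positivity
  rw [Real.norm_eq_abs, abs_of_nonneg (Real.log_nonneg (by linarith))]
  have h1 := log_one_add_le_rpow h0 hq (by linarith)
  rwa [Real.mul_rpow hb (abs_nonneg _)] at h1

lemma integrable_logmax {μ : Measure ℝ} [IsProbabilityMeasure μ] {lam kap q : ℝ} (hq : 0 < q)
    (hq2 : q ≤ 1 / 2) (hint : Integrable (fun t => |lam * t - kap| ^ q) μ) :
    Integrable (fun t => Real.log (max 1 |lam * t - kap|)) μ := by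
  have hm : Measurable (fun t : ℝ => Real.log (max 1 |lam * t - kap|)) := by fun_prop
  refine Integrable.mono' (integrable_log_of_rpow hq hq2 hint (b := 1) (by norm_num))
    hm.aestronglyMeasurable ?_
  refine Filter.Eventually.of_forall (fun t => ?_)
  rw [Real.norm_eq_abs, abs_of_nonneg (Real.log_nonneg (le_max_left _ _))]
  apply Real.log_le_log (by positivity)
  have := abs_nonneg (lam * t - kap)
  apply max_le <;> linarith

/-- integrals of functions of one site -/
lemma integrable_site {μ : Measure ℝ} [IsProbabilityMeasure μ] {f : ℝ → ℝ} (hf : Integrable f μ)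
    (x : Site) : Integrable (fun w : Site → ℝ => f (w x)) (iid Site μ) ∧
      ∫ w, f (w x) ∂(iid Site μ) = ∫ t, f t ∂μ := by
  have hmp : MeasurePreserving (fun w : Site → ℝ => w x) (iid Site μ) μ :=
    measurePreserving_eval_infinitePi (fun _ => μ) x
  exact ⟨hmp.integrable_comp_of_integrable hf, by
    have := integral_map hmp.measurable.aemeasurable (f := f) (by rw [hmp.map_eq]; exact hf.1)
    rw [hmp.map_eq] at this
    exact this.symm⟩

lemma integrable_Cb {μ : Measure ℝ} [IsProbabilityMeasure μ] {lam kap q : ℝ} (hq : 0 < q)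
    (hq2 : q ≤ 1 / 2) (hint : Integrable (fun t => |lam * t - kap| ^ q) μ)
    (M0 : Matrix ι ι ℂ) {s : ι → Site} (hs : Function.Injective s) :
    Integrable (fun w : Site → ℝ => Cb M0 s hs (pot lam kap w)) (iid Site μ) := by
  unfold Cb pot
  apply (integrable_const _).add
  apply integrable_finsetSum
  intro p _
  exact (integrable_site (f := fun t => Real.log (1 + 2 * |lam * t - kap|))
    (integrable_log_of_rpow hq hq2 hint (by norm_num)) (s p)).1

/-- upper bound function for the logarithm of the determinant -/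
noncomputable def UBf (F : Matrix ι ι ℂ) (m : ι → ℂ) (s : ι → Site) (η : ℝ) (z : ℂ) (V : Site → ℝ) : ℝ :=
  ∑ k, Real.log (‖m k‖ + η) + ∑ p, Real.log (max 1 |V (s p)|)
        + (fro (SC F m s η z V) - Fintype.card ι) / 2

/-- upper bound for the expectation -/
noncomputable def UBe (μ : Measure ℝ) (lam kap : ℝ) (m : ι → ℂ) (η A : ℝ) : ℝ :=
  ∑ k, Real.log (‖m k‖ + η) + Fintype.card ι * (LB μ lam kap + Y2 μ lam kap * (16 * A + 4 * A ^ 2))

lemma exp_UBf {μ : Measure ℝ} [IsProbabilityMeasure μ] {lam kap q : ℝ} (hq : 0 < q)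
    (hq2 : q ≤ 1 / 2) (hint : Integrable (fun t => |lam * t - kap| ^ q) μ)
    (hy0 : ∫ t, yw (lam * t - kap) ∂μ = 0) {F : Matrix ι ι ℂ} (hF : Fᴴ * F = 1)
    (hflat : ∀ p k, ‖F p k‖ ^ 2 = (Fintype.card ι : ℝ)⁻¹) {m : ι → ℂ} (hm : ∀ k, ‖m k‖ ≤ 16)
    {s : ι → Site} (hs : Function.Injective s) {η : ℝ} (hη : 0 < η) {z : ℂ} (hz : ‖z‖ ≤ 2)
    (hn : 0 < Fintype.card ι) {A : ℝ} (hA : ∑ k, (‖m k‖ + η)⁻¹ = Fintype.card ι * A) :
    Integrable (fun w : Site → ℝ => UBf F m s η z (pot lam kap w)) (iid Site μ) ∧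
    ∫ w, UBf F m s η z (pot lam kap w) ∂(iid Site μ) ≤ UBe μ lam kap m η A := by
  obtain ⟨h1, h2⟩ := exp_fro_SC (μ := μ) hy0 hF hflat hm hs hη hz hn hA
  have h3 : ∀ p, Integrable (fun w : Site → ℝ => Real.log (max 1 |pot lam kap w (s p)|)) (iid Site μ) :=
    fun p => (integrable_site (integrable_logmax hq hq2 hint) (s p)).1
  have h3' : ∀ p, ∫ w, Real.log (max 1 |pot lam kap w (s p)|) ∂(iid Site μ) = LB μ lam kap :=
    fun p => (integrable_site (integrable_logmax hq hq2 hint) (s p)).2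
  have h4 : Integrable (fun w : Site → ℝ => ∑ p, Real.log (max 1 |pot lam kap w (s p)|)) (iid Site μ) :=
    integrable_finsetSum _ (fun p _ => h3 p)
  have h5 : Integrable (fun w : Site → ℝ => ∑ k, Real.log (‖m k‖ + η)
      + ∑ p, Real.log (max 1 |pot lam kap w (s p)|)) (iid Site μ) := (integrable_const _).add h4
  have h6 : Integrable (fun w : Site → ℝ => (fro (SC F m s η z (pot lam kap w)) - Fintype.card ι) / 2)
      (iid Site μ) := (h1.sub (integrable_const _)).div_const 2
  refine ⟨h5.add h6, ?_⟩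
  unfold UBf UBe
  rw [integral_add h5 h6, integral_add (integrable_const _) h4, integral_finsetSum _ (fun p _ => h3 p),
    integral_div, integral_sub h1 (integrable_const _)]
  simp only [h3', integral_const, probReal_univ, smul_eq_mul, one_mul, Finset.sum_const,
    Finset.card_univ, nsmul_eq_mul]
  linarith

/-- lower bound for the expectation at coupling one -/
theorem lower_tw {μ : Measure ℝ} [IsProbabilityMeasure μ] {M : ℝ≥0} (hM : μ ≤ M • volume)
    {lam kap : ℝ} (hlam : 0 < lam) {q : ℝ} (hq : 0 < q)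
    (hq2 : q ≤ 1 / 2) (hint : Integrable (fun t => |lam * t - kap| ^ q) μ)
    (hy0 : ∫ t, yw (lam * t - kap) ∂μ = 0) {F : Matrix ι ι ℂ} (hF : Fᴴ * F = 1)
    (hflat : ∀ p k, ‖F p k‖ ^ 2 = (Fintype.card ι : ℝ)⁻¹) {m : ι → ℂ} (hm : ∀ k, ‖m k‖ ≤ 16)
    (hm0 : ∀ k, m k ≠ 0)
    {s : ι → Site} (hs : Function.Injective s) {η : ℝ} (hη : 0 < η)
    (hn : 0 < Fintype.card ι) {A : ℝ} (hA : ∑ k, (‖m k‖ + η)⁻¹ = Fintype.card ι * A)
    {l : ℝ} (hl : 0 < l) (hl2 : l < 1 / 2) :
    (∀ᵐ w ∂(iid Site μ), (GM (FD F m) (fun _ => 1) s (fun x => ((pot lam kap w x : ℝ) : ℂ))).det ≠ 0) ∧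
    Integrable (fun w : Site → ℝ =>
      Real.log ‖(GM (FD F m) (fun _ => 1) s (fun x => ((pot lam kap w x : ℝ) : ℂ))).det‖) (iid Site μ) ∧
    ∑ k, Real.log ‖m k‖ - 16 * (Real.log (1 / l) / Real.log 2) *
        (UBe μ lam kap m η A - ∑ k, Real.log ‖m k‖) - Fintype.card ι * E1 μ M lam kap q l
      ≤ ∫ w, Real.log ‖(GM (FD F m) (fun _ => 1) s
        (fun x => ((pot lam kap w x : ℝ) : ℂ))).det‖ ∂(iid Site μ) := by
  have hac : μ ≪ volume :=
    (Measure.absolutelyContinuous_of_le hM).trans (Measure.smul_absolutelyContinuous)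
  have hdetm : (FD F m).det ≠ 0 := by
    rw [← norm_pos_iff, norm_det_FD hF]
    exact Finset.prod_pos (fun k _ => norm_pos_iff.mpr (hm0 k))
  set u0 : ℝ := ∑ k, Real.log ‖m k‖ with hu0def
  set U : ℝ := UBe μ lam kap m η A with hUdef
  have hae : ∀ z : ℂ, ∀ᵐ w ∂(iid Site μ),
      (GM (FD F m) (fun _ => z) s (fun x => ((pot lam kap w x : ℝ) : ℂ))).det ≠ 0 := by
    intro z
    exact ae_DD_ne_zero hac hlam hdetm hs Finset.univ (fun _ => z) (fun p hp => absurd (Finset.mem_univ p) hp)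
  have hA0 : 0 ≤ A := by
    have h9 : 0 ≤ ∑ k, (‖m k‖ + η)⁻¹ := Finset.sum_nonneg (fun k _ => by positivity)
    rw [hA] at h9
    have hn' : (0 : ℝ) < Fintype.card ι := by exact_mod_cast hn
    exact nonneg_of_mul_nonneg_right h9 hn'
  have hCi := integrable_Cb hq hq2 hint (FD F m) hs
  set Cw : (Site → ℝ) → ℝ := fun w => Cb (FD F m) s hs (pot lam kap w) with hCw
  have hCm : Measurable Cw := by
    simp only [hCw]
    unfold Cb pot
    fun_prop
  have hev0 : ∀ w : Site → ℝ, (GM (FD F m) (fun _ => 0) s (fun x => ((pot lam kap w x : ℝ) : ℂ))) = FD F m := by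
    intro w
    ext p r
    unfold GM
    simp
  have h0 : ∀ w : Site → ℝ, (QP (FD F m) s (pot lam kap w)).eval 0 ≠ 0 := by
    intro w
    rw [QP_eval, hev0]
    exact hdetm
  have hu0 : ∀ w : Site → ℝ, lp (QP (FD F m) s (pot lam kap w)) 0 = u0 := by
    intro w
    unfold lp
    rw [QP_eval, hev0, norm_det_FD hF, Real.log_prod (fun k _ => (norm_pos_iff.mpr (hm0 k)).ne')]
  have hU0 : u0 ≤ U := by
    rw [hUdef, hu0def]
    unfold UBe
    have h1 : ∑ k, Real.log ‖m k‖ ≤ ∑ k, Real.log (‖m k‖ + η) :=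
      Finset.sum_le_sum (fun k _ => Real.log_le_log (norm_pos_iff.mpr (hm0 k)) (by linarith))
    have h2 : 0 ≤ (Fintype.card ι : ℝ) * (LB μ lam kap + Y2 μ lam kap * (16 * A + 4 * A ^ 2)) := by
      have := LB_nonneg μ lam kap
      have := Y2_nonneg μ lam kap
      positivity
    linarith
  have hU : ∀ z : ℂ, ‖z‖ ≤ 2 → ENNReal.ofReal ((∫ w, Cw w ∂(iid Site μ)) - U)
      ≤ ∫⁻ w, ENNReal.ofReal (Cw w - lp (QP (FD F m) s (pot lam kap w)) z) ∂(iid Site μ) := by
    intro z hz
    obtain ⟨h1, h2⟩ := exp_UBf (μ := μ) hq hq2 hint hy0 hF hflat hm hs hη hz hn hA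
    calc ENNReal.ofReal ((∫ w, Cw w ∂(iid Site μ)) - U)
        ≤ ENNReal.ofReal (∫ w, (Cw w - UBf F m s η z (pot lam kap w)) ∂(iid Site μ)) := by
          apply ENNReal.ofReal_le_ofReal
          rw [integral_sub hCi h1]
          linarith
      _ ≤ ∫⁻ w, ENNReal.ofReal (Cw w - UBf F m s η z (pot lam kap w)) ∂(iid Site μ) :=
          ofReal_integral_le (hCi.sub h1)
      _ ≤ _ := by
          apply lintegral_mono_ae
          filter_upwards [hae z] with w hw
          apply ENNReal.ofReal_le_ofReal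
          have h3 := log_det_GM hF m s hη z (pot lam kap w) hw
          have h4 : lp (QP (FD F m) s (pot lam kap w)) z ≤ UBf F m s η z (pot lam kap w) := by
            unfold lp
            rw [QP_eval]
            exact h3
          linarith
  obtain ⟨z0, hz0, hcpl⟩ := coupling (P := iid Site μ) (Q := fun w => QP (FD F m) s (pot lam kap w))
    (C := Cw) hCm hCi (measurable_joint (FD F m) s lam kap) h0 hu0
    (fun w z hz => lp_QP_le (FD F m) hs (pot lam kap w) hz) hU0 hU hl hl2
  have hrep := replace_all hM hlam hq hq2 hint hl (by linarith) hz0.le (FD F m) hs Finset.univ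
  have e1 : ∀ w, DD (FD F m) s lam kap (ct z0 ∅) w
      = (GM (FD F m) (fun _ => z0) s (fun x => ((pot lam kap w x : ℝ) : ℂ))).det := by
    intro w
    unfold DD ct
    simp
  have e2 : ∀ w, DD (FD F m) s lam kap (ct z0 Finset.univ) w
      = (GM (FD F m) (fun _ => 1) s (fun x => ((pot lam kap w x : ℝ) : ℂ))).det := by
    intro w
    unfold DD ct
    simp
  simp only [e1, e2] at hrep
  set f1 : (Site → ℝ) → ℝ := fun w => Real.log ‖(GM (FD F m) (fun _ => 1) s
        (fun x => ((pot lam kap w x : ℝ) : ℂ))).det‖ with hf1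
  set f0 : (Site → ℝ) → ℝ := fun w => Real.log ‖(GM (FD F m) (fun _ => z0) s
        (fun x => ((pot lam kap w x : ℝ) : ℂ))).det‖ with hf0
  have hmf : ∀ z : ℂ, Measurable (fun w : Site → ℝ => Real.log ‖(GM (FD F m) (fun _ => z) s
        (fun x => ((pot lam kap w x : ℝ) : ℂ))).det‖) := fun z =>
    Real.measurable_log.comp (continuous_DD (FD F m) s lam kap (fun _ => z)).measurable.norm
  set EC := ∫ w, Cw w ∂(iid Site μ) with hEC
  set G := 16 * (Real.log (1 / l) / Real.log 2) * (U - u0) with hG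
  set E := (Fintype.card ι : ℝ) * E1 μ M lam kap q l with hE
  have hcpl' : ∫⁻ w, ENNReal.ofReal (Cw w - f0 w) ∂(iid Site μ) ≤ ENNReal.ofReal (EC - u0 + G) := by
    refine le_trans (le_of_eq ?_) hcpl
    congr 1
    funext w
    unfold lp
    rw [QP_eval]
  have hE0 : 0 ≤ E1 μ M lam kap q l := E1_nonneg M.2 hlam hq hl.le
  have hrep' : ∫⁻ w, ENNReal.ofReal (f0 w - f1 w) ∂(iid Site μ) ≤ ENNReal.ofReal E := by
    refine hrep.trans (le_of_eq ?_)
    rw [hE, ENNReal.ofReal_mul (by positivity), Finset.card_univ, ENNReal.ofReal_natCast]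
  have hlog2 : 0 < Real.log 2 := Real.log_pos (by norm_num)
  have hlogl : 0 < Real.log (1 / l) := by
    apply Real.log_pos
    rw [lt_div_iff₀ hl]; linarith
  have hG0 : 0 ≤ G := by
    rw [hG]
    have : 0 ≤ U - u0 := by linarith
    positivity
  have hECu : u0 ≤ EC := by
    have h1 : ∫ _w : Site → ℝ, u0 ∂(iid Site μ) ≤ EC := by
      apply integral_mono (integrable_const u0) hCi
      intro w
      beta_reduce
      rw [← hu0 w]
      exact lp_QP_le (FD F m) hs (pot lam kap w) (by simp)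
    simpa using h1
  have hE' : 0 ≤ E := by positivity
  have htot : ∫⁻ w, ENNReal.ofReal (Cw w - f1 w) ∂(iid Site μ) ≤ ENNReal.ofReal (EC - u0 + G + E) := by
    calc ∫⁻ w, ENNReal.ofReal (Cw w - f1 w) ∂(iid Site μ)
        ≤ ∫⁻ w, (ENNReal.ofReal (Cw w - f0 w) + ENNReal.ofReal (f0 w - f1 w)) ∂(iid Site μ) := by
          apply lintegral_mono
          intro w
          beta_reduce
          rw [show Cw w - f1 w = (Cw w - f0 w) + (f0 w - f1 w) by ring]
          exact ENNReal.ofReal_add_le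
      _ = (∫⁻ w, ENNReal.ofReal (Cw w - f0 w) ∂(iid Site μ))
          + ∫⁻ w, ENNReal.ofReal (f0 w - f1 w) ∂(iid Site μ) := by
          rw [lintegral_add_left]
          exact ENNReal.measurable_ofReal.comp (hCm.sub (hmf z0))
      _ ≤ ENNReal.ofReal (EC - u0 + G) + ENNReal.ofReal E := add_le_add hcpl' hrep'
      _ = _ := by rw [← ENNReal.ofReal_add (by linarith) hE']
  have hle : ∀ w, f1 w ≤ Cw w := by
    intro w
    have := lp_QP_le (FD F m) hs (pot lam kap w) (z := 1) (by simp)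
    unfold lp at this
    rwa [QP_eval] at this
  have hid : Integrable (fun w => Cw w - f1 w) (iid Site μ) := by
    refine ⟨(hCm.sub (hmf 1)).aestronglyMeasurable, ?_⟩
    rw [hasFiniteIntegral_iff_ofReal (Filter.Eventually.of_forall (fun w => by
      have := hle w; simp only [Pi.zero_apply]; linarith))]
    exact htot.trans_lt ENNReal.ofReal_lt_top
  have hi1 : Integrable f1 (iid Site μ) := by
    have := hCi.sub hid
    refine this.congr (Filter.Eventually.of_forall (fun w => ?_))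
    simp only [Pi.sub_apply]
    ring
  refine ⟨hae 1, hi1, ?_⟩
  have h5 : ∫ w, (Cw w - f1 w) ∂(iid Site μ) ≤ EC - u0 + G + E := by
    have hm5 : Measurable (fun w => Cw w - f1 w) := hCm.sub (hmf 1)
    have hn5 : 0 ≤ᵐ[iid Site μ] fun w => Cw w - f1 w := Filter.Eventually.of_forall (fun w => by
      have := hle w; simp only [Pi.zero_apply]; linarith)
    rw [integral_eq_lintegral_of_nonneg_ae hn5 hm5.aestronglyMeasurable]
    apply ENNReal.toReal_le_of_le_ofReal _ htot
    linarith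
  rw [integral_sub hCi hi1] at h5
  linarith

end

end Pool.Agent.Helper19
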