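import Mathlib

set_option autoImplicit false

open MeasureTheory Filter Topology Matrix
open scoped ENNReal NNReal ComplexOrder

namespace Pool.Agent.Helper19

variable {ι : Type*} [Fintype ι] [DecidableEq ι]

/-- squared Frobenius norm -/
noncomputable def fro (C : Matrix ι ι ℂ) : ℝ := ∑ i, ∑ j, ‖C i j‖ ^ 2

lemma fro_nonneg (C : Matrix ι ι ℂ) : 0 ≤ fro C := by
  unfold fro; positivity

lemma trace_conj_mul (C : Matrix ι ι ℂ) : (Cᴴ * C).trace = (fro C : ℂ) := by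
  unfold fro
  rw [Matrix.trace, Finset.sum_comm]
  push_cast
  apply Finset.sum_congr rfl
  intro i _
  rw [Matrix.diag_apply, Matrix.mul_apply]
  apply Finset.sum_congr rfl
  intro j _
  rw [Matrix.conjTranspose_apply, RCLike.star_def, ← Complex.normSq_eq_conj_mul_self,
    Complex.normSq_eq_norm_sq]
  push_cast; rfl

/-- `|det C|^2 ≤ exp (‖C‖_F^2 - n)` -/
lemma det_sq_le_exp (C : Matrix ι ι ℂ) :
    ‖C.det‖ ^ 2 ≤ Real.exp (fro C - Fintype.card ι) := by
  have hP : (Cᴴ * C).PosSemidef := Matrix.posSemidef_conjTranspose_mul_self C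
  have hH := hP.isHermitian
  have h1 : (Cᴴ * C).det = ∏ i, (hH.eigenvalues i : ℂ) := hH.det_eq_prod_eigenvalues
  have h2 : (Cᴴ * C).trace = ∑ i, (hH.eigenvalues i : ℂ) := hH.trace_eq_sum_eigenvalues
  have h3 : fro C = ∑ i, hH.eigenvalues i := by
    have := (trace_conj_mul C).symm.trans h2
    exact_mod_cast this
  have h4 : ‖C.det‖ ^ 2 = ∏ i, hH.eigenvalues i := by
    have : ((‖C.det‖ ^ 2 : ℝ) : ℂ) = ∏ i, (hH.eigenvalues i : ℂ) := by
      rw [← h1, Matrix.det_mul, Matrix.det_conjTranspose, RCLike.star_def,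
        ← Complex.normSq_eq_conj_mul_self, Complex.normSq_eq_norm_sq]
    exact_mod_cast this
  rw [h4, h3]
  have h5 : ∏ i, hH.eigenvalues i ≤ ∏ i, Real.exp (hH.eigenvalues i - 1) := by
    apply Finset.prod_le_prod (fun i _ => hP.eigenvalues_nonneg i)
    intro i _
    have := Real.add_one_le_exp (hH.eigenvalues i - 1)
    linarith
  refine h5.trans_eq ?_
  rw [← Real.exp_sum, Finset.sum_sub_distrib]
  simp

lemma log_det_le (C : Matrix ι ι ℂ) (h : C.det ≠ 0) :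
    Real.log ‖C.det‖ ≤ (fro C - Fintype.card ι) / 2 := by
  have h1 := det_sq_le_exp C
  have h2 : 0 < ‖C.det‖ := norm_pos_iff.mpr h
  have h3 := Real.log_le_log (by positivity) h1
  rw [Real.log_exp, Real.log_pow] at h3
  push_cast at h3
  linarith

/-- Hadamard's inequality for columns -/
lemma hadamard (X : Matrix ι ι ℂ) (ρ : ι → ℝ) (hρ : ∀ j, 0 < ρ j)
    (h : ∀ j, ∑ i, ‖X i j‖ ^ 2 ≤ ρ j ^ 2) : ‖X.det‖ ≤ ∏ j, ρ j := by
  set C : Matrix ι ι ℂ := fun i j => ((ρ j)⁻¹ : ℂ) * X i j with hC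
  have hdet : C.det = (∏ j, ((ρ j)⁻¹ : ℂ)) * X.det := Matrix.det_mul_row _ X
  have hfro : fro C ≤ Fintype.card ι := by
    unfold fro
    rw [Finset.sum_comm]
    have : ∀ j, ∑ i, ‖C i j‖ ^ 2 ≤ 1 := by
      intro j
      have : ∀ i, ‖C i j‖ ^ 2 = (ρ j)⁻¹ ^ 2 * ‖X i j‖ ^ 2 := by
        intro i
        rw [hC]
        simp only [norm_mul, norm_inv, Complex.norm_real, Real.norm_eq_abs, abs_of_pos (hρ j), mul_pow]
      rw [Finset.sum_congr rfl (fun i _ => this i), ← Finset.mul_sum]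
      have h1 := h j
      have h2 := hρ j
      rw [inv_pow, inv_mul_le_iff₀ (by positivity), mul_one]
      exact h1
    calc ∑ j, ∑ i, ‖C i j‖ ^ 2 ≤ ∑ j : ι, (1 : ℝ) := Finset.sum_le_sum (fun j _ => this j)
      _ = Fintype.card ι := by simp
  have h1 := det_sq_le_exp C
  have h2 : ‖C.det‖ ^ 2 ≤ 1 := h1.trans (by
    rw [← Real.exp_zero]; apply Real.exp_le_exp.mpr; linarith)
  have h3 : ‖C.det‖ ≤ 1 := by
    by_contra hcon
    rw [not_le] at hcon
    nlinarith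
  rw [hdet, norm_mul, norm_prod] at h3
  have h4 : ∏ j, ‖((ρ j)⁻¹ : ℂ)‖ = (∏ j, ρ j)⁻¹ := by
    rw [← Finset.prod_inv_distrib]
    apply Finset.prod_congr rfl
    intro j _
    rw [norm_inv, Complex.norm_real, Real.norm_eq_abs, abs_of_pos (hρ j)]
  rw [h4, inv_mul_le_iff₀ (Finset.prod_pos (fun j _ => hρ j)), mul_one] at h3
  exact h3

end Pool.Agent.Helper19
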