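import Pool.Agent.Helper19.CMat
import Pool.Agent.Helper19.Lower

set_option autoImplicit false

open MeasureTheory Filter Topology Matrix
open scoped ENNReal NNReal Real

namespace Pool.Agent.Helper19

set_option linter.unusedSectionVars false

section
variable {ι : Type*} [Fintype ι] [DecidableEq ι]

/-- adjacency matrix of the sites, with a minus sign -/
noncomputable def NA (s : ι → Site) : Matrix ι ι ℂ :=
  fun p q => -∑ d ∈ dirs, if s q = s p + d then 1 else 0

lemma NA_symm (s : ι → Site) (p q : ι) : NA s p q = NA s q p := by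
  unfold NA
  congr 1
  refine Finset.sum_nbij' (fun d => -d) (fun d => -d) (fun d hd => neg_mem_dirs hd)
    (fun d hd => neg_mem_dirs hd) (fun d _ => neg_neg d) (fun d _ => neg_neg d) ?_
  intro d _
  have : (s q = s p + d) ↔ (s p = s q + -d) := by
    constructor
    · intro h; rw [h]; abel
    · intro h; rw [h]; abel
  simp only [this]

lemma NA_hermitian (s : ι → Site) : (NA s).IsHermitian := by
  ext p q
  rw [Matrix.conjTranspose_apply, NA_symm s p q]
  unfold NA
  rw [star_neg, star_sum]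
  congr 1
  apply Finset.sum_congr rfl
  intro d _
  split_ifs <;> simp

lemma CM_symm (s : ι → Site) (v : Site → ℂ) : (CM (NA s) s v)ᵀ = CM (NA s) s v := by
  ext p q
  rw [Matrix.transpose_apply]
  unfold CM
  rw [NA_symm s p q]
  congr 1
  by_cases h : p = q
  · subst h; rfl
  · rw [if_neg h, if_neg (Ne.symm h)]

open Classical in
/-- boundary term -/
noncomputable def bdy (s : ι → Site) (u : Site → ℂ) (p : ι) : ℂ :=
  ∑ d ∈ dirs, (if ∃ q, s q = s p + d then 0 else u (s p + d))

lemma CM_mulVec {s : ι → Site} (hs : Function.Injective s) (v : Site → ℂ) {u f : Site → ℂ}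
    (h : ∀ x, v x * u x - adj u x = f x) (p : ι) :
    (CM (NA s) s v).mulVec (fun q => u (s q)) p = f (s p) + bdy s u p := by
  classical
  have h1 : (CM (NA s) s v).mulVec (fun q => u (s q)) p
      = v (s p) * u (s p) - ∑ d ∈ dirs, (if ∃ q, s q = s p + d then u (s p + d) else 0) := by
    unfold CM NA Matrix.mulVec dotProduct
    simp only [add_mul, Finset.sum_add_distrib, ite_mul, zero_mul, neg_mul, Finset.sum_mul, one_mul,
      Finset.sum_neg_distrib]
    rw [add_comm, sub_eq_add_neg]
    congr 1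
    · simp
    · congr 1
      rw [Finset.sum_comm]
      apply Finset.sum_congr rfl
      intro d _
      by_cases h : ∃ q, s q = s p + d
      · rw [if_pos h]
        obtain ⟨q0, hq0⟩ := h
        rw [Finset.sum_eq_single q0]
        · rw [if_pos hq0, hq0]
        · intro q _ hq
          rw [if_neg]
          intro h2
          exact hq (hs (h2.trans hq0.symm))
        · intro h2; exact absurd (Finset.mem_univ _) h2
      · rw [if_neg h]
        apply Finset.sum_eq_zero
        intro q _
        rw [if_neg (fun h2 => h ⟨q, h2⟩)]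
  rw [h1, ← h (s p), adj_eq_sum]
  unfold bdy
  rw [sub_add, ← Finset.sum_sub_distrib]
  congr 1
  apply Finset.sum_congr rfl
  intro d _
  split_ifs <;> simp

/-- columns of the inverse -/
lemma inv_col {s : ι → Site} (hs : Function.Injective s) {v : Site → ℂ}
    (hdet : (CM (NA s) s v).det ≠ 0) {u : Site → ℂ} {o : ι}
    (h : ∀ x, v x * u x - adj u x = dl (s o) x) (p : ι) :
    (CM (NA s) s v)⁻¹ p o = u (s p) - ∑ q, (CM (NA s) s v)⁻¹ p q * bdy s u q := by
  classical
  set A := CM (NA s) s v with hA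
  have hGA : A⁻¹ * A = 1 := Matrix.nonsing_inv_mul A (isUnit_iff_ne_zero.mpr hdet)
  have h1 : A.mulVec (fun q => u (s q)) = fun p => (if p = o then (1 : ℂ) else 0) + bdy s u p := by
    funext p
    rw [hA, CM_mulVec hs v h p, dl_apply]
    simp only [hs.eq_iff]
  have h2 : A⁻¹.mulVec (A.mulVec (fun q => u (s q))) = fun q => u (s q) := by
    rw [Matrix.mulVec_mulVec, hGA, Matrix.one_mulVec]
  rw [h1] at h2
  have h3 := congrFun h2 p
  rw [Matrix.mulVec, dotProduct] at h3
  simp only [mul_add, Finset.sum_add_distrib, mul_ite, mul_one, mul_zero, Finset.sum_ite_eq',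
    Finset.mem_univ, if_true] at h3
  rw [← h3]; ring

/-- homogeneous solutions are determined by boundary values -/
lemma inv_hom {s : ι → Site} (hs : Function.Injective s) {v : Site → ℂ}
    (hdet : (CM (NA s) s v).det ≠ 0) {u : Site → ℂ}
    (h : ∀ x, v x * u x - adj u x = 0) (p : ι) :
    u (s p) = ∑ q, (CM (NA s) s v)⁻¹ p q * bdy s u q := by
  set A := CM (NA s) s v with hA
  have hGA : A⁻¹ * A = 1 := Matrix.nonsing_inv_mul A (isUnit_iff_ne_zero.mpr hdet)
  have h1 : A.mulVec (fun q => u (s q)) = fun p => bdy s u p := by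
    funext p
    have := CM_mulVec hs v (f := 0) (fun x => by rw [h x]; rfl) p
    rw [hA, this]
    simp
  have h2 : A⁻¹.mulVec (A.mulVec (fun q => u (s q))) = fun q => u (s q) := by
    rw [Matrix.mulVec_mulVec, hGA, Matrix.one_mulVec]
  rw [h1] at h2
  have h3 := congrFun h2 p
  rw [Matrix.mulVec, dotProduct] at h3
  exact h3.symm

end

/-- the diamond -/
noncomputable def dmd (R : ℕ) : Finset Site :=
  ((Finset.Icc (-(R : ℤ)) R) ×ˢ (Finset.Icc (-(R : ℤ)) R)).filter (fun x => |x.1| + |x.2| ≤ R)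

lemma mem_dmd {R : ℕ} {x : Site} : x ∈ dmd R ↔ nrm x ≤ R := by
  unfold dmd nrm
  rw [Finset.mem_filter, Finset.mem_product, Finset.mem_Icc, Finset.mem_Icc]
  constructor
  · rintro ⟨_, h⟩
    exact_mod_cast h
  · intro h
    have h1 : |x.1| + |x.2| ≤ (R : ℤ) := by exact_mod_cast h
    have a1 := abs_nonneg x.1
    have a2 := abs_nonneg x.2
    have a3 := le_abs_self x.1
    have a4 := neg_abs_le x.1
    have a5 := le_abs_self x.2
    have a6 := neg_abs_le x.2
    refine ⟨⟨⟨by omega, by omega⟩, ⟨by omega, by omega⟩⟩, h1⟩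

lemma card_dmd_le (R : ℕ) : (dmd R).card ≤ (2 * R + 1) ^ 2 := by
  unfold dmd
  refine (Finset.card_filter_le _ _).trans ?_
  rw [Finset.card_product, Int.card_Icc]
  have : ((R : ℤ) + 1 - -(R : ℤ)).toNat = 2 * R + 1 := by omega
  rw [this, sq]

lemma nrm_dir {d : Site} (h : d ∈ dirs) : nrm d = 1 := by
  simp only [dirs, Finset.mem_insert, Finset.mem_singleton] at h
  rcases h with rfl | rfl | rfl | rfl <;> simp [nrm]

/-- boundary sites lie at distance `R` -/
lemma dmd_bdy {R : ℕ} {p : ↥(dmd R)} {d : Site} (hd : d ∈ dirs)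
    (h : ¬ ∃ q : ↥(dmd R), (q : Site) = (p : Site) + d) :
    (R : ℝ) + 1 ≤ nrm ((p : Site) + d) ∧ nrm ((p : Site) + d) ≤ R + 1 ∧ (R : ℝ) ≤ nrm (p : Site) := by
  have h1 : ¬ ((p : Site) + d ∈ dmd R) := fun h2 => h ⟨⟨_, h2⟩, rfl⟩
  rw [mem_dmd, not_le] at h1
  have h2 : (R : ℝ) + 1 ≤ nrm ((p : Site) + d) := by
    unfold nrm at h1 ⊢
    have : (R : ℤ) < |((p : Site) + d).1| + |((p : Site) + d).2| := by exact_mod_cast h1
    have h3 : (R : ℤ) + 1 ≤ |((p : Site) + d).1| + |((p : Site) + d).2| := this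
    exact_mod_cast h3
  have h3 := nrm_add_le (p : Site) d
  rw [nrm_dir hd] at h3
  have h4 := mem_dmd.mp p.2
  exact ⟨h2, by linarith, by linarith⟩

end Pool.Agent.Helper19
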