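import Pool.Agent.Helper19.StepE
import Pool.Agent.Helper19.Ana2

set_option autoImplicit false

open MeasureTheory Filter Topology Matrix
open scoped ENNReal NNReal Real

namespace Pool.Agent.Helper19

set_option linter.unusedSectionVars false

section
variable {ι : Type*} [Fintype ι] [DecidableEq ι] {N L : ℕ} [NeZero N] [NeZero L]

lemma chi_natCast (a : ℕ) : chi ((a : ℕ) : ZMod N) = Complex.exp (((2 * π * a / N : ℝ) : ℂ) * Complex.I) := by
  unfold chi
  have h := ZMod.stdAddChar_coe (N := N) (a : ℤ)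
  rw [Int.cast_natCast] at h
  rw [h]
  congr 1
  push_cast
  ring

lemma chi_neg_natCast (a : ℕ) : chi (-((a : ℕ) : ZMod N))
    = Complex.exp (-(((2 * π * a / N : ℝ) : ℂ) * Complex.I)) := by
  have h1 : chi (-((a : ℕ) : ZMod N)) * chi ((a : ℕ) : ZMod N) = 1 := by
    rw [← chi_add, neg_add_cancel, chi_zero]
  rw [chi_natCast] at h1
  have h2 : Complex.exp (-(((2 * π * a / N : ℝ) : ℂ) * Complex.I))
      * Complex.exp (((2 * π * a / N : ℝ) : ℂ) * Complex.I) = 1 := by
    rw [← Complex.exp_add, neg_add_cancel, Complex.exp_zero]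
  exact mul_right_cancel₀ (Complex.exp_ne_zero _) (h1.trans h2.symm)

/-- sums over the torus -/
lemma sum_torus {s : ι → Site} (hs : Function.Injective s) (hb : ∀ p, InBox N L (s p))
    (hc : Fintype.card ι = N * L) (g θ e : ℝ) (f : ℝ → ℝ) :
    ∑ k : ι, f ‖sy N L (Complex.exp ((g : ℂ) + ((θ / N : ℝ) : ℂ) * Complex.I)) s k - e‖
      = ∑ a ∈ Finset.range N, ∑ b ∈ Finset.range L,
        f ‖mz g (e + 2 * Real.cos (2 * π * b / L)) ((θ + 2 * π * a) / N)‖ := by
  have hbij := zab_bijective (N := N) (L := L) hs hb hc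
  set G : ZMod N × ZMod L → ℝ := fun xy => f ‖-(Complex.exp ((g : ℂ) + ((θ / N : ℝ) : ℂ) * Complex.I) * chi xy.1
    + (Complex.exp ((g : ℂ) + ((θ / N : ℝ) : ℂ) * Complex.I))⁻¹ * chi (-xy.1) + (chi xy.2 + chi (-xy.2))) - e‖
    with hG
  have h1 : ∑ k : ι, f ‖sy N L (Complex.exp ((g : ℂ) + ((θ / N : ℝ) : ℂ) * Complex.I)) s k - e‖
      = ∑ xy : ZMod N × ZMod L, G xy := by
    rw [← Function.Bijective.sum_comp hbij G]
    rfl
  rw [h1, Fintype.sum_prod_type, ← Equiv.sum_comp (zq (L := N)), Finset.sum_range]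
  apply Finset.sum_congr rfl
  intro a _
  rw [← Equiv.sum_comp (zq (L := L)), Finset.sum_range]
  apply Finset.sum_congr rfl
  intro b _
  simp only [hG, zq_apply]
  congr 1
  rw [← norm_neg (mz _ _ _)]
  congr 1
  rw [chi_natCast, chi_natCast, chi_neg_natCast, chi_neg_natCast, ← Complex.exp_neg, ← Complex.exp_add,
    ← Complex.exp_add]
  unfold mz
  have hN : (N : ℂ) ≠ 0 := by exact_mod_cast NeZero.ne N
  have e1 : (g : ℂ) + ((θ / N : ℝ) : ℂ) * Complex.I + ((2 * π * (a : ℕ) / N : ℝ) : ℂ) * Complex.I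
      = (g : ℂ) + (((θ + 2 * π * (a : ℕ)) / N : ℝ) : ℂ) * Complex.I := by
    push_cast
    field_simp
    ring
  have e2 : -((g : ℂ) + ((θ / N : ℝ) : ℂ) * Complex.I) + -(((2 * π * (a : ℕ) / N : ℝ) : ℂ) * Complex.I)
      = -((g : ℂ) + (((θ + 2 * π * (a : ℕ)) / N : ℝ) : ℂ) * Complex.I) := by
    rw [← e1]; ring
  have e3 : Complex.exp (((2 * π * (b : ℕ) / L : ℝ) : ℂ) * Complex.I)
      + Complex.exp (-(((2 * π * (b : ℕ) / L : ℝ) : ℂ) * Complex.I))
      = ((2 * Real.cos (2 * π * (b : ℕ) / L) : ℝ) : ℂ) := by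
    rw [Complex.ofReal_mul, Complex.ofReal_cos, Complex.cos]
    push_cast
    ring
  rw [e1, e2, e3]
  push_cast
  ring

end

/-- counting -/
lemma cnt_ge {e a : ℝ} (ha : 0 < a) (he : |e| ≤ 4 - a) {L : ℕ} (hL : 0 < L) :
    (L : ℝ) * Real.sqrt a / (2 * π) - 1 ≤
      ∑ b ∈ Finset.range L, (if |e + 2 * Real.cos (2 * π * b / L)| ≤ 2 then (1 : ℝ) else 0) := by
  have hπ := Real.pi_pos
  have hπ3 := Real.pi_gt_three
  have hL' : (0 : ℝ) < L := by exact_mod_cast hL
  have ha4 : a ≤ 4 := by
    have := abs_nonneg e; linarith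
  set r := Real.sqrt a with hr
  have hr0 : 0 < r := Real.sqrt_pos.mpr ha
  have hr2 : r ^ 2 = a := Real.sq_sqrt ha.le
  have hr22 : r ≤ 2 := by nlinarith
  set m := ⌊(L : ℝ) * r / (2 * π)⌋₊ with hm
  have hm1 : (L : ℝ) * r / (2 * π) - 1 ≤ m := by
    have := Nat.lt_floor_add_one ((L : ℝ) * r / (2 * π))
    rw [← hm] at this
    linarith
  have hm2 : (m : ℝ) ≤ (L : ℝ) * r / (2 * π) := Nat.floor_le (by positivity)
  refine hm1.trans ?_
  -- an injection
  obtain ⟨c0, hc0⟩ : ∃ c0 : ℕ, ∀ i < m, c0 + i < L ∧ |e + 2 * Real.cos (2 * π * ((c0 + i : ℕ) : ℝ) / L)| ≤ 2 := by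
    rcases le_total 0 e with h0 | h0
    · rw [abs_of_nonneg h0] at he
      refine ⟨(L + 1) / 2, fun i hi => ?_⟩
      set b := (L + 1) / 2 + i with hb
      have hb1 : L ≤ 2 * ((L + 1) / 2) := by omega
      have hb2 : 2 * ((L + 1) / 2) ≤ L + 1 := by omega
      have h1 : (L : ℝ) ≤ 2 * (b : ℝ) - 2 * i := by
        have : L ≤ 2 * b - 2 * i := by omega
        have h2 : L + 2 * i ≤ 2 * b := by omega
        have h3 : ((L + 2 * i : ℕ) : ℝ) ≤ ((2 * b : ℕ) : ℝ) := by exact_mod_cast h2
        push_cast at h3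
        linarith
      have h2 : 2 * (b : ℝ) - 2 * i ≤ L + 1 := by
        have h2 : 2 * b ≤ L + 1 + 2 * i := by omega
        have h3 : ((2 * b : ℕ) : ℝ) ≤ ((L + 1 + 2 * i : ℕ) : ℝ) := by exact_mod_cast h2
        push_cast at h3
        linarith
      have him : (i : ℝ) + 1 ≤ m := by exact_mod_cast hi
      have hmr : (m : ℝ) * (2 * π) ≤ L * r := by
        rwa [le_div_iff₀ (by positivity)] at hm2
      set t := 2 * π * (b : ℝ) / L - π with ht
      have htL : t * L = 2 * π * b - π * L := by rw [ht]; field_simp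
      have hi0 : (0 : ℝ) ≤ i := Nat.cast_nonneg _
      have ht0 : 0 ≤ t := by
        have : 0 ≤ t * L := by rw [htL]; nlinarith
        exact nonneg_of_mul_nonneg_left this hL'
      have htr : t ≤ r := by
        have : t * L ≤ r * L := by rw [htL]; nlinarith
        exact le_of_mul_le_mul_right this hL'
      constructor
      · have : (b : ℝ) < L := by
          have h3 : t * L < π * L := mul_lt_mul_of_pos_right (by linarith) hL'
          rw [htL] at h3
          nlinarith
        exact_mod_cast this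
      · have h3 : 2 * π * ((b : ℕ) : ℝ) / L = t + π := by rw [ht]; ring
        rw [h3, Real.cos_add_pi]
        have h4 := Real.one_sub_sq_div_two_le_cos (x := t)
        have h5 := Real.cos_le_one t
        rw [abs_le]
        constructor
        · linarith
        · nlinarith
    · rw [abs_of_nonpos h0] at he
      refine ⟨0, fun i hi => ?_⟩
      rw [zero_add]
      have him : (i : ℝ) + 1 ≤ m := by exact_mod_cast hi
      have hmr : (m : ℝ) * (2 * π) ≤ L * r := by
        rwa [le_div_iff₀ (by positivity)] at hm2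
      have hi0 : (0 : ℝ) ≤ i := Nat.cast_nonneg _
      set t := 2 * π * (i : ℝ) / L with ht
      have htL : t * L = 2 * π * i := by rw [ht]; field_simp
      have ht0 : 0 ≤ t := by positivity
      have htr : t ≤ r := by
        have : t * L ≤ r * L := by rw [htL]; nlinarith
        exact le_of_mul_le_mul_right this hL'
      constructor
      · have : (i : ℝ) < L := by
          nlinarith
        exact_mod_cast this
      · have h4 := Real.one_sub_sq_div_two_le_cos (x := t)
        have h5 := Real.cos_le_one t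
        rw [abs_le]
        constructor
        · nlinarith
        · linarith
  rw [← Finset.sum_filter, Finset.sum_const, nsmul_eq_mul, mul_one, Nat.cast_le]
  have h1 : (Finset.range m).image (fun i => c0 + i) ⊆
      (Finset.range L).filter (fun b : ℕ => |e + 2 * Real.cos (2 * π * (b : ℝ) / L)| ≤ 2) := by
    intro b hb
    rw [Finset.mem_image] at hb
    obtain ⟨i, hi, rfl⟩ := hb
    rw [Finset.mem_range] at hi
    rw [Finset.mem_filter, Finset.mem_range]
    exact hc0 i hi
  have h2 := Finset.card_le_card h1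
  rwa [Finset.card_image_of_injective _ (fun x y h => by simpa using h), Finset.card_range] at h2

end Pool.Agent.Helper19
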