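import Pool.Agent.Helper19.Fin1

set_option autoImplicit false

open MeasureTheory Filter Topology Matrix
open scoped ENNReal NNReal Real

namespace Pool.Agent.Helper19

set_option linter.unusedSectionVars false

/-- grid energies -/
noncomputable def bb (e : ℝ) (L b : ℕ) : ℝ := e + 2 * Real.cos (2 * π * b / L)
/-- grid angles -/
noncomputable def pp (θ : ℝ) (N a : ℕ) : ℝ := (θ + 2 * π * a) / N
/-- bound of the averaged inverse symbol -/
noncomputable def AA (η : ℝ) : ℝ := 40 * Real.log (3 / η) ^ 2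
/-- disorder term -/
noncomputable def RR (μ : Measure ℝ) (lam kap η : ℝ) : ℝ :=
  LB μ lam kap + Y2 μ lam kap * (16 * AA η + 4 * AA η ^ 2)
/-- coupling loss -/
noncomputable def CL (l : ℝ) : ℝ := 16 * (Real.log (1 / l) / Real.log 2)
/-- remainder -/
noncomputable def ST (μ : Measure ℝ) (M lam kap e g m k : ℝ) (j L : ℕ) : ℝ :=
  (L : ℝ) / 2 * (4 * WZ M lam ((2 * j + 4 : ℕ) * L) + LV μ lam kap e
        + Real.log (32 * L) + Real.log (WG j L k))
        + g * (2 * j + 4 : ℕ) * (2 * (j + 1) + L * (1 - (iid Site μ).real (CS lam kap e m k 0)))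

lemma AA_nonneg (η : ℝ) : 0 ≤ AA η := by unfold AA; positivity

lemma CL_nonneg {l : ℝ} (hl : 0 < l) (hl2 : l < 1 / 2) : 0 ≤ CL l := by
  unfold CL
  have h1 : 0 < Real.log 2 := Real.log_pos (by norm_num)
  have h2 : 0 < Real.log (1 / l) := by
    apply Real.log_pos
    rw [lt_div_iff₀ hl]; linarith
  positivity

lemma abs_bb_le {e : ℝ} (he : |e| ≤ 4) (L b : ℕ) : |bb e L b| ≤ 6 := by
  unfold bb
  have h1 := Real.abs_cos_le_one (2 * π * b / L)
  refine (abs_add_le _ _).trans ?_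
  rw [abs_mul, abs_two]
  linarith

/-- averages of the inverse symbol -/
lemma avg_inv {N L : ℕ} (g θ e : ℝ) (hg : 0 ≤ g) (hg1 : g ≤ 1) {η : ℝ} (hη : 0 < η) (hη1 : η ≤ 1)
    (hN : 16 / η ^ 2 ≤ N) (hL : 16 / η ^ 2 ≤ L) :
    ∑ a ∈ Finset.range N, ∑ b ∈ Finset.range L, (‖mz g (bb e L b) (pp θ N a)‖ + η)⁻¹
      ≤ N * L * AA η := by
  have hc1 : 1 ≤ Real.cosh g := Real.one_le_cosh g
  have hc2 : Real.cosh g ≤ 2 := by
    rw [Real.cosh_eq]
    have h1 : Real.exp g ≤ 3 := by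
      have := Real.exp_one_lt_d9
      have := Real.exp_le_exp.mpr hg1
      linarith
    have h2 : Real.exp (-g) ≤ 1 := Real.exp_le_one_iff.mpr (by linarith)
    linarith
  have h1 := double_bound (e := e) hη hη1 hc1 hc2 hN hL (θ / N)
  refine le_trans ?_ h1
  apply Finset.sum_le_sum
  intro a _
  apply Finset.sum_le_sum
  intro b _
  apply inv_anti₀ (by positivity)
  have h2 := abs_re_le_mz g (bb e L b) (pp θ N a)
  have e1 : pp θ N a = θ / N + 2 * π * a / N := by unfold pp; ring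
  rw [e1] at h2 ⊢
  unfold bb at h2 ⊢
  linarith

section
variable {μ : Measure ℝ} [IsProbabilityMeasure μ] {M : ℝ≥0} {lam kap q : ℝ}

/-- the inequality for a fixed twist angle -/
theorem fixed_theta (hM : μ ≤ M • volume) (hlam : 0 < lam) (hq : 0 < q) (hq2 : q ≤ 1 / 2)
    (hint : Integrable (fun t => |lam * t - kap| ^ q) μ)
    (hy0 : ∫ t, yw (lam * t - kap) ∂μ = 0) {e : ℝ} (he : |e| ≤ 4) {g : ℝ} (hg : 0 < g) (hg1 : g ≤ 1)
    {j L : ℕ} {m : ℝ} (hm : 0 ≤ m) (hgm : g * (2 * j + 4 : ℕ) ≤ m * (j + 1 : ℕ)) (hL : 2 * (j + 1) < L)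
    {η : ℝ} (hη : 0 < η) (hη1 : η ≤ 1) (hN' : 16 / η ^ 2 ≤ (2 * j + 4 : ℕ)) (hL' : 16 / η ^ 2 ≤ L)
    {l : ℝ} (hl : 0 < l) (hl2 : l < 1 / 2) (k : ℝ) {θ : ℝ} (hθ : θ ∈ Set.Ioo 0 (2 * π)) (hθπ : θ ≠ π) :
    ∑ a ∈ Finset.range (2 * j + 4), ∑ b ∈ Finset.range L,
      (lp (PQ (bb e L b)) (Complex.exp ((g : ℂ) + pp θ (2 * j + 4) a * Complex.I)) - g)
    ≤ ∑ a ∈ Finset.range (2 * j + 4), ∑ b ∈ Finset.range L,
      (lp (PQ (bb e L b)) (Complex.exp (((0 : ℝ) : ℂ) + pp θ (2 * j + 4) a * Complex.I))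
        + Real.log (1 + η / ‖mz 0 (bb e L b) (pp θ (2 * j + 4) a)‖))
      + CL l * ∑ a ∈ Finset.range (2 * j + 4), ∑ b ∈ Finset.range L,
        Real.log (1 + η / ‖mz g (bb e L b) (pp θ (2 * j + 4) a)‖)
      + ((2 * j + 4 : ℕ) * L) * ((CL l + 1) * RR μ lam kap η + E1 μ M lam kap q l)
      + ST μ M lam kap e g m k j L := by
  set N : ℕ := 2 * j + 4 with hNdef
  have hNpos : 0 < N := by omega
  have hLpos : 0 < L := by omega
  have : NeZero N := ⟨by omega⟩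
  have : NeZero L := ⟨by omega⟩
  have hNr : (0 : ℝ) < N := by exact_mod_cast hNpos
  have hLr : (0 : ℝ) < L := by exact_mod_cast hLpos
  set s := s0 j L with hsdef
  have hs : Function.Injective s := s0_injective j L
  have hb : ∀ p, InBox N L (s p) := s0_inBox j L
  have hc : Fintype.card (((Fin (j + 2) × Fin L) ⊕ (Fin (j + 1) × Fin L)) ⊕ Fin L) = N * L := s0_card j L
  have hn : 0 < Fintype.card (((Fin (j + 2) × Fin L) ⊕ (Fin (j + 1) × Fin L)) ⊕ Fin L) := by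
    rw [hc]; positivity
  have hcr : (Fintype.card (((Fin (j + 2) × Fin L) ⊕ (Fin (j + 1) × Fin L)) ⊕ Fin L) : ℝ) = N * L := by
    rw [hc]; push_cast; rfl
  set xg : ℂ := Complex.exp ((g : ℂ) + ((θ / N : ℝ) : ℂ) * Complex.I) with hxg
  set x0 : ℂ := Complex.exp (((0 : ℝ) : ℂ) + ((θ / N : ℝ) : ℂ) * Complex.I) with hx0
  have hxg0 : xg ≠ 0 := Complex.exp_ne_zero _
  have hx00 : x0 ≠ 0 := Complex.exp_ne_zero _
  have hnxg : ‖xg‖ = Real.exp g := norm_exp_g g (θ / N)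
  have hnx0 : ‖x0‖ = 1 := by
    have := norm_exp_g 0 (θ / N)
    rw [Real.exp_zero] at this
    exact this
  set F := FT N L s with hF
  have hFu : Fᴴ * F = 1 := FT_unitary hs hb hc
  have hFf : ∀ p k, ‖F p k‖ ^ 2 = (Fintype.card (((Fin (j + 2) × Fin L) ⊕ (Fin (j + 1) × Fin L)) ⊕ Fin L) : ℝ)⁻¹ :=
    fun p k => FT_flat hc p k
  set mg : (((Fin (j + 2) × Fin L) ⊕ (Fin (j + 1) × Fin L)) ⊕ Fin L) → ℂ := fun k => sy N L xg s k - e with hmg
  set m0 : (((Fin (j + 2) × Fin L) ⊕ (Fin (j + 1) × Fin L)) ⊕ Fin L) → ℂ := fun k => sy N L x0 s k - e with hm0d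
  -- sums
  have sg : ∀ f : ℝ → ℝ, ∑ k, f ‖mg k‖ = ∑ a ∈ Finset.range N, ∑ b ∈ Finset.range L,
      f ‖mz g (bb e L b) (pp θ N a)‖ := fun f => sum_torus hs hb hc g θ e f
  have s00 : ∀ f : ℝ → ℝ, ∑ k, f ‖m0 k‖ = ∑ a ∈ Finset.range N, ∑ b ∈ Finset.range L,
      f ‖mz 0 (bb e L b) (pp θ N a)‖ := fun f => sum_torus hs hb hc 0 θ e f
  -- nonvanishing
  have hsin : ∀ a ∈ Finset.range N, Real.sin (pp θ N a) ≠ 0 := by
    intro a ha h0
    rw [Finset.mem_range] at ha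
    obtain ⟨n, hn⟩ := Real.sin_eq_zero_iff.mp h0
    unfold pp at hn
    have hn2 : (n : ℝ) * π * N = θ + 2 * π * a := by
      rw [hn]; field_simp
    have hπ := Real.pi_pos
    have h1 : θ = ((n * N - 2 * a : ℤ) : ℝ) * π := by
      push_cast
      linarith
    have h2 := hθ.1
    have h3 := hθ.2
    rw [h1] at h2 h3 hθπ
    have h4 : (0 : ℝ) < ((n * N - 2 * a : ℤ) : ℝ) := by
      by_contra hcon
      rw [not_lt] at hcon
      nlinarith
    have h5 : ((n * N - 2 * a : ℤ) : ℝ) < 2 := by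
      by_contra hcon
      rw [not_lt] at hcon
      nlinarith
    have h6 : (0 : ℤ) < n * N - 2 * a := by exact_mod_cast h4
    have h7 : n * N - 2 * a < (2 : ℤ) := by exact_mod_cast h5
    have h8 : n * N - 2 * a = (1 : ℤ) := by omega
    rw [h8] at hθπ
    apply hθπ
    push_cast; ring
  -- bounds of the symbols
  have hbound : ∀ g' : ℝ, 0 ≤ g' → g' ≤ 1 → ∀ k : (((Fin (j + 2) × Fin L) ⊕ (Fin (j + 1) × Fin L)) ⊕ Fin L),
      ‖sy N L (Complex.exp ((g' : ℂ) + ((θ / N : ℝ) : ℂ) * Complex.I)) s k - e‖ ≤ 16 := by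
    intro g' hg' hg1' k
    unfold sy
    have n1 : ‖Complex.exp ((g' : ℂ) + ((θ / N : ℝ) : ℂ) * Complex.I)‖ ≤ 3 := by
      rw [norm_exp_g]
      have := Real.exp_one_lt_d9
      have := Real.exp_le_exp.mpr hg1'
      linarith
    have n2 : ‖(Complex.exp ((g' : ℂ) + ((θ / N : ℝ) : ℂ) * Complex.I))⁻¹‖ ≤ 1 := by
      rw [norm_inv, norm_exp_g]
      apply inv_le_one_of_one_le₀
      exact Real.one_le_exp hg'
    set y := Complex.exp ((g' : ℂ) + ((θ / N : ℝ) : ℂ) * Complex.I) with hy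
    refine (norm_sub_le _ _).trans ?_
    rw [norm_neg, Complex.norm_real, Real.norm_eq_abs]
    have n3 := norm_add_le (y * chi (za N s k) + y⁻¹ * chi (-za N s k)) (chi (zb L s k) + chi (-zb L s k))
    have n4 := norm_add_le (y * chi (za N s k)) (y⁻¹ * chi (-za N s k))
    have n5 := norm_add_le (chi (zb L s k)) (chi (-zb L s k))
    rw [norm_mul, norm_mul, norm_chi, norm_chi] at n4
    rw [norm_chi, norm_chi] at n5
    linarith
  have hmgb : ∀ k, ‖mg k‖ ≤ 16 := fun k => hbound g hg.le hg1 k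
  have hm0b : ∀ k, ‖m0 k‖ ≤ 16 := fun k => hbound 0 le_rfl (by norm_num) k
  have hmg0 : ∀ k, mg k ≠ 0 := by
    -- from the sum of indicator functions
    have h1 := sg (fun x => if x = 0 then 1 else 0)
    have h2 : ∑ a ∈ Finset.range N, ∑ b ∈ Finset.range L,
        (if ‖mz g (bb e L b) (pp θ N a)‖ = 0 then (1 : ℝ) else 0) = 0 := by
      apply Finset.sum_eq_zero
      intro a ha
      apply Finset.sum_eq_zero
      intro b _
      rw [if_neg]
      rw [norm_eq_zero]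
      exact mz_ne_zero hg _ (hsin a ha)
    rw [h2] at h1
    intro k hk
    have h3 := (Finset.sum_eq_zero_iff_of_nonneg (fun i _ => by
      by_cases h : ‖mg i‖ = 0
      · rw [if_pos h]; exact zero_le_one
      · rw [if_neg h])).mp h1 k (Finset.mem_univ k)
    rw [hk, norm_zero, if_pos rfl] at h3
    norm_num at h3
  -- averages
  set Ag := (∑ k, (‖mg k‖ + η)⁻¹) / (Fintype.card (((Fin (j + 2) × Fin L) ⊕ (Fin (j + 1) × Fin L)) ⊕ Fin L) : ℝ) with hAg
  set A0 := (∑ k, (‖m0 k‖ + η)⁻¹) / (Fintype.card (((Fin (j + 2) × Fin L) ⊕ (Fin (j + 1) × Fin L)) ⊕ Fin L) : ℝ) with hA0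
  have hnr : (0 : ℝ) < (Fintype.card (((Fin (j + 2) × Fin L) ⊕ (Fin (j + 1) × Fin L)) ⊕ Fin L) : ℝ) := by
    exact_mod_cast hn
  have hAge : ∑ k, (‖mg k‖ + η)⁻¹ = (Fintype.card (((Fin (j + 2) × Fin L) ⊕ (Fin (j + 1) × Fin L)) ⊕ Fin L) : ℝ) * Ag := by
    rw [hAg, mul_comm, div_mul_cancel₀ _ hnr.ne']
  have hA0e : ∑ k, (‖m0 k‖ + η)⁻¹ = (Fintype.card (((Fin (j + 2) × Fin L) ⊕ (Fin (j + 1) × Fin L)) ⊕ Fin L) : ℝ) * A0 := by
    rw [hA0, mul_comm, div_mul_cancel₀ _ hnr.ne']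
  have hAg0 : 0 ≤ Ag := by
    rw [hAg]
    apply div_nonneg _ hnr.le
    exact Finset.sum_nonneg (fun k _ => by positivity)
  have hA00 : 0 ≤ A0 := by
    rw [hA0]
    apply div_nonneg _ hnr.le
    exact Finset.sum_nonneg (fun k _ => by positivity)
  have hAgle : Ag ≤ AA η := by
    rw [hAg, div_le_iff₀ hnr, sg (fun x => (x + η)⁻¹), hcr, mul_comm]
    exact avg_inv g θ e hg.le hg1 hη hη1 hN' hL'
  have hA0le : A0 ≤ AA η := by
    rw [hA0, div_le_iff₀ hnr, s00 (fun x => (x + η)⁻¹), hcr, mul_comm]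
    exact avg_inv 0 θ e le_rfl (by norm_num) hη hη1 hN' hL'
  have hY := Y2_nonneg μ lam kap
  have hLBn := LB_nonneg μ lam kap
  have hRle : ∀ A : ℝ, 0 ≤ A → A ≤ AA η → LB μ lam kap + Y2 μ lam kap * (16 * A + 4 * A ^ 2) ≤ RR μ lam kap η := by
    intro A h1 h2
    unfold RR
    have h3 : A ^ 2 ≤ AA η ^ 2 := pow_le_pow_left₀ h1 h2 2
    have := mul_le_mul_of_nonneg_left (by linarith : 16 * A + 4 * A ^ 2 ≤ 16 * AA η + 4 * AA η ^ 2) hY
    linarith
  -- lower bound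
  obtain ⟨hae, hi, hlow⟩ := lower_tw hM hlam hq hq2 hint hy0 hFu hFf hmgb hmg0 hs hη hn hAge hl hl2
  -- determinants
  have dg : ∀ w : Site → ℝ, (KT j L (xg ^ N) (VV lam kap e w)).det
      = (GM (FD F mg) (fun _ => 1) s (fun y => ((pot lam kap w y : ℝ) : ℂ))).det := fun w =>
    torus_det hxg0 hs hb hc lam kap e w
  have d0 : ∀ w : Site → ℝ, (KT j L (x0 ^ N) (VV lam kap e w)).det
      = (GM (FD F m0) (fun _ => 1) s (fun y => ((pot lam kap w y : ℝ) : ℂ))).det := fun w =>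
    torus_det hx00 hs hb hc lam kap e w
  have hnw : ‖xg ^ N‖ = Real.exp (g * N) := by
    rw [norm_pow, hnxg, ← Real.exp_nat_mul]
    congr 1; ring
  have hw1 : 1 ≤ ‖xg ^ N‖ := by
    rw [hnw]; exact Real.one_le_exp (by positivity)
  have hw2 : ‖xg ^ N‖ ≤ Real.exp (m * (j + 1 : ℕ)) := by
    rw [hnw]; exact Real.exp_le_exp.mpr hgm
  have hw' : ‖x0 ^ N‖ = 1 := by rw [norm_pow, hnx0, one_pow]
  obtain ⟨hUBi, hUBe⟩ := exp_UBf (μ := μ) hq hq2 hint hy0 hFu hFf hm0b hs hη (z := 1) (by simp) hn hA0e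
  have hH0 := TR_hermitian (N := 2 * j + 4) (L := L) hw' (s0_inBox j L)
  have hd0ae := (gwegner hM hlam hH0 (s0_injective j L) hn kap e).1
  have hle : ∀ᵐ w ∂(iid Site μ), Real.log ‖(KT j L (x0 ^ N) (VV lam kap e w)).det‖
      ≤ UBf F m0 s η 1 (pot lam kap w) := by
    filter_upwards [hd0ae] with w hw
    have hw3 : (KT j L (x0 ^ N) (VV lam kap e w)).det ≠ 0 := hw
    rw [d0] at hw3 ⊢
    exact log_det_GM hFu m0 s hη 1 (pot lam kap w) hw3
  have hstep := step_E hM hlam (e := e) hq hq2 hint hL hw1 hm (k := k) hw2 hw'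
    (by simpa only [dg] using hae) (by simpa only [dg] using hi) hUBi hle
  simp only [dg] at hstep
  have hST : (L : ℝ) / 2 * (4 * WZ M lam ((2 * j + 4 : ℕ) * L) + LV μ lam kap e
        + Real.log (32 * L) + Real.log (WG j L k))
        + Real.log ‖xg ^ N‖ * (2 * (j + 1) + L * (1 - (iid Site μ).real (CS lam kap e m k 0)))
      = ST μ M lam kap e g m k j L := by
    unfold ST
    rw [hnw, Real.log_exp]
  have h1 := hlow.trans hstep
  -- rewrite
  have hU0 : UBe μ lam kap m0 η A0 ≤ ∑ k, Real.log (‖m0 k‖ + η) + N * L * RR μ lam kap η := by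
    unfold UBe
    rw [hcr]
    have := mul_le_mul_of_nonneg_left (hRle A0 hA00 hA0le) (by positivity : (0 : ℝ) ≤ N * L)
    linarith
  have hUg : UBe μ lam kap mg η Ag - ∑ k, Real.log ‖mg k‖
      ≤ ∑ k, Real.log (1 + η / ‖mg k‖) + N * L * RR μ lam kap η := by
    unfold UBe
    rw [hcr]
    have h2 := mul_le_mul_of_nonneg_left (hRle Ag hAg0 hAgle) (by positivity : (0 : ℝ) ≤ N * L)
    have h3 : ∑ k, Real.log (‖mg k‖ + η) = ∑ k, Real.log ‖mg k‖ + ∑ k, Real.log (1 + η / ‖mg k‖) := by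
      rw [← Finset.sum_add_distrib]
      apply Finset.sum_congr rfl
      intro k _
      have hp : 0 < ‖mg k‖ := norm_pos_iff.mpr (hmg0 k)
      rw [← Real.log_mul hp.ne' (by positivity)]
      congr 1
      field_simp
    linarith
  have hlog0 : ∑ k, Real.log (‖m0 k‖ + η) ≤ ∑ a ∈ Finset.range N, ∑ b ∈ Finset.range L,
      (lp (PQ (bb e L b)) (Complex.exp (((0 : ℝ) : ℂ) + pp θ N a * Complex.I))
        + Real.log (1 + η / ‖mz 0 (bb e L b) (pp θ N a)‖)) := by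
    rw [s00 (fun x => Real.log (x + η))]
    apply Finset.sum_le_sum
    intro a _
    apply Finset.sum_le_sum
    intro b _
    rw [← log_mz0]
    by_cases h : mz 0 (bb e L b) (pp θ N a) = 0
    · rw [h, norm_zero, zero_add, Real.log_zero, div_zero, add_zero, Real.log_one, add_zero]
      exact Real.log_nonpos hη.le hη1
    · have hp : 0 < ‖mz 0 (bb e L b) (pp θ N a)‖ := norm_pos_iff.mpr h
      rw [← Real.log_mul hp.ne' (by positivity)]
      apply le_of_eq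
      congr 1
      field_simp
  have hlogg : ∑ k, Real.log ‖mg k‖ = ∑ a ∈ Finset.range N, ∑ b ∈ Finset.range L,
      (lp (PQ (bb e L b)) (Complex.exp ((g : ℂ) + pp θ N a * Complex.I)) - g) := by
    rw [sg (fun x => Real.log x)]
    apply Finset.sum_congr rfl
    intro a ha
    apply Finset.sum_congr rfl
    intro b _
    exact log_mz (mz_ne_zero hg _ (hsin a ha))
  have hCL := CL_nonneg hl hl2
  have h2 := mul_le_mul_of_nonneg_left hUg hCL
  rw [← hlogg, ← sg (fun x => Real.log (1 + η / x))]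
  rw [hcr] at h1
  have h3 : 16 * (Real.log (1 / l) / Real.log 2) = CL l := rfl
  rw [h3] at h1
  have h4 : CL l * (∑ k, Real.log (1 + η / ‖mg k‖) + N * L * RR μ lam kap η)
      = CL l * ∑ k, Real.log (1 + η / ‖mg k‖) + N * L * (CL l * RR μ lam kap η) := by ring
  have h5 : (N : ℝ) * L * ((CL l + 1) * RR μ lam kap η + E1 μ M lam kap q l)
      = N * L * (CL l * RR μ lam kap η) + N * L * RR μ lam kap η + N * L * E1 μ M lam kap q l := by ring
  rw [h4] at h2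
  rw [h5]
  linarith

end

end Pool.Agent.Helper19
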