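import Pool.Agent.Helper19.Fin2

set_option autoImplicit false

open MeasureTheory Filter Topology
open scoped ENNReal NNReal Real

namespace Pool.Agent.Helper19

set_option linter.unusedSectionVars false

lemma dbl_avg {F : ℕ → ℝ → ℝ} {N : ℕ} (hN : 0 < N) (L : ℕ)
    (hF : ∀ b, IntervalIntegrable (F b) volume 0 (2 * π)) :
    IntervalIntegrable (fun θ => ∑ a ∈ Finset.range N, ∑ b ∈ Finset.range L, F b (pp θ N a)) volume 0 (2 * π) ∧
    ∫ θ in (0 : ℝ)..(2 * π), ∑ a ∈ Finset.range N, ∑ b ∈ Finset.range L, F b (pp θ N a)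
      = N * ∑ b ∈ Finset.range L, ∫ φ in (0 : ℝ)..(2 * π), F b φ := by
  have h1 : ∀ b, IntervalIntegrable (fun θ => ∑ a ∈ Finset.range N, F b (pp θ N a)) volume 0 (2 * π) := by
    intro b
    have h2 := IntervalIntegrable.sum (μ := volume) (a := 0) (b := 2 * π) (Finset.range N)
      (f := fun a θ => F b (pp θ N a)) (fun a ha => (avg_sum hN (hF b)).1 a (Finset.mem_range.mp ha))
    have e : (∑ a ∈ Finset.range N, fun θ => F b (pp θ N a))
        = fun θ => ∑ a ∈ Finset.range N, F b (pp θ N a) := by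
      funext θ; simp
    rwa [e] at h2
  have e1 : (fun θ => ∑ a ∈ Finset.range N, ∑ b ∈ Finset.range L, F b (pp θ N a))
      = fun θ => ∑ b ∈ Finset.range L, ∑ a ∈ Finset.range N, F b (pp θ N a) := by
    funext θ
    exact Finset.sum_comm
  rw [e1]
  constructor
  · have h2 := IntervalIntegrable.sum (μ := volume) (a := 0) (b := 2 * π) (Finset.range L)
      (f := fun b θ => ∑ a ∈ Finset.range N, F b (pp θ N a)) (fun b _ => h1 b)
    have e : (∑ b ∈ Finset.range L, fun θ => ∑ a ∈ Finset.range N, F b (pp θ N a))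
        = fun θ => ∑ b ∈ Finset.range L, ∑ a ∈ Finset.range N, F b (pp θ N a) := by
      funext θ; simp
    rwa [e] at h2
  · rw [intervalIntegral.integral_finsetSum (fun b _ => h1 b), Finset.mul_sum]
    apply Finset.sum_congr rfl
    intro b _
    exact (avg_sum hN (hF b)).2

section
variable {μ : Measure ℝ} [IsProbabilityMeasure μ] {M : ℝ≥0} {lam kap q : ℝ}

/-- the averaged inequality in finite volume -/
theorem finite_vol (hM : μ ≤ M • volume) (hlam : 0 < lam) (hq : 0 < q) (hq2 : q ≤ 1 / 2)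
    (hint : Integrable (fun t => |lam * t - kap| ^ q) μ)
    (hy0 : ∫ t, yw (lam * t - kap) ∂μ = 0) {e : ℝ} (he : |e| ≤ 4) {g : ℝ} (hg : 0 < g) (hg1 : g ≤ 1)
    {j L : ℕ} {m : ℝ} (hm : 0 ≤ m) (hgm : g * (2 * j + 4 : ℕ) ≤ m * (j + 1 : ℕ)) (hL : 2 * (j + 1) < L)
    {η : ℝ} (hη : 0 < η) (hη1 : η ≤ 1) (hN' : 16 / η ^ 2 ≤ (2 * j + 4 : ℕ)) (hL' : 16 / η ^ 2 ≤ L)
    {l : ℝ} (hl : 0 < l) (hl2 : l < 1 / 2) (k : ℝ) :
    g * ∑ b ∈ Finset.range L, (if |bb e L b| ≤ 2 then (1 : ℝ) else 0)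
      ≤ L * ((CL l + 1) * (8 * I0 / (2 * π) * η ^ (1 / 4 : ℝ) + RR μ lam kap η) + E1 μ M lam kap q l)
        + ST μ M lam kap e g m k j L / (2 * j + 4 : ℕ) := by
  set N : ℕ := 2 * j + 4 with hNdef
  have hNpos : 0 < N := by omega
  have hNr : (0 : ℝ) < N := by exact_mod_cast hNpos
  have hπ := Real.pi_pos
  have hCL := CL_nonneg hl hl2
  set T : ℝ := ((N : ℝ) * L) * ((CL l + 1) * RR μ lam kap η + E1 μ M lam kap q l)
      + ST μ M lam kap e g m k j L with hT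
  -- the three families
  set F1 : ℕ → ℝ → ℝ := fun b φ => lp (PQ (bb e L b)) (Complex.exp ((g : ℂ) + φ * Complex.I)) - g with hF1
  set F2 : ℕ → ℝ → ℝ := fun b φ => lp (PQ (bb e L b)) (Complex.exp (((0 : ℝ) : ℂ) + φ * Complex.I))
    + Real.log (1 + η / ‖mz 0 (bb e L b) φ‖) with hF2
  set F3 : ℕ → ℝ → ℝ := fun b φ => Real.log (1 + η / ‖mz g (bb e L b) φ‖) with hF3
  have i1 : ∀ b, IntervalIntegrable (F1 b) volume 0 (2 * π) := fun b =>
    (lp_int g (bb e L b)).1.sub (by simp)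
  have i2 : ∀ b, IntervalIntegrable (F2 b) volume 0 (2 * π) := fun b =>
    (lp_int 0 (bb e L b)).1.add (dl_int hη.le).1
  have i3 : ∀ b, IntervalIntegrable (F3 b) volume 0 (2 * π) := fun b => (dl_int hη.le).1
  have v1 : ∀ b, ∫ φ in (0 : ℝ)..(2 * π), F1 b φ = 2 * π * (Jm g (bb e L b) - g) := by
    intro b
    simp only [hF1]
    rw [intervalIntegral.integral_sub (lp_int g (bb e L b)).1 (by simp), (lp_int g (bb e L b)).2,
      intervalIntegral.integral_const, smul_eq_mul]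
    ring
  have v2 : ∀ b, ∫ φ in (0 : ℝ)..(2 * π), F2 b φ ≤ 2 * π * Jm 0 (bb e L b) + 8 * I0 * η ^ (1 / 4 : ℝ) := by
    intro b
    simp only [hF2]
    rw [intervalIntegral.integral_add (lp_int 0 (bb e L b)).1 (dl_int hη.le).1, (lp_int 0 (bb e L b)).2]
    have := (dl_int (g := 0) (b := bb e L b) hη.le).2
    linarith
  have v3 : ∀ b, ∫ φ in (0 : ℝ)..(2 * π), F3 b φ ≤ 8 * I0 * η ^ (1 / 4 : ℝ) := fun b => (dl_int hη.le).2
  obtain ⟨a1, b1⟩ := dbl_avg hNpos L i1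
  obtain ⟨a2, b2⟩ := dbl_avg hNpos L i2
  obtain ⟨a3, b3⟩ := dbl_avg hNpos L i3
  have a4 : IntervalIntegrable (fun θ => ∑ a ∈ Finset.range N, ∑ b ∈ Finset.range L, F2 b (pp θ N a)
      + CL l * ∑ a ∈ Finset.range N, ∑ b ∈ Finset.range L, F3 b (pp θ N a)) volume 0 (2 * π) :=
    a2.add (a3.const_mul _)
  have a5 : IntervalIntegrable (fun θ => ∑ a ∈ Finset.range N, ∑ b ∈ Finset.range L, F2 b (pp θ N a)
      + CL l * ∑ a ∈ Finset.range N, ∑ b ∈ Finset.range L, F3 b (pp θ N a) + T) volume 0 (2 * π) :=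
    a4.add (by simp)
  have hae : (fun θ => ∑ a ∈ Finset.range N, ∑ b ∈ Finset.range L, F1 b (pp θ N a))
      ≤ᵐ[volume.restrict (Set.Icc 0 (2 * π))] (fun θ => ∑ a ∈ Finset.range N, ∑ b ∈ Finset.range L,
        F2 b (pp θ N a) + CL l * ∑ a ∈ Finset.range N, ∑ b ∈ Finset.range L, F3 b (pp θ N a) + T) := by
    have hne : ∀ x : ℝ, ∀ᵐ θ : ℝ, θ ≠ x := fun x => by
      rw [ae_iff]; simp
    have hmem : ∀ᵐ θ ∂(volume.restrict (Set.Icc 0 (2 * π))), θ ∈ Set.Icc 0 (2 * π) :=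
      ae_restrict_mem measurableSet_Icc
    filter_upwards [hmem, ae_restrict_of_ae (hne 0), ae_restrict_of_ae (hne (2 * π)),
      ae_restrict_of_ae (hne π)] with θ h1 h2 h3 h4
    have hθ : θ ∈ Set.Ioo 0 (2 * π) := ⟨lt_of_le_of_ne h1.1 (Ne.symm h2), lt_of_le_of_ne h1.2 h3⟩
    have := fixed_theta hM hlam hq hq2 hint hy0 he hg hg1 hm hgm hL hη hη1 hN' hL' hl hl2 k hθ h4
    rw [hT, ← add_assoc]
    exact this
  have key := intervalIntegral.integral_mono_ae_restrict (by positivity : (0 : ℝ) ≤ 2 * π) a1 a5 hae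
  rw [intervalIntegral.integral_add a4 (by simp), intervalIntegral.integral_add a2 (a3.const_mul _),
    intervalIntegral.integral_const_mul, b1, b2, b3, intervalIntegral.integral_const, smul_eq_mul,
    sub_zero] at key
  have s1 : ∑ b ∈ Finset.range L, ∫ φ in (0 : ℝ)..(2 * π), F1 b φ
      = 2 * π * ∑ b ∈ Finset.range L, (Jm g (bb e L b) - g) := by
    rw [Finset.mul_sum]
    exact Finset.sum_congr rfl (fun b _ => v1 b)
  have s2 : ∑ b ∈ Finset.range L, ∫ φ in (0 : ℝ)..(2 * π), F2 b φ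
      ≤ 2 * π * ∑ b ∈ Finset.range L, Jm 0 (bb e L b) + L * (8 * I0 * η ^ (1 / 4 : ℝ)) := by
    refine (Finset.sum_le_sum (fun b _ => v2 b)).trans (le_of_eq ?_)
    rw [Finset.sum_add_distrib, ← Finset.mul_sum, Finset.sum_const, Finset.card_range, nsmul_eq_mul]
  have s3 : ∑ b ∈ Finset.range L, ∫ φ in (0 : ℝ)..(2 * π), F3 b φ ≤ L * (8 * I0 * η ^ (1 / 4 : ℝ)) := by
    refine (Finset.sum_le_sum (fun b _ => v3 b)).trans (le_of_eq ?_)
    rw [Finset.sum_const, Finset.card_range, nsmul_eq_mul]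
  have s4 : ∑ b ∈ Finset.range L, Jm 0 (bb e L b)
      + g * ∑ b ∈ Finset.range L, (if |bb e L b| ≤ 2 then (1 : ℝ) else 0)
      ≤ ∑ b ∈ Finset.range L, (Jm g (bb e L b) - g) := by
    rw [Finset.mul_sum, ← Finset.sum_add_distrib]
    apply Finset.sum_le_sum
    intro b _
    have := Jm_ge hg.le (bb e L b)
    split_ifs at this ⊢ <;> linarith
  set cnt := ∑ b ∈ Finset.range L, (if |bb e L b| ≤ 2 then (1 : ℝ) else 0) with hcnt
  set SJ := ∑ b ∈ Finset.range L, Jm 0 (bb e L b) with hSJ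
  set E := η ^ (1 / 4 : ℝ) with hE
  rw [s1] at key
  have s2' := mul_le_mul_of_nonneg_left s2 hNr.le
  have s3' := mul_le_mul_of_nonneg_left (mul_le_mul_of_nonneg_left s3 hNr.le) hCL
  have s4' := mul_le_mul_of_nonneg_left s4 (by positivity : 0 ≤ (N : ℝ) * (2 * π))
  have fin : (N : ℝ) * (2 * π) * (g * cnt) ≤ N * (2 * π) *
      (L * ((CL l + 1) * (8 * I0 / (2 * π) * E + RR μ lam kap η) + E1 μ M lam kap q l)
        + ST μ M lam kap e g m k j L / N) := by
    have e1 : (N : ℝ) * (2 * π) *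
      (L * ((CL l + 1) * (8 * I0 / (2 * π) * E + RR μ lam kap η) + E1 μ M lam kap q l)
        + ST μ M lam kap e g m k j L / N)
        = N * (L * (8 * I0 * E)) + CL l * (N * (L * (8 * I0 * E))) + 2 * π * T := by
      rw [hT]
      field_simp
      ring
    rw [e1]
    linarith
  exact le_of_mul_le_mul_left fin (by positivity)

end

end Pool.Agent.Helper19
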