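import Pool.Agent.Helper19.Fin3

set_option autoImplicit false

open MeasureTheory Filter Topology
open scoped ENNReal NNReal Real

namespace Pool.Agent.Helper19

set_option linter.unusedSectionVars false

lemma tendsto_N : Tendsto (fun j : ℕ => (2 * (j : ℝ) + 4)) atTop atTop :=
  tendsto_atTop_add_const_right _ _
    (Tendsto.const_mul_atTop (by norm_num) tendsto_natCast_atTop_atTop)

lemma tendsto_Ninv : Tendsto (fun j : ℕ => (2 * (j : ℝ) + 4)⁻¹) atTop (𝓝 0) :=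
  tendsto_N.inv_tendsto_atTop

lemma tendsto_logN : Tendsto (fun j : ℕ => Real.log (2 * (j : ℝ) + 4) * (2 * (j : ℝ) + 4)⁻¹)
    atTop (𝓝 0) := by
  have h1 : Tendsto (fun x : ℝ => Real.log x * x⁻¹) atTop (𝓝 0) := by
    have := Real.isLittleO_log_id_atTop.tendsto_div_nhds_zero
    simpa [div_eq_mul_inv] using this
  exact h1.comp tendsto_N

section
variable {μ : Measure ℝ} [IsProbabilityMeasure μ] {M : ℝ≥0} {lam kap q : ℝ}

/-- bound of the remainder for `L = N²` -/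
lemma ST_le (hlam : 0 < lam) {e g m k : ℝ} (hg : 0 ≤ g) (j : ℕ) :
    ST μ M lam kap e g m k j ((2 * j + 4) ^ 2) / ((2 * j + 4 : ℕ) * ((2 * j + 4) ^ 2 : ℕ))
      ≤ (53 / 2) * (Real.log (2 * (j : ℝ) + 4) * (2 * (j : ℝ) + 4)⁻¹)
        + (16 + 32 * M / lam + |LV μ lam kap e| + Real.log 32 + Real.log (1 + 130 * k ^ 2)) / 2
          * (2 * (j : ℝ) + 4)⁻¹
        + g * (2 * (j : ℝ) + 4)⁻¹ + g * (1 - (iid Site μ).real (CS lam kap e m k 0)) := by
  set x : ℝ := 2 * (j : ℝ) + 4 with hx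
  have hj0 : (0 : ℝ) ≤ j := Nat.cast_nonneg _
  have hx4 : 4 ≤ x := by rw [hx]; linarith
  have hx0 : 0 < x := by linarith
  have e1 : (((2 * j + 4 : ℕ) : ℕ) : ℝ) = x := by push_cast; rfl
  have e2 : ((((2 * j + 4) ^ 2 : ℕ) : ℕ) : ℝ) = x ^ 2 := by push_cast; rfl
  set p := (iid Site μ).real (CS lam kap e m k 0) with hp
  have hWG : Real.log (WG j ((2 * j + 4) ^ 2) k) ≤ Real.log (1 + 130 * k ^ 2) + 3 * Real.log x := by
    have h1 : WG j ((2 * j + 4) ^ 2) k ≤ (1 + 130 * k ^ 2) * x ^ 3 := by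
      unfold WG
      rw [e2]
      have h2 : ((2 * j + 3 : ℕ) : ℝ) ≤ x := by
        rw [hx]; push_cast; linarith
      have h3 : 0 ≤ 130 * k ^ 2 := by positivity
      have h4 : ((2 * j + 3 : ℕ) : ℝ) * x ^ 2 ≤ x ^ 3 := by
        calc ((2 * j + 3 : ℕ) : ℝ) * x ^ 2 ≤ x * x ^ 2 := by gcongr
          _ = x ^ 3 := by ring
      have h5 : 1 ≤ x ^ 3 := one_le_pow₀ (by linarith)
      nlinarith
    have h2 := Real.log_le_log (lt_of_lt_of_le one_pos (one_le_WG j ((2 * j + 4) ^ 2) k)) h1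
    rw [Real.log_mul (by positivity) (by positivity), Real.log_pow] at h2
    push_cast at h2
    linarith
  have hWZ : WZ M lam (((2 * j + 4 : ℕ) : ℝ) * ((2 * j + 4) ^ 2 : ℕ)) = 12 * Real.log x + 4 + 8 * M / lam := by
    unfold WZ
    rw [e1, e2]
    have : x * x ^ 2 = x ^ 3 := by ring
    rw [this, Real.log_pow]
    push_cast; ring
  have hl32 : Real.log (32 * ((2 * j + 4) ^ 2 : ℕ)) = Real.log 32 + 2 * Real.log x := by
    rw [e2, Real.log_mul (by norm_num) (by positivity), Real.log_pow]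
    push_cast; ring
  unfold ST
  rw [hWZ, hl32, e1, e2, ← hp]
  have hLV := le_abs_self (LV μ lam kap e)
  have hnum : x ^ 2 / 2 * (4 * (12 * Real.log x + 4 + 8 * M / lam) + LV μ lam kap e
      + (Real.log 32 + 2 * Real.log x) + Real.log (WG j ((2 * j + 4) ^ 2) k))
      + g * x * (2 * ((j : ℝ) + 1) + x ^ 2 * (1 - p))
      ≤ x ^ 2 / 2 * (53 * Real.log x + (16 + 32 * M / lam + |LV μ lam kap e| + Real.log 32
        + Real.log (1 + 130 * k ^ 2))) + g * x * (x + x ^ 2 * (1 - p)) := by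
    apply add_le_add
    · apply mul_le_mul_of_nonneg_left _ (by positivity)
      have : 4 * (8 * (M : ℝ) / lam) = 32 * M / lam := by ring
      linarith
    · apply mul_le_mul_of_nonneg_left _ (by positivity)
      have : 2 * ((j : ℝ) + 1) ≤ x := by rw [hx]; linarith
      linarith
  rw [div_le_iff₀ (by positivity)]
  refine hnum.trans (le_of_eq ?_)
  field_simp
  ring

/-- main inequality in infinite volume -/
theorem rate_main (hM : μ ≤ M • volume) (hlam : 0 < lam) (hq : 0 < q) (hq2 : q ≤ 1 / 2)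
    (hint : Integrable (fun t => |lam * t - kap| ^ q) μ)
    (hy0 : ∫ t, yw (lam * t - kap) ∂μ = 0) {e a : ℝ} (ha : 0 < a) (he : |e| ≤ 4 - a) {m : ℝ}
    (hm : 0 < m) (hm4 : m ≤ 4) (hgood : (iid Site μ) (AllGood lam kap m e) = 1)
    {η : ℝ} (hη : 0 < η) (hη1 : η ≤ 1) {l : ℝ} (hl : 0 < l) (hl2 : l < 1 / 2) :
    m / 4 * (Real.sqrt a / (2 * π)) ≤
      (CL l + 1) * (8 * I0 / (2 * π) * η ^ (1 / 4 : ℝ) + RR μ lam kap η) + E1 μ M lam kap q l := by
  set Q := (CL l + 1) * (8 * I0 / (2 * π) * η ^ (1 / 4 : ℝ) + RR μ lam kap η) + E1 μ M lam kap q l with hQ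
  set g := m / 4 with hg
  have hg0 : 0 < g := by positivity
  have hg1 : g ≤ 1 := by rw [hg]; linarith
  have he4 : |e| ≤ 4 := by linarith
  -- for each k
  have hk : ∀ k : ℝ, g * (Real.sqrt a / (2 * π)) ≤ Q + g * (1 - (iid Site μ).real (CS lam kap e m k 0)) := by
    intro k
    set p := (iid Site μ).real (CS lam kap e m k 0) with hp
    set c := (16 + 32 * M / lam + |LV μ lam kap e| + Real.log 32 + Real.log (1 + 130 * k ^ 2)) / 2 with hc
    have hev : ∀ᶠ j : ℕ in atTop, g * (Real.sqrt a / (2 * π)) ≤ Q + ((53 / 2) * (Real.log (2 * (j : ℝ) + 4)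
        * (2 * (j : ℝ) + 4)⁻¹) + c * (2 * (j : ℝ) + 4)⁻¹ + g * (2 * (j : ℝ) + 4)⁻¹ + g * (1 - p))
        + g * (2 * (j : ℝ) + 4)⁻¹ := by
      filter_upwards [tendsto_N.eventually_ge_atTop (16 / η ^ 2)] with j hj
      have hj0 : (0 : ℝ) ≤ j := Nat.cast_nonneg _
      set N : ℕ := 2 * j + 4 with hN
      have hNr : (N : ℝ) = 2 * (j : ℝ) + 4 := by rw [hN]; push_cast; ring
      have hN4 : (4 : ℝ) ≤ N := by rw [hNr]; linarith
      have hL2 : 2 * (j + 1) < (2 * j + 4) ^ 2 := by nlinarith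
      have hgm : g * ((2 * j + 4 : ℕ) : ℝ) ≤ m * ((j + 1 : ℕ) : ℝ) := by
        rw [hg]; push_cast; nlinarith
      have h1 : 16 / η ^ 2 ≤ ((2 * j + 4 : ℕ) : ℝ) := by push_cast; exact hj
      have h2 : 16 / η ^ 2 ≤ (((2 * j + 4) ^ 2 : ℕ) : ℝ) := by
        have h3 : ((2 * j + 4 : ℕ) : ℝ) ≤ (((2 * j + 4) ^ 2 : ℕ) : ℝ) := by
          have : 2 * j + 4 ≤ (2 * j + 4) ^ 2 := by nlinarith
          exact_mod_cast this
        linarith
      have key := finite_vol hM hlam hq hq2 hint hy0 he4 hg0 hg1 hm.le hgm hL2 hη hη1 h1 h2 hl hl2 k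
      have hcnt := cnt_ge ha he (L := (2 * j + 4) ^ 2) (by positivity)
      have hcnt' := mul_le_mul_of_nonneg_left hcnt hg0.le
      have hST := ST_le (μ := μ) (M := M) (kap := kap) hlam (e := e) (m := m) (k := k) hg0.le j
      rw [← hc, ← hp] at hST
      have hLr : (((2 * j + 4) ^ 2 : ℕ) : ℝ) = (N : ℝ) ^ 2 := by rw [hN]; push_cast; ring
      have hcomb : g * ((((2 * j + 4) ^ 2 : ℕ) : ℝ) * Real.sqrt a / (2 * π) - 1)
          ≤ (((2 * j + 4) ^ 2 : ℕ) : ℝ) * Q + ST μ M lam kap e g m k j ((2 * j + 4) ^ 2) / ((2 * j + 4 : ℕ) : ℝ) :=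
        hcnt'.trans key
      have hL0 : 0 < (((2 * j + 4) ^ 2 : ℕ) : ℝ) := by positivity
      have hdiv := div_le_div_of_nonneg_right hcomb hL0.le
      have e1 : g * ((((2 * j + 4) ^ 2 : ℕ) : ℝ) * Real.sqrt a / (2 * π) - 1) / (((2 * j + 4) ^ 2 : ℕ) : ℝ)
          = g * (Real.sqrt a / (2 * π)) - g / (((2 * j + 4) ^ 2 : ℕ) : ℝ) := by
        field_simp
      have e2 : ((((2 * j + 4) ^ 2 : ℕ) : ℝ) * Q
          + ST μ M lam kap e g m k j ((2 * j + 4) ^ 2) / ((2 * j + 4 : ℕ) : ℝ)) / (((2 * j + 4) ^ 2 : ℕ) : ℝ)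
          = Q + ST μ M lam kap e g m k j ((2 * j + 4) ^ 2)
            / (((2 * j + 4 : ℕ) : ℝ) * (((2 * j + 4) ^ 2 : ℕ) : ℝ)) := by
        field_simp
      rw [e1, e2] at hdiv
      have e3 : g / (((2 * j + 4) ^ 2 : ℕ) : ℝ) ≤ g * (2 * (j : ℝ) + 4)⁻¹ := by
        rw [hLr, ← hNr, div_eq_mul_inv]
        apply mul_le_mul_of_nonneg_left _ hg0.le
        apply inv_anti₀ (by linarith)
        nlinarith
      linarith
    have hlim : Tendsto (fun j : ℕ => Q + ((53 / 2) * (Real.log (2 * (j : ℝ) + 4)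
        * (2 * (j : ℝ) + 4)⁻¹) + c * (2 * (j : ℝ) + 4)⁻¹ + g * (2 * (j : ℝ) + 4)⁻¹ + g * (1 - p))
        + g * (2 * (j : ℝ) + 4)⁻¹) atTop (𝓝 (Q + ((53 / 2) * 0 + c * 0 + g * 0 + g * (1 - p)) + g * 0)) := by
      apply Tendsto.add
      · apply Tendsto.add tendsto_const_nhds
        apply Tendsto.add
        · apply Tendsto.add
          · exact (tendsto_logN.const_mul _).add (tendsto_Ninv.const_mul _)
          · exact tendsto_Ninv.const_mul _
        · exact tendsto_const_nhds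
      · exact tendsto_Ninv.const_mul _
    have := ge_of_tendsto hlim hev
    linarith
  have hlim := tendsto_CS hgood
  have hlim2 : Tendsto (fun k : ℕ => Q + g * (1 - (iid Site μ).real (CS lam kap e m (k + 1) 0))) atTop
      (𝓝 (Q + g * (1 - 1))) := by
    exact tendsto_const_nhds.add ((tendsto_const_nhds.sub hlim).const_mul g)
  have := ge_of_tendsto hlim2 (Filter.Eventually.of_forall (fun k : ℕ => hk (k + 1)))
  linarith

end

end Pool.Agent.Helper19
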