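import Pool.Agent.Helper19.Main
import Pool.Agent.Helper19.Exist2

set_option autoImplicit false

open MeasureTheory Filter Topology
open scoped ENNReal NNReal

namespace Pool.Agent.Helper19

/-- numerical estimate -/
lemma numeric {s m : ℝ} (hs : 0 < s) (hs2 : s ≤ 1 / 2)
    (h : m ≤ 5 / 4 * cf (s ^ 2) + 25 / 16 * s ^ 2 * Real.log (5 / s ^ 2) ^ 4) :
    m ≤ 1000 * s ^ 2 * Real.log (1 / s) ^ 4 := by
  have hs20 : 0 < s ^ 2 := by positivity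
  set Λ := Real.log (1 / s) with hΛ
  have hlogs : Real.log s = -Λ := by rw [hΛ, Real.log_div one_ne_zero hs.ne', Real.log_one]; ring
  have hΛ1 : Real.log 2 ≤ Λ := by
    rw [hΛ]
    apply Real.log_le_log (by norm_num)
    rw [le_div_iff₀ hs]
    linarith
  have h2 := Real.log_two_gt_d9
  have hΛ2 : 0.69 ≤ Λ := by linarith
  have hlog5 : Real.log 5 ≤ 7 / 3 * Real.log 2 := by
    have h3 : Real.log (5 ^ 3) ≤ Real.log (2 ^ 7) := Real.log_le_log (by norm_num) (by norm_num)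
    rw [Real.log_pow, Real.log_pow] at h3
    push_cast at h3
    linarith
  have hlog50 : 0 ≤ Real.log 5 := Real.log_nonneg (by norm_num)
  set ℓ := Real.log 5 + 2 * Λ with hℓ
  have hℓ0 : 0 ≤ ℓ := by linarith
  have hℓ1 : ℓ ≤ 13 / 3 * Λ := by linarith
  have hcf : cf (s ^ 2) = s ^ 2 * (ℓ ^ 2 + 2 * ℓ + 2) := by
    rw [cf_eq hs20, Real.log_pow, hlogs, hℓ]
    push_cast
    ring
  have hl : Real.log (5 / s ^ 2) = ℓ := by
    rw [Real.log_div (by norm_num) hs20.ne', Real.log_pow, hlogs, hℓ]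
    push_cast
    ring
  rw [hcf, hl] at h
  have hΛ0 : 0 ≤ Λ := by linarith
  have p2 : ℓ ^ 2 ≤ (13 / 3) ^ 2 * Λ ^ 2 := by
    rw [← mul_pow]; exact pow_le_pow_left₀ hℓ0 hℓ1 2
  have p4 : ℓ ^ 4 ≤ (13 / 3) ^ 4 * Λ ^ 4 := by
    rw [← mul_pow]; exact pow_le_pow_left₀ hℓ0 hℓ1 4
  have q2 : 0.47 ≤ Λ ^ 2 := by nlinarith
  have q4 : 0.47 * Λ ^ 2 ≤ Λ ^ 4 := by nlinarith [sq_nonneg Λ]
  have q3 : 0.69 * Λ ≤ Λ ^ 2 := by nlinarith
  have key : 5 / 4 * (ℓ ^ 2 + 2 * ℓ + 2) + 25 / 16 * ℓ ^ 4 ≤ 1000 * Λ ^ 4 := by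
    nlinarith
  have := mul_le_mul_of_nonneg_left key hs20.le
  nlinarith

section
variable {μ : Measure ℝ} [IsProbabilityMeasure μ] {M : ℝ≥0} {lam kap : ℝ}

theorem main_bound (hμ : MemLp (fun t : ℝ => t) 2 μ) (hM : μ ≤ M • volume) (hlam : 0 < lam)
    (hmean : ∫ t, (lam * t - kap) ∂μ = 0) {m : ℝ} {δ : ℝ} (hδ : 0 < δ)
    (H : ¬ ∀ᵐ w ∂(iid Site μ), ¬ ((∀ (ψ : Site → ℂ) (e : ℝ), L2 ψ → |e| < δ →
      Sol (pot lam kap w) e ψ 0 → Cm m ψ) ∧ Complete (pot lam kap w)))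
    {s : ℝ} (hs : 0 < s) (hs2 : s ≤ 1 / 2) (hvar : ∫ t, (lam * t - kap) ^ 2 ∂μ ≤ s ^ 2) :
    m ≤ 1000 * s ^ 2 * Real.log (1 / s) ^ 4 := by
  by_cases hm : 0 < m
  swap
  · rw [not_lt] at hm
    refine hm.trans (by positivity)
  have hac : μ ≪ volume := (Measure.absolutelyContinuous_of_le_smul (c := M) hM)
  have hns : NullSingletonClass μ := ⟨fun x => hac (measure_singleton x)⟩
  set σ2 := ∫ t, (lam * t - kap) ^ 2 ∂μ with hσ2
  have hσ0 : 0 ≤ σ2 := integral_nonneg (fun t => sq_nonneg _)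
  have hint : Integrable (fun t : ℝ => (lam * t - kap) ^ 2) μ :=
    ((hμ.const_mul lam).sub (memLp_const kap)).integrable_sq
  have H3 : μ {t | |lam * t - kap| ≤ 4} ≠ 0 := by
    intro h0
    have h1 : ∀ᵐ t ∂μ, (16 : ℝ) ≤ (lam * t - kap) ^ 2 := by
      have h2 : ∀ᵐ t ∂μ, ¬ (|lam * t - kap| ≤ 4) := by
        rw [ae_iff]; simpa using h0
      filter_upwards [h2] with t ht
      rw [not_le] at ht
      rw [← sq_abs]
      nlinarith
    have h2 : ∫ _t, (16 : ℝ) ∂μ ≤ σ2 := integral_mono_ae (integrable_const _) hint h1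
    simp only [integral_const, measure_univ, Measure.real, ENNReal.toReal_one, one_smul] at h2
    nlinarith
  have hη : 0 < s ^ 2 := by positivity
  have hη1 : s ^ 2 ≤ 1 := by nlinarith
  apply numeric hs hs2
  -- let the window shrink
  have hlim : Tendsto (fun t : ℝ => 5 / 4 * cf (s ^ 2) + ((1 + t) * (1 + 25 / 8 * σ2 * Real.log (5 / s ^ 2) ^ 4)
    + (t + 1) * t * (2 * (s ^ 2)⁻¹ ^ 2) - 1) / 2) (𝓝[>] 0)
      (𝓝 (5 / 4 * cf (s ^ 2) + ((1 + 0) * (1 + 25 / 8 * σ2 * Real.log (5 / s ^ 2) ^ 4)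
    + (0 + 1) * 0 * (2 * (s ^ 2)⁻¹ ^ 2) - 1) / 2)) := by
    apply Filter.Tendsto.mono_left _ nhdsWithin_le_nhds
    have : Continuous (fun t : ℝ => 5 / 4 * cf (s ^ 2)
      + ((1 + t) * (1 + 25 / 8 * σ2 * Real.log (5 / s ^ 2) ^ 4)
      + (t + 1) * t * (2 * (s ^ 2)⁻¹ ^ 2) - 1) / 2) := by fun_prop
    exact this.tendsto 0
  have hle : ∀ᶠ t : ℝ in 𝓝[>] 0, m ≤ 5 / 4 * cf (s ^ 2)
      + ((1 + t) * (1 + 25 / 8 * σ2 * Real.log (5 / s ^ 2) ^ 4)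
      + (t + 1) * t * (2 * (s ^ 2)⁻¹ ^ 2) - 1) / 2 := by
    filter_upwards [self_mem_nhdsWithin] with t ht
    have ht0 : 0 < t := ht
    obtain ⟨e, he, hAG⟩ := exists_energy' (μ := μ) hac hlam.ne' hm hδ H H3 ht0
    have h1 := rate_le hμ hM hlam hmean hm.le hη hη1 ht0 e hAG
    rw [← hσ2] at h1
    unfold UB at h1
    refine h1.trans ?_
    have h2 : e ^ 2 ≤ t ^ 2 := by rw [← sq_abs]; exact pow_le_pow_left₀ (abs_nonneg _) he 2
    have h3 : (1 + t⁻¹) * (2 * (e ^ 2 * (s ^ 2)⁻¹ ^ 2)) ≤ (t + 1) * t * (2 * (s ^ 2)⁻¹ ^ 2) := by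
      have h4 : (t + 1) * t * (2 * (s ^ 2)⁻¹ ^ 2) = (1 + t⁻¹) * (2 * (t ^ 2 * (s ^ 2)⁻¹ ^ 2)) := by
        field_simp
      rw [h4]
      apply mul_le_mul_of_nonneg_left _ (by positivity)
      apply mul_le_mul_of_nonneg_left _ (by norm_num)
      exact mul_le_mul_of_nonneg_right h2 (by positivity)
    linarith
  have h5 := ge_of_tendsto hlim hle
  refine h5.trans ?_
  have h6 : 0 ≤ Real.log (5 / s ^ 2) ^ 4 := by positivity
  have h7 := mul_le_mul_of_nonneg_right hvar h6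
  linarith

end

end Pool.Agent.Helper19
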