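import Pool.Agent.Helper19.VarG
import Pool.Agent.Helper19.Rep

set_option autoImplicit false

open MeasureTheory Filter Topology Matrix
open scoped ENNReal NNReal Real

namespace Pool.Agent.Helper19

set_option linter.unusedSectionVars false

/-- inverse weight of a site -/
noncomputable def bw (v : ℝ) : ℝ := (max 1 |v|)⁻¹

/-- truncated potential -/
noncomputable def yw (v : ℝ) : ℝ := v * bw v

lemma bw_pos (v : ℝ) : 0 < bw v := by unfold bw; positivity
lemma bw_le (v : ℝ) : bw v ≤ 1 := inv_le_one_of_one_le₀ (le_max_left _ _)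
lemma abs_yw_le (v : ℝ) : |yw v| ≤ 1 := by
  unfold yw bw
  rw [abs_mul, abs_inv, abs_of_pos (by positivity : 0 < max 1 |v|), mul_inv_le_iff₀ (by positivity), one_mul]
  exact le_max_right _ _
lemma measurable_bw : Measurable bw := by unfold bw; fun_prop
lemma measurable_yw : Measurable yw := measurable_id.mul measurable_bw
lemma one_sub_bw_sq_le (v : ℝ) : (bw v - 1) ^ 2 ≤ yw v ^ 2 := by
  rcases le_total |v| 1 with h | h
  · have : bw v = 1 := by unfold bw; rw [max_eq_left h, _root_.inv_one]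
    rw [this, sub_self]
    have := sq_nonneg (yw v)
    simpa using this
  · have h1 : bw v = |v|⁻¹ := by unfold bw; rw [max_eq_right h]
    have hv : 0 < |v| := by linarith
    have h2 : yw v ^ 2 = 1 := by
      unfold yw
      rw [h1, mul_pow, inv_pow, sq_abs]
      have : v ^ 2 ≠ 0 := by
        have : v ≠ 0 := abs_pos.mp hv
        positivity
      exact mul_inv_cancel₀ this
    rw [h2]
    have h3 := bw_pos v
    have h4 := bw_le v
    nlinarith

section
variable {ι : Type*} [Fintype ι] [DecidableEq ι]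

/-- matrix diagonalised by a flat unitary -/
noncomputable def FD (F : Matrix ι ι ℂ) (m : ι → ℂ) : Matrix ι ι ℂ := F * Matrix.diagonal m * Fᴴ

/-- scaling -/
noncomputable def sd (η : ℝ) (m : ι → ℂ) (k : ι) : ℝ := (Real.sqrt (‖m k‖ + η))⁻¹

lemma sd_pos {η : ℝ} (hη : 0 < η) (m : ι → ℂ) (k : ι) : 0 < sd η m k := by
  unfold sd; positivity

lemma sd_sq {η : ℝ} (hη : 0 < η) (m : ι → ℂ) (k : ι) : sd η m k ^ 2 = (‖m k‖ + η)⁻¹ := by
  unfold sd
  rw [inv_pow, Real.sq_sqrt (by positivity)]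

/-- scaled matrix -/
noncomputable def SC (F : Matrix ι ι ℂ) (m : ι → ℂ) (s : ι → Site) (η : ℝ) (z : ℂ) (V : Site → ℝ) :
    Matrix ι ι ℂ :=
  Matrix.diagonal (fun k => (sd η m k : ℂ)) * (Fᴴ * (GM (FD F m) (fun _ => z) s
    (fun x => ((V x : ℝ) : ℂ)) * Matrix.diagonal (fun p => (bw (V (s p)) : ℂ))) * F)
    * Matrix.diagonal (fun k => (sd η m k : ℂ))

lemma norm_det_unitary {F : Matrix ι ι ℂ} (hF : Fᴴ * F = 1) : ‖F.det‖ = 1 := by
  have h := congrArg Matrix.det hF
  rw [Matrix.det_mul, Matrix.det_one, Matrix.det_conjTranspose, RCLike.star_def,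
    ← Complex.normSq_eq_conj_mul_self, Complex.normSq_eq_norm_sq] at h
  have h2 : ‖F.det‖ ^ 2 = 1 := by exact_mod_cast h
  have h3 := norm_nonneg F.det
  nlinarith

lemma norm_det_FD {F : Matrix ι ι ℂ} (hF : Fᴴ * F = 1) (m : ι → ℂ) : ‖(FD F m).det‖ = ∏ k, ‖m k‖ := by
  unfold FD
  rw [Matrix.det_mul, Matrix.det_mul, norm_mul, norm_mul, Matrix.det_conjTranspose, norm_star,
    norm_det_unitary hF, Matrix.det_diagonal, norm_prod]
  ring

lemma log_det_GM {F : Matrix ι ι ℂ} (hF : Fᴴ * F = 1) (m : ι → ℂ) (s : ι → Site) {η : ℝ} (hη : 0 < η)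
    (z : ℂ) (V : Site → ℝ) (hdet : (GM (FD F m) (fun _ => z) s (fun x => ((V x : ℝ) : ℂ))).det ≠ 0) :
    Real.log ‖(GM (FD F m) (fun _ => z) s (fun x => ((V x : ℝ) : ℂ))).det‖
      ≤ ∑ k, Real.log (‖m k‖ + η) + ∑ p, Real.log (max 1 |V (s p)|)
        + (fro (SC F m s η z V) - Fintype.card ι) / 2 := by
  set K := GM (FD F m) (fun _ => z) s (fun x => ((V x : ℝ) : ℂ)) with hK
  have hKpos : 0 < ‖K.det‖ := norm_pos_iff.mpr hdet
  have h1 : ‖(SC F m s η z V).det‖ = (∏ k, sd η m k) * (‖K.det‖ * ∏ p, bw (V (s p))) * ∏ k, sd η m k := by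
    unfold SC
    rw [Matrix.det_mul, Matrix.det_mul, Matrix.det_mul, Matrix.det_mul, Matrix.det_mul,
      Matrix.det_diagonal, Matrix.det_diagonal, Matrix.det_conjTranspose]
    simp only [norm_mul, norm_star, norm_det_unitary hF, norm_prod, Complex.norm_real, Real.norm_eq_abs]
    have e1 : ∀ k, |sd η m k| = sd η m k := fun k => abs_of_pos (sd_pos hη m k)
    have e2 : ∀ p, |bw (V (s p))| = bw (V (s p)) := fun p => abs_of_pos (bw_pos _)
    simp only [e1, e2]
    ring
  have hs1 : 0 < ∏ k, sd η m k := Finset.prod_pos (fun k _ => sd_pos hη m k)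
  have hs2 : 0 < ∏ p, bw (V (s p)) := Finset.prod_pos (fun p _ => bw_pos _)
  have hne : (SC F m s η z V).det ≠ 0 := by
    rw [← norm_pos_iff, h1]; positivity
  have h2 := log_det_le _ hne
  rw [h1, Real.log_mul (by positivity) hs1.ne', Real.log_mul hs1.ne' (by positivity),
    Real.log_mul hKpos.ne' hs2.ne', Real.log_prod (fun k _ => (sd_pos hη m k).ne'),
    Real.log_prod (fun p _ => (bw_pos _).ne')] at h2
  have h3 : ∀ k, Real.log (sd η m k) = -(1 / 2) * Real.log (‖m k‖ + η) := by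
    intro k
    unfold sd
    rw [Real.log_inv, Real.log_sqrt (by positivity)]
    ring
  have h4 : ∀ p, Real.log (bw (V (s p))) = -Real.log (max 1 |V (s p)|) := by
    intro p
    unfold bw
    rw [Real.log_inv]
  simp only [h3, h4, Finset.sum_neg_distrib] at h2
  rw [← Finset.mul_sum] at h2
  linarith

/-- entries of the scaled matrix -/
lemma SC_entry {F : Matrix ι ι ℂ} (hF : Fᴴ * F = 1) (m : ι → ℂ) (s : ι → Site) (η : ℝ)
    (z : ℂ) (V : Site → ℝ) (x0 : ℝ) (k l : ι) :
    SC F m s η z V k l = (sd η m k : ℂ) * (sd η m l : ℂ) * ((if k = l then m k * (x0 : ℂ) else 0)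
      + ∑ p, (star (F p k) * F p l) * (m k * ((bw (V (s p)) - x0 : ℝ) : ℂ)
        + z * ((yw (V (s p)) : ℝ) : ℂ))) := by
  have h1 : Fᴴ * (GM (FD F m) (fun _ => z) s (fun x => ((V x : ℝ) : ℂ))
      * Matrix.diagonal (fun p => (bw (V (s p)) : ℂ))) * F
      = Matrix.diagonal m * (Fᴴ * Matrix.diagonal (fun p => (bw (V (s p)) : ℂ)) * F)
        + Fᴴ * Matrix.diagonal (fun p => z * ((yw (V (s p)) : ℝ) : ℂ)) * F := by
    have h2 : GM (FD F m) (fun _ => z) s (fun x => ((V x : ℝ) : ℂ))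
        = FD F m + Matrix.diagonal (fun p => z * ((V (s p) : ℝ) : ℂ)) := by
      ext p q
      rw [Matrix.add_apply, Matrix.diagonal_apply]
      rfl
    have h3 : Matrix.diagonal (fun p => z * ((V (s p) : ℝ) : ℂ))
        * Matrix.diagonal (fun p => (bw (V (s p)) : ℂ))
        = Matrix.diagonal (fun p => z * ((yw (V (s p)) : ℝ) : ℂ)) := by
      rw [Matrix.diagonal_mul_diagonal]
      congr 1
      funext p
      unfold yw
      push_cast; ring
    rw [h2, Matrix.add_mul, h3, Matrix.mul_add, Matrix.add_mul]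
    congr 1
    unfold FD
    calc Fᴴ * (F * Matrix.diagonal m * Fᴴ * Matrix.diagonal (fun p => (bw (V (s p)) : ℂ))) * F
        = (Fᴴ * F) * Matrix.diagonal m * (Fᴴ * Matrix.diagonal (fun p => (bw (V (s p)) : ℂ)) * F) := by
          simp only [Matrix.mul_assoc]
      _ = _ := by rw [hF, Matrix.one_mul]
  unfold SC
  rw [h1, Matrix.mul_diagonal, Matrix.diagonal_mul, Matrix.add_apply, Matrix.diagonal_mul]
  have h4 : ∀ g : ι → ℂ, (Fᴴ * Matrix.diagonal g * F) k l = ∑ p, (star (F p k) * F p l) * g p := by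
    intro g
    rw [Matrix.mul_apply]
    apply Finset.sum_congr rfl
    intro p _
    rw [Matrix.mul_diagonal, Matrix.conjTranspose_apply]
    ring
  have h5 : ∑ p, star (F p k) * F p l = if k = l then 1 else 0 := by
    have := congrFun (congrFun hF k) l
    rw [Matrix.mul_apply, Matrix.one_apply] at this
    simpa only [Matrix.conjTranspose_apply] using this
  rw [h4, h4]
  have h6 : (if k = l then m k * (x0 : ℂ) else 0) = m k * x0 * ∑ p, star (F p k) * F p l := by
    rw [h5]; split_ifs <;> simp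
  rw [h6]
  have h7 : m k * ∑ p, star (F p k) * F p l * (bw (V (s p)) : ℂ)
      + ∑ p, star (F p k) * F p l * (z * ((yw (V (s p)) : ℝ) : ℂ))
      = m k * x0 * ∑ p, star (F p k) * F p l
        + ∑ p, star (F p k) * F p l * (m k * ((bw (V (s p)) - x0 : ℝ) : ℂ) + z * ((yw (V (s p)) : ℝ) : ℂ)) := by
    simp only [Finset.mul_sum]
    rw [← Finset.sum_add_distrib, ← Finset.sum_add_distrib]
    apply Finset.sum_congr rfl
    intro p _
    push_cast
    ring
  rw [h7]
  ring

/-- second moment of the truncated potential -/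
noncomputable def Y2 (μ : Measure ℝ) (lam kap : ℝ) : ℝ := ∫ t, (yw (lam * t - kap)) ^ 2 ∂μ
/-- logarithmic moment -/
noncomputable def LB (μ : Measure ℝ) (lam kap : ℝ) : ℝ := ∫ t, Real.log (max 1 |lam * t - kap|) ∂μ

lemma Y2_nonneg (μ : Measure ℝ) (lam kap : ℝ) : 0 ≤ Y2 μ lam kap :=
  integral_nonneg (fun t => sq_nonneg _)

lemma LB_nonneg (μ : Measure ℝ) (lam kap : ℝ) : 0 ≤ LB μ lam kap :=
  integral_nonneg (fun t => Real.log_nonneg (le_max_left _ _))

/-- expected Frobenius norm of the scaled matrix -/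
lemma exp_fro_SC {μ : Measure ℝ} [IsProbabilityMeasure μ] {lam kap : ℝ}
    (hy0 : ∫ t, yw (lam * t - kap) ∂μ = 0) {F : Matrix ι ι ℂ} (hF : Fᴴ * F = 1)
    (hflat : ∀ p k, ‖F p k‖ ^ 2 = (Fintype.card ι : ℝ)⁻¹) {m : ι → ℂ} (hm : ∀ k, ‖m k‖ ≤ 16)
    {s : ι → Site} (hs : Function.Injective s) {η : ℝ} (hη : 0 < η) {z : ℂ} (hz : ‖z‖ ≤ 2)
    (hn : 0 < Fintype.card ι) {A : ℝ} (hA : ∑ k, (‖m k‖ + η)⁻¹ = Fintype.card ι * A) :
    Integrable (fun w : Site → ℝ => fro (SC F m s η z (pot lam kap w))) (iid Site μ) ∧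
    ∫ w, fro (SC F m s η z (pot lam kap w)) ∂(iid Site μ)
      ≤ Fintype.card ι + Fintype.card ι * (Y2 μ lam kap * (32 * A + 8 * A ^ 2)) := by
  set n : ℝ := (Fintype.card ι : ℝ) with hnd
  have hnpos : 0 < n := by rw [hnd]; exact_mod_cast hn
  set x0 : ℝ := ∫ t, bw (lam * t - kap) ∂μ with hx0
  have hmb : Measurable (fun t : ℝ => bw (lam * t - kap)) := measurable_bw.comp (by fun_prop)
  have hmy : Measurable (fun t : ℝ => yw (lam * t - kap)) := measurable_yw.comp (by fun_prop)
  have hib : Integrable (fun t : ℝ => bw (lam * t - kap)) μ := by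
    apply Integrable.of_bound hmb.aestronglyMeasurable 1
    exact Filter.Eventually.of_forall (fun _ => by
      rw [Real.norm_eq_abs, abs_of_pos (bw_pos _)]; exact bw_le _)
  have hiy : Integrable (fun t : ℝ => yw (lam * t - kap)) μ := by
    apply Integrable.of_bound hmy.aestronglyMeasurable 1
    exact Filter.Eventually.of_forall (fun _ => by
      rw [Real.norm_eq_abs]; exact abs_yw_le _)
  have hx00 : 0 ≤ x0 := integral_nonneg (fun t => (bw_pos _).le)
  have hx01 : x0 ≤ 1 := by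
    have : x0 ≤ ∫ _t : ℝ, (1 : ℝ) ∂μ := integral_mono hib (integrable_const 1) (fun t => bw_le _)
    simpa using this
  -- the mean zero functions
  set h : ι → ℝ → ℂ := fun k t => m k * ((bw (lam * t - kap) - x0 : ℝ) : ℂ)
    + z * ((yw (lam * t - kap) : ℝ) : ℂ) with hh
  have hhm : ∀ k, Measurable (h k) := by
    intro k
    simp only [hh]
    apply Measurable.add
    · exact measurable_const.mul (Complex.measurable_ofReal.comp (hmb.sub measurable_const))
    · exact measurable_const.mul (Complex.measurable_ofReal.comp hmy)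
  have hhb : ∀ k t, ‖h k t‖ ≤ 34 := by
    intro k t
    simp only [hh]
    refine (norm_add_le _ _).trans ?_
    rw [norm_mul, norm_mul, Complex.norm_real, Complex.norm_real, Real.norm_eq_abs, Real.norm_eq_abs]
    have a1 : |bw (lam * t - kap) - x0| ≤ 1 := by
      rw [abs_le]
      have := bw_pos (lam * t - kap)
      have := bw_le (lam * t - kap)
      constructor <;> linarith
    have a2 := abs_yw_le (lam * t - kap)
    have a3 := hm k
    have b1 := mul_le_mul a3 a1 (abs_nonneg _) (by norm_num : (0 : ℝ) ≤ 16)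
    have b2 := mul_le_mul hz a2 (abs_nonneg _) (by norm_num : (0 : ℝ) ≤ 2)
    linarith
  have hh0 : ∀ k, ∫ t, h k t ∂μ = 0 := by
    intro k
    simp only [hh]
    have i1 : Integrable (fun t : ℝ => ((bw (lam * t - kap) - x0 : ℝ) : ℂ)) μ :=
      (hib.sub (integrable_const x0)).ofReal (𝕜 := ℂ)
    have i2 : Integrable (fun t : ℝ => ((yw (lam * t - kap) : ℝ) : ℂ)) μ := hiy.ofReal (𝕜 := ℂ)
    rw [integral_add (i1.const_mul _) (i2.const_mul _), integral_const_mul, integral_const_mul,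
      integral_complex_ofReal, integral_complex_ofReal, hy0, integral_sub hib (integrable_const x0), ← hx0]
    simp
  have hh2 : ∀ k, ∫ t, ‖h k t‖ ^ 2 ∂μ ≤ (2 * ‖m k‖ ^ 2 + 8) * Y2 μ lam kap := by
    intro k
    have iy2 : Integrable (fun t : ℝ => (yw (lam * t - kap)) ^ 2) μ := by
      apply Integrable.of_bound (hmy.pow_const 2).aestronglyMeasurable 1
      exact Filter.Eventually.of_forall (fun t => by
        rw [Real.norm_eq_abs, abs_of_nonneg (sq_nonneg _), ← sq_abs]
        have := abs_yw_le (lam * t - kap)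
        have := abs_nonneg (yw (lam * t - kap))
        nlinarith)
    have hm2 : Measurable (fun t : ℝ => (bw (lam * t - kap) - x0) ^ 2) :=
      (hmb.sub measurable_const).pow_const 2
    have hm3 : Measurable (fun t : ℝ => (bw (lam * t - kap) - 1) ^ 2) :=
      (hmb.sub measurable_const).pow_const 2
    have ib2 : Integrable (fun t : ℝ => (bw (lam * t - kap) - x0) ^ 2) μ := by
      apply Integrable.of_bound hm2.aestronglyMeasurable 1
      exact Filter.Eventually.of_forall (fun t => by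
        rw [Real.norm_eq_abs, abs_of_nonneg (sq_nonneg _)]
        have := bw_pos (lam * t - kap)
        have := bw_le (lam * t - kap)
        nlinarith)
    have ib3 : Integrable (fun t : ℝ => (bw (lam * t - kap) - 1) ^ 2) μ := by
      apply Integrable.of_bound hm3.aestronglyMeasurable 1
      exact Filter.Eventually.of_forall (fun t => by
        rw [Real.norm_eq_abs, abs_of_nonneg (sq_nonneg _)]
        have := bw_pos (lam * t - kap)
        have := bw_le (lam * t - kap)
        nlinarith)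
    have hvar : ∫ t, (bw (lam * t - kap) - x0) ^ 2 ∂μ ≤ Y2 μ lam kap := by
      have e1 : ∀ t, (bw (lam * t - kap) - 1) ^ 2 = (bw (lam * t - kap) - x0) ^ 2
          + (2 * (x0 - 1) * (bw (lam * t - kap) - x0) + (x0 - 1) ^ 2) := fun t => by ring
      have e2 : ∫ t, (bw (lam * t - kap) - 1) ^ 2 ∂μ
          = ∫ t, (bw (lam * t - kap) - x0) ^ 2 ∂μ + (x0 - 1) ^ 2 := by
        simp only [e1]
        have i3 : Integrable (fun t => 2 * (x0 - 1) * (bw (lam * t - kap) - x0)) μ :=
          (hib.sub (integrable_const x0)).const_mul _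
        have i4 : Integrable (fun t => 2 * (x0 - 1) * (bw (lam * t - kap) - x0) + (x0 - 1) ^ 2) μ :=
          i3.add (integrable_const _)
        rw [integral_add ib2 i4, integral_add i3 (integrable_const _), integral_const_mul,
          integral_sub hib (integrable_const x0), ← hx0]
        simp
      have e3 : ∫ t, (bw (lam * t - kap) - 1) ^ 2 ∂μ ≤ Y2 μ lam kap :=
        integral_mono ib3 iy2 (fun t => one_sub_bw_sq_le _)
      nlinarith [sq_nonneg (x0 - 1)]
    have hi6 : Integrable (fun t : ℝ => 2 * ‖m k‖ ^ 2 * (bw (lam * t - kap) - x0) ^ 2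
        + 8 * (yw (lam * t - kap)) ^ 2) μ := (ib2.const_mul _).add (iy2.const_mul _)
    calc ∫ t, ‖h k t‖ ^ 2 ∂μ
        ≤ ∫ t, (2 * ‖m k‖ ^ 2 * (bw (lam * t - kap) - x0) ^ 2 + 8 * (yw (lam * t - kap)) ^ 2) ∂μ := by
          apply integral_mono_of_nonneg (Filter.Eventually.of_forall (fun t => by positivity)) hi6
          apply Filter.Eventually.of_forall
          intro t
          simp only [hh]
          have c1 := norm_add_le (m k * ((bw (lam * t - kap) - x0 : ℝ) : ℂ))
            (z * ((yw (lam * t - kap) : ℝ) : ℂ))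
          rw [norm_mul, norm_mul, Complex.norm_real, Complex.norm_real, Real.norm_eq_abs,
            Real.norm_eq_abs] at c1
          have c2 := pow_le_pow_left₀ (norm_nonneg _) c1 2
          have c3 : ‖z‖ * |yw (lam * t - kap)| ≤ 2 * |yw (lam * t - kap)| :=
            mul_le_mul_of_nonneg_right hz (abs_nonneg _)
          have c4 : (‖z‖ * |yw (lam * t - kap)|) ^ 2 ≤ 4 * (yw (lam * t - kap)) ^ 2 := by
            have := pow_le_pow_left₀ (by positivity) c3 2
            rw [mul_pow 2, sq_abs] at this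
            linarith
          have c5 : (‖m k‖ * |bw (lam * t - kap) - x0|) ^ 2
              = ‖m k‖ ^ 2 * (bw (lam * t - kap) - x0) ^ 2 := by rw [mul_pow, sq_abs]
          nlinarith [sq_nonneg (‖m k‖ * |bw (lam * t - kap) - x0| - ‖z‖ * |yw (lam * t - kap)|)]
      _ = 2 * ‖m k‖ ^ 2 * ∫ t, (bw (lam * t - kap) - x0) ^ 2 ∂μ + 8 * Y2 μ lam kap := by
          rw [integral_add (ib2.const_mul _) (iy2.const_mul _), integral_const_mul, integral_const_mul]
          rfl
      _ ≤ _ := by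
          have := mul_le_mul_of_nonneg_left hvar (by positivity : 0 ≤ 2 * ‖m k‖ ^ 2)
          linarith
  -- entries
  have hE : ∀ k l, Integrable (fun w : Site → ℝ => ‖SC F m s η z (pot lam kap w) k l‖ ^ 2) (iid Site μ) ∧
      ∫ w, ‖SC F m s η z (pot lam kap w) k l‖ ^ 2 ∂(iid Site μ)
      ≤ (if k = l then 1 else 0)
        + ((‖m k‖ + η)⁻¹ * (2 * ‖m k‖ ^ 2 + 8)) * (‖m l‖ + η)⁻¹ * (Y2 μ lam kap * n⁻¹) := by
    intro k l
    have hd1 := sd_sq hη m k
    have hd2 := sd_sq hη m l
    have hform : ∀ w : Site → ℝ, ‖SC F m s η z (pot lam kap w) k l‖ ^ 2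
        = ((‖m k‖ + η)⁻¹ * (‖m l‖ + η)⁻¹) * ‖(if k = l then m k * (x0 : ℂ) else 0)
          + ∑ p, (star (F p k) * F p l) * h k (w (s p))‖ ^ 2 := by
      intro w
      rw [SC_entry hF m s η z (pot lam kap w) x0 k l, norm_mul, norm_mul, Complex.norm_real,
        Complex.norm_real, Real.norm_eq_abs, Real.norm_eq_abs, abs_of_pos (sd_pos hη m k),
        abs_of_pos (sd_pos hη m l), mul_pow, mul_pow, hd1, hd2]
      rfl
    obtain ⟨i1, i2⟩ := cplx_var (μ := μ) (s := s) hs (hhm k) (hhb k) (hh0 k)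
      (if k = l then m k * (x0 : ℂ) else 0) (fun p => star (F p k) * F p l)
    simp only [hform]
    refine ⟨i1.const_mul _, ?_⟩
    rw [integral_const_mul, i2]
    have hsum : ∑ p, ‖star (F p k) * F p l‖ ^ 2 = n⁻¹ := by
      have : ∀ p, ‖star (F p k) * F p l‖ ^ 2 = n⁻¹ * n⁻¹ := by
        intro p
        rw [norm_mul, norm_star, mul_pow, hflat, hflat]
      rw [Finset.sum_congr rfl (fun p _ => this p), Finset.sum_const, Finset.card_univ, nsmul_eq_mul,
        ← hnd]
      field_simp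
    rw [hsum]
    have hk0 : 0 < ‖m k‖ + η := by positivity
    have hl0 : 0 < ‖m l‖ + η := by positivity
    have h5 : (‖m k‖ + η)⁻¹ * (‖m l‖ + η)⁻¹ * ‖(if k = l then m k * (x0 : ℂ) else 0)‖ ^ 2
        ≤ if k = l then 1 else 0 := by
      by_cases hkl : k = l
      · subst hkl
        rw [if_pos rfl, if_pos rfl, norm_mul, Complex.norm_real, Real.norm_eq_abs, abs_of_nonneg hx00,
          ← mul_inv, inv_mul_le_iff₀ (by positivity), mul_one]
        have h6 : ‖m k‖ * x0 ≤ ‖m k‖ + η := by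
          have := mul_le_mul_of_nonneg_left hx01 (norm_nonneg (m k))
          linarith
        have := pow_le_pow_left₀ (by positivity) h6 2
        linarith
      · rw [if_neg hkl, if_neg hkl]; simp
    have h6 : (‖m k‖ + η)⁻¹ * (‖m l‖ + η)⁻¹ * ((∫ t, ‖h k t‖ ^ 2 ∂μ) * n⁻¹)
        ≤ ((‖m k‖ + η)⁻¹ * (2 * ‖m k‖ ^ 2 + 8)) * (‖m l‖ + η)⁻¹ * (Y2 μ lam kap * n⁻¹) := by
      have := mul_le_mul_of_nonneg_right (hh2 k) (inv_nonneg.mpr hnpos.le)
      have h7 := mul_le_mul_of_nonneg_left this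
        (by positivity : 0 ≤ (‖m k‖ + η)⁻¹ * (‖m l‖ + η)⁻¹)
      refine h7.trans_eq ?_
      ring
    rw [mul_add]
    exact add_le_add h5 h6
  unfold fro
  refine ⟨integrable_finsetSum _ (fun k _ => integrable_finsetSum _ (fun l _ => (hE k l).1)), ?_⟩
  rw [integral_finsetSum _ (fun k _ => integrable_finsetSum _ (fun l _ => (hE k l).1))]
  have hY := Y2_nonneg μ lam kap
  have h8 : ∀ k, ∫ w, ∑ l, ‖SC F m s η z (pot lam kap w) k l‖ ^ 2 ∂(iid Site μ)
      ≤ 1 + ((‖m k‖ + η)⁻¹ * (2 * ‖m k‖ ^ 2 + 8)) * (Y2 μ lam kap * A) := by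
    intro k
    rw [integral_finsetSum _ (fun l _ => (hE k l).1)]
    refine (Finset.sum_le_sum (fun l _ => (hE k l).2)).trans_eq ?_
    rw [Finset.sum_add_distrib, Finset.sum_ite_eq, if_pos (Finset.mem_univ k), ← Finset.sum_mul,
      ← Finset.mul_sum, hA]
    congr 1
    field_simp
  refine (Finset.sum_le_sum (fun k _ => h8 k)).trans ?_
  rw [Finset.sum_add_distrib, ← Finset.sum_mul]
  have hA0 : 0 ≤ A := by
    have h9 : 0 ≤ ∑ k, (‖m k‖ + η)⁻¹ := Finset.sum_nonneg (fun k _ => by positivity)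
    rw [hA] at h9
    exact nonneg_of_mul_nonneg_right h9 hnpos
  have h9 : ∑ k, (‖m k‖ + η)⁻¹ * (2 * ‖m k‖ ^ 2 + 8) ≤ n * (32 + 8 * A) := by
    have h10 : ∀ k, (‖m k‖ + η)⁻¹ * (2 * ‖m k‖ ^ 2 + 8) ≤ 32 + 8 * (‖m k‖ + η)⁻¹ := by
      intro k
      have hk0 : 0 < ‖m k‖ + η := by positivity
      rw [mul_add]
      apply add_le_add
      · rw [inv_mul_le_iff₀ hk0]
        have := hm k
        have := norm_nonneg (m k)
        nlinarith
      · rw [mul_comm]
    refine (Finset.sum_le_sum (fun k _ => h10 k)).trans_eq ?_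
    rw [Finset.sum_add_distrib, ← Finset.mul_sum, hA, Finset.sum_const, Finset.card_univ, nsmul_eq_mul,
      ← hnd]
    ring
  have h11 := mul_le_mul_of_nonneg_right h9 (mul_nonneg hY hA0)
  rw [Finset.sum_const, Finset.card_univ, nsmul_eq_mul, ← hnd, mul_one]
  refine (add_le_add le_rfl h11).trans_eq ?_
  ring

end

end Pool.Agent.Helper19
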