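import Pool.Agent.Helper19.Box

set_option autoImplicit false

open MeasureTheory Filter Topology Matrix
open scoped ENNReal NNReal ComplexOrder

namespace Pool.Agent.Helper19

section
variable {L : ℕ} [NeZero L]

/-- residue classes -/
def zq : Fin L ≃ ZMod L where
  toFun x := ((x : ℕ) : ZMod L)
  invFun a := ⟨a.val, ZMod.val_lt a⟩
  left_inv x := Fin.ext (ZMod.val_natCast_of_lt x.2)
  right_inv a := ZMod.natCast_zmod_val a

lemma zq_apply (x : Fin L) : zq x = ((x : ℕ) : ZMod L) := rfl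

/-- the standard character -/
noncomputable def chi (a : ZMod L) : ℂ := ZMod.stdAddChar a

lemma chi_add (a b : ZMod L) : chi (a + b) = chi a * chi b := AddChar.map_add_eq_mul _ _ _
lemma chi_zero : chi (0 : ZMod L) = 1 := AddChar.map_zero_eq_one _
lemma chi_neg (a : ZMod L) : chi (-a) = star (chi a) := AddChar.map_neg_eq_conj _ _
lemma norm_chi (a : ZMod L) : ‖chi a‖ = 1 := by
  unfold chi
  rw [ZMod.stdAddChar_apply, Circle.norm_coe]
lemma sum_chi (b : ZMod L) : ∑ x : ZMod L, chi (x * b) = if b = 0 then (L : ℂ) else 0 := by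
  have := AddChar.sum_mulShift b (ZMod.isPrimitive_stdAddChar L)
  rw [ZMod.card] at this
  unfold chi
  rw [this]
  push_cast
  rfl

/-- the Fourier matrix -/
noncomputable def FU (L : ℕ) [NeZero L] : Matrix (Fin L × Fin L) (Fin L × Fin L) ℂ :=
  fun p k => ((L : ℂ))⁻¹ * chi (zq p.1 * zq k.1 + zq p.2 * zq k.2)

lemma norm_FU (p k : Fin L × Fin L) : ‖FU L p k‖ = (L : ℝ)⁻¹ := by
  unfold FU
  rw [norm_mul, norm_chi, mul_one, norm_inv, Complex.norm_natCast]

lemma FU_unitary : (FU L)ᴴ * (FU L) = 1 := by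
  have hL : (L : ℂ) ≠ 0 := by exact_mod_cast NeZero.ne L
  ext k l
  rw [Matrix.mul_apply, Matrix.one_apply]
  have h1 : ∀ p : Fin L × Fin L, (FU L)ᴴ k p * FU L p l
      = ((L : ℂ) ^ 2)⁻¹ * (chi (zq p.1 * (zq l.1 - zq k.1)) * chi (zq p.2 * (zq l.2 - zq k.2))) := by
    intro p
    rw [Matrix.conjTranspose_apply]
    unfold FU
    have : zq p.1 * (zq l.1 - zq k.1) + zq p.2 * (zq l.2 - zq k.2)
      = -(zq p.1 * zq k.1 + zq p.2 * zq k.2) + (zq p.1 * zq l.1 + zq p.2 * zq l.2) := by ring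
    rw [star_mul', star_inv₀, star_natCast, ← chi_neg,
      ← chi_add (zq p.1 * (zq l.1 - zq k.1)) (zq p.2 * (zq l.2 - zq k.2)), this,
      chi_add (-(zq p.1 * zq k.1 + zq p.2 * zq k.2)) (zq p.1 * zq l.1 + zq p.2 * zq l.2)]
    ring
  rw [Finset.sum_congr rfl (fun p _ => h1 p), ← Finset.mul_sum, Fintype.sum_prod_type]
  simp only
  have h2 : ∑ x : Fin L, ∑ y : Fin L, chi (zq x * (zq l.1 - zq k.1)) * chi (zq y * (zq l.2 - zq k.2))
      = (∑ x : ZMod L, chi (x * (zq l.1 - zq k.1))) * (∑ y : ZMod L, chi (y * (zq l.2 - zq k.2))) := by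
    rw [← Equiv.sum_comp (zq (L := L)) (fun x => chi (x * (zq l.1 - zq k.1))),
      ← Equiv.sum_comp (zq (L := L)) (fun x => chi (x * (zq l.2 - zq k.2))), Finset.sum_mul_sum]
  rw [h2, sum_chi, sum_chi]
  have h3 : (zq l.1 - zq k.1 = 0) ↔ k.1 = l.1 := by
    rw [sub_eq_zero, (zq (L := L)).apply_eq_iff_eq]; exact eq_comm
  have h4 : (zq l.2 - zq k.2 = 0) ↔ k.2 = l.2 := by
    rw [sub_eq_zero, (zq (L := L)).apply_eq_iff_eq]; exact eq_comm
  simp only [h3, h4]
  by_cases h5 : k.1 = l.1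
  · by_cases h6 : k.2 = l.2
    · rw [if_pos h5, if_pos h6, if_pos (Prod.ext h5 h6)]
      field_simp
    · rw [if_neg h6, if_neg (fun h => h6 (congrArg Prod.snd h))]
      ring
  · rw [if_neg h5, if_neg (fun h => h5 (congrArg Prod.fst h))]
    ring

/-- torus neighbours -/
def tn (p : Fin L × Fin L) (d : Site) (q : Fin L × Fin L) : Prop :=
  zq q.1 = zq p.1 + (d.1 : ZMod L) ∧ zq q.2 = zq p.2 + (d.2 : ZMod L)

instance (p : Fin L × Fin L) (d : Site) (q : Fin L × Fin L) : Decidable (tn p d q) := by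
  unfold tn; infer_instance

/-- the torus adjacency matrix -/
def PA (L : ℕ) [NeZero L] : Matrix (Fin L × Fin L) (Fin L × Fin L) ℂ :=
  fun p q => ∑ d ∈ dirs, if tn p d q then 1 else 0

/-- eigenvalue -/
noncomputable def al (k : Fin L × Fin L) : ℝ := 2 * (chi (zq k.1)).re + 2 * (chi (zq k.2)).re

lemma al_eq (k : Fin L × Fin L) :
    ∑ d ∈ dirs, chi ((d.1 : ZMod L) * zq k.1 + (d.2 : ZMod L) * zq k.2) = (al k : ℂ) := by
  rw [sum_dirs]
  simp only [Int.cast_one, Int.cast_zero, Int.cast_neg, one_mul, zero_mul, add_zero, zero_add, neg_mul]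
  rw [chi_neg, chi_neg]
  unfold al
  have h : ∀ c : ℂ, c + star c = ((2 * c.re : ℝ) : ℂ) := fun c => Complex.add_conj c
  push_cast
  have h1 := h (chi (zq k.1))
  have h2 := h (chi (zq k.2))
  push_cast at h1 h2
  rw [← h1, ← h2]
  ring

lemma exists_tn (p : Fin L × Fin L) (d : Site) :
    ∃ q0, ∀ q, tn p d q ↔ q = q0 := by
  refine ⟨(zq.symm (zq p.1 + (d.1 : ZMod L)), zq.symm (zq p.2 + (d.2 : ZMod L))), fun q => ?_⟩
  unfold tn
  rw [Prod.ext_iff, Equiv.eq_symm_apply, Equiv.eq_symm_apply]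

lemma PA_mul_FU : PA L * FU L = FU L * Matrix.diagonal (fun k => (al k : ℂ)) := by
  ext p k
  rw [Matrix.mul_apply, Matrix.mul_diagonal, ← al_eq]
  unfold PA
  simp only [Finset.sum_mul]
  rw [Finset.sum_comm, Finset.mul_sum]
  apply Finset.sum_congr rfl
  intro d _
  obtain ⟨q0, hq0⟩ := exists_tn p d
  simp only [ite_mul, one_mul, zero_mul, hq0, Finset.sum_ite_eq', Finset.mem_univ, if_true]
  have h := (hq0 q0).mpr rfl
  unfold FU
  rw [h.1, h.2, mul_assoc, ← chi_add]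
  congr 2
  ring

end

end Pool.Agent.Helper19
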