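import Mathlib
set_option autoImplicit false
open scoped ComplexOrder

namespace Pool.Agent.Helper19.Gam

variable {A : Type} [CStarAlgebra A]

/-- a faithful tracial state on a C*-algebra -/
structure Tr (τ : A →ₗ[ℂ] ℂ) : Prop where
  one : τ 1 = 1
  comm : ∀ x y, τ (x * y) = τ (y * x)
  nonneg : ∀ x, 0 ≤ τ (star x * x)
  faith : ∀ x, τ (star x * x) = 0 → x = 0

/-- the 2-norm -/
noncomputable def n2 (τ : A →ₗ[ℂ] ℂ) (x : A) : ℝ := Real.sqrt (τ (star x * x)).re

/-- type synonym carrying the inner product of the trace -/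
def L2 {τ : A →ₗ[ℂ] ℂ} (_hτ : Tr τ) : Type := A

section L2
variable {τ : A →ₗ[ℂ] ℂ} (hτ : Tr τ)

instance : AddCommGroup (L2 hτ) := inferInstanceAs (AddCommGroup A)
noncomputable instance : Module ℂ (L2 hτ) := inferInstanceAs (Module ℂ A)

/-- the identity map -/
def toL2 (x : A) : L2 hτ := x

theorem τ_star (hτ : Tr τ) (x : A) : τ (star x) = star (τ x) := by
  -- from positivity of `τ (star (1 + c x) (1 + c x))`
  have h1 := hτ.nonneg (1 + x)
  have h2 := hτ.nonneg (1 + Complex.I • x)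
  have h3 := hτ.nonneg x
  have e1 : star (1 + x) * (1 + x) = 1 + x + star x + star x * x := by
    rw [star_add, star_one]; noncomm_ring
  have e2 : star (1 + Complex.I • x) * (1 + Complex.I • x)
      = 1 + Complex.I • x - Complex.I • star x + star x * x := by
    rw [star_add, star_one, star_smul]
    simp only [Complex.star_def, Complex.conj_I, mul_add, add_mul, one_mul, mul_one,
      smul_mul_assoc, mul_smul_comm]
    rw [smul_add, smul_smul, mul_neg, Complex.I_mul_I, neg_neg, one_smul, neg_smul]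
    abel
  rw [e1] at h1
  rw [e2] at h2
  simp only [map_add, map_sub, map_smul, hτ.one, smul_eq_mul] at h1 h2
  rw [Complex.nonneg_iff] at h1 h2 h3
  apply Complex.ext
  · have := h2.2
    simp only [Complex.add_im, Complex.sub_im, Complex.one_im, Complex.mul_im, Complex.I_re,
      Complex.I_im, zero_mul, one_mul, zero_add] at this
    simp only [Complex.star_def, Complex.conj_re]
    linarith [h3.2]
  · have := h1.2
    simp only [Complex.add_im, Complex.one_im] at this
    simp only [Complex.star_def, Complex.conj_im]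
    linarith [h3.2]

/-- the identity map -/
def ofL2 (x : L2 hτ) : A := x

/-- inner product core -/
@[instance_reducible]
noncomputable def core : InnerProductSpace.Core ℂ (L2 hτ) where
  inner x y := τ (star (ofL2 hτ x) * (ofL2 hτ y))
  conj_inner_symm x y := by
    have h := τ_star hτ (star (ofL2 hτ y) * (ofL2 hτ x))
    rw [star_mul, star_star] at h
    simp only [starRingEnd_apply]
    exact h.symm
  re_inner_nonneg x := by
    have := (Complex.nonneg_iff.1 (hτ.nonneg (ofL2 hτ x))).1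
    exact this
  add_left x y z := by
    show τ (star (ofL2 hτ x + ofL2 hτ y) * (ofL2 hτ z)) = _
    rw [star_add, add_mul, map_add]
  smul_left x y r := by
    show τ (star (r • (ofL2 hτ x)) * (ofL2 hτ y)) = _
    rw [star_smul, smul_mul_assoc, map_smul, smul_eq_mul]
    rfl
  definite x h := hτ.faith (ofL2 hτ x) h

noncomputable instance : NormedAddCommGroup (L2 hτ) := (core hτ).toNormedAddCommGroup
noncomputable instance : InnerProductSpace ℂ (L2 hτ) := InnerProductSpace.ofCore (core hτ).toCore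

theorem inner_def (x y : A) : inner ℂ (toL2 hτ x) (toL2 hτ y) = τ (star x * y) := rfl

theorem norm_toL2 (x : A) : ‖toL2 hτ x‖ = n2 τ x := by
  rw [norm_eq_sqrt_re_inner (𝕜 := ℂ), inner_def]
  rfl

end L2

section basic
variable {τ : A →ₗ[ℂ] ℂ} (hτ : Tr τ)
include hτ

theorem n2_nonneg (x : A) : 0 ≤ n2 τ x := Real.sqrt_nonneg _

theorem n2_sq (x : A) : n2 τ x ^ 2 = (τ (star x * x)).re :=
  Real.sq_sqrt (Complex.nonneg_iff.1 (hτ.nonneg x)).1

theorem n2_add (x y : A) : n2 τ (x + y) ≤ n2 τ x + n2 τ y := by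
  simp only [← norm_toL2 hτ]
  exact norm_add_le (toL2 hτ x) (toL2 hτ y)

theorem n2_sub (x y : A) : n2 τ (x - y) ≤ n2 τ x + n2 τ y := by
  simp only [← norm_toL2 hτ]
  exact norm_sub_le (toL2 hτ x) (toL2 hτ y)

theorem n2_neg (x : A) : n2 τ (-x) = n2 τ x := by
  simp only [← norm_toL2 hτ]
  exact norm_neg (toL2 hτ x)

theorem n2_zero : n2 τ (0 : A) = 0 := by
  simp only [← norm_toL2 hτ]
  exact norm_zero (E := L2 hτ)

theorem n2_smul (c : ℂ) (x : A) : n2 τ (c • x) = ‖c‖ * n2 τ x := by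
  simp only [← norm_toL2 hτ]
  exact norm_smul c (toL2 hτ x)

theorem n2_sum {ι : Type} (s : Finset ι) (f : ι → A) :
    n2 τ (∑ i ∈ s, f i) ≤ ∑ i ∈ s, n2 τ (f i) := by
  simp only [← norm_toL2 hτ]
  exact norm_sum_le s (fun i => toL2 hτ (f i))

theorem n2_star (x : A) : n2 τ (star x) = n2 τ x := by
  unfold n2; rw [star_star, hτ.comm]

theorem cs (x y : A) : ‖τ (star x * y)‖ ≤ n2 τ x * n2 τ y := by
  simp only [← norm_toL2 hτ, ← inner_def hτ]
  exact norm_inner_le_norm _ _

theorem n2_one : n2 τ (1 : A) = 1 := by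
  unfold n2; rw [star_one, mul_one, hτ.one]; simp

theorem n2_unitary_mul (u x : A) (hu : star u * u = 1) : n2 τ (u * x) = n2 τ x := by
  unfold n2
  rw [star_mul, mul_assoc, ← mul_assoc (star u), hu, one_mul]

theorem n2_mul_unitary (u x : A) (hu : u * star u = 1) : n2 τ (x * u) = n2 τ x := by
  rw [← n2_star hτ, star_mul, n2_unitary_mul hτ _ _ (by rw [star_star]; exact hu), n2_star hτ]

/-- positivity of the trace on products of positive elements -/
theorem pos_mul (c d : A) : 0 ≤ (τ ((star c * c) * (star d * d))).re := by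
  have : τ ((star c * c) * (star d * d)) = τ (star (c * star d) * (c * star d)) := by
    rw [star_mul, star_star, ← mul_assoc (star c * c), hτ.comm, ← mul_assoc, ← mul_assoc,
      mul_assoc (d * star c)]
  rw [this]
  exact (Complex.nonneg_iff.1 (hτ.nonneg _)).1

theorem n2_mul_left (x y : A) : n2 τ (x * y) ≤ ‖x‖ * n2 τ y := by
  let _ := CStarAlgebra.spectralOrder A
  let _ := CStarAlgebra.spectralOrderedRing A
  have h1 : 0 ≤ algebraMap ℝ A (‖x‖ ^ 2) - star x * x := by
    rw [sub_nonneg]; exact CStarAlgebra.star_mul_le_algebraMap_norm_sq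
  obtain ⟨c, hc⟩ := CStarAlgebra.nonneg_iff_eq_star_mul_self.1 h1
  have h2 : (τ (star (x * y) * (x * y))).re ≤ ‖x‖ ^ 2 * (τ (star y * y)).re := by
    have e : star (c * y) * (c * y) = (‖x‖ ^ 2 : ℂ) • (star y * y) - star (x * y) * (x * y) := by
      rw [star_mul, mul_assoc, ← mul_assoc (star c), ← hc, Algebra.algebraMap_eq_smul_one]
      rw [sub_mul, mul_sub, star_mul]
      congr 1
      · rw [smul_mul_assoc, one_mul, mul_smul_comm]
        rw [← Complex.coe_smul]; push_cast; rfl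
      · noncomm_ring
    have h3 := (Complex.nonneg_iff.1 (hτ.nonneg (c * y))).1
    rw [e, map_sub, map_smul] at h3
    simp only [Complex.sub_re, smul_eq_mul] at h3
    have : ((‖x‖ ^ 2 : ℂ) * τ (star y * y)).re = ‖x‖ ^ 2 * (τ (star y * y)).re := by
      rw [← Complex.ofReal_pow, Complex.re_ofReal_mul]
    linarith
  have h4 : n2 τ (x * y) ^ 2 ≤ (‖x‖ * n2 τ y) ^ 2 := by
    rw [n2_sq hτ, mul_pow, n2_sq hτ]; exact h2
  exact le_of_sq_le_sq h4 (by have := n2_nonneg hτ y; positivity)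

theorem n2_mul_right (x y : A) : n2 τ (x * y) ≤ n2 τ x * ‖y‖ := by
  rw [← n2_star hτ, star_mul]
  have := n2_mul_left hτ (star y) (star x)
  rw [n2_star hτ, norm_star] at this
  linarith [mul_comm ‖y‖ (n2 τ x)]

theorem n2_le_norm (x : A) : n2 τ x ≤ ‖x‖ := by
  have := n2_mul_left hτ x 1
  rwa [mul_one, n2_one hτ, mul_one] at this

theorem norm_tau_le (x : A) : ‖τ x‖ ≤ n2 τ x := by
  have := cs hτ 1 x
  rwa [star_one, one_mul, n2_one hτ, one_mul] at this

theorem n2_sub_sq (x y : A) :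
    n2 τ (x - y) ^ 2 = n2 τ x ^ 2 + n2 τ y ^ 2 - 2 * (τ (star x * y)).re := by
  have := @norm_sub_sq ℂ (L2 hτ) _ _ _ (toL2 hτ x) (toL2 hτ y)
  have e : toL2 hτ x - toL2 hτ y = toL2 hτ (x - y) := rfl
  rw [e, norm_toL2, norm_toL2, norm_toL2, inner_def] at this
  rw [this]
  simp only [RCLike.re_to_complex]
  ring

theorem n2_add_sq (x y : A) :
    n2 τ (x + y) ^ 2 = n2 τ x ^ 2 + n2 τ y ^ 2 + 2 * (τ (star x * y)).re := by
  have := @norm_add_sq ℂ (L2 hτ) _ _ _ (toL2 hτ x) (toL2 hτ y)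
  have e : toL2 hτ x + toL2 hτ y = toL2 hτ (x + y) := rfl
  rw [e, norm_toL2, norm_toL2, norm_toL2, inner_def] at this
  rw [this]
  simp only [RCLike.re_to_complex]
  ring

theorem tau_conj (u x : A) (hu : star u * u = 1) : τ (u * x * star u) = τ x := by
  rw [hτ.comm, ← mul_assoc, hu, one_mul]

end basic

/-- the commutator -/
def cm (x y : A) : A := x * y - y * x

/-- the average squared commutator of a family with `y` -/
noncomputable def Dav (τ : A →ₗ[ℂ] ℂ) {ι : Type} [Fintype ι] (x : ι → A) (y : A) : ℝ :=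
  (Fintype.card ι : ℝ)⁻¹ * ∑ i, n2 τ (cm (x i) y) ^ 2

/-- the average of the conjugates -/
noncomputable def Tav {ι : Type} [Fintype ι] (x : ι → A) (y : A) : A :=
  (Fintype.card ι : ℂ)⁻¹ • ∑ i, x i * y * star (x i)

/-- the norm gap with slack `1/10` -/
def Gp (τ : A →ₗ[ℂ] ℂ) {ι : Type} [Fintype ι] (x : ι → A) (γ : ℝ) : Prop :=
  ∀ y : A, ‖y‖ ≤ 1 → τ y = 0 → n2 τ (Tav x y) ^ 2 ≤ (1 - γ) * n2 τ y ^ 2 + γ * (1/10)

/-- some family of `2^K` unitaries has the gap `γ` -/
def HasGap (τ : A →ₗ[ℂ] ℂ) (K : ℕ) (γ : ℝ) : Prop :=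
  ∃ x : Fin (2 ^ K) → A, (∀ i, x i ∈ unitary A) ∧ Gp τ x γ

end Pool.Agent.Helper19.Gam
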