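import Mathlib
import Pool.Agent.Helper19.GBase
set_option autoImplicit false
open scoped ComplexOrder

namespace Pool.Agent.Helper19.Gam

variable {A : Type} [CStarAlgebra A] {τ : A →ₗ[ℂ] ℂ} (hτ : Tr τ)

theorem norm_conj_le {x y : A} (hx : x ∈ unitary A) : ‖x * y * star x‖ = ‖y‖ := by
  have h1 : ‖x * y * star x‖ = ‖x * y‖ :=
    CStarRing.norm_mul_mem_unitary _ (Unitary.star_mem hx)
  rw [h1]
  exact CStarRing.norm_mem_unitary_mul y hx

theorem norm_Tav_le {ι : Type} [Fintype ι] [Nonempty ι] (x : ι → A)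
    (hx : ∀ i, x i ∈ unitary A) (y : A) : ‖Tav x y‖ ≤ ‖y‖ := by
  unfold Tav
  rw [norm_smul]
  have h1 : ‖∑ i, x i * y * star (x i)‖ ≤ Fintype.card ι * ‖y‖ := by
    refine (norm_sum_le _ _).trans ?_
    simp_rw [norm_conj_le (hx _)]
    simp [Finset.card_univ]
  have h2 : (0:ℝ) < Fintype.card ι := by exact_mod_cast Fintype.card_pos
  have h3 : ‖((Fintype.card ι : ℂ))⁻¹‖ = (Fintype.card ι : ℝ)⁻¹ := by
    rw [norm_inv]; simp
  rw [h3]
  calc (Fintype.card ι : ℝ)⁻¹ * ‖∑ i, x i * y * star (x i)‖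
      ≤ (Fintype.card ι : ℝ)⁻¹ * (Fintype.card ι * ‖y‖) := by gcongr
    _ = ‖y‖ := by field_simp

include hτ in
theorem tau_Tav {ι : Type} [Fintype ι] [Nonempty ι] (x : ι → A)
    (hx : ∀ i, x i ∈ unitary A) (y : A) : τ (Tav x y) = τ y := by
  unfold Tav
  rw [map_smul, map_sum]
  have : ∀ i, τ (x i * y * star (x i)) = τ y := fun i => tau_conj hτ _ _ (hx i).1
  simp only [this, Finset.sum_const, Finset.card_univ, nsmul_eq_mul, smul_eq_mul]
  have h2 : (Fintype.card ι : ℂ) ≠ 0 := by exact_mod_cast Fintype.card_ne_zero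
  field_simp

include hτ in
theorem n2_conj {x y : A} (hx : x ∈ unitary A) : n2 τ (x * y * star x) = n2 τ y := by
  rw [n2_mul_unitary hτ _ _ (by rw [star_star]; exact hx.1), n2_unitary_mul hτ _ _ hx.1]

include hτ in
theorem n2_Tav_le {ι : Type} [Fintype ι] [Nonempty ι] (x : ι → A)
    (hx : ∀ i, x i ∈ unitary A) (y : A) : n2 τ (Tav x y) ≤ n2 τ y := by
  unfold Tav
  rw [n2_smul hτ]
  have h1 : n2 τ (∑ i, x i * y * star (x i)) ≤ Fintype.card ι * n2 τ y := by
    refine (n2_sum hτ _ _).trans ?_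
    simp_rw [n2_conj hτ (hx _)]
    simp [Finset.card_univ]
  have h2 : (0:ℝ) < Fintype.card ι := by exact_mod_cast Fintype.card_pos
  have h3 : ‖((Fintype.card ι : ℂ))⁻¹‖ = (Fintype.card ι : ℝ)⁻¹ := by
    rw [norm_inv]; simp
  rw [h3]
  calc (Fintype.card ι : ℝ)⁻¹ * n2 τ (∑ i, x i * y * star (x i))
      ≤ (Fintype.card ι : ℝ)⁻¹ * (Fintype.card ι * n2 τ y) := by gcongr
    _ = n2 τ y := by field_simp

include hτ in
theorem n2_cm_eq {x : A} (hx : x ∈ unitary A) (y : A) :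
    n2 τ (cm x y) = n2 τ (x * y * star x - y) := by
  have h1 : cm x y = (x * y * star x - y) * x := by
    unfold cm
    rw [sub_mul, mul_assoc (x * y), hx.1, mul_one]
  rw [h1, n2_mul_unitary hτ _ _ hx.2]

include hτ in
theorem n2_cm_sq {x : A} (hx : x ∈ unitary A) (y : A) :
    n2 τ (cm x y) ^ 2 = 2 * n2 τ y ^ 2 - 2 * (τ (star y * (x * y * star x))).re := by
  rw [n2_cm_eq hτ hx, ← n2_neg hτ, neg_sub, n2_sub_sq hτ, n2_conj hτ hx]
  ring

include hτ in
theorem Dav_eq {ι : Type} [Fintype ι] [Nonempty ι] (x : ι → A)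
    (hx : ∀ i, x i ∈ unitary A) (y : A) :
    Dav τ x y = 2 * n2 τ y ^ 2 - 2 * (τ (star y * Tav x y)).re := by
  unfold Dav Tav
  simp_rw [n2_cm_sq hτ (hx _)]
  have h2 : (Fintype.card ι : ℝ) ≠ 0 := by exact_mod_cast Fintype.card_ne_zero
  have e1 : ∑ i, (2 * n2 τ y ^ 2 - 2 * (τ (star y * (x i * y * star (x i)))).re)
      = Fintype.card ι * (2 * n2 τ y ^ 2) - 2 * ∑ i, (τ (star y * (x i * y * star (x i)))).re := by
    rw [Finset.sum_sub_distrib, Finset.mul_sum]
    simp only [Finset.sum_const, Finset.card_univ, nsmul_eq_mul]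
  have e2 : τ (star y * (Fintype.card ι : ℂ)⁻¹ • ∑ i, x i * y * star (x i))
      = (Fintype.card ι : ℂ)⁻¹ * ∑ i, τ (star y * (x i * y * star (x i))) := by
    rw [mul_smul_comm, map_smul, Finset.mul_sum, map_sum, smul_eq_mul]
  rw [e1, e2]
  have h3 : ((Fintype.card ι : ℂ)⁻¹ * ∑ i, τ (star y * (x i * y * star (x i)))).re
      = (Fintype.card ι : ℝ)⁻¹ * ∑ i, (τ (star y * (x i * y * star (x i)))).re := by
    have : (Fintype.card ι : ℂ)⁻¹ = (((Fintype.card ι : ℝ)⁻¹ : ℝ) : ℂ) := by push_cast; rfl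
    rw [this, Complex.re_ofReal_mul, Complex.re_sum]
  rw [h3]
  field_simp

theorem Dav_nonneg {ι : Type} [Fintype ι] (x : ι → A) (y : A) : 0 ≤ Dav τ x y := by
  unfold Dav; positivity

include hτ in
theorem gap_D {ι : Type} [Fintype ι] [Nonempty ι] (x : ι → A) (hx : ∀ i, x i ∈ unitary A)
    {γ : ℝ} (hG : Gp τ x γ) (y : A) (hy : ‖y‖ ≤ 1) (hy0 : τ y = 0) :
    γ * (n2 τ y ^ 2 - 1/10) ≤ Dav τ x y := by
  rw [Dav_eq hτ x hx]
  have h1 := hG y hy hy0
  have h2 : (τ (star y * Tav x y)).re ≤ n2 τ y * n2 τ (Tav x y) :=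
    (Complex.re_le_norm _).trans (cs hτ _ _)
  nlinarith [sq_nonneg (n2 τ y - n2 τ (Tav x y))]

/-- the lazy family -/
def lazy {ι : Type} (x : ι → A) : ι × Bool → A := fun p => if p.2 then x p.1 else 1

theorem lazy_unitary {ι : Type} {x : ι → A} (hx : ∀ i, x i ∈ unitary A) (p : ι × Bool) :
    lazy x p ∈ unitary A := by
  unfold lazy; split_ifs
  · exact hx _
  · exact one_mem _

theorem Tav_lazy {ι : Type} [Fintype ι] [Nonempty ι] (x : ι → A) (y : A) :
    Tav (lazy x) y = (1/2 : ℂ) • (Tav x y + y) := by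
  unfold Tav lazy
  rw [Fintype.sum_prod_type]
  simp only [Fintype.sum_bool, if_true, Bool.false_eq_true, if_false, one_mul, star_one, mul_one]
  rw [Finset.sum_add_distrib]
  simp only [Finset.sum_const, Finset.card_univ, Fintype.card_prod, Fintype.card_bool]
  have h2 : (Fintype.card ι : ℂ) ≠ 0 := by exact_mod_cast Fintype.card_ne_zero
  rw [smul_add, smul_add]
  congr 1
  · rw [smul_smul]; congr 1; push_cast; field_simp
  · rw [← Nat.cast_smul_eq_nsmul ℂ, smul_smul]; congr 1; push_cast; field_simp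

include hτ in
/-- failing of the gap for the lazy family -/
theorem fail_lazy {ι : Type} [Fintype ι] [Nonempty ι] (x : ι → A) (hx : ∀ i, x i ∈ unitary A)
    {γ : ℝ} (hγ : 0 < γ) (hG : ¬ Gp τ (lazy x) γ) :
    ∃ y : A, ‖y‖ ≤ 1 ∧ τ y = 0 ∧ 1/10 < n2 τ y ^ 2 ∧ Dav τ x y ≤ 4 * γ := by
  unfold Gp at hG
  push Not at hG
  obtain ⟨y, hy, hy0, h⟩ := hG
  have h1 : n2 τ (Tav (lazy x) y) ≤ n2 τ y := n2_Tav_le hτ _ (lazy_unitary hx) y
  have h1' : n2 τ (Tav (lazy x) y) ^ 2 ≤ n2 τ y ^ 2 :=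
    pow_le_pow_left₀ (n2_nonneg hτ _) h1 2
  have hn : n2 τ y ^ 2 ≤ 1 := by
    have := (n2_le_norm hτ y).trans hy
    exact pow_le_one₀ (n2_nonneg hτ _) this
  refine ⟨y, hy, hy0, ?_, ?_⟩
  · nlinarith
  · have h2 : n2 τ (Tav (lazy x) y) ^ 2 ≤ n2 τ y ^ 2 - Dav τ x y / 4 := by
      rw [Tav_lazy, n2_smul hτ, mul_pow, n2_add_sq hτ, Dav_eq hτ x hx]
      have h3 : n2 τ (Tav x y) ^ 2 ≤ n2 τ y ^ 2 :=
        pow_le_pow_left₀ (n2_nonneg hτ _) (n2_Tav_le hτ x hx y) 2
      have h4 : (τ (star (Tav x y) * y)).re = (τ (star y * Tav x y)).re := by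
        have := τ_star hτ (star y * Tav x y)
        rw [star_mul, star_star] at this
        rw [this]; simp
      have h5 : ‖(1/2 : ℂ)‖ ^ 2 = 1/4 := by norm_num
      rw [h4, h5]
      linarith
    nlinarith

/-- transport of families -/
theorem Tav_equiv {ι κ : Type} [Fintype ι] [Fintype κ] (e : κ ≃ ι) (x : ι → A) (y : A) :
    Tav (x ∘ e) y = Tav x y := by
  unfold Tav
  rw [Fintype.card_congr e]
  congr 1
  exact Equiv.sum_comp e (fun i => x i * y * star (x i))

theorem HasGap.of_family {ι : Type} [Fintype ι] {K : ℕ} (hc : Fintype.card ι = 2 ^ K) (x : ι → A)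
    (hx : ∀ i, x i ∈ unitary A) {γ : ℝ} (hG : Gp τ x γ) : HasGap τ K γ := by
  have e : Fin (2 ^ K) ≃ ι := (Fintype.equivFinOfCardEq hc).symm
  refine ⟨x ∘ e, fun i => hx _, ?_⟩
  intro y hy hy0
  rw [Tav_equiv]
  exact hG y hy hy0

include hτ in
/-- failing of the gap, self-adjoint version -/
theorem fail_sa {ι : Type} [Fintype ι] {k : ℕ} (hc : Fintype.card ι = 2 ^ k) (x : ι → A)
    (hx : ∀ i, x i ∈ unitary A)
    {γ : ℝ} (hγ : 0 < γ) (hG : ¬ HasGap τ (k + 1) γ) :
    ∃ a : A, IsSelfAdjoint a ∧ ‖a‖ ≤ 1 ∧ τ a = 0 ∧ 1/20 < n2 τ a ^ 2 ∧ Dav τ x a ≤ 4 * γ := by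
  have hne : Nonempty ι := by
    rw [← Fintype.card_pos_iff, hc]; positivity
  have h1 : ¬ Gp τ (lazy x) γ := by
    intro h
    apply hG
    refine HasGap.of_family (ι := ι × Bool) ?_ (lazy x) (lazy_unitary hx) h
    rw [Fintype.card_prod, Fintype.card_bool, hc, pow_succ]
  obtain ⟨y, hy, hy0, hy1, hD⟩ := fail_lazy hτ x hx hγ h1
  -- real and imaginary parts
  have hcs : ∀ i, n2 τ (cm (x i) (star y)) = n2 τ (cm (x i) y) := by
    intro i
    have e2 : star (cm (x i) (star y)) = star (x i) * cm (x i) y * star (x i) := by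
      unfold cm
      rw [star_sub, star_mul, star_mul, star_star]
      have h1 := (hx i).1
      have h2 := (hx i).2
      have : star (x i) * (x i * y - y * x i) * star (x i)
          = (star (x i) * x i) * y * star (x i) - star (x i) * y * (x i * star (x i)) := by
        noncomm_ring
      rw [this, h1, h2]; noncomm_ring
    rw [← n2_star hτ, e2, n2_mul_unitary hτ _ _ (by rw [star_star]; exact (hx i).1),
      n2_unitary_mul hτ _ _ (by rw [star_star]; exact (hx i).2)]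
  set a : A := (1/2 : ℂ) • (y + star y) with ha
  set b : A := (-Complex.I/2 : ℂ) • (y - star y) with hb
  have hyab : y = a + Complex.I • b := by
    rw [ha, hb, smul_smul]
    have : Complex.I * (-Complex.I/2) = 1/2 := by
      have := Complex.I_mul_I
      linear_combination (-1/2 : ℂ) * this
    rw [this, ← smul_add]
    have : y + star y + (y - star y) = (2:ℂ) • y := by rw [two_smul]; abel
    rw [this, smul_smul]; norm_num
  have hasa : IsSelfAdjoint a := by
    rw [ha]; unfold IsSelfAdjoint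
    rw [star_smul, star_add, star_star, add_comm]
    congr 1
    simp
  have hbsa : IsSelfAdjoint b := by
    rw [hb]; unfold IsSelfAdjoint
    rw [star_smul, star_sub, star_star, ← neg_sub y (star y), smul_neg, ← neg_smul]
    congr 1
    simp
    ring
  have hna : ‖a‖ ≤ 1 := by
    rw [ha, norm_smul]
    have := norm_add_le y (star y)
    rw [norm_star] at this
    have h5 : ‖(1/2 : ℂ)‖ = 1/2 := by norm_num
    rw [h5]; linarith
  have hnb : ‖b‖ ≤ 1 := by
    rw [hb, norm_smul]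
    have := norm_sub_le y (star y)
    rw [norm_star] at this
    have h5 : ‖(-Complex.I/2 : ℂ)‖ = 1/2 := by simp
    rw [h5]; linarith
  have hsy : τ (star y) = 0 := by rw [τ_star hτ, hy0, star_zero]
  have hta : τ a = 0 := by rw [ha, map_smul, map_add, hy0, hsy]; simp
  have htb : τ b = 0 := by rw [hb, map_smul, map_sub, hy0, hsy]; simp
  have hDa : Dav τ x a ≤ Dav τ x y := by
    unfold Dav
    gcongr with i
    · exact n2_nonneg hτ _
    have e : cm (x i) a = (1/2 : ℂ) • (cm (x i) y + cm (x i) (star y)) := by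
      rw [ha]; unfold cm
      rw [mul_smul_comm, smul_mul_assoc, mul_add, add_mul, ← smul_sub]
      congr 1; abel
    rw [e, n2_smul hτ]
    have := n2_add hτ (cm (x i) y) (cm (x i) (star y))
    rw [hcs] at this
    have h5 : ‖(1/2 : ℂ)‖ = 1/2 := by norm_num
    rw [h5]; linarith
  have hDb : Dav τ x b ≤ Dav τ x y := by
    unfold Dav
    gcongr with i
    · exact n2_nonneg hτ _
    have e : cm (x i) b = (-Complex.I/2 : ℂ) • (cm (x i) y - cm (x i) (star y)) := by
      rw [hb]; unfold cm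
      rw [mul_smul_comm, smul_mul_assoc, mul_sub, sub_mul, ← smul_sub]
      congr 1; abel
    rw [e, n2_smul hτ]
    have := n2_sub hτ (cm (x i) y) (cm (x i) (star y))
    rw [hcs] at this
    have h5 : ‖(-Complex.I/2 : ℂ)‖ = 1/2 := by simp
    rw [h5]; linarith
  have hsum : n2 τ y ^ 2 = n2 τ a ^ 2 + n2 τ b ^ 2 := by
    rw [hyab, n2_add_sq hτ, n2_smul hτ Complex.I b]
    have : (τ (star a * Complex.I • b)).re = 0 := by
      rw [mul_smul_comm, map_smul, hasa.star_eq, smul_eq_mul]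
      have h6 : star (τ (a * b)) = τ (a * b) := by
        rw [← τ_star hτ, star_mul, hasa.star_eq, hbsa.star_eq, hτ.comm]
      have h7 : (τ (a * b)).im = 0 := by
        have := congrArg Complex.im h6
        simp at this
        linarith
      simp [h7]
    rw [this]; simp
  by_cases hcase : 1/20 < n2 τ a ^ 2
  · exact ⟨a, hasa, hna, hta, hcase, hDa.trans hD⟩
  · refine ⟨b, hbsa, hnb, htb, ?_, hDb.trans hD⟩
    push Not at hcase
    linarith

include hτ in
theorem HasGap.mono {K : ℕ} {γ γ' : ℝ} (h0 : 0 ≤ γ') (h : γ' ≤ γ) (hG : HasGap τ K γ) : HasGap τ K γ' := by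
  obtain ⟨x, hx, hx2⟩ := hG
  refine ⟨x, hx, fun y hy hy0 => ?_⟩
  have h1 := hx2 y hy hy0
  have : Nonempty (Fin (2 ^ K)) := ⟨⟨0, by positivity⟩⟩
  have h2 : n2 τ (Tav x y) ^ 2 ≤ n2 τ y ^ 2 :=
    pow_le_pow_left₀ (n2_nonneg hτ _) (n2_Tav_le hτ x hx y) 2
  by_cases hc : 1/10 ≤ n2 τ y ^ 2
  · nlinarith
  · push Not at hc
    nlinarith

theorem HasGap.succ {K : ℕ} {γ : ℝ} (hG : HasGap τ K γ) : HasGap τ (K + 1) γ := by
  obtain ⟨x, hx, hx2⟩ := hG
  refine HasGap.of_family (ι := Fin (2 ^ K) × Bool) ?_ (fun p => x p.1) (fun p => hx _) ?_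
  · rw [Fintype.card_prod, Fintype.card_bool, Fintype.card_fin, pow_succ]
  · intro y hy hy0
    have : Tav (fun p : Fin (2 ^ K) × Bool => x p.1) y = Tav x y := by
      unfold Tav
      rw [Fintype.sum_prod_type]
      simp only [Fintype.sum_bool, Fintype.card_prod, Fintype.card_bool, Fintype.card_fin]
      rw [Finset.sum_add_distrib, ← two_smul ℂ, smul_smul]
      congr 1
      push_cast
      have : (2:ℂ) ^ K ≠ 0 := by positivity
      field_simp
    rw [this]
    exact hx2 y hy hy0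

theorem HasGap.le {K K' : ℕ} (h : K ≤ K') {γ : ℝ} (hG : HasGap τ K γ) : HasGap τ K' γ := by
  induction K', h using Nat.le_induction with
  | base => exact hG
  | succ n _ ih => exact ih.succ

end Pool.Agent.Helper19.Gam
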