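import Mathlib
import Pool.Agent.Helper19.GFam
import Pool.Agent.Helper67.Gam.Good
set_option autoImplicit false
open Filter Topology
open scoped ComplexOrder
open Pool.Agent.Helper67.FacTrLib

namespace Pool.Agent.Helper19.Gam

/-- the local statement: a family of `2 ^ K0` elements of norm at most one witnessing the gap -/
theorem local_gap {K0 : ℕ}
    (hmain : ∀ (A : Type) (_ : CStarAlgebra A) (τ : A →ₗ[ℂ] ℂ), Tr τ → GoodAlg τ →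
      (∃ (n : ℕ) (x : Fin n → A) (ε : ℝ), 0 < ε ∧ ∀ u ∈ unitary A, τ u = 0 →
        ∃ j, ε ^ 2 ≤ n2 τ (cm u (x j)) ^ 2) → HasGap τ K0 (1 / 2))
    {H : Type} [NormedAddCommGroup H] [InnerProductSpace ℂ H] [CompleteSpace H]
    {N : VonNeumannAlgebra H} {τ : (H →L[ℂ] H) →ₗ[ℂ] ℂ} (h : VN2 N τ)
    (hG : ∃ n : ℕ, ∃ x : Fin n → (H →L[ℂ] H),
        (∀ j, x j ∈ N) ∧ ∃ ε : ℝ, 0 < ε ∧
        ∀ u : H →L[ℂ] H, u ∈ N →
          star u * u = 1 → u * star u = 1 → τ u = 0 →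
          ∃ j : Fin n, ε ^ 2 ≤ (τ (star (u * x j - x j * u) * (u * x j - x j * u))).re) :
    ∃ x : Fin (2 ^ K0) → (H →L[ℂ] H), (∀ c, x c ∈ N) ∧ (∀ c, ‖x c‖ ≤ 1) ∧
      ∀ u : H →L[ℂ] H, u ∈ N → star u * u = 1 → u * star u = 1 → ‖τ u‖ ^ 2 ≤ 1 / 10 →
        ∃ c, 1 / 4 ≤ (τ (star (u * x c - x c * u) * (u * x c - x c * u))).re := by
  obtain ⟨A, hA, φ, hinj, hmem, hsurj, hTr, hgood⟩ := h.good
  set σ : A →ₗ[ℂ] ℂ := τ ∘ₗ (φ : A →ₗ[ℂ] (H →L[ℂ] H)) with hσ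
  have hσa : ∀ a, σ a = τ (φ a) := fun a => rfl
  -- transport of the commutator
  have hcm : ∀ a b : A, n2 σ (cm a b) ^ 2 =
      (τ (star (φ a * φ b - φ b * φ a) * (φ a * φ b - φ b * φ a))).re := by
    intro a b
    rw [n2_sq hTr, hσa]
    unfold cm
    simp only [map_mul, map_sub, map_star]
  have hnon : ∃ (n : ℕ) (x : Fin n → A) (ε : ℝ), 0 < ε ∧ ∀ u ∈ unitary A, σ u = 0 →
        ∃ j, ε ^ 2 ≤ n2 σ (cm u (x j)) ^ 2 := by
    obtain ⟨n, x, hx, ε, hε, hu⟩ := hG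
    choose y hy using fun j => hsurj (x j) (hx j)
    refine ⟨n, y, ε, hε, fun u hu1 hu0 => ?_⟩
    have h1 : star (φ u) * φ u = 1 := by rw [← map_star, ← map_mul, hu1.1, map_one]
    have h2 : φ u * star (φ u) = 1 := by rw [← map_star, ← map_mul, hu1.2, map_one]
    obtain ⟨j, hj⟩ := hu (φ u) (hmem u) h1 h2 hu0
    refine ⟨j, ?_⟩
    rw [hcm, hy j]
    exact hj
  obtain ⟨x, hx, hGp⟩ := hmain A hA σ hTr hgood hnon
  refine ⟨fun c => φ (x c), fun c => hmem _, fun c => ?_, ?_⟩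
  · have h1 : star (φ (x c)) * φ (x c) = 1 := by
      rw [← map_star, ← map_mul, (hx c).1, map_one]
    have h2 := CStarRing.norm_star_mul_self (x := φ (x c))
    rw [h1] at h2
    have h3 : ‖(1 : H →L[ℂ] H)‖ ≤ 1 := ContinuousLinearMap.norm_id_le
    rw [h2] at h3
    nlinarith [norm_nonneg (φ (x c))]
  · intro u huN hu1 hu2 hτu
    obtain ⟨v, rfl⟩ := hsurj u huN
    have hv1 : star v * v = 1 := by
      apply hinj; rw [map_mul, map_star, map_one]; exact hu1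
    have hv2 : v * star v = 1 := by
      apply hinj; rw [map_mul, map_star, map_one]; exact hu2
    have hvU : v ∈ unitary A := ⟨hv1, hv2⟩
    by_contra hcon
    push Not at hcon
    set y : A := (1/2 : ℂ) • (v - (σ v) • (1 : A)) with hy
    have hτv : ‖σ v‖ ^ 2 ≤ 1 / 10 := hτu
    have hnt : Nontrivial A := by
      refine ⟨⟨0, 1, fun h0 => ?_⟩⟩
      have h3 := hTr.one
      rw [← h0, map_zero] at h3
      exact zero_ne_one h3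
    have hn1 : ‖(1 : A)‖ ≤ 1 := le_of_eq CStarRing.norm_one
    have hnv : ‖v‖ ≤ 1 := le_of_eq (CStarRing.norm_of_mem_unitary hvU)
    have hσv1 : ‖σ v‖ ≤ 1 := by nlinarith [norm_nonneg (σ v)]
    have hy1 : ‖y‖ ≤ 1 := by
      rw [hy, norm_smul]
      have h3 : ‖v - (σ v) • (1 : A)‖ ≤ 2 := by
        refine (norm_sub_le _ _).trans ?_
        rw [norm_smul]
        nlinarith [norm_nonneg (σ v), norm_nonneg (1 : A)]
      have h4 : ‖(1/2 : ℂ)‖ = 1/2 := by norm_num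
      rw [h4]; linarith
    have hy0 : σ y = 0 := by
      rw [hy, map_smul, map_sub, map_smul, hTr.one]; simp
    have hn2y : n2 σ y ^ 2 = (1 - ‖σ v‖ ^ 2) / 4 := by
      have h3 : n2 σ (v - (σ v) • (1 : A)) ^ 2 = 1 - ‖σ v‖ ^ 2 := by
        rw [n2_sub_sq hTr, n2_smul hTr, n2_one hTr, n2_sq hTr v, hv1, hTr.one]
        have h4 : σ (star v * (σ v) • (1 : A)) = σ v * star (σ v) := by
          rw [mul_smul_comm, mul_one, map_smul, smul_eq_mul, τ_star hTr]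
        rw [h4]
        have h5 : (σ v * star (σ v)).re = ‖σ v‖ ^ 2 := by
          have := Complex.mul_conj (σ v)
          rw [Complex.star_def, this, Complex.ofReal_re, Complex.normSq_eq_norm_sq]
        rw [h5]
        simp only [Complex.one_re]
        ring
      rw [hy, n2_smul hTr, mul_pow, h3]
      have h4 : ‖(1/2 : ℂ)‖ = 1/2 := by norm_num
      rw [h4]; ring
    have hcmy : ∀ c, n2 σ (cm (x c) y) ^ 2 = (1/4) * n2 σ (cm v (x c)) ^ 2 := by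
      intro c
      have h5 : cm (x c) y = (-(1/2) : ℂ) • cm v (x c) := by
        rw [hy]; unfold cm
        simp only [mul_smul_comm, smul_mul_assoc, mul_sub, sub_mul, mul_one, one_mul, smul_sub,
          neg_smul]
        abel
      rw [h5, n2_smul hTr, mul_pow]
      norm_num
    have hlt : ∀ c, n2 σ (cm (x c) y) ^ 2 < 1 / 16 := by
      intro c
      rw [hcmy, hcm]
      have := hcon c
      linarith
    have hD := gap_D hTr x hx hGp y hy1 hy0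
    have hDlt : Dav σ x y < 1 / 16 := by
      unfold Dav
      have h6 : ∑ i, n2 σ (cm (x i) y) ^ 2 < ∑ _i : Fin (2 ^ K0), (1 / 16 : ℝ) := by
        refine Finset.sum_lt_sum_of_nonempty ?_ (fun i _ => hlt i)
        exact ⟨⟨0, by positivity⟩, Finset.mem_univ _⟩
      rw [Finset.sum_const, Finset.card_univ, nsmul_eq_mul] at h6
      have h7 : (0 : ℝ) < Fintype.card (Fin (2 ^ K0)) := by
        rw [Fintype.card_fin]; positivity
      rw [inv_mul_lt_iff₀ h7]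
      exact h6
    nlinarith

/-- OFFER 5: the frozen negation from the universal gap statement (uses `VN2.good`) -/
theorem assemble
    (hmain : ∃ K0 : ℕ, ∀ (A : Type) (_ : CStarAlgebra A) (τ : A →ₗ[ℂ] ℂ), Tr τ → GoodAlg τ →
      (∃ (n : ℕ) (x : Fin n → A) (ε : ℝ), 0 < ε ∧ ∀ u ∈ unitary A, τ u = 0 →
        ∃ j, ε ^ 2 ≤ n2 τ (cm u (x j)) ^ 2) → HasGap τ K0 (1 / 2)) :
    ¬ (∀ U : Ultrafilter ℕ, (U : Filter ℕ) ≤ Filter.cofinite →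
  ∃ (N : ℕ → VonNeumannAlgebra (lp (fun _ : ℕ => ℂ) 2))
    (τ : ℕ → (((lp (fun _ : ℕ => ℂ) 2) →L[ℂ] (lp (fun _ : ℕ => ℂ) 2)) →ₗ[ℂ] ℂ)),
    (∀ i : ℕ,
      (∀ z : (lp (fun _ : ℕ => ℂ) 2) →L[ℂ] (lp (fun _ : ℕ => ℂ) 2), z ∈ N i →
        (∀ x : (lp (fun _ : ℕ => ℂ) 2) →L[ℂ] (lp (fun _ : ℕ => ℂ) 2), x ∈ N i → z * x = x * z) →
        ∃ c : ℂ, z = c • (1 : (lp (fun _ : ℕ => ℂ) 2) →L[ℂ] (lp (fun _ : ℕ => ℂ) 2))) ∧
      ¬ FiniteDimensional ℂ (Submodule.span ℂ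
          ((N i : Set ((lp (fun _ : ℕ => ℂ) 2) →L[ℂ] (lp (fun _ : ℕ => ℂ) 2))))) ∧
      τ i 1 = 1 ∧
      (∀ x : (lp (fun _ : ℕ => ℂ) 2) →L[ℂ] (lp (fun _ : ℕ => ℂ) 2), x ∈ N i →
        ∀ y : (lp (fun _ : ℕ => ℂ) 2) →L[ℂ] (lp (fun _ : ℕ => ℂ) 2), y ∈ N i →
          τ i (x * y) = τ i (y * x)) ∧
      (∀ x : (lp (fun _ : ℕ => ℂ) 2) →L[ℂ] (lp (fun _ : ℕ => ℂ) 2), x ∈ N i →
        0 ≤ τ i (star x * x)) ∧
      (∀ x : (lp (fun _ : ℕ => ℂ) 2) →L[ℂ] (lp (fun _ : ℕ => ℂ) 2), x ∈ N i →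
        τ i (star x * x) = 0 → x = 0) ∧
      (∃ n : ℕ, ∃ x : Fin n → ((lp (fun _ : ℕ => ℂ) 2) →L[ℂ] (lp (fun _ : ℕ => ℂ) 2)),
        (∀ j, x j ∈ N i) ∧ ∃ ε : ℝ, 0 < ε ∧
        ∀ u : (lp (fun _ : ℕ => ℂ) 2) →L[ℂ] (lp (fun _ : ℕ => ℂ) 2), u ∈ N i →
          star u * u = 1 → u * star u = 1 → τ i u = 0 →
          ∃ j : Fin n, ε ^ 2 ≤ (τ i (star (u * x j - x j * u) * (u * x j - x j * u))).re)) ∧
    (∀ n : ℕ, ∀ x : Fin n → ℕ → ((lp (fun _ : ℕ => ℂ) 2) →L[ℂ] (lp (fun _ : ℕ => ℂ) 2)),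
      (∀ j i, x j i ∈ N i) → (∃ C : ℝ, ∀ j i, ‖x j i‖ ≤ C) →
      ∀ ε : ℝ, 0 < ε →
      ∃ u : ℕ → ((lp (fun _ : ℕ => ℂ) 2) →L[ℂ] (lp (fun _ : ℕ => ℂ) 2)),
        (∀ i, u i ∈ N i ∧ star (u i) * u i = 1 ∧ u i * star (u i) = 1) ∧
        Tendsto (fun i => τ i (u i)) (U : Filter ℕ) (𝓝 0) ∧
        ∀ j : Fin n, ∀ᶠ i in (U : Filter ℕ),
          (τ i (star (u i * x j i - x j i * u i) * (u i * x j i - x j i * u i))).re < ε ^ 2)) := by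
  intro hS
  obtain ⟨K0, hmain⟩ := hmain
  obtain ⟨N, τ, hN, hΓ⟩ := hS (Filter.hyperfilter ℕ) Filter.hyperfilter_le_cofinite
  have hloc : ∀ i, ∃ x : Fin (2 ^ K0) → ((lp (fun _ : ℕ => ℂ) 2) →L[ℂ] (lp (fun _ : ℕ => ℂ) 2)),
      (∀ c, x c ∈ N i) ∧ (∀ c, ‖x c‖ ≤ 1) ∧
      ∀ u : (lp (fun _ : ℕ => ℂ) 2) →L[ℂ] (lp (fun _ : ℕ => ℂ) 2), u ∈ N i → star u * u = 1 →
        u * star u = 1 → ‖τ i u‖ ^ 2 ≤ 1 / 10 →
        ∃ c, 1 / 4 ≤ (τ i (star (u * x c - x c * u) * (u * x c - x c * u))).re := by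
    intro i
    obtain ⟨h1, h2, h3, h4, h5, h6, h7⟩ := hN i
    exact local_gap hmain ⟨h1, h2, h3, h4, h5, h6⟩ h7
  choose x hxN hx1 hx using hloc
  obtain ⟨u, hu, hlim, hev⟩ := hΓ (2 ^ K0) (fun c i => x i c) (fun c i => hxN i c)
    ⟨1, fun c i => hx1 i c⟩ (1 / 2) (by norm_num)
  have hsmall : ∀ᶠ i in (Filter.hyperfilter ℕ : Filter ℕ), ‖τ i (u i)‖ ^ 2 ≤ 1 / 10 := by
    have h1 : Tendsto (fun i => ‖τ i (u i)‖ ^ 2) (Filter.hyperfilter ℕ : Filter ℕ) (𝓝 0) := by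
      have := (hlim.norm).pow 2
      simpa using this
    filter_upwards [h1.eventually (gt_mem_nhds (by norm_num : (0 : ℝ) < 1 / 10))] with i hi
    exact hi.le
  have hall := Filter.eventually_all.mpr hev
  obtain ⟨i, hi1, hi2⟩ := (hsmall.and hall).exists
  obtain ⟨c, hc⟩ := hx i (u i) (hu i).1 (hu i).2.1 (hu i).2.2 hi1
  have h2 := hi2 c
  norm_num at h2 hc
  linarith

end Pool.Agent.Helper19.Gam
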