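import Mathlib
import Pool.Agent.Helper19.GFam
set_option autoImplicit false
open scoped ComplexOrder

namespace Pool.Agent.Helper19.Gam

variable {A : Type} [CStarAlgebra A] {τ : A →ₗ[ℂ] ℂ} (hτ : Tr τ)

/-- a spectral family of a self-adjoint element -/
structure SpecFam (a : A) (q : ℝ → A) : Prop where
  proj : ∀ s, IsStarProjection (q s)
  comm : ∀ s b, Commute a b → Commute (q s) b
  dec : ∀ s, ∃ z z' : A, a - ((s : ℝ) : ℂ) • (1 : A) = star z * z - star z' * z' ∧
    q s * (star z * z) = star z * z ∧ q s * (star z' * z') = 0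
  mono : ∀ s s', s' ≤ s → q s' * q s = q s

/-- every self-adjoint element has a spectral family -/
def HasSpec (A : Type) [CStarAlgebra A] : Prop :=
  ∀ a : A, IsSelfAdjoint a → ∃ q : ℝ → A, SpecFam a q

theorem exists_pos {a : A} (ha : IsSelfAdjoint a) (hn : ‖a‖ ≤ 1) :
    ∃ c : A, 1 - a = star c * c := by
  let _ := CStarAlgebra.spectralOrder A
  let _ := CStarAlgebra.spectralOrderedRing A
  have h1 : 0 ≤ 1 - a := by
    rw [sub_nonneg]
    have h2 := ha.le_algebraMap_norm_self
    refine h2.trans ?_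
    rw [← map_one (algebraMap ℝ A)]
    exact algebraMap_mono A hn
  exact CStarAlgebra.nonneg_iff_eq_star_mul_self.1 h1

theorem proj_norm_le {p : A} (hp : IsStarProjection p) : ‖p‖ ≤ 1 := by
  have h1 : ‖p‖ * ‖p‖ = ‖p‖ := by
    rw [← CStarRing.norm_star_mul_self, hp.isSelfAdjoint.star_eq, hp.isIdempotentElem.eq]
  by_contra hc
  push Not at hc
  nlinarith

include hτ in
theorem n2_proj {p : A} (hp : IsStarProjection p) : n2 τ p ^ 2 = (τ p).re := by
  rw [n2_sq hτ, hp.isSelfAdjoint.star_eq, hp.isIdempotentElem.eq]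

include hτ in
theorem tau_proj_nonneg {p : A} (hp : IsStarProjection p) : 0 ≤ (τ p).re := by
  rw [← n2_proj hτ hp]; positivity

include hτ in
theorem tau_proj_im {p : A} (hp : IsStarProjection p) : (τ p).im = 0 := by
  have h := τ_star hτ p
  rw [hp.isSelfAdjoint.star_eq] at h
  have := congrArg Complex.im h
  simp at this
  linarith

theorem one_sub_proj {p : A} (hp : IsStarProjection p) : IsStarProjection (1 - p) := hp.one_sub

include hτ in
theorem tau_proj_le_one {p : A} (hp : IsStarProjection p) : (τ p).re ≤ 1 := by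
  have := tau_proj_nonneg hτ (one_sub_proj hp)
  rw [map_sub, hτ.one] at this
  simp at this; exact this

/-- products of positive elements, form with projections -/
theorem proj_eq {p : A} (hp : IsStarProjection p) : star p * p = p := by
  rw [hp.isSelfAdjoint.star_eq, hp.isIdempotentElem.eq]

include hτ in
/-- trace bounds for spectral projections -/
theorem spec_trace {a : A} (ha : IsSelfAdjoint a) (hn : ‖a‖ ≤ 1) (h0 : τ a = 0) {v : ℝ}
    (hv : v ≤ n2 τ a ^ 2) (hv1 : v ≤ 1) {q : ℝ → A} (hq : SpecFam a q) {s : ℝ} (hs : 0 ≤ s)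
    (hs1 : s ≤ 1) :
    (v - s) / 2 ≤ (τ (q s)).re ∧ (τ (q s)).re ≤ 1 - v / 2 := by
  obtain ⟨z, z', hz, hqz, hqz'⟩ := hq.dec s
  have hp := hq.proj s
  set p := q s with hpdef
  set r := star z * z with hr
  set r' := star z' * z' with hr'
  have hrs : star r = r := by rw [hr, star_mul, star_star]
  have hrs' : star r' = r' := by rw [hr', star_mul, star_star]
  have hrq : r * p = r := by
    have := congrArg star hqz
    rwa [star_mul, hrs, hp.isSelfAdjoint.star_eq] at this
  have hrq' : r' * p = 0 := by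
    have := congrArg star hqz'
    rwa [star_mul, hrs', hp.isSelfAdjoint.star_eq, star_zero] at this
  have hrr' : r * r' = 0 := by rw [← hrq, mul_assoc, hqz', mul_zero]
  have hr'r : r' * r = 0 := by rw [← hqz, ← mul_assoc, hrq', zero_mul]
  have haeq : a = (s : ℂ) • (1 : A) + r - r' := by
    rw [add_sub_assoc, ← hz]; abel
  obtain ⟨c, hc⟩ := exists_pos ha hn
  obtain ⟨d, hd⟩ := exists_pos (a := -a) ha.neg (by rwa [norm_neg])
  rw [sub_neg_eq_add] at hd
  -- real quantities
  have t0 : s + (τ r).re - (τ r').re = 0 := by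
    have := h0
    rw [haeq, map_sub, map_add, map_smul, hτ.one] at this
    have := congrArg Complex.re this
    simpa using this
  have t1 : 0 ≤ (τ r).re - s * (τ r).re - (τ (r * r)).re := by
    have h := pos_mul hτ z c
    rw [← hr, ← hc] at h
    have e : r * (1 - a) = r - (s : ℂ) • r - r * r := by
      rw [haeq, mul_sub, mul_sub, mul_add, mul_smul_comm, mul_one, hrr']; abel
    rw [e, map_sub, map_sub, map_smul] at h
    simpa using h
  have t2 : 0 ≤ (τ r').re + s * (τ r').re - (τ (r' * r')).re := by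
    have h := pos_mul hτ z' d
    rw [← hr', ← hd] at h
    have e : r' * (1 + a) = r' + (s : ℂ) • r' - r' * r' := by
      rw [haeq, mul_add, mul_sub, mul_add, mul_smul_comm, mul_one, hr'r]; abel
    rw [e, map_sub, map_add, map_smul] at h
    simpa using h
  have t3 : 0 ≤ (τ p).re - s * (τ p).re - (τ r).re := by
    have h := pos_mul hτ p c
    rw [proj_eq hp, ← hc] at h
    have e : p * (1 - a) = p - (s : ℂ) • p - r := by
      rw [haeq, mul_sub, mul_sub, mul_add, mul_smul_comm, mul_one, hqz, hqz']; abel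
    rw [e, map_sub, map_sub, map_smul] at h
    simpa using h
  have t4 : 0 ≤ (1 - (τ p).re) + s * (1 - (τ p).re) - (τ r').re := by
    have h := pos_mul hτ (1 - p) d
    rw [proj_eq (one_sub_proj hp), ← hd] at h
    have e : (1 - p) * (1 + a) = (1 - p) + (s : ℂ) • (1 - p) - r' := by
      rw [haeq, sub_mul, one_mul, mul_add, mul_sub, mul_add, mul_smul_comm, mul_one, hqz, hqz',
        smul_sub]
      abel
    rw [e, map_sub, map_add, map_smul, map_sub, hτ.one] at h
    simpa using h
  have t5 : n2 τ a ^ 2 = s ^ 2 + 2 * s * ((τ r).re - (τ r').re) + (τ (r * r)).re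
      + (τ (r' * r')).re := by
    rw [n2_sq hτ, ha.star_eq]
    have e : a * a = ((s : ℂ) ^ 2) • (1 : A) + (2 * (s : ℂ)) • r - (2 * (s : ℂ)) • r' + r * r
        + r' * r' := by
      have : a * a = ((s : ℂ) • (1 : A) + r - r') * ((s : ℂ) • (1 : A) + r - r') := by
        rw [← haeq]
      rw [this]
      simp only [mul_sub, sub_mul, mul_add, add_mul, smul_mul_assoc, mul_smul_comm, one_mul,
        mul_one, hrr', hr'r]
      module
    rw [e]
    simp only [map_add, map_sub, map_smul, hτ.one, smul_eq_mul, mul_one]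
    simp only [Complex.add_re, Complex.sub_re]
    have e1 : ((s : ℂ) ^ 2).re = s ^ 2 := by rw [← Complex.ofReal_pow, Complex.ofReal_re]
    have e2 : ∀ w : ℂ, (2 * (s : ℂ) * w).re = 2 * s * w.re := by
      intro w
      have : (2 * (s : ℂ)) = ((2 * s : ℝ) : ℂ) := by push_cast; rfl
      rw [this, Complex.re_ofReal_mul]
    rw [e1, e2, e2]
    ring
  rw [t5] at hv
  have hf0 := tau_proj_nonneg hτ hp
  have hf1 := tau_proj_le_one hτ hp
  constructor
  · nlinarith
  · -- 1 - f ≥ (v+s)/(2(1+s)) ≥ v/2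
    have : v + s ≤ 2 * (1 + s) * (1 - (τ p).re) := by nlinarith
    nlinarith

include hτ in
/-- the Davis-Kahan type estimate -/
theorem spec_cm {a : A} (ha : IsSelfAdjoint a) {q : ℝ → A} (hq : SpecFam a q) {s θ : ℝ}
    (hθ : 0 < θ) {x : A} (hx : x ∈ unitary A) :
    n2 τ (cm x (q s)) ^ 2 ≤ 2 * (n2 τ (cm x a) ^ 2 / θ ^ 2 + ((τ (q (s - θ))).re - (τ (q s)).re)) := by
  have hp := hq.proj s
  have hp0 := hq.proj (s - θ)
  set p := q s with hpdef
  set P0 := q (s - θ) with hP0
  have hmono : P0 * p = p := hq.mono s (s - θ) (by linarith)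
  have hmono' : p * P0 = p := by
    have := congrArg star hmono
    rwa [star_mul, hp.isSelfAdjoint.star_eq, hp0.isSelfAdjoint.star_eq] at this
  -- conjugated elements
  set b := x * a * star x with hb
  set pb := x * p * star x with hpb
  set Pb := x * P0 * star x with hPb
  have hxx : star x * x = 1 := hx.1
  have hcmul : ∀ c d : A, (x * c * star x) * (x * d * star x) = x * (c * d) * star x := by
    intro c d
    calc (x * c * star x) * (x * d * star x) = x * c * (star x * x) * d * star x := by noncomm_ring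
      _ = _ := by rw [hxx]; noncomm_ring
  have hcproj : ∀ c : A, IsStarProjection c → IsStarProjection (x * c * star x) := by
    intro c hc
    refine ⟨?_, ?_⟩
    · show (x * c * star x) * (x * c * star x) = _
      rw [hcmul, hc.isIdempotentElem.eq]
    · show star (x * c * star x) = _
      rw [star_mul, star_mul, star_star, hc.isSelfAdjoint.star_eq, mul_assoc]
  have hpbp : IsStarProjection pb := hcproj p hp
  have hPbp : IsStarProjection Pb := hcproj P0 hp0
  -- difference projection
  have hdiff : IsStarProjection (P0 - p) := by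
    refine ⟨?_, ?_⟩
    · show (P0 - p) * (P0 - p) = P0 - p
      rw [mul_sub, sub_mul, sub_mul, hmono, hmono', hp.isIdempotentElem.eq,
        hp0.isIdempotentElem.eq]
      abel
    · show star (P0 - p) = P0 - p
      rw [star_sub, hp.isSelfAdjoint.star_eq, hp0.isSelfAdjoint.star_eq]
  have hdiffb : IsStarProjection (Pb - pb) := by
    have : Pb - pb = x * (P0 - p) * star x := by rw [hPb, hpb]; noncomm_ring
    rw [this]; exact hcproj _ hdiff
  -- first reduction
  have h1 : n2 τ (cm x p) ^ 2 = 2 * (τ (p * (1 - pb))).re := by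
    rw [n2_cm_sq hτ hx, n2_proj hτ hp, hp.isSelfAdjoint.star_eq, mul_sub, mul_one, map_sub]
    simp only [Complex.sub_re]
    ring
  have h2 : (τ (p * (1 - pb))).re = (τ (p * (1 - Pb))).re + (τ (p * (Pb - pb))).re := by
    rw [← Complex.add_re, ← map_add, ← mul_add]
    congr 3
    abel
  have htr : ∀ c : A, τ (x * c * star x) = τ c := fun c => tau_conj hτ x c hxx
  have h3 : (τ (p * (Pb - pb))).re ≤ (τ P0).re - (τ p).re := by
    have h := pos_mul hτ (1 - p) (Pb - pb)
    rw [proj_eq (one_sub_proj hp), proj_eq hdiffb, sub_mul, one_mul, map_sub, Complex.sub_re,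
      map_sub, Complex.sub_re] at h
    rw [hPb, hpb, htr, htr] at h
    linarith
  -- the cross term
  set X := p * (1 - Pb) with hX
  have hXstar : star X = (1 - Pb) * p := by
    rw [hX, star_mul, hp.isSelfAdjoint.star_eq, star_sub, star_one, hPbp.isSelfAdjoint.star_eq]
  have h4 : n2 τ X ^ 2 = (τ (p * (1 - Pb))).re := by
    rw [n2_sq hτ, hXstar, hX]
    have e : (1 - Pb) * p * (p * (1 - Pb)) = (1 - Pb) * (p * (1 - Pb)) := by
      rw [mul_assoc, ← mul_assoc p, hp.isIdempotentElem.eq]
    rw [e, hτ.comm, mul_assoc, (one_sub_proj hPbp).isIdempotentElem.eq]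
  obtain ⟨z, z', hz, hqz, hqz'⟩ := hq.dec s
  obtain ⟨w, w', hw, hqw, hqw'⟩ := hq.dec (s - θ)
  have hpa : Commute a p := (hq.comm s a (Commute.refl a)).symm
  have hPa : Commute a P0 := (hq.comm (s - θ) a (Commute.refl a)).symm
  -- a p = s p + r
  have hap : p * a = (s : ℂ) • p + star z * z := by
    have : a = (s : ℂ) • (1 : A) + (star z * z - star z' * z') := by rw [← hz]; abel
    rw [this, mul_add, mul_smul_comm, mul_one, mul_sub, hqz, hqz', sub_zero]
  -- a (1 - P0) = (s-θ)(1-P0) - r'
  have haP : (1 - P0) * a = ((s - θ : ℝ) : ℂ) • (1 - P0) - star w' * w' := by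
    have : a = ((s - θ : ℝ) : ℂ) • (1 : A) + (star w * w - star w' * w') := by rw [← hw]; abel
    have h5 : (1 - P0) * a = (1 - P0) * (((s - θ : ℝ) : ℂ) • (1 : A) + (star w * w - star w' * w')) := by
      rw [← this]
    rw [h5, mul_add, mul_smul_comm, mul_one, mul_sub, sub_mul, sub_mul, one_mul, one_mul, hqw,
      hqw']
    abel
  have hbP : (1 - Pb) * b = ((s - θ : ℝ) : ℂ) • (1 - Pb)
      - star (w' * star x) * (w' * star x) := by
    have e1 : (1 - Pb) = x * (1 - P0) * star x := by
      rw [hPb, mul_sub, sub_mul, mul_one, hx.2]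
    have e2 : star (w' * star x) * (w' * star x) = x * (star w' * w') * star x := by
      rw [star_mul, star_star]; noncomm_ring
    rw [e1, hb, hcmul, haP, e2, mul_sub, sub_mul, mul_smul_comm, smul_mul_assoc]
  have hbPc : (1 - Pb) * b = b * (1 - Pb) := by
    have e1 : (1 - Pb) = x * (1 - P0) * star x := by
      rw [hPb, mul_sub, sub_mul, mul_one, hx.2]
    rw [e1, hb, hcmul, hcmul, show (1 - P0) * a = a * (1 - P0) from by
      rw [sub_mul, mul_sub, one_mul, mul_one, hPa.eq]]
  have h6 : a * X - X * b = p * (a - b) * (1 - Pb) := by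
    rw [hX, ← mul_assoc a, hpa.eq, mul_assoc p (1 - Pb), hbPc]
    noncomm_ring
  have h7 : n2 τ (a * X - X * b) ≤ n2 τ (cm x a) := by
    rw [h6]
    have e1 := n2_mul_right hτ (p * (a - b)) (1 - Pb)
    have e2 := n2_mul_left hτ p (a - b)
    have e3 := proj_norm_le (one_sub_proj hPbp)
    have e4 := proj_norm_le hp
    have e5 : n2 τ (a - b) = n2 τ (cm x a) := by
      rw [n2_cm_eq hτ hx, ← n2_neg hτ, neg_sub]
    have e6 := n2_nonneg hτ (p * (a - b))
    have e7 := n2_nonneg hτ (a - b)
    calc n2 τ (p * (a - b) * (1 - Pb)) ≤ n2 τ (p * (a - b)) * ‖1 - Pb‖ := e1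
      _ ≤ n2 τ (p * (a - b)) * 1 := by gcongr
      _ ≤ ‖p‖ * n2 τ (a - b) := by rw [mul_one]; exact e2
      _ ≤ 1 * n2 τ (a - b) := by gcongr
      _ = n2 τ (cm x a) := by rw [one_mul, e5]
  have h8 : θ * n2 τ X ^ 2 ≤ (τ (star X * (a * X - X * b))).re := by
    have hpX : p * X = X := by rw [hX, ← mul_assoc, hp.isIdempotentElem.eq]
    have hXP : X * (1 - Pb) = X := by
      rw [hX, mul_assoc, (one_sub_proj hPbp).isIdempotentElem.eq]
    have hXsp : star X * p = star X := by
      have := congrArg star hpX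
      rwa [star_mul, hp.isSelfAdjoint.star_eq] at this
    have e1 : star X * (a * X) = (s : ℂ) • (star X * X) + star (z * X) * (z * X) := by
      calc star X * (a * X) = star X * (p * a) * X := by
            rw [← mul_assoc (star X) p a, hXsp, mul_assoc]
        _ = _ := by
            rw [hap, mul_add, add_mul, mul_smul_comm, smul_mul_assoc, hXsp, star_mul z X]
            simp only [mul_assoc]
    have e2 : star X * (X * b) = ((s - θ : ℝ) : ℂ) • (star X * X)
        - (star X * X) * (star (w' * star x) * (w' * star x)) := by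
      calc star X * (X * b) = star X * (X * ((1 - Pb) * b)) := by
            rw [← mul_assoc X (1 - Pb) b, hXP]
        _ = _ := by
            rw [hbP, mul_sub X, mul_sub (star X), mul_smul_comm, mul_smul_comm, hXP,
              mul_assoc (star X) X]
    rw [mul_sub, e1, e2]
    simp only [map_sub, map_add, map_smul, Complex.sub_re, Complex.add_re, smul_eq_mul,
      Complex.re_ofReal_mul]
    rw [← n2_sq hτ, ← n2_sq hτ]
    have h9 := pos_mul hτ X (w' * star x)
    have h10 : 0 ≤ n2 τ (z * X) ^ 2 := by positivity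
    linarith
  have h9 : (τ (star X * (a * X - X * b))).re ≤ n2 τ X * n2 τ (cm x a) :=
    (Complex.re_le_norm _).trans ((cs hτ _ _).trans
      (mul_le_mul_of_nonneg_left h7 (n2_nonneg hτ _)))
  have h10 : n2 τ X ^ 2 ≤ n2 τ (cm x a) ^ 2 / θ ^ 2 := by
    rw [le_div_iff₀ (by positivity)]
    have hX0 := n2_nonneg hτ X
    have hc0 := n2_nonneg hτ (cm x a)
    rcases hX0.eq_or_lt with h | h
    · rw [← h]; nlinarith
    · have : θ * n2 τ X ≤ n2 τ (cm x a) := by
        have := h8.trans h9
        have h11 : n2 τ X * (θ * n2 τ X) ≤ n2 τ X * n2 τ (cm x a) := by nlinarith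
        exact le_of_mul_le_mul_left h11 h
      have := pow_le_pow_left₀ (by positivity) this 2
      nlinarith
  rw [h1, h2]
  rw [← h4]
  linarith

include hτ in
/-- the spectral cut -/
theorem cut (hS : HasSpec A) {a : A} (ha : IsSelfAdjoint a) (hn : ‖a‖ ≤ 1) (h0 : τ a = 0)
    {v : ℝ} (hv0 : 0 < v) (hv : v ≤ n2 τ a ^ 2) (hv1 : v ≤ 1) {M : ℕ} (hM : 0 < M) :
    ∃ q : A, IsStarProjection q ∧ (∀ b, Commute a b → Commute q b) ∧
      v / 4 ≤ (τ q).re ∧ (τ q).re ≤ 1 - v / 2 ∧
      ∀ x ∈ unitary A, n2 τ (cm x q) ^ 2 ≤ 32 * M ^ 2 / v ^ 2 * n2 τ (cm x a) ^ 2 + 2 / M := by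
  obtain ⟨q, hq⟩ := hS a ha
  have hM0 : (0:ℝ) < M := by exact_mod_cast hM
  set θ : ℝ := v / (4 * M) with hθ
  have hθ0 : 0 < θ := by positivity
  set f : ℝ → ℝ := fun s => (τ (q s)).re with hf
  -- pigeonhole
  have hex : ∃ j ∈ Finset.range M, f (j * θ) - f ((j + 1) * θ) ≤ 1 / M := by
    by_contra hc
    push Not at hc
    have h1 : ∑ j ∈ Finset.range M, (1 / (M:ℝ)) < ∑ j ∈ Finset.range M,
        (f (j * θ) - f ((j + 1) * θ)) := by
      apply Finset.sum_lt_sum_of_nonempty (by simpa using hM.ne')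
      intro j hj; exact hc j hj
    have h2 : ∑ j ∈ Finset.range M, (f (j * θ) - f ((j + 1) * θ)) = f 0 - f (M * θ) := by
      have := Finset.sum_range_sub' (fun j : ℕ => f (j * θ)) M
      push_cast at this
      rw [zero_mul] at this
      exact this
    rw [h2, Finset.sum_const, Finset.card_range, nsmul_eq_mul] at h1
    have h3 : (M:ℝ) * (1 / M) = 1 := by field_simp
    rw [h3] at h1
    have h4 := tau_proj_le_one hτ (hq.proj 0)
    have h5 := tau_proj_nonneg hτ (hq.proj (M * θ))
    simp only [hf] at h1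
    linarith
  obtain ⟨j, hj, hj2⟩ := hex
  rw [Finset.mem_range] at hj
  have hjM : ((j:ℝ) + 1) * θ ≤ v / 4 := by
    have : ((j:ℝ) + 1) ≤ M := by exact_mod_cast hj
    calc ((j:ℝ) + 1) * θ ≤ M * θ := by gcongr
      _ = v / 4 := by rw [hθ]; field_simp
  have hs0 : 0 ≤ ((j:ℝ) + 1) * θ := by positivity
  have htr := spec_trace hτ ha hn h0 hv hv1 hq hs0 (by linarith)
  refine ⟨q (((j:ℝ) + 1) * θ), hq.proj _, hq.comm _, by linarith [htr.1], htr.2, ?_⟩
  intro x hx
  have h1 := spec_cm hτ ha hq (s := ((j:ℝ) + 1) * θ) hθ0 hx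
  have e1 : ((j:ℝ) + 1) * θ - θ = j * θ := by ring
  rw [e1] at h1
  simp only [hf] at hj2
  have e2 : n2 τ (cm x a) ^ 2 / θ ^ 2 = 16 * M ^ 2 / v ^ 2 * n2 τ (cm x a) ^ 2 := by
    rw [hθ]; field_simp; ring
  rw [e2] at h1
  have e3 : 32 * (M:ℝ) ^ 2 / v ^ 2 * n2 τ (cm x a) ^ 2
      = 2 * (16 * M ^ 2 / v ^ 2 * n2 τ (cm x a) ^ 2) := by ring
  have e4 : (2:ℝ) / M = 2 * (1 / M) := by ring
  rw [e3, e4]
  linarith

end Pool.Agent.Helper19.Gam
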