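import Mathlib
import Pool.Agent.Helper19.GCut
set_option autoImplicit false
open scoped ComplexOrder

namespace Pool.Agent.Helper19.Gam

variable {A : Type} [CStarAlgebra A] {τ : A →ₗ[ℂ] ℂ} (hτ : Tr τ)

/-- symmetries (self-adjoint unitaries) -/
structure IsSymm' (u : A) : Prop where
  sa : star u = u
  sq : u * u = 1

theorem IsSymm'.mem {u : A} (h : IsSymm' u) : u ∈ unitary A := by
  rw [Unitary.mem_iff, h.sa]; exact ⟨h.sq, h.sq⟩

/-- successive averages over symmetries -/
noncomputable def AV : List A → A → A
  | [], y => y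
  | (s :: l), y => (1/2 : ℂ) • (AV l y + s * AV l y * s)

theorem AV_nil (y : A) : AV ([] : List A) y = y := rfl
theorem AV_cons (s : A) (l : List A) (y : A) :
    AV (s :: l) y = (1/2 : ℂ) • (AV l y + s * AV l y * s) := rfl

theorem norm_sandwich {s y : A} (hs : IsSymm' s) : ‖s * y * s‖ = ‖y‖ := by
  have := norm_conj_le (y := y) hs.mem
  rwa [hs.sa] at this

include hτ in
theorem n2_sandwich {s y : A} (hs : IsSymm' s) : n2 τ (s * y * s) = n2 τ y := by
  have := n2_conj hτ (y := y) hs.mem
  rwa [hs.sa] at this

theorem norm_AV_le {l : List A} (hl : ∀ s ∈ l, IsSymm' s) (y : A) : ‖AV l y‖ ≤ ‖y‖ := by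
  induction l with
  | nil => exact le_refl _
  | cons s l ih =>
    rw [AV_cons, norm_smul]
    have h1 := ih (fun t ht => hl t (List.mem_cons_of_mem _ ht))
    have h2 := norm_add_le (AV l y) (s * AV l y * s)
    rw [norm_sandwich (hl s (by simp))] at h2
    have h3 : ‖(1/2 : ℂ)‖ = 1/2 := by norm_num
    rw [h3]; linarith

include hτ in
theorem tau_AV {l : List A} (hl : ∀ s ∈ l, IsSymm' s) (y : A) : τ (AV l y) = τ y := by
  induction l with
  | nil => rfl
  | cons s l ih =>
    have hs := hl s (by simp)
    rw [AV_cons, map_smul, map_add]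
    have h1 : τ (s * AV l y * s) = τ (AV l y) := by
      rw [hτ.comm, ← mul_assoc, hs.sq, one_mul]
    rw [h1, ih (fun t ht => hl t (List.mem_cons_of_mem _ ht)), smul_eq_mul]
    ring

theorem star_AV {l : List A} (hl : ∀ s ∈ l, IsSymm' s) (y : A) : star (AV l y) = AV l (star y) := by
  induction l with
  | nil => rfl
  | cons s l ih =>
    have hs := hl s (by simp)
    have h1 := ih (fun t ht => hl t (List.mem_cons_of_mem _ ht))
    rw [AV_cons, AV_cons, star_smul, star_add, star_mul, star_mul, hs.sa, h1, mul_assoc]
    congr 1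
    simp

theorem AV_sub (l : List A) (x y : A) : AV l (x - y) = AV l x - AV l y := by
  induction l with
  | nil => rfl
  | cons s l ih =>
    rw [AV_cons, AV_cons, AV_cons, ih, ← smul_sub]
    congr 1
    noncomm_ring

theorem comm_AV {l : List A} {t y : A} (ht : ∀ s ∈ l, Commute t s) (hy : Commute t y) :
    Commute t (AV l y) := by
  induction l with
  | nil => exact hy
  | cons s l ih =>
    rw [AV_cons]
    have h1 := ih (fun u hu => ht u (List.mem_cons_of_mem _ hu))
    have hs := ht s (by simp)
    exact (h1.add_right ((hs.mul_right h1).mul_right hs)).smul_right _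

include hτ in
theorem n2_sub_AV {l : List A} (hl : ∀ s ∈ l, IsSymm' s) (y : A) :
    n2 τ (y - AV l y) ≤ (1/2) * (l.map (fun s => n2 τ (cm s y))).sum := by
  induction l with
  | nil => simp [AV_nil, n2_zero hτ]
  | cons s l ih =>
    have hs := hl s (by simp)
    have h1 := ih (fun t ht => hl t (List.mem_cons_of_mem _ ht))
    rw [AV_cons, List.map_cons, List.sum_cons]
    set z := AV l y with hz
    have e : y - (1/2 : ℂ) • (z + s * z * s)
        = (1/2 : ℂ) • (y - s * y * s) + ((1/2 : ℂ) • (y - z) + (1/2 : ℂ) • (s * (y - z) * s)) := by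
      rw [mul_sub, sub_mul]
      module
    have e2 : n2 τ (y - s * y * s) = n2 τ (cm s y) := by
      have := n2_cm_eq hτ (y := y) hs.mem
      rw [hs.sa] at this
      rw [this, ← n2_neg hτ, neg_sub]
    have h3 : ‖(1/2 : ℂ)‖ = 1/2 := by norm_num
    rw [e]
    refine (n2_add hτ _ _).trans ?_
    have h4 := n2_add hτ ((1/2 : ℂ) • (y - z)) ((1/2 : ℂ) • (s * (y - z) * s))
    rw [n2_smul hτ, n2_smul hτ, n2_sandwich hτ hs, h3] at h4
    rw [n2_smul hτ, h3, e2]
    linarith

/-- averages over commuting symmetries commute with them -/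
theorem comm_AV_self {l : List A} (hl : ∀ s ∈ l, IsSymm' s)
    (hc : ∀ s ∈ l, ∀ t ∈ l, Commute s t) (y : A) : ∀ s ∈ l, Commute s (AV l y) := by
  induction l with
  | nil => intro s hs; simp at hs
  | cons s l ih =>
    intro t ht
    have h1 := ih (fun t ht => hl t (List.mem_cons_of_mem _ ht))
      (fun a ha b hb => hc a (List.mem_cons_of_mem _ ha) b (List.mem_cons_of_mem _ hb))
    rw [List.mem_cons] at ht
    rcases ht with rfl | ht
    · have hs := hl t (by simp)
      show t * AV (t :: l) y = AV (t :: l) y * t
      rw [AV_cons, mul_smul_comm, smul_mul_assoc]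
      congr 1
      have e1 : t * (AV l y + t * AV l y * t) = t * AV l y + (t * t) * AV l y * t := by noncomm_ring
      have e2 : (AV l y + t * AV l y * t) * t = AV l y * t + t * AV l y * (t * t) := by noncomm_ring
      rw [e1, e2, hs.sq]; noncomm_ring
    · rw [AV_cons]
      have h2 := h1 t ht
      have hs := hc t (List.mem_cons_of_mem _ ht) s (by simp)
      exact (h2.add_right ((hs.mul_right h2).mul_right hs)).smul_right _

/-- lists of Pauli pairs -/
inductive PW : List A → Prop
  | nil : PW []
  | cons {l : List A} {u w : A} (hl : PW l) (hu : IsSymm' u) (hw : IsSymm' w)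
      (huw : u * w = - (w * u)) (hcu : ∀ s ∈ l, Commute s u) (hcw : ∀ s ∈ l, Commute s w) :
      PW (u :: w :: l)

theorem PW.symm {l : List A} (h : PW l) : ∀ s ∈ l, IsSymm' s := by
  induction h with
  | nil => intro s hs; simp at hs
  | cons hl hu hw huw hcu hcw ih =>
    intro s hs
    simp only [List.mem_cons] at hs
    rcases hs with rfl | rfl | hs
    · exact hu
    · exact hw
    · exact ih s hs

/-- commuting with a list -/
def CL (l : List A) (y : A) : Prop := ∀ s ∈ l, Commute s y

theorem PW.CL_AV {l : List A} (h : PW l) (y : A) : CL l (AV l y) := by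
  induction h with
  | nil => intro s hs; simp at hs
  | @cons l u w hl hu hw huw hcu hcw ih =>
    set z := AV l y with hz
    have hwu : w * u = - (u * w) := by rw [huw, neg_neg]
    set z' := (1/2 : ℂ) • (z + w * z * w) with hz'
    have hAw : AV (w :: l) y = z' := rfl
    have hAu : AV (u :: w :: l) y = (1/2 : ℂ) • (z' + u * z' * u) := rfl
    have hwz' : w * z' * w = z' := by
      rw [hz', mul_smul_comm, smul_mul_assoc]
      congr 1
      have e1 : w * (z + w * z * w) * w = w * z * w + (w * w) * z * (w * w) := by noncomm_ring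
      rw [e1, hw.sq]; noncomm_ring
    intro s hs
    simp only [List.mem_cons] at hs
    rw [hAu]
    rcases hs with rfl | rfl | hs
    · show s * _ = _ * s
      rw [mul_smul_comm, smul_mul_assoc]
      congr 1
      have e1 : s * (z' + s * z' * s) = s * z' + (s * s) * z' * s := by noncomm_ring
      have e2 : (z' + s * z' * s) * s = z' * s + s * z' * (s * s) := by noncomm_ring
      rw [e1, e2, hu.sq]; noncomm_ring
    · have hc' : s * z' = z' * s := by
        have : s * z' = s * z' * (s * s) := by rw [hw.sq, mul_one]
        rw [this, ← mul_assoc, hwz']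
      show s * _ = _ * s
      rw [mul_smul_comm, smul_mul_assoc]
      congr 1
      have e1 : s * (z' + u * z' * u) = s * z' + (s * u) * z' * u := by noncomm_ring
      have e2 : (z' + u * z' * u) * s = z' * s + u * z' * (u * s) := by noncomm_ring
      have e3 : s * u * z' * u = -(u * (s * z') * u) := by rw [hwu]; noncomm_ring
      have e4 : u * z' * (u * s) = -(u * (z' * s) * u) := by rw [huw]; noncomm_ring
      rw [e1, e2, e3, e4, hc']
    · have h1 : Commute s z := ih s hs
      have h2 : Commute s z' :=
        (h1.add_right (((hcw s hs).mul_right h1).mul_right (hcw s hs))).smul_right _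
      exact (h2.add_right (((hcu s hs).mul_right h2).mul_right (hcu s hs))).smul_right _

/-- the algebra-level hypotheses: spectral families, and comparison and halving of projections in
all commutants of Pauli lists -/
structure GoodAlg (τ : A →ₗ[ℂ] ℂ) : Prop where
  spec : HasSpec A
  sub : ∀ l : List A, PW l → ∀ e f : A, CL l e → CL l f → IsStarProjection e →
    IsStarProjection f → (τ e).re ≤ (τ f).re → ∃ v : A, CL l v ∧ star v * v = e ∧ f * v = v
  half : ∀ l : List A, PW l → ∃ e : A, CL l e ∧ IsStarProjection e ∧ τ e = 1/2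

end Pool.Agent.Helper19.Gam
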