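import Mathlib
import Pool.Agent.Helper19.GAv
set_option autoImplicit false
open scoped ComplexOrder

namespace Pool.Agent.Helper19.Gam

variable {A : Type} [CStarAlgebra A] {τ : A →ₗ[ℂ] ℂ} (hτ : Tr τ)

theorem piso_right {v e : A} (he : IsStarProjection e) (h : star v * v = e) : v * e = v := by
  have h1 : star (v - v * e) * (v - v * e) = 0 := by
    rw [star_sub, star_mul, he.isSelfAdjoint.star_eq]
    have : (star v - e * star v) * (v - v * e)
        = star v * v - (star v * v) * e - e * (star v * v) + e * (star v * v) * e := by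
      noncomm_ring
    rw [this, h, he.isIdempotentElem.eq, he.isIdempotentElem.eq]; abel
  have h2 : v - v * e = 0 := by
    rw [← norm_eq_zero, ← mul_self_eq_zero, ← CStarRing.norm_star_mul_self, h1, norm_zero]
  rw [sub_eq_zero] at h2; exact h2.symm

theorem piso_proj {v e : A} (he : IsStarProjection e) (h : star v * v = e) :
    IsStarProjection (v * star v) := by
  refine ⟨?_, ?_⟩
  · show v * star v * (v * star v) = v * star v
    have : v * star v * (v * star v) = v * (star v * v) * star v := by noncomm_ring
    rw [this, h, piso_right he h]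
  · show star (v * star v) = v * star v
    rw [star_mul, star_star]

theorem CL.star {l : List A} (hl : ∀ s ∈ l, IsSymm' s) {v : A} (h : CL l v) : CL l (star v) := by
  intro s hs
  have h1 := h s hs
  have := congrArg Star.star h1.eq
  rw [star_mul, star_mul, (hl s hs).sa] at this
  exact this.symm

theorem CL.mul {l : List A} {x y : A} (hx : CL l x) (hy : CL l y) : CL l (x * y) :=
  fun s hs => (hx s hs).mul_right (hy s hs)
theorem CL.add {l : List A} {x y : A} (hx : CL l x) (hy : CL l y) : CL l (x + y) :=
  fun s hs => (hx s hs).add_right (hy s hs)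
theorem CL.sub {l : List A} {x y : A} (hx : CL l x) (hy : CL l y) : CL l (x - y) :=
  fun s hs => (hx s hs).sub_right (hy s hs)
theorem CL.smul {l : List A} {x : A} (c : ℂ) (hx : CL l x) : CL l (c • x) :=
  fun s hs => (hx s hs).smul_right c
theorem CL.one {l : List A} : CL l (1 : A) := fun s _ => Commute.one_right s
theorem CL.zero {l : List A} : CL l (0 : A) := fun s _ => Commute.zero_right s
theorem CL.sum {ι : Type} {l : List A} (s : Finset ι) (f : ι → A) (h : ∀ i ∈ s, CL l (f i)) :
    CL l (∑ i ∈ s, f i) := fun t ht => Commute.sum_right _ _ _ (fun i hi => h i hi t ht)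

include hτ in
theorem proj_eq_of_tau {f f' : A} (hf : IsStarProjection f) (hf' : IsStarProjection f')
    (h : f * f' = f') (ht : (τ f).re ≤ (τ f').re) : f = f' := by
  have h' : f' * f = f' := by
    have := congrArg star h
    rwa [star_mul, hf.isSelfAdjoint.star_eq, hf'.isSelfAdjoint.star_eq] at this
  have h1 : star (f - f') * (f - f') = f - f' := by
    rw [star_sub, hf.isSelfAdjoint.star_eq, hf'.isSelfAdjoint.star_eq, mul_sub, sub_mul, sub_mul,
      h, h', hf.isIdempotentElem.eq, hf'.isIdempotentElem.eq]
    abel
  have h2 : n2 τ (f - f') ^ 2 ≤ 0 := by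
    rw [n2_sq hτ, h1, map_sub, Complex.sub_re]; linarith
  have h3 : τ (star (f - f') * (f - f')) = 0 := by
    have h4 := hτ.nonneg (f - f')
    rw [Complex.nonneg_iff] at h4
    rw [n2_sq hτ] at h2
    apply Complex.ext
    · simp only [Complex.zero_re]; linarith [h4.1]
    · simp only [Complex.zero_im]; exact h4.2.symm
  have := hτ.faith _ h3
  rw [sub_eq_zero] at this; exact this

include hτ in
/-- equivalence of projections of equal trace -/
theorem GoodAlg.eqv (hA : GoodAlg τ) {l : List A} (hl : PW l) {e f : A} (he : CL l e)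
    (hf : CL l f) (hep : IsStarProjection e) (hfp : IsStarProjection f)
    (ht : (τ e).re = (τ f).re) :
    ∃ v : A, CL l v ∧ star v * v = e ∧ v * star v = f := by
  obtain ⟨v, hv, hve, hfv⟩ := hA.sub l hl e f he hf hep hfp ht.le
  refine ⟨v, hv, hve, ?_⟩
  have hp := piso_proj hep hve
  symm
  refine proj_eq_of_tau hτ hfp hp ?_ ?_
  · rw [← mul_assoc, hfv]
  · rw [hτ.comm v, hve, ht]

include hτ in
theorem GoodAlg.unitary_eqv (hA : GoodAlg τ) {l : List A} (hl : PW l) {e f : A} (he : CL l e)
    (hf : CL l f) (hep : IsStarProjection e) (hfp : IsStarProjection f)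
    (ht : (τ e).re = (τ f).re) :
    ∃ w ∈ unitary A, CL l w ∧ w * e * star w = f := by
  obtain ⟨v, hv, hve, hvf⟩ := hA.eqv hτ hl he hf hep hfp ht
  have ht' : (τ (1 - e)).re = (τ (1 - f)).re := by
    rw [map_sub, map_sub, Complex.sub_re, Complex.sub_re, ht]
  obtain ⟨v', hv', hve', hvf'⟩ := hA.eqv hτ hl (CL.one.sub he) (CL.one.sub hf)
    (one_sub_proj hep) (one_sub_proj hfp) ht'
  have a1 : v * e = v := piso_right hep hve
  have a2 : v' * (1 - e) = v' := piso_right (one_sub_proj hep) hve'
  have a3 : v' * e = 0 := by
    rw [← a2, mul_assoc, sub_mul, one_mul, hep.isIdempotentElem.eq, sub_self, mul_zero]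
  have b1 : star v * f = star v := by
    refine piso_right (v := star v) hfp ?_
    rw [star_star]; exact hvf
  have b2 : star v' * (1 - f) = star v' := by
    refine piso_right (v := star v') (one_sub_proj hfp) ?_
    rw [star_star]; exact hvf'
  have b3 : star v' * f = 0 := by
    rw [← b2, mul_assoc, sub_mul, one_mul, hfp.isIdempotentElem.eq, sub_self, mul_zero]
  have b4 : f * v' = 0 := by
    have := congrArg star b3
    rwa [star_mul, star_star, hfp.isSelfAdjoint.star_eq, star_zero] at this
  have c1 : star v * v' = 0 := by rw [← b1, mul_assoc, b4, mul_zero]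
  have c2 : star v' * v = 0 := by
    have := congrArg star c1
    rwa [star_mul, star_star, star_zero] at this
  have a4 : e * star v' = 0 := by
    have := congrArg star a3
    rwa [star_mul, hep.isSelfAdjoint.star_eq, star_zero] at this
  have c3 : v * star v' = 0 := by rw [← a1, mul_assoc, a4, mul_zero]
  have c4 : v' * star v = 0 := by
    have := congrArg star c3
    rwa [star_mul, star_star, star_zero] at this
  refine ⟨v + v', ?_, hv.add hv', ?_⟩
  · rw [Unitary.mem_iff, star_add, mul_add, add_mul, add_mul, mul_add, add_mul, add_mul, hve, hve',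
      hvf, hvf', c1, c2, c3, c4]
    constructor <;> abel
  · rw [star_add, add_mul, a1, a3, add_zero, mul_add, hvf, c3, add_zero]

include hτ in
/-- covering by conjugates of a projection -/
theorem GoodAlg.cover (hA : GoodAlg τ) {e : A} (he : IsStarProjection e) (n : ℕ) :
    ∀ r : A, IsStarProjection r → (τ r).re ≤ n * (τ e).re →
    ∃ wl : List A, wl.length ≤ n ∧ (∀ w ∈ wl, w ∈ unitary A) ∧
      ∀ q : A, IsStarProjection q →
        (τ (q * r)).re ≤ (wl.map (fun w => (τ (q * (w * e * star w))).re)).sum := by
  have cl0 : ∀ x : A, CL ([] : List A) x := fun x s hs => by simp at hs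
  induction n with
  | zero =>
    intro r hr htr
    have : r = 0 := by
      refine proj_eq_of_tau hτ hr (IsStarProjection.zero A) (by rw [mul_zero]) ?_
      simp at htr ⊢; exact htr
    refine ⟨[], le_refl _, by simp, fun q hq => ?_⟩
    rw [this]; simp
  | succ n ih =>
    intro r hr htr
    rcases le_total (τ r).re (τ e).re with h | h
    · obtain ⟨v, -, hvr, hev⟩ := hA.sub [] PW.nil r e (cl0 _) (cl0 _) hr he h
      -- f = v v* ≤ e, equivalent to r
      set f := v * star v with hf
      have hfp : IsStarProjection f := piso_proj hr hvr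
      have htf : (τ r).re = (τ f).re := by rw [hf, hτ.comm v, hvr]
      obtain ⟨w, hw, -, hwf⟩ := hA.unitary_eqv hτ PW.nil (cl0 _) (cl0 _) hfp hr htf.symm
      refine ⟨[w], by simp, by simpa using hw, fun q hq => ?_⟩
      simp only [List.map_cons, List.map_nil, List.sum_cons, List.sum_nil, add_zero]
      -- w e w* - r = w (e - f) w* is a projection
      have hef : e * f = f := by rw [hf, ← mul_assoc, hev]
      have hfe : f * e = f := by
        have := congrArg star hef
        rwa [star_mul, he.isSelfAdjoint.star_eq, hfp.isSelfAdjoint.star_eq] at this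
      have hd : IsStarProjection (e - f) := by
        refine ⟨?_, ?_⟩
        · show (e - f) * (e - f) = e - f
          rw [mul_sub, sub_mul, sub_mul, hef, hfe, he.isIdempotentElem.eq,
            hfp.isIdempotentElem.eq]
          abel
        · show star (e - f) = e - f
          rw [star_sub, he.isSelfAdjoint.star_eq, hfp.isSelfAdjoint.star_eq]
      have h1 := pos_mul hτ q ((e - f) * star w)
      have e1 : star ((e - f) * star w) * ((e - f) * star w) = w * e * star w - r := by
        rw [star_mul, star_star, hd.isSelfAdjoint.star_eq, ← hwf]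
        have : w * (e - f) * ((e - f) * star w) = w * ((e - f) * (e - f)) * star w := by
          noncomm_ring
        rw [this, hd.isIdempotentElem.eq]; noncomm_ring
      rw [e1, proj_eq hq, mul_sub, map_sub, Complex.sub_re] at h1
      linarith
    · obtain ⟨v, -, hve, hrv⟩ := hA.sub [] PW.nil e r (cl0 _) (cl0 _) he hr h
      set f := v * star v with hf
      have hfp : IsStarProjection f := piso_proj he hve
      have htf : (τ e).re = (τ f).re := by rw [hf, hτ.comm v, hve]
      obtain ⟨w, hw, -, hwf⟩ := hA.unitary_eqv hτ PW.nil (cl0 _) (cl0 _) he hfp htf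
      have hrf : r * f = f := by rw [hf, ← mul_assoc, hrv]
      have hfr : f * r = f := by
        have := congrArg star hrf
        rwa [star_mul, hr.isSelfAdjoint.star_eq, hfp.isSelfAdjoint.star_eq] at this
      have hd : IsStarProjection (r - f) := by
        refine ⟨?_, ?_⟩
        · show (r - f) * (r - f) = r - f
          rw [mul_sub, sub_mul, sub_mul, hrf, hfr, hr.isIdempotentElem.eq,
            hfp.isIdempotentElem.eq]
          abel
        · show star (r - f) = r - f
          rw [star_sub, hr.isSelfAdjoint.star_eq, hfp.isSelfAdjoint.star_eq]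
      obtain ⟨wl, hlen, hwl, hq⟩ := ih (r - f) hd (by
        rw [map_sub, Complex.sub_re, ← htf]; push_cast at htr; linarith)
      refine ⟨w :: wl, by simp; exact hlen, ?_, fun q hqp => ?_⟩
      · intro x hx
        rw [List.mem_cons] at hx
        rcases hx with rfl | hx
        · exact hw
        · exact hwl x hx
      · rw [List.map_cons, List.sum_cons, hwf]
        have := hq q hqp
        rw [mul_sub, map_sub, Complex.sub_re] at this
        linarith

include hτ in
/-- correction to trace one half -/
theorem GoodAlg.half_above (hA : GoodAlg τ) {l : List A} (hl : PW l) {p : A} (hp : CL l p)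
    (hpp : IsStarProjection p) (ht : (τ p).re ≤ 1/2) :
    ∃ p' : A, CL l p' ∧ IsStarProjection p' ∧ p' * p = p ∧ τ p' = 1/2 := by
  obtain ⟨e, he, hep, hte⟩ := hA.half l hl
  have h1 : (τ e).re ≤ (τ (1 - p)).re := by
    rw [hte, map_sub, hτ.one, Complex.sub_re, Complex.one_re]
    norm_num; linarith
  obtain ⟨v, hv, hve, hpv⟩ := hA.sub l hl e (1 - p) he (CL.one.sub hp) hep (one_sub_proj hpp) h1
  have hfp := piso_proj hep hve
  refine ⟨1 - v * star v, CL.one.sub (hv.mul (hv.star hl.symm)), one_sub_proj hfp, ?_, ?_⟩
  · have h2 : star v * p = 0 := by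
      have h3 : p * v = 0 := by
        rw [← hpv, ← mul_assoc, mul_sub, mul_one, hpp.isIdempotentElem.eq, sub_self, zero_mul]
      have := congrArg star h3
      rwa [star_mul, hpp.isSelfAdjoint.star_eq, star_zero] at this
    rw [sub_mul, one_mul, mul_assoc, h2, mul_zero, sub_zero]
  · rw [map_sub, hτ.one, hτ.comm v, hve, hte]; norm_num

include hτ in
/-- an anticommuting partner -/
theorem GoodAlg.partner (hA : GoodAlg τ) {l : List A} (hl : PW l) {u : A} (hu : CL l u)
    (hus : IsSymm' u) (ht : τ u = 0) :
    ∃ w : A, CL l w ∧ IsSymm' w ∧ u * w = - (w * u) := by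
  set p : A := (1/2 : ℂ) • (1 + u) with hp
  have hpp : IsStarProjection p := by
    refine ⟨?_, ?_⟩
    · show p * p = p
      rw [hp, smul_mul_assoc, mul_smul_comm, smul_smul]
      have : (1 + u) * (1 + u) = (2:ℂ) • (1 + u) := by
        have e : (1 + u) * (1 + u) = 1 + u + u + u * u := by noncomm_ring
        rw [e, hus.sq, two_smul]; abel
      rw [this, smul_smul]; norm_num
    · show star p = p
      rw [hp, star_smul, star_add, star_one, hus.sa]
      congr 1
      simp
  have hpc : CL l p := (CL.one.add hu).smul _
  have htp : (τ p).re = (τ (1 - p)).re := by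
    rw [map_sub, hp, map_smul, map_add, hτ.one, ht]; norm_num
  obtain ⟨v, hv, hve, hvf⟩ := hA.eqv hτ hl hpc (CL.one.sub hpc) hpp (one_sub_proj hpp) htp
  have a1 : v * p = v := piso_right hpp hve
  have b1 : star v * (1 - p) = star v := by
    refine piso_right (v := star v) (one_sub_proj hpp) ?_
    rw [star_star]; exact hvf
  have b2 : star v * p = 0 := by
    rw [← b1, mul_assoc, sub_mul, one_mul, hpp.isIdempotentElem.eq, sub_self, mul_zero]
  have b3 : p * v = 0 := by
    have := congrArg star b2
    rwa [star_mul, star_star, hpp.isSelfAdjoint.star_eq, star_zero] at this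
  have a2 : p * star v = star v := by
    have := congrArg star a1
    rwa [star_mul, hpp.isSelfAdjoint.star_eq] at this
  have c1 : v * v = 0 := by
    calc v * v = v * p * v := by rw [a1]
      _ = v * (p * v) := by rw [mul_assoc]
      _ = 0 := by rw [b3, mul_zero]
  have c2 : star v * star v = 0 := by
    have := congrArg star c1
    rwa [star_mul, star_zero] at this
  have hup : u = (2:ℂ) • p - 1 := by
    rw [hp, smul_smul]; norm_num
  refine ⟨v + star v, hv.add (hv.star hl.symm), ⟨?_, ?_⟩, ?_⟩
  · rw [star_add, star_star, add_comm]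
  · have : (v + star v) * (v + star v) = v * v + v * star v + star v * v + star v * star v := by
      noncomm_ring
    rw [this, c1, c2, hve, hvf]; abel
  · rw [hup]
    have e1 : ((2:ℂ) • p - 1) * (v + star v) = (2:ℂ) • (p * v) + (2:ℂ) • (p * star v)
        - (v + star v) := by
      rw [sub_mul, smul_mul_assoc, mul_add, smul_add, one_mul]
    have e2 : (v + star v) * ((2:ℂ) • p - 1) = (2:ℂ) • (v * p) + (2:ℂ) • (star v * p)
        - (v + star v) := by
      rw [mul_sub, mul_smul_comm, add_mul, smul_add, mul_one]
    rw [e1, e2, a1, a2, b2, b3]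
    module

end Pool.Agent.Helper19.Gam
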