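import Mathlib
import Pool.Agent.Helper19.GCmp
set_option autoImplicit false
open scoped ComplexOrder

namespace Pool.Agent.Helper19.Gam

variable {A : Type} [CStarAlgebra A] {τ : A →ₗ[ℂ] ℂ} (hτ : Tr τ)

include hτ in
/-- failing of the gap for a family together with a short list -/
theorem fail_list {ι : Type} [Fintype ι] {k b : ℕ} (hc : Fintype.card ι = 2 ^ k) (x : ι → A)
    (hx : ∀ i, x i ∈ unitary A) (l : List A) (hl : ∀ w ∈ l, w ∈ unitary A)
    (hlen : l.length ≤ 2 ^ b) {γ : ℝ} (hγ : 0 < γ) (hG : ¬ HasGap τ (k + b + 2) γ) :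
    ∃ a : A, IsSelfAdjoint a ∧ ‖a‖ ≤ 1 ∧ τ a = 0 ∧ 1/20 < n2 τ a ^ 2 ∧
      Dav τ x a ≤ 8 * γ ∧ ∀ w ∈ l, n2 τ (cm w a) ^ 2 ≤ 8 * 2 ^ b * γ := by
  have hne : Nonempty ι := by
    rw [← Fintype.card_pos_iff, hc]; positivity
  let g : Fin (2 ^ b) → A := fun j => l.getD j 1
  have hg : ∀ j, g j ∈ unitary A := by
    intro j
    show l.getD j 1 ∈ unitary A
    rcases lt_or_ge (j : ℕ) l.length with h | h
    · rw [List.getD_eq_getElem _ _ h]; exact hl _ (List.getElem_mem h)
    · rw [List.getD_eq_default _ _ h]; exact one_mem _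
  let F : (ι × Fin (2 ^ b)) × Bool → A := fun p => if p.2 then x p.1.1 else g p.1.2
  have hF : ∀ p, F p ∈ unitary A := by
    intro p
    show (if p.2 then x p.1.1 else g p.1.2) ∈ unitary A
    split_ifs
    · exact hx _
    · exact hg _
  have hcF : Fintype.card ((ι × Fin (2 ^ b)) × Bool) = 2 ^ (k + b + 1) := by
    rw [Fintype.card_prod, Fintype.card_prod, hc, Fintype.card_fin, Fintype.card_bool, pow_succ,
      pow_add]
  obtain ⟨a, ha, hn, h0, h1, hD⟩ := fail_sa hτ hcF F hF hγ hG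
  have hsplit : Dav τ F a = (1/2) * Dav τ x a
      + (1/2) * ((2 ^ b)⁻¹ * ∑ j, n2 τ (cm (g j) a) ^ 2) := by
    unfold Dav
    rw [hcF, hc, Fintype.sum_prod_type]
    have e1 : ∀ p : ι × Fin (2 ^ b), ∑ y : Bool, n2 τ (cm (F (p, y)) a) ^ 2
        = n2 τ (cm (x p.1) a) ^ 2 + n2 τ (cm (g p.2) a) ^ 2 := by
      intro p
      rw [Fintype.sum_bool]; rfl
    simp only [e1]
    rw [Finset.sum_add_distrib, Fintype.sum_prod_type, Fintype.sum_prod_type]
    simp only [Finset.sum_const, Finset.card_univ, Fintype.card_fin, nsmul_eq_mul, hc]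
    rw [← Finset.mul_sum]
    push_cast
    have h2k : (2:ℝ) ^ k ≠ 0 := by positivity
    have h2b : (2:ℝ) ^ b ≠ 0 := by positivity
    rw [pow_succ, pow_add]
    field_simp
  have hsum0 : 0 ≤ (2 ^ b : ℝ)⁻¹ * ∑ j, n2 τ (cm (g j) a) ^ 2 := by positivity
  have hD0 := Dav_nonneg (τ := τ) x a
  rw [hsplit] at hD
  refine ⟨a, ha, hn, h0, h1, by linarith, ?_⟩
  intro w hw
  obtain ⟨i, hi, hwi⟩ := List.getElem_of_mem hw
  have hib : i < 2 ^ b := lt_of_lt_of_le hi hlen
  have e : g ⟨i, hib⟩ = w := by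
    show l.getD i 1 = w
    rw [List.getD_eq_getElem _ _ hi]; exact hwi
  have h2 : n2 τ (cm w a) ^ 2 ≤ ∑ j, n2 τ (cm (g j) a) ^ 2 := by
    rw [← e]
    exact Finset.single_le_sum (f := fun j => n2 τ (cm (g j) a) ^ 2)
      (fun j _ => by positivity) (Finset.mem_univ _)
  have h3 : (2 ^ b : ℝ)⁻¹ * ∑ j, n2 τ (cm (g j) a) ^ 2 ≤ 8 * γ := by linarith
  have h2b : (0:ℝ) < 2 ^ b := by positivity
  rw [inv_mul_le_iff₀ h2b] at h3
  linarith

/-- finite partitions into projections commuting with a list -/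
structure Part (l : List A) {n : ℕ} (p : Fin n → A) : Prop where
  proj : ∀ j, IsStarProjection (p j)
  orth : ∀ i j, i ≠ j → p i * p j = 0
  sum : ∑ j, p j = 1
  cl : ∀ j, CL l (p j)

theorem Part.comm {l : List A} {n : ℕ} {p : Fin n → A} (hp : Part l p) (i j : Fin n) :
    Commute (p i) (p j) := by
  by_cases h : i = j
  · rw [h]
  · show p i * p j = p j * p i
    rw [hp.orth i j h, hp.orth j i (Ne.symm h)]

theorem proj_mul_comm {p q : A} (hp : IsStarProjection p) (hq : IsStarProjection q)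
    (h : Commute p q) : IsStarProjection (p * q) := by
  refine ⟨?_, ?_⟩
  · show p * q * (p * q) = p * q
    have : p * q * (p * q) = p * (q * p) * q := by noncomm_ring
    rw [this, ← h.eq]
    have : p * (p * q) * q = (p * p) * (q * q) := by noncomm_ring
    rw [this, hp.isIdempotentElem.eq, hq.isIdempotentElem.eq]
  · show star (p * q) = p * q
    rw [star_mul, hp.isSelfAdjoint.star_eq, hq.isSelfAdjoint.star_eq, h.eq]

/-- splitting one atom -/
noncomputable def splitP {n : ℕ} (p : Fin n → A) (j0 : Fin n) (q : A) : Fin (n + 1) → A :=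
  Fin.cons ((1 - q) * p j0) (Function.update p j0 (q * p j0))

theorem sum_splitP {n : ℕ} {B : Type} [AddCommGroup B] (p : Fin n → A) (j0 : Fin n) (q : A)
    (F : A → B) : ∑ j, F (splitP p j0 q j)
      = F ((1 - q) * p j0) + F (q * p j0) + (∑ j, F (p j) - F (p j0)) := by
  unfold splitP
  rw [Fin.sum_univ_succ]
  simp only [Fin.cons_zero, Fin.cons_succ]
  have h1 : ∑ j, F (Function.update p j0 (q * p j0) j)
      = F (q * p j0) + ∑ j ∈ Finset.univ.erase j0, F (p j) := by
    rw [← Finset.add_sum_erase _ _ (Finset.mem_univ j0)]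
    rw [Function.update_self]
    congr 1
    refine Finset.sum_congr rfl fun j hj => ?_
    rw [Function.update_of_ne (Finset.ne_of_mem_erase hj)]
  have h2 : ∑ j, F (p j) = F (p j0) + ∑ j ∈ Finset.univ.erase j0, F (p j) :=
    (Finset.add_sum_erase _ _ (Finset.mem_univ j0)).symm
  rw [h1, h2]; abel

theorem forall_splitP {n : ℕ} {p : Fin n → A} {j0 : Fin n} {q : A} {Q : A → Prop}
    (h1 : Q ((1 - q) * p j0)) (h2 : Q (q * p j0)) (h3 : ∀ j, Q (p j)) :
    ∀ j, Q (splitP p j0 q j) := by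
  intro j
  unfold splitP
  refine Fin.cases ?_ ?_ j
  · simpa using h1
  · intro i
    rw [Fin.cons_succ]
    by_cases h : i = j0
    · rw [h, Function.update_self]; exact h2
    · rw [Function.update_of_ne h]; exact h3 i

theorem Part.split {l : List A} {n : ℕ} {p : Fin n → A} (hp : Part l p) (j0 : Fin n) {q : A}
    (hq : IsStarProjection q) (hql : CL l q) (hqp : ∀ j, Commute q (p j)) :
    Part l (splitP p j0 q) := by
  have hq1 := one_sub_proj hq
  have hc1 : ∀ j, Commute (1 - q) (p j) := fun j => (Commute.one_left _).sub_left (hqp j)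
  have hqq : q * (1 - q) = 0 := by
    rw [mul_sub, mul_one, hq.isIdempotentElem.eq, sub_self]
  have hqq' : (1 - q) * q = 0 := by
    rw [sub_mul, one_mul, hq.isIdempotentElem.eq, sub_self]
  refine ⟨?_, ?_, ?_, ?_⟩
  · exact forall_splitP (Q := fun y => IsStarProjection y)
      (proj_mul_comm hq1 (hp.proj j0) (hc1 j0)) (proj_mul_comm hq (hp.proj j0) (hqp j0)) hp.proj
  · -- orthogonality
    have key0 : ∀ i, (1 - q) * p j0 * Function.update p j0 (q * p j0) i = 0 := by
      intro i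
      by_cases h : i = j0
      · rw [h, Function.update_self]
        calc (1 - q) * p j0 * (q * p j0) = (1 - q) * (p j0 * q) * p j0 := by noncomm_ring
          _ = ((1 - q) * q) * p j0 * p j0 := by rw [← (hqp j0).eq]; noncomm_ring
          _ = 0 := by rw [hqq']; simp
      · rw [Function.update_of_ne h, mul_assoc, hp.orth j0 i (Ne.symm h), mul_zero]
    have key0' : ∀ i, Function.update p j0 (q * p j0) i * ((1 - q) * p j0) = 0 := by
      intro i
      by_cases h : i = j0
      · rw [h, Function.update_self]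
        calc q * p j0 * ((1 - q) * p j0) = q * (p j0 * (1 - q)) * p j0 := by noncomm_ring
          _ = (q * (1 - q)) * p j0 * p j0 := by rw [← (hc1 j0).eq]; noncomm_ring
          _ = 0 := by rw [hqq]; simp
      · rw [Function.update_of_ne h, (hc1 j0).eq, ← mul_assoc, hp.orth i j0 h, zero_mul]
    have keyu : ∀ i i', i ≠ i' →
        Function.update p j0 (q * p j0) i * Function.update p j0 (q * p j0) i' = 0 := by
      intro i i' hii
      by_cases h : i = j0
      · subst h
        rw [Function.update_self, Function.update_of_ne (Ne.symm hii), mul_assoc,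
          hp.orth i i' hii, mul_zero]
      · by_cases h' : i' = j0
        · subst h'
          rw [Function.update_self, Function.update_of_ne h, (hqp i').eq, ← mul_assoc,
            hp.orth i i' hii, zero_mul]
        · rw [Function.update_of_ne h, Function.update_of_ne h', hp.orth i i' hii]
    intro i j
    unfold splitP
    refine Fin.cases ?_ ?_ i
    · refine Fin.cases ?_ ?_ j
      · intro h; exact absurd rfl h
      · intro j _
        rw [Fin.cons_zero, Fin.cons_succ]; exact key0 j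
    · intro i
      refine Fin.cases ?_ ?_ j
      · intro _
        rw [Fin.cons_zero, Fin.cons_succ]; exact key0' i
      · intro j h
        rw [Fin.cons_succ, Fin.cons_succ]
        exact keyu i j (fun hij => h (by rw [hij]))
  · have := sum_splitP p j0 q (fun y => y)
    rw [this, hp.sum]; noncomm_ring
  · exact forall_splitP (Q := fun y => CL l y)
      ((CL.one.sub hql).mul (hp.cl j0)) (hql.mul (hp.cl j0)) hp.cl

/-- the potential decreases when an atom is split -/
theorem phi_split {n : ℕ} (p : Fin n → A) (j0 : Fin n) (q : A) :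
    ∑ j, (τ (splitP p j0 q j)).re ^ 2
      = ∑ j, (τ (p j)).re ^ 2 - 2 * ((τ (q * p j0)).re * (τ ((1 - q) * p j0)).re) := by
  rw [sum_splitP p j0 q (fun y => (τ y).re ^ 2)]
  have : (τ (p j0)).re = (τ (q * p j0)).re + (τ ((1 - q) * p j0)).re := by
    rw [← Complex.add_re, ← map_add]
    congr 2
    noncomm_ring
  rw [this]; ring

/-- Minkowski for averages of squares -/
theorem mink {ι : Type} [Fintype ι] [Nonempty ι] {α β : ι → ℝ}
    {a b : ℝ} (ha0 : 0 ≤ a) (hb0 : 0 ≤ b)
    (ha : (Fintype.card ι : ℝ)⁻¹ * ∑ i, α i ^ 2 ≤ a ^ 2)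
    (hb : (Fintype.card ι : ℝ)⁻¹ * ∑ i, β i ^ 2 ≤ b ^ 2) :
    (Fintype.card ι : ℝ)⁻¹ * ∑ i, (α i + β i) ^ 2 ≤ (a + b) ^ 2 := by
  have hc : (0:ℝ) < Fintype.card ι := by exact_mod_cast Fintype.card_pos
  rw [inv_mul_le_iff₀ hc] at ha hb ⊢
  have h1 : (∑ i, α i * β i) ^ 2 ≤ (∑ i, α i ^ 2) * (∑ i, β i ^ 2) :=
    Finset.sum_mul_sq_le_sq_mul_sq _ _ _
  have h2 : (∑ i, α i * β i) ^ 2 ≤ (Fintype.card ι * (a * b)) ^ 2 := by
    refine h1.trans ?_
    have : (∑ i, α i ^ 2) * (∑ i, β i ^ 2)
        ≤ (Fintype.card ι * a ^ 2) * (Fintype.card ι * b ^ 2) := by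
      gcongr
    refine this.trans (le_of_eq ?_)
    ring
  have h3 : ∑ i, α i * β i ≤ Fintype.card ι * (a * b) :=
    le_of_sq_le_sq h2 (by positivity)
  have h4 : ∑ i, (α i + β i) ^ 2 = ∑ i, α i ^ 2 + 2 * ∑ i, α i * β i + ∑ i, β i ^ 2 := by
    rw [Finset.mul_sum, ← Finset.sum_add_distrib, ← Finset.sum_add_distrib]
    refine Finset.sum_congr rfl fun i _ => ?_
    ring
  rw [h4]
  nlinarith

include hτ in
theorem n2_cm_mul_proj {x q e : A} (hq : IsStarProjection q) (he : IsStarProjection e) :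
    n2 τ (cm x (q * e)) ≤ n2 τ (cm x q) + n2 τ (cm x e) := by
  have e1 : cm x (q * e) = cm x q * e + q * cm x e := by unfold cm; noncomm_ring
  rw [e1]
  refine (n2_add hτ _ _).trans ?_
  have h1 := n2_mul_right hτ (cm x q) e
  have h2 := n2_mul_left hτ q (cm x e)
  have h3 := proj_norm_le hq
  have h4 := proj_norm_le he
  have h5 := n2_nonneg hτ (cm x q)
  have h6 := n2_nonneg hτ (cm x e)
  nlinarith

include hτ in
theorem Dav_mul_proj {ι : Type} [Fintype ι] [Nonempty ι] (x : ι → A) {q e : A}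
    (hq : IsStarProjection q) (he : IsStarProjection e) {a b : ℝ} (ha0 : 0 ≤ a) (hb0 : 0 ≤ b)
    (ha : Dav τ x q ≤ a ^ 2) (hb : Dav τ x e ≤ b ^ 2) : Dav τ x (q * e) ≤ (a + b) ^ 2 := by
  refine le_trans ?_ (mink ha0 hb0 ha hb)
  unfold Dav
  gcongr with i
  · exact n2_nonneg hτ _
  · exact n2_cm_mul_proj hτ hq he

theorem cm_one_sub (x q : A) : cm x (1 - q) = - cm x q := by unfold cm; noncomm_ring

include hτ in
theorem Dav_one_sub {ι : Type} [Fintype ι] (x : ι → A) (q : A) :
    Dav τ x (1 - q) = Dav τ x q := by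
  unfold Dav
  simp only [cm_one_sub, n2_neg hτ]

end Pool.Agent.Helper19.Gam
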