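import Mathlib
import Pool.Agent.Helper19.GH1
set_option autoImplicit false
open scoped ComplexOrder

namespace Pool.Agent.Helper19.Gam

variable {A : Type} [CStarAlgebra A] {τ : A →ₗ[ℂ] ℂ} (hτ : Tr τ)

include hτ in
theorem n2_cm_le {s : A} (hs : s ∈ unitary A) (y : A) : n2 τ (cm s y) ≤ 2 * n2 τ y := by
  unfold cm
  refine (n2_sub hτ _ _).trans ?_
  rw [n2_unitary_mul hτ _ _ hs.1, n2_mul_unitary hτ _ _ hs.2]; linarith

include hτ in
theorem n2_cm_diff {s : A} (hs : s ∈ unitary A) (y z : A) :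
    n2 τ (cm s y) ≤ n2 τ (cm s z) + 2 * n2 τ (y - z) := by
  have e : cm s y = cm s z + cm s (y - z) := by unfold cm; noncomm_ring
  rw [e]
  exact (n2_add hτ _ _).trans (by linarith [n2_cm_le hτ hs (y - z)])

theorem list_sum_le {B : Type} (l : List B) (f : B → ℝ) (c : ℝ) (h : ∀ s ∈ l, f s ≤ c) :
    (l.map f).sum ≤ l.length * c := by
  induction l with
  | nil => simp
  | cons s l ih =>
    rw [List.map_cons, List.sum_cons, List.length_cons]
    have h1 := h s (by simp)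
    have h2 := ih (fun t ht => h t (List.mem_cons_of_mem _ ht))
    push_cast
    linarith

include hτ in
theorem tau_conj_proj {w q e : A} (hw : w ∈ unitary A) (he : IsStarProjection e) :
    (τ (q * (w * e * star w))).re ≤ (τ (q * e)).re + n2 τ (cm w q) := by
  have e1 : τ (q * (w * e * star w)) = τ (q * e) + τ (star (-(star (star w * cm w q))) * e) := by
    have h1 : τ (q * (w * e * star w)) = τ (star w * q * w * e) := by
      have : q * (w * e * star w) = (q * w * e) * star w := by noncomm_ring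
      rw [this, hτ.comm]; congr 1; noncomm_ring
    rw [h1, ← map_add, star_neg, star_star]
    congr 1
    unfold cm
    have : star w * (w * q - q * w) = (star w * w) * q - star w * q * w := by noncomm_ring
    rw [this, hw.1]; noncomm_ring
  rw [e1, Complex.add_re]
  have h2 := (Complex.re_le_norm _).trans (cs hτ (-(star (star w * cm w q))) e)
  rw [n2_neg hτ, n2_star hτ, n2_unitary_mul hτ _ _ (by rw [star_star]; exact hw.2)] at h2
  have h3 : n2 τ e ≤ 1 := (n2_le_norm hτ e).trans (proj_norm_le he)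
  have h4 := n2_nonneg hτ (cm w q)
  nlinarith

include hτ in
theorem split_lower {wl : List A} (hwl : ∀ w ∈ wl, w ∈ unitary A) {R : ℕ} (hR : 1 ≤ R)
    (hlen : wl.length ≤ R) {q e : A} (hq : IsStarProjection q) (he : IsStarProjection e)
    (hqe : Commute q e)
    (hcov : (τ (q * 1)).re ≤ (wl.map (fun w => (τ (q * (w * e * star w))).re)).sum)
    {η : ℝ} (hη : ∀ w ∈ wl, n2 τ (cm w q) ≤ η) (hη0 : 0 ≤ η) (hη1 : η ≤ 1 / (200 * R))
    (ht : 1/100 ≤ (τ q).re) : 1 / (200 * R) ≤ (τ (q * e)).re := by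
  have h1 : (wl.map (fun w => (τ (q * (w * e * star w))).re)).sum
      ≤ wl.length * ((τ (q * e)).re + η) := by
    apply list_sum_le
    intro w hw
    exact (tau_conj_proj hτ (hwl w hw) he).trans (by linarith [hη w hw])
  have h0 : 0 ≤ (τ (q * e)).re := tau_proj_nonneg hτ (proj_mul_comm hq he hqe)
  have h2 : (wl.length : ℝ) ≤ R := by exact_mod_cast hlen
  have h3 : (wl.length : ℝ) * ((τ (q * e)).re + η) ≤ R * ((τ (q * e)).re + η) := by gcongr
  rw [mul_one] at hcov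
  have h4 : 1/100 ≤ (R:ℝ) * ((τ (q * e)).re + η) := by linarith
  have hR0 : (0:ℝ) < R := by exact_mod_cast hR
  have h5 : 1 / (100 * (R:ℝ)) ≤ (τ (q * e)).re + η := by
    rw [div_le_iff₀ (by positivity)]; nlinarith
  have h6 : 1 / (100 * (R:ℝ)) = 1 / (200 * R) + 1 / (200 * R) := by field_simp; norm_num
  linarith

theorem beta_le {N : ℝ} (hN : 4 * 10 ^ 8 ≤ N) : 8 * N * (1 / N ^ 23) ≤ (1 / N ^ 10) ^ 2 := by
  have hN0 : 0 < N := by linarith
  have e0 : 8 * N * (1 / N ^ 23) = 8 / N ^ 22 := by field_simp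
  have e1 : (1 / N ^ 10) ^ 2 = 1 / N ^ 20 := by field_simp
  rw [e0, e1, div_le_div_iff₀ (by positivity) (by positivity)]
  have e : N ^ 22 = N ^ 20 * N ^ 2 := by ring
  rw [one_mul, e, mul_comm (8:ℝ)]
  gcongr
  nlinarith

theorem inv5_le {N : ℝ} (hN : 4 * 10 ^ 8 ≤ N) : 1 / N ^ 5 ≤ (1 / N ^ 2) ^ 2 := by
  have hN0 : 0 < N := by linarith
  have e1 : (1 / N ^ 2) ^ 2 = 1 / N ^ 4 := by field_simp
  rw [e1]
  exact one_div_le_one_div_of_le (by positivity) (pow_le_pow_right₀ (by linarith) (by norm_num))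

theorem num_le {N : ℝ} (hN : 4 * 10 ^ 8 ≤ N) {y : ℝ} (hy : y ≤ (5 / N ^ 8) ^ 2) :
    32 * (4 * N ^ 5) ^ 2 / (1/25) ^ 2 * y + 2 / (4 * N ^ 5) ≤ 1 / N ^ 5 := by
  have hN0 : 0 < N := by linarith
  have h1 : 32 * (4 * N ^ 5) ^ 2 / (1/25) ^ 2 * y
      ≤ 32 * (4 * N ^ 5) ^ 2 / (1/25) ^ 2 * (5 / N ^ 8) ^ 2 := by gcongr
  have h2 : 32 * (4 * N ^ 5) ^ 2 / (1/25) ^ 2 * (5 / N ^ 8) ^ 2 = 8000000 / N ^ 6 := by
    field_simp; norm_num
  have h3 : (8000000 : ℝ) / N ^ 6 ≤ (1/2) / N ^ 5 := by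
    rw [div_le_div_iff₀ (by positivity) (by positivity)]
    have : N ^ 6 = N ^ 5 * N := by ring
    rw [this]
    have h5 : 0 < N ^ 5 := by positivity
    nlinarith
  have h4 : 2 / (4 * N ^ 5) = (1/2) / N ^ 5 := by field_simp; norm_num
  have h5 : 1 / N ^ 5 = (1/2) / N ^ 5 + (1/2) / N ^ 5 := by ring
  rw [h4, h5]
  linarith

include hτ in
/-- the basic step: a projection in the commutant which almost commutes with the family and splits
a given atom -/
theorem find_q (hA : GoodAlg τ) {ι : Type} [Fintype ι] {k b R : ℕ}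
    (hc : Fintype.card ι = 2 ^ k) (x : ι → A)
    (hx : ∀ i, x i ∈ unitary A) {l : List A} (hl : PW l) (hR : 1 ≤ R)
    (hb : l.length + 10 ^ 8 * (R + 1) ^ 2 ≤ 2 ^ b) {n : ℕ} (p : Fin n → A) (hp : Part l p)
    (hn : n ≤ 20000 * R ^ 2 + 1) (j0 : Fin n) (hj : 1 / (R:ℝ) < (τ (p j0)).re)
    (hG : ¬ HasGap τ (k + b + 2) ((1/2) ^ (23 * b))) :
    ∃ q : A, IsStarProjection q ∧ CL l q ∧ (∀ j, Commute q (p j)) ∧
      Dav τ x q ≤ 1 / ((2:ℝ) ^ b) ^ 5 ∧ 1 / (200 * (R:ℝ)) ≤ (τ (q * p j0)).re ∧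
      1 / (200 * (R:ℝ)) ≤ (τ ((1 - q) * p j0)).re := by
  have hne : Nonempty ι := by
    rw [← Fintype.card_pos_iff, hc]; positivity
  have hR0 : (0:ℝ) < R := by exact_mod_cast hR
  set N : ℝ := (2:ℝ) ^ b with hN
  have hNl : (l.length : ℝ) + 10 ^ 8 * (R + 1) ^ 2 ≤ N := by
    have : ((l.length + 10 ^ 8 * (R + 1) ^ 2 : ℕ) : ℝ) ≤ ((2 ^ b : ℕ) : ℝ) := by exact_mod_cast hb
    push_cast at this
    rw [hN]; linarith
  have hR1 : (1:ℝ) ≤ R := by exact_mod_cast hR
  have hl0 : (0:ℝ) ≤ l.length := by positivity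
  have hNbig : 4 * 10 ^ 8 ≤ N := by nlinarith
  have hN0 : 0 < N := by linarith
  -- the lists
  obtain ⟨wl, hwlen, hwl, hcov⟩ := hA.cover hτ (hp.proj j0) R 1 (IsStarProjection.one A) (by
    rw [hτ.one]; simp only [Complex.one_re]
    rw [div_lt_iff₀ hR0] at hj
    linarith)
  let sj : Fin n → A := fun j => (2:ℂ) • p j - 1
  have hsj : ∀ j, IsSymm' (sj j) := by
    intro j
    have hpj := hp.proj j
    refine ⟨?_, ?_⟩
    · show star ((2:ℂ) • p j - 1) = (2:ℂ) • p j - 1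
      rw [star_sub, star_smul, star_one, hpj.isSelfAdjoint.star_eq]
      congr 2
      simp
    · show ((2:ℂ) • p j - 1) * ((2:ℂ) • p j - 1) = 1
      have : ((2:ℂ) • p j - 1) * ((2:ℂ) • p j - 1)
          = (4:ℂ) • (p j * p j) - (4:ℂ) • p j + 1 := by
        rw [mul_sub, sub_mul, sub_mul, smul_mul_assoc, mul_smul_comm, mul_one, one_mul, smul_smul]
        simp only [one_mul]
        module
      rw [this, hpj.isIdempotentElem.eq]; abel
  set lS : List A := List.ofFn sj with hlS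
  have hlSs : ∀ s ∈ lS, IsSymm' s := by
    intro s hs
    rw [hlS, List.mem_ofFn] at hs
    obtain ⟨j, rfl⟩ := hs
    exact hsj j
  have hlSl : lS.length = n := List.length_ofFn
  have hlS_cl : ∀ s ∈ lS, CL l s := by
    intro s hs
    rw [hlS, List.mem_ofFn] at hs
    obtain ⟨j, rfl⟩ := hs
    exact ((hp.cl j).smul _).sub CL.one
  have hlS_comm : ∀ s ∈ lS, ∀ t ∈ lS, Commute s t := by
    intro s hs t ht
    rw [hlS, List.mem_ofFn] at hs ht
    obtain ⟨i, rfl⟩ := hs
    obtain ⟨j, rfl⟩ := ht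
    have := hp.comm i j
    exact (((this.smul_left _).smul_right _).sub_right (Commute.one_right _)).sub_left
      (Commute.one_left _)
  -- failing of the gap
  have hγ : (0:ℝ) < (1/2) ^ (23 * b) := by positivity
  have hγN : ((1:ℝ)/2) ^ (23 * b) = 1 / N ^ 23 := by
    rw [hN, mul_comm, pow_mul, one_div_pow, one_div_pow]
  have hlen : (l ++ (lS ++ wl)).length ≤ 2 ^ b := by
    rw [List.length_append, List.length_append, hlSl]
    nlinarith [hwlen, hn, hb, hR]
  obtain ⟨a, ha, han, ha0, ha1, haD, haw⟩ := fail_list hτ hc x hx (l ++ (lS ++ wl)) (by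
    intro w hw
    rw [List.mem_append, List.mem_append] at hw
    rcases hw with hw | hw | hw
    · exact (hl.symm w hw).mem
    · exact (hlSs w hw).mem
    · exact hwl w hw) hlen hγ hG
  -- numerical preparation
  set η : ℝ := 1 / N ^ 10 with hη
  have hη0 : 0 < η := by positivity
  have hβ : 8 * N * (1 / N ^ 23) ≤ η ^ 2 := beta_le hNbig
  have hwη : ∀ w ∈ l ++ (lS ++ wl), n2 τ (cm w a) ≤ η := by
    intro w hw
    have h1 := haw w hw
    rw [hγN] at h1
    exact le_of_sq_le_sq (h1.trans hβ) hη0.le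
  have hDη : Dav τ x a ≤ η ^ 2 := by
    refine (haD.trans ?_).trans hβ
    rw [hγN]
    have : (0:ℝ) < 1 / N ^ 23 := by positivity
    nlinarith
  -- averaging
  have hl_s := hl.symm
  set a1 := AV l a with ha1d
  set a2 := AV lS a1 with ha2d
  have hd1 : n2 τ (a - a1) ≤ (1/2) * (N * η) := by
    refine (n2_sub_AV hτ hl_s a).trans ?_
    have h1 := list_sum_le l (fun s => n2 τ (cm s a)) η
      (fun s hs => hwη s (List.mem_append_left _ hs))
    have h2 : (l.length : ℝ) ≤ N := by nlinarith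
    have h3 : (l.length : ℝ) * η ≤ N * η := by gcongr
    linarith
  have hd2 : n2 τ (a1 - a2) ≤ (1/2) * (N * (η + N * η)) := by
    refine (n2_sub_AV hτ hlSs a1).trans ?_
    have h1 := list_sum_le lS (fun s => n2 τ (cm s a1)) (η + N * η) (by
      intro s hs
      have h2 := n2_cm_diff hτ (hlSs s hs).mem a1 a
      have h3 := hwη s (List.mem_append_right _ (List.mem_append_left _ hs))
      have h4 : n2 τ (a1 - a) = n2 τ (a - a1) := by rw [← n2_neg hτ, neg_sub]
      rw [h4] at h2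
      linarith)
    rw [hlSl] at h1
    have h2 : (n : ℝ) ≤ N := by
      have h5 : (n:ℝ) ≤ 20000 * R ^ 2 + 1 := by exact_mod_cast hn
      nlinarith
    have h3 : (n : ℝ) * (η + N * η) ≤ N * (η + N * η) := by gcongr
    linarith
  set ζ : ℝ := 2 / N ^ 8 with hζ
  have hζ0 : 0 < ζ := by positivity
  have hd : n2 τ (a - a2) ≤ ζ := by
    have h1 : n2 τ (a - a2) ≤ n2 τ (a - a1) + n2 τ (a1 - a2) := by
      have : a - a2 = (a - a1) + (a1 - a2) := by abel
      rw [this]; exact n2_add hτ _ _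
    have h2 : (1/2) * (N * η) + (1/2) * (N * (η + N * η)) ≤ ζ := by
      rw [hη, hζ]
      have e1 : (1/2) * (N * (1 / N ^ 10)) + (1/2) * (N * (1 / N ^ 10 + N * (1 / N ^ 10)))
          = (N + N ^ 2 / 2) / N ^ 10 := by field_simp; ring
      rw [e1, div_le_div_iff₀ (by positivity) (by positivity)]
      have e2 : 2 * N ^ 10 = (2 * N ^ 2) * N ^ 8 := by ring
      rw [e2]
      gcongr
      nlinarith
    linarith
  have ha2sa : IsSelfAdjoint a2 := by
    show star a2 = a2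
    rw [ha2d, star_AV hlSs, ha1d, star_AV hl_s, ha.star_eq]
  have ha2n : ‖a2‖ ≤ 1 := (norm_AV_le hlSs _).trans ((norm_AV_le hl_s _).trans han)
  have ha20 : τ a2 = 0 := by rw [ha2d, tau_AV hτ hlSs, ha1d, tau_AV hτ hl_s, ha0]
  have hζs : ζ ≤ 1/100 := by
    rw [hζ, div_le_iff₀ (by positivity)]
    have : N ≤ N ^ 8 := by
      have : 1 ≤ N ^ 7 := one_le_pow₀ (by linarith)
      nlinarith
    linarith
  have ha2v : 1/25 ≤ n2 τ a2 ^ 2 := by
    have h1 : n2 τ a ≤ n2 τ a2 + n2 τ (a - a2) := by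
      have : a = a2 + (a - a2) := by abel
      conv_lhs => rw [this]
      exact n2_add hτ _ _
    have h2 : 22/100 < n2 τ a := by
      by_contra hc'
      push Not at hc'
      have := pow_le_pow_left₀ (n2_nonneg hτ a) hc' 2
      norm_num at this
      linarith
    have h3 : 1/5 ≤ n2 τ a2 := by linarith
    nlinarith
  -- commutators with a2
  have hcm2 : ∀ s ∈ unitary A, n2 τ (cm s a2) ≤ n2 τ (cm s a) + 2 * ζ := by
    intro s hs
    have h2 := n2_cm_diff hτ hs a2 a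
    have h4 : n2 τ (a2 - a) = n2 τ (a - a2) := by rw [← n2_neg hτ, neg_sub]
    rw [h4] at h2
    linarith
  have hη2ζ : η + 2 * ζ ≤ 5 / N ^ 8 := by
    rw [hη, hζ]
    have : 1 / N ^ 10 ≤ 1 / N ^ 8 := by
      apply one_div_le_one_div_of_le (by positivity)
      exact pow_le_pow_right₀ (by linarith) (by norm_num)
    have e : 5 / N ^ 8 = 1 / N ^ 8 + 2 * (2 / N ^ 8) := by ring
    rw [e]; linarith
  have hD2 : Dav τ x a2 ≤ (5 / N ^ 8) ^ 2 := by
    have h1 : Dav τ x a2 ≤ (η + 2 * ζ) ^ 2 := by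
      refine le_trans ?_ (mink (α := fun i => n2 τ (cm (x i) a)) (β := fun _ => 2 * ζ)
        hη0.le (by positivity) hDη ?_)
      · unfold Dav
        gcongr with i
        · exact n2_nonneg hτ _
        · exact hcm2 _ (hx i)
      · rw [Finset.sum_const, Finset.card_univ, nsmul_eq_mul, ← mul_assoc, inv_mul_cancel₀, one_mul]
        exact_mod_cast Fintype.card_ne_zero
    exact h1.trans (pow_le_pow_left₀ (by positivity) hη2ζ 2)
  -- the cut
  have hM : 0 < 4 * (2 ^ b) ^ 5 := by positivity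
  obtain ⟨q, hq, hqc, hq1, hq2, hqx⟩ := cut hτ hA.spec ha2sa ha2n ha20 (v := 1/25) (by norm_num)
    ha2v (by norm_num) hM
  have hMr : ((4 * (2 ^ b) ^ 5 : ℕ) : ℝ) = 4 * N ^ 5 := by push_cast; rfl
  rw [hMr] at hqx
  have hnum : ∀ y : ℝ, y ≤ (5 / N ^ 8) ^ 2 →
      32 * (4 * N ^ 5) ^ 2 / (1/25) ^ 2 * y + 2 / (4 * N ^ 5) ≤ 1 / N ^ 5 :=
    fun y hy => num_le hNbig hy
  -- commutation
  have hCa1 : CL l a1 := hl.CL_AV a
  have hqCL : CL l q := by
    intro s hs
    have h1 : Commute s a2 := comm_AV (fun t ht => hlS_cl t ht s hs) (hCa1 s hs)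
    exact (hqc s h1.symm).symm
  have hqp : ∀ j, Commute q (p j) := by
    intro j
    have h1 : Commute (sj j) a2 := comm_AV_self hlSs hlS_comm a1 (sj j)
      (by rw [hlS, List.mem_ofFn]; exact ⟨j, rfl⟩)
    have h2 : Commute (p j) a2 := by
      have e : p j = (1/2 : ℂ) • (sj j + 1) := by
        show p j = (1/2 : ℂ) • ((2:ℂ) • p j - 1 + 1)
        rw [sub_add_cancel, smul_smul]; norm_num
      rw [e]
      exact (h1.add_left (Commute.one_left _)).smul_left _
    exact hqc _ h2.symm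
  -- averages
  have hDq : Dav τ x q ≤ 1 / N ^ 5 := by
    have h1 : Dav τ x q ≤ 32 * (4 * N ^ 5) ^ 2 / (1/25) ^ 2 * Dav τ x a2 + 2 / (4 * N ^ 5) := by
      unfold Dav
      have hcard : (Fintype.card ι : ℝ) ≠ 0 := by exact_mod_cast Fintype.card_ne_zero
      have h2 : ∑ i, n2 τ (cm (x i) q) ^ 2 ≤ ∑ i, (32 * (4 * N ^ 5) ^ 2 / (1/25) ^ 2
          * n2 τ (cm (x i) a2) ^ 2 + 2 / (4 * N ^ 5)) :=
        Finset.sum_le_sum fun i _ => hqx _ (hx i)
      rw [Finset.sum_add_distrib, ← Finset.mul_sum, Finset.sum_const, Finset.card_univ,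
        nsmul_eq_mul] at h2
      have h3 : (Fintype.card ι : ℝ)⁻¹ * ∑ i, n2 τ (cm (x i) q) ^ 2 ≤ (Fintype.card ι : ℝ)⁻¹ *
          (32 * (4 * N ^ 5) ^ 2 / (1/25) ^ 2 * ∑ i, n2 τ (cm (x i) a2) ^ 2
            + Fintype.card ι * (2 / (4 * N ^ 5))) := by gcongr
      refine h3.trans (le_of_eq ?_)
      field_simp
    exact h1.trans (hnum _ hD2)
  have hwq : ∀ w ∈ wl, n2 τ (cm w q) ≤ 1 / N ^ 2 := by
    intro w hw
    have h1 := hqx w (hwl w hw)
    have h2 : n2 τ (cm w a2) ^ 2 ≤ (5 / N ^ 8) ^ 2 := by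
      apply pow_le_pow_left₀ (n2_nonneg hτ _)
      have h3 := hcm2 w (hwl w hw)
      have h4 := hwη w (List.mem_append_right _ (List.mem_append_right _ hw))
      linarith
    have h3 := h1.trans (hnum _ h2)
    exact le_of_sq_le_sq (h3.trans (inv5_le hNbig)) (by positivity)
  have hN2 : 1 / N ^ 2 ≤ 1 / (200 * (R:ℝ)) := by
    apply one_div_le_one_div_of_le (by positivity)
    nlinarith
  refine ⟨q, hq, hqCL, hqp, hDq, ?_, ?_⟩
  · exact split_lower hτ hwl hR hwlen hq (hp.proj j0) (hqp j0) (hcov q hq) hwq (by positivity) hN2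
      (by linarith)
  · refine split_lower hτ hwl hR hwlen (one_sub_proj hq) (hp.proj j0)
      ((Commute.one_left _).sub_left (hqp j0)) (hcov _ (one_sub_proj hq)) (η := 1 / N ^ 2) ?_
      (by positivity) hN2 ?_
    · intro w hw
      rw [cm_one_sub, n2_neg hτ]; exact hwq w hw
    · rw [map_sub, hτ.one, Complex.sub_re, Complex.one_re]; linarith

end Pool.Agent.Helper19.Gam
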