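import Mathlib
import Pool.Agent.Helper19.GH2
set_option autoImplicit false
open scoped ComplexOrder

namespace Pool.Agent.Helper19.Gam

variable {A : Type} [CStarAlgebra A] {τ : A →ₗ[ℂ] ℂ} (hτ : Tr τ)

include hτ in
/-- the iteration: partitions in the commutant with small atoms, almost commuting with the
family -/
theorem iter (hA : GoodAlg τ) {ι : Type} [Fintype ι] {k b R : ℕ}
    (hc : Fintype.card ι = 2 ^ k) (x : ι → A)
    (hx : ∀ i, x i ∈ unitary A) {l : List A} (hl : PW l) (hR : 1 ≤ R)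
    (hb : l.length + 10 ^ 8 * (R + 1) ^ 2 ≤ 2 ^ b)
    (hG : ¬ HasGap τ (k + b + 2) ((1/2) ^ (23 * b))) {d : ℝ} (hd0 : 0 ≤ d)
    (hd : d ^ 2 = 1 / ((2:ℝ) ^ b) ^ 5) (t : ℕ) :
    t ≤ 20000 * R ^ 2 + 1 → ∃ n : ℕ, n ≤ t + 1 ∧ ∃ p : Fin n → A, Part l p ∧
      (∀ j, Dav τ x (p j) ≤ (t * d) ^ 2) ∧
      ((∀ j, (τ (p j)).re ≤ 1 / (R:ℝ)) ∨
        ∑ j, (τ (p j)).re ^ 2 ≤ 1 - 2 * (1 / (200 * (R:ℝ))) ^ 2 * t) := by
  have hne : Nonempty ι := by
    rw [← Fintype.card_pos_iff, hc]; positivity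
  have hR0 : (0:ℝ) < R := by exact_mod_cast hR
  induction t with
  | zero =>
    intro _
    refine ⟨1, le_refl _, fun _ => 1, ⟨fun _ => IsStarProjection.one A, ?_, ?_, fun _ => CL.one⟩,
      ?_, Or.inr ?_⟩
    · intro i j hij; exact absurd (Subsingleton.elim i j) hij
    · simp
    · intro j
      have : ∀ i, cm (x i) 1 = 0 := fun i => by unfold cm; simp
      unfold Dav
      simp [this, n2_zero hτ]
    · simp [hτ.one]
  | succ t ih =>
    intro ht
    obtain ⟨n, hn, p, hp, hD, hor⟩ := ih (by omega)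
    have hmono : ((t:ℝ) * d) ^ 2 ≤ (((t + 1 : ℕ) : ℝ) * d) ^ 2 := by
      apply pow_le_pow_left₀ (by positivity)
      apply mul_le_mul_of_nonneg_right _ hd0
      push_cast; linarith
    by_cases hsm : ∀ j, (τ (p j)).re ≤ 1 / (R:ℝ)
    · exact ⟨n, by omega, p, hp, fun j => (hD j).trans hmono, Or.inl hsm⟩
    · push Not at hsm
      obtain ⟨j0, hj0⟩ := hsm
      have hphi : ∑ j, (τ (p j)).re ^ 2 ≤ 1 - 2 * (1 / (200 * (R:ℝ))) ^ 2 * t := by
        rcases hor with h | h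
        · exact absurd (h j0) (not_le.2 hj0)
        · exact h
      obtain ⟨q, hq, hql, hqp, hqD, hq1, hq2⟩ := find_q hτ hA hc x hx hl hR hb p hp (by omega) j0
        hj0 hG
      rw [← hd] at hqD
      refine ⟨n + 1, by omega, splitP p j0 q, hp.split j0 hq hql hqp, ?_, Or.inr ?_⟩
      · have h1 : ∀ e : A, IsStarProjection e → Dav τ x e ≤ d ^ 2 →
            Dav τ x (e * p j0) ≤ (((t + 1 : ℕ) : ℝ) * d) ^ 2 := by
          intro e he hDe
          have := Dav_mul_proj hτ x he (hp.proj j0) hd0 (by positivity : 0 ≤ (t:ℝ) * d) hDe (hD j0)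
          refine this.trans (le_of_eq ?_)
          push_cast; ring
        exact forall_splitP (Q := fun y => Dav τ x y ≤ (((t + 1 : ℕ) : ℝ) * d) ^ 2)
          (h1 _ (one_sub_proj hq) (by rw [Dav_one_sub hτ]; exact hqD)) (h1 _ hq hqD)
          (fun j => (hD j).trans hmono)
      · rw [phi_split]
        have h2 : (1 / (200 * (R:ℝ))) ^ 2 ≤ (τ (q * p j0)).re * (τ ((1 - q) * p j0)).re := by
          rw [sq]
          exact mul_le_mul hq1 hq2 (by positivity) (le_trans (by positivity) hq1)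
        push_cast
        linarith

/-- choosing a subset with sum about one half -/
theorem subset_half {n : ℕ} (a : Fin n → ℝ) {ρ : ℝ} (h1 : ∀ j, a j ≤ ρ)
    (hs : ∑ j, a j = 1) : ∃ s : Finset (Fin n), 1/2 - ρ ≤ ∑ j ∈ s, a j ∧ ∑ j ∈ s, a j ≤ 1/2 := by
  classical
  obtain ⟨s, hs1, hs2⟩ := Finset.exists_max_image
    ((Finset.univ : Finset (Finset (Fin n))).filter (fun s => ∑ j ∈ s, a j ≤ 1/2))
    (fun s => s.card) ⟨∅, by simp⟩
  rw [Finset.mem_filter] at hs1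
  refine ⟨s, ?_, hs1.2⟩
  by_contra hcon
  push Not at hcon
  have hne : ∃ j, j ∉ s := by
    by_contra hall
    push Not at hall
    have : s = Finset.univ := Finset.eq_univ_iff_forall.2 hall
    have h2 := hs1.2
    rw [this, hs] at h2
    norm_num at h2
  obtain ⟨j, hj⟩ := hne
  have h3 : ∑ i ∈ insert j s, a i ≤ 1/2 := by
    rw [Finset.sum_insert hj]; linarith [h1 j]
  have h4 := hs2 (insert j s) (by rw [Finset.mem_filter]; exact ⟨Finset.mem_univ _, h3⟩)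
  rw [Finset.card_insert_of_notMem hj] at h4
  omega

theorem Part.sum_proj {l : List A} {n : ℕ} {p : Fin n → A} (hp : Part l p)
    (s : Finset (Fin n)) : IsStarProjection (∑ j ∈ s, p j) := by
  refine ⟨?_, ?_⟩
  · show (∑ j ∈ s, p j) * (∑ j ∈ s, p j) = ∑ j ∈ s, p j
    rw [Finset.sum_mul]
    refine Finset.sum_congr rfl fun i hi => ?_
    rw [Finset.mul_sum, Finset.sum_eq_single i]
    · exact (hp.proj i).isIdempotentElem.eq
    · intro j _ hji; exact hp.orth i j (Ne.symm hji)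
    · intro h; exact absurd hi h
  · show star (∑ j ∈ s, p j) = ∑ j ∈ s, p j
    rw [star_sum]
    exact Finset.sum_congr rfl fun i _ => (hp.proj i).isSelfAdjoint.star_eq

include hτ in
theorem Dav_sum_le {ι : Type} [Fintype ι] [Nonempty ι] (x : ι → A) {n : ℕ} (p : Fin n → A)
    (s : Finset (Fin n)) {c : ℝ} (h : ∀ j, Dav τ x (p j) ≤ c) :
    Dav τ x (∑ j ∈ s, p j) ≤ (n:ℝ) ^ 2 * c := by
  have hc : (0:ℝ) < Fintype.card ι := by exact_mod_cast Fintype.card_pos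
  have h1 : ∀ i, n2 τ (cm (x i) (∑ j ∈ s, p j)) ^ 2 ≤ (n:ℝ) * ∑ j, n2 τ (cm (x i) (p j)) ^ 2 := by
    intro i
    have e : cm (x i) (∑ j ∈ s, p j) = ∑ j ∈ s, cm (x i) (p j) := by
      unfold cm
      rw [Finset.mul_sum, Finset.sum_mul, Finset.sum_sub_distrib]
    rw [e]
    have h2 : n2 τ (∑ j ∈ s, cm (x i) (p j)) ≤ ∑ j, n2 τ (cm (x i) (p j)) := by
      refine (n2_sum hτ s _).trans ?_
      exact Finset.sum_le_sum_of_subset_of_nonneg (Finset.subset_univ _)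
        (fun j _ _ => n2_nonneg hτ _)
    have h3 := pow_le_pow_left₀ (n2_nonneg hτ _) h2 2
    refine h3.trans ?_
    have h4 := sq_sum_le_card_mul_sum_sq (s := (Finset.univ : Finset (Fin n)))
      (f := fun j => n2 τ (cm (x i) (p j)))
    rwa [Finset.card_univ, Fintype.card_fin] at h4
  unfold Dav
  rw [inv_mul_le_iff₀ hc]
  calc ∑ i, n2 τ (cm (x i) (∑ j ∈ s, p j)) ^ 2
      ≤ ∑ i, (n:ℝ) * ∑ j, n2 τ (cm (x i) (p j)) ^ 2 := Finset.sum_le_sum fun i _ => h1 i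
    _ = (n:ℝ) * ∑ j : Fin n, ∑ i, n2 τ (cm (x i) (p j)) ^ 2 := by
        rw [← Finset.mul_sum, Finset.sum_comm]
    _ ≤ (n:ℝ) * ∑ _j : Fin n, (Fintype.card ι * c) := by
        gcongr with j
        have := h j
        unfold Dav at this
        rwa [inv_mul_le_iff₀ hc] at this
    _ = Fintype.card ι * ((n:ℝ) ^ 2 * c) := by
        rw [Finset.sum_const, Finset.card_univ, Fintype.card_fin, nsmul_eq_mul]; ring

theorem final_num {N R n : ℝ} (hR : 1 ≤ R) (hN : 10 ^ 8 * (R + 1) ^ 2 ≤ N) (hn0 : 0 ≤ n)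
    (hn : n ≤ 20000 * R ^ 2 + 2) {t : ℝ} (ht : t = 20000 * R ^ 2 + 1) :
    8 * (n ^ 2 * (t ^ 2 * (1 / N ^ 5))) ≤ 32 / R := by
  have hN0 : 0 < N := by nlinarith
  have h1 : n ≤ N := by nlinarith
  have h2 : t ≤ N := by nlinarith
  have ht0 : 0 ≤ t := by rw [ht]; positivity
  have h3 : n ^ 2 ≤ N ^ 2 := pow_le_pow_left₀ hn0 h1 2
  have h4 : t ^ 2 ≤ N ^ 2 := pow_le_pow_left₀ ht0 h2 2
  have h5 : n ^ 2 * (t ^ 2 * (1 / N ^ 5)) ≤ N ^ 2 * (N ^ 2 * (1 / N ^ 5)) := by gcongr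
  have h6 : N ^ 2 * (N ^ 2 * (1 / N ^ 5)) = 1 / N := by field_simp
  have h7 : 1 / N ≤ 1 / R := one_div_le_one_div_of_le (by linarith) (by nlinarith)
  have h8 : 32 / R = 32 * (1 / R) := by ring
  rw [h8]
  have h9 : 0 < 1 / R := by positivity
  linarith

include hτ in
/-- **Lemma H**: in the commutant of a Pauli list there is a trace-zero symmetry almost commuting
with a given family, unless some slightly larger family has a gap -/
theorem lemmaH (hA : GoodAlg τ) {ι : Type} [Fintype ι] {k b R : ℕ}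
    (hc : Fintype.card ι = 2 ^ k) (x : ι → A)
    (hx : ∀ i, x i ∈ unitary A) {l : List A} (hl : PW l) (hR : 1 ≤ R)
    (hb : l.length + 10 ^ 8 * (R + 1) ^ 2 ≤ 2 ^ b)
    (hG : ¬ HasGap τ (k + b + 2) ((1/2) ^ (23 * b))) :
    ∃ u : A, CL l u ∧ IsSymm' u ∧ τ u = 0 ∧ Dav τ x u ≤ 64 / R := by
  have hne : Nonempty ι := by
    rw [← Fintype.card_pos_iff, hc]; positivity
  have hR0 : (0:ℝ) < R := by exact_mod_cast hR
  have hR1 : (1:ℝ) ≤ R := by exact_mod_cast hR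
  set d : ℝ := Real.sqrt (1 / ((2:ℝ) ^ b) ^ 5) with hd
  have hd0 : 0 ≤ d := Real.sqrt_nonneg _
  have hd2 : d ^ 2 = 1 / ((2:ℝ) ^ b) ^ 5 := Real.sq_sqrt (by positivity)
  obtain ⟨n, hn, p, hp, hD, hor⟩ := iter hτ hA hc x hx hl hR hb hG hd0 hd2 (20000 * R ^ 2 + 1)
    (le_refl _)
  have hsm : ∀ j, (τ (p j)).re ≤ 1 / (R:ℝ) := by
    rcases hor with h | h
    · exact h
    · exfalso
      have h0 : 0 ≤ ∑ j, (τ (p j)).re ^ 2 := Finset.sum_nonneg fun j _ => sq_nonneg _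
      have h1 : 2 * (1 / (200 * (R:ℝ))) ^ 2 * ((20000 * R ^ 2 + 1 : ℕ) : ℝ)
          = 1 + 1 / (20000 * (R:ℝ) ^ 2) := by
        push_cast
        field_simp
        ring
      have h2 : 0 < 1 / (20000 * (R:ℝ) ^ 2) := by positivity
      linarith
  have hsum1 : ∑ j, (τ (p j)).re = 1 := by
    have h1 := congrArg (fun y => (τ y).re) hp.sum
    simp only [map_sum, Complex.re_sum] at h1
    rw [h1, hτ.one, Complex.one_re]
  obtain ⟨s, hs1, hs2⟩ := subset_half (fun j => (τ (p j)).re) hsm hsum1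
  set p0 := ∑ j ∈ s, p j with hp0
  have hp0p : IsStarProjection p0 := hp.sum_proj s
  have hp0l : CL l p0 := CL.sum s p (fun i _ => hp.cl i)
  have hp0t : (τ p0).re = ∑ j ∈ s, (τ (p j)).re := by
    rw [hp0, map_sum, Complex.re_sum]
  obtain ⟨p', hp'l, hp'p, hpp, hp't⟩ := hA.half_above hτ hl hp0l hp0p (by rw [hp0t]; exact hs2)
  have hpp' : p0 * p' = p0 := by
    have := congrArg star hpp
    rwa [star_mul, hp0p.isSelfAdjoint.star_eq, hp'p.isSelfAdjoint.star_eq] at this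
  refine ⟨(2:ℂ) • p' - 1, (hp'l.smul _).sub CL.one, ⟨?_, ?_⟩, ?_, ?_⟩
  · rw [star_sub, star_smul, star_one, hp'p.isSelfAdjoint.star_eq]
    congr 2
    simp
  · have : ((2:ℂ) • p' - 1) * ((2:ℂ) • p' - 1)
        = (4:ℂ) • (p' * p') - (4:ℂ) • p' + 1 := by
      rw [mul_sub, sub_mul, sub_mul, smul_mul_assoc, mul_smul_comm, mul_one, one_mul, smul_smul]
      simp only [one_mul]
      module
    rw [this, hp'p.isIdempotentElem.eq]; abel
  · rw [map_sub, map_smul, hp't, hτ.one, smul_eq_mul]; norm_num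
  · -- the average
    have hdiff : IsStarProjection (p' - p0) := by
      refine ⟨?_, ?_⟩
      · show (p' - p0) * (p' - p0) = p' - p0
        rw [mul_sub, sub_mul, sub_mul, hpp, hpp', hp'p.isIdempotentElem.eq,
          hp0p.isIdempotentElem.eq]
        abel
      · show star (p' - p0) = p' - p0
        rw [star_sub, hp0p.isSelfAdjoint.star_eq, hp'p.isSelfAdjoint.star_eq]
    have hdt : n2 τ (p' - p0) ^ 2 ≤ 1 / R := by
      rw [n2_sq hτ, hdiff.isSelfAdjoint.star_eq, hdiff.isIdempotentElem.eq, map_sub,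
        Complex.sub_re, hp't, hp0t]
      norm_num
      norm_num at hs1
      linarith
    have hDp0 : Dav τ x p0 ≤ (n:ℝ) ^ 2 * (((20000 * R ^ 2 + 1 : ℕ) : ℝ) * d) ^ 2 :=
      Dav_sum_le hτ x p s hD
    rw [mul_pow, hd2] at hDp0
    have hi : ∀ i, n2 τ (cm (x i) ((2:ℂ) • p' - 1)) ^ 2
        ≤ 8 * n2 τ (cm (x i) p0) ^ 2 + 32 / R := by
      intro i
      have e : cm (x i) ((2:ℂ) • p' - 1) = (2:ℂ) • cm (x i) p' := by
        unfold cm
        rw [mul_sub, sub_mul, mul_smul_comm, smul_mul_assoc, smul_sub]; simp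
      have h1 := n2_cm_diff hτ (hx i) p' p0
      rw [e, n2_smul hτ]
      have h2 : ‖(2:ℂ)‖ = 2 := by norm_num
      rw [h2]
      have h3 := n2_nonneg hτ (cm (x i) p')
      have h4 := pow_le_pow_left₀ h3 h1 2
      have h5 : (n2 τ (cm (x i) p0) + 2 * n2 τ (p' - p0)) ^ 2
          ≤ 2 * n2 τ (cm (x i) p0) ^ 2 + 8 * n2 τ (p' - p0) ^ 2 := by
        nlinarith [sq_nonneg (n2 τ (cm (x i) p0) - 2 * n2 τ (p' - p0))]
      have h6 : (32:ℝ) / R = 32 * (1 / R) := by ring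
      rw [h6]
      nlinarith
    have hcard : (0:ℝ) < Fintype.card ι := by exact_mod_cast Fintype.card_pos
    have hav : Dav τ x ((2:ℂ) • p' - 1) ≤ 8 * Dav τ x p0 + 32 / R := by
      unfold Dav
      rw [inv_mul_le_iff₀ hcard]
      refine (Finset.sum_le_sum fun i _ => hi i).trans (le_of_eq ?_)
      rw [Finset.sum_add_distrib, ← Finset.mul_sum, Finset.sum_const, Finset.card_univ,
        nsmul_eq_mul]
      field_simp
    have hNR : 10 ^ 8 * ((R:ℝ) + 1) ^ 2 ≤ (2:ℝ) ^ b := by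
      have h1 : 10 ^ 8 * (R + 1) ^ 2 ≤ 2 ^ b := by omega
      exact_mod_cast h1
    have hnr : (n:ℝ) ≤ 20000 * R ^ 2 + 2 := by
      have : n ≤ 20000 * R ^ 2 + 2 := by omega
      exact_mod_cast this
    have h9 := final_num hR1 hNR (by positivity) hnr
      (t := ((20000 * R ^ 2 + 1 : ℕ) : ℝ)) (by push_cast; ring)
    have h10 : (64:ℝ) / R = 32 / R + 32 / R := by ring
    rw [h10]
    linarith

end Pool.Agent.Helper19.Gam
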