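import Mathlib
import Pool.Agent.Helper19.GFam
import Pool.Agent.Helper32.Gam.SmallBias
set_option autoImplicit false
open scoped ComplexOrder

namespace Pool.Agent.Helper19.Gam

variable {A : Type} [CStarAlgebra A] {τ : A →ₗ[ℂ] ℂ} (hτ : Tr τ)

include hτ in
/-- convexity of the square of the 2-norm -/
theorem n2_convex (u v : A) :
    n2 τ ((7/8 : ℂ) • u + (1/8 : ℂ) • v) ^ 2 ≤ (7/8) * n2 τ u ^ 2 + (1/8) * n2 τ v ^ 2 := by
  have h1 := n2_add hτ ((7/8 : ℂ) • u) ((1/8 : ℂ) • v)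
  rw [n2_smul hτ, n2_smul hτ] at h1
  have e1 : ‖(7/8 : ℂ)‖ = 7/8 := by norm_num
  have e2 : ‖(1/8 : ℂ)‖ = 1/8 := by norm_num
  rw [e1, e2] at h1
  have h2 := n2_nonneg hτ ((7/8 : ℂ) • u + (1/8 : ℂ) • v)
  have h3 := pow_le_pow_left₀ h2 h1 2
  nlinarith [sq_nonneg (n2 τ u - n2 τ v)]

include hτ in
theorem HasGap.square {K r : ℕ} (hr : 8 * K ≤ 2 ^ r) {γ : ℝ} (h1 : γ ≤ 1)
    (hG : HasGap τ K γ) : HasGap τ (K + 2 * r) ((7/8) * (γ * (2 - γ))) := by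
  obtain ⟨S, hS⟩ := Pool.Agent.Helper32.Gam.small_bias_expander K r hr
  obtain ⟨x0, hx0, hG0⟩ := hG
  have hcard : Fintype.card (Fin K → ZMod 2) = 2 ^ K := by
    simp [ZMod.card]
  let e : (Fin K → ZMod 2) ≃ Fin (2 ^ K) := Fintype.equivFinOfCardEq hcard
  let x : (Fin K → ZMod 2) → A := x0 ∘ e
  have hx : ∀ i, x i ∈ unitary A := fun i => hx0 _
  have hG1 : Gp τ x γ := by
    intro y hy hy0
    show n2 τ (Tav (x0 ∘ e) y) ^ 2 ≤ _
    rw [Tav_equiv]; exact hG0 y hy hy0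
  refine HasGap.of_family (ι := (Fin K → ZMod 2) × Fin (4 ^ r)) ?_
    (fun p => x p.1 * x (p.1 + S p.2)) (fun p => mul_mem (hx _) (hx _)) ?_
  · rw [Fintype.card_prod, hcard, Fintype.card_fin, pow_add, pow_mul]; norm_num
  intro y hy hy0
  let f : (Fin K → ZMod 2) → A := fun j => x j * y * star (x j)
  let g : (Fin K → ZMod 2) → A := fun i =>
    ((4:ℂ) ^ r)⁻¹ • ∑ s, f (i + S s) - (7/8 : ℂ) • ((2:ℂ) ^ K)⁻¹ • ∑ j, f j
  have hTx : Tav x y = ((2:ℂ) ^ K)⁻¹ • ∑ j, f j := by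
    unfold Tav; rw [hcard]; push_cast; rfl
  -- the expander bound
  have hexp : ∑ i, n2 τ (g i) ^ 2 ≤ (1/8) ^ 2 * ∑ i, n2 τ (f i) ^ 2 := by
    have := hS (L2 hτ) (fun j => toL2 hτ (f j))
    have e1 : ∀ i, ‖((4:ℂ) ^ r)⁻¹ • ∑ s, toL2 hτ (f (i + S s))
        - (7/8 : ℂ) • ((2:ℂ) ^ K)⁻¹ • ∑ j, toL2 hτ (f j)‖ = n2 τ (g i) := fun i => by
      rw [← norm_toL2 hτ]; rfl
    simp only [e1, norm_toL2] at this
    exact this
  have hf : ∀ i, n2 τ (f i) = n2 τ y := fun i => n2_conj hτ (hx i)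
  have hfs : ∑ i, n2 τ (f i) ^ 2 = 2 ^ K * n2 τ y ^ 2 := by
    simp only [hf, Finset.sum_const, Finset.card_univ, hcard, nsmul_eq_mul]
    push_cast; ring
  rw [hfs] at hexp
  -- the remainder
  let R : A := ((2:ℂ) ^ K)⁻¹ • ∑ i, x i * g i * star (x i)
  have hR : n2 τ ((8:ℂ) • R) ^ 2 ≤ n2 τ y ^ 2 := by
    have h2K : (0:ℝ) < 2 ^ K := by positivity
    have a1 : n2 τ R ≤ (2 ^ K)⁻¹ * ∑ i, n2 τ (g i) := by
      show n2 τ (((2:ℂ) ^ K)⁻¹ • ∑ i, x i * g i * star (x i)) ≤ _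
      rw [n2_smul hτ]
      have : ‖((2:ℂ) ^ K)⁻¹‖ = (2 ^ K)⁻¹ := by simp
      rw [this]
      gcongr
      refine (n2_sum hτ _ _).trans ?_
      gcongr with i
      exact (n2_conj hτ (hx i)).le
    have a2 : (∑ i, n2 τ (g i)) ^ 2 ≤ 2 ^ K * ∑ i, n2 τ (g i) ^ 2 := by
      have := @sq_sum_le_card_mul_sum_sq (Fin K → ZMod 2) ℝ _ _ _ _ Finset.univ (fun i => n2 τ (g i))
      rw [Finset.card_univ, hcard] at this
      push_cast at this
      exact this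
    have a3 : n2 τ R ^ 2 ≤ (1/64) * n2 τ y ^ 2 := by
      have b1 := pow_le_pow_left₀ (n2_nonneg hτ R) a1 2
      rw [mul_pow] at b1
      have b2 : ((2:ℝ) ^ K)⁻¹ ^ 2 * (∑ i, n2 τ (g i)) ^ 2
          ≤ ((2:ℝ) ^ K)⁻¹ ^ 2 * (2 ^ K * ((1/8) ^ 2 * (2 ^ K * n2 τ y ^ 2))) := by
        gcongr
        exact a2.trans (by gcongr)
      have b3 : ((2:ℝ) ^ K)⁻¹ ^ 2 * (2 ^ K * ((1/8) ^ 2 * (2 ^ K * n2 τ y ^ 2)))
          = (1/64) * n2 τ y ^ 2 := by
        field_simp; ring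
      linarith
    rw [n2_smul hτ, mul_pow]
    have : ‖(8:ℂ)‖ ^ 2 = 64 := by norm_num
    rw [this]; linarith
  have hkey : Tav (fun p : (Fin K → ZMod 2) × Fin (4 ^ r) => x p.1 * x (p.1 + S p.2)) y
      = (7/8 : ℂ) • Tav x (Tav x y) + (1/8 : ℂ) • ((8:ℂ) • R) := by
    have c1 : Tav (fun p : (Fin K → ZMod 2) × Fin (4 ^ r) => x p.1 * x (p.1 + S p.2)) y
        = ((2:ℂ) ^ K)⁻¹ • ∑ i, x i * (((4:ℂ) ^ r)⁻¹ • ∑ s, f (i + S s)) * star (x i) := by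
      unfold Tav
      rw [Fintype.sum_prod_type, Fintype.card_prod, hcard, Fintype.card_fin]
      push_cast
      rw [mul_inv, mul_smul]
      congr 1
      rw [Finset.smul_sum]
      refine Finset.sum_congr rfl fun i _ => ?_
      rw [mul_smul_comm, smul_mul_assoc, Finset.mul_sum, Finset.sum_mul]
      congr 1
      refine Finset.sum_congr rfl fun s _ => ?_
      show x i * x (i + S s) * y * star (x i * x (i + S s)) = _
      rw [star_mul]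
      show _ = x i * (x (i + S s) * y * star (x (i + S s))) * star (x i)
      simp only [mul_assoc]
    have c2 : Tav x (Tav x y)
        = ((2:ℂ) ^ K)⁻¹ • ∑ i, x i * (((2:ℂ) ^ K)⁻¹ • ∑ j, f j) * star (x i) := by
      rw [← hTx]
      unfold Tav; rw [hcard]; push_cast; rfl
    rw [c1, c2, smul_smul (1/8 : ℂ)]
    have : (1/8 : ℂ) * 8 = 1 := by norm_num
    rw [this, one_smul]
    show _ = _ + ((2:ℂ) ^ K)⁻¹ • ∑ i, x i * g i * star (x i)
    rw [smul_comm (7/8 : ℂ), ← smul_add]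
    congr 1
    rw [Finset.smul_sum, ← Finset.sum_add_distrib]
    refine Finset.sum_congr rfl fun i _ => ?_
    show _ = _ + x i * (((4:ℂ) ^ r)⁻¹ • ∑ s, f (i + S s) - (7/8 : ℂ) • ((2:ℂ) ^ K)⁻¹ • ∑ j, f j)
      * star (x i)
    rw [mul_sub, sub_mul, mul_smul_comm (7/8 : ℂ), smul_mul_assoc (7/8 : ℂ)]
    abel
  rw [hkey]
  have h5 := n2_convex hτ (Tav x (Tav x y)) ((8:ℂ) • R)
  have h6 := hG1 y hy hy0
  have hne : Nonempty (Fin K → ZMod 2) := ⟨0⟩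
  have h7 := hG1 (Tav x y) ((norm_Tav_le x hx y).trans hy) (by rw [tau_Tav hτ x hx, hy0])
  have h8 : (1 - γ) * n2 τ (Tav x y) ^ 2 ≤ (1 - γ) * ((1 - γ) * n2 τ y ^ 2 + γ * (1/10)) :=
    mul_le_mul_of_nonneg_left h6 (by linarith)
  nlinarith

include hτ in
/-- iterated squaring -/
theorem HasGap.amplify {r : ℕ} (t : ℕ) : ∀ {K : ℕ} {γ : ℝ}, 8 * (K + 2 * r * t) ≤ 2 ^ r →
    0 < γ → (1/2 : ℝ) ≤ (13/10) ^ t * γ → HasGap τ K γ → HasGap τ (K + 2 * r * t) (1/2) := by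
  induction t with
  | zero =>
    intro K γ _ _ h2 hG
    rw [pow_zero, one_mul] at h2
    simpa using HasGap.mono hτ (by norm_num) h2 hG
  | succ t ih =>
    intro K γ hr h1 h2 hG
    have hK : 8 * K ≤ 2 ^ r := by nlinarith [Nat.zero_le (2 * r * (t + 1))]
    have e : K + 2 * r * (t + 1) = (K + 2 * r) + 2 * r * t := by ring
    by_cases hc : γ ≤ 1/2
    · have h3 := HasGap.square hτ hK (by linarith) hG
      have h4 : (13/10) * γ ≤ (7/8) * (γ * (2 - γ)) := by nlinarith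
      have h5 := HasGap.mono hτ (by positivity) h4 h3
      rw [e]
      refine ih (by rw [← e]; exact hr) (by positivity) ?_ h5
      rw [pow_succ] at h2
      linarith [h2]
    · push Not at hc
      have h3 := HasGap.mono hτ (by norm_num) hc.le hG
      exact h3.le (by omega)

end Pool.Agent.Helper19.Gam
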