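import Mathlib
import Pool.Agent.Helper19.GAv
set_option autoImplicit false
open scoped ComplexOrder

namespace Pool.Agent.Helper19.Gam

variable {A : Type} [CStarAlgebra A]

/-- a tower of Pauli pairs with a unitary representation of sign characters -/
structure Tower (L : ℕ) (l : List A) (u : Fin L → A) (π : (Fin L → Bool) → A) : Prop where
  pw : PW l
  len : l.length = 2 * L
  symm : ∀ i, IsSymm' (u i)
  comm : ∀ i j, Commute (u i) (u j)
  uni : ∀ c, π c ∈ unitary A
  sgn : ∀ c i, u i * π c = (if c i then (-1:ℂ) else 1) • (π c * u i)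
  cu : ∀ y, CL l y → ∀ i, Commute (u i) y
  cp : ∀ y, CL l y → ∀ c, Commute (π c) y

theorem Tower.nil : Tower (A := A) 0 [] (fun i => i.elim0) (fun _ => 1) where
  pw := PW.nil
  len := rfl
  symm := fun i => i.elim0
  comm := fun i => i.elim0
  uni := fun _ => one_mem _
  sgn := fun _ i => i.elim0
  cu := fun _ _ i => i.elim0
  cp := fun y _ _ => Commute.one_left y

theorem Tower.cons {L : ℕ} {l : List A} {u : Fin L → A} {π : (Fin L → Bool) → A}
    (hT : Tower L l u π) {u0 w0 : A} (hu0 : CL l u0) (hw0 : CL l w0) (hus : IsSymm' u0)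
    (hws : IsSymm' w0) (huw : u0 * w0 = - (w0 * u0)) :
    Tower (L + 1) (u0 :: w0 :: l) (Fin.cons u0 u)
      (fun c => (if c 0 then w0 else 1) * π (fun i => c i.succ)) where
  pw := PW.cons hT.pw hus hws huw hu0 hw0
  len := by rw [List.length_cons, List.length_cons, hT.len]; ring
  symm := by
    intro i
    refine Fin.cases ?_ ?_ i
    · simpa using hus
    · intro j; simpa using hT.symm j
  comm := by
    intro i j
    refine Fin.cases ?_ ?_ i
    · refine Fin.cases ?_ ?_ j
      · exact Commute.refl _
      · intro j
        simp only [Fin.cons_zero, Fin.cons_succ]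
        exact (hT.cu u0 hu0 j).symm
    · intro i
      refine Fin.cases ?_ ?_ j
      · simp only [Fin.cons_zero, Fin.cons_succ]
        exact hT.cu u0 hu0 i
      · intro j
        simp only [Fin.cons_succ]
        exact hT.comm i j
  uni := by
    intro c
    refine mul_mem ?_ (hT.uni _)
    split_ifs
    · exact hws.mem
    · exact one_mem _
  sgn := by
    intro c i
    refine Fin.cases ?_ ?_ i
    · simp only [Fin.cons_zero]
      have h1 : π (fun i => c i.succ) * u0 = u0 * π (fun i => c i.succ) := (hT.cp u0 hu0 _).eq
      split_ifs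
      · rw [← mul_assoc, huw, mul_assoc w0, h1, neg_mul, neg_one_smul, mul_assoc]
      · rw [one_mul, one_smul, h1]
    · intro i
      simp only [Fin.cons_succ]
      have h1 := hT.sgn (fun i => c i.succ) i
      have h2 : u i * w0 = w0 * u i := (hT.cu w0 hw0 i).eq
      by_cases h3 : c 0
      · rw [if_pos h3, ← mul_assoc, h2, mul_assoc, h1, mul_smul_comm, mul_assoc]
      · rw [if_neg h3, one_mul, h1]
  cu := by
    intro y hy i
    refine Fin.cases ?_ ?_ i
    · simpa using hy u0 (by simp)
    · intro j
      simp only [Fin.cons_succ]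
      exact hT.cu y (fun s hs => hy s (List.mem_cons_of_mem _ (List.mem_cons_of_mem _ hs))) j
  cp := by
    intro y hy c
    have h1 := hT.cp y (fun s hs => hy s (List.mem_cons_of_mem _ (List.mem_cons_of_mem _ hs)))
      (fun i => c i.succ)
    have h2 : Commute (if c 0 then w0 else 1) y := by
      split_ifs
      · exact hy w0 (by simp)
      · exact Commute.one_left y
    exact h2.mul_left h1

end Pool.Agent.Helper19.Gam
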