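import Mathlib
import Pool.Agent.Helper19.GH3
import Pool.Agent.Helper19.GTow
import Pool.Agent.Helper19.GSq
set_option autoImplicit false
open scoped ComplexOrder

namespace Pool.Agent.Helper19.Gam

variable {A : Type} [CStarAlgebra A] {τ : A →ₗ[ℂ] ℂ} (hτ : Tr τ)

include hτ in
theorem exists_tower (hA : GoodAlg τ) {ι : Type} [Fintype ι] {k b R : ℕ}
    (hc : Fintype.card ι = 2 ^ k) (z : ι → A) (hz : ∀ i, z i ∈ unitary A) (hR : 1 ≤ R)
    (hG : ¬ HasGap τ (k + b + 2) ((1/2) ^ (23 * b))) (n : ℕ) :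
    2 * n + 10 ^ 8 * (R + 1) ^ 2 ≤ 2 ^ b →
    ∃ (l : List A) (u : Fin n → A) (π : (Fin n → Bool) → A), Tower n l u π ∧
      ∀ i, Dav τ z (u i) ≤ 64 / R := by
  induction n with
  | zero => intro _; exact ⟨[], _, _, Tower.nil, fun i => i.elim0⟩
  | succ n ih =>
    intro hb
    obtain ⟨l, u, π, hT, hD⟩ := ih (by omega)
    obtain ⟨u0, hu0, hus, hu0t, hu0D⟩ := lemmaH hτ hA hc z hz hT.pw hR (by rw [hT.len]; omega) hG
    obtain ⟨w0, hw0, hws, huw⟩ := hA.partner hτ hT.pw hu0 hus hu0t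
    refine ⟨_, _, _, hT.cons hu0 hw0 hus hws huw, ?_⟩
    intro i
    refine Fin.cases ?_ ?_ i
    · simpa using hu0D
    · intro j; simpa using hD j

theorem amp_num (b : ℕ) : (1:ℝ) / 2 ≤ (13/10) ^ (69 * b) * (1/2) ^ (23 * b) := by
  have h1 : ((13:ℝ)/10) ^ (69 * b) * (1/2) ^ (23 * b) = (((13:ℝ)/10) ^ 69 * (1/2) ^ 23) ^ b := by
    rw [mul_pow, ← pow_mul, ← pow_mul]
  rw [h1]
  have h2 : (1:ℝ) ≤ (13/10) ^ 69 * (1/2) ^ 23 := by norm_num
  have h3 := one_le_pow₀ h2 (n := b)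
  linarith

include hτ in
theorem HasGap.amp {K b r : ℕ} (hr : 8 * (K + 2 * r * (69 * b)) ≤ 2 ^ r)
    (h : HasGap τ K ((1/2) ^ (23 * b))) : HasGap τ (K + 2 * r * (69 * b)) (1/2) :=
  HasGap.amplify hτ (69 * b) hr (by positivity) (amp_num b) h

end Pool.Agent.Helper19.Gam
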