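import Mathlib
import Pool.Agent.Helper19.GTow2
set_option autoImplicit false
open scoped ComplexOrder

namespace Pool.Agent.Helper19.Gam

variable {A : Type} [CStarAlgebra A] {τ : A →ₗ[ℂ] ℂ} (hτ : Tr τ)

theorem cm_neg_swap (x y : A) : cm x y = - cm y x := by unfold cm; abel

theorem exists_r (K b : ℕ) : ∃ r : ℕ, 8 * (K + 2 * r * (69 * b)) ≤ 2 ^ r := by
  have h : ∀ n : ℕ, n ^ 2 ≤ 4 * 2 ^ n := by
    intro n
    induction n with
    | zero => norm_num
    | succ n ih =>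
      rcases Nat.lt_or_ge n 3 with h | h
      · interval_cases n <;> norm_num
      · rw [pow_succ 2 n]; nlinarith
  -- take r = C with C large
  obtain ⟨C, hC1, hC2⟩ : ∃ C : ℕ, 8 * K ≤ C ∧ 2 * (1104 * b + 1) ≤ C :=
    ⟨8 * K + 2 * (1104 * b + 1), by omega, by omega⟩
  refine ⟨C ^ 2 + 16, ?_⟩
  have h1 := h C
  have h2 : C ^ 2 < 2 ^ (C ^ 2) := Nat.lt_two_pow_self
  have h3 := h (C ^ 2)
  have h4 : 2 ^ (C ^ 2 + 16) = 65536 * 2 ^ (C ^ 2) := by rw [pow_add]; norm_num; ring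
  rw [h4]
  have h5 : (C ^ 2) ^ 2 ≤ 4 * 2 ^ (C ^ 2) := h3
  have hC0 : 2 ≤ C := by omega
  have h6 : 8 * (K + 2 * (C ^ 2 + 16) * (69 * b)) ≤ C + (C ^ 2 + 16) * (1104 * b) := by
    nlinarith
  have h7 : (C ^ 2 + 16) * (1104 * b) ≤ (C ^ 2 + 16) * C := by
    apply Nat.mul_le_mul_left; omega
  have h8 : C + (C ^ 2 + 16) * C ≤ 100 * (C ^ 2) ^ 2 := by
    have e1 : C ≤ C ^ 4 := by
      calc C = C ^ 1 := (pow_one C).symm
        _ ≤ C ^ 4 := Nat.pow_le_pow_right (by omega) (by norm_num)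
    have e2 : C ^ 3 ≤ C ^ 4 := Nat.pow_le_pow_right (by omega) (by norm_num)
    have e3 : (C ^ 2) ^ 2 = C ^ 4 := by ring
    have e4 : C + (C ^ 2 + 16) * C = C ^ 3 + 17 * C := by ring
    rw [e3, e4]; omega
  omega

include hτ in
/-- non-Gamma algebras have a gap for some finite family -/
theorem base_case (hA : GoodAlg τ)
    (hN : ∃ (n : ℕ) (x : Fin n → A) (ε : ℝ), 0 < ε ∧ ∀ u ∈ unitary A, τ u = 0 →
        ∃ j, ε ^ 2 ≤ n2 τ (cm u (x j)) ^ 2) : ∃ K, HasGap τ K (1/2) := by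
  by_contra hcon
  push Not at hcon
  have hno : ∀ K b, ¬ HasGap τ K ((1/2) ^ (23 * b)) := by
    intro K b h
    obtain ⟨r, hr⟩ := exists_r K b
    exact hcon _ (h.amp hτ hr)
  obtain ⟨n, x, ε, hε, hu⟩ := hN
  -- decompositions into unitaries
  choose v c hsum hc using fun j => CStarAlgebra.exists_sum_four_unitary (x j)
  obtain ⟨k, hk⟩ : ∃ k : ℕ, n * 4 ≤ 2 ^ k := ⟨n * 4, Nat.lt_two_pow_self.le⟩
  let L : List A := List.ofFn (fun p : Fin (n * 4) => ((v (finProdFinEquiv.symm p).1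
    (finProdFinEquiv.symm p).2 : unitary A) : A))
  let F : Fin (2 ^ k) → A := fun i => L.getD i 1
  have hLlen : L.length = n * 4 := List.length_ofFn
  have hF : ∀ i, F i ∈ unitary A := by
    intro j
    show L.getD j 1 ∈ unitary A
    rcases lt_or_ge (j : ℕ) L.length with h | h
    · rw [List.getD_eq_getElem _ _ h]
      simp only [L, List.getElem_ofFn]
      exact (v _ _).2
    · rw [List.getD_eq_default _ _ h]; exact one_mem _
  have hFv : ∀ (j : Fin n) (i : Fin 4), ∃ m, F m = (v j i : A) := by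
    intro j i
    have h1 : ((finProdFinEquiv (j, i) : Fin (n * 4)) : ℕ) < n * 4 := (finProdFinEquiv (j, i)).2
    refine ⟨⟨(finProdFinEquiv (j, i) : Fin (n * 4)), by omega⟩, ?_⟩
    show L.getD _ 1 = _
    rw [List.getD_eq_getElem _ _ (by rw [hLlen]; exact h1)]
    simp only [L, List.getElem_ofFn, Fin.eta, Equiv.symm_apply_apply]
  -- constants
  obtain ⟨M, hM0, hM⟩ : ∃ M : ℝ, 0 < M ∧ ∀ j, ‖x j‖ ≤ M := by
    refine ⟨1 + ∑ j, ‖x j‖, by positivity, fun j => ?_⟩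
    have := Finset.single_le_sum (f := fun j => ‖x j‖) (fun i _ => norm_nonneg _)
      (Finset.mem_univ j)
    linarith
  obtain ⟨R, hR⟩ := exists_nat_gt (256 * M ^ 2 * 2 ^ k / ε ^ 2)
  have hR0 : (0:ℝ) < R := lt_trans (by positivity) hR
  have hR1 : 1 ≤ R := by exact_mod_cast hR0
  obtain ⟨b, hb⟩ : ∃ b : ℕ, 10 ^ 8 * (R + 1) ^ 2 ≤ 2 ^ b := ⟨_, Nat.lt_two_pow_self.le⟩
  obtain ⟨u, -, hus, hu0, huD⟩ := lemmaH hτ hA (k := k) (b := b) (R := R) (by simp) F hF PW.nil hR1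
    (by simpa using hb) (hno _ _)
  obtain ⟨j, hj⟩ := hu u hus.mem hu0
  -- each generator almost commutes
  have hone : ∀ m, n2 τ (cm (F m) u) ^ 2 ≤ 2 ^ k * (64 / R) := by
    intro m
    unfold Dav at huD
    rw [Fintype.card_fin, inv_mul_le_iff₀ (by positivity)] at huD
    push_cast at huD
    refine le_trans ?_ huD
    exact Finset.single_le_sum (f := fun m => n2 τ (cm (F m) u) ^ 2) (fun i _ => sq_nonneg _)
      (Finset.mem_univ m)
  set η : ℝ := Real.sqrt (2 ^ k * (64 / R)) with hη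
  have hη0 : 0 ≤ η := Real.sqrt_nonneg _
  have hη2 : η ^ 2 = 2 ^ k * (64 / R) := Real.sq_sqrt (by positivity)
  have hone' : ∀ m, n2 τ (cm (F m) u) ≤ η := fun m => Real.le_sqrt_of_sq_le (hone m)
  have hx' : n2 τ (cm u (x j)) ≤ 2 * M * η := by
    rw [cm_neg_swap, n2_neg hτ]
    have e : cm (x j) u = ∑ i, c j i • cm (v j i : A) u := by
      conv_lhs => rw [hsum j]
      unfold cm
      rw [Finset.sum_mul, Finset.mul_sum, ← Finset.sum_sub_distrib]
      refine Finset.sum_congr rfl fun i _ => ?_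
      rw [smul_mul_assoc, mul_smul_comm, smul_sub]
    rw [e]
    refine (n2_sum hτ _ _).trans ?_
    have h2 : ∀ i ∈ (Finset.univ : Finset (Fin 4)), n2 τ (c j i • cm (v j i : A) u)
        ≤ (M / 2) * η := by
      intro i _
      rw [n2_smul hτ]
      obtain ⟨m, hm⟩ := hFv j i
      rw [← hm]
      have h3 : ‖c j i‖ ≤ M / 2 := (hc j i).trans (by linarith [hM j])
      exact mul_le_mul h3 (hone' m) (n2_nonneg hτ _) (by positivity)
    refine (Finset.sum_le_sum h2).trans (le_of_eq ?_)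
    rw [Finset.sum_const, Finset.card_univ, Fintype.card_fin, nsmul_eq_mul]
    push_cast; ring
  have h4 := pow_le_pow_left₀ (n2_nonneg hτ _) hx' 2
  have h5 : (2 * M * η) ^ 2 < ε ^ 2 := by
    have e : (2 * M * η) ^ 2 = 4 * M ^ 2 * η ^ 2 := by ring
    rw [e, hη2]
    rw [div_lt_iff₀ (by positivity)] at hR
    have e2 : 4 * M ^ 2 * (2 ^ k * (64 / R)) = 256 * M ^ 2 * 2 ^ k / R := by ring
    rw [e2, div_lt_iff₀ hR0]
    linarith
  linarith

end Pool.Agent.Helper19.Gam
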