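import Mathlib
import Pool.Agent.Helper19.GBaseCase
import Pool.Agent.Helper70.Gam.Pack
set_option autoImplicit false
open scoped ComplexOrder

namespace Pool.Agent.Helper19.Gam

variable {A : Type} [CStarAlgebra A] {τ : A →ₗ[ℂ] ℂ} (hτ : Tr τ)

theorem Dav_split {ι κ ι' : Type} [Fintype ι] [Fintype κ] [Fintype ι'] (e : κ × ι' ≃ ι)
    (x : ι → A) (y : A) : Dav τ x y
      = (Fintype.card κ : ℝ)⁻¹ * ∑ β, Dav τ (fun c => x (e (β, c))) y := by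
  unfold Dav
  rw [← Fintype.card_congr e, Fintype.card_prod, ← e.sum_comp, Fintype.sum_prod_type,
    ← Finset.mul_sum]
  push_cast
  rw [mul_inv, mul_assoc]

theorem sum_getD (f : A → ℝ) (hf : f 1 = 0) (l : List A) : ∀ N : ℕ, l.length ≤ N →
    ∑ i : Fin N, f (l.getD i 1) = (l.map f).sum := by
  induction l with
  | nil => intro N _; simp [hf]
  | cons a l ih =>
    intro N hN
    obtain ⟨N', rfl⟩ : ∃ N', N = N' + 1 := ⟨N - 1, by simp at hN; omega⟩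
    rw [Fin.sum_univ_succ, List.map_cons, List.sum_cons]
    have h1 := ih N' (by simpa using hN)
    simp only [Fin.val_succ, List.getD_cons_succ] at h1 ⊢
    rw [h1]
    simp

theorem num1a {m : ℕ} : 2 ^ (2 * m + 27) + 1 ≤ 2 ^ (2 * m + 28) := by
  have : 1 ≤ 2 ^ (2 * m + 27) := Nat.one_le_two_pow
  have e : 2 ^ (2 * m + 28) = 2 ^ (2 * m + 27) * 2 := pow_succ _ _
  omega

theorem num1b {m : ℕ} : (2 ^ (2 * m + 28)) ^ 2 = 2 ^ (4 * m + 56) := by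
  rw [← pow_mul]; congr 1; ring

theorem num1c {m : ℕ} : 2 ^ (4 * m + 83) = 2 ^ 27 * 2 ^ (4 * m + 56) := by
  rw [← pow_add]; congr 1; ring

theorem num1d {a b : ℕ} (h4 : a ≤ b) (h27 : 10 ^ 8 ≤ 2 ^ 27) : 10^8 * a ≤ 2 ^ 27 * b :=
  Nat.mul_le_mul h27 h4

theorem num1e {K m L : ℕ} (h2 : K < 2 ^ m) (hL : L ≤ K) : 2 * L ≤ 2 ^ (4 * m + 83) := by
  have h8 : 2 ^ (m + 1) ≤ 2 ^ (4 * m + 83) := Nat.pow_le_pow_right (by norm_num) (by omega)
  have h10 : 2 ^ (m + 1) = 2 ^ m * 2 := pow_succ _ _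
  omega

theorem num1f {m a b : ℕ} (h6 : b ≤ 2 ^ (4 * m + 83)) (h7 : a ≤ 2 ^ (4 * m + 83)) :
    a + b ≤ 2 ^ (4 * m + 84) := by
  have h9 : 2 ^ (4 * m + 84) = 2 ^ (4 * m + 83) * 2 := pow_succ _ _
  rw [h9, mul_two]
  exact add_le_add h7 h6

theorem num1 {K m L : ℕ} (h2 : K < 2 ^ m) (hL : L ≤ K) :
    2 * L + 10 ^ 8 * (2 ^ (2 * m + 27) + 1) ^ 2 ≤ 2 ^ (4 * m + 84) := by
  refine num1f ?_ (num1e h2 hL)
  rw [num1c]
  refine num1d ?_ (by norm_num)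
  rw [← num1b]
  exact Nat.pow_le_pow_left num1a 2

theorem num3' (q : ℕ) :
    2 * (2 * (2 * (q + 31) + 30) * (69 * (4 * (q + 31) + 84))) + 2 * (4 * (q + 31) + 84)
      + ((q + 31) + 1) + 6 ≤ 2 ^ (q + 30) := by
  induction q with
  | zero => norm_num
  | succ q ih =>
    have e2 : 2 ^ (q + 1 + 30) = 2 * 2 ^ (q + 30) := by
      rw [show q + 1 + 30 = (q + 30) + 1 from by ring, pow_succ]; ring
    rw [e2]
    refine le_trans ?_ (Nat.mul_le_mul_left 2 ih)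
    ring_nf
    nlinarith

theorem num3 {m : ℕ} (hm : 31 ≤ m) :
    2 * (2 * (2 * m + 30) * (69 * (4 * m + 84))) + 2 * (4 * m + 84) + (m + 1) + 6
      ≤ 2 ^ (m - 1) := by
  obtain ⟨q, rfl⟩ : ∃ q, m = q + 31 := ⟨m - 31, by omega⟩
  have e : q + 31 - 1 = q + 30 := by omega
  rw [e]
  exact num3' q

include hτ in
/-- the bootstrap step, with all parameters -/
theorem step (hA : GoodAlg τ) {K L s b R r j P : ℕ} (hR : 1 ≤ R)
    (hb : 2 * L + 10 ^ 8 * (R + 1) ^ 2 ≤ 2 ^ b) (hs : s = 2 * r * (69 * b)) (hr : 8 * K ≤ 2 ^ r)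
    (hP : P = b + 3 + s) (hKP : K = P + L) (hj : 4 + 2 * L ≤ 2 ^ j) (hbig : j + b + 2 + s < L)
    (hδ : (L:ℝ) ^ 2 * (64 / R) ≤ 1 / 10 ^ 6)
    (hfin : 242 * (4 + 2 * (L:ℝ)) * (2 ^ j * (64 / R)) < 43 / 100)
    (hK : HasGap τ K (1/2)) (hmin : ∀ K' < K, ¬ HasGap τ K' (1/2)) : False := by
  have hno : ∀ K', K' + s < K → ¬ HasGap τ K' ((1/2) ^ (23 * b)) := by
    intro K' h1 h2
    rw [hs] at h1
    have h3 : 8 * (K' + 2 * r * (69 * b)) ≤ 2 ^ r := by omega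
    exact hmin _ h1 (h2.amp hτ h3)
  obtain ⟨x, hx, hG⟩ := hK
  have hcard : Fintype.card (Fin (2 ^ P) × (Fin L → Bool)) = Fintype.card (Fin (2 ^ K)) := by
    rw [Fintype.card_prod, Fintype.card_fin, Fintype.card_fun, Fintype.card_bool,
      Fintype.card_fin, Fintype.card_fin, hKP, pow_add]
  let e : Fin (2 ^ P) × (Fin L → Bool) ≃ Fin (2 ^ K) := Fintype.equivOfCardEq hcard
  let z : Fin (2 ^ P) → (Fin L → Bool) → A := fun β c => x (e (β, c))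
  have hz : ∀ β c, z β c ∈ unitary A := fun β c => hx _
  have hGL : ¬ HasGap τ (L + b + 2) ((1/2) ^ (23 * b)) := hno _ (by omega)
  -- towers and packaging
  have hpack : ∀ β, ∃ Ll : List A, Ll.length ≤ 2 ^ j ∧ (∀ w ∈ Ll, w ∈ unitary A) ∧
      ∀ y : A, ‖y‖ ≤ 1 → Dav τ (z β) y
        ≤ 242 * (4 + 2 * (L:ℝ)) * (Ll.map (fun w => n2 τ (cm w y) ^ 2)).sum + 1 / 50 := by
    intro β
    obtain ⟨l, u, π, hT, hD⟩ := exists_tower hτ hA (k := L) (by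
      rw [Fintype.card_fun, Fintype.card_bool, Fintype.card_fin]) (z β) (hz β) hR hGL L hb
    obtain ⟨v, hv, hvy⟩ := Pool.Agent.Helper70.Gam.pack hτ ⟨hT.pw, hT.len, hT.symm, hT.comm, hT.uni,
      hT.sgn, hT.cu, hT.cp⟩ (z β) (hz β) hD hδ
    refine ⟨List.ofFn v ++ l, ?_, ?_, ?_⟩
    · rw [List.length_append, List.length_ofFn, hT.len]; exact hj
    · intro w hw
      rw [List.mem_append, List.mem_ofFn] at hw
      rcases hw with ⟨i, rfl⟩ | hw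
      · exact hv i
      · exact (hT.pw.symm w hw).mem
    · intro y hy
      refine (hvy y hy).trans (le_of_eq ?_)
      rw [List.map_append, List.sum_append, List.map_ofFn, List.sum_ofFn]
      rfl
  choose Ll hLl hLu hLy using hpack
  let X : Fin (2 ^ P) × Fin (2 ^ j) → A := fun p => (Ll p.1).getD p.2 1
  have hX : ∀ p, X p ∈ unitary A := by
    intro p
    show (Ll p.1).getD p.2 1 ∈ unitary A
    rcases lt_or_ge (p.2 : ℕ) (Ll p.1).length with h | h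
    · rw [List.getD_eq_getElem _ _ h]; exact hLu _ _ (List.getElem_mem h)
    · rw [List.getD_eq_default _ _ h]; exact one_mem _
  have hXcard : Fintype.card (Fin (2 ^ P) × Fin (2 ^ j)) = 2 ^ (P + j) := by
    rw [Fintype.card_prod, Fintype.card_fin, Fintype.card_fin, pow_add]
  have hGX : ¬ HasGap τ (P + j + b + 2) ((1/2) ^ (23 * b)) := hno _ (by omega)
  obtain ⟨u, -, hus, hu0, huD⟩ := lemmaH hτ hA hXcard X hX PW.nil hR (by
    simp only [List.length_nil]; omega) hGX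
  -- the average of X
  have hXD : Dav τ X u = (2 ^ P : ℝ)⁻¹ * ∑ β, (2 ^ j : ℝ)⁻¹ *
      ((Ll β).map (fun w => n2 τ (cm w u) ^ 2)).sum := by
    have h1 := Dav_split (τ := τ) (Equiv.refl _) X u
    rw [h1, Fintype.card_fin]
    push_cast
    congr 1
    refine Finset.sum_congr rfl fun β _ => ?_
    unfold Dav
    rw [Fintype.card_fin]
    push_cast
    congr 1
    exact sum_getD (fun w => n2 τ (cm w u) ^ 2) (by
      have : cm 1 u = 0 := by unfold cm; simp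
      show n2 τ (cm 1 u) ^ 2 = 0
      rw [this, n2_zero hτ]; norm_num) (Ll β) (2 ^ j) (hLl β)
  have hun : ‖u‖ ≤ 1 := by
    have h1 : ‖u‖ * ‖u‖ ≤ 1 := by
      rw [← CStarRing.norm_star_mul_self, hus.sa, hus.sq]
      exact proj_norm_le (IsStarProjection.one A)
    by_contra hc
    push Not at hc
    nlinarith
  have hne1 : Nonempty (Fin (2 ^ K)) := ⟨⟨0, by positivity⟩⟩
  have hgap := gap_D hτ x hx hG u hun hu0
  have hn1 : n2 τ u ^ 2 = 1 := by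
    rw [n2_sq hτ, hus.sa, hus.sq, hτ.one, Complex.one_re]
  rw [hn1, Dav_split (τ := τ) e x u, Fintype.card_fin] at hgap
  push_cast at hgap
  have h2P : (0:ℝ) < 2 ^ P := by positivity
  have h2j : (0:ℝ) < 2 ^ j := by positivity
  set C : ℝ := 242 * (4 + 2 * (L:ℝ)) with hC
  have hC0 : 0 < C := by positivity
  set S : Fin (2 ^ P) → ℝ := fun β => ((Ll β).map (fun w => n2 τ (cm w u) ^ 2)).sum with hS
  have h1 : (2 ^ P : ℝ)⁻¹ * ∑ β, Dav τ (fun c => x (e (β, c))) u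
      ≤ (2 ^ P : ℝ)⁻¹ * ∑ β, (C * S β + 1 / 50) := by
    gcongr with β
    exact hLy β u hun
  have h2 : (2 ^ P : ℝ)⁻¹ * ∑ β, (C * S β + 1 / 50) = C * (2 ^ j * Dav τ X u) + 1 / 50 := by
    have hXD' : Dav τ X u = (2 ^ P : ℝ)⁻¹ * ∑ β, (2 ^ j : ℝ)⁻¹ * S β := hXD
    rw [hXD', Finset.sum_add_distrib, Finset.sum_const, Finset.card_univ, Fintype.card_fin,
      nsmul_eq_mul, ← Finset.mul_sum, ← Finset.mul_sum]
    push_cast
    field_simp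
  have h3 : C * (2 ^ j * Dav τ X u) ≤ C * (2 ^ j * (64 / R)) := by gcongr
  rw [h2] at h1
  norm_num at hgap
  linarith


/-- numerical facts for the choice of parameters -/
theorem num4 {m K L : ℕ} (h2 : K < 2 ^ m) (hL : L ≤ K) :
    (L:ℝ) ^ 2 * (64 / ((2 ^ (2 * m + 27) : ℕ) : ℝ)) ≤ 1 / 10 ^ 6 := by
  have h3 : (L:ℝ) ≤ 2 ^ m := by
    have : L ≤ 2 ^ m := by omega
    exact_mod_cast this
  have h4 : (L:ℝ) ^ 2 ≤ (2 ^ m) ^ 2 := pow_le_pow_left₀ (by positivity) h3 2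
  have h5 : ((2 ^ (2 * m + 27) : ℕ) : ℝ) = (2 ^ m) ^ 2 * 2 ^ 27 := by
    push_cast
    rw [← pow_mul, ← pow_add]; congr 1; ring
  have h6 : (0:ℝ) < (2 ^ m) ^ 2 := by positivity
  rw [h5]
  have h7 : (L:ℝ) ^ 2 * (64 / ((2 ^ m) ^ 2 * 2 ^ 27))
      ≤ (2 ^ m) ^ 2 * (64 / ((2 ^ m) ^ 2 * 2 ^ 27)) := by gcongr
  refine h7.trans ?_
  have h8 : ((2:ℝ) ^ m) ^ 2 * (64 / ((2 ^ m) ^ 2 * 2 ^ 27)) = 64 / 2 ^ 27 := by
    field_simp
  rw [h8]; norm_num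

theorem num5 {m K L : ℕ} (h2 : K < 2 ^ m) (hL : L + 3 ≤ K) :
    242 * (4 + 2 * (L:ℝ)) * (2 ^ (m + 1) * (64 / ((2 ^ (2 * m + 27) : ℕ) : ℝ))) < 43 / 100 := by
  have h3 : 4 + 2 * (L:ℝ) ≤ 2 ^ m * 2 := by
    have : 4 + 2 * L ≤ 2 ^ m * 2 := by omega
    exact_mod_cast this
  have h5 : ((2 ^ (2 * m + 27) : ℕ) : ℝ) = (2 ^ m) ^ 2 * 2 ^ 27 := by
    push_cast
    rw [← pow_mul, ← pow_add]; congr 1; ring
  have h6 : (0:ℝ) < 2 ^ m := by positivity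
  rw [h5, pow_succ (2:ℝ) m]
  have h7 : 242 * (4 + 2 * (L:ℝ)) * (2 ^ m * 2 * (64 / ((2 ^ m) ^ 2 * 2 ^ 27)))
      ≤ 242 * (2 ^ m * 2) * (2 ^ m * 2 * (64 / ((2 ^ m) ^ 2 * 2 ^ 27))) := by gcongr
  refine lt_of_le_of_lt h7 ?_
  have h8 : 242 * ((2:ℝ) ^ m * 2) * (2 ^ m * 2 * (64 / ((2 ^ m) ^ 2 * 2 ^ 27)))
      = 242 * 4 * 64 / 2 ^ 27 := by
    field_simp; norm_num
  rw [h8]; norm_num

include hτ in
/-- the minimal exponent with a gap is bounded by a universal constant -/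
theorem min_le (hA : GoodAlg τ) {K : ℕ} (hK : HasGap τ K (1/2))
    (hmin : ∀ K' < K, ¬ HasGap τ K' (1/2)) : K < 2 ^ 30 := by
  by_contra hc
  push Not at hc
  have hK0 : K ≠ 0 := by
    rintro rfl
    norm_num at hc
  obtain ⟨m, hm⟩ : ∃ m, m = Nat.log 2 K + 1 := ⟨_, rfl⟩
  have h1 : 2 ^ (m - 1) ≤ K := by
    rw [hm, Nat.add_sub_cancel]; exact Nat.pow_log_le_self 2 hK0
  have h2 : K < 2 ^ m := by
    rw [hm]; exact Nat.lt_pow_succ_log_self (by norm_num) K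
  have h31 : 31 ≤ m := by
    have h3 : 2 ^ 30 < 2 ^ m := lt_of_le_of_lt hc h2
    have h4 : 30 < m := (Nat.pow_lt_pow_iff_right (by norm_num)).1 h3
    omega
  have h5 := (num3 h31).trans h1
  obtain ⟨b, hb⟩ : ∃ b, b = 4 * m + 84 := ⟨_, rfl⟩
  obtain ⟨r, hr⟩ : ∃ r, r = 2 * m + 30 := ⟨_, rfl⟩
  obtain ⟨s, hs⟩ : ∃ s, s = 2 * r * (69 * b) := ⟨_, rfl⟩
  have h6 : 2 * s + 2 * b + (m + 1) + 6 ≤ K := by
    refine le_trans (le_of_eq ?_) h5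
    rw [hs, hr, hb]
  obtain ⟨L, hL⟩ : ∃ L, K = (b + 3 + s) + L := ⟨K - (b + 3 + s), by omega⟩
  have hr8 : 8 * K ≤ 2 ^ r := by
    have h7 : 2 ^ (m + 3) ≤ 2 ^ r := Nat.pow_le_pow_right (by norm_num) (by omega)
    have h8 : 2 ^ (m + 3) = 2 ^ m * 8 := by rw [pow_add]; norm_num
    omega
  have hj : 4 + 2 * L ≤ 2 ^ (m + 1) := by
    have h8 : 2 ^ (m + 1) = 2 ^ m * 2 := pow_succ _ _
    omega
  have hbR : 2 * L + 10 ^ 8 * (2 ^ (2 * m + 27) + 1) ^ 2 ≤ 2 ^ b := by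
    rw [hb]
    exact num1 h2 (by omega)
  exact step hτ hA (R := 2 ^ (2 * m + 27)) (P := b + 3 + s) Nat.one_le_two_pow hbR hs hr8 rfl hL hj
    (by omega) (num4 h2 (by omega)) (num5 h2 (by omega)) hK hmin

/-- **universal gap** -/
theorem universal : ∃ K0 : ℕ, ∀ (A : Type) (_ : CStarAlgebra A) (τ : A →ₗ[ℂ] ℂ), Tr τ →
    GoodAlg τ → (∃ (n : ℕ) (x : Fin n → A) (ε : ℝ), 0 < ε ∧ ∀ u ∈ unitary A, τ u = 0 →
        ∃ j, ε ^ 2 ≤ n2 τ (cm u (x j)) ^ 2) → HasGap τ K0 (1 / 2) := by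
  classical
  refine ⟨2 ^ 30, ?_⟩
  intro A _ τ hτ hA hN
  have h := base_case hτ hA hN
  have h1 := Nat.find_spec h
  have h2 := min_le hτ hA h1 (fun K' hK' => Nat.find_min h hK')
  exact HasGap.le h2.le h1

end Pool.Agent.Helper19.Gam
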