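import Mathlib
import Pool.Agent.Helper19.GH1
import Pool.Agent.Helper19.GTow
set_option autoImplicit false
open scoped ComplexOrder

namespace Pool.Agent.Helper19.Gam

variable {A : Type} [CStarAlgebra A] {τ : A →ₗ[ℂ] ℂ}

private theorem sgn_star {e : ℂ} (he : e = 1 ∨ e = -1) : star e = e := by
  rcases he with rfl | rfl <;> simp

private theorem sgn_sq {e : ℂ} (he : e = 1 ∨ e = -1) : e * e = 1 := by
  rcases he with rfl | rfl <;> simp

/-- Pythagoras for signed sums of orthogonal elements -/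
private theorem n2_orth (hτ : Tr τ) {C : Type} (g : C → A) (ε : C → ℂ) (hε : ∀ c, ε c = 1 ∨ ε c = -1)
    (horth : ∀ c c', c ≠ c' → τ (star (g c) * g c') = 0) (s : Finset C) :
    n2 τ (∑ c ∈ s, ε c • g c) ^ 2 = ∑ c ∈ s, n2 τ (g c) ^ 2 := by
  classical
  rw [n2_sq hτ, star_sum, Finset.sum_mul_sum, map_sum]
  have h1 : ∀ c ∈ s, τ (∑ c' ∈ s, star (ε c • g c) * (ε c' • g c')) = τ (star (g c) * g c) := by
    intro c hc
    rw [map_sum, Finset.sum_eq_single c]
    · rw [star_smul, smul_mul_smul_comm, sgn_star (hε c), sgn_sq (hε c), one_smul]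
    · intro c' _ hne
      rw [star_smul, smul_mul_smul_comm, map_smul, horth c c' (Ne.symm hne), smul_zero]
    · intro h; exact absurd hc h
  rw [Finset.sum_congr rfl h1, Complex.re_sum]
  exact Finset.sum_congr rfl fun c _ => (n2_sq hτ _).symm

/-- one step: adding `e g` with a good sign -/
private theorem greedy_step (hτ : Tr τ) (X g : A) (hg : ‖g‖ ≤ 1) :
    ∃ e : ℂ, (e = 1 ∨ e = -1) ∧
      (τ ((star (X + e • g) * (X + e • g)) * (star (X + e • g) * (X + e • g)))).re ≤
        (τ ((star X * X) * (star X * X))).re + 6 * n2 τ X ^ 2 + 1 := by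
  set H : A := star X * X with hH
  set G : A := star g * g with hG
  set T : A := star X * g + star g * X with hT
  have hexp : ∀ e : ℂ, (e = 1 ∨ e = -1) → star (X + e • g) * (X + e • g) = (H + G) + e • T := by
    intro e he
    rw [star_add, star_smul, sgn_star he, add_mul, mul_add, mul_add, smul_mul_smul_comm, sgn_sq he, one_smul,
      mul_smul_comm, smul_mul_assoc, hT, smul_add]
    abel
  have hexp2 : ∀ e : ℂ, (e = 1 ∨ e = -1) →
      (τ ((star (X + e • g) * (X + e • g)) * (star (X + e • g) * (X + e • g)))).re =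
        (τ ((H + G) * (H + G))).re + (τ (T * T)).re + e.re * (τ ((H + G) * T + T * (H + G))).re := by
    intro e he
    rw [hexp e he]
    have : ((H + G) + e • T) * ((H + G) + e • T) =
        (H + G) * (H + G) + T * T + e • ((H + G) * T + T * (H + G)) := by
      have e1 : (e • T) * (e • T) = T * T := by rw [smul_mul_smul_comm, sgn_sq he, one_smul]
      have e2 : (H + G) * (e • T) = e • ((H + G) * T) := mul_smul_comm _ _ _
      have e3 : (e • T) * (H + G) = e • (T * (H + G)) := smul_mul_assoc _ _ _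
      rw [mul_add, add_mul (H + G) (e • T) (H + G), add_mul (H + G) (e • T) (e • T), e1, e2, e3, smul_add]
      abel
    rw [this, map_add, map_add, map_smul, Complex.add_re, Complex.add_re, smul_eq_mul, Complex.mul_re]
    have : e.im = 0 := by rcases he with rfl | rfl <;> simp
    rw [this]; ring
  -- choose the sign
  obtain ⟨e, he, hle⟩ : ∃ e : ℂ, (e = 1 ∨ e = -1) ∧ e.re * (τ ((H + G) * T + T * (H + G))).re ≤ 0 := by
    rcases le_total (τ ((H + G) * T + T * (H + G))).re 0 with h | h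
    · exact ⟨1, Or.inl rfl, by simpa using h⟩
    · refine ⟨-1, Or.inr rfl, ?_⟩
      have h1 : (-1 : ℂ).re = -1 := by simp
      rw [h1]; linarith
  refine ⟨e, he, ?_⟩
  rw [hexp2 e he]
  have hX0 := n2_nonneg hτ X
  -- τ (G G) ≤ 1
  have hsG : star G = G := by rw [hG, star_mul, star_star]
  have hsH : star H = H := by rw [hH, star_mul, star_star]
  have hsT : star T = T := by
    rw [hT, star_add, star_mul, star_mul, star_star, star_star]; abel
  have hGn : ‖G‖ ≤ 1 := by
    rw [hG]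
    refine (norm_mul_le _ _).trans ?_
    rw [norm_star]
    nlinarith [norm_nonneg g]
  have b1 : (τ (G * G)).re ≤ 1 := by
    have h1 := n2_sq hτ G
    rw [hsG] at h1
    rw [← h1]
    have h2 := n2_le_norm hτ G
    have h3 := n2_nonneg hτ G
    nlinarith
  have b2 : (τ (H * G)).re ≤ n2 τ X ^ 2 := by
    have h1 : τ (H * G) = τ (star (X * star g) * (X * star g)) := by
      rw [star_mul, star_star, hH, hG]
      rw [← mul_assoc, hτ.comm, ← mul_assoc, ← mul_assoc, ← mul_assoc]
    rw [h1, ← n2_sq hτ]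
    have h2 := n2_mul_right hτ X (star g)
    rw [norm_star] at h2
    have h3 := n2_nonneg hτ (X * star g)
    have h4 : n2 τ (X * star g) ≤ n2 τ X := h2.trans (by nlinarith)
    nlinarith
  have b3 : (τ (T * T)).re ≤ 4 * n2 τ X ^ 2 := by
    have h1 := n2_sq hτ T
    rw [hsT] at h1
    rw [← h1]
    have h2 : n2 τ T ≤ 2 * n2 τ X := by
      rw [hT]
      refine (n2_add hτ _ _).trans ?_
      have h3 := n2_mul_right hτ (star X) g
      rw [n2_star hτ] at h3
      have h4 := n2_mul_left hτ (star g) X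
      rw [norm_star] at h4
      nlinarith
    have h3 := n2_nonneg hτ T
    nlinarith
  have e1 : (τ ((H + G) * (H + G))).re = (τ (H * H)).re + 2 * (τ (H * G)).re + (τ (G * G)).re := by
    have : (H + G) * (H + G) = H * H + (H * G + G * H) + G * G := by noncomm_ring
    rw [this, map_add, map_add, map_add, hτ.comm G H]
    simp only [Complex.add_re]
    ring
  rw [e1]
  linarith

/-- OFFER 4a: greedy signs -/
theorem greedy (hτ : Tr τ) {C : Type} (g : C → A) (hg : ∀ c, ‖g c‖ ≤ 1)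
    (horth : ∀ c c', c ≠ c' → τ (star (g c) * g c') = 0) (s : Finset C) :
    ∃ ε : C → ℂ, (∀ c, ε c = 1 ∨ ε c = -1) ∧
      (τ ((star (∑ c ∈ s, ε c • g c) * (∑ c ∈ s, ε c • g c)) *
        (star (∑ c ∈ s, ε c • g c) * (∑ c ∈ s, ε c • g c)))).re ≤ 3 * (s.card : ℝ) ^ 2 := by
  classical
  induction s using Finset.induction_on with
  | empty => exact ⟨fun _ => 1, fun _ => Or.inl rfl, by simp⟩
  | @insert c0 s hc0 ih =>
    obtain ⟨ε, hε, hle⟩ := ih
    obtain ⟨e, he, hstep⟩ := greedy_step hτ (∑ c ∈ s, ε c • g c) (g c0) (hg c0)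
    refine ⟨Function.update ε c0 e, ?_, ?_⟩
    · intro c
      by_cases h : c = c0
      · rw [h, Function.update_self]; exact he
      · rw [Function.update_of_ne h]; exact hε c
    · have hsum : ∑ c ∈ insert c0 s, Function.update ε c0 e c • g c = (∑ c ∈ s, ε c • g c) + e • g c0 := by
        rw [Finset.sum_insert hc0, Function.update_self, add_comm]
        congr 1
        refine Finset.sum_congr rfl fun c hc => ?_
        rw [Function.update_of_ne]
        rintro rfl; exact hc0 hc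
      rw [hsum]
      refine hstep.trans ?_
      have h1 : n2 τ (∑ c ∈ s, ε c • g c) ^ 2 ≤ s.card := by
        rw [n2_orth hτ g ε hε horth s]
        calc ∑ c ∈ s, n2 τ (g c) ^ 2 ≤ ∑ _c ∈ s, (1 : ℝ) := by
              refine Finset.sum_le_sum fun c _ => ?_
              have h2 := n2_le_norm hτ (g c)
              have h3 := n2_nonneg hτ (g c)
              nlinarith [hg c]
          _ = s.card := by simp
      rw [Finset.card_insert_of_notMem hc0]
      push_cast
      nlinarith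

/-- OFFER 4b: truncation -/
theorem truncate (hτ : Tr τ) {X : A} {B R : ℝ} (hR : 0 < R)
    (hX : (τ ((star X * X) * (star X * X))).re ≤ B) :
    ∃ X' : A, ‖X'‖ ≤ R / 2 ∧ n2 τ (X - X') ^ 2 ≤ B / (4 * R ^ 2) := by
  let _ := CStarAlgebra.spectralOrder A
  let _ := CStarAlgebra.spectralOrderedRing A
  set h : A := star X * X with hh
  have h0 : 0 ≤ h := star_mul_self_nonneg X
  have hsa : IsSelfAdjoint h := h0.isSelfAdjoint
  have hspec : ∀ t ∈ spectrum ℝ h, 0 ≤ t := fun t ht => spectrum_nonneg_of_nonneg h0 ht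
  let f : ℝ → ℝ := fun t => (1 + t / R ^ 2)⁻¹
  have hpos : ∀ t ∈ spectrum ℝ h, 0 < 1 + t / R ^ 2 := by
    intro t ht
    have := hspec t ht
    positivity
  have hfc : ContinuousOn f (spectrum ℝ h) := by
    refine ContinuousOn.inv₀ (by fun_prop) fun t ht => (hpos t ht).ne'
  set F : A := cfc f h with hF
  have hFs : star F = F := (cfc_predicate f h : IsSelfAdjoint (cfc f h)).star_eq
  have hid : cfc (fun t : ℝ => t) h = h := cfc_id' ℝ h
  refine ⟨X * F, ?_, ?_⟩
  · -- the norm
    have e1 : star (X * F) * (X * F) = cfc (fun t => f t * t * f t) h := by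
      have hc0 : ContinuousOn (fun t : ℝ => f t * t) (spectrum ℝ h) := hfc.mul continuousOn_id
      have hc2 : ContinuousOn (fun t : ℝ => t) (spectrum ℝ h) := continuousOn_id
      rw [cfc_mul (fun t : ℝ => f t * t) f h hc0 hfc, cfc_mul f (fun t : ℝ => t) h hfc hc2, hid,
        star_mul, hFs, ← hF, hh]
      noncomm_ring
    have e2 : ‖star (X * F) * (X * F)‖ ≤ R ^ 2 / 4 := by
      rw [e1]
      refine norm_cfc_le (by positivity) fun t ht => ?_
      have ht0 := hspec t ht
      have hp := hpos t ht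
      have : f t * t * f t = t / (1 + t / R ^ 2) ^ 2 := by
        simp only [f]; field_simp
      rw [this, Real.norm_eq_abs, abs_of_nonneg (by positivity), div_le_div_iff₀ (by positivity) (by norm_num)]
      have hR2 : (R ^ 2) ≠ 0 := by positivity
      have : R ^ 2 * (1 + t / R ^ 2) ^ 2 = (R ^ 2 + t) ^ 2 / R ^ 2 := by field_simp
      rw [this, le_div_iff₀ (by positivity)]
      nlinarith [sq_nonneg (R ^ 2 - t)]
    rw [CStarRing.norm_star_mul_self] at e2
    have h3 : (‖X * F‖) ^ 2 ≤ (R / 2) ^ 2 := by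
      calc ‖X * F‖ ^ 2 = ‖X * F‖ * ‖X * F‖ := by ring
        _ ≤ R ^ 2 / 4 := e2
        _ = (R / 2) ^ 2 := by ring
    exact le_of_sq_le_sq h3 (by positivity)
  · -- the error
    have e1 : star (X - X * F) * (X - X * F) = cfc (fun t => (1 - f t) * t * (1 - f t)) h := by
      have hc1 : ContinuousOn (fun t => 1 - f t) (spectrum ℝ h) := continuousOn_const.sub hfc
      have hE : cfc (fun t => 1 - f t) h = 1 - F := by
        rw [cfc_sub (fun _ => (1 : ℝ)) f h (by fun_prop) hfc, cfc_const_one ℝ h]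
      have hc0 : ContinuousOn (fun t : ℝ => (1 - f t) * t) (spectrum ℝ h) := hc1.mul continuousOn_id
      have hc2 : ContinuousOn (fun t : ℝ => t) (spectrum ℝ h) := continuousOn_id
      rw [cfc_mul (fun t : ℝ => (1 - f t) * t) (fun t : ℝ => 1 - f t) h hc0 hc1,
        cfc_mul (fun t : ℝ => 1 - f t) (fun t : ℝ => t) h hc1 hc2, hid, hE]
      have : X - X * F = X * (1 - F) := by noncomm_ring
      rw [this, star_mul, star_sub, star_one, hFs, hh]
      noncomm_ring
    have e2 : h * h = cfc (fun t : ℝ => t * t) h := by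
      rw [cfc_mul (fun t : ℝ => t) (fun t : ℝ => t) h continuousOn_id continuousOn_id, hid]
    have hc1 : ContinuousOn (fun t : ℝ => (1 - f t) * t * (1 - f t)) (spectrum ℝ h) :=
      ((continuousOn_const.sub hfc).mul continuousOn_id).mul (continuousOn_const.sub hfc)
    -- the difference is nonnegative
    have e3 : 0 ≤ (4 * R ^ 2)⁻¹ • (h * h) - star (X - X * F) * (X - X * F) := by
      have hc3 : ContinuousOn (fun t : ℝ => t * t) (spectrum ℝ h) := continuousOn_id.mul continuousOn_id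
      have hc4 : ContinuousOn (fun t : ℝ => (4 * R ^ 2)⁻¹ * (t * t)) (spectrum ℝ h) :=
        continuousOn_const.mul hc3
      rw [e1, e2, ← cfc_const_mul (4 * R ^ 2)⁻¹ (fun t : ℝ => t * t) h hc3,
        ← cfc_sub (fun t : ℝ => (4 * R ^ 2)⁻¹ * (t * t)) _ h hc4 hc1]
      refine cfc_nonneg fun t ht => ?_
      have ht0 := hspec t ht
      have hp := hpos t ht
      have h4 : (1 - f t) * t * (1 - f t) = t ^ 3 / (R ^ 2 + t) ^ 2 := by
        simp only [f]
        have hRt : R ^ 2 + t ≠ 0 := by positivity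
        have : 1 + t / R ^ 2 = (R ^ 2 + t) / R ^ 2 := by field_simp
        rw [this, inv_div]
        field_simp
        ring
      have hRt : 0 < R ^ 2 + t := by positivity
      rw [h4, sub_nonneg, div_le_iff₀ (by positivity), inv_mul_eq_div, div_mul_eq_mul_div,
        le_div_iff₀ (by positivity)]
      have h5 : 0 ≤ t ^ 2 * (R ^ 2 - t) ^ 2 := by positivity
      nlinarith
    obtain ⟨c, hc⟩ := CStarAlgebra.nonneg_iff_eq_star_mul_self.1 e3
    have h4 := (Complex.nonneg_iff.1 (hτ.nonneg c)).1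
    rw [← hc, map_sub, Complex.sub_re, ← n2_sq hτ] at h4
    have h5 : (τ ((4 * R ^ 2)⁻¹ • (h * h))).re = (4 * R ^ 2)⁻¹ * (τ (h * h)).re := by
      rw [← Complex.coe_smul, map_smul, smul_eq_mul, Complex.re_ofReal_mul]
    rw [h5] at h4
    have h6 : (4 * R ^ 2)⁻¹ * (τ (h * h)).re ≤ B / (4 * R ^ 2) := by
      rw [inv_mul_eq_div]
      exact div_le_div_of_nonneg_right hX (by positivity)
    linarith

private theorem cm_bd1 (hτ : Tr τ) (x y : A) : n2 τ (cm x y) ≤ 2 * ‖x‖ * n2 τ y := by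
  unfold cm
  refine (n2_sub hτ _ _).trans ?_
  have h1 := n2_mul_left hτ x y
  have h2 := n2_mul_right hτ y x
  linarith

private theorem cm_bd2 (hτ : Tr τ) (x y : A) : n2 τ (cm x y) ≤ 2 * n2 τ x * ‖y‖ := by
  unfold cm
  refine (n2_sub hτ _ _).trans ?_
  have h1 := n2_mul_right hτ x y
  have h2 := n2_mul_left hτ y x
  linarith

private theorem tau_anti (hτ : Tr τ) {u W : A} (hu : IsSymm' u) (h : u * W = -(W * u)) : τ W = 0 := by
  have h1 : τ W = τ (u * W * u) := by
    rw [hτ.comm, ← mul_assoc, hu.sq, one_mul]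
  have h2 : u * W * u = -W := by
    rw [h, neg_mul, mul_assoc, hu.sq, mul_one]
  rw [h2, map_neg] at h1
  have h3 : 2 * τ W = 0 := by linear_combination h1
  simpa using h3

/-- elements with different signs are orthogonal -/
private theorem orth_sgn (hτ : Tr τ) {u a b : A} (hu : IsSymm' u) {s t : ℂ} (hs : s = 1 ∨ s = -1)
    (hst : s * t = -1)
    (ha : u * a = s • (a * u)) (hb : u * b = t • (b * u)) : τ (star a * b) = 0 := by
  refine tau_anti hτ hu ?_
  have h1 : star a * u = s • (u * star a) := by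
    have := congrArg star ha
    rw [star_mul, hu.sa, star_smul, star_mul, hu.sa, sgn_star hs] at this
    exact this
  have h2 : u * star a = s • (star a * u) := by
    rw [h1, smul_smul, sgn_sq hs, one_smul]
  calc u * (star a * b) = (u * star a) * b := by rw [mul_assoc]
    _ = s • (star a * (u * b)) := by rw [h2, smul_mul_assoc, mul_assoc]
    _ = (s * t) • (star a * b * u) := by rw [hb, mul_smul_comm, smul_smul, mul_assoc]
    _ = -(star a * b * u) := by rw [hst, neg_one_smul]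

private theorem norm_uni_le {x : A} (hx : x ∈ unitary A) : ‖x‖ ≤ 1 := by
  rcases subsingleton_or_nontrivial A with h | h
  · rw [Subsingleton.elim x 0, norm_zero]; exact zero_le_one
  · have := CStarRing.norm_mem_unitary_mul (1 : A) hx
    rw [mul_one, norm_one] at this
    exact this.le

omit [CStarAlgebra A] in
private theorem sum_list_sq (l : List A) (f : A → ℝ) :
    (l.map f).sum ^ 2 ≤ l.length * (l.map (fun s => f s ^ 2)).sum := by
  induction l with
  | nil => simp
  | cons s l ih =>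
    simp only [List.map_cons, List.sum_cons, List.length_cons]
    push_cast
    set S := (l.map f).sum
    set Q := (l.map (fun s => f s ^ 2)).sum
    have hQ : 0 ≤ Q := List.sum_nonneg (by
      intro x hx
      rw [List.mem_map] at hx
      obtain ⟨s, -, rfl⟩ := hx
      positivity)
    rcases Nat.eq_zero_or_pos l.length with h0 | h0
    · rw [h0] at ih ⊢
      have : S = 0 := by
        have : S ^ 2 ≤ 0 := by simpa using ih
        nlinarith [sq_nonneg S]
      rw [this]; push_cast; nlinarith [sq_nonneg (f s)]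
    · have hn : (0:ℝ) < l.length := by exact_mod_cast h0
      have h2 : 2 * (f s * S) ≤ l.length * f s ^ 2 + (l.length : ℝ)⁻¹ * S ^ 2 := by
        have : 0 ≤ (l.length : ℝ)⁻¹ * (l.length * f s - S) ^ 2 := by positivity
        have e : (l.length : ℝ)⁻¹ * (l.length * f s - S) ^ 2 =
          l.length * f s ^ 2 + (l.length : ℝ)⁻¹ * S ^ 2 - 2 * (f s * S) := by field_simp; ring
        linarith
      have h3 : (l.length : ℝ)⁻¹ * S ^ 2 ≤ Q := by
        rw [inv_mul_le_iff₀ hn]; exact ih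
      nlinarith

/-- OFFER 4c: packaging `2 ^ L` unitaries into four -/
theorem pack (hτ : Tr τ) {L : ℕ} {l : List A} {u : Fin L → A} {π : (Fin L → Bool) → A}
    (hT : Tower L l u π) (z : (Fin L → Bool) → A) (hz : ∀ c, z c ∈ unitary A) {δ : ℝ}
    (hδ : ∀ i, Dav τ z (u i) ≤ δ) (hδL : (L:ℝ) ^ 2 * δ ≤ 1 / 10 ^ 6) :
    ∃ v : Fin 4 → A, (∀ i, v i ∈ unitary A) ∧ ∀ y : A, ‖y‖ ≤ 1 →
      Dav τ z y ≤ 242 * (4 + 2 * (L:ℝ)) * (∑ i, n2 τ (cm (v i) y) ^ 2 +
        (l.map (fun s => n2 τ (cm s y) ^ 2)).sum) + 1 / 50 := by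
  classical
  have hlus : ∀ s ∈ List.ofFn u, IsSymm' s := by
    intro s hs
    rw [List.mem_ofFn] at hs
    obtain ⟨i, rfl⟩ := hs
    exact hT.symm i
  have hluc : ∀ s ∈ List.ofFn u, ∀ t ∈ List.ofFn u, Commute s t := by
    intro s hs t ht
    rw [List.mem_ofFn] at hs ht
    obtain ⟨i, rfl⟩ := hs
    obtain ⟨j, rfl⟩ := ht
    exact hT.comm i j
  let zb : (Fin L → Bool) → A := fun c => AV (List.ofFn u) (z c)
  have hzb : ∀ c, ‖zb c‖ ≤ 1 := fun c => (norm_AV_le hlus _).trans (norm_uni_le (hz c))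
  have hzbc : ∀ c i, Commute (u i) (zb c) := fun c i =>
    comm_AV_self hlus hluc (z c) (u i) (by rw [List.mem_ofFn]; exact ⟨i, rfl⟩)
  let g : (Fin L → Bool) → A := fun c => zb c * π c
  have hg : ∀ c, ‖g c‖ ≤ 1 := by
    intro c
    refine (norm_mul_le _ _).trans ?_
    exact mul_le_one₀ (hzb c) (norm_nonneg _) (norm_uni_le (hT.uni c))
  let sg : Bool → ℂ := fun b => if b then -1 else 1
  have hsg : ∀ b, sg b = 1 ∨ sg b = -1 := by
    intro b; cases b
    · exact Or.inl rfl
    · exact Or.inr rfl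
  have hsg2 : ∀ b b', b ≠ b' → sg b * sg b' = -1 := by
    intro b b' h
    cases b <;> cases b' <;> simp_all [sg]
  have hug : ∀ c i, u i * g c = sg (c i) • (g c * u i) := by
    intro c i
    show u i * (zb c * π c) = sg (c i) • (zb c * π c * u i)
    rw [← mul_assoc, (hzbc c i).eq, mul_assoc, hT.sgn c i, mul_smul_comm, mul_assoc]
  have horth : ∀ c c', c ≠ c' → τ (star (g c) * g c') = 0 := by
    intro c c' h
    obtain ⟨i, hi⟩ := Function.ne_iff.1 h
    exact orth_sgn hτ (hT.symm i) (hsg _) (hsg2 _ _ hi) (hug c i) (hug c' i)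
  obtain ⟨ε, hε, hX4⟩ := greedy hτ g hg horth Finset.univ
  set N : ℝ := ((Finset.univ : Finset (Fin L → Bool)).card : ℝ) with hN
  have hNpos : 0 < N := by
    rw [hN]; exact_mod_cast Finset.card_pos.2 Finset.univ_nonempty
  have hcN : (Fintype.card (Fin L → Bool) : ℝ) = N := by rw [hN, Finset.card_univ]
  set Sg : A := ∑ c, ε c • g c with hSg
  set κ : ℂ := (((Real.sqrt N)⁻¹ : ℝ) : ℂ) with hκ
  have hκs : star κ = κ := by rw [hκ]; exact Complex.conj_ofReal _
  have hκn : ‖κ‖ ^ 2 = N⁻¹ := by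
    rw [hκ, Complex.norm_real, Real.norm_eq_abs, sq_abs, inv_pow, Real.sq_sqrt hNpos.le]
  have hκ2 : κ * κ = ((N⁻¹ : ℝ) : ℂ) := by
    rw [hκ, ← Complex.ofReal_mul, ← sq, inv_pow, Real.sq_sqrt hNpos.le]
  set X : A := κ • Sg with hX
  have hXX : (τ ((star X * X) * (star X * X))).re ≤ 3 := by
    have e1 : star X * X = (κ * κ) • (star Sg * Sg) := by
      rw [hX, star_smul, hκs, smul_mul_smul_comm]
    rw [e1, smul_mul_smul_comm, map_smul, hκ2, ← Complex.ofReal_mul, smul_eq_mul, Complex.re_ofReal_mul]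
    calc N⁻¹ * N⁻¹ * (τ ((star Sg * Sg) * (star Sg * Sg))).re ≤ N⁻¹ * N⁻¹ * (3 * N ^ 2) :=
          mul_le_mul_of_nonneg_left hX4 (by positivity)
      _ = 3 := by field_simp
  obtain ⟨X', hX'n, hX'e⟩ := truncate hτ (R := 20) (by norm_num) hXX
  have hX'e2 : n2 τ (X - X') ≤ 0.0434 := by
    have h1 := n2_nonneg hτ (X - X')
    by_contra h
    push Not at h
    nlinarith
  obtain ⟨v, a, hva, ha⟩ := CStarAlgebra.exists_sum_four_unitary X'
  refine ⟨fun i => (v i : A), fun i => (v i).2, ?_⟩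
  intro y hy
  have hls : ∀ s ∈ l, IsSymm' s := hT.pw.symm
  set y' : A := AV l y with hy'
  have hy'1 : ‖y'‖ ≤ 1 := (norm_AV_le hls y).trans hy
  have hCL : CL l y' := hT.pw.CL_AV y
  set S1 : ℝ := (l.map (fun s => n2 τ (cm s y))).sum with hS1
  set V1 : ℝ := ∑ i, n2 τ (cm (v i : A) y) with hV1
  have hV0 : 0 ≤ V1 := Finset.sum_nonneg fun i _ => n2_nonneg hτ _
  have hS0 : 0 ≤ S1 := List.sum_nonneg (by
      intro x hx
      rw [List.mem_map] at hx
      obtain ⟨s, -, rfl⟩ := hx
      exact n2_nonneg hτ _)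
  have hyy : n2 τ (y - y') ≤ (1/2) * S1 := n2_sub_AV hτ hls y
  -- the commutator of X' with y
  have hc1 : n2 τ (cm X' y) ≤ 5 * V1 := by
    have e1 : cm X' y = ∑ i, a i • cm (v i : A) y := by
      conv_lhs => rw [hva]
      unfold cm
      rw [Finset.sum_mul, Finset.mul_sum, ← Finset.sum_sub_distrib]
      refine Finset.sum_congr rfl fun i _ => ?_
      rw [smul_mul_assoc, mul_smul_comm, smul_sub]
    rw [e1, hV1, Finset.mul_sum]
    refine (n2_sum hτ _ _).trans (Finset.sum_le_sum fun i _ => ?_)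
    rw [n2_smul hτ]
    have h1 : ‖a i‖ ≤ 5 := (ha i).trans (by linarith)
    exact mul_le_mul_of_nonneg_right h1 (n2_nonneg hτ _)
  have hc2 : n2 τ (cm X' y') ≤ 5 * V1 + 10 * S1 := by
    have e1 : cm X' y' = cm X' y - cm X' (y - y') := by unfold cm; noncomm_ring
    rw [e1]
    refine (n2_sub hτ _ _).trans ?_
    have h1 := cm_bd1 hτ X' (y - y')
    have h2 := n2_nonneg hτ (y - y')
    have h3 : 2 * ‖X'‖ * n2 τ (y - y') ≤ 20 * n2 τ (y - y') := by
      apply mul_le_mul_of_nonneg_right _ h2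
      linarith
    linarith
  have hc3 : n2 τ (cm X y') ≤ 5 * V1 + 10 * S1 + 0.0868 := by
    have e1 : cm X y' = cm X' y' + cm (X - X') y' := by unfold cm; noncomm_ring
    rw [e1]
    refine (n2_add hτ _ _).trans ?_
    have h1 := cm_bd2 hτ (X - X') y'
    have h2 := n2_nonneg hτ (X - X')
    have h3 : 2 * n2 τ (X - X') * ‖y'‖ ≤ 2 * n2 τ (X - X') * 1 :=
      mul_le_mul_of_nonneg_left hy'1 (by positivity)
    linarith
  -- the commutators with the averaged family
  have hcg : ∀ c, cm (g c) y' = cm (zb c) y' * π c := by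
    intro c
    have h1 : Commute (π c) y' := hT.cp y' hCL c
    show zb c * π c * y' - y' * (zb c * π c) = (zb c * y' - y' * zb c) * π c
    rw [mul_assoc (zb c), h1.eq]; noncomm_ring
  have hDz : Dav τ zb y' = n2 τ (cm X y') ^ 2 := by
    have horth2 : ∀ c c', c ≠ c' → τ (star (cm (g c) y') * cm (g c') y') = 0 := by
      intro c c' h
      obtain ⟨i, hi⟩ := Function.ne_iff.1 h
      have hk : ∀ c, u i * cm (g c) y' = sg (c i) • (cm (g c) y' * u i) := by
        intro c
        have h1 : Commute (u i) y' := hT.cu y' hCL i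
        have h2 := hug c i
        unfold cm
        calc u i * (g c * y' - y' * g c) = (u i * g c) * y' - (u i * y') * g c := by noncomm_ring
          _ = (u i * g c) * y' - y' * (u i * g c) := by rw [h1.eq]; noncomm_ring
          _ = sg (c i) • ((g c * u i) * y' - y' * (g c * u i)) := by
              rw [h2, smul_mul_assoc, mul_smul_comm, smul_sub]
          _ = sg (c i) • ((g c * y' - y' * g c) * u i) := by
              congr 1
              calc g c * u i * y' - y' * (g c * u i) = g c * (u i * y') - y' * g c * u i := by noncomm_ring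
                _ = (g c * y' - y' * g c) * u i := by rw [h1.eq]; noncomm_ring
      exact orth_sgn hτ (hT.symm i) (hsg _) (hsg2 _ _ hi) (hk c) (hk c')
    have e1 : cm X y' = κ • ∑ c, ε c • cm (g c) y' := by
      rw [hX, hSg]
      unfold cm
      rw [smul_mul_assoc, mul_smul_comm, ← smul_sub, Finset.sum_mul, Finset.mul_sum,
        ← Finset.sum_sub_distrib]
      congr 1
      refine Finset.sum_congr rfl fun c _ => ?_
      rw [smul_mul_assoc, mul_smul_comm, smul_sub]
    rw [e1, n2_smul hτ, mul_pow, hκn, n2_orth hτ _ ε hε horth2]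
    unfold Dav
    rw [hcN]
    congr 1
    refine Finset.sum_congr rfl fun c _ => ?_
    rw [hcg c, n2_mul_unitary hτ _ _ (hT.uni c).2]
  -- the error of averaging
  have hzz : (Fintype.card (Fin L → Bool) : ℝ)⁻¹ * ∑ c, (2 * n2 τ (z c - zb c)) ^ 2 ≤ 0.001 ^ 2 := by
    have h1 : ∀ c, (2 * n2 τ (z c - zb c)) ^ 2 ≤ L * ∑ i, n2 τ (cm (z c) (u i)) ^ 2 := by
      intro c
      have h2 : n2 τ (z c - zb c) ≤ (1/2) * ((List.ofFn u).map (fun s => n2 τ (cm s (z c)))).sum :=
        n2_sub_AV hτ hlus (z c)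
      have h3 : ((List.ofFn u).map (fun s => n2 τ (cm s (z c)))).sum = ∑ i, n2 τ (cm (z c) (u i)) := by
        rw [List.map_ofFn, List.sum_ofFn]
        refine Finset.sum_congr rfl fun i _ => ?_
        show n2 τ (cm (u i) (z c)) = _
        rw [← n2_neg hτ]
        congr 1
        unfold cm; abel
      rw [h3] at h2
      have h4 : 2 * n2 τ (z c - zb c) ≤ ∑ i, n2 τ (cm (z c) (u i)) := by linarith
      have h5 := n2_nonneg hτ (z c - zb c)
      have h6 : (∑ i : Fin L, n2 τ (cm (z c) (u i))) ^ 2 ≤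
          (Finset.univ : Finset (Fin L)).card * ∑ i, n2 τ (cm (z c) (u i)) ^ 2 :=
        sq_sum_le_card_mul_sum_sq
      rw [Finset.card_univ, Fintype.card_fin] at h6
      refine le_trans ?_ h6
      exact pow_le_pow_left₀ (by positivity) h4 2
    have h2 : (Fintype.card (Fin L → Bool) : ℝ)⁻¹ * ∑ c, (2 * n2 τ (z c - zb c)) ^ 2 ≤
        L * ∑ i, Dav τ z (u i) := by
      unfold Dav
      rw [← Finset.mul_sum, ← mul_assoc, mul_comm (L:ℝ), mul_assoc]
      refine mul_le_mul_of_nonneg_left ?_ (by positivity)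
      rw [Finset.sum_comm, Finset.mul_sum]
      exact Finset.sum_le_sum fun c _ => h1 c
    have h3 : ∑ i, Dav τ z (u i) ≤ L * δ := by
      calc ∑ i, Dav τ z (u i) ≤ ∑ _i : Fin L, δ := Finset.sum_le_sum fun i _ => hδ i
        _ = L * δ := by rw [Finset.sum_const, Finset.card_univ, Fintype.card_fin, nsmul_eq_mul]
    calc _ ≤ (L:ℝ) * ∑ i, Dav τ z (u i) := h2
      _ ≤ L * (L * δ) := mul_le_mul_of_nonneg_left h3 (Nat.cast_nonneg _)
      _ = (L:ℝ) ^ 2 * δ := by ring
      _ ≤ 1 / 10 ^ 6 := hδL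
      _ = 0.001 ^ 2 := by norm_num
  -- Minkowski
  set W : ℝ := 5 * V1 + 10 * S1 + 0.0868 with hW
  have hW0 : 0 ≤ W := by rw [hW]; positivity
  have hD1 : (Fintype.card (Fin L → Bool) : ℝ)⁻¹ * ∑ c, (n2 τ (cm (zb c) y')) ^ 2 ≤ W ^ 2 := by
    have : Dav τ zb y' ≤ W ^ 2 := by
      rw [hDz]
      exact pow_le_pow_left₀ (n2_nonneg hτ _) hc3 2
    exact this
  have hD2 := mink hW0 (by norm_num : (0:ℝ) ≤ 0.001) hD1 hzz
  have hD3 : (Fintype.card (Fin L → Bool) : ℝ)⁻¹ * ∑ _c : Fin L → Bool, S1 ^ 2 ≤ S1 ^ 2 := by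
    rw [Finset.sum_const, Finset.card_univ, nsmul_eq_mul, ← mul_assoc, inv_mul_cancel₀, one_mul]
    rw [hcN]; exact hNpos.ne'
  have hD4 := mink (α := fun c => n2 τ (cm (zb c) y') + 2 * n2 τ (z c - zb c)) (β := fun _ => S1)
    (by linarith : 0 ≤ W + 0.001) hS0 hD2 hD3
  have hD5 : Dav τ z y ≤ (W + 0.001 + S1) ^ 2 := by
    refine le_trans ?_ hD4
    unfold Dav
    refine mul_le_mul_of_nonneg_left (Finset.sum_le_sum fun c _ => ?_) (by positivity)
    refine pow_le_pow_left₀ (n2_nonneg hτ _) ?_ 2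
    have e1 : cm (z c) y = cm (zb c) y' + cm (z c - zb c) y + cm (zb c) (y - y') := by
      unfold cm; noncomm_ring
    rw [e1]
    refine (n2_add hτ _ _).trans ?_
    have h1 := n2_add hτ (cm (zb c) y') (cm (z c - zb c) y)
    have h2 := cm_bd2 hτ (z c - zb c) y
    have h3 := cm_bd1 hτ (zb c) (y - y')
    have h4 := n2_nonneg hτ (z c - zb c)
    have h5 := n2_nonneg hτ (y - y')
    have h6 : 2 * n2 τ (z c - zb c) * ‖y‖ ≤ 2 * n2 τ (z c - zb c) * 1 :=
      mul_le_mul_of_nonneg_left hy (by positivity)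
    have h7 : 2 * ‖zb c‖ * n2 τ (y - y') ≤ 2 * 1 * n2 τ (y - y') := by
      apply mul_le_mul_of_nonneg_right _ h5
      linarith [hzb c]
    linarith
  -- Cauchy-Schwarz
  have hV2 : V1 ^ 2 ≤ 4 * ∑ i, n2 τ (cm (v i : A) y) ^ 2 := by
    have := sq_sum_le_card_mul_sum_sq (s := (Finset.univ : Finset (Fin 4)))
      (f := fun i => n2 τ (cm (v i : A) y))
    simpa using this
  have hS2 : S1 ^ 2 ≤ (2 * L) * (l.map (fun s => n2 τ (cm s y) ^ 2)).sum := by
    have := sum_list_sq l (fun s => n2 τ (cm s y))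
    rw [hT.len] at this
    push_cast at this
    exact this
  set V2 : ℝ := ∑ i, n2 τ (cm (v i : A) y) ^ 2 with hV2d
  set S2 : ℝ := (l.map (fun s => n2 τ (cm s y) ^ 2)).sum with hS2d
  have hV20 : 0 ≤ V2 := Finset.sum_nonneg fun i _ => sq_nonneg _
  have hS20 : 0 ≤ S2 := List.sum_nonneg (by
      intro x hx
      rw [List.mem_map] at hx
      obtain ⟨s, -, rfl⟩ := hx
      positivity)
  have hL0 : (0:ℝ) ≤ L := Nat.cast_nonneg L
  -- (V1 + S1)^2 ≤ (4 + 2L)(V2 + S2)
  have hVS : (V1 + S1) ^ 2 ≤ (4 + 2 * L) * (V2 + S2) := by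
    rcases hL0.eq_or_lt with h0 | h0
    · rw [← h0] at hS2 ⊢
      have : S1 = 0 := by
        have : S1 ^ 2 ≤ 0 := by linarith
        nlinarith [sq_nonneg S1]
      rw [this]; linarith
    · have h1 : 2 * (V1 * S1) ≤ (L / 2) * V1 ^ 2 + (2 / L) * S1 ^ 2 := by
        have : 0 ≤ (2 / L) * (L / 2 * V1 - S1) ^ 2 := by positivity
        have e : (2 / (L:ℝ)) * (L / 2 * V1 - S1) ^ 2 =
          (L / 2) * V1 ^ 2 + (2 / L) * S1 ^ 2 - 2 * (V1 * S1) := by field_simp; ring
        linarith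
      have h2 : (L / 2) * V1 ^ 2 ≤ (2 * L) * V2 := by
        calc (L / 2) * V1 ^ 2 ≤ (L / 2) * (4 * V2) := by gcongr
          _ = (2 * L) * V2 := by ring
      have h3 : (2 / L) * S1 ^ 2 ≤ 4 * S2 := by
        calc (2 / L) * S1 ^ 2 ≤ (2 / L) * ((2 * L) * S2) := by gcongr
          _ = 4 * S2 := by field_simp; ring
      nlinarith
  refine hD5.trans ?_
  have h11 : W + 0.001 + S1 ≤ 11 * (V1 + S1) + 0.0878 := by rw [hW]; linarith
  calc (W + 0.001 + S1) ^ 2 ≤ (11 * (V1 + S1) + 0.0878) ^ 2 :=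
        pow_le_pow_left₀ (by positivity) h11 2
    _ ≤ 2 * (11 * (V1 + S1)) ^ 2 + 2 * 0.0878 ^ 2 := by nlinarith [sq_nonneg (11 * (V1 + S1) - 0.0878)]
    _ = 242 * (V1 + S1) ^ 2 + 2 * 0.0878 ^ 2 := by ring
    _ ≤ 242 * ((4 + 2 * L) * (V2 + S2)) + 1 / 50 := by
        have : (2:ℝ) * 0.0878 ^ 2 ≤ 1 / 50 := by norm_num
        linarith
    _ = 242 * (4 + 2 * (L:ℝ)) * (V2 + S2) + 1 / 50 := by ring

end Pool.Agent.Helper19.Gam
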