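import Mathlib
import Pool.Agent.Helper19.GClose
import Pool.Agent.Helper67.Gam.Good
set_option autoImplicit false
open scoped ComplexOrder
open Pool.Agent.Helper67.FacTrLib

namespace Pool.Agent.Helper19.Gam

/-- the universal gap for von Neumann algebras -/
theorem universal_vn : ∃ k : ℕ, 0 < k ∧
    ∀ (H : Type) [NormedAddCommGroup H] [InnerProductSpace ℂ H] [CompleteSpace H]
      (N : VonNeumannAlgebra H) (τ : (H →L[ℂ] H) →ₗ[ℂ] ℂ), VN2 N τ →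
      (∃ n : ℕ, ∃ x : Fin n → (H →L[ℂ] H), (∀ j, x j ∈ N) ∧ ∃ ε : ℝ, 0 < ε ∧
        ∀ u : H →L[ℂ] H, u ∈ N → star u * u = 1 → u * star u = 1 → τ u = 0 →
          ∃ j : Fin n, ε ^ 2 ≤ (τ (star (u * x j - x j * u) * (u * x j - x j * u))).re) →
      ∃ u : Fin k → (H →L[ℂ] H),
        (∀ j, u j ∈ N ∧ star (u j) * u j = 1 ∧ u j * star (u j) = 1) ∧
        ∀ y : H →L[ℂ] H, y ∈ N → ‖y‖ ≤ 1 → τ y = 0 →
          (1 / 2) * ((τ (star y * y)).re - 1 / 10) ≤ (k : ℝ)⁻¹ * ∑ j,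
            (τ (star (u j * y - y * u j) * (u j * y - y * u j))).re := by
  obtain ⟨K0, hmain⟩ := universal
  refine ⟨2 ^ K0, by positivity, ?_⟩
  intro H _ _ _ N τ h hG
  obtain ⟨A, hA, φ, hinj, hmem, hsurj, hTr, hgood⟩ := h.good
  set σ : A →ₗ[ℂ] ℂ := τ ∘ₗ (φ : A →ₗ[ℂ] (H →L[ℂ] H)) with hσ
  have hσa : ∀ a, σ a = τ (φ a) := fun a => rfl
  have hcm : ∀ a b : A, n2 σ (cm a b) ^ 2 =
      (τ (star (φ a * φ b - φ b * φ a) * (φ a * φ b - φ b * φ a))).re := by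
    intro a b
    rw [n2_sq hTr, hσa]
    unfold cm
    simp only [map_mul, map_sub, map_star]
  have hnon : ∃ (n : ℕ) (x : Fin n → A) (ε : ℝ), 0 < ε ∧ ∀ u ∈ unitary A, σ u = 0 →
        ∃ j, ε ^ 2 ≤ n2 σ (cm u (x j)) ^ 2 := by
    obtain ⟨n, x, hx, ε, hε, hu⟩ := hG
    choose y hy using fun j => hsurj (x j) (hx j)
    refine ⟨n, y, ε, hε, fun u hu1 hu0 => ?_⟩
    have h1 : star (φ u) * φ u = 1 := by rw [← map_star, ← map_mul, hu1.1, map_one]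
    have h2 : φ u * star (φ u) = 1 := by rw [← map_star, ← map_mul, hu1.2, map_one]
    obtain ⟨j, hj⟩ := hu (φ u) (hmem u) h1 h2 hu0
    refine ⟨j, ?_⟩
    rw [hcm, hy j]
    exact hj
  obtain ⟨x, hx, hGp⟩ := hmain A hA σ hTr hgood hnon
  refine ⟨fun c => φ (x c), fun c => ⟨hmem _, ?_, ?_⟩, ?_⟩
  · rw [← map_star, ← map_mul, (hx c).1, map_one]
  · rw [← map_star, ← map_mul, (hx c).2, map_one]
  · intro y hyN hy1 hy0
    obtain ⟨b, rfl⟩ := hsurj y hyN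
    have hne : Nonempty (Fin (2 ^ K0)) := ⟨⟨0, by positivity⟩⟩
    have hb1 : ‖b‖ ≤ 1 := by
      rw [← NonUnitalStarAlgHom.norm_map (φ : A →⋆ₙₐ[ℂ] (H →L[ℂ] H)) hinj b]; exact hy1
    have hD := gap_D hTr x hx hGp b hb1 hy0
    have h1 : n2 σ b ^ 2 = (τ (star (φ b) * φ b)).re := by
      rw [n2_sq hTr, hσa, map_mul, map_star]
    rw [h1] at hD
    refine hD.trans (le_of_eq ?_)
    unfold Dav
    rw [Fintype.card_fin]
    congr 1
    exact Finset.sum_congr rfl fun c _ => hcm _ _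

end Pool.Agent.Helper19.Gam
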