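import Pool.Agent.Helper19.Step1c
import Pool.Agent.Helper19.Four

set_option autoImplicit false

open MeasureTheory Filter Topology Matrix
open scoped ENNReal NNReal Real

namespace Pool.Agent.Helper19

set_option linter.unusedSectionVars false

section
variable {ι : Type*} [Fintype ι] [DecidableEq ι] {N L : ℕ} [NeZero N] [NeZero L]

/-- residues of a site -/
def za (N : ℕ) (s : ι → Site) (p : ι) : ZMod N := (((s p).1 : ℤ) : ZMod N)
def zb (L : ℕ) (s : ι → Site) (p : ι) : ZMod L := (((s p).2 : ℤ) : ZMod L)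

lemma int_eq_of_zmod {N : ℕ} {x y : ℤ} (hx : 0 ≤ x) (hx2 : x < N) (hy : 0 ≤ y) (hy2 : y < N)
    (h : (x : ZMod N) = (y : ZMod N)) : x = y := by
  rw [ZMod.intCast_eq_intCast_iff] at h
  have h1 : x % (N : ℤ) = y % (N : ℤ) := h
  rwa [Int.emod_eq_of_lt hx hx2, Int.emod_eq_of_lt hy hy2] at h1

lemma zab_bijective {s : ι → Site} (hs : Function.Injective s) (hb : ∀ p, InBox N L (s p))
    (hc : Fintype.card ι = N * L) : Function.Bijective (fun p => (za N s p, zb L s p)) := by
  rw [Fintype.bijective_iff_injective_and_card]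
  constructor
  · intro p q h
    apply hs
    obtain ⟨a1, a2, a3, a4⟩ := hb p
    obtain ⟨b1, b2, b3, b4⟩ := hb q
    have h1 := int_eq_of_zmod a1 a2 b1 b2 (congrArg Prod.fst h)
    have h2 := int_eq_of_zmod a3 a4 b3 b4 (congrArg Prod.snd h)
    exact Prod.ext h1 h2
  · rw [hc, Fintype.card_prod, ZMod.card, ZMod.card]

/-- Fourier matrix of the torus -/
noncomputable def FT (N L : ℕ) [NeZero N] [NeZero L] (s : ι → Site) : Matrix ι ι ℂ := fun p k =>
  (((Real.sqrt ((N : ℝ) * L))⁻¹ : ℝ) : ℂ) * (chi (za N s p * za N s k) * chi (zb L s p * zb L s k))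

lemma sqrt_inv_sq : (Real.sqrt ((N : ℝ) * L))⁻¹ ^ 2 = ((N : ℝ) * L)⁻¹ := by
  rw [inv_pow, Real.sq_sqrt (by positivity)]

lemma FT_flat {s : ι → Site} (hc : Fintype.card ι = N * L) (p k : ι) :
    ‖FT N L s p k‖ ^ 2 = (Fintype.card ι : ℝ)⁻¹ := by
  unfold FT
  rw [norm_mul, norm_mul, norm_chi, norm_chi, Complex.norm_real, Real.norm_eq_abs, mul_one, mul_one,
    sq_abs, sqrt_inv_sq, hc]
  push_cast; rfl

lemma FT_unitary {s : ι → Site} (hs : Function.Injective s) (hb : ∀ p, InBox N L (s p))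
    (hc : Fintype.card ι = N * L) : (FT N L s)ᴴ * FT N L s = 1 := by
  have hN : (N : ℂ) ≠ 0 := by exact_mod_cast NeZero.ne N
  have hL : (L : ℂ) ≠ 0 := by exact_mod_cast NeZero.ne L
  have hbij := zab_bijective (N := N) (L := L) hs hb hc
  ext k l
  rw [Matrix.mul_apply, Matrix.one_apply]
  have h1 : ∀ p : ι, (FT N L s)ᴴ k p * FT N L s p l
      = ((N : ℂ) * L)⁻¹ * (chi (za N s p * (za N s l - za N s k)) * chi (zb L s p * (zb L s l - zb L s k))) := by
    intro p
    rw [Matrix.conjTranspose_apply]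
    unfold FT
    have e0 : ((((Real.sqrt ((N : ℝ) * L))⁻¹ : ℝ) : ℂ)) * (((Real.sqrt ((N : ℝ) * L))⁻¹ : ℝ) : ℂ)
        = ((N : ℂ) * L)⁻¹ := by
      have := sqrt_inv_sq (N := N) (L := L)
      rw [sq] at this
      rw [← Complex.ofReal_mul, this]
      push_cast; rfl
    have e1 : za N s p * (za N s l - za N s k) = -(za N s p * za N s k) + za N s p * za N s l := by ring
    have e2 : zb L s p * (zb L s l - zb L s k) = -(zb L s p * zb L s k) + zb L s p * zb L s l := by ring
    rw [star_mul', star_mul', e1, e2, chi_add, chi_add, chi_neg, chi_neg, ← e0]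
    rw [show star ((((Real.sqrt ((N : ℝ) * L))⁻¹ : ℝ) : ℂ)) = (((Real.sqrt ((N : ℝ) * L))⁻¹ : ℝ) : ℂ)
      from Complex.conj_ofReal _]
    ring
  rw [Finset.sum_congr rfl (fun p _ => h1 p), ← Finset.mul_sum]
  have h2 : ∑ p : ι, chi (za N s p * (za N s l - za N s k)) * chi (zb L s p * (zb L s l - zb L s k))
      = (∑ x : ZMod N, chi (x * (za N s l - za N s k))) * (∑ y : ZMod L, chi (y * (zb L s l - zb L s k))) := by
    rw [Finset.sum_mul_sum, ← Fintype.sum_prod_type']
    exact Function.Bijective.sum_comp hbij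
      (fun xy : ZMod N × ZMod L => chi (xy.1 * (za N s l - za N s k)) * chi (xy.2 * (zb L s l - zb L s k)))
  rw [h2, sum_chi, sum_chi]
  by_cases h5 : k = l
  · subst h5
    simp only [sub_self, if_true]
    field_simp
  · rw [if_neg h5]
    have h6 : ¬ (za N s l - za N s k = 0 ∧ zb L s l - zb L s k = 0) := by
      rintro ⟨g1, g2⟩
      apply h5
      apply hbij.1
      exact Prod.ext (sub_eq_zero.mp g1).symm (sub_eq_zero.mp g2).symm
    by_cases h7 : za N s l - za N s k = 0
    · rw [if_neg (fun h8 => h6 ⟨h7, h8⟩)]; ring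
    · rw [if_neg h7]; ring

/-- gauged hopping -/
noncomputable def TG (N L : ℕ) (x : ℂ) (s : ι → Site) : Matrix ι ι ℂ :=
  fun p q => -∑ d ∈ dirs, if red N L (s p + d) = s q then x ^ d.1 else 0

/-- symbol -/
noncomputable def sy (N L : ℕ) [NeZero N] [NeZero L] (x : ℂ) (s : ι → Site) (k : ι) : ℂ :=
  -(x * chi (za N s k) + x⁻¹ * chi (-za N s k) + (chi (zb L s k) + chi (-zb L s k)))

lemma exists_red {s : ι → Site} (hs : Function.Injective s) (hb : ∀ p, InBox N L (s p))
    (hc : Fintype.card ι = N * L) (x : Site) : ∃ q, s q = red N L x := by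
  obtain ⟨q, hq⟩ := (zab_bijective (N := N) (L := L) hs hb hc).2 ((x.1 : ZMod N), (x.2 : ZMod L))
  refine ⟨q, ?_⟩
  obtain ⟨b1, b2, b3, b4⟩ := hb q
  have hN : (0 : ℤ) < N := by
    have := Nat.pos_of_ne_zero (NeZero.ne N); omega
  have hL : (0 : ℤ) < L := by
    have := Nat.pos_of_ne_zero (NeZero.ne L); omega
  unfold red
  apply Prod.ext
  · apply int_eq_of_zmod b1 b2 (Int.emod_nonneg _ hN.ne') (Int.emod_lt_of_pos _ hN)
    have h1 : za N s q = (x.1 : ZMod N) := congrArg Prod.fst hq
    have h2 : ((x.1 % (N : ℤ) : ℤ) : ZMod N) = (x.1 : ZMod N) := by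
      rw [ZMod.intCast_eq_intCast_iff]
      exact Int.mod_modEq x.1 N
    rw [h2]; exact h1
  · apply int_eq_of_zmod b3 b4 (Int.emod_nonneg _ hL.ne') (Int.emod_lt_of_pos _ hL)
    have h1 : zb L s q = (x.2 : ZMod L) := congrArg Prod.snd hq
    have h2 : ((x.2 % (L : ℤ) : ℤ) : ZMod L) = (x.2 : ZMod L) := by
      rw [ZMod.intCast_eq_intCast_iff]
      exact Int.mod_modEq x.2 L
    rw [h2]; exact h1

lemma zab_of_red {s : ι → Site} {p q : ι} {d : Site} (h : s q = red N L (s p + d)) :
    za N s q = za N s p + (d.1 : ZMod N) ∧ zb L s q = zb L s p + (d.2 : ZMod L) := by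
  unfold za zb
  rw [h]
  unfold red
  constructor
  · have h2 : (((s p + d).1 % (N : ℤ) : ℤ) : ZMod N) = ((s p + d).1 : ZMod N) := by
      rw [ZMod.intCast_eq_intCast_iff]
      exact Int.mod_modEq _ N
    simp only
    rw [h2, Prod.fst_add]
    push_cast; rfl
  · have h2 : (((s p + d).2 % (L : ℤ) : ℤ) : ZMod L) = ((s p + d).2 : ZMod L) := by
      rw [ZMod.intCast_eq_intCast_iff]
      exact Int.mod_modEq _ L
    simp only
    rw [h2, Prod.snd_add]
    push_cast; rfl

lemma TG_mul_FT (x : ℂ) {s : ι → Site} (hs : Function.Injective s) (hb : ∀ p, InBox N L (s p))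
    (hc : Fintype.card ι = N * L) :
    TG N L x s * FT N L s = FT N L s * Matrix.diagonal (sy N L x s) := by
  ext p k
  rw [Matrix.mul_apply, Matrix.mul_diagonal]
  have h1 : ∑ q, TG N L x s p q * FT N L s q k
      = -∑ d ∈ dirs, x ^ d.1 * (FT N L s p k * (chi ((d.1 : ZMod N) * za N s k)
        * chi ((d.2 : ZMod L) * zb L s k))) := by
    unfold TG
    simp only [neg_mul, Finset.sum_neg_distrib, Finset.sum_mul]
    rw [Finset.sum_comm]
    congr 1
    apply Finset.sum_congr rfl
    intro d _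
    obtain ⟨q0, hq0⟩ := exists_red (N := N) (L := L) hs hb hc (s p + d)
    rw [Finset.sum_eq_single q0]
    · rw [if_pos hq0.symm]
      obtain ⟨g1, g2⟩ := zab_of_red hq0
      unfold FT
      rw [g1, g2, add_mul, add_mul, chi_add, chi_add]
      ring
    · intro q _ hq
      rw [if_neg, zero_mul]
      intro h
      exact hq (hs (h.symm.trans hq0.symm))
    · intro h; exact absurd (Finset.mem_univ _) h
  rw [h1, sum_dirs]
  unfold sy
  simp only [zpow_one, zpow_zero, Int.cast_one, Int.cast_zero, Int.cast_neg, one_mul, zero_mul, neg_mul,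
    chi_zero, mul_one, _root_.zpow_neg_one]
  ring

lemma TG_eq_FD (x : ℂ) {s : ι → Site} (hs : Function.Injective s) (hb : ∀ p, InBox N L (s p))
    (hc : Fintype.card ι = N * L) : TG N L x s = FD (FT N L s) (sy N L x s) := by
  have h1 := FT_unitary (N := N) (L := L) hs hb hc
  have h2 : FT N L s * (FT N L s)ᴴ = 1 := mul_eq_one_comm.mp h1
  unfold FD
  rw [← TG_mul_FT x hs hb hc, Matrix.mul_assoc, h2, Matrix.mul_one]

/-- gauge transformation -/
lemma gauge_det {x : ℂ} (hx : x ≠ 0) {s : ι → Site} (V : Site → ℝ) :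
    (RM (TR N L (x ^ N) s s) s V).det = (RM (TG N L x s) s V).det := by
  set D : Matrix ι ι ℂ := Matrix.diagonal (fun p => x ^ (s p).1) with hD
  have hDdet : D.det ≠ 0 := by
    rw [hD, Matrix.det_diagonal]
    exact Finset.prod_ne_zero_iff.mpr (fun p _ => zpow_ne_zero _ hx)
  have h : D * RM (TG N L x s) s V = RM (TR N L (x ^ N) s s) s V * D := by
    ext p q
    rw [hD, Matrix.diagonal_mul, Matrix.mul_diagonal]
    unfold RM TG TR
    rw [mul_add, add_mul]
    congr 1
    · rw [mul_neg, neg_mul, Finset.mul_sum, Finset.sum_mul]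
      congr 1
      apply Finset.sum_congr rfl
      intro d _
      by_cases h : red N L (s p + d) = s q
      · rw [if_pos h, if_pos h]
        unfold wt
        have h1 := Int.emod_add_mul_ediv (s p + d).1 (N : ℤ)
        have h2 : (s p + d).1 % (N : ℤ) = (s q).1 := congrArg Prod.fst h
        rw [h2] at h1
        rw [← zpow_natCast x N, ← _root_.zpow_mul, ← zpow_add₀ hx, ← zpow_add₀ hx]
        congr 1
        have h3 : (s p + d).1 = (s p).1 + d.1 := rfl
        rw [← h3]
        linarith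
      · rw [if_neg h, if_neg h]; ring
    · by_cases h : p = q
      · subst h; rw [if_pos rfl]; ring
      · rw [if_neg h]; ring
  have h2 := congrArg Matrix.det h
  rw [Matrix.det_mul, Matrix.det_mul, mul_comm] at h2
  exact (mul_right_cancel₀ hDdet h2).symm

/-- the torus determinant in Fourier form -/
lemma torus_det {x : ℂ} (hx : x ≠ 0) {s : ι → Site} (hs : Function.Injective s)
    (hb : ∀ p, InBox N L (s p)) (hc : Fintype.card ι = N * L) (lam kap e : ℝ) (w : Site → ℝ) :
    (RM (TR N L (x ^ N) s s) s (VV lam kap e w)).det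
      = (GM (FD (FT N L s) (fun k => sy N L x s k - e)) (fun _ => 1) s
        (fun y => ((pot lam kap w y : ℝ) : ℂ))).det := by
  rw [gauge_det hx, TG_eq_FD x hs hb hc]
  congr 1
  have h1 := FT_unitary (N := N) (L := L) hs hb hc
  have h2 : FT N L s * (FT N L s)ᴴ = 1 := mul_eq_one_comm.mp h1
  have h3 : FD (FT N L s) (fun k => sy N L x s k - e) = FD (FT N L s) (sy N L x s) - (e : ℂ) • 1 := by
    unfold FD
    have : Matrix.diagonal (fun k => sy N L x s k - (e : ℂ))
        = Matrix.diagonal (sy N L x s) - (e : ℂ) • (1 : Matrix ι ι ℂ) := by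
      ext p q
      rw [Matrix.sub_apply, Matrix.smul_apply, Matrix.diagonal_apply, Matrix.diagonal_apply,
        Matrix.one_apply, smul_eq_mul]
      split_ifs <;> ring
    rw [this, Matrix.mul_sub, Matrix.sub_mul, Matrix.mul_smul, Matrix.mul_one, Matrix.smul_mul, h2]
  rw [h3]
  ext p q
  unfold RM GM VV
  rw [Matrix.sub_apply, Matrix.smul_apply, Matrix.one_apply, smul_eq_mul]
  by_cases h : p = q
  · subst h
    rw [if_pos rfl, if_pos rfl, if_pos rfl]
    push_cast; ring
  · rw [if_neg h, if_neg h, if_neg h]; ring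

end

end Pool.Agent.Helper19
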