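import Pool.Agent.Helper19.Box

set_option autoImplicit false

open MeasureTheory Filter Topology Matrix
open scoped ENNReal NNReal ComplexOrder

namespace Pool.Agent.Helper19

/-- cyclic permutation of the first `c+1` elements -/
def cyc (c N : ℕ) (h : c < N) : Equiv.Perm (Fin N) where
  toFun i := if (i : ℕ) = 0 then ⟨c, h⟩ else if (i : ℕ) ≤ c then ⟨i - 1, by omega⟩ else i
  invFun i := if (i : ℕ) = c then ⟨0, by omega⟩ else if h2 : (i : ℕ) < c then ⟨i + 1, by omega⟩ else i
  left_inv := by
    intro i
    ext
    by_cases h1 : (i : ℕ) = 0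
    · simp [h1]
    · by_cases h2 : (i : ℕ) ≤ c
      · have h3 : (i : ℕ) - 1 ≠ c := by omega
        have h4 : (i : ℕ) - 1 < c := by omega
        simp only [h1, h2, if_false, if_true, h3, h4, dif_pos]
        omega
      · have h3 : (i : ℕ) ≠ c := by omega
        have h4 : ¬ ((i : ℕ) < c) := by omega
        simp [h1, h2, h3, h4]
  right_inv := by
    intro i
    ext
    by_cases h1 : (i : ℕ) = c
    · simp [h1]
    · by_cases h2 : (i : ℕ) < c
      · have h3 : (i : ℕ) + 1 ≠ 0 := by omega
        have h4 : (i : ℕ) + 1 ≤ c := by omega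
        simp [h1, h2, h4]
      · have h3 : ¬ (i : ℕ) ≤ c := by omega
        have h4 : (i : ℕ) ≠ 0 := by omega
        simp [h1, h2, h3, h4]

lemma cyc_zero {c N : ℕ} (h : c < N) (i : Fin N) (hi : (i : ℕ) = 0) :
    ((cyc c N h i : Fin N) : ℕ) = c := by
  simp [cyc, hi]

lemma cyc_mid {c N : ℕ} (h : c < N) (i : Fin N) (hi : (i : ℕ) ≠ 0) (hi2 : (i : ℕ) ≤ c) :
    ((cyc c N h i : Fin N) : ℕ) = i - 1 := by
  simp [cyc, hi, hi2]

lemma cyc_big {c N : ℕ} (h : c < N) (i : Fin N) (hi : c < (i : ℕ)) :
    cyc c N h i = i := by
  have h1 : (i : ℕ) ≠ 0 := by omega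
  have h2 : ¬ (i : ℕ) ≤ c := by omega
  simp [cyc, h1, h2]

lemma BM_eq_zero {n L : ℕ} {V : Site → ℝ} {p q : Fin n × Fin L} (h : (p.1 : ℕ) + 1 < q.1) :
    BM n L V p q = 0 := by
  unfold BM
  have h1 : p ≠ q := by rintro rfl; omega
  rw [if_neg h1, sum_dirs]
  have : ∀ d ∈ dirs, ¬ (st n L q = st n L p + d) := by
    intro d hd heq
    simp only [dirs, Finset.mem_insert, Finset.mem_singleton] at hd
    have h2 : ((q.1 : ℕ) : ℤ) = ((p.1 : ℕ) : ℤ) + d.1 := congrArg Prod.fst heq
    rcases hd with rfl | rfl | rfl | rfl
    all_goals simp only at h2; omega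
  rw [if_neg (this _ (by simp [dirs])), if_neg (this _ (by simp [dirs])),
    if_neg (this _ (by simp [dirs])), if_neg (this _ (by simp [dirs]))]
  ring

lemma BM_step {n L : ℕ} {V : Site → ℝ} {p q : Fin n × Fin L} (h : (p.1 : ℕ) + 1 = q.1) :
    BM n L V p q = if p.2 = q.2 then -1 else 0 := by
  unfold BM
  have h1 : p ≠ q := by rintro rfl; omega
  rw [if_neg h1, sum_dirs]
  have a1 : (st n L q = st n L p + (1, 0)) ↔ p.2 = q.2 := by
    simp only [st, Prod.mk_add_mk, Prod.mk.injEq, Fin.ext_iff]
    omega
  have a2 : ¬ (st n L q = st n L p + (-1, 0)) := by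
    simp only [st, Prod.mk_add_mk, Prod.mk.injEq]
    omega
  have a3 : ¬ (st n L q = st n L p + (0, 1)) := by
    simp only [st, Prod.mk_add_mk, Prod.mk.injEq]
    omega
  have a4 : ¬ (st n L q = st n L p + (0, -1)) := by
    simp only [st, Prod.mk_add_mk, Prod.mk.injEq]
    omega
  rw [if_neg a2, if_neg a3, if_neg a4]
  by_cases h2 : p.2 = q.2
  · rw [if_pos (a1.mpr h2), if_pos h2]; ring
  · rw [if_neg (fun h => h2 (a1.mp h)), if_neg h2]; ring

/-- the basic determinant identity -/
theorem det_ident (c q L : ℕ) (V : Site → ℝ) (hdet : (BM (c + q + 1) L V).det ≠ 0) :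
    ‖(BM (c + q + 1) L V).det‖ * ‖(Matrix.of (fun r s : Fin L => (BM (c + q + 1) L V)⁻¹
      ((0 : Fin (c + q + 1)), r) ((⟨c, by omega⟩ : Fin (c + q + 1)), s))).det‖
    = ‖(BM q L (fun x => V (x + ((c : ℤ) + 1, 0)))).det‖ := by
  set N := c + q + 1 with hN
  have hcN : c < N := by omega
  set A := BM N L V with hA
  set G := A⁻¹ with hG
  set cF : Fin N := ⟨c, hcN⟩ with hcF
  set z : Fin N := (0 : Fin (c + q + 1)) with hz
  have hz0 : (z : ℕ) = 0 := rfl
  have hAG : A * G = 1 := Matrix.mul_nonsing_inv A (isUnit_iff_ne_zero.mpr hdet)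
  set P : Matrix (Fin N × Fin L) (Fin N × Fin L) ℂ :=
    fun x y => if (y.1 : ℕ) = 0 then G x (cF, y.2) else if x = y then 1 else 0 with hP
  set Q : Matrix (Fin N × Fin L) (Fin N × Fin L) ℂ :=
    fun x y => if (y.1 : ℕ) = 0 then (if x = (cF, y.2) then 1 else 0) else A x y with hQ
  have hAP : A * P = Q := by
    ext x y
    rw [Matrix.mul_apply]
    simp only [hP, hQ]
    by_cases hy : (y.1 : ℕ) = 0
    · simp only [hy, if_true]
      have := congrFun (congrFun hAG x) (cF, y.2)
      rw [Matrix.mul_apply, Matrix.one_apply] at this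
      exact this
    · simp only [hy, if_false]
      simp
  -- det P
  have hPdet : P.det = (Matrix.of (fun r s : Fin L => G (z, r) (cF, s))).det := by
    rw [Matrix.twoBlockTriangular_det' P (fun i => (i.1 : ℕ) = 0)]
    · have e1 : (Matrix.toSquareBlockProp P fun i => ¬ ((i.1 : ℕ) = 0)).det = 1 := by
        have : (Matrix.toSquareBlockProp P fun i => ¬ ((i.1 : ℕ) = 0)) = 1 := by
          ext i j
          rw [Matrix.toSquareBlockProp_def, Matrix.of_apply, Matrix.one_apply]
          simp only [hP, if_neg j.2, Subtype.ext_iff]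
        rw [this, Matrix.det_one]
      rw [e1, mul_one]
      let eqv : Fin L ≃ {a : Fin N × Fin L // (a.1 : ℕ) = 0} :=
        { toFun := fun r => ⟨(z, r), hz0⟩
          invFun := fun a => a.1.2
          left_inv := fun r => rfl
          right_inv := by
            rintro ⟨⟨a, b⟩, h⟩
            apply Subtype.ext
            apply Prod.ext
            · apply Fin.ext
              exact hz0.trans h.symm
            · rfl }
      rw [← Matrix.det_submatrix_equiv_self eqv]
      congr 1
    · intro i hi j hj
      simp only [hP, if_neg hj]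
      rw [if_neg]
      rintro rfl
      exact hj hi
  -- permuted matrix
  set π : Equiv.Perm (Fin N × Fin L) := Equiv.prodCongr (cyc c N hcN) (Equiv.refl _) with hπ
  have hπ1 : ∀ x : Fin N × Fin L, (π x).1 = cyc c N hcN x.1 := fun x => rfl
  have hπ2 : ∀ x : Fin N × Fin L, (π x).2 = x.2 := fun x => rfl
  have hnorm : ‖(Q.submatrix π id).det‖ = ‖Q.det‖ := by
    rw [Matrix.det_permute, norm_mul]
    have : ‖(((Equiv.Perm.sign π : ℤˣ) : ℤ) : ℂ)‖ = 1 := by
      rcases Int.units_eq_one_or (Equiv.Perm.sign π) with h | h <;> rw [h] <;> simp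
    rw [this, one_mul]
  set b : Fin N × Fin L → ℕ := fun x => if (x.1 : ℕ) = 0 then 0 else
    if (x.1 : ℕ) ≤ c then c + q + 2 - x.1 else 1 with hb
  have htri : (Q.submatrix π id).BlockTriangular b := by
    intro i j hij
    rw [Matrix.submatrix_apply, id]
    by_cases hj : (j.1 : ℕ) = 0
    · have hi : (i.1 : ℕ) ≠ 0 := by
        intro hi
        simp only [hb, hi, hj, if_true, lt_irrefl] at hij
      simp only [hQ, hj, if_true]
      rw [if_neg]
      intro heq
      have h1 : (π i).1 = cF := congrArg Prod.fst heq
      rw [hπ1] at h1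
      have h2 := congrArg Fin.val h1
      by_cases hi2 : (i.1 : ℕ) ≤ c
      · rw [cyc_mid hcN _ hi hi2] at h2
        simp only [hcF] at h2
        omega
      · rw [cyc_big hcN _ (by omega)] at h2
        simp only [hcF] at h2
        omega
    · simp only [hQ, hj, if_false]
      by_cases hi : (i.1 : ℕ) = 0
      · exfalso
        simp only [hb, hi, if_true, Nat.not_lt_zero] at hij
      by_cases hi2 : (i.1 : ℕ) ≤ c
      · apply BM_eq_zero
        rw [hπ1, cyc_mid hcN _ hi hi2]
        have hjN := j.1.2
        by_cases hj2 : (j.1 : ℕ) ≤ c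
        · simp only [hb, hi, hi2, hj, hj2, if_true, if_false] at hij
          omega
        · omega
      · exfalso
        simp only [hb, hi, hi2, hj, if_false] at hij
        by_cases hj2 : (j.1 : ℕ) ≤ c
        · have hjN := j.1.2
          simp only [hj2, if_true] at hij
          omega
        · simp only [hj2, if_false] at hij
          omega
  have hprod : ‖(Q.submatrix π id).det‖ = ‖((Q.submatrix π id).toSquareBlock b 1).det‖ := by
    rw [htri.det, norm_prod]
    apply Finset.prod_eq_single 1
    · intro a _ ha1
      by_cases ha0 : a = 0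
      · subst ha0
        have : (Q.submatrix π id).toSquareBlock b 0 = 1 := by
          ext i j
          have hi : (i.1.1 : ℕ) = 0 := by
            have := i.2
            by_contra h
            simp only [hb, h, if_false] at this
            split_ifs at this with h2
            · have := i.1.1.2; omega
          have hj : (j.1.1 : ℕ) = 0 := by
            have := j.2
            by_contra h
            simp only [hb, h, if_false] at this
            split_ifs at this with h2
            · have := j.1.1.2; omega
          rw [Matrix.toSquareBlock_def, Matrix.of_apply, Matrix.submatrix_apply, id, Matrix.one_apply]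
          simp only [hQ, hj, if_true]
          have hπi : π i.1 = (cF, i.1.2) := by
            apply Prod.ext
            · rw [hπ1]; apply Fin.ext; rw [cyc_zero hcN _ hi]
            · rfl
          rw [hπi]
          have : ((cF, i.1.2) = (cF, j.1.2)) ↔ i = j := by
            rw [Prod.mk.injEq, Subtype.ext_iff, Prod.ext_iff, Fin.ext_iff (a := i.1.1)]
            simp [hi, hj]
          simp only [this]
        rw [this, Matrix.det_one, norm_one]
      · have : (Q.submatrix π id).toSquareBlock b a = -1 := by
          ext i j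
          have hi := i.2
          have hj := j.2
          have hi0 : (i.1.1 : ℕ) ≠ 0 := by
            intro h; simp only [hb, h, if_true] at hi; exact ha0 hi.symm
          have hj0 : (j.1.1 : ℕ) ≠ 0 := by
            intro h; simp only [hb, h, if_true] at hj; exact ha0 hj.symm
          have hic : (i.1.1 : ℕ) ≤ c := by
            by_contra h; simp only [hb, h, hi0, if_false] at hi; exact ha1 hi.symm
          have hjc : (j.1.1 : ℕ) ≤ c := by
            by_contra h; simp only [hb, h, hj0, if_false] at hj; exact ha1 hj.symm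
          simp only [hb, hi0, hic, if_true, if_false] at hi
          simp only [hb, hj0, hjc, if_true, if_false] at hj
          have hij : (i.1.1 : ℕ) = j.1.1 := by omega
          rw [Matrix.toSquareBlock_def, Matrix.of_apply, Matrix.submatrix_apply, id, Matrix.neg_apply,
            Matrix.one_apply]
          simp only [hQ, hj0, if_false]
          rw [hA, BM_step (by rw [hπ1, cyc_mid hcN _ hi0 hic]; omega), hπ2]
          have : (i.1.2 = j.1.2) ↔ i = j := by
            rw [Subtype.ext_iff, Prod.ext_iff, Fin.ext_iff (a := i.1.1)]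
            simp [hij]
          simp only [this]
          split_ifs <;> simp
        rw [this, Matrix.det_neg, Matrix.det_one, mul_one, norm_pow, norm_neg, norm_one, one_pow]
    · intro h1
      have : IsEmpty {i // b i = 1} := ⟨fun i => h1 (Finset.mem_image.mpr ⟨i.1, Finset.mem_univ _, i.2⟩)⟩
      rw [Matrix.det_isEmpty, norm_one]
  have hlast : ((Q.submatrix π id).toSquareBlock b 1).det
      = (BM q L (fun x => V (x + ((c : ℤ) + 1, 0)))).det := by
    have hb1 : ∀ x : Fin N × Fin L, b x = 1 ↔ c < (x.1 : ℕ) := by
      intro x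
      have hx := x.1.2
      simp only [hb]
      split_ifs with h1 h2
      · rw [false_iff]; omega
      · omega
      · omega
    let eqv : Fin q × Fin L ≃ {a : Fin N × Fin L // b a = 1} :=
      { toFun := fun p => ⟨(⟨c + 1 + p.1, by omega⟩, p.2), (hb1 _).mpr (by simp only; omega)⟩
        invFun := fun a => (⟨a.1.1 - (c + 1), by
          have := (hb1 _).mp a.2
          have := a.1.1.2
          omega⟩, a.1.2)
        left_inv := by
          intro p
          ext
          · simp
          · simp
        right_inv := by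
          intro a
          have := (hb1 _).mp a.2
          ext
          · simp only; omega
          · simp }
    rw [← Matrix.det_submatrix_equiv_self eqv]
    congr 1
    ext p r
    have hp : ((eqv r).1.1 : ℕ) ≠ 0 := by simp only [eqv, Equiv.coe_fn_mk]; omega
    have hpi : π (eqv p).1 = (eqv p).1 := by
      apply Prod.ext
      · rw [hπ1, cyc_big hcN]
        exact (hb1 _).mp (eqv p).2
      · rfl
    rw [Matrix.submatrix_apply, Matrix.toSquareBlock_def, Matrix.of_apply, Matrix.submatrix_apply,
      id, hpi]
    simp only [hQ, hp, if_false, hA]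
    have hst : ∀ p : Fin q × Fin L, st N L (eqv p).1 = st q L p + ((c : ℤ) + 1, 0) := by
      intro p
      simp only [st, eqv, Equiv.coe_fn_mk, Prod.mk_add_mk, add_zero]
      push_cast
      ring_nf
    unfold BM
    rw [hst p, hst r]
    have hpr : ((eqv p).1 = (eqv r).1) ↔ p = r := by
      rw [← Subtype.ext_iff, eqv.apply_eq_iff_eq]
    simp only [hpr]
    congr 1
    apply Finset.sum_congr rfl
    intro d _
    have : (st q L r + ((c : ℤ) + 1, 0) = st q L p + ((c : ℤ) + 1, 0) + d) ↔ (st q L r = st q L p + d) := by
      constructor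
      · intro h
        have : st q L r + ((c : ℤ) + 1, 0) = (st q L p + d) + ((c : ℤ) + 1, 0) := by rw [h]; abel
        exact add_right_cancel this
      · intro h; rw [h]; abel
    simp only [this]
  rw [← hPdet, ← norm_mul, ← Matrix.det_mul, hAP, ← hnorm, hprod, hlast]

end Pool.Agent.Helper19
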