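import Pool.Agent.Helper19.Dom

set_option autoImplicit false

open MeasureTheory Filter Topology Matrix
open scoped ENNReal NNReal Real

namespace Pool.Agent.Helper19

set_option linter.unusedSectionVars false

section
variable {ι : Type*} [Fintype ι] [DecidableEq ι]

/-- affine change of the potential -/
noncomputable def af (lam : ℝ) (b : ℂ) (v : Site → ℂ) (x : Site) : ℂ := (lam : ℂ) * v x - b

lemma det_maff (lam : ℝ) (b : ℂ) {s : ι → Site} (hs : Function.Injective s) :
    ∃ B : ℝ, 0 ≤ B ∧ MAff (fun v => (CM (NA s) s (af lam b v)).det) (Finset.univ.image s) B := by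
  obtain ⟨B, hB, h⟩ := GM_maff (fun p q => NA s p q - if p = q then b else 0)
    (fun _ => (lam : ℂ)) hs
  refine ⟨B, hB, ?_⟩
  have : (fun v => (GM (fun p q => NA s p q - if p = q then b else 0)
    (fun _ => (lam : ℂ)) s v).det) = (fun v => (CM (NA s) s (af lam b v)).det) := by
    funext v
    congr 1
    ext p q
    unfold GM CM af
    by_cases h : p = q
    · subst h; simp only [if_true]; ring
    · simp only [if_neg h]; ring
  rwa [this] at h

/-- shifted adjacency matrix -/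
noncomputable def NAb (s : ι → Site) (b : ℂ) : Matrix ι ι ℂ :=
  fun p q => NA s p q - if p = q then b else 0

lemma adj_maff (lam : ℝ) (b : ℂ) {s : ι → Site} (hs : Function.Injective s) (i j : ι) :
    ∃ B : ℝ, 0 ≤ B ∧
      MAff (fun v => (CM (NA s) s (af lam b v)).adjugate i j) (Finset.univ.image s) B := by
  obtain ⟨B, hB, h⟩ := GM_maff (Matrix.updateRow (NAb s b) j
    (Pi.single i 1)) (Function.update (fun _ => (lam : ℂ)) j 0) hs
  refine ⟨B, hB, ?_⟩
  have : (fun v => (GM (Matrix.updateRow (NAb s b) j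
    (Pi.single i 1)) (Function.update (fun _ => (lam : ℂ)) j 0) s v).det)
      = (fun v => (CM (NA s) s (af lam b v)).adjugate i j) := by
    funext v
    rw [Matrix.adjugate_apply]
    congr 1
    ext p q
    by_cases hp : p = j
    · subst hp
      simp [GM, Matrix.updateRow_self]
    · rw [Matrix.updateRow_ne hp]
      simp only [GM, Matrix.updateRow_ne hp, Function.update_of_ne hp]
      unfold CM af NAb
      by_cases h : p = q
      · subst h; simp only [if_true]; ring
      · simp only [if_neg h]; ring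
  rwa [this] at h

end

lemma cauchy_le_volume {x0 : ℝ} {γ : ℝ≥0} (hγ : γ ≠ 0) :
    ProbabilityTheory.cauchyMeasure x0 γ ≤ (γ⁻¹ : ℝ≥0) • volume := by
  have hγ0 : 0 < (γ : ℝ) := by
    have := γ.2
    exact lt_of_le_of_ne this (fun h => hγ (NNReal.coe_eq_zero.mp h.symm))
  rw [ProbabilityTheory.cauchyMeasure_of_scale_ne_zero x0 hγ]
  have h1 : ((γ⁻¹ : ℝ≥0) • volume : Measure ℝ) = (((γ⁻¹ : ℝ≥0)) : ℝ≥0∞) • volume := rfl
  rw [h1, ← withDensity_const]
  apply withDensity_mono
  apply Filter.Eventually.of_forall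
  intro t
  unfold ProbabilityTheory.cauchyPDF
  rw [← ENNReal.ofReal_coe_nnreal]
  apply ENNReal.ofReal_le_ofReal
  rw [ProbabilityTheory.cauchyPDFReal_def, NNReal.coe_inv]
  have h2 : 0 < (t - x0) ^ 2 + (γ : ℝ) ^ 2 := by positivity
  have h3 : π⁻¹ ≤ 1 := inv_le_one_of_one_le₀ (by linarith [Real.pi_gt_three])
  have h4 : (γ : ℝ) * ((t - x0) ^ 2 + (γ : ℝ) ^ 2)⁻¹ ≤ (γ : ℝ)⁻¹ := by
    rw [← div_eq_mul_inv, div_le_iff₀ h2, inv_mul_eq_div, le_div_iff₀ hγ0]
    nlinarith [sq_nonneg (t - x0)]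
  calc π⁻¹ * γ * ((t - x0) ^ 2 + (γ : ℝ) ^ 2)⁻¹ = π⁻¹ * (γ * ((t - x0) ^ 2 + (γ : ℝ) ^ 2)⁻¹) := by ring
    _ ≤ 1 * (γ : ℝ)⁻¹ := mul_le_mul h3 h4 (by positivity) (by norm_num)
    _ = _ := one_mul _

section
variable {x0 : ℝ} {γ : ℝ≥0} {lam : ℝ}

/-- complex site potential -/
noncomputable def cz (x0 : ℝ) (γ : ℝ≥0) (lam kap e : ℝ) : ℂ := (lam : ℂ) * zt x0 γ - ((kap + e : ℝ) : ℂ)

lemma cz_im_pos (hγ : γ ≠ 0) (hlam : 0 < lam) (kap e : ℝ) : 0 < (cz x0 γ lam kap e).im := by
  have hγ0 : 0 < (γ : ℝ) := by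
    have := γ.2
    exact lt_of_le_of_ne this (fun h => hγ (NNReal.coe_eq_zero.mp h.symm))
  unfold cz zt
  simp
  positivity

lemma af_real (lam kap e : ℝ) (w : Site → ℝ) :
    af lam ((kap + e : ℝ) : ℂ) (fun x => (w x : ℂ)) = fun x => ((VV lam kap e w x : ℝ) : ℂ) := by
  funext x
  unfold af VV pot
  push_cast
  ring

/-- Jensen inequality for the Green function -/
theorem green_jensen (hγ : γ ≠ 0) (hlam : 0 < lam) (kap e : ℝ) {ι : Type*} [Fintype ι]
    [DecidableEq ι] {s : ι → Site} (hs : Function.Injective s) (i j : ι)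
    (hne : (CM (NA s) s (fun _ => cz x0 γ lam kap e))⁻¹ i j ≠ 0) :
    (∀ᵐ w ∂(iid Site (ProbabilityTheory.cauchyMeasure x0 γ)),
      (RM (NA s) s (VV lam kap e w)).det ≠ 0 ∧ (RM (NA s) s (VV lam kap e w))⁻¹ i j ≠ 0) ∧
    Integrable (fun w => Real.log ‖(RM (NA s) s (VV lam kap e w))⁻¹ i j‖)
      (iid Site (ProbabilityTheory.cauchyMeasure x0 γ)) ∧
    Real.log ‖(CM (NA s) s (fun _ => cz x0 γ lam kap e))⁻¹ i j‖ ≤
      ∫ w, Real.log ‖(RM (NA s) s (VV lam kap e w))⁻¹ i j‖
        ∂(iid Site (ProbabilityTheory.cauchyMeasure x0 γ)) := by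
  set b : ℂ := ((kap + e : ℝ) : ℂ) with hb
  set S := (Finset.univ : Finset ι).image s with hS
  obtain ⟨B1, hB1, hP1⟩ := adj_maff lam b hs i j
  obtain ⟨B2, hB2, hP2⟩ := det_maff lam b hs
  have hzc : (af lam b (fun _ => zt x0 γ)) = fun _ => cz x0 γ lam kap e := rfl
  have hγ0 : 0 < (γ : ℝ) := by
    have := γ.2
    exact lt_of_le_of_ne this (fun h => hγ (NNReal.coe_eq_zero.mp h.symm))
  have hdz : (CM (NA s) s (fun _ => cz x0 γ lam kap e)).det ≠ 0 :=
    CM_ne_zero (NA_hermitian s) (V := 0) (fun x => Or.inr (cz_im_pos hγ hlam kap e))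
      (Or.inr (fun x => cz_im_pos hγ hlam kap e))
  have hinv : ∀ A : Matrix ι ι ℂ, A⁻¹ i j = (A.det)⁻¹ * A.adjugate i j := by
    intro A
    rw [Matrix.inv_def, Ring.inverse_eq_inv', Matrix.smul_apply, smul_eq_mul]
  have haz : (CM (NA s) s (fun _ => cz x0 γ lam kap e)).adjugate i j ≠ 0 := by
    intro h
    apply hne
    rw [hinv, h, mul_zero]
  obtain ⟨a1, a2, a3, _⟩ := maff_main (x0 := x0) hγ hP1 hB1 (by
    rw [hzc]; exact haz) S
  obtain ⟨b1, b2, _, b4⟩ := maff_main (x0 := x0) hγ hP2 hB2 (by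
    rw [hzc]; exact hdz) S
  have hmix : ∀ w : Site → ℝ, ∀ x ∈ S, mix S (zt x0 γ) w x = (w x : ℂ) := by
    intro w x hx
    unfold mix
    rw [if_pos hx]
  have hRM : ∀ w : Site → ℝ, RM (NA s) s (VV lam kap e w)
      = CM (NA s) s (af lam b (fun x => (w x : ℂ))) := by
    intro w
    rw [RM_eq_CM, hb, af_real]
  have e1 : ∀ w : Site → ℝ, (CM (NA s) s (af lam b (mix S (zt x0 γ) w))).adjugate i j
      = (RM (NA s) s (VV lam kap e w)).adjugate i j := by
    intro w
    rw [hRM]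
    exact hP1.dep _ _ (hmix w)
  have e2 : ∀ w : Site → ℝ, (CM (NA s) s (af lam b (mix S (zt x0 γ) w))).det
      = (RM (NA s) s (VV lam kap e w)).det := by
    intro w
    rw [hRM]
    exact hP2.dep _ _ (hmix w)
  simp only [e1] at a1 a2 a3
  simp only [e2] at b1 b2 b4
  have b5 := b4 (by
    intro U x _
    filter_upwards [b1] with w hw z hz
    apply CM_ne_zero (NA_hermitian s) (V := VV lam kap e w) _ (Or.inl hw)
    intro y
    unfold af
    by_cases hy : y = x
    · subst hy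
      right
      rw [Function.update_self, hb]
      simp
      positivity
    · rw [Function.update_of_ne hy]
      unfold mix
      split_ifs
      · left
        unfold VV pot
        rw [hb]
        push_cast
        ring
      · right
        rw [hb]
        unfold zt
        simp
        positivity)
  rw [hzc] at a3 b5
  have hlog : ∀ᵐ w ∂(iid Site (ProbabilityTheory.cauchyMeasure x0 γ)),
      Real.log ‖(RM (NA s) s (VV lam kap e w)).adjugate i j‖
        - Real.log ‖(RM (NA s) s (VV lam kap e w)).det‖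
        = Real.log ‖(RM (NA s) s (VV lam kap e w))⁻¹ i j‖ := by
    filter_upwards [a1, b1] with w h1 h2
    rw [hinv, norm_mul, norm_inv, Real.log_mul (inv_ne_zero (norm_ne_zero_iff.mpr h2))
      (norm_ne_zero_iff.mpr h1), Real.log_inv]
    ring
  refine ⟨?_, (a2.sub b2).congr hlog, ?_⟩
  · filter_upwards [a1, b1] with w h1 h2
    refine ⟨h2, ?_⟩
    rw [hinv]
    exact mul_ne_zero (inv_ne_zero h2) h1
  · rw [← integral_congr_ae hlog, integral_sub a2 b2, b5, hinv, norm_mul, norm_inv,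
      Real.log_mul (inv_ne_zero (norm_ne_zero_iff.mpr hdz)) (norm_ne_zero_iff.mpr haz), Real.log_inv]
    linarith

end

end Pool.Agent.Helper19
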