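import Pool.Agent.Helper19.Lloyd

set_option autoImplicit false

open MeasureTheory Filter Topology Matrix
open scoped ENNReal NNReal Real

namespace Pool.Agent.Helper19

/-- inclusion of the diamond -/
def inc (R : ℕ) (p : ↥(dmd R)) : Site := (p : Site)

lemma inc_injective (R : ℕ) : Function.Injective (inc R) := Subtype.val_injective

/-- the origin -/
noncomputable def org (R : ℕ) : ↥(dmd R) := ⟨0, mem_dmd.mpr (by simp [nrm])⟩

lemma inc_org (R : ℕ) : inc R (org R) = 0 := rfl

lemma norm_bdy_le {R : ℕ} {u : Site → ℂ} {c : ℝ} (hc : 0 ≤ c)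
    (hu : ∀ y, (R : ℝ) + 1 ≤ nrm y → nrm y ≤ R + 1 → ‖u y‖ ≤ c) (p : ↥(dmd R)) :
    ‖bdy (inc R) u p‖ ≤ 4 * c := by
  classical
  unfold bdy
  refine (norm_sum_le _ _).trans ?_
  have h1 : ∀ d ∈ dirs, ‖(if ∃ q, inc R q = inc R p + d then 0 else u (inc R p + d))‖ ≤ c := by
    intro d hd
    split_ifs with h
    · rw [norm_zero]; exact hc
    · have := dmd_bdy hd h
      exact hu _ this.1 this.2.1
  refine (Finset.sum_le_sum h1).trans ?_
  rw [Finset.sum_const, nsmul_eq_mul]
  have : (dirs.card : ℝ) ≤ 4 := by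
    have : dirs.card ≤ 4 := by
      unfold dirs
      exact Finset.card_le_four
    exact_mod_cast this
  exact mul_le_mul_of_nonneg_right this hc

lemma bdy_eq_zero {R : ℕ} {u : Site → ℂ} {p : ↥(dmd R)} (hp : nrm (p : Site) < R) :
    bdy (inc R) u p = 0 := by
  classical
  unfold bdy
  apply Finset.sum_eq_zero
  intro d hd
  rw [if_pos]
  by_contra h
  have := dmd_bdy hd h
  linarith [this.2.2]

lemma card_pos_dmd (R : ℕ) : 0 < Fintype.card ↥(dmd R) := Fintype.card_pos_iff.mpr ⟨org R⟩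

/-- deterministic bound of a boundary entry of the inverse -/
lemma entry_bound {R : ℕ} {m k : ℝ} (hm : 0 ≤ m) {V : Site → ℝ}
    (hdet : (RM (NA (inc R)) (inc R) V).det ≠ 0) {u : Site → ℂ} (hu : Dec m k 0 u)
    (hS : Sol V 0 u (dl 0)) {p : ↥(dmd R)} (hp : (R : ℝ) ≤ nrm (p : Site)) :
    ‖(RM (NA (inc R)) (inc R) V)⁻¹ p (org R)‖ ≤ 5 * k * Real.exp (-(m * R)) *
      (Real.sqrt (Fintype.card ↥(dmd R)) * Real.sqrt (1 + fro (RM (NA (inc R)) (inc R) V)⁻¹)) := by
  have hk := hu.nonneg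
  set A := RM (NA (inc R)) (inc R) V with hA
  set n : ℝ := (Fintype.card ↥(dmd R) : ℝ) with hn
  have hn1 : 1 ≤ n := by
    have := card_pos_dmd R
    rw [hn]; exact_mod_cast this
  set F := 1 + fro A⁻¹ with hF
  have hF1 : 1 ≤ F := by have := fro_nonneg A⁻¹; linarith
  set E := k * Real.exp (-(m * R)) with hE
  have hE0 : 0 ≤ E := by positivity
  have hcol := inv_col (s := inc R) (inc_injective R) (v := fun x => ((V x : ℝ) : ℂ)) (u := u)
    (o := org R) hdet (fun x => by
      have := hS x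
      rw [sub_zero] at this
      exact this) p
  have hdec : ∀ y : Site, (R : ℝ) ≤ nrm y → ‖u y‖ ≤ E := by
    intro y hy
    refine (hu y).trans ?_
    rw [sub_zero, hE]
    apply mul_le_mul_of_nonneg_left _ hk
    apply Real.exp_le_exp.mpr
    nlinarith
  have h1 : ‖u (inc R p)‖ ≤ E := hdec _ hp
  have h2 : ∀ q, ‖bdy (inc R) u q‖ ≤ 4 * E := fun q =>
    norm_bdy_le hE0 (fun y hy _ => hdec y (by linarith)) q
  have h3 : ‖∑ q, A⁻¹ p q * bdy (inc R) u q‖ ≤ (∑ q, ‖A⁻¹ p q‖) * (4 * E) := by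
    refine (norm_sum_le _ _).trans ?_
    rw [Finset.sum_mul]
    apply Finset.sum_le_sum
    intro q _
    rw [norm_mul]
    exact mul_le_mul_of_nonneg_left (h2 q) (norm_nonneg _)
  have h4 : ∑ q, ‖A⁻¹ p q‖ ≤ Real.sqrt n * Real.sqrt F := by
    rw [← Real.sqrt_mul (by linarith)]
    apply Real.le_sqrt_of_sq_le
    have h5 := sq_sum_le_card_mul_sum_sq (s := (Finset.univ : Finset ↥(dmd R)))
      (f := fun q => ‖A⁻¹ p q‖)
    rw [Finset.card_univ] at h5
    refine h5.trans ?_
    apply mul_le_mul_of_nonneg_left _ (by linarith)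
    have h6 : ∑ q, ‖A⁻¹ p q‖ ^ 2 ≤ fro A⁻¹ := by
      unfold fro
      exact Finset.single_le_sum (f := fun p => ∑ q, ‖A⁻¹ p q‖ ^ 2) (fun i _ => by positivity)
        (Finset.mem_univ p)
    linarith
  have h5 : 1 ≤ Real.sqrt n * Real.sqrt F := by
    rw [← Real.sqrt_mul (by linarith)]
    apply Real.le_sqrt_of_sq_le
    nlinarith
  rw [RM_eq_CM] at hA
  rw [hA] at h3 h4 ⊢
  rw [hcol]
  refine (norm_sub_le _ _).trans ?_
  have h6 := mul_le_mul_of_nonneg_right h4 (by positivity : 0 ≤ 4 * E)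
  have h7 := mul_le_mul_of_nonneg_right h5 hE0
  have h8 : 5 * k * Real.exp (-(m * R)) = 5 * E := by rw [hE]; ring
  rw [h8]
  linarith

lemma entry_sq_le_fro {ι : Type*} [Fintype ι] (A : Matrix ι ι ℂ) (p q : ι) :
    ‖A p q‖ ^ 2 ≤ fro A := by
  unfold fro
  refine le_trans ?_ (Finset.single_le_sum (f := fun p => ∑ q, ‖A p q‖ ^ 2)
    (fun i _ => by positivity) (Finset.mem_univ p))
  exact Finset.single_le_sum (f := fun q => ‖A p q‖ ^ 2) (fun i _ => by positivity) (Finset.mem_univ q)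

/-- finite volume estimate of the complex Green function -/
theorem lloyd_fv {x0 : ℝ} {γ : ℝ≥0} (hγ : γ ≠ 0) {lam : ℝ} (hlam : 0 < lam) (kap e : ℝ) {m k : ℝ}
    (hm : 0 ≤ m) (hk : 1 ≤ k) (R : ℕ) {p : ↥(dmd R)} (hp : (R : ℝ) ≤ nrm (p : Site)) :
    ‖(CM (NA (inc R)) (inc R) (fun _ => cz x0 γ lam kap e))⁻¹ p (org R)‖ ≤
      Real.exp (Real.log (5 * k) + 5 / 2 * Real.log (Fintype.card ↥(dmd R)) + 2
        + 4 * (γ : ℝ)⁻¹ / lam
        - m * R * (iid Site (ProbabilityTheory.cauchyMeasure x0 γ)).real (CS lam kap e m k 0)) := by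
  classical
  by_cases hne : (CM (NA (inc R)) (inc R) (fun _ => cz x0 γ lam kap e))⁻¹ p (org R) = 0
  · rw [hne, norm_zero]; positivity
  set μ := ProbabilityTheory.cauchyMeasure x0 γ with hμ
  set n : ℝ := (Fintype.card ↥(dmd R) : ℝ) with hn
  have hn1 : 1 ≤ n := by
    have := card_pos_dmd R
    rw [hn]; exact_mod_cast this
  obtain ⟨j1, j2, j3⟩ := green_jensen (x0 := x0) hγ hlam kap e (inc_injective R) p (org R) hne
  obtain ⟨g1, g2⟩ := gwegner (cauchy_le_volume (x0 := x0) hγ) hlam (NA_hermitian (inc R))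
    (inc_injective R) (card_pos_dmd R) kap e
  rw [← hμ] at j1 j2 j3 g1 g2
  set A : (Site → ℝ) → Matrix ↥(dmd R) ↥(dmd R) ℂ := fun w => RM (NA (inc R)) (inc R) (VV lam kap e w)
    with hA
  have hLFm : Measurable (fun w => Real.log (1 + fro (A w)⁻¹)) :=
    Real.measurable_log.comp (measurable_const.add (measurable_fro_inv_g (NA (inc R)) (inc R) lam kap e))
  have hLF0 : ∀ w, 0 ≤ Real.log (1 + fro (A w)⁻¹) := fun w => by
    apply Real.log_nonneg
    have := fro_nonneg (A w)⁻¹
    linarith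
  have hLFi : Integrable (fun w => Real.log (1 + fro (A w)⁻¹)) (iid Site μ) := by
    refine ⟨hLFm.aestronglyMeasurable, ?_⟩
    rw [hasFiniteIntegral_iff_ofReal (Filter.Eventually.of_forall hLF0)]
    exact lt_of_le_of_lt g2 ENNReal.ofReal_lt_top
  have hW0 : 0 ≤ 4 * Real.log n + 4 + 8 * (γ : ℝ)⁻¹ / lam := by
    have := Real.log_nonneg hn1
    have h2 : 0 ≤ (γ : ℝ)⁻¹ := by positivity
    positivity
  have hLFle : ∫ w, Real.log (1 + fro (A w)⁻¹) ∂(iid Site μ)
      ≤ 4 * Real.log n + 4 + 8 * (γ : ℝ)⁻¹ / lam := by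
    rw [integral_eq_lintegral_of_nonneg_ae (Filter.Eventually.of_forall hLF0) hLFm.aestronglyMeasurable]
    apply ENNReal.toReal_le_of_le_ofReal hW0
    rw [hn]
    simpa using g2
  have hms := measurableSet_CS lam kap e m k 0
  set ind : (Site → ℝ) → ℝ := (CS lam kap e m k 0).indicator (fun _ => (1 : ℝ)) with hind
  have hindi : Integrable ind (iid Site μ) := (integrable_const 1).indicator hms
  have hindv : ∫ w, ind w ∂(iid Site μ) = (iid Site μ).real (CS lam kap e m k 0) := by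
    rw [hind, integral_indicator hms, setIntegral_const, smul_eq_mul, mul_one]
  have hpt : ∀ᵐ w ∂(iid Site μ), Real.log ‖(A w)⁻¹ p (org R)‖ ≤
      (Real.log (5 * k) + 1 / 2 * Real.log n) + (1 / 2 * Real.log (1 + fro (A w)⁻¹)
        - m * R * ind w) := by
    filter_upwards [j1] with w hw
    obtain ⟨hw1, hw2⟩ := hw
    have hpos : 0 < ‖(A w)⁻¹ p (org R)‖ := norm_pos_iff.mpr hw2
    set F := 1 + fro (A w)⁻¹ with hF
    have hF1 : 1 ≤ F := by have := fro_nonneg (A w)⁻¹; linarith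
    have hlF : Real.log (Real.sqrt F) = 1 / 2 * Real.log F := by
      rw [Real.log_sqrt (by linarith)]; ring
    have hln : Real.log (Real.sqrt n) = 1 / 2 * Real.log n := by
      rw [Real.log_sqrt (by linarith)]; ring
    have hsn : 0 < Real.sqrt n := Real.sqrt_pos.mpr (by linarith)
    have hsF : 0 < Real.sqrt F := Real.sqrt_pos.mpr (by linarith)
    by_cases hc : w ∈ CS lam kap e m k 0
    · obtain ⟨u, hu, hS⟩ := id hc
      have h1 := entry_bound hm hw1 hu hS hp
      have h2 := Real.log_le_log hpos h1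
      rw [Real.log_mul (by positivity) (by positivity), Real.log_mul (by positivity) (by positivity),
        Real.log_mul hsn.ne' hsF.ne', Real.log_exp] at h2
      rw [hind, Set.indicator_of_mem hc, mul_one]
      rw [hln] at h2
      rw [hlF] at h2
      linarith
    · rw [hind, Set.indicator_of_notMem hc, mul_zero, sub_zero]
      have h1 : ‖(A w)⁻¹ p (org R)‖ ≤ Real.sqrt F := by
        apply Real.le_sqrt_of_sq_le
        have := entry_sq_le_fro (A w)⁻¹ p (org R)
        linarith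
      have h2 := Real.log_le_log hpos h1
      rw [hlF] at h2
      have h3 : 0 ≤ Real.log (5 * k) := Real.log_nonneg (by linarith)
      have h4 := Real.log_nonneg hn1
      linarith
  have hfin : ∫ w, Real.log ‖(A w)⁻¹ p (org R)‖ ∂(iid Site μ) ≤
      (Real.log (5 * k) + 1 / 2 * Real.log n) + (1 / 2 * (4 * Real.log n + 4 + 8 * (γ : ℝ)⁻¹ / lam)
        - m * R * (iid Site μ).real (CS lam kap e m k 0)) := by
    have hsub : Integrable (fun w => 1 / 2 * Real.log (1 + fro (A w)⁻¹) - m * R * ind w) (iid Site μ) :=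
      (hLFi.const_mul (1 / 2)).sub (hindi.const_mul (m * R))
    have hadd : Integrable (fun w => (Real.log (5 * k) + 1 / 2 * Real.log n)
        + (1 / 2 * Real.log (1 + fro (A w)⁻¹) - m * R * ind w)) (iid Site μ) :=
      (integrable_const _).add hsub
    refine (integral_mono_ae j2 hadd hpt).trans ?_
    rw [integral_add (integrable_const _) hsub,
      integral_sub (hLFi.const_mul (1 / 2)) (hindi.const_mul (m * R)), integral_const_mul,
      integral_const_mul, hindv]
    simp only [integral_const, measure_univ, Measure.real, ENNReal.toReal_one, one_smul]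
    unfold Measure.real at *
    linarith
  have h5 := j3.trans hfin
  have hpos : 0 < ‖(CM (NA (inc R)) (inc R) (fun _ => cz x0 γ lam kap e))⁻¹ p (org R)‖ :=
    norm_pos_iff.mpr hne
  rw [← Real.exp_log hpos]
  apply Real.exp_le_exp.mpr
  refine h5.trans_eq ?_
  ring

end Pool.Agent.Helper19
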