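import Pool.Agent.Helper19.Lloyd2
import Pool.Agent.Helper19.Exist

set_option autoImplicit false

open MeasureTheory Filter Topology Matrix
open scoped ENNReal NNReal Real

namespace Pool.Agent.Helper19

/-- complex plane wave -/
noncomputable def cw (k1 k2 : ℂ) (x : Site) : ℂ :=
  Complex.exp (Complex.I * (k1 * x.1 + k2 * x.2))

lemma adj_cw (k1 k2 : ℂ) (x : Site) :
    adj (cw k1 k2) x = (2 * Complex.cos k1 + 2 * Complex.cos k2) * cw k1 k2 x := by
  have h1 : ∀ a b : ℤ, cw k1 k2 (x.1 + a, x.2 + b)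
      = cw k1 k2 x * (Complex.exp (Complex.I * (k1 * a)) * Complex.exp (Complex.I * (k2 * b))) := by
    intro a b
    unfold cw
    rw [← Complex.exp_add, ← Complex.exp_add]
    congr 1
    push_cast; ring
  have hc : ∀ k : ℂ, 2 * Complex.cos k = Complex.exp (Complex.I * k) + Complex.exp (-(Complex.I * k)) := by
    intro k
    rw [Complex.cos]
    rw [show -k * Complex.I = -(Complex.I * k) by ring, show k * Complex.I = Complex.I * k by ring]
    ring
  unfold adj
  have e1 := h1 1 0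
  have e2 := h1 (-1) 0
  have e3 := h1 0 1
  have e4 := h1 0 (-1)
  simp only [Int.cast_one, Int.cast_zero, Int.cast_neg, mul_one, mul_zero, Complex.exp_zero,
    one_mul, mul_neg, add_zero, ← sub_eq_add_neg] at e1 e2 e3 e4
  rw [e1, e2, e3, e4, hc, hc]
  ring

lemma norm_cw_le {k1 k2 : ℂ} {κ : ℝ} (h1 : |k1.im| ≤ κ) (h2 : |k2.im| ≤ κ) (x : Site) :
    ‖cw k1 k2 x‖ ≤ Real.exp (κ * nrm x) := by
  unfold cw
  rw [Complex.norm_exp]
  apply Real.exp_le_exp.mpr
  have h3 : (Complex.I * (k1 * (x.1 : ℂ) + k2 * (x.2 : ℂ))).re = -(k1.im * (x.1 : ℝ) + k2.im * (x.2 : ℝ)) := by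
    simp [Complex.mul_re, Complex.mul_im, Complex.add_re]
  rw [h3]
  unfold nrm
  push_cast
  have a1 := neg_abs_le (k1.im * (x.1 : ℝ))
  have a2 := neg_abs_le (k2.im * (x.2 : ℝ))
  rw [abs_mul] at a1 a2
  have b1 := mul_le_mul_of_nonneg_right h1 (abs_nonneg (x.1 : ℝ))
  have b2 := mul_le_mul_of_nonneg_right h2 (abs_nonneg (x.2 : ℝ))
  nlinarith

lemma cw_zero (k1 k2 : ℂ) : cw k1 k2 0 = 1 := by
  simp [cw]

/-- finite volume inequality -/
lemma lloyd_ineq {x0 : ℝ} {γ : ℝ≥0} (hγ : γ ≠ 0) {lam : ℝ} (hlam : 0 < lam) {kap e : ℝ} {m k : ℝ}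
    (hm : 0 ≤ m) (hk : 1 ≤ k) {k1 k2 : ℂ} (hk12 : 2 * Complex.cos k1 + 2 * Complex.cos k2
      = cz x0 γ lam kap e) {κ : ℝ} (h1 : |k1.im| ≤ κ) (h2 : |k2.im| ≤ κ) (R : ℕ) :
    m * R * (iid Site (ProbabilityTheory.cauchyMeasure x0 γ)).real (CS lam kap e m k 0)
      ≤ (Real.log (5 * k) + 2 + 4 * (γ : ℝ)⁻¹ / lam + Real.log 4 + κ)
        + 7 * Real.log (2 * R + 1) + κ * R := by
  have hκ : 0 ≤ κ := (abs_nonneg _).trans h1
  set n : ℝ := (Fintype.card ↥(dmd R) : ℝ) with hn
  have hn1 : 1 ≤ n := by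
    have := card_pos_dmd R
    rw [hn]; exact_mod_cast this
  have hn2 : n ≤ (2 * (R : ℝ) + 1) ^ 2 := by
    have := card_dmd_le R
    rw [hn, Fintype.card_coe]
    exact_mod_cast this
  set P := (iid Site (ProbabilityTheory.cauchyMeasure x0 γ)).real (CS lam kap e m k 0) with hP
  set C0 := Real.log (5 * k) + 5 / 2 * Real.log n + 2 + 4 * (γ : ℝ)⁻¹ / lam - m * R * P with hC0
  set A := CM (NA (inc R)) (inc R) (fun _ => cz x0 γ lam kap e) with hA
  have hdz : A.det ≠ 0 := CM_ne_zero (NA_hermitian (inc R)) (V := 0)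
    (fun x => Or.inr (cz_im_pos hγ hlam kap e)) (Or.inr (fun x => cz_im_pos hγ hlam kap e))
  have hhom := inv_hom (s := inc R) (inc_injective R) (v := fun _ => cz x0 γ lam kap e)
    (u := cw k1 k2) hdz (fun x => by rw [adj_cw, hk12, sub_self]) (org R)
  rw [inc_org, cw_zero] at hhom
  have hsym : ∀ q, A⁻¹ (org R) q = A⁻¹ q (org R) := by
    intro q
    have h3 : (A⁻¹)ᵀ = A⁻¹ := by
      rw [Matrix.transpose_nonsing_inv, hA, CM_symm]
    conv_lhs => rw [← h3]
    rfl
  have hterm : ∀ q : ↥(dmd R), ‖A⁻¹ (org R) q * bdy (inc R) (cw k1 k2) q‖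
      ≤ Real.exp C0 * (4 * Real.exp (κ * (R + 1))) := by
    intro q
    by_cases hq : nrm (q : Site) < R
    · rw [bdy_eq_zero hq, mul_zero, norm_zero]; positivity
    · rw [not_lt] at hq
      rw [norm_mul, hsym]
      apply mul_le_mul _ _ (norm_nonneg _) (Real.exp_pos _).le
      · exact lloyd_fv (x0 := x0) hγ hlam kap e hm hk R hq
      · apply norm_bdy_le (Real.exp_pos _).le
        intro y _ hy
        refine (norm_cw_le h1 h2 y).trans ?_
        apply Real.exp_le_exp.mpr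
        exact mul_le_mul_of_nonneg_left hy hκ
  have h3 : (1 : ℝ) ≤ n * (Real.exp C0 * (4 * Real.exp (κ * (R + 1)))) := by
    have h4 := congrArg norm hhom
    rw [norm_one] at h4
    refine h4.le.trans ((norm_sum_le _ _).trans ((Finset.sum_le_sum (fun q _ => hterm q)).trans_eq ?_))
    rw [Finset.sum_const, Finset.card_univ, nsmul_eq_mul]
  have h4 := Real.log_le_log one_pos h3
  rw [Real.log_one, Real.log_mul (by positivity) (by positivity), Real.log_mul (by positivity)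
    (by positivity), Real.log_mul (by norm_num) (by positivity), Real.log_exp, Real.log_exp] at h4
  have h5 : Real.log n ≤ 2 * Real.log (2 * R + 1) := by
    have := Real.log_le_log (by linarith) hn2
    rw [Real.log_pow] at this
    exact_mod_cast this
  have h6 := Real.log_nonneg hn1
  rw [hC0] at h4
  nlinarith

/-- the rate is at most the decay rate of the averaged Green function -/
theorem lloyd_rate {x0 : ℝ} {γ : ℝ≥0} (hγ : γ ≠ 0) {lam : ℝ} (hlam : 0 < lam) {kap e : ℝ} {m : ℝ}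
    (hm : 0 ≤ m) {k1 k2 : ℂ} (hk12 : 2 * Complex.cos k1 + 2 * Complex.cos k2
      = cz x0 γ lam kap e) {κ : ℝ} (h1 : |k1.im| ≤ κ) (h2 : |k2.im| ≤ κ)
    (hAG : (iid Site (ProbabilityTheory.cauchyMeasure x0 γ)) (AllGood lam kap m e) = 1) :
    m ≤ κ := by
  have key : ∀ k : ℕ, m * (iid Site (ProbabilityTheory.cauchyMeasure x0 γ)).real
      (CS lam kap e m (k + 1) 0) ≤ κ := by
    intro k
    set P := (iid Site (ProbabilityTheory.cauchyMeasure x0 γ)).real (CS lam kap e m (k + 1) 0) with hP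
    set C := Real.log (5 * ((k : ℝ) + 1)) + 2 + 4 * (γ : ℝ)⁻¹ / lam + Real.log 4 + κ with hC
    have hin : ∀ R : ℕ, 1 ≤ R → m * P ≤ C * (R : ℝ)⁻¹ + 21 * (Real.log (2 * R + 1) / (2 * R + 1)) + κ := by
      intro R hR
      have h3 := lloyd_ineq (x0 := x0) hγ hlam hm (by
        have : (0 : ℝ) ≤ k := Nat.cast_nonneg k
        linarith : (1 : ℝ) ≤ (k : ℝ) + 1) hk12 h1 h2 R
      have hR0 : (1 : ℝ) ≤ R := by exact_mod_cast hR
      have hRp : (0 : ℝ) < R := by linarith
      rw [← hP, ← hC] at h3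
      have h4 : m * P = (m * R * P) * (R : ℝ)⁻¹ := by field_simp
      have h5 := mul_le_mul_of_nonneg_right h3 (inv_nonneg.mpr hRp.le)
      rw [h4]
      refine h5.trans ?_
      have hl : 0 ≤ Real.log (2 * R + 1) := Real.log_nonneg (by linarith)
      have h6 : 7 * Real.log (2 * R + 1) * (R : ℝ)⁻¹ ≤ 21 * (Real.log (2 * R + 1) / (2 * R + 1)) := by
        rw [div_eq_mul_inv]
        have h7 : (R : ℝ)⁻¹ ≤ 3 * (2 * (R : ℝ) + 1)⁻¹ := by
          rw [inv_le_comm₀ hRp (by positivity)]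
          rw [mul_inv, inv_inv]
          linarith
        nlinarith
      have h8 : κ * R * (R : ℝ)⁻¹ = κ := by field_simp
      calc (C + 7 * Real.log (2 * R + 1) + κ * R) * (R : ℝ)⁻¹
          = C * (R : ℝ)⁻¹ + 7 * Real.log (2 * R + 1) * (R : ℝ)⁻¹ + κ * R * (R : ℝ)⁻¹ := by ring
        _ ≤ _ := by rw [h8]; linarith
    have hlim : Tendsto (fun R : ℕ => C * (R : ℝ)⁻¹ + 21 * (Real.log (2 * (R : ℝ) + 1) / (2 * (R : ℝ) + 1)) + κ)
        atTop (𝓝 (C * 0 + 21 * 0 + κ)) := by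
      have t1 : Tendsto (fun R : ℕ => ((R : ℝ))⁻¹) atTop (𝓝 0) :=
        tendsto_inv_atTop_zero.comp tendsto_natCast_atTop_atTop
      have t2 : Tendsto (fun R : ℕ => (2 * (R : ℝ) + 1)) atTop atTop := by
        apply tendsto_atTop_mono (f := fun i : ℕ => (i : ℝ))
        · intro i
          have : (0 : ℝ) ≤ i := Nat.cast_nonneg i
          linarith
        · exact tendsto_natCast_atTop_atTop
      have t3 : Tendsto (fun x : ℝ => Real.log x / x) atTop (𝓝 0) := by
        have := Real.tendsto_pow_log_div_mul_add_atTop 1 0 1 one_ne_zero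
        simpa using this
      have t4 := t3.comp t2
      exact ((t1.const_mul C).add (t4.const_mul 21)).add_const κ
    have h9 : m * P ≤ C * 0 + 21 * 0 + κ := by
      apply ge_of_tendsto hlim
      filter_upwards [eventually_ge_atTop 1] with R hR
      exact hin R hR
    linarith
  have h3 := (tendsto_CS hAG).const_mul m
  rw [mul_one] at h3
  exact le_of_tendsto' h3 key

end Pool.Agent.Helper19
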