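import Pool.Agent.Helper19.Lloyd3
import Pool.Agent.Helper19.Exist2

set_option autoImplicit false

open MeasureTheory Filter Topology Matrix
open scoped ENNReal NNReal Real

namespace Pool.Agent.Helper19

/-- points inside the ellipse are attained by the cosine in the strip -/
lemma exists_cos {c : ℂ} {m : ℝ} (hm : 0 < m)
    (h : (c.re / (4 * Real.cosh m)) ^ 2 + (c.im / (4 * Real.sinh m)) ^ 2 < 1) :
    ∃ k : ℂ, 4 * Complex.cos k = c ∧ |k.im| < m := by
  obtain ⟨k, hk⟩ := Complex.cos_surjective (c / 4)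
  refine ⟨k, by rw [hk]; ring, ?_⟩
  by_contra hcon
  rw [not_lt] at hcon
  have hre : c.re = 4 * (Real.cos k.re * Real.cosh k.im) := by
    have : c = 4 * Complex.cos k := by rw [hk]; ring
    rw [this, ← Complex.re_add_im k, Complex.cos_add_mul_I]
    simp [Complex.cos_ofReal_re, Complex.cosh_ofReal_re, Complex.cos_ofReal_im, Complex.sin_ofReal_im,
      Complex.sinh_ofReal_im, Complex.cosh_ofReal_im, Complex.mul_re, Complex.mul_im]
  have him : c.im = -(4 * (Real.sin k.re * Real.sinh k.im)) := by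
    have : c = 4 * Complex.cos k := by rw [hk]; ring
    rw [this, ← Complex.re_add_im k, Complex.cos_add_mul_I]
    simp [Complex.cos_ofReal_re, Complex.cosh_ofReal_re, Complex.cos_ofReal_im, Complex.sin_ofReal_im,
      Complex.sinh_ofReal_im, Complex.cosh_ofReal_im, Complex.sin_ofReal_re, Complex.sinh_ofReal_re,
      Complex.mul_re, Complex.mul_im]
  have hs : 0 < Real.sinh m := Real.sinh_pos_iff.mpr hm
  have hc : 0 < Real.cosh m := Real.cosh_pos m
  have h1 : Real.cosh m ^ 2 ≤ Real.cosh k.im ^ 2 := by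
    have := Real.cosh_le_cosh.mpr (by rw [abs_of_pos hm]; exact hcon : |m| ≤ |k.im|)
    exact pow_le_pow_left₀ hc.le this 2
  have h2 : Real.sinh m ^ 2 ≤ Real.sinh k.im ^ 2 := by
    have e1 := Real.cosh_sq m
    have e2 := Real.cosh_sq k.im
    linarith
  have h3 : Real.cos k.re ^ 2 ≤ (c.re / (4 * Real.cosh m)) ^ 2 := by
    rw [hre, div_pow, le_div_iff₀ (by positivity)]
    nlinarith [sq_nonneg (Real.cos k.re)]
  have h4 : Real.sin k.re ^ 2 ≤ (c.im / (4 * Real.sinh m)) ^ 2 := by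
    rw [him, div_pow, le_div_iff₀ (by positivity)]
    nlinarith [sq_nonneg (Real.sin k.re)]
  have h5 := Real.sin_sq_add_cos_sq k.re
  linarith

/-- stability under small energy changes -/
lemma exists_cos_near {k : ℂ} {m : ℝ} (hk : |k.im| < m) :
    ∃ δ : ℝ, 0 < δ ∧ ∀ e : ℝ, |e| ≤ δ → ∃ k1 : ℂ, |k1.im| < m ∧
      Complex.cos k1 = Complex.cos k - e / 2 := by
  set S : Set ℂ := {z | |z.im| < m} with hS
  have hSo : IsOpen S := isOpen_lt (Complex.continuous_im.abs) continuous_const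
  have han : AnalyticOnNhd ℂ Complex.cos Set.univ := fun z _ =>
    (Complex.differentiable_cos.analyticAt z)
  have hop : IsOpen (Complex.cos '' S) := by
    rcases han.is_constant_or_isOpen isPreconnected_univ with h | h
    · exfalso
      obtain ⟨w, hw⟩ := h
      have h0 := hw 0 (Set.mem_univ _)
      have h1 := hw Real.pi (Set.mem_univ _)
      rw [Complex.cos_zero] at h0
      rw [Complex.cos_pi, ← h0] at h1
      norm_num at h1
    · exact h S (Set.subset_univ _) hSo
  have hmem : Complex.cos k ∈ Complex.cos '' S := ⟨k, hk, rfl⟩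
  obtain ⟨ε, hε, hball⟩ := Metric.isOpen_iff.mp hop _ hmem
  refine ⟨ε, hε, fun e he => ?_⟩
  have : Complex.cos k - e / 2 ∈ Metric.ball (Complex.cos k) ε := by
    rw [Metric.mem_ball, dist_eq_norm]
    have h1 : Complex.cos k - (e : ℂ) / 2 - Complex.cos k = -((e / 2 : ℝ) : ℂ) := by
      push_cast; ring
    rw [h1, norm_neg, Complex.norm_real, Real.norm_eq_abs, abs_div, abs_two]
    linarith
  obtain ⟨k1, h1, h2⟩ := hball this
  exact ⟨k1, h1, h2⟩

lemma volume_ac_cauchy {x0 : ℝ} {γ : ℝ≥0} (hγ : γ ≠ 0) :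
    (volume : Measure ℝ) ≪ ProbabilityTheory.cauchyMeasure x0 γ := by
  rw [ProbabilityTheory.cauchyMeasure_of_scale_ne_zero x0 hγ]
  apply withDensity_absolutelyContinuous' (by fun_prop)
  apply Filter.Eventually.of_forall
  intro t
  unfold ProbabilityTheory.cauchyPDF
  have := ProbabilityTheory.cauchyPDF_pos x0 hγ t
  exact (ENNReal.ofReal_pos.mpr this).ne'

theorem lloyd_main {x0 : ℝ} {γ : ℝ≥0} (hγ : γ ≠ 0) {lam : ℝ} (hlam : 0 < lam) {kap : ℝ} {m : ℝ}
    (hm : 0 < m) {δ : ℝ} (hδ : 0 < δ)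
    (hell : ((lam * x0 - kap) / (4 * Real.cosh m)) ^ 2
      + (lam * γ / (4 * Real.sinh m)) ^ 2 < 1)
    (H : ¬ ∀ᵐ w ∂(iid Site (ProbabilityTheory.cauchyMeasure x0 γ)),
      ¬ ((∀ (ψ : Site → ℂ) (e : ℝ), L2 ψ → |e| < δ →
        Sol (pot lam kap w) e ψ 0 → Cm m ψ) ∧ Complete (pot lam kap w))) :
    False := by
  set μ := ProbabilityTheory.cauchyMeasure x0 γ with hμ
  have hac : μ ≪ volume :=
    Measure.absolutelyContinuous_of_le_smul (c := ((γ⁻¹ : ℝ≥0) : ℝ≥0∞)) (cauchy_le_volume (x0 := x0) hγ)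
  have hns : NullSingletonClass μ := ⟨fun x => hac (measure_singleton x)⟩
  have H3 : μ {t | |lam * t - kap| ≤ 4} ≠ 0 := by
    intro h0
    have h1 := volume_ac_cauchy (x0 := x0) hγ h0
    have h2 : Set.Icc ((kap - 4) / lam) ((kap + 4) / lam) ⊆ {t | |lam * t - kap| ≤ 4} := by
      intro t ht
      rw [Set.mem_Icc, div_le_iff₀ hlam, le_div_iff₀ hlam] at ht
      simp only [Set.mem_ofPred_eq, abs_le]
      constructor <;> nlinarith [ht.1, ht.2]
    have h3 := measure_mono_null h2 h1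
    rw [Real.volume_Icc, ENNReal.ofReal_eq_zero] at h3
    have h4 : (kap + 4) / lam - (kap - 4) / lam = 8 / lam := by ring
    rw [h4] at h3
    have : 0 < 8 / lam := by positivity
    linarith
  set c : ℂ := (lam : ℂ) * zt x0 γ - (kap : ℂ) with hc
  have hcre : c.re = lam * x0 - kap := by
    rw [hc]; unfold zt; simp
  have hcim : c.im = lam * γ := by
    rw [hc]; unfold zt; simp
  obtain ⟨k, hk1, hk2⟩ := exists_cos (c := c) hm (by rw [hcre, hcim]; exact hell)
  obtain ⟨δ', hδ', hnear⟩ := exists_cos_near hk2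
  obtain ⟨e, he, hAG⟩ := exists_energy' (μ := μ) hac hlam.ne' hm hδ H H3 hδ'
  obtain ⟨k1, h1, h2⟩ := hnear e he
  have h3 : 2 * Complex.cos k1 + 2 * Complex.cos k = cz x0 γ lam kap e := by
    rw [h2]
    unfold cz
    push_cast
    linear_combination hk1 + hc
  have h4 := lloyd_rate (x0 := x0) hγ hlam hm.le h3 (κ := max |k1.im| |k.im|) (le_max_left _ _)
    (le_max_right _ _) hAG
  have h5 : max |k1.im| |k.im| < m := max_lt h1 hk2
  linarith

end Pool.Agent.Helper19
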