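import Mathlib
import Pool.Agent.Helper19.Lloyd4

set_option autoImplicit false

open MeasureTheory
open scoped ENNReal NNReal

/-- Lloyd model (Cauchy disorder with location `x₀` and scale `γ > 0`) on `ℤ²`, any coupling
`lam > 0`, any energy `E₀` and any `m > 0` such that the complex energy
`(E₀ - 4 - lam x₀) + i lam γ` lies inside the ellipse with semi-axes `4 cosh m`, `4 sinh m`:
almost surely it is false that the eigenfunctions of `-Δ + lam V` are complete and that all of those
with energy within `δ` of `E₀` decay exponentially with rate `m` (with arbitrary prefactors). -/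
theorem Pool.Agent.Helper19.lloydRate_full :
    ∀ (x₀ : ℝ) (γ : ℝ≥0), 0 < γ → ∀ lam : ℝ, 0 < lam → ∀ E₀ : ℝ, ∀ δ : ℝ, 0 < δ →
      ∀ m : ℝ, 0 < m →
        ((E₀ - 4 - lam * x₀) / (4 * Real.cosh m)) ^ 2
          + (lam * γ / (4 * Real.sinh m)) ^ 2 < 1 →
        ∀ᵐ ω ∂(Measure.infinitePi (fun _ : ℤ × ℤ => ProbabilityTheory.cauchyMeasure x₀ γ)),
          ¬ ((∀ (ψ : ℤ × ℤ → ℂ) (E : ℝ),
                Summable (fun x => ‖ψ x‖ ^ 2) →
                (∀ x : ℤ × ℤ,
                  4 * ψ x - (ψ (x.1 + 1, x.2) + ψ (x.1 - 1, x.2) + ψ (x.1, x.2 + 1)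
                      + ψ (x.1, x.2 - 1)) + ((lam * ω x : ℝ) : ℂ) * ψ x = (E : ℂ) * ψ x) →
                |E - E₀| < δ →
                ∃ C : ℝ, ∀ x : ℤ × ℤ,
                  ‖ψ x‖ ≤ C * Real.exp (-(m * (((|x.1| + |x.2| : ℤ)) : ℝ)))) ∧
            (∀ φ : ℤ × ℤ → ℂ, Summable (fun x => ‖φ x‖ ^ 2) →
                (∀ (ψ : ℤ × ℤ → ℂ) (E : ℝ),
                  Summable (fun x => ‖ψ x‖ ^ 2) →
                  (∀ x : ℤ × ℤ,
                    4 * ψ x - (ψ (x.1 + 1, x.2) + ψ (x.1 - 1, x.2) + ψ (x.1, x.2 + 1)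
                        + ψ (x.1, x.2 - 1)) + ((lam * ω x : ℝ) : ℂ) * ψ x = (E : ℂ) * ψ x) →
                  ∑' x, star (ψ x) * φ x = 0) →
                φ = 0)) := by
  intro x₀ γ hγ lam hlam E₀ δ hδ m hm hell
  by_contra hcon
  refine Pool.Agent.Helper19.lloyd_main (x0 := x₀) (γ := γ) hγ.ne' hlam (kap := E₀ - 4) hm hδ ?_ ?_
  · have : (lam * x₀ - (E₀ - 4)) / (4 * Real.cosh m) = -((E₀ - 4 - lam * x₀) / (4 * Real.cosh m)) := by
      ring
    rw [this, neg_sq]
    exact hell
  · intro h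
    apply hcon
    filter_upwards [h] with ω h1 hω
    apply h1
    constructor
    · intro ψ e hψ he hS
      obtain ⟨C, hC⟩ := hω.1 ψ (e + E₀) hψ (by
        intro x
        have := hS x
        simp only [Pool.Agent.Helper19.pot, Pool.Agent.Helper19.adj, Pi.zero_apply] at this
        push_cast at this ⊢
        linear_combination this) (by
        have h2 : e + E₀ - E₀ = e := by ring
        rw [h2]; exact he)
      refine ⟨C, fun x => ?_⟩
      rw [sub_zero]
      exact hC x
    · intro φ hφ h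
      apply hω.2 φ hφ
      intro ψ E hψ hE
      apply h ψ (E - E₀) hψ
      intro x
      have := hE x
      simp only [Pool.Agent.Helper19.pot, Pool.Agent.Helper19.adj, Pi.zero_apply]
      push_cast at this ⊢
      linear_combination this
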