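import Pool.Agent.Helper19.Cau
import Pool.Agent.Helper19.Basic
import Pool.Agent.Helper19.Prob

set_option autoImplicit false

open MeasureTheory Filter Topology
open scoped ENNReal NNReal Real

namespace Pool.Agent.Helper19

/-- the complex point of the Cauchy law -/
noncomputable def zt (x0 : ℝ) (γ : ℝ≥0) : ℂ := (x0 : ℂ) + (γ : ℝ) * Complex.I

/-- its conjugate -/
noncomputable def zt' (x0 : ℝ) (γ : ℝ≥0) : ℂ := (x0 : ℂ) - (γ : ℝ) * Complex.I

lemma ae_ne_complex {x0 : ℝ} {γ : ℝ≥0} (hγ : γ ≠ 0) (p : ℂ) :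
    ∀ᵐ t : ℝ ∂(ProbabilityTheory.cauchyMeasure x0 γ), (t : ℂ) ≠ p := by
  rw [ProbabilityTheory.cauchyMeasure_of_scale_ne_zero x0 hγ]
  apply (withDensity_absolutelyContinuous volume _).ae_le
  have h1 : ∀ᵐ t : ℝ, t ≠ p.re := by
    rw [ae_iff]; simp
  filter_upwards [h1] with t ht h
  exact ht (by rw [← h]; simp)

/-- average of the logarithm of an affine function -/
theorem cauchy_affine {x0 : ℝ} {γ : ℝ≥0} (hγ : γ ≠ 0) {α β : ℂ} (h : α ≠ 0 ∨ β ≠ 0) :
    Integrable (fun t : ℝ => Real.log ‖α + t * β‖) (ProbabilityTheory.cauchyMeasure x0 γ) ∧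
    ∫ t : ℝ, Real.log ‖α + t * β‖ ∂(ProbabilityTheory.cauchyMeasure x0 γ)
      = Real.log (max ‖α + zt x0 γ * β‖ ‖α + zt' x0 γ * β‖) := by
  by_cases hβ : β = 0
  · subst hβ
    simp only [mul_zero, add_zero, max_self]
    refine ⟨integrable_const _, ?_⟩
    simp
  · have hβ' : 0 < ‖β‖ := norm_pos_iff.mpr hβ
    set p : ℂ := -α / β with hp
    have hpt : ∀ z : ℂ, α + z * β = β * (z - p) := by
      intro z; rw [hp]; field_simp; ring
    obtain ⟨h1, h2⟩ := cauchy_log (x0 := x0) hγ p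
    have hae : ∀ᵐ t : ℝ ∂(ProbabilityTheory.cauchyMeasure x0 γ),
        Real.log ‖β‖ + Real.log ‖(t : ℂ) - p‖ = Real.log ‖α + t * β‖ := by
      filter_upwards [ae_ne_complex (x0 := x0) hγ p] with t ht
      rw [hpt, norm_mul, Real.log_mul hβ'.ne' (norm_ne_zero_iff.mpr (sub_ne_zero.mpr ht))]
    have h3 := (integrable_const (μ := ProbabilityTheory.cauchyMeasure x0 γ) (Real.log ‖β‖)).add h1
    refine ⟨h3.congr hae, ?_⟩
    rw [← integral_congr_ae hae, integral_add (integrable_const _) h1, h2]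
    simp only [integral_const, measure_univ, Measure.real, ENNReal.toReal_one, one_smul]
    have hm : 0 < max ‖(x0 : ℂ) + (γ : ℝ) * Complex.I - p‖ ‖(x0 : ℂ) - (γ : ℝ) * Complex.I - p‖ := by
      by_contra hcon
      rw [not_lt, max_le_iff, norm_le_zero_iff, norm_le_zero_iff] at hcon
      have h4 : (2 : ℂ) * ((γ : ℝ) * Complex.I) = 0 := by
        linear_combination hcon.1 - hcon.2
      have h5 := congrArg Complex.im h4
      simp at h5
      exact hγ h5
    rw [← Real.log_mul hβ'.ne' hm.ne', mul_max_of_nonneg _ _ hβ'.le, ← norm_mul, ← norm_mul, ← hpt,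
      ← hpt]
    rfl

lemma integrable_log_one_add {x0 : ℝ} {γ : ℝ≥0} (hγ : γ ≠ 0) :
    Integrable (fun t : ℝ => Real.log (1 + |t|)) (ProbabilityTheory.cauchyMeasure x0 γ) := by
  have h1 := (cauchy_log (x0 := x0) hγ Complex.I).1
  refine Integrable.mono' (h1.add (integrable_const (Real.log 2))) ?_ ?_
  · exact (Real.measurable_log.comp (by fun_prop)).aestronglyMeasurable
  · apply Filter.Eventually.of_forall
    intro t
    have h2 : 0 ≤ |t| := abs_nonneg t
    rw [Real.norm_eq_abs, abs_of_nonneg (Real.log_nonneg (by linarith))]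
    simp only [Pi.add_apply]
    have h3 : ‖(t : ℂ) - Complex.I‖ ^ 2 = t ^ 2 + 1 := by
      rw [← Complex.normSq_eq_norm_sq, Complex.normSq_apply]
      simp
      ring
    have h4 : 0 < ‖(t : ℂ) - Complex.I‖ := by
      by_contra hcon
      have h5 : ‖(t : ℂ) - Complex.I‖ = 0 := le_antisymm (not_lt.mp hcon) (norm_nonneg _)
      rw [h5] at h3
      nlinarith
    rw [← Real.log_mul h4.ne' (by norm_num)]
    apply Real.log_le_log (by linarith)
    have h5 : (1 + |t|) ^ 2 ≤ (‖(t : ℂ) - Complex.I‖ * 2) ^ 2 := by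
      rw [mul_pow, h3]
      nlinarith [sq_abs t, sq_nonneg (|t| - 1)]
    exact (pow_le_pow_iff_left₀ (by linarith) (by positivity) (by norm_num)).mp h5

/-- multi-affine functions of the potentials -/
structure MAff (P : (Site → ℂ) → ℂ) (S : Finset Site) (B : ℝ) : Prop where
  aff : ∀ (v : Site → ℂ) (x : Site), ∃ α β : ℂ, ∀ z : ℂ, P (Function.update v x z) = α + z * β
  dep : ∀ v v' : Site → ℂ, (∀ x ∈ S, v x = v' x) → P v = P v'
  bd : ∀ v, ‖P v‖ ≤ Real.exp B * ∏ x ∈ S, (1 + ‖v x‖)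
  cont : Continuous P

/-- mixed configuration -/
def mix (U : Finset Site) (ζ : ℂ) (w : Site → ℝ) (x : Site) : ℂ := if x ∈ U then (w x : ℂ) else ζ

lemma mix_insert {U : Finset Site} {x : Site} (hx : x ∉ U) (ζ : ℂ) (w : Site → ℝ) (t : ℝ) :
    mix (insert x U) ζ (Function.update w x t) = Function.update (mix U ζ w) x (t : ℂ) := by
  funext y
  by_cases hy : y = x
  · subst hy
    simp [mix]
  · simp [mix, hy]

lemma mix_self {U : Finset Site} {x : Site} (hx : x ∉ U) (ζ : ℂ) (w : Site → ℝ) :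
    mix U ζ w = Function.update (mix U ζ w) x ζ := by
  funext y
  by_cases hy : y = x
  · subst hy
    simp [mix, hx]
  · simp [hy]

lemma continuous_mix (U : Finset Site) (ζ : ℂ) : Continuous (mix U ζ) := by
  rw [continuous_pi_iff]
  intro x
  unfold mix
  by_cases hx : x ∈ U
  · simp only [if_pos hx]
    exact Complex.continuous_ofReal.comp (continuous_apply x)
  · simp only [if_neg hx]
    exact continuous_const

lemma half_plane {x0 : ℝ} {γ : ℝ≥0} {α β : ℂ} (h : ∀ z : ℂ, 0 < z.im → α + z * β ≠ 0) :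
    ‖α + zt' x0 γ * β‖ ≤ ‖α + zt x0 γ * β‖ := by
  by_cases hβ : β = 0
  · subst hβ; simp
  set p : ℂ := -α / β with hp
  have hpt : ∀ z : ℂ, α + z * β = β * (z - p) := by
    intro z; rw [hp]; field_simp; ring
  have him : p.im ≤ 0 := by
    by_contra hcon
    rw [not_le] at hcon
    apply h p hcon
    rw [hpt, sub_self, mul_zero]
  rw [hpt, hpt, norm_mul, norm_mul]
  apply mul_le_mul_of_nonneg_left _ (norm_nonneg _)
  have h1 : ‖zt' x0 γ - p‖ ^ 2 ≤ ‖zt x0 γ - p‖ ^ 2 := by
    rw [← Complex.normSq_eq_norm_sq, ← Complex.normSq_eq_norm_sq, Complex.normSq_apply,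
      Complex.normSq_apply]
    unfold zt zt'
    simp
    have := γ.2
    have h2 : 0 ≤ (γ : ℝ) * (-p.im) := mul_nonneg this (by linarith)
    nlinarith
  exact (pow_le_pow_iff_left₀ (norm_nonneg _) (norm_nonneg _) (by norm_num)).mp h1

section
variable {P : (Site → ℂ) → ℂ} {S : Finset Site} {B : ℝ} {x0 : ℝ} {γ : ℝ≥0}

/-- uniform upper bound -/
noncomputable def Ub (S : Finset Site) (B : ℝ) (ζ : ℂ) (w : Site → ℝ) : ℝ :=
  B + ∑ x ∈ S, (Real.log (1 + |w x|) + Real.log (1 + ‖ζ‖))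

lemma le_Ub (hP : MAff P S B) (hB : 0 ≤ B) (ζ : ℂ) (U : Finset Site) (w : Site → ℝ) :
    Real.log ‖P (mix U ζ w)‖ ≤ Ub S B ζ w := by
  have hterm : ∀ x ∈ S, Real.log (1 + ‖mix U ζ w x‖) ≤ Real.log (1 + |w x|) + Real.log (1 + ‖ζ‖) := by
    intro x _
    have h1 : 0 ≤ Real.log (1 + |w x|) := Real.log_nonneg (by have := abs_nonneg (w x); linarith)
    have h2 : 0 ≤ Real.log (1 + ‖ζ‖) := Real.log_nonneg (by have := norm_nonneg ζ; linarith)
    unfold mix
    split_ifs
    · rw [Complex.norm_real, Real.norm_eq_abs]; linarith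
    · linarith
  by_cases h0 : P (mix U ζ w) = 0
  · rw [h0, norm_zero, Real.log_zero]
    unfold Ub
    have : 0 ≤ ∑ x ∈ S, (Real.log (1 + |w x|) + Real.log (1 + ‖ζ‖)) := by
      apply Finset.sum_nonneg
      intro x hx
      refine le_trans (Real.log_nonneg ?_) (hterm x hx)
      have := norm_nonneg (mix U ζ w x); linarith
    linarith
  · have h1 := Real.log_le_log (norm_pos_iff.mpr h0) (hP.bd (mix U ζ w))
    have hpos : ∀ x ∈ S, (1 + ‖mix U ζ w x‖) ≠ 0 := fun x _ => by
      have := norm_nonneg (mix U ζ w x)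
      positivity
    rw [Real.log_mul (Real.exp_pos _).ne' (Finset.prod_ne_zero_iff.mpr hpos), Real.log_exp,
      Real.log_prod hpos] at h1
    unfold Ub
    have := Finset.sum_le_sum hterm
    linarith

lemma integrable_Ub (hγ : γ ≠ 0) (S : Finset Site) (B : ℝ) (ζ : ℂ) :
    Integrable (Ub S B ζ) (iid Site (ProbabilityTheory.cauchyMeasure x0 γ)) := by
  unfold Ub
  apply (integrable_const B).add
  apply integrable_finsetSum
  intro x _
  apply Integrable.add _ (integrable_const _)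
  have h1 : MeasurePreserving (fun w : Site → ℝ => w x)
      (iid Site (ProbabilityTheory.cauchyMeasure x0 γ)) (ProbabilityTheory.cauchyMeasure x0 γ) :=
    measurePreserving_eval_infinitePi (fun _ : Site => ProbabilityTheory.cauchyMeasure x0 γ) x
  exact h1.integrable_comp_of_integrable (integrable_log_one_add hγ)

end

end Pool.Agent.Helper19
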