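import Pool.Agent.Helper19.MAff

set_option autoImplicit false

open MeasureTheory Filter Topology
open scoped ENNReal NNReal Real

namespace Pool.Agent.Helper19

section
variable {P : (Site → ℂ) → ℂ} {S : Finset Site} {B : ℝ} {x0 : ℝ} {γ : ℝ≥0}

theorem maff_main (hγ : γ ≠ 0) (hP : MAff P S B) (hB : 0 ≤ B)
    (h0 : P (fun _ => zt x0 γ) ≠ 0) (U : Finset Site) :
    (∀ᵐ w ∂(iid Site (ProbabilityTheory.cauchyMeasure x0 γ)), P (mix U (zt x0 γ) w) ≠ 0) ∧
    Integrable (fun w => Real.log ‖P (mix U (zt x0 γ) w)‖)
      (iid Site (ProbabilityTheory.cauchyMeasure x0 γ)) ∧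
    Real.log ‖P (fun _ => zt x0 γ)‖ ≤ ∫ w, Real.log ‖P (mix U (zt x0 γ) w)‖
      ∂(iid Site (ProbabilityTheory.cauchyMeasure x0 γ)) ∧
    ((∀ (U : Finset Site) (x : Site), x ∉ U →
        ∀ᵐ w ∂(iid Site (ProbabilityTheory.cauchyMeasure x0 γ)), ∀ z : ℂ, 0 < z.im →
          P (Function.update (mix U (zt x0 γ) w) x z) ≠ 0) →
      ∫ w, Real.log ‖P (mix U (zt x0 γ) w)‖
        ∂(iid Site (ProbabilityTheory.cauchyMeasure x0 γ)) = Real.log ‖P (fun _ => zt x0 γ)‖) := by
  set μ := ProbabilityTheory.cauchyMeasure x0 γ with hμ
  set ζ := zt x0 γ with hζ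
  have hmeas : ∀ U : Finset Site, Measurable (fun w : Site → ℝ => P (mix U ζ w)) := fun U =>
    (hP.cont.comp (continuous_mix U ζ)).measurable
  have hmeasL : ∀ U : Finset Site, Measurable (fun w : Site → ℝ => Real.log ‖P (mix U ζ w)‖) :=
    fun U => Real.measurable_log.comp (hmeas U).norm
  induction U using Finset.induction_on with
  | empty =>
    have he : ∀ w : Site → ℝ, mix ∅ ζ w = fun _ => ζ := by
      intro w; funext y; simp [mix]
    simp only [he]
    refine ⟨Filter.Eventually.of_forall (fun _ => h0), integrable_const _, ?_, fun _ => ?_⟩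
    · simp
    · simp
  | insert x U hx ih =>
    obtain ⟨ih1, ih2, ih3, ih4⟩ := ih
    have hch : ∀ w : Site → ℝ, ∃ α β : ℂ, P (mix U ζ w) = α + ζ * β ∧
        (∀ z : ℂ, P (Function.update (mix U ζ w) x z) = α + z * β) := by
      intro w
      obtain ⟨α, β, h⟩ := hP.aff (mix U ζ w) x
      refine ⟨α, β, ?_, h⟩
      conv_lhs => rw [mix_self hx]
      exact h ζ
    choose α β hα hβ using hch
    have hupd : ∀ (w : Site → ℝ) (t : ℝ), P (mix (insert x U) ζ (Function.update w x t))
        = α w + t * β w := by
      intro w t
      rw [mix_insert hx]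
      exact hβ w t
    -- a.e. nonvanishing
    have hn : ∀ᵐ w ∂(iid Site μ), α w ≠ 0 ∨ β w ≠ 0 := by
      filter_upwards [ih1] with w hw
      by_contra hcon
      simp only [not_or, not_not] at hcon
      apply hw
      rw [hα, hcon.1, hcon.2]; ring
    have g1 : ∀ᵐ w ∂(iid Site μ), P (mix (insert x U) ζ w) ≠ 0 := by
      have hA : MeasurableSet {w : Site → ℝ | P (mix (insert x U) ζ w) = 0} :=
        hmeas (insert x U) (measurableSet_singleton 0)
      have : (iid Site μ) {w : Site → ℝ | P (mix (insert x U) ζ w) = 0} = 0 := by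
        apply null_of_sections_ae x hA
        filter_upwards [hn] with w hw
        by_cases hb : β w = 0
        · have ha : α w ≠ 0 := by
            rcases hw with h | h
            · exact h
            · exact absurd hb h
          apply Filter.Eventually.of_forall
          intro t ht
          have ht2 : P (mix (insert x U) ζ (Function.update w x t)) = 0 := ht
          rw [hupd, hb, mul_zero, add_zero] at ht2
          exact ha ht2
        · filter_upwards [ae_ne_complex (x0 := x0) hγ (-α w / β w)] with t ht hmem
          have ht2 : P (mix (insert x U) ζ (Function.update w x t)) = 0 := hmem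
          rw [hupd] at ht2
          apply ht
          rw [eq_div_iff hb]
          linear_combination ht2
      rw [ae_iff]
      simpa using this
    -- integrability
    set f : (Site → ℝ) × ℝ → ℝ := fun p => Real.log ‖P (mix (insert x U) ζ (Function.update p.1 x p.2))‖
      with hf
    have hfm : Measurable f := (hmeasL (insert x U)).comp (measurable_upd x)
    set b : (Site → ℝ) × ℝ → ℝ := fun p => Ub S B ζ (Function.update p.1 x p.2) with hb
    have hbi : Integrable b ((iid Site μ).prod μ) :=
      (mp_update μ x).integrable_comp_of_integrable (integrable_Ub hγ S B ζ)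
    have hg0 : ∀ p, 0 ≤ b p - f p := fun p => by
      have := le_Ub hP hB ζ (insert x U) (Function.update p.1 x p.2)
      simp only [hb, hf]; linarith
    have hinner : ∀ᵐ w ∂(iid Site μ), Integrable (fun t => f (w, t)) μ ∧
        ∫ t, f (w, t) ∂μ = Real.log (max ‖α w + ζ * β w‖ ‖α w + zt' x0 γ * β w‖) := by
      filter_upwards [hn] with w hw
      have := cauchy_affine (x0 := x0) hγ hw
      simp only [hf, hupd]
      exact this
    have hge : ∀ᵐ w ∂(iid Site μ), Real.log ‖P (mix U ζ w)‖ ≤ ∫ t, f (w, t) ∂μ := by
      filter_upwards [hinner, ih1] with w hw h1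
      rw [hw.2, hα]
      rw [hα] at h1
      exact Real.log_le_log (norm_pos_iff.mpr h1) (le_max_left _ _)
    have hgi : Integrable (fun p => b p - f p) ((iid Site μ).prod μ) := by
      have hgm : AEStronglyMeasurable (fun p => b p - f p) ((iid Site μ).prod μ) :=
        hbi.aestronglyMeasurable.sub hfm.aestronglyMeasurable
      rw [integrable_prod_iff hgm]
      have hbin := hbi.prod_right_ae
      constructor
      · filter_upwards [hbin, hinner] with w h1 h2
        exact h1.sub h2.1
      · have hbound : Integrable (fun w => ∫ t, b (w, t) ∂μ - Real.log ‖P (mix U ζ w)‖) (iid Site μ) :=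
          hbi.integral_prod_left.sub ih2
        refine hbound.mono' (hgm.norm.integral_prod_right') ?_
        filter_upwards [hbin, hinner, hge] with w h1 h2 h3
        have h4 : ∫ t, ‖b (w, t) - f (w, t)‖ ∂μ = ∫ t, b (w, t) ∂μ - ∫ t, f (w, t) ∂μ := by
          rw [← integral_sub h1 h2.1]
          apply integral_congr_ae
          apply Filter.Eventually.of_forall
          intro t
          exact Real.norm_of_nonneg (hg0 (w, t))
        rw [Real.norm_of_nonneg (integral_nonneg (fun t => norm_nonneg _)), h4]
        linarith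
    have hfi : Integrable f ((iid Site μ).prod μ) := by
      have := hbi.sub hgi
      refine this.congr (Filter.Eventually.of_forall (fun p => ?_))
      simp
    have g2 : Integrable (fun w => Real.log ‖P (mix (insert x U) ζ w)‖) (iid Site μ) := by
      rw [← (mp_update μ x).integrable_comp (hmeasL (insert x U)).aestronglyMeasurable]
      exact hfi
    have hint : ∫ w, Real.log ‖P (mix (insert x U) ζ w)‖ ∂(iid Site μ)
        = ∫ w, ∫ t, f (w, t) ∂μ ∂(iid Site μ) := by
      have h2 := mp_update μ x
      have h3 := integral_map (μ := (iid Site μ).prod μ) h2.measurable.aemeasurable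
        (f := fun w => Real.log ‖P (mix (insert x U) ζ w)‖) (hmeasL (insert x U)).aestronglyMeasurable
      rw [h2.map_eq] at h3
      rw [h3]
      exact integral_prod f hfi
    refine ⟨g1, g2, ?_, fun hH => ?_⟩
    · rw [hint]
      refine ih3.trans ?_
      exact integral_mono_ae ih2 hfi.integral_prod_left hge
    · rw [hint, ← ih4 hH]
      apply integral_congr_ae
      filter_upwards [hinner, hH U x hx] with w hw h1
      rw [hw.2, hα, max_eq_left]
      apply half_plane
      intro z hz
      rw [← hβ]
      exact h1 z hz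

end

end Pool.Agent.Helper19
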