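import Pool.Agent.Helper19.Calc
import Pool.Agent.Helper19.Exist

set_option autoImplicit false

open MeasureTheory Filter Topology
open scoped ENNReal NNReal

namespace Pool.Agent.Helper19

/-- the limiting upper bound -/
noncomputable def UB (σ2 η t e : ℝ) : ℝ :=
  5 / 4 * cf η + ((1 + t) * (1 + 25 / 8 * σ2 * Real.log (5 / η) ^ 4)
    + (1 + t⁻¹) * (2 * (e ^ 2 * η⁻¹ ^ 2)) - 1) / 2

lemma tendsto_y : Tendsto (fun i : ℕ => ((2 * (i : ℝ) + 1))⁻¹) atTop (𝓝 0) := by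
  apply tendsto_inv_atTop_zero.comp
  apply tendsto_atTop_mono (f := fun i : ℕ => (i : ℝ))
  · intro i
    have : (0 : ℝ) ≤ i := Nat.cast_nonneg i
    linarith
  · exact tendsto_natCast_atTop_atTop

lemma tendsto_x : Tendsto (fun i : ℕ => (2 * (i : ℝ) + 1)) atTop atTop := by
  apply tendsto_atTop_mono (f := fun i : ℕ => (i : ℝ))
  · intro i
    have : (0 : ℝ) ≤ i := Nat.cast_nonneg i
    linarith
  · exact tendsto_natCast_atTop_atTop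

lemma tendsto_z : Tendsto (fun i : ℕ => Real.log (2 * (i : ℝ) + 1) / (2 * (i : ℝ) + 1)) atTop (𝓝 0) := by
  have h1 : Tendsto (fun x : ℝ => Real.log x / x) atTop (𝓝 0) := by
    have := Real.tendsto_pow_log_div_mul_add_atTop 1 0 1 one_ne_zero
    simpa using this
  exact h1.comp tendsto_x

section
variable {μ : Measure ℝ} [IsProbabilityMeasure μ] {M : ℝ≥0} {lam kap : ℝ}

/-- algebraic rescaling of the finite volume inequality -/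
lemma rescale {x y z m P C1 C2 A B t η e l2 : ℝ} (hx : 0 < x) (hy : y = x⁻¹)
    (hfin : (x - 1) * (m * (x - 1) * ((x ^ 2 - 2 * (x - 1)) * P)
      - x ^ 2 / 2 * (16 * (x * z) + C1 + (C2 + 4 * (x * z)))) - x * x ^ 2 / 2 * (16 * (x * z) + C1)
      ≤ (2 * x ^ 2 * l2 + x ^ 2 * x ^ 2 * A)
        + ((1 + t) * (x ^ 4 * B)
          + (1 + t⁻¹) * (2 * (η⁻¹ ^ 2 * (64 * x ^ 2)) + 2 * (e ^ 2 * (η⁻¹ ^ 2 * (x ^ 2 * x ^ 2))))
          - x ^ 2 * x ^ 2) / 2) :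
    m * P * ((1 - y) ^ 2 * (1 - 2 * y + 2 * y ^ 2))
      - 1 / 2 * (1 - y) * (20 * z + (C1 + C2) * y) - 1 / 2 * (16 * z + C1 * y)
      ≤ 2 * l2 * y ^ 2 + A
        + ((1 + t) * B + (1 + t⁻¹) * (128 * η⁻¹ ^ 2 * y ^ 2 + 2 * (e ^ 2 * η⁻¹ ^ 2)) - 1) / 2 := by
  have hxy : x * y = 1 := by rw [hy]; field_simp
  have hy4 : 0 ≤ y ^ 4 := by positivity
  have hmul := mul_le_mul_of_nonneg_left hfin hy4
  have q2 : x ^ 2 * y ^ 2 = 1 := by rw [← mul_pow, hxy, one_pow]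
  have e1 : y ^ 4 * ((x - 1) * (m * (x - 1) * ((x ^ 2 - 2 * (x - 1)) * P)
      - x ^ 2 / 2 * (16 * (x * z) + C1 + (C2 + 4 * (x * z)))) - x * x ^ 2 / 2 * (16 * (x * z) + C1))
      = m * P * ((x * y - y) ^ 2 * (x ^ 2 * y ^ 2 - 2 * (x * y) * y + 2 * y ^ 2))
      - 1 / 2 * (x * y - y) * (x ^ 2 * y ^ 2) * (20 * (x * y) * z + (C1 + C2) * y)
      - 1 / 2 * (x ^ 2 * y ^ 2) * (16 * (x ^ 2 * y ^ 2) * z + C1 * (x * y) * y) := by
    ring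
  have e2 : y ^ 4 * ((2 * x ^ 2 * l2 + x ^ 2 * x ^ 2 * A)
        + ((1 + t) * (x ^ 4 * B)
          + (1 + t⁻¹) * (2 * (η⁻¹ ^ 2 * (64 * x ^ 2)) + 2 * (e ^ 2 * (η⁻¹ ^ 2 * (x ^ 2 * x ^ 2))))
          - x ^ 2 * x ^ 2) / 2)
      = 2 * l2 * (x ^ 2 * y ^ 2) * y ^ 2 + (x ^ 2 * y ^ 2) ^ 2 * A
        + ((1 + t) * ((x ^ 2 * y ^ 2) ^ 2 * B) + (1 + t⁻¹) * (128 * η⁻¹ ^ 2 * (x ^ 2 * y ^ 2) * y ^ 2
          + 2 * (e ^ 2 * η⁻¹ ^ 2) * (x ^ 2 * y ^ 2) ^ 2) - (x ^ 2 * y ^ 2) ^ 2) / 2 := by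
    ring
  rw [e1, e2, q2, hxy] at hmul
  simp only [one_pow, mul_one, one_mul] at hmul
  exact hmul

/-- the inequality at finite volume -/
lemma finite_volume (hμ : MemLp (fun t : ℝ => t) 2 μ) (hM : μ ≤ M • volume) (hlam : 0 < lam)
    (hmean : ∫ t, (lam * t - kap) ∂μ = 0) {m k : ℝ} (hm : 0 ≤ m) (hk : 1 ≤ k)
    {η t : ℝ} (hη : 0 < η) (hη1 : η ≤ 1) (ht : 0 < t) (e : ℝ) (i : ℕ) {y z : ℝ}
    (hy : y = ((2 * (i : ℝ) + 1))⁻¹) (hz : z = Real.log (2 * (i : ℝ) + 1) / (2 * (i : ℝ) + 1)) :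
    m * (iid Site μ).real (CS lam kap e m k 0) * ((1 - y) ^ 2 * (1 - 2 * y + 2 * y ^ 2))
      - 1 / 2 * (1 - y) * (20 * z + (4 + 8 * M / lam + Real.log (32 * k ^ 2)) * y)
      - 1 / 2 * (16 * z + (4 + 8 * M / lam) * y)
      ≤ 2 * Real.log 2 * y ^ 2 + 5 / 4 * cf η
        + ((1 + t) * (1 + 25 / 8 * (∫ t, (lam * t - kap) ^ 2 ∂μ) * Real.log (5 / η) ^ 4)
          + (1 + t⁻¹) * (128 * η⁻¹ ^ 2 * y ^ 2 + 2 * (e ^ 2 * η⁻¹ ^ 2)) - 1) / 2 := by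
  set p : ℕ := 2 * i + 1 with hp
  set L : ℕ := p * p with hL
  have hpodd : Odd p := ⟨i, rfl⟩
  have hLodd : Odd L := hpodd.mul hpodd
  have hp0 : 0 < p := by omega
  have hNZ : NeZero L := ⟨by rw [hL]; positivity⟩
  set x : ℝ := 2 * (i : ℝ) + 1 with hx
  have hx1 : 1 ≤ x := by
    have : (0 : ℝ) ≤ i := Nat.cast_nonneg i
    linarith
  have hx0 : 0 < x := by linarith
  have hpx : (p : ℝ) = x := by rw [hp, hx]; push_cast; ring
  have hLx : (L : ℝ) = x ^ 2 := by rw [hL]; push_cast; rw [hpx]; ring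
  have hcx : ((2 * i : ℕ) : ℝ) = x - 1 := by rw [hx]; push_cast; ring
  have hlow := lower_bound hμ hM hlam (c := 2 * i) (p := p) (L := L) rfl rfl hm hk kap e
  have hupp := upper_bound (L := L) hμ hM hlam hmean hη ht e
  have hS1 := sum_log_al_le (L := L) hLodd hη hη1
  have hS2 := sum_d2_le (L := L) hLodd hη hη1
  have hσ0 : 0 ≤ ∫ t, (lam * t - kap) ^ 2 ∂μ := integral_nonneg (fun t => sq_nonneg _)
  have hS0 : 0 ≤ (∑ k : Fin L × Fin L, d2 η k) / (L : ℝ) := by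
    apply div_nonneg _ (Nat.cast_nonneg _)
    exact Finset.sum_nonneg (fun k _ => (d2_pos hη k).le)
  generalize (iid Site μ).real (CS lam kap e m k 0) = P at hlow ⊢
  generalize (∫ t, (lam * t - kap) ^ 2 ∂μ) = σ2 at hupp hσ0 ⊢
  generalize (∑ k : Fin L × Fin L, d2 η k) / (L : ℝ) = S at hS0 hS2 hupp
  generalize (1 / 2) * ∑ k : Fin L × Fin L, Real.log (al k ^ 2 + η ^ 2) = SL at hS1 hupp
  generalize ∫ w, LD L L lam kap e w ∂(iid Site μ) = I at hlow hupp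
  rw [hcx, hpx, hLx] at hlow
  rw [hLx] at hupp hS1 hS2
  generalize Real.log (5 / η) = ℓ at hS2 ⊢
  have hS3 : S ^ 2 ≤ 25 / 8 * (x ^ 2) ^ 2 * ℓ ^ 4 := by
    have h1 := pow_le_pow_left₀ hS0 hS2 2
    have h2 : (Real.sqrt 2 * (x ^ 2 * (5 / 4 * ℓ ^ 2))) ^ 2 = Real.sqrt 2 ^ 2 * (x ^ 2 * (5 / 4 * ℓ ^ 2)) ^ 2 := by
      ring
    rw [h2, Real.sq_sqrt (by norm_num)] at h1
    refine h1.trans_eq ?_
    ring
  have hlogx : Real.log x = x * z := by rw [hz]; field_simp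
  have hk0 : 0 < k := by linarith
  have hx4 : x ^ 2 * x ^ 2 = x ^ 4 := by ring
  have hWZ : WZ M lam (x ^ 2 * x ^ 2) = 16 * (x * z) + (4 + 8 * M / lam) := by
    unfold WZ
    rw [hx4, Real.log_pow, hlogx]
    push_cast
    ring
  have hlg : Real.log (32 * k ^ 2 * (x ^ 2 * x ^ 2)) = Real.log (32 * k ^ 2) + 4 * (x * z) := by
    rw [hx4, Real.log_mul (by positivity) (by positivity), Real.log_pow, hlogx]
    push_cast
    ring
  rw [hWZ, hlg] at hlow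
  have hcomb := hlow.trans hupp
  have hT : (1 + t) * (x ^ 2 * x ^ 2 + σ2 * S ^ 2)
      ≤ (1 + t) * (x ^ 4 * (1 + 25 / 8 * σ2 * ℓ ^ 4)) := by
    apply mul_le_mul_of_nonneg_left _ (by linarith)
    have h1 := mul_le_mul_of_nonneg_left hS3 hσ0
    have h2 : x ^ 4 * (1 + 25 / 8 * σ2 * ℓ ^ 4) = x ^ 2 * x ^ 2 + σ2 * (25 / 8 * (x ^ 2) ^ 2 * ℓ ^ 4) := by
      ring
    rw [h2]
    linarith
  apply rescale hx0 hy
  refine hcomb.trans ?_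
  linarith

/-- the rate is bounded by the limiting upper bound -/
theorem rate_le (hμ : MemLp (fun t : ℝ => t) 2 μ) (hM : μ ≤ M • volume) (hlam : 0 < lam)
    (hmean : ∫ t, (lam * t - kap) ∂μ = 0) {m : ℝ} (hm : 0 ≤ m)
    {η t : ℝ} (hη : 0 < η) (hη1 : η ≤ 1) (ht : 0 < t) (e : ℝ)
    (hAG : (iid Site μ) (AllGood lam kap m e) = 1) :
    m ≤ UB (∫ t, (lam * t - kap) ^ 2 ∂μ) η t e := by
  have h1 : ∀ k : ℕ, m * (iid Site μ).real (CS lam kap e m (k + 1) 0)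
      ≤ UB (∫ t, (lam * t - kap) ^ 2 ∂μ) η t e := by
    intro k
    set P := (iid Site μ).real (CS lam kap e m (k + 1) 0) with hP
    have hl : Tendsto (fun i : ℕ => m * P * ((1 - ((2 * (i : ℝ) + 1))⁻¹) ^ 2
          * (1 - 2 * ((2 * (i : ℝ) + 1))⁻¹ + 2 * ((2 * (i : ℝ) + 1))⁻¹ ^ 2))
        - 1 / 2 * (1 - ((2 * (i : ℝ) + 1))⁻¹) * (20 * (Real.log (2 * (i : ℝ) + 1) / (2 * (i : ℝ) + 1))
          + (4 + 8 * M / lam + Real.log (32 * ((k : ℝ) + 1) ^ 2)) * ((2 * (i : ℝ) + 1))⁻¹)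
        - 1 / 2 * (16 * (Real.log (2 * (i : ℝ) + 1) / (2 * (i : ℝ) + 1))
          + (4 + 8 * M / lam) * ((2 * (i : ℝ) + 1))⁻¹)) atTop
        (𝓝 (m * P * ((1 - 0) ^ 2 * (1 - 2 * 0 + 2 * 0 ^ 2))
        - 1 / 2 * (1 - 0) * (20 * 0 + (4 + 8 * M / lam + Real.log (32 * ((k : ℝ) + 1) ^ 2)) * 0)
        - 1 / 2 * (16 * 0 + (4 + 8 * M / lam) * 0))) := by
      have hyt := tendsto_y
      have hzt := tendsto_z
      have h1y := hyt.const_sub (1 : ℝ)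
      refine (((h1y.pow 2).mul (((hyt.const_mul 2).const_sub 1).add ((hyt.pow 2).const_mul 2))).const_mul
        (m * P)).sub ?_ |>.sub ?_
      · exact (h1y.const_mul (1 / 2)).mul ((hzt.const_mul 20).add (hyt.const_mul _))
      · exact ((hzt.const_mul 16).add (hyt.const_mul _)).const_mul _
    have hu : Tendsto (fun i : ℕ => 2 * Real.log 2 * ((2 * (i : ℝ) + 1))⁻¹ ^ 2 + 5 / 4 * cf η
        + ((1 + t) * (1 + 25 / 8 * (∫ t, (lam * t - kap) ^ 2 ∂μ) * Real.log (5 / η) ^ 4)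
          + (1 + t⁻¹) * (128 * η⁻¹ ^ 2 * ((2 * (i : ℝ) + 1))⁻¹ ^ 2 + 2 * (e ^ 2 * η⁻¹ ^ 2)) - 1) / 2) atTop
        (𝓝 (2 * Real.log 2 * 0 ^ 2 + 5 / 4 * cf η
        + ((1 + t) * (1 + 25 / 8 * (∫ t, (lam * t - kap) ^ 2 ∂μ) * Real.log (5 / η) ^ 4)
          + (1 + t⁻¹) * (128 * η⁻¹ ^ 2 * 0 ^ 2 + 2 * (e ^ 2 * η⁻¹ ^ 2)) - 1) / 2)) := by
      have hyt := tendsto_y
      exact (((hyt.pow 2).const_mul _).add_const _).add
        ((((((hyt.pow 2).const_mul _).add_const _).const_mul _).const_add _).sub_const _ |>.div_const _)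
    have h2 := le_of_tendsto_of_tendsto' hl hu (fun i =>
      finite_volume hμ hM hlam hmean hm (by
        have : (0 : ℝ) ≤ k := Nat.cast_nonneg k
        linarith : (1 : ℝ) ≤ (k : ℝ) + 1) hη hη1 ht e i rfl rfl)
    unfold UB
    have e1 : m * P * ((1 - 0) ^ 2 * (1 - 2 * 0 + 2 * 0 ^ 2))
        - 1 / 2 * (1 - 0) * (20 * 0 + (4 + 8 * M / lam + Real.log (32 * ((k : ℝ) + 1) ^ 2)) * 0)
        - 1 / 2 * (16 * 0 + (4 + 8 * M / lam) * 0) = m * P := by ring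
    rw [e1] at h2
    refine h2.trans_eq ?_
    ring
  have h2 := (tendsto_CS hAG).const_mul m
  rw [mul_one] at h2
  exact le_of_tendsto' h2 h1

end

end Pool.Agent.Helper19
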