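import Pool.Agent.Helper19.Det
import Pool.Agent.Helper19.Prob

set_option autoImplicit false

open MeasureTheory Filter Topology Matrix
open scoped ENNReal NNReal ComplexOrder

namespace Pool.Agent.Helper19

/-- adding a constant to one diagonal entry -/
lemma det_add_single {ι : Type*} [Fintype ι] [DecidableEq ι] (K : Matrix ι ι ℂ) (x : ι) (c : ℂ) :
    Matrix.det (fun p q => K p q + if p = x ∧ q = x then c else 0 : Matrix ι ι ℂ)
      = K.det + c * (K.updateRow x (Pi.single x 1)).det := by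
  have h : (fun p q => K p q + if p = x ∧ q = x then c else 0 : Matrix ι ι ℂ)
      = K.updateRow x (K x + c • Pi.single x (1 : ℂ)) := by
    ext p q
    rw [Matrix.updateRow_apply]
    by_cases hp : p = x
    · subst hp
      rw [if_pos rfl]
      by_cases hq : q = p
      · subst hq; simp
      · simp [hq]
    · rw [if_neg hp, if_neg (fun h => hp h.1), add_zero]
  rw [h, Matrix.det_updateRow_add, Matrix.det_updateRow_smul, Matrix.updateRow_eq_self]

/-- `log (1 + y) ≤ 2 √y` -/
lemma log_one_add_le_sqrt {y : ℝ} (hy : 0 ≤ y) : Real.log (1 + y) ≤ 2 * Real.sqrt y := by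
  have h1 : 1 + y ≤ (1 + Real.sqrt y) ^ 2 := by
    have := Real.sq_sqrt hy
    nlinarith [Real.sqrt_nonneg y]
  have h2 := Real.log_le_log (by linarith) h1
  rw [Real.log_pow] at h2
  have h3 := Real.add_one_le_exp (Real.sqrt y)
  have h4 := Real.log_le_log (by have := Real.sqrt_nonneg y; linarith) h3
  rw [Real.log_exp] at h4
  push_cast at h2
  rw [add_comm (Real.sqrt y) 1] at h4
  linarith

lemma log_diff_le {γ : ℂ} {x τ : ℝ} (hτ : 0 < τ) (hx : γ.re = x) (hx0 : x ≠ 0) :
    Real.log ‖γ - Complex.I * τ‖ - Real.log ‖γ‖ ≤ 2 * Real.sqrt τ * (Real.sqrt |x|)⁻¹ := by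
  have hxabs : 0 < |x| := abs_pos.mpr hx0
  have h1 : |x| ≤ ‖γ‖ := by rw [← hx]; exact Complex.abs_re_le_norm γ
  have h2 : |x| ≤ ‖γ - Complex.I * τ‖ := by
    have : (γ - Complex.I * τ).re = x := by simp [hx]
    rw [← this]; exact Complex.abs_re_le_norm _
  have h3 : ‖γ - Complex.I * τ‖ ≤ ‖γ‖ * (1 + τ / |x|) := by
    have h4 : ‖γ - Complex.I * τ‖ ≤ ‖γ‖ + τ := by
      refine (norm_sub_le _ _).trans ?_
      simp [abs_of_pos hτ]
    have h5 : τ ≤ ‖γ‖ * (τ / |x|) := by
      rw [mul_div_assoc', le_div_iff₀ hxabs]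
      nlinarith
    linarith
  have h6 := Real.log_le_log (hxabs.trans_le h2) h3
  rw [Real.log_mul (hxabs.trans_le h1).ne' (by positivity)] at h6
  have h7 := log_one_add_le_sqrt (y := τ / |x|) (by positivity)
  rw [Real.sqrt_div hτ.le] at h7
  have h8 : 2 * (Real.sqrt τ / Real.sqrt |x|) = 2 * Real.sqrt τ * (Real.sqrt |x|)⁻¹ := by
    rw [div_eq_mul_inv]; ring
  linarith

lemma lint_tail {c : ℝ} (hc : 0 ≤ c) :
    ∫⁻ r in Set.Ioi (1 : ℝ), ENNReal.ofReal (c * r ^ (-2 : ℝ)) = ENNReal.ofReal c := by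
  rw [← ofReal_integral_eq_lintegral_ofReal]
  · rw [integral_const_mul, integral_Ioi_rpow_of_lt (by norm_num) one_pos]
    congr 1
    norm_num
  · exact (integrableOn_Ioi_rpow_of_lt (by norm_num) one_pos).const_mul _
  · rw [Filter.EventuallyLE, ae_restrict_iff' measurableSet_Ioi]
    apply Filter.Eventually.of_forall
    intro r hr
    have : 0 < r := one_pos.trans hr
    simp only [Pi.zero_apply]
    positivity

lemma lint_inv_sqrt {μ : Measure ℝ} [IsProbabilityMeasure μ] {M : ℝ≥0} (hM : μ ≤ M • volume)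
    {lam : ℝ} (hlam : 0 < lam) (a : ℝ) :
    ∫⁻ t, ENNReal.ofReal ((Real.sqrt |lam * t + a|)⁻¹) ∂μ ≤ ENNReal.ofReal (1 + 2 * M / lam) := by
  have hmeas : Measurable (fun t : ℝ => (Real.sqrt |lam * t + a|)⁻¹) := by fun_prop
  rw [lintegral_eq_lintegral_meas_lt μ (Filter.Eventually.of_forall (fun t => by
    simp only [Pi.zero_apply]; positivity)) hmeas.aemeasurable]
  have hsplit : Set.Ioi (0 : ℝ) = Set.Ioc 0 1 ∪ Set.Ioi 1 := by
    ext x; simp only [Set.mem_Ioi, Set.mem_union, Set.mem_Ioc]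
    constructor
    · intro h
      by_cases h1 : x ≤ 1
      · exact Or.inl ⟨h, h1⟩
      · exact Or.inr (not_le.mp h1)
    · rintro (h | h)
      · exact h.1
      · linarith
  rw [hsplit, lintegral_union measurableSet_Ioi]
  swap
  · rw [Set.disjoint_left]
    intro x h1 h2
    exact absurd h1.2 (not_le.mpr h2)
  have h1 : ∫⁻ r in Set.Ioc (0 : ℝ) 1, μ {t | r < (Real.sqrt |lam * t + a|)⁻¹} ≤ 1 := by
    calc ∫⁻ r in Set.Ioc (0 : ℝ) 1, μ {t | r < (Real.sqrt |lam * t + a|)⁻¹}
        ≤ ∫⁻ r in Set.Ioc (0 : ℝ) 1, 1 := lintegral_mono (fun r => prob_le_one)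
      _ = 1 := by rw [lintegral_one, Measure.restrict_apply MeasurableSet.univ]; simp
  have h2 : ∫⁻ r in Set.Ioi (1 : ℝ), μ {t | r < (Real.sqrt |lam * t + a|)⁻¹}
      ≤ ENNReal.ofReal (2 * M / lam) := by
    rw [← lint_tail (c := 2 * M / lam) (by positivity)]
    apply setLIntegral_mono' measurableSet_Ioi
    intro r hr
    have hr0 : 0 < r := one_pos.trans hr
    have hsub : {t | r < (Real.sqrt |lam * t + a|)⁻¹} ⊆ Metric.ball (-a / lam) (1 / (r ^ 2 * lam)) := by
      intro t ht
      simp only [Set.mem_ofPred_eq] at ht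
      rw [Metric.mem_ball, Real.dist_eq]
      have hs : 0 < Real.sqrt |lam * t + a| := by
        by_contra hcon
        have h0 : Real.sqrt |lam * t + a| = 0 := le_antisymm (not_lt.mp hcon) (Real.sqrt_nonneg _)
        rw [h0, _root_.inv_zero] at ht
        linarith
      rw [lt_inv_comm₀ hr0 hs] at ht
      have h3 : |lam * t + a| < r⁻¹ ^ 2 := by
        rw [← Real.sq_sqrt (abs_nonneg (lam * t + a))]
        exact pow_lt_pow_left₀ ht hs.le (by norm_num)
      have h4 : t - -a / lam = (lam * t + a) / lam := by field_simp; ring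
      rw [h4, abs_div, abs_of_pos hlam, div_lt_iff₀ hlam]
      have h5 : 1 / (r ^ 2 * lam) * lam = r⁻¹ ^ 2 := by field_simp
      rw [h5]; exact h3
    calc μ {t | r < (Real.sqrt |lam * t + a|)⁻¹}
        ≤ μ (Metric.ball (-a / lam) (1 / (r ^ 2 * lam))) := measure_mono hsub
      _ ≤ (M • volume) (Metric.ball (-a / lam) (1 / (r ^ 2 * lam))) := hM _
      _ = ENNReal.ofReal (2 * M / lam * r ^ (-2 : ℝ)) := by
          rw [Measure.smul_apply, Real.volume_ball, ENNReal.smul_def, smul_eq_mul,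
            ← ENNReal.ofReal_coe_nnreal, ← ENNReal.ofReal_mul (by positivity)]
          congr 1
          rw [Real.rpow_neg hr0.le]
          have : r ^ (2 : ℝ) = r ^ 2 := by
            rw [← Real.rpow_natCast]; norm_num
          rw [this]
          field_simp
  refine (add_le_add h1 h2).trans_eq ?_
  rw [← ENNReal.ofReal_one, ← ENNReal.ofReal_add (by norm_num) (by positivity)]

/-- single site averaging -/
lemma single_site {μ : Measure ℝ} [IsProbabilityMeasure μ] {M : ℝ≥0} (hM : μ ≤ M • volume)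
    {lam : ℝ} (hlam : 0 < lam) {τ : ℝ} (hτ : 0 < τ) (α β : ℂ) :
    ∫⁻ t, ENNReal.ofReal (Real.log ‖α + (((lam * t : ℝ) : ℂ) - Complex.I * τ) * β‖
      - Real.log ‖α + ((lam * t : ℝ) : ℂ) * β‖) ∂μ
      ≤ ENNReal.ofReal (2 * Real.sqrt τ * (1 + 2 * M / lam)) := by
  by_cases hβ : β = 0
  · subst hβ
    simp
  have hac : μ ≪ volume := (Measure.absolutelyContinuous_of_le_smul (c := M) hM)
  have hnull : ∀ᵐ t ∂μ, lam * t + (α / β).re ≠ 0 := by
    have : μ {t | ¬ (lam * t + (α / β).re ≠ 0)} = 0 := by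
      apply hac
      apply Set.Subsingleton.measure_zero
      intro s hs t ht
      simp only [Set.mem_ofPred_eq, ne_eq, not_not] at hs ht
      have : lam * (s - t) = 0 := by linarith
      rcases mul_eq_zero.mp this with h | h
      · exact absurd h hlam.ne'
      · linarith
    rwa [ae_iff]
  calc ∫⁻ t, ENNReal.ofReal (Real.log ‖α + (((lam * t : ℝ) : ℂ) - Complex.I * τ) * β‖
      - Real.log ‖α + ((lam * t : ℝ) : ℂ) * β‖) ∂μ
      ≤ ∫⁻ t, ENNReal.ofReal (2 * Real.sqrt τ) *
        ENNReal.ofReal ((Real.sqrt |lam * t + (α / β).re|)⁻¹) ∂μ := by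
        apply lintegral_mono_ae
        filter_upwards [hnull] with t ht
        rw [← ENNReal.ofReal_mul (by positivity)]
        apply ENNReal.ofReal_le_ofReal
        set γ : ℂ := ((lam * t : ℝ) : ℂ) + α / β with hγ
        have hγre : γ.re = lam * t + (α / β).re := by simp [hγ]
        have h1 : α + (((lam * t : ℝ) : ℂ) - Complex.I * τ) * β = (γ - Complex.I * τ) * β := by
          rw [hγ]; field_simp; ring
        have h2 : α + ((lam * t : ℝ) : ℂ) * β = γ * β := by
          rw [hγ]; field_simp; ring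
        have h3 := log_diff_le hτ hγre ht
        have hβn : ‖β‖ ≠ 0 := norm_ne_zero_iff.mpr hβ
        have hγn : ‖γ‖ ≠ 0 := by
          rw [norm_ne_zero_iff]
          intro h0
          rw [h0] at hγre
          exact ht hγre.symm
        have hγn2 : ‖γ - Complex.I * τ‖ ≠ 0 := by
          rw [norm_ne_zero_iff]
          intro h0
          have h5 : (γ - Complex.I * τ).re = lam * t + (α / β).re := by
            rw [← hγre]; simp
          rw [h0] at h5
          exact ht h5.symm
        rw [h1, h2, norm_mul, norm_mul, Real.log_mul hγn2 hβn, Real.log_mul hγn hβn]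
        linarith
    _ = ENNReal.ofReal (2 * Real.sqrt τ) *
        ∫⁻ t, ENNReal.ofReal ((Real.sqrt |lam * t + (α / β).re|)⁻¹) ∂μ := by
        rw [lintegral_const_mul _ (by fun_prop)]
    _ ≤ ENNReal.ofReal (2 * Real.sqrt τ) * ENNReal.ofReal (1 + 2 * M / lam) := by
        gcongr
        exact lint_inv_sqrt hM hlam _
    _ = _ := by rw [← ENNReal.ofReal_mul (by positivity)]

end Pool.Agent.Helper19
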