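import Pool.Agent.Helper19.Torus

set_option autoImplicit false

open MeasureTheory Filter Topology Matrix
open scoped ENNReal NNReal Real

namespace Pool.Agent.Helper19

set_option linter.unusedSectionVars false

section
variable {α β : Type*} [Fintype α] [DecidableEq α] [Fintype β] [DecidableEq β]

/-- a block of the inverse -/
lemma det_block_inv (A : Matrix α α ℂ) (B : Matrix α β ℂ) (C : Matrix β α ℂ) (D : Matrix β β ℂ)
    (h : (Matrix.fromBlocks A B C D).det ≠ 0) :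
    A.det = (Matrix.fromBlocks A B C D).det
      * (Matrix.of (fun r r' : β => (Matrix.fromBlocks A B C D)⁻¹ (Sum.inr r) (Sum.inr r'))).det := by
  set K := Matrix.fromBlocks A B C D with hK
  set X := K⁻¹ with hX
  have hKX : K * X = 1 := Matrix.mul_nonsing_inv K (isUnit_iff_ne_zero.mpr h)
  have hXb : X = Matrix.fromBlocks X.toBlocks₁₁ X.toBlocks₁₂ X.toBlocks₂₁ X.toBlocks₂₂ :=
    (Matrix.fromBlocks_toBlocks X).symm
  rw [hXb, hK, Matrix.fromBlocks_multiply, ← Matrix.fromBlocks_one, Matrix.fromBlocks_inj] at hKX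
  obtain ⟨_, h12, _, h22⟩ := hKX
  have h1 : K * Matrix.fromBlocks (1 : Matrix α α ℂ) X.toBlocks₁₂ 0 X.toBlocks₂₂
      = Matrix.fromBlocks A 0 C 1 := by
    rw [hK, Matrix.fromBlocks_multiply, h12, h22]
    simp
  have h2 := congrArg Matrix.det h1
  rw [Matrix.det_mul, Matrix.det_fromBlocks_zero₂₁, Matrix.det_one, one_mul,
    Matrix.det_fromBlocks_zero₁₂, Matrix.det_one, mul_one] at h2
  rw [← h2]
  rfl

lemma sub_col_le_fro (X : Matrix (α ⊕ β) (α ⊕ β) ℂ) (r' : β) :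
    ∑ r : β, ‖X (Sum.inr r) (Sum.inr r')‖ ^ 2 ≤ fro X := by
  unfold fro
  rw [Fintype.sum_sum_type]
  have h1 : 0 ≤ ∑ a : α, ∑ q, ‖X (Sum.inl a) q‖ ^ 2 := by positivity
  have h2 : ∑ r : β, ‖X (Sum.inr r) (Sum.inr r')‖ ^ 2 ≤ ∑ r : β, ∑ q, ‖X (Sum.inr r) q‖ ^ 2 := by
    apply Finset.sum_le_sum
    intro r _
    exact Finset.single_le_sum (f := fun q => ‖X (Sum.inr r) q‖ ^ 2) (fun q _ => by positivity)
      (Finset.mem_univ (Sum.inr r'))
  linarith

lemma log_det_block (A : Matrix α α ℂ) (B : Matrix α β ℂ) (C : Matrix β α ℂ) (D : Matrix β β ℂ)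
    (h : (Matrix.fromBlocks A B C D).det ≠ 0) (hA : A.det ≠ 0) :
    Real.log ‖A.det‖ ≤ Real.log ‖(Matrix.fromBlocks A B C D).det‖
      + (Fintype.card β : ℝ) / 2 * Real.log (1 + fro (Matrix.fromBlocks A B C D)⁻¹) := by
  set K := Matrix.fromBlocks A B C D with hK
  have h1 := det_block_inv A B C D h
  rw [← hK] at h1
  set Y : Matrix β β ℂ := Matrix.of (fun r r' : β => K⁻¹ (Sum.inr r) (Sum.inr r')) with hY
  have hY0 : Y.det ≠ 0 := by
    intro h2; rw [h2, mul_zero] at h1; exact hA h1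
  set F := 1 + fro K⁻¹ with hF
  have hF1 : 1 ≤ F := by
    have := fro_nonneg K⁻¹
    linarith
  have hFpos : 0 < Real.sqrt F := Real.sqrt_pos.mpr (by linarith)
  have h2 := hadamard Y (fun _ => Real.sqrt F) (fun _ => hFpos) (fun r' => by
    rw [Real.sq_sqrt (by linarith)]
    have := sub_col_le_fro K⁻¹ r'
    simp only [hY, Matrix.of_apply]
    linarith)
  have h3 := Real.log_le_log (norm_pos_iff.mpr hY0) h2
  rw [Real.log_prod (fun j _ => hFpos.ne'), Finset.sum_const, Finset.card_univ, nsmul_eq_mul,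
    Real.log_sqrt (by linarith)] at h3
  rw [h1, norm_mul, Real.log_mul (norm_pos_iff.mpr h).ne' (norm_pos_iff.mpr hY0).ne']
  linarith

/-- the off diagonal block of the inverse -/
lemma inv_block12 (A : Matrix α α ℂ) (B : Matrix α β ℂ) (C : Matrix β α ℂ) (D : Matrix β β ℂ)
    (h : (Matrix.fromBlocks A B C D).det ≠ 0) (hD : D.det ≠ 0) (a : α) (b : β) :
    (Matrix.fromBlocks A B C D)⁻¹ (Sum.inl a) (Sum.inr b)
      = -∑ b', (∑ a', (Matrix.fromBlocks A B C D)⁻¹ (Sum.inl a) (Sum.inl a') * B a' b') * D⁻¹ b' b := by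
  set K := Matrix.fromBlocks A B C D with hK
  set X := K⁻¹ with hX
  have hXK : X * K = 1 := Matrix.nonsing_inv_mul K (isUnit_iff_ne_zero.mpr h)
  have hXb : X = Matrix.fromBlocks X.toBlocks₁₁ X.toBlocks₁₂ X.toBlocks₂₁ X.toBlocks₂₂ :=
    (Matrix.fromBlocks_toBlocks X).symm
  rw [hXb, hK, Matrix.fromBlocks_multiply, ← Matrix.fromBlocks_one, Matrix.fromBlocks_inj] at hXK
  obtain ⟨_, h12, _, _⟩ := hXK
  have h1 : X.toBlocks₁₂ = -(X.toBlocks₁₁ * B * D⁻¹) := by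
    have h2 : (X.toBlocks₁₁ * B + X.toBlocks₁₂ * D) * D⁻¹ = 0 := by rw [h12, Matrix.zero_mul]
    rw [Matrix.add_mul, Matrix.mul_assoc X.toBlocks₁₂, Matrix.mul_nonsing_inv D
      (isUnit_iff_ne_zero.mpr hD), Matrix.mul_one] at h2
    exact eq_neg_of_add_eq_zero_right h2
  have h2 : X (Sum.inl a) (Sum.inr b) = X.toBlocks₁₂ a b := rfl
  rw [h2, h1, Matrix.neg_apply, Matrix.mul_apply]
  rfl

/-- representation of a column of the inverse -/
lemma col_abs {A : Matrix α α ℂ} (hdet : A.det ≠ 0) {v err : α → ℂ} {j : α}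
    (h : A.mulVec v = fun p => (if p = j then (1 : ℂ) else 0) + err p) {δ δ' : ℝ}
    (he : ∀ p, ‖err p‖ ≤ δ) {ρ : Type*} [Fintype ρ] {f : ρ → α} (hf : Function.Injective f)
    (hv : ∀ r, ‖v (f r)‖ ≤ δ') :
    ∑ r, ‖A⁻¹ (f r) j‖ ^ 2 ≤ 2 * Fintype.card ρ * δ' ^ 2 + 2 * Fintype.card α * δ ^ 2 * fro A⁻¹ := by
  set G := A⁻¹ with hG
  have hGA : G * A = 1 := Matrix.nonsing_inv_mul A (isUnit_iff_ne_zero.mpr hdet)
  have hcol : ∀ i, G i j = v i - ∑ p, G i p * err p := by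
    intro i
    have h2 : G.mulVec (A.mulVec v) = v := by
      rw [Matrix.mulVec_mulVec, hGA, Matrix.one_mulVec]
    rw [h] at h2
    have h3 := congrFun h2 i
    rw [Matrix.mulVec, dotProduct] at h3
    simp only [mul_add, Finset.sum_add_distrib, mul_ite, mul_one, mul_zero, Finset.sum_ite_eq',
      Finset.mem_univ, if_true] at h3
    rw [← h3]; ring
  have hb : ∀ r, ‖G (f r) j‖ ^ 2 ≤ 2 * δ' ^ 2
      + 2 * Fintype.card α * δ ^ 2 * ∑ p, ‖G (f r) p‖ ^ 2 := by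
    intro r
    rw [hcol]
    have h1 := hv r
    have h3 : ‖∑ p, G (f r) p * err p‖ ≤ (∑ p, ‖G (f r) p‖) * δ := by
      refine (norm_sum_le _ _).trans ?_
      rw [Finset.sum_mul]
      apply Finset.sum_le_sum
      intro p _
      rw [norm_mul]
      exact mul_le_mul_of_nonneg_left (he p) (norm_nonneg _)
    have h4 : (∑ p, ‖G (f r) p‖) ^ 2 ≤ (Fintype.card α : ℝ) * ∑ p, ‖G (f r) p‖ ^ 2 := by
      have := sq_sum_le_card_mul_sum_sq (s := (Finset.univ : Finset α)) (f := fun p => ‖G (f r) p‖)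
      rwa [Finset.card_univ] at this
    have h5 : ‖∑ p, G (f r) p * err p‖ ^ 2 ≤ (Fintype.card α : ℝ) * δ ^ 2 * ∑ p, ‖G (f r) p‖ ^ 2 := by
      calc ‖∑ p, G (f r) p * err p‖ ^ 2 ≤ ((∑ p, ‖G (f r) p‖) * δ) ^ 2 :=
            pow_le_pow_left₀ (norm_nonneg _) h3 2
        _ = δ ^ 2 * (∑ p, ‖G (f r) p‖) ^ 2 := by ring
        _ ≤ δ ^ 2 * ((Fintype.card α : ℝ) * ∑ p, ‖G (f r) p‖ ^ 2) :=
            mul_le_mul_of_nonneg_left h4 (by positivity)
        _ = _ := by ring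
    have h6 := norm_sub_le (v (f r)) (∑ p, G (f r) p * err p)
    have h7 := pow_le_pow_left₀ (norm_nonneg _) h6 2
    have h8 := pow_le_pow_left₀ (norm_nonneg _) h1 2
    nlinarith [sq_nonneg (‖v (f r)‖ - ‖∑ p, G (f r) p * err p‖)]
  have hfro : ∑ r, ∑ p, ‖G (f r) p‖ ^ 2 ≤ fro G := by
    unfold fro
    have h1 : ∑ r, ∑ p, ‖G (f r) p‖ ^ 2 = ∑ i ∈ Finset.univ.image f, ∑ p, ‖G i p‖ ^ 2 := by
      rw [Finset.sum_image (fun x _ y _ h => hf h)]
    rw [h1]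
    apply Finset.sum_le_sum_of_subset_of_nonneg (Finset.subset_univ _)
    intro i _ _
    positivity
  calc ∑ r, ‖G (f r) j‖ ^ 2 ≤ ∑ r, (2 * δ' ^ 2
      + 2 * Fintype.card α * δ ^ 2 * ∑ p, ‖G (f r) p‖ ^ 2) := Finset.sum_le_sum (fun r _ => hb r)
    _ = 2 * Fintype.card ρ * δ' ^ 2 + 2 * Fintype.card α * δ ^ 2 * ∑ r, ∑ p, ‖G (f r) p‖ ^ 2 := by
        rw [Finset.sum_add_distrib, Finset.sum_const, ← Finset.mul_sum, Finset.card_univ, nsmul_eq_mul]
        ring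
    _ ≤ _ := by
        have := mul_le_mul_of_nonneg_left hfro (by positivity : 0 ≤ 2 * (Fintype.card α : ℝ) * δ ^ 2)
        linarith

end

section
variable {j L : ℕ}

/-- the cylinder matrix -/
noncomputable def HC (j L : ℕ) (V : Site → ℝ) :=
  RM (TR (2 * j + 4) L 1 (s1 j L) (s1 j L)) (s1 j L) V

/-- the right half of the cylinder -/
noncomputable def HB (j L : ℕ) (V : Site → ℝ) :=
  RM (TR (2 * j + 4) L 1 (sB j L) (sB j L)) (sB j L) V

/-- the twisted torus -/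
noncomputable def KT (j L : ℕ) (w : ℂ) (V : Site → ℝ) :=
  RM (TR (2 * j + 4) L w (s0 j L) (s0 j L)) (s0 j L) V

lemma KT_blocks (w : ℂ) (V : Site → ℝ) : KT j L w V
    = Matrix.fromBlocks (HC j L V) (TR (2 * j + 4) L w (s1 j L) (sC j L))
      (TR (2 * j + 4) L w (sC j L) (s1 j L)) (RM (TR (2 * j + 4) L w (sC j L) (sC j L)) (sC j L) V) := by
  unfold KT HC s0
  rw [RM_sum, TR_cyl]

lemma HC_blocks (V : Site → ℝ) : HC j L V
    = Matrix.fromBlocks (RM (TR (2 * j + 4) L 1 (sA j L) (sA j L)) (sA j L) V)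
      (TR (2 * j + 4) L 1 (sA j L) (sB j L))
      (TR (2 * j + 4) L 1 (sB j L) (sA j L)) (HB j L V) := by
  unfold HC HB s1
  rw [RM_sum]

/-- entry abbreviations -/
noncomputable def G00 (G : Matrix ((Fin (j + 2) × Fin L) ⊕ (Fin (j + 1) × Fin L))
    ((Fin (j + 2) × Fin L) ⊕ (Fin (j + 1) × Fin L)) ℂ) (r r' : Fin L) : ℂ :=
  G (Sum.inl (0, r)) (Sum.inl (0, r'))
noncomputable def Gl0 (G : Matrix ((Fin (j + 2) × Fin L) ⊕ (Fin (j + 1) × Fin L))
    ((Fin (j + 2) × Fin L) ⊕ (Fin (j + 1) × Fin L)) ℂ) (r r' : Fin L) : ℂ :=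
  G (Sum.inr (Fin.last j, r)) (Sum.inl (0, r'))
noncomputable def G0l (G : Matrix ((Fin (j + 2) × Fin L) ⊕ (Fin (j + 1) × Fin L))
    ((Fin (j + 2) × Fin L) ⊕ (Fin (j + 1) × Fin L)) ℂ) (r r' : Fin L) : ℂ :=
  G (Sum.inl (0, r)) (Sum.inr (Fin.last j, r'))
noncomputable def Gll (G : Matrix ((Fin (j + 2) × Fin L) ⊕ (Fin (j + 1) × Fin L))
    ((Fin (j + 2) × Fin L) ⊕ (Fin (j + 1) × Fin L)) ℂ) (r r' : Fin L) : ℂ :=
  G (Sum.inr (Fin.last j, r)) (Sum.inr (Fin.last j, r'))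

lemma TR_C1 (w : ℂ) (r : Fin L) (f : (Fin (j + 2) × Fin L) ⊕ (Fin (j + 1) × Fin L) → ℂ) :
    ∑ p, TR (2 * j + 4) L w (sC j L) (s1 j L) r p * f p
      = -w * f (Sum.inl (0, r)) - f (Sum.inr (Fin.last j, r)) := by
  rw [Fintype.sum_sum_type]
  have e1 : ∀ a, TR (2 * j + 4) L w (sC j L) (s1 j L) r (Sum.inl a) = if a = (0, r) then -w else 0 :=
    fun a => TR_CA w r a
  have e2 : ∀ b, TR (2 * j + 4) L w (sC j L) (s1 j L) r (Sum.inr b)
      = if b = (Fin.last j, r) then -1 else 0 := fun b => TR_CB w r b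
  simp only [e1, e2, ite_mul, zero_mul, Finset.sum_ite_eq', Finset.mem_univ, if_true]
  ring

lemma TR_1C (w : ℂ) (r : Fin L) (f : (Fin (j + 2) × Fin L) ⊕ (Fin (j + 1) × Fin L) → ℂ) :
    ∑ p, f p * TR (2 * j + 4) L w (s1 j L) (sC j L) p r
      = -w⁻¹ * f (Sum.inl (0, r)) - f (Sum.inr (Fin.last j, r)) := by
  rw [Fintype.sum_sum_type]
  have e1 : ∀ a, TR (2 * j + 4) L w (s1 j L) (sC j L) (Sum.inl a) r = if a = (0, r) then -w⁻¹ else 0 :=
    fun a => TR_AC w a r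
  have e2 : ∀ b, TR (2 * j + 4) L w (s1 j L) (sC j L) (Sum.inr b) r
      = if b = (Fin.last j, r) then -1 else 0 := fun b => TR_BC w b r
  simp only [e1, e2, mul_ite, mul_zero, Finset.sum_ite_eq', Finset.mem_univ, if_true]
  ring

/-- the Schur complement -/
lemma schur_entry (w : ℂ) (hw : w ≠ 0) (G : Matrix ((Fin (j + 2) × Fin L) ⊕ (Fin (j + 1) × Fin L))
    ((Fin (j + 2) × Fin L) ⊕ (Fin (j + 1) × Fin L)) ℂ) (r r' : Fin L) :
    (TR (2 * j + 4) L w (sC j L) (s1 j L) * G * TR (2 * j + 4) L w (s1 j L) (sC j L)) r r'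
      = G00 G r r' + w * G0l G r r' + w⁻¹ * Gl0 G r r' + Gll G r r' := by
  rw [Matrix.mul_apply, TR_1C, Matrix.mul_apply, Matrix.mul_apply, TR_C1, TR_C1]
  unfold G00 G0l Gl0 Gll
  field_simp
  ring

/-- the product structure of the far entries -/
lemma far_entry {V : Site → ℝ} (hH : (HC j L V).det ≠ 0) (hB : (HB j L V).det ≠ 0) (r r' : Fin L) :
    G0l (HC j L V)⁻¹ r r' = ∑ t : Fin L, (HC j L V)⁻¹ (Sum.inl (0, r)) (Sum.inl (Fin.last (j + 1), t))
      * (HB j L V)⁻¹ (0, t) (Fin.last j, r') := by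
  unfold G0l
  rw [HC_blocks] at hH ⊢
  rw [inv_block12 _ _ _ _ hH hB]
  have e1 : ∀ b' : Fin (j + 1) × Fin L, ∑ a' : Fin (j + 2) × Fin L,
      (Matrix.fromBlocks (RM (TR (2 * j + 4) L 1 (sA j L) (sA j L)) (sA j L) V)
      (TR (2 * j + 4) L 1 (sA j L) (sB j L))
      (TR (2 * j + 4) L 1 (sB j L) (sA j L)) (HB j L V))⁻¹ (Sum.inl (0, r)) (Sum.inl a')
      * TR (2 * j + 4) L 1 (sA j L) (sB j L) a' b'
      = if b'.1 = 0 then -(Matrix.fromBlocks (RM (TR (2 * j + 4) L 1 (sA j L) (sA j L)) (sA j L) V)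
      (TR (2 * j + 4) L 1 (sA j L) (sB j L))
      (TR (2 * j + 4) L 1 (sB j L) (sA j L)) (HB j L V))⁻¹ (Sum.inl (0, r))
        (Sum.inl (Fin.last (j + 1), b'.2)) else 0 := by
    intro b'
    by_cases hb : b'.1 = 0
    · rw [if_pos hb, Finset.sum_eq_single (Fin.last (j + 1), b'.2)]
      · rw [TR_AB, if_pos ⟨rfl, hb, rfl⟩]; ring
      · intro a _ ha
        rw [TR_AB, if_neg, mul_zero]
        rintro ⟨h1, _, h3⟩
        exact ha (Prod.ext h1 h3)
      · intro h; exact absurd (Finset.mem_univ _) h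
    · rw [if_neg hb]
      apply Finset.sum_eq_zero
      intro a _
      rw [TR_AB, if_neg (fun h => hb h.2.1), mul_zero]
  simp only [e1]
  rw [Fintype.sum_prod_type, Finset.sum_eq_single (0 : Fin (j + 1))]
  · simp only [if_true]
    rw [← Finset.sum_neg_distrib]
    apply Finset.sum_congr rfl
    intro t _
    ring
  · intro b _ hb
    apply Finset.sum_eq_zero
    intro t _
    rw [if_neg hb, zero_mul]
  · intro h; exact absurd (Finset.mem_univ _) h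

/-- the enlarged Schur matrix -/
noncomputable def SM (j L : ℕ) (w : ℂ) (V : Site → ℝ) : Matrix (Fin L ⊕ Fin L) (Fin L ⊕ Fin L) ℂ :=
  Matrix.fromBlocks
    (Matrix.of (fun r r' => RM (TR (2 * j + 4) L w (sC j L) (sC j L)) (sC j L) V r r'
      - (G00 (HC j L V)⁻¹ r r' + w⁻¹ * Gl0 (HC j L V)⁻¹ r r' + Gll (HC j L V)⁻¹ r r')))
    (Matrix.of (fun r t => w * (HC j L V)⁻¹ (Sum.inl (0, r)) (Sum.inl (Fin.last (j + 1), t))))
    (Matrix.of (fun t r' => (HB j L V)⁻¹ (0, t) (Fin.last j, r')))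
    1

lemma det_KT {w : ℂ} (hw : w ≠ 0) {V : Site → ℝ} (hH : (HC j L V).det ≠ 0) (hB : (HB j L V).det ≠ 0) :
    (KT j L w V).det = (HC j L V).det * (SM j L w V).det := by
  rw [KT_blocks]
  have : Invertible (HC j L V) := Matrix.invertibleOfIsUnitDet _ (isUnit_iff_ne_zero.mpr hH)
  rw [Matrix.det_fromBlocks₁₁]
  congr 1
  unfold SM
  rw [Matrix.det_fromBlocks_one₂₂]
  congr 1
  ext r r'
  rw [Matrix.sub_apply, Matrix.sub_apply, Matrix.invOf_eq_nonsing_inv, schur_entry w hw, far_entry hH hB,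
    Matrix.mul_apply, Matrix.of_apply]
  simp only [Matrix.of_apply, mul_assoc]
  rw [← Finset.mul_sum]
  ring

end

end Pool.Agent.Helper19
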