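import Pool.Agent.Helper19.Step1

set_option autoImplicit false

open MeasureTheory Filter Topology Matrix
open scoped ENNReal NNReal Real

namespace Pool.Agent.Helper19

set_option linter.unusedSectionVars false

section
variable {j L : ℕ}

lemma cyl_range {x : Site} : (∃ q, s1 j L q = x) ↔
    (0 ≤ x.1 ∧ x.1 ≤ 2 * (j : ℤ) + 2 ∧ 0 ≤ x.2 ∧ x.2 < L) := by
  constructor
  · rintro ⟨(⟨a, b⟩ | ⟨a, b⟩), rfl⟩
    · have := a.2; have := b.2
      simp only [s1, Sum.elim_inl, sA]
      omega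
    · have := a.2; have := b.2
      simp only [s1, Sum.elim_inr, sB]
      omega
  · rintro ⟨h1, h2, h3, h4⟩
    by_cases h : x.1 ≤ j + 1
    · refine ⟨Sum.inl (⟨x.1.toNat, by omega⟩, ⟨x.2.toNat, by omega⟩), ?_⟩
      simp only [s1, Sum.elim_inl, sA]
      ext
      · simp only; omega
      · simp only; omega
    · refine ⟨Sum.inr (⟨(x.1 - (j + 2)).toNat, by omega⟩, ⟨x.2.toNat, by omega⟩), ?_⟩
      simp only [s1, Sum.elim_inr, sB]
      ext
      · simp only; omega
      · simp only; omega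

lemma le_nrm {h : ℕ} {x : Site} (hx : (h : ℤ) ≤ |x.1| ∨ (h : ℤ) ≤ |x.2|) : (h : ℝ) ≤ nrm x := by
  unfold nrm
  have : (h : ℤ) ≤ |x.1| + |x.2| := by
    have a1 := abs_nonneg x.1
    have a2 := abs_nonneg x.2
    omega
  exact_mod_cast this

lemma cyl_far {t : ℕ} (ht : j + 1 ≤ t) (ht2 : t + (j + 1) < L)
    (p : (Fin (j + 2) × Fin L) ⊕ (Fin (j + 1) × Fin L)) {d : Site} (hd : d ∈ dirs) :
    (red (2 * j + 4) L (s1 j L p + d) = s1 j L p + d ∧ ∃ q, s1 j L q = s1 j L p + d) ∨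
    (((j + 1 : ℕ) : ℝ) ≤ nrm (s1 j L p + d - ((j : ℤ) + 1, (t : ℤ))) ∧
      ∀ q, s1 j L q = red (2 * j + 4) L (s1 j L p + d) →
        ((j + 1 : ℕ) : ℝ) ≤ nrm (red (2 * j + 4) L (s1 j L p + d) - ((j : ℤ) + 1, (t : ℤ)))) := by
  have hp := cyl_range.mp ⟨p, rfl⟩
  set x := s1 j L p with hx
  obtain ⟨p1, p2, p3, p4⟩ := hp
  have hdc := dirs_cases hd
  have x1 : (x + d).1 = x.1 + d.1 := rfl
  have x2 : (x + d).2 = x.2 + d.2 := rfl
  rcases ecases (N := 2 * j + 4) (by omega) (y := (x + d).1) (by omega) (by push_cast; omega)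
    with ⟨g1, g2, g3⟩ | ⟨g1, g2, g3⟩ | ⟨g1, g2, g3, g4⟩
  · right
    constructor
    · apply le_nrm
      left
      rw [Prod.fst_sub, g1]
      rw [le_abs]
      right
      push_cast; omega
    · intro q hq
      exfalso
      have h1 := cyl_range.mp ⟨q, hq⟩
      unfold red at h1
      simp only [g2] at h1
      push_cast at h1
      omega
  · push_cast at g1; omega
  · rcases ecases (N := L) (by omega) (y := (x + d).2) (by omega) (by omega)
      with ⟨f1, f2, f3⟩ | ⟨f1, f2, f3⟩ | ⟨f1, f2, f3, f4⟩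
    · right
      constructor
      · apply le_nrm
        right
        rw [Prod.snd_sub, f1, le_abs]
        right
        push_cast; omega
      · intro q _
        apply le_nrm
        right
        unfold red
        rw [Prod.snd_sub, f2, le_abs]
        left
        push_cast; omega
    · right
      constructor
      · apply le_nrm
        right
        rw [Prod.snd_sub, f1, le_abs]
        left
        push_cast; omega
      · intro q _
        apply le_nrm
        right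
        unfold red
        rw [Prod.snd_sub, f2, le_abs]
        right
        push_cast; omega
    · by_cases h : (x + d).1 ≤ 2 * (j : ℤ) + 2
      · left
        constructor
        · unfold red
          rw [g3, f3]
        · exact cyl_range.mpr ⟨g1, h, f1, f2⟩
      · right
        constructor
        · apply le_nrm
          left
          rw [Prod.fst_sub, le_abs]
          left
          push_cast; omega
        · intro q hq
          exfalso
          have h1 := cyl_range.mp ⟨q, hq⟩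
          unfold red at h1
          simp only [g3] at h1
          omega

open Classical in
/-- boundary error on the cylinder -/
noncomputable def cerr (j L : ℕ) (u : Site → ℂ) (p : (Fin (j + 2) × Fin L) ⊕ (Fin (j + 1) × Fin L)) : ℂ :=
  ∑ d ∈ dirs, (u (s1 j L p + d) - if ∃ q, s1 j L q = red (2 * j + 4) L (s1 j L p + d) then
    u (red (2 * j + 4) L (s1 j L p + d)) else 0)

lemma norm_cerr_le {t : ℕ} (ht : j + 1 ≤ t) (ht2 : t + (j + 1) < L) {m k : ℝ} (hm : 0 ≤ m)
    {u : Site → ℂ} (hu : Dec m k ((j : ℤ) + 1, (t : ℤ)) u)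
    (p : (Fin (j + 2) × Fin L) ⊕ (Fin (j + 1) × Fin L)) :
    ‖cerr j L u p‖ ≤ 8 * (k * Real.exp (-(m * (j + 1 : ℕ)))) := by
  have hk := hu.nonneg
  unfold cerr
  refine (norm_sum_le _ _).trans ?_
  have h1 : ∀ d ∈ dirs, ‖u (s1 j L p + d) - (if ∃ q, s1 j L q = red (2 * j + 4) L (s1 j L p + d) then
    u (red (2 * j + 4) L (s1 j L p + d)) else 0)‖ ≤ 2 * (k * Real.exp (-(m * (j + 1 : ℕ)))) := by
    intro d hd
    rcases cyl_far ht ht2 p hd with ⟨h1, h2⟩ | ⟨h1, h2⟩
    · rw [h1, if_pos h2, sub_self, norm_zero]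
      positivity
    · refine (norm_sub_le _ _).trans ?_
      have h3 : ‖u (s1 j L p + d)‖ ≤ k * Real.exp (-(m * (j + 1 : ℕ))) := by
        refine (hu _).trans ?_
        apply mul_le_mul_of_nonneg_left _ hk
        apply Real.exp_le_exp.mpr
        have := mul_le_mul_of_nonneg_left h1 hm
        linarith
      have h4 : ‖(if ∃ q, s1 j L q = red (2 * j + 4) L (s1 j L p + d) then
          u (red (2 * j + 4) L (s1 j L p + d)) else 0)‖ ≤ k * Real.exp (-(m * (j + 1 : ℕ))) := by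
        split_ifs with h5
        · obtain ⟨q, hq⟩ := h5
          refine (hu _).trans ?_
          apply mul_le_mul_of_nonneg_left _ hk
          apply Real.exp_le_exp.mpr
          have := mul_le_mul_of_nonneg_left (h2 q hq) hm
          linarith
        · rw [norm_zero]; positivity
      linarith
  refine (Finset.sum_le_sum h1).trans ?_
  rw [Finset.sum_const, nsmul_eq_mul]
  have : (dirs.card : ℝ) ≤ 4 := by
    have : dirs.card ≤ 4 := by
      unfold dirs
      exact Finset.card_le_four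
    exact_mod_cast this
  have h2 : 0 ≤ 2 * (k * Real.exp (-(m * (j + 1 : ℕ)))) := by positivity
  have h3 := mul_le_mul_of_nonneg_right this h2
  linarith

lemma HC_mulVec (V : Site → ℝ) {u f : Site → ℂ} (h : Sol V 0 u f)
    (p : (Fin (j + 2) × Fin L) ⊕ (Fin (j + 1) × Fin L)) :
    (HC j L V).mulVec (fun q => u (s1 j L q)) p = f (s1 j L p) + cerr j L u p := by
  have hin : ∀ p, InBox (2 * j + 4) L (s1 j L p) := fun p => s0_inBox j L (Sum.inl p)
  have h1 : (HC j L V).mulVec (fun q => u (s1 j L q)) p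
      = ((V (s1 j L p) : ℝ) : ℂ) * u (s1 j L p)
        - ∑ d ∈ dirs, ∑ q, (if red (2 * j + 4) L (s1 j L p + d) = s1 j L q then u (s1 j L q) else 0) := by
    unfold HC RM TR Matrix.mulVec dotProduct
    simp only [add_mul, Finset.sum_add_distrib, ite_mul, zero_mul, neg_mul, Finset.sum_neg_distrib,
      Finset.sum_ite_eq, Finset.mem_univ, if_true, Finset.sum_mul]
    rw [Finset.sum_comm, add_comm, ← sub_eq_add_neg]
    congr 1
    apply Finset.sum_congr rfl
    intro d _
    apply Finset.sum_congr rfl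
    intro q _
    split_ifs with h
    · unfold wt
      rw [_root_.one_zpow, one_mul]
    · rfl
  rw [h1]
  unfold cerr
  have h2 := h (s1 j L p)
  rw [adj_eq_sum, sub_zero] at h2
  rw [← h2, Finset.sum_sub_distrib]
  have h3 : ∀ d ∈ dirs, ∑ q, (if red (2 * j + 4) L (s1 j L p + d) = s1 j L q then u (s1 j L q) else 0)
      = (if ∃ q, s1 j L q = red (2 * j + 4) L (s1 j L p + d) then
        u (red (2 * j + 4) L (s1 j L p + d)) else 0) := by
    intro d _
    by_cases h : ∃ q, s1 j L q = red (2 * j + 4) L (s1 j L p + d)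
    · rw [if_pos h]
      obtain ⟨q0, hq0⟩ := h
      rw [Finset.sum_eq_single q0]
      · rw [if_pos hq0.symm, hq0]
      · intro q _ hq
        rw [if_neg]
        intro h2
        exact hq (s1_injective j L (h2.symm.trans hq0.symm))
      · intro h2; exact absurd (Finset.mem_univ _) h2
    · rw [if_neg h]
      apply Finset.sum_eq_zero
      intro q _
      rw [if_neg (fun h2 => h ⟨q, h2.symm⟩)]
  rw [Finset.sum_congr rfl h3]
  ring

lemma card_cyl : Fintype.card ((Fin (j + 2) × Fin L) ⊕ (Fin (j + 1) × Fin L)) = (2 * j + 3) * L := by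
  simp only [Fintype.card_sum, Fintype.card_prod, Fintype.card_fin]
  ring

/-- good columns -/
lemma good_column {t : Fin L} (ht : j + 1 ≤ (t : ℕ)) (ht2 : (t : ℕ) + (j + 1) < L) {m k : ℝ} (hm : 0 ≤ m)
    {V : Site → ℝ} (hdet : (HC j L V).det ≠ 0)
    (hc : CtrlSite m k V ((j : ℤ) + 1, ((t : ℕ) : ℤ))) :
    ∑ r : Fin L, ‖(HC j L V)⁻¹ (Sum.inl (0, r)) (Sum.inl (Fin.last (j + 1), t))‖ ^ 2
      ≤ 130 * k ^ 2 * ((2 * j + 3 : ℕ) * L) * Real.exp (-(m * (j + 1 : ℕ))) ^ 2
        * (1 + fro (HC j L V)⁻¹) := by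
  obtain ⟨u, hu, hS⟩ := hc
  have hk := hu.nonneg
  set E := Real.exp (-(m * (j + 1 : ℕ))) with hE
  have hE0 : 0 < E := Real.exp_pos _
  have hb : s1 j L (Sum.inl (Fin.last (j + 1), t)) = ((j : ℤ) + 1, ((t : ℕ) : ℤ)) := by
    simp only [s1, Sum.elim_inl, sA, Fin.val_last]
    push_cast
    rfl
  have h1 : (HC j L V).mulVec (fun q => u (s1 j L q))
      = fun p => (if p = Sum.inl (Fin.last (j + 1), t) then (1 : ℂ) else 0) + cerr j L u p := by
    funext p
    rw [HC_mulVec V hS p, dl_apply, ← hb]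
    simp only [(s1_injective j L).eq_iff]
  have hf : Function.Injective (fun r : Fin L =>
      (Sum.inl (0, r) : (Fin (j + 2) × Fin L) ⊕ (Fin (j + 1) × Fin L))) := by
    intro r r' h
    have := Sum.inl_injective h
    exact congrArg Prod.snd this
  have hv : ∀ r : Fin L, ‖(fun q => u (s1 j L q)) ((fun r : Fin L =>
      (Sum.inl (0, r) : (Fin (j + 2) × Fin L) ⊕ (Fin (j + 1) × Fin L))) r)‖ ≤ k * E := by
    intro r
    refine (hu _).trans ?_
    apply mul_le_mul_of_nonneg_left _ hk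
    apply Real.exp_le_exp.mpr
    have h3 : ((j + 1 : ℕ) : ℝ) ≤ nrm (s1 j L (Sum.inl (0, r)) - ((j : ℤ) + 1, ((t : ℕ) : ℤ))) := by
      apply le_nrm
      left
      simp only [s1, Sum.elim_inl, sA, Prod.fst_sub, Fin.val_zero]
      rw [le_abs]
      right
      push_cast; omega
    have := mul_le_mul_of_nonneg_left h3 hm
    linarith
  have h2 := col_abs hdet h1 (fun p => norm_cerr_le ht ht2 hm hu p) hf hv
  rw [← hE] at h2
  refine h2.trans ?_
  rw [card_cyl, Fintype.card_fin]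
  have hF := fro_nonneg (HC j L V)⁻¹
  set F := fro (HC j L V)⁻¹
  have hL0 : (0 : ℝ) ≤ L := Nat.cast_nonneg _
  have hX : 0 ≤ k ^ 2 * E ^ 2 * (L : ℝ) := by positivity
  have hJ : (0 : ℝ) ≤ j := Nat.cast_nonneg _
  push_cast
  have e1 : 2 * (L : ℝ) * (k * E) ^ 2 + 2 * ((2 * (j : ℝ) + 3) * L) * (8 * (k * E)) ^ 2 * F
      = (k ^ 2 * E ^ 2 * L) * (2 + 128 * (2 * j + 3) * F) := by ring
  have e2 : 130 * k ^ 2 * ((2 * (j : ℝ) + 3) * L) * E ^ 2 * (1 + F)
      = (k ^ 2 * E ^ 2 * L) * (130 * (2 * j + 3) * (1 + F)) := by ring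
  rw [e1, e2]
  apply mul_le_mul_of_nonneg_left _ hX
  nlinarith [mul_nonneg hJ hF]

lemma any_column (t : Fin L) (V : Site → ℝ) :
    ∑ r : Fin L, ‖(HC j L V)⁻¹ (Sum.inl (0, r)) (Sum.inl (Fin.last (j + 1), t))‖ ^ 2
      ≤ fro (HC j L V)⁻¹ := by
  have hf : Function.Injective (fun r : Fin L =>
      (Sum.inl (0, r) : (Fin (j + 2) × Fin L) ⊕ (Fin (j + 1) × Fin L))) := by
    intro r r' h
    have := Sum.inl_injective h
    exact congrArg Prod.snd this
  set G := (HC j L V)⁻¹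
  unfold fro
  calc ∑ r : Fin L, ‖G (Sum.inl (0, r)) (Sum.inl (Fin.last (j + 1), t))‖ ^ 2
      = ∑ i ∈ Finset.univ.image (fun r : Fin L =>
      (Sum.inl (0, r) : (Fin (j + 2) × Fin L) ⊕ (Fin (j + 1) × Fin L))),
        ‖G i (Sum.inl (Fin.last (j + 1), t))‖ ^ 2 := by
        rw [Finset.sum_image (fun x _ y _ h => hf h)]
    _ ≤ ∑ i, ‖G i (Sum.inl (Fin.last (j + 1), t))‖ ^ 2 :=
        Finset.sum_le_sum_of_subset_of_nonneg (Finset.subset_univ _) (fun i _ _ => by positivity)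
    _ ≤ _ := by
        apply Finset.sum_le_sum
        intro i _
        exact Finset.single_le_sum (f := fun q => ‖G i q‖ ^ 2) (fun q _ => by positivity)
          (Finset.mem_univ _)

/-- good rows -/
def gd (j L : ℕ) (m k : ℝ) (V : Site → ℝ) (t : Fin L) : Prop :=
  (j + 1 ≤ (t : ℕ) ∧ (t : ℕ) + (j + 1) < L) ∧ CtrlSite m k V ((j : ℤ) + 1, ((t : ℕ) : ℤ))

lemma inj_col_le_fro {α ρ : Type*} [Fintype α] [DecidableEq α] [Fintype ρ] (X : Matrix α α ℂ)
    {f : ρ → α} (hf : Function.Injective f) (c : α) : ∑ r, ‖X (f r) c‖ ^ 2 ≤ fro X := by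
  unfold fro
  calc ∑ r, ‖X (f r) c‖ ^ 2 = ∑ i ∈ Finset.univ.image f, ‖X i c‖ ^ 2 := by
        rw [Finset.sum_image (fun x _ y _ h => hf h)]
    _ ≤ ∑ i, ‖X i c‖ ^ 2 :=
        Finset.sum_le_sum_of_subset_of_nonneg (Finset.subset_univ _) (fun i _ _ => by positivity)
    _ ≤ _ := by
        apply Finset.sum_le_sum
        intro i _
        exact Finset.single_le_sum (f := fun q => ‖X i q‖ ^ 2) (fun q _ => by positivity)
          (Finset.mem_univ _)

/-- left columns of the enlarged Schur matrix -/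
lemma left_column {w : ℂ} (hw : 1 ≤ ‖w‖) (V : Site → ℝ) (r' : Fin L) :
    ∑ i, ‖SM j L w V i (Sum.inl r')‖ ^ 2 ≤ 32 * L * (1 + V (sC j L r') ^ 2)
      * (1 + fro (HC j L V)⁻¹) * (1 + fro (HB j L V)⁻¹) := by
  set G := (HC j L V)⁻¹ with hG
  set g2 := (HB j L V)⁻¹ with hg2
  have hL1 : (1 : ℝ) ≤ L := by
    have := r'.2
    have : 1 ≤ L := by omega
    exact_mod_cast this
  have hF := fro_nonneg G
  have hF2 := fro_nonneg g2
  rw [Fintype.sum_sum_type]
  have e1 : ∀ r : Fin L, ‖SM j L w V (Sum.inl r) (Sum.inl r')‖ ^ 2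
      ≤ (20 + if r = r' then 5 * V (sC j L r') ^ 2 else 0)
        + (5 * ‖G00 G r r'‖ ^ 2 + 5 * ‖Gl0 G r r'‖ ^ 2 + 5 * ‖Gll G r r'‖ ^ 2) := by
    intro r
    have h1 : SM j L w V (Sum.inl r) (Sum.inl r')
        = TR (2 * j + 4) L w (sC j L) (sC j L) r r' + (if r = r' then ((V (sC j L r') : ℝ) : ℂ) else 0)
          - (G00 G r r' + w⁻¹ * Gl0 G r r' + Gll G r r') := by
      unfold SM
      rw [Matrix.fromBlocks_apply₁₁, Matrix.of_apply]
      unfold RM
      congr 2
      by_cases h : r = r'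
      · subst h; rfl
      · rw [if_neg h, if_neg h]
    have h2 := norm_TR_CC (j := j) w r r'
    have h3 : ‖w⁻¹ * Gl0 G r r'‖ ≤ ‖Gl0 G r r'‖ := by
      rw [norm_mul, norm_inv]
      have : ‖w‖⁻¹ ≤ 1 := inv_le_one_of_one_le₀ hw
      exact mul_le_of_le_one_left (norm_nonneg _) this
    have h4 : ‖SM j L w V (Sum.inl r) (Sum.inl r')‖
        ≤ 2 + (if r = r' then |V (sC j L r')| else 0) + (‖G00 G r r'‖ + ‖Gl0 G r r'‖ + ‖Gll G r r'‖) := by
      rw [h1]
      refine (norm_sub_le _ _).trans ?_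
      have h5 : ‖TR (2 * j + 4) L w (sC j L) (sC j L) r r'
          + (if r = r' then ((V (sC j L r') : ℝ) : ℂ) else 0)‖
          ≤ 2 + (if r = r' then |V (sC j L r')| else 0) := by
        refine (norm_add_le _ _).trans ?_
        apply add_le_add h2
        split_ifs
        · rw [Complex.norm_real, Real.norm_eq_abs]
        · rw [norm_zero]
      have h6 := norm_add_le (G00 G r r' + w⁻¹ * Gl0 G r r') (Gll G r r')
      have h7 := norm_add_le (G00 G r r') (w⁻¹ * Gl0 G r r')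
      linarith
    have h5 := pow_le_pow_left₀ (norm_nonneg _) h4 2
    refine h5.trans ?_
    have hsq : ∀ a b c d : ℝ, (2 + a + (b + c + d)) ^ 2 ≤ (20 + 5 * a ^ 2) + (5 * b ^ 2 + 5 * c ^ 2 + 5 * d ^ 2) := by
      intro a b c d
      nlinarith [sq_nonneg (2 - a), sq_nonneg (2 - b), sq_nonneg (2 - c), sq_nonneg (2 - d),
        sq_nonneg (a - b), sq_nonneg (a - c), sq_nonneg (a - d), sq_nonneg (b - c), sq_nonneg (b - d),
        sq_nonneg (c - d)]
    refine (hsq _ _ _ _).trans (le_of_eq ?_)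
    congr 2
    split_ifs
    · rw [sq_abs]
    · ring
  have e2 : ∑ r : Fin L, ‖G00 G r r'‖ ^ 2 ≤ fro G := by
    apply inj_col_le_fro G (f := fun r : Fin L => Sum.inl (0, r))
    intro r r' h
    exact congrArg Prod.snd (Sum.inl_injective h)
  have e3 : ∑ r : Fin L, ‖Gl0 G r r'‖ ^ 2 ≤ fro G := by
    apply inj_col_le_fro G (f := fun r : Fin L => Sum.inr (Fin.last j, r))
    intro r r' h
    exact congrArg Prod.snd (Sum.inr_injective h)
  have e4 : ∑ r : Fin L, ‖Gll G r r'‖ ^ 2 ≤ fro G := by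
    apply inj_col_le_fro G (f := fun r : Fin L => Sum.inr (Fin.last j, r))
    intro r r' h
    exact congrArg Prod.snd (Sum.inr_injective h)
  have e5 : ∑ t : Fin L, ‖SM j L w V (Sum.inr t) (Sum.inl r')‖ ^ 2 ≤ fro g2 := by
    apply inj_col_le_fro g2 (f := fun t : Fin L => (0, t)) (c := (Fin.last j, r'))
    intro r r' h
    exact congrArg Prod.snd h
  have e6 : ∑ r : Fin L, ‖SM j L w V (Sum.inl r) (Sum.inl r')‖ ^ 2
      ≤ (L * 20 + 5 * V (sC j L r') ^ 2) + (5 * fro G + 5 * fro G + 5 * fro G) := by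
    refine (Finset.sum_le_sum (fun r _ => e1 r)).trans ?_
    rw [Finset.sum_add_distrib, Finset.sum_add_distrib, Finset.sum_add_distrib, Finset.sum_add_distrib,
      Finset.sum_const, Finset.card_univ, Fintype.card_fin, nsmul_eq_mul, Finset.sum_ite_eq',
      if_pos (Finset.mem_univ r'), ← Finset.mul_sum, ← Finset.mul_sum, ← Finset.mul_sum]
    linarith
  set F := fro G
  set F2 := fro g2
  set v := V (sC j L r') ^ 2 with hv
  have hv0 : 0 ≤ v := sq_nonneg _
  have h7 : 1 + v + F + F2 ≤ (1 + v) * (1 + F) * (1 + F2) := by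
    nlinarith [mul_nonneg hv0 hF, mul_nonneg hv0 hF2, mul_nonneg hF hF2,
      mul_nonneg (mul_nonneg hv0 hF) hF2]
  have h8 := mul_le_mul_of_nonneg_left h7 (by positivity : (0 : ℝ) ≤ 32 * L)
  have h9 : 32 * (L : ℝ) * (1 + v + F + F2) ≥ L * 20 + 5 * v + 15 * F + F2 := by
    nlinarith
  nlinarith

open Classical in
/-- right columns of the enlarged Schur matrix -/
lemma right_column {w : ℂ} {m k : ℝ} (hm : 0 ≤ m) (hw : 1 ≤ ‖w‖)
    (hw2 : ‖w‖ ≤ Real.exp (m * (j + 1 : ℕ))) {V : Site → ℝ}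
    (hdet : (HC j L V).det ≠ 0) (t : Fin L) :
    ∑ i, ‖SM j L w V i (Sum.inr t)‖ ^ 2 ≤ (1 + fro (HC j L V)⁻¹)
      * (if gd j L m k V t then 1 + 130 * k ^ 2 * ((2 * j + 3 : ℕ) * L) else ‖w‖ ^ 2) := by
  set G := (HC j L V)⁻¹ with hG
  have hF := fro_nonneg G
  rw [Fintype.sum_sum_type]
  have e1 : ∑ r : Fin L, ‖SM j L w V (Sum.inl r) (Sum.inr t)‖ ^ 2
      = ‖w‖ ^ 2 * ∑ r : Fin L, ‖G (Sum.inl (0, r)) (Sum.inl (Fin.last (j + 1), t))‖ ^ 2 := by
    rw [Finset.mul_sum]
    apply Finset.sum_congr rfl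
    intro r _
    unfold SM
    rw [Matrix.fromBlocks_apply₁₂, Matrix.of_apply, norm_mul, mul_pow]
  have e2 : ∑ i : Fin L, ‖SM j L w V (Sum.inr i) (Sum.inr t)‖ ^ 2 = 1 := by
    unfold SM
    simp only [Matrix.fromBlocks_apply₂₂, Matrix.one_apply]
    rw [Finset.sum_eq_single t]
    · simp
    · intro i _ hi
      rw [if_neg hi]; simp
    · intro h; exact absurd (Finset.mem_univ _) h
  rw [e1, e2]
  have hw3 : 1 ≤ ‖w‖ ^ 2 := one_le_pow₀ hw
  split_ifs with h
  · obtain ⟨⟨h1, h2⟩, h3⟩ := h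
    have h4 := good_column h1 h2 hm hdet h3
    rw [← hG] at h4
    have h5 : ‖w‖ ^ 2 * Real.exp (-(m * (j + 1 : ℕ))) ^ 2 ≤ 1 := by
      rw [← mul_pow]
      apply pow_le_one₀ (by positivity)
      have := mul_le_mul_of_nonneg_right hw2 (Real.exp_pos (-(m * (j + 1 : ℕ)))).le
      rwa [← Real.exp_add, add_neg_cancel, Real.exp_zero] at this
    have h6 := mul_le_mul_of_nonneg_left h4 (by positivity : 0 ≤ ‖w‖ ^ 2)
    have h7 : ‖w‖ ^ 2 * (130 * k ^ 2 * ((2 * j + 3 : ℕ) * L) * Real.exp (-(m * (j + 1 : ℕ))) ^ 2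
        * (1 + fro G)) ≤ 130 * k ^ 2 * ((2 * j + 3 : ℕ) * L) * (1 + fro G) := by
      have h8 : 0 ≤ 130 * k ^ 2 * (((2 * j + 3 : ℕ) : ℝ) * L) * (1 + fro G) := by positivity
      have := mul_le_mul_of_nonneg_left h5 h8
      linarith
    nlinarith
  · have h4 := any_column (j := j) t V
    rw [← hG] at h4
    have h5 := mul_le_mul_of_nonneg_left h4 (by positivity : 0 ≤ ‖w‖ ^ 2)
    linarith

end

end Pool.Agent.Helper19
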