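import Pool.Agent.Helper19.Step1b

set_option autoImplicit false

open MeasureTheory Filter Topology Matrix
open scoped ENNReal NNReal Real

namespace Pool.Agent.Helper19

set_option linter.unusedSectionVars false

section
variable {j L : ℕ}

/-- logarithmic term -/
noncomputable def lgf {α : Type*} [Fintype α] [DecidableEq α] (A : Matrix α α ℂ) : ℝ :=
  Real.log (1 + fro A⁻¹)

lemma lgf_nonneg {α : Type*} [Fintype α] [DecidableEq α] (A : Matrix α α ℂ) : 0 ≤ lgf A := by
  unfold lgf
  apply Real.log_nonneg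
  have := fro_nonneg A⁻¹
  linarith

/-- constant for the good columns -/
noncomputable def WG (j L : ℕ) (k : ℝ) : ℝ := 1 + 130 * k ^ 2 * ((2 * j + 3 : ℕ) * L)

lemma one_le_WG (j L : ℕ) (k : ℝ) : 1 ≤ WG j L k := by
  unfold WG
  have : 0 ≤ 130 * k ^ 2 * (((2 * j + 3 : ℕ) : ℝ) * L) := by positivity
  linarith

open Classical in
/-- comparison of the twisted and the untwisted determinant -/
theorem log_stepT {w w' : ℂ} (hw : 1 ≤ ‖w‖) {m k : ℝ} (hm : 0 ≤ m)
    (hw2 : ‖w‖ ≤ Real.exp (m * (j + 1 : ℕ))) (hL : 0 < L) {V : Site → ℝ}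
    (hH : (HC j L V).det ≠ 0) (hB : (HB j L V).det ≠ 0) (hK : (KT j L w V).det ≠ 0)
    (hK' : (KT j L w' V).det ≠ 0) :
    Real.log ‖(KT j L w V).det‖ ≤ Real.log ‖(KT j L w' V).det‖ + (L : ℝ) / 2 * lgf (KT j L w' V)
      + 1 / 2 * ∑ r, Real.log (1 + V (sC j L r) ^ 2)
      + (L : ℝ) / 2 * (Real.log (32 * L) + 2 * lgf (HC j L V) + lgf (HB j L V) + Real.log (WG j L k))
      + Real.log ‖w‖ * ∑ t : Fin L, (if gd j L m k V t then (0 : ℝ) else 1) := by
  have hw0 : w ≠ 0 := by
    intro h; rw [h, norm_zero] at hw; norm_num at hw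
  have hL1 : (1 : ℝ) ≤ L := by
    have : 1 ≤ L := hL
    exact_mod_cast this
  have h1 := det_KT hw0 hH hB
  have hS : (SM j L w V).det ≠ 0 := by
    intro h; rw [h, mul_zero] at h1; exact hK h1
  have hF := fro_nonneg (HC j L V)⁻¹
  have hF2 := fro_nonneg (HB j L V)⁻¹
  have hW := one_le_WG j L k
  have hpos1 : ∀ r' : Fin L, 0 < 32 * L * (1 + V (sC j L r') ^ 2)
      * (1 + fro (HC j L V)⁻¹) * (1 + fro (HB j L V)⁻¹) := fun r' => by positivity
  have hpos2 : ∀ t : Fin L, 0 < (1 + fro (HC j L V)⁻¹)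
      * (if gd j L m k V t then WG j L k else ‖w‖ ^ 2) := by
    intro t
    apply mul_pos (by linarith)
    split_ifs
    · linarith
    · positivity
  set ρ : Fin L ⊕ Fin L → ℝ := Sum.elim
    (fun r' => Real.sqrt (32 * L * (1 + V (sC j L r') ^ 2)
      * (1 + fro (HC j L V)⁻¹) * (1 + fro (HB j L V)⁻¹)))
    (fun t => Real.sqrt ((1 + fro (HC j L V)⁻¹)
      * (if gd j L m k V t then WG j L k else ‖w‖ ^ 2))) with hρ
  have hρpos : ∀ i, 0 < ρ i := by
    rintro (r' | t)
    · exact Real.sqrt_pos.mpr (hpos1 r')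
    · exact Real.sqrt_pos.mpr (hpos2 t)
  have hcol : ∀ c, ∑ i, ‖SM j L w V i c‖ ^ 2 ≤ ρ c ^ 2 := by
    rintro (r' | t)
    · simp only [hρ, Sum.elim_inl]
      rw [Real.sq_sqrt (hpos1 r').le]
      exact left_column hw V r'
    · simp only [hρ, Sum.elim_inr]
      rw [Real.sq_sqrt (hpos2 t).le]
      exact right_column hm hw hw2 hH t
  have h2 := hadamard (SM j L w V) ρ hρpos hcol
  have h3 := Real.log_le_log (norm_pos_iff.mpr hS) h2
  rw [Real.log_prod (fun j _ => (hρpos j).ne'), Fintype.sum_sum_type] at h3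
  have h4 : ∑ r' : Fin L, Real.log (ρ (Sum.inl r')) = 1 / 2 * ∑ r, Real.log (1 + V (sC j L r) ^ 2)
      + (L : ℝ) / 2 * (Real.log (32 * L) + lgf (HC j L V) + lgf (HB j L V)) := by
    have h5 : ∀ r' : Fin L, Real.log (ρ (Sum.inl r')) = 1 / 2 * Real.log (1 + V (sC j L r') ^ 2)
        + 1 / 2 * (Real.log (32 * L) + lgf (HC j L V) + lgf (HB j L V)) := by
      intro r'
      simp only [hρ, Sum.elim_inl]
      rw [Real.log_sqrt (hpos1 r').le, Real.log_mul (by positivity) (by positivity),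
        Real.log_mul (by positivity) (by positivity), Real.log_mul (by positivity) (by positivity)]
      unfold lgf
      ring
    rw [Finset.sum_congr rfl (fun r' _ => h5 r'), Finset.sum_add_distrib, ← Finset.mul_sum,
      Finset.sum_const, Finset.card_univ, Fintype.card_fin, nsmul_eq_mul]
    ring
  have h6 : ∑ t : Fin L, Real.log (ρ (Sum.inr t)) ≤ (L : ℝ) / 2 * (lgf (HC j L V) + Real.log (WG j L k))
      + Real.log ‖w‖ * ∑ t : Fin L, (if gd j L m k V t then (0 : ℝ) else 1) := by
    have h5 : ∀ t : Fin L, Real.log (ρ (Sum.inr t)) ≤ 1 / 2 * (lgf (HC j L V) + Real.log (WG j L k))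
        + Real.log ‖w‖ * (if gd j L m k V t then (0 : ℝ) else 1) := by
      intro t
      have hlW := Real.log_nonneg hW
      simp only [hρ, Sum.elim_inr]
      rw [Real.log_sqrt (hpos2 t).le]
      split_ifs with hg
      · rw [Real.log_mul (by positivity) (by positivity)]
        unfold lgf
        linarith
      · rw [Real.log_mul (by positivity) (by positivity), Real.log_pow]
        unfold lgf
        push_cast
        linarith
    refine (Finset.sum_le_sum (fun t _ => h5 t)).trans (le_of_eq ?_)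
    rw [Finset.sum_add_distrib, ← Finset.mul_sum (f := fun t : Fin L => if gd j L m k V t then (0 : ℝ) else 1),
      Finset.sum_const, Finset.card_univ, Fintype.card_fin, nsmul_eq_mul]
    ring
  have h7 : Real.log ‖(HC j L V).det‖ ≤ Real.log ‖(KT j L w' V).det‖
      + (L : ℝ) / 2 * lgf (KT j L w' V) := by
    have h8 := hK'
    rw [KT_blocks] at h8
    have h9 := log_det_block _ _ _ _ h8 hH
    rw [← KT_blocks, Fintype.card_fin] at h9
    exact h9
  rw [h1, norm_mul, Real.log_mul (norm_pos_iff.mpr hH).ne' (norm_pos_iff.mpr hS).ne']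
  linarith

end

end Pool.Agent.Helper19
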