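import Pool.Agent.Helper19.Gauge

set_option autoImplicit false

open MeasureTheory Filter Topology Matrix
open scoped ENNReal NNReal Real

namespace Pool.Agent.Helper19

set_option linter.unusedSectionVars false

section
variable {μ : Measure ℝ} [IsProbabilityMeasure μ] {M : ℝ≥0} {lam : ℝ}

lemma lgf_int {ι : Type*} [Fintype ι] [DecidableEq ι] (hM : μ ≤ M • volume) (hlam : 0 < lam)
    {M0 : Matrix ι ι ℂ} (hM0 : M0.IsHermitian) {s : ι → Site} (hs : Function.Injective s)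
    (hn : 0 < Fintype.card ι) (kap e : ℝ) :
    Integrable (fun w : Site → ℝ => lgf (RM M0 s (VV lam kap e w))) (iid Site μ) ∧
    ∫ w, lgf (RM M0 s (VV lam kap e w)) ∂(iid Site μ) ≤ WZ M lam (Fintype.card ι) := by
  obtain ⟨_, h1⟩ := gwegner hM hlam hM0 hs hn kap e
  have hm : Measurable (fun w : Site → ℝ => lgf (RM M0 s (VV lam kap e w))) := by
    unfold lgf
    exact Real.measurable_log.comp (measurable_const.add (measurable_fro_inv_g M0 s lam kap e))
  have hnn : 0 ≤ᵐ[iid Site μ] fun w : Site → ℝ => lgf (RM M0 s (VV lam kap e w)) :=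
    Filter.Eventually.of_forall (fun w => lgf_nonneg _)
  constructor
  · refine ⟨hm.aestronglyMeasurable, ?_⟩
    rw [hasFiniteIntegral_iff_ofReal hnn]
    exact lt_of_le_of_lt h1 ENNReal.ofReal_lt_top
  · rw [integral_eq_lintegral_of_nonneg_ae hnn hm.aestronglyMeasurable]
    have hOm1 : (1 : ℝ) ≤ Fintype.card ι := by exact_mod_cast hn
    exact ENNReal.toReal_le_of_le_ofReal (WZ_nonneg M.2 hlam hOm1) h1

/-- logarithmic moment -/
noncomputable def LV (μ : Measure ℝ) (lam kap e : ℝ) : ℝ := ∫ t, Real.log (1 + (lam * t - kap - e) ^ 2) ∂μ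

lemma integrable_LV {kap e q : ℝ} (hq : 0 < q) (hq2 : q ≤ 1 / 2)
    (hint : Integrable (fun t => |lam * t - kap| ^ q) μ) :
    Integrable (fun t => Real.log (1 + (lam * t - kap - e) ^ 2)) μ := by
  have h1 := integrable_log_of_rpow hq hq2 hint (b := 1) (by norm_num)
  have h2 : Integrable (fun t => 2 * Real.log (1 + |e|) + 2 * Real.log (1 + 1 * |lam * t - kap|)) μ :=
    (integrable_const _).add (h1.const_mul 2)
  have hm : Measurable (fun t : ℝ => Real.log (1 + (lam * t - kap - e) ^ 2)) := by fun_prop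
  refine h2.mono' hm.aestronglyMeasurable (Filter.Eventually.of_forall (fun t => ?_))
  have h3 : 0 ≤ (lam * t - kap - e) ^ 2 := sq_nonneg _
  rw [Real.norm_eq_abs, abs_of_nonneg (Real.log_nonneg (by linarith))]
  have h4 : 1 + (lam * t - kap - e) ^ 2 ≤ ((1 + |e|) * (1 + 1 * |lam * t - kap|)) ^ 2 := by
    have h5 : |lam * t - kap - e| ≤ |lam * t - kap| + |e| := abs_sub _ _
    have h6 : (lam * t - kap - e) ^ 2 ≤ (|lam * t - kap| + |e|) ^ 2 := by
      rw [← sq_abs (lam * t - kap - e)]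
      exact pow_le_pow_left₀ (abs_nonneg _) h5 2
    have a1 := abs_nonneg (lam * t - kap)
    have a2 := abs_nonneg e
    have h7 : |lam * t - kap| + |e| + 1 ≤ (1 + |e|) * (1 + 1 * |lam * t - kap|) := by nlinarith
    have h8 := pow_le_pow_left₀ (by positivity) h7 2
    nlinarith
  have h5 := Real.log_le_log (by positivity) h4
  rw [Real.log_pow, Real.log_mul (by positivity) (by positivity)] at h5
  push_cast at h5
  linarith

lemma CS_ind (kap e m k : ℝ) (b : Site) :
    Integrable (fun w : Site → ℝ => (CS lam kap e m k b).indicator (fun _ => (1 : ℝ)) w) (iid Site μ) ∧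
      ∫ w, (CS lam kap e m k b).indicator (fun _ => (1 : ℝ)) w ∂(iid Site μ)
        = (iid Site μ).real (CS lam kap e m k 0) := by
  have hms := measurableSet_CS lam kap e m k b
  refine ⟨(integrable_const 1).indicator hms, ?_⟩
  rw [integral_indicator hms, setIntegral_const, smul_eq_mul, mul_one]
  unfold Measure.real
  rw [measure_CS]

open Classical in
/-- number of bad rows -/
noncomputable def nbad (j L : ℕ) (m k : ℝ) (V : Site → ℝ) : ℝ :=
  ∑ t : Fin L, (if gd j L m k V t then (0 : ℝ) else 1)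

lemma nbad_int {j L : ℕ} (hL : 2 * (j + 1) < L) (kap e m k : ℝ) :
    Integrable (fun w : Site → ℝ => nbad j L m k (VV lam kap e w)) (iid Site μ) ∧
    ∫ w, nbad j L m k (VV lam kap e w) ∂(iid Site μ)
      ≤ 2 * (j + 1) + L * (1 - (iid Site μ).real (CS lam kap e m k 0)) := by
  classical
  set p := (iid Site μ).real (CS lam kap e m k 0) with hp
  have hp0 : 0 ≤ p := measureReal_nonneg
  have hp1 : p ≤ 1 := measureReal_le_one
  have h1 : ∀ w : Site → ℝ, nbad j L m k (VV lam kap e w) = ∑ t : Fin L, (1 -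
      if j + 1 ≤ (t : ℕ) ∧ (t : ℕ) + (j + 1) < L then
        (CS lam kap e m k ((j : ℤ) + 1, ((t : ℕ) : ℤ))).indicator (fun _ => (1 : ℝ)) w else 0) := by
    intro w
    unfold nbad
    apply Finset.sum_congr rfl
    intro t _
    by_cases h : j + 1 ≤ (t : ℕ) ∧ (t : ℕ) + (j + 1) < L
    · rw [if_pos h]
      by_cases h2 : CtrlSite m k (VV lam kap e w) ((j : ℤ) + 1, ((t : ℕ) : ℤ))
      · have h3 : w ∈ CS lam kap e m k ((j : ℤ) + 1, ((t : ℕ) : ℤ)) := h2
        rw [if_pos (show gd j L m k (VV lam kap e w) t from ⟨h, h2⟩), Set.indicator_of_mem h3]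
        ring
      · have h3 : w ∉ CS lam kap e m k ((j : ℤ) + 1, ((t : ℕ) : ℤ)) := h2
        rw [if_neg (show ¬ gd j L m k (VV lam kap e w) t from fun g => h2 g.2),
          Set.indicator_of_notMem h3]
        ring
    · rw [if_neg h, if_neg (show ¬ gd j L m k (VV lam kap e w) t from fun g => h g.1)]
      ring
  have h2 : ∀ t : Fin L, Integrable (fun w : Site → ℝ => (1 -
      if j + 1 ≤ (t : ℕ) ∧ (t : ℕ) + (j + 1) < L then
        (CS lam kap e m k ((j : ℤ) + 1, ((t : ℕ) : ℤ))).indicator (fun _ => (1 : ℝ)) w else 0)) (iid Site μ) ∧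
      ∫ w, (1 - if j + 1 ≤ (t : ℕ) ∧ (t : ℕ) + (j + 1) < L then
        (CS lam kap e m k ((j : ℤ) + 1, ((t : ℕ) : ℤ))).indicator (fun _ => (1 : ℝ)) w else 0) ∂(iid Site μ)
        = 1 - (if j + 1 ≤ (t : ℕ) ∧ (t : ℕ) + (j + 1) < L then p else 0) := by
    intro t
    by_cases h : j + 1 ≤ (t : ℕ) ∧ (t : ℕ) + (j + 1) < L
    · simp only [if_pos h]
      obtain ⟨g1, g2⟩ := CS_ind (μ := μ) (lam := lam) kap e m k ((j : ℤ) + 1, ((t : ℕ) : ℤ))
      refine ⟨(integrable_const 1).sub g1, ?_⟩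
      rw [integral_sub (integrable_const 1) g1, g2, ← hp]
      simp
    · simp only [if_neg h]
      refine ⟨integrable_const _, by simp⟩
  simp only [h1]
  refine ⟨integrable_finsetSum _ (fun t _ => (h2 t).1), ?_⟩
  rw [integral_finsetSum _ (fun t _ => (h2 t).1), Finset.sum_congr rfl (fun t _ => (h2 t).2),
    Finset.sum_sub_distrib]
  have h3 : ∑ t : Fin L, (if j + 1 ≤ (t : ℕ) ∧ (t : ℕ) + (j + 1) < L then p else 0)
      = ((L : ℝ) - 2 * (j + 1)) * p := by
    rw [Fin.sum_univ_eq_sum_range (fun t : ℕ => if j + 1 ≤ t ∧ t + (j + 1) < L then p else 0) L,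
      ← Finset.sum_filter, Finset.sum_const, nsmul_eq_mul]
    congr 1
    have h4 : (Finset.range L).filter (fun t => j + 1 ≤ t ∧ t + (j + 1) < L)
        = Finset.Ico (j + 1) (L - (j + 1)) := by
      ext t
      simp only [Finset.mem_filter, Finset.mem_range, Finset.mem_Ico]
      omega
    rw [h4, Nat.card_Ico]
    have : L - (j + 1) - (j + 1) = L - 2 * (j + 1) := by omega
    rw [this, Nat.cast_sub (by omega)]
    push_cast
    ring
  rw [h3, Finset.sum_const, Finset.card_univ, Fintype.card_fin, nsmul_eq_mul, mul_one]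
  nlinarith

/-- expectation of the comparison -/
theorem step_E (hM : μ ≤ M • volume) (hlam : 0 < lam) {kap e q : ℝ} (hq : 0 < q) (hq2 : q ≤ 1 / 2)
    (hint : Integrable (fun t => |lam * t - kap| ^ q) μ) {j L : ℕ} (hL : 2 * (j + 1) < L) {w w' : ℂ}
    (hw : 1 ≤ ‖w‖) {m k : ℝ} (hm : 0 ≤ m) (hw2 : ‖w‖ ≤ Real.exp (m * (j + 1 : ℕ))) (hw' : ‖w'‖ = 1)
    (hae : ∀ᵐ ω ∂(iid Site μ), (KT j L w (VV lam kap e ω)).det ≠ 0)
    (hi : Integrable (fun ω => Real.log ‖(KT j L w (VV lam kap e ω)).det‖) (iid Site μ))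
    {UB : (Site → ℝ) → ℝ} (hUB : Integrable UB (iid Site μ))
    (hle : ∀ᵐ ω ∂(iid Site μ), Real.log ‖(KT j L w' (VV lam kap e ω)).det‖ ≤ UB ω) :
    ∫ ω, Real.log ‖(KT j L w (VV lam kap e ω)).det‖ ∂(iid Site μ)
      ≤ ∫ ω, UB ω ∂(iid Site μ) + (L : ℝ) / 2 * (4 * WZ M lam ((2 * j + 4 : ℕ) * L) + LV μ lam kap e
        + Real.log (32 * L) + Real.log (WG j L k))
        + Real.log ‖w‖ * (2 * (j + 1) + L * (1 - (iid Site μ).real (CS lam kap e m k 0))) := by
  have hL0 : 0 < L := by omega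
  have hL1 : (1 : ℝ) ≤ L := by
    have : 1 ≤ L := hL0
    exact_mod_cast this
  have hbox0 := s0_inBox j L
  have hbox1 : ∀ p, InBox (2 * j + 4) L (s1 j L p) := fun p => s0_inBox j L (Sum.inl p)
  have hboxB : ∀ p, InBox (2 * j + 4) L (sB j L p) := fun p => s0_inBox j L (Sum.inl (Sum.inr p))
  have hn0 : 0 < Fintype.card (((Fin (j + 2) × Fin L) ⊕ (Fin (j + 1) × Fin L)) ⊕ Fin L) := by
    rw [s0_card]; positivity
  have hn1 : 0 < Fintype.card ((Fin (j + 2) × Fin L) ⊕ (Fin (j + 1) × Fin L)) := by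
    rw [card_cyl]; positivity
  have hcB : Fintype.card (Fin (j + 1) × Fin L) = (j + 1) * L := by
    rw [Fintype.card_prod, Fintype.card_fin, Fintype.card_fin]
  have hnB : 0 < Fintype.card (Fin (j + 1) × Fin L) := by
    rw [hcB]; positivity
  have hH0 := TR_hermitian (N := 2 * j + 4) (L := L) hw' hbox0
  have hH1 := TR_hermitian (N := 2 * j + 4) (L := L) (w := 1) norm_one hbox1
  have hHB := TR_hermitian (N := 2 * j + 4) (L := L) (w := 1) norm_one hboxB
  obtain ⟨a1, b1⟩ := lgf_int hM hlam hH0 (s0_injective j L) hn0 kap e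
  obtain ⟨a2, b2⟩ := lgf_int hM hlam hH1 (s1_injective j L) hn1 kap e
  obtain ⟨a3, b3⟩ := lgf_int hM hlam hHB (sB_injective j L) hnB kap e
  have d1 := (gwegner hM hlam hH0 (s0_injective j L) hn0 kap e).1
  have d2 := (gwegner hM hlam hH1 (s1_injective j L) hn1 kap e).1
  have d3 := (gwegner hM hlam hHB (sB_injective j L) hnB kap e).1
  obtain ⟨a4, b4⟩ := nbad_int (μ := μ) (lam := lam) hL kap e m k
  have hLVi := integrable_LV (e := e) hq hq2 hint
  have hV : ∀ r : Fin L, Integrable (fun w : Site → ℝ => Real.log (1 + (VV lam kap e w (sC j L r)) ^ 2))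
      (iid Site μ) ∧ ∫ w, Real.log (1 + (VV lam kap e w (sC j L r)) ^ 2) ∂(iid Site μ) = LV μ lam kap e := by
    intro r
    exact integrable_site hLVi (sC j L r)
  have a5 : Integrable (fun w : Site → ℝ => ∑ r : Fin L, Real.log (1 + (VV lam kap e w (sC j L r)) ^ 2))
      (iid Site μ) := integrable_finsetSum _ (fun r _ => (hV r).1)
  have b5 : ∫ w, ∑ r : Fin L, Real.log (1 + (VV lam kap e w (sC j L r)) ^ 2) ∂(iid Site μ)
      = L * LV μ lam kap e := by
    rw [integral_finsetSum _ (fun r _ => (hV r).1), Finset.sum_congr rfl (fun r _ => (hV r).2)]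
    simp
  have i1 : Integrable (fun ω => UB ω + (L : ℝ) / 2 * lgf (RM (TR (2 * j + 4) L w' (s0 j L) (s0 j L)) (s0 j L)
      (VV lam kap e ω))) (iid Site μ) := hUB.add (a1.const_mul _)
  have i2 : Integrable (fun ω => UB ω + (L : ℝ) / 2 * lgf (RM (TR (2 * j + 4) L w' (s0 j L) (s0 j L)) (s0 j L)
      (VV lam kap e ω)) + 1 / 2 * ∑ r : Fin L, Real.log (1 + (VV lam kap e ω (sC j L r)) ^ 2))
      (iid Site μ) := i1.add (a5.const_mul _)
  have i3a : Integrable (fun ω => Real.log (32 * L)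
      + 2 * lgf (RM (TR (2 * j + 4) L 1 (s1 j L) (s1 j L)) (s1 j L) (VV lam kap e ω)))
      (iid Site μ) := (integrable_const _).add (a2.const_mul _)
  have i3b : Integrable (fun ω => Real.log (32 * L)
      + 2 * lgf (RM (TR (2 * j + 4) L 1 (s1 j L) (s1 j L)) (s1 j L) (VV lam kap e ω))
      + lgf (RM (TR (2 * j + 4) L 1 (sB j L) (sB j L)) (sB j L) (VV lam kap e ω)))
      (iid Site μ) := i3a.add a3
  have i3c : Integrable (fun ω => Real.log (32 * L)
      + 2 * lgf (RM (TR (2 * j + 4) L 1 (s1 j L) (s1 j L)) (s1 j L) (VV lam kap e ω))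
      + lgf (RM (TR (2 * j + 4) L 1 (sB j L) (sB j L)) (sB j L) (VV lam kap e ω))
      + Real.log (WG j L k)) (iid Site μ) := i3b.add (integrable_const _)
  have i3 : Integrable (fun ω => (L : ℝ) / 2 * (Real.log (32 * L)
      + 2 * lgf (RM (TR (2 * j + 4) L 1 (s1 j L) (s1 j L)) (s1 j L) (VV lam kap e ω))
      + lgf (RM (TR (2 * j + 4) L 1 (sB j L) (sB j L)) (sB j L) (VV lam kap e ω))
      + Real.log (WG j L k))) (iid Site μ) := i3c.const_mul _
  have i4 : Integrable (fun ω => Real.log ‖w‖ * nbad j L m k (VV lam kap e ω)) (iid Site μ) :=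
    a4.const_mul _
  have key : ∫ ω, Real.log ‖(KT j L w (VV lam kap e ω)).det‖ ∂(iid Site μ)
      ≤ ∫ ω, (UB ω + (L : ℝ) / 2 * lgf (RM (TR (2 * j + 4) L w' (s0 j L) (s0 j L)) (s0 j L)
      (VV lam kap e ω)) + 1 / 2 * ∑ r : Fin L, Real.log (1 + (VV lam kap e ω (sC j L r)) ^ 2)
      + (L : ℝ) / 2 * (Real.log (32 * L)
      + 2 * lgf (RM (TR (2 * j + 4) L 1 (s1 j L) (s1 j L)) (s1 j L) (VV lam kap e ω))
      + lgf (RM (TR (2 * j + 4) L 1 (sB j L) (sB j L)) (sB j L) (VV lam kap e ω))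
      + Real.log (WG j L k)) + Real.log ‖w‖ * nbad j L m k (VV lam kap e ω)) ∂(iid Site μ) := by
    apply integral_mono_ae hi ((i2.add i3).add i4)
    filter_upwards [hae, hle, d1, d2, d3] with ω g1 g2 g3 g4 g5
    have h1 := log_stepT (k := k) hw hm hw2 hL0 g4 g5 g1 g3
    unfold KT at g2
    simp only [Pi.add_apply]
    unfold KT HC HB at h1
    unfold nbad KT
    linarith
  have e1 : ∫ ω, (UB ω + (L : ℝ) / 2 * lgf (RM (TR (2 * j + 4) L w' (s0 j L) (s0 j L)) (s0 j L)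
      (VV lam kap e ω)) + 1 / 2 * ∑ r : Fin L, Real.log (1 + (VV lam kap e ω (sC j L r)) ^ 2)
      + (L : ℝ) / 2 * (Real.log (32 * L)
      + 2 * lgf (RM (TR (2 * j + 4) L 1 (s1 j L) (s1 j L)) (s1 j L) (VV lam kap e ω))
      + lgf (RM (TR (2 * j + 4) L 1 (sB j L) (sB j L)) (sB j L) (VV lam kap e ω))
      + Real.log (WG j L k)) + Real.log ‖w‖ * nbad j L m k (VV lam kap e ω)) ∂(iid Site μ)
      = ∫ ω, UB ω ∂(iid Site μ) + (L : ℝ) / 2 * ∫ ω, lgf (RM (TR (2 * j + 4) L w' (s0 j L) (s0 j L)) (s0 j L)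
      (VV lam kap e ω)) ∂(iid Site μ) + 1 / 2 * (L * LV μ lam kap e)
      + (L : ℝ) / 2 * (Real.log (32 * L)
      + 2 * ∫ ω, lgf (RM (TR (2 * j + 4) L 1 (s1 j L) (s1 j L)) (s1 j L) (VV lam kap e ω)) ∂(iid Site μ)
      + ∫ ω, lgf (RM (TR (2 * j + 4) L 1 (sB j L) (sB j L)) (sB j L) (VV lam kap e ω)) ∂(iid Site μ)
      + Real.log (WG j L k)) + Real.log ‖w‖ * ∫ ω, nbad j L m k (VV lam kap e ω) ∂(iid Site μ) := by
    have i23 : Integrable (fun ω => UB ω + (L : ℝ) / 2 * lgf (RM (TR (2 * j + 4) L w' (s0 j L) (s0 j L)) (s0 j L)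
      (VV lam kap e ω)) + 1 / 2 * ∑ r : Fin L, Real.log (1 + (VV lam kap e ω (sC j L r)) ^ 2)
      + (L : ℝ) / 2 * (Real.log (32 * L)
      + 2 * lgf (RM (TR (2 * j + 4) L 1 (s1 j L) (s1 j L)) (s1 j L) (VV lam kap e ω))
      + lgf (RM (TR (2 * j + 4) L 1 (sB j L) (sB j L)) (sB j L) (VV lam kap e ω))
      + Real.log (WG j L k))) (iid Site μ) := i2.add i3
    rw [integral_add i23 i4, integral_add i2 i3, integral_add i1 (a5.const_mul _),
      integral_add hUB (a1.const_mul _), integral_const_mul, integral_const_mul, integral_const_mul,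
      integral_const_mul, integral_add i3b (integrable_const _), integral_add i3a a3,
      integral_add (integrable_const _) (a2.const_mul _), integral_const_mul, b5]
    simp only [integral_const, probReal_univ, smul_eq_mul, one_mul]
  rw [e1] at key
  rw [s0_card] at b1
  rw [card_cyl] at b2
  rw [hcB] at b3
  have hw20 : 0 ≤ Real.log ‖w‖ := Real.log_nonneg hw
  have c2 : WZ M lam (((2 * j + 3) * L : ℕ) : ℝ) ≤ WZ M lam ((2 * j + 4 : ℕ) * L) := by
    apply WZ_mono
    · push_cast; positivity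
    · push_cast; nlinarith
  have c3 : WZ M lam (((j + 1) * L : ℕ) : ℝ) ≤ WZ M lam ((2 * j + 4 : ℕ) * L) := by
    have hj0 : (0 : ℝ) ≤ j := Nat.cast_nonneg _
    apply WZ_mono
    · push_cast; positivity
    · push_cast; nlinarith
  have c1 : WZ M lam (((2 * j + 4) * L : ℕ) : ℝ) = WZ M lam ((2 * j + 4 : ℕ) * L) := by
    push_cast; rfl
  rw [c1] at b1
  have f4 := mul_le_mul_of_nonneg_left b4 hw20
  have f1 := mul_le_mul_of_nonneg_left b1 (by positivity : (0 : ℝ) ≤ (L : ℝ) / 2)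
  have f2 := mul_le_mul_of_nonneg_left (b2.trans c2) (by positivity : (0 : ℝ) ≤ (L : ℝ))
  have f3 := mul_le_mul_of_nonneg_left (b3.trans c3) (by positivity : (0 : ℝ) ≤ (L : ℝ) / 2)
  nlinarith

end

end Pool.Agent.Helper19
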