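import Pool.Agent.Helper19.Four

set_option autoImplicit false

open MeasureTheory Filter Topology

namespace Pool.Agent.Helper19

section
variable {L : ℕ} [NeZero L]

/-- one-dimensional symbol -/
noncomputable def ps (s : ZMod L) : ℝ := ‖1 + chi s‖

lemma ps_nonneg (s : ZMod L) : 0 ≤ ps s := norm_nonneg _

lemma ps_le (s : ZMod L) : ps s ≤ 2 := by
  unfold ps
  refine (norm_add_le _ _).trans ?_
  rw [norm_one, norm_chi]; norm_num

lemma chi_re (a : ZMod L) : ((2 * (chi a).re : ℝ) : ℂ) = chi a + chi (-a) := by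
  rw [chi_neg]
  exact (Complex.add_conj (chi a)).symm

lemma al_factor (k : Fin L × Fin L) :
    al k ^ 2 = (ps (zq k.1 + zq k.2) * ps (zq k.1 - zq k.2)) ^ 2 := by
  have h1 : (al k : ℂ) = chi (-zq k.1) * ((1 + chi (zq k.1 + zq k.2)) * (1 + chi (zq k.1 - zq k.2))) := by
    unfold al
    push_cast
    have e1 := chi_re (zq k.1)
    have e2 := chi_re (zq k.2)
    push_cast at e1 e2
    rw [e1, e2]
    have f1 : chi (-zq k.1) * chi (zq k.1 + zq k.2) = chi (zq k.2) := by
      rw [← chi_add]; congr 1; ring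
    have f2 : chi (-zq k.1) * chi (zq k.1 - zq k.2) = chi (-zq k.2) := by
      rw [← chi_add]; congr 1; ring
    have f3 : chi (zq k.2) * chi (zq k.1 - zq k.2) = chi (zq k.1) := by
      rw [← chi_add]; congr 1; ring
    have f4 : chi (-zq k.1) * ((1 + chi (zq k.1 + zq k.2)) * (1 + chi (zq k.1 - zq k.2)))
      = chi (-zq k.1) + chi (-zq k.1) * chi (zq k.1 + zq k.2)
        + chi (-zq k.1) * chi (zq k.1 - zq k.2)
        + (chi (-zq k.1) * chi (zq k.1 + zq k.2)) * chi (zq k.1 - zq k.2) := by ring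
    rw [f4, f1, f2, f3]
    ring
  have h2 : |al k| = ps (zq k.1 + zq k.2) * ps (zq k.1 - zq k.2) := by
    have h3 := congrArg norm h1
    rw [Complex.norm_real, Real.norm_eq_abs, norm_mul, norm_mul, norm_chi, one_mul] at h3
    exact h3
  rw [← h2, sq_abs]

/-- the change of variables `(a, b) ↦ (a + b, a - b)` for odd `L` -/
noncomputable def cv (hodd : Odd L) : Fin L × Fin L ≃ ZMod L × ZMod L :=
  Equiv.ofBijective (fun k => (zq k.1 + zq k.2, zq k.1 - zq k.2)) (by
    have h2 : IsUnit (2 : ZMod L) := by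
      have : IsUnit (((2 : ℕ) : ZMod L)) := by
        rw [ZMod.isUnit_iff_coprime]
        exact (Nat.coprime_two_left.mpr hodd)
      simpa using this
    rw [Fintype.bijective_iff_injective_and_card]
    constructor
    · rintro ⟨a, b⟩ ⟨c, d⟩ h
      simp only [Prod.mk.injEq] at h
      have e1 : (2 : ZMod L) * zq a = 2 * zq c := by linear_combination h.1 + h.2
      have e2 : (2 : ZMod L) * zq b = 2 * zq d := by linear_combination h.1 - h.2
      have e3 := h2.mul_left_cancel e1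
      have e4 := h2.mul_left_cancel e2
      rw [(zq (L := L)).apply_eq_iff_eq] at e3 e4
      rw [e3, e4]
    · rw [Fintype.card_prod, Fintype.card_prod, Fintype.card_fin, ZMod.card])

lemma sum_al (hodd : Odd L) (f : ℝ → ℝ) :
    ∑ k : Fin L × Fin L, f (al k ^ 2) = ∑ s : ZMod L, ∑ t : ZMod L, f ((ps s * ps t) ^ 2) := by
  rw [← Fintype.sum_prod_type' (f := fun s t : ZMod L => f ((ps s * ps t) ^ 2)),
    ← Equiv.sum_comp (cv hodd)]
  apply Finset.sum_congr rfl
  intro k _
  rw [al_factor]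
  rfl

lemma prod_one_add_chi (hodd : Odd L) : ∏ s : ZMod L, (1 + chi s) = 2 := by
  have hL : L ≠ 0 := NeZero.ne L
  have hinj : Function.Injective (fun s : ZMod L => chi s) := ZMod.injective_stdAddChar
  have hprim := Complex.isPrimitiveRoot_exp L hL
  have h1 := hprim.pow_add_pow_eq_prod_add_mul (x := (1 : ℂ)) (y := 1) hodd
  rw [one_pow] at h1
  have h2 : Polynomial.nthRootsFinset L (1 : ℂ) = Finset.univ.image (fun s : ZMod L => chi s) := by
    symm
    apply Finset.eq_of_subset_of_card_le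
    · intro z hz
      rw [Finset.mem_image] at hz
      obtain ⟨s, -, rfl⟩ := hz
      rw [Polynomial.mem_nthRootsFinset (Nat.pos_of_ne_zero hL)]
      unfold chi
      rw [← AddChar.map_nsmul_eq_pow]
      simp
    · rw [hprim.card_nthRootsFinset, Finset.card_image_of_injective _ hinj,
        Finset.card_univ, ZMod.card]
  rw [h2, Finset.prod_image (fun a _ b _ h => hinj h)] at h1
  have h3 : (1 : ℂ) + 1 = 2 := by norm_num
  rw [h3] at h1
  rw [h1]
  apply Finset.prod_congr rfl
  intro s _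
  rw [mul_one]

lemma ps_pos (hodd : Odd L) (s : ZMod L) : 0 < ps s := by
  have h := prod_one_add_chi hodd
  have h2 : (1 + chi s) ≠ 0 := by
    intro h3
    rw [Finset.prod_eq_zero (Finset.mem_univ s) h3] at h
    norm_num at h
  exact norm_pos_iff.mpr h2

lemma sum_log_ps (hodd : Odd L) : ∑ s : ZMod L, Real.log (ps s) = Real.log 2 := by
  rw [← Real.log_prod (fun s _ => (ps_pos hodd s).ne')]
  congr 1
  have h := congrArg norm (prod_one_add_chi hodd)
  rw [norm_prod] at h
  unfold ps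
  rw [h]
  norm_num

/-- lower bound of the symbol -/
lemma ps_ge (j : ℕ) (hj : j < L) : 2 * |(L : ℝ) - 2 * j| / L ≤ ps ((j : ℕ) : ZMod L) := by
  have hL : (0 : ℝ) < L := by exact_mod_cast Nat.pos_of_ne_zero (NeZero.ne L)
  have hjL : (j : ℝ) < L := by exact_mod_cast hj
  have hj0 : (0 : ℝ) ≤ j := Nat.cast_nonneg j
  set y : ℝ := Real.pi * j / L with hy
  have hchi : chi ((j : ℕ) : ZMod L) = Complex.exp (((2 * y : ℝ) : ℂ) * Complex.I) := by
    unfold chi
    have := ZMod.stdAddChar_coe (N := L) (j : ℤ)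
    push_cast at this
    rw [this, hy]
    congr 1
    push_cast
    ring
  have hnorm : ps ((j : ℕ) : ZMod L) = 2 * |Real.cos y| := by
    unfold ps
    have h1 : ‖1 + chi ((j : ℕ) : ZMod L)‖ ^ 2 = (2 * |Real.cos y|) ^ 2 := by
      rw [hchi, ← Complex.normSq_eq_norm_sq, Complex.normSq_apply, Complex.add_re, Complex.add_im,
        Complex.exp_ofReal_mul_I_re, Complex.exp_ofReal_mul_I_im, Complex.one_re, Complex.one_im,
        mul_pow, sq_abs, Real.cos_two_mul, Real.sin_two_mul]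
      have := Real.sin_sq_add_cos_sq y
      nlinarith
    have h2 := abs_nonneg (Real.cos y)
    exact (pow_left_inj₀ (norm_nonneg _) (by positivity) (by norm_num)).mp h1
  have hsin : Real.cos y = Real.sin (Real.pi / 2 - y) := by rw [Real.sin_pi_div_two_sub]
  have habs : |Real.pi / 2 - y| ≤ Real.pi / 2 := by
    rw [abs_le]
    have hpi := Real.pi_pos
    have hy0 : 0 ≤ y := by positivity
    have hy1 : y ≤ Real.pi := by
      rw [hy, div_le_iff₀ hL]
      nlinarith
    constructor <;> linarith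
  have h3 := Real.mul_abs_le_abs_sin habs
  rw [hnorm, hsin]
  have h4 : 2 * |(L : ℝ) - 2 * j| / L = 2 * (2 / Real.pi * |Real.pi / 2 - y|) := by
    have hpi := Real.pi_pos
    have h5 : Real.pi / 2 - y = (Real.pi / (2 * L)) * ((L : ℝ) - 2 * j) := by
      rw [hy]; field_simp
    rw [h5, abs_mul, abs_of_pos (by positivity : 0 < Real.pi / (2 * (L : ℝ)))]
    field_simp
  rw [h4]
  linarith

end

/-- midpoint inequality for the logarithm -/
lemma four_div_le {c : ℝ} (hc : 0 < c) (i : ℕ) :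
    1 / (4 * (i : ℝ) + 2 + c) ≤ 1 / 4 * (Real.log (4 * ((i : ℝ) + 1) + c) - Real.log (4 * (i : ℝ) + c)) := by
  set Y : ℝ := 4 * (i : ℝ) + 2 + c with hY
  have hi : (0 : ℝ) ≤ i := Nat.cast_nonneg i
  have hY2 : 2 < Y := by linarith
  set x : ℝ := 2 / Y with hx
  have hx0 : 0 < x := by positivity
  have hx1 : x < 1 := by rw [hx, div_lt_one (by linarith)]; exact hY2
  have h1 := Real.hasSum_log_sub_log_of_abs_lt_one (x := x) (by rw [abs_of_pos hx0]; exact hx1)
  have h2 : 2 * x ≤ Real.log (1 + x) - Real.log (1 - x) := by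
    have h3 := sum_le_hasSum (Finset.range 1) (fun k _ => by positivity) h1
    simpa using h3
  have h4 : 4 * ((i : ℝ) + 1) + c = Y * (1 + x) := by rw [hx, hY]; field_simp; ring
  have h5 : 4 * (i : ℝ) + c = Y * (1 - x) := by rw [hx, hY]; field_simp; ring
  rw [h4, h5, Real.log_mul (by linarith) (by linarith), Real.log_mul (by linarith) (by linarith)]
  have h6 : 1 / Y = x / 2 := by rw [hx]; field_simp
  rw [h6]
  linarith

lemma sum_four {c : ℝ} (hc : 0 < c) (h : ℕ) :
    ∑ i ∈ Finset.range h, 1 / (4 * (i : ℝ) + 2 + c) ≤ 1 / 4 * (Real.log (4 * (h : ℝ) + c) - Real.log c) := by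
  refine (Finset.sum_le_sum (fun i _ => four_div_le hc i)).trans_eq ?_
  rw [← Finset.mul_sum]
  congr 1
  have := Finset.sum_range_sub (fun i : ℕ => Real.log (4 * (i : ℝ) + c)) h
  simp only [Nat.cast_add, Nat.cast_one, Nat.cast_zero, mul_zero, zero_add] at this
  exact this

lemma sum_abs {c : ℝ} (hc : 0 < c) (h : ℕ) :
    ∑ j ∈ Finset.range (2 * h + 1), 1 / (2 * |((2 * h + 1 : ℕ) : ℝ) - 2 * j| + c)
      ≤ 1 / 2 * (Real.log (4 * ((h : ℝ) + 1) + c) - Real.log c) := by
  have hsplit : ∑ j ∈ Finset.range (2 * h + 1), 1 / (2 * |((2 * h + 1 : ℕ) : ℝ) - 2 * j| + c)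
      = ∑ i ∈ Finset.range (h + 1), 1 / (4 * (i : ℝ) + 2 + c)
        + ∑ i ∈ Finset.range h, 1 / (4 * (i : ℝ) + 2 + c) := by
    have e1 : 2 * h + 1 = (h + 1) + h := by ring
    conv_lhs => rw [e1]
    rw [Finset.sum_range_add]
    congr 1
    · rw [← Finset.sum_range_reflect]
      apply Finset.sum_congr rfl
      intro i hi
      rw [Finset.mem_range] at hi
      have e2 : h + 1 - 1 - i = h - i := by omega
      rw [e2, Nat.cast_sub (by omega)]
      have hi' : (0 : ℝ) ≤ i := Nat.cast_nonneg i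
      have e3 : (((h + 1 + h : ℕ) : ℝ) - 2 * ((h : ℝ) - i)) = 2 * i + 1 := by push_cast; ring
      rw [e3, abs_of_pos (by linarith)]
      ring_nf
    · apply Finset.sum_congr rfl
      intro i _
      have hi' : (0 : ℝ) ≤ i := Nat.cast_nonneg i
      have e3 : (((h + 1 + h : ℕ) : ℝ) - 2 * ((h + 1 + i : ℕ) : ℝ)) = -(2 * i + 1) := by push_cast; ring
      rw [e3, abs_neg, abs_of_pos (by linarith)]
      ring_nf
  rw [hsplit]
  have h1 := sum_four hc (h + 1)
  have h2 := sum_four hc h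
  have h3 : Real.log (4 * (h : ℝ) + c) ≤ Real.log (4 * ((h : ℝ) + 1) + c) := by
    apply Real.log_le_log
    · have : (0 : ℝ) ≤ h := Nat.cast_nonneg h
      linarith
    · linarith
  push_cast at h1
  linarith

section
variable {L : ℕ} [NeZero L]

lemma sum_inv_ps (hodd : Odd L) {t : ℝ} (ht : 0 < t) :
    ∑ s : ZMod L, 1 / (ps s + t) ≤ (L : ℝ) / 2 * Real.log (1 + 4 / t) := by
  have hL : (0 : ℝ) < L := by exact_mod_cast Nat.pos_of_ne_zero (NeZero.ne L)
  obtain ⟨h, hh⟩ := hodd
  have h1 : ∑ s : ZMod L, 1 / (ps s + t) = ∑ j : Fin L, 1 / (ps (((j : ℕ) : ZMod L)) + t) := by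
    rw [← Equiv.sum_comp (zq (L := L))]
    rfl
  rw [h1]
  have h2 : ∀ j : Fin L, 1 / (ps (((j : ℕ) : ZMod L)) + t)
      ≤ L * (1 / (2 * |(L : ℝ) - 2 * (j : ℕ)| + t * L)) := by
    intro j
    have h3 := ps_ge (j : ℕ) j.2
    have h4 : L * (1 / (2 * |(L : ℝ) - 2 * (j : ℕ)| + t * L)) = 1 / (2 * |(L : ℝ) - 2 * (j : ℕ)| / L + t) := by
      have := abs_nonneg ((L : ℝ) - 2 * (j : ℕ))
      field_simp
    rw [h4]
    apply one_div_le_one_div_of_le
    · have := abs_nonneg ((L : ℝ) - 2 * (j : ℕ))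
      positivity
    · linarith
  refine (Finset.sum_le_sum (fun j _ => h2 j)).trans ?_
  rw [← Finset.mul_sum, Fin.sum_univ_eq_sum_range (fun j : ℕ => 1 / (2 * |(L : ℝ) - 2 * j| + t * L)) L]
  have h5 := sum_abs (c := t * L) (by positivity) h
  rw [← hh] at h5
  have h6 : Real.log (4 * ((h : ℝ) + 1) + t * L) - Real.log (t * L) ≤ Real.log (1 + 4 / t) := by
    rw [← Real.log_div (by positivity) (by positivity)]
    apply Real.log_le_log (by positivity)
    rw [div_le_iff₀ (by positivity)]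
    have h7 : (1 + 4 / t) * (t * L) = t * L + 4 * L := by field_simp
    rw [h7]
    have h8 : (h : ℝ) + 1 ≤ L := by
      have : h + 1 ≤ L := by omega
      exact_mod_cast this
    linarith
  have h9 := mul_le_mul_of_nonneg_left h5 hL.le
  nlinarith

/-- two-dimensional resolvent sum -/
lemma sum_inv_al (hodd : Odd L) {t : ℝ} (ht : 0 < t) (ht1 : t ≤ 1) :
    ∑ s : ZMod L, ∑ r : ZMod L, 1 / (ps s * ps r + t)
      ≤ (L : ℝ) * L * (5 / 4 * Real.log (5 / t) ^ 2) := by
  have hL : (0 : ℝ) < L := by exact_mod_cast Nat.pos_of_ne_zero (NeZero.ne L)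
  have h1 : ∀ s r : ZMod L, 1 / (ps s * ps r + t) ≤ 5 * ((1 / (ps s + t)) * (1 / (ps r + t))) := by
    intro s r
    have a1 := ps_nonneg s
    have a2 := ps_nonneg r
    have a3 := ps_le s
    have a4 := ps_le r
    have h2 : 5 * ((1 / (ps s + t)) * (1 / (ps r + t))) = 5 / ((ps s + t) * (ps r + t)) := by
      field_simp
    rw [h2, div_le_div_iff₀ (by positivity) (by positivity)]
    have a5 : 0 ≤ ps s * ps r := by positivity
    nlinarith
  have h2 : ∑ s : ZMod L, ∑ r : ZMod L, 1 / (ps s * ps r + t)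
      ≤ 5 * ((∑ s : ZMod L, 1 / (ps s + t)) * (∑ r : ZMod L, 1 / (ps r + t))) := by
    rw [Finset.sum_mul_sum, Finset.mul_sum]
    apply Finset.sum_le_sum
    intro s _
    rw [Finset.mul_sum]
    exact Finset.sum_le_sum (fun r _ => h1 s r)
  refine h2.trans ?_
  have h3 := sum_inv_ps hodd ht
  have h4 : Real.log (1 + 4 / t) ≤ Real.log (5 / t) := by
    apply Real.log_le_log (by positivity)
    rw [le_div_iff₀ ht, add_mul, div_mul_cancel₀ _ ht.ne']
    linarith
  have h5 : ∑ s : ZMod L, 1 / (ps s + t) ≤ (L : ℝ) / 2 * Real.log (5 / t) :=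
    h3.trans (mul_le_mul_of_nonneg_left h4 (by positivity))
  have h6 : 0 ≤ ∑ s : ZMod L, 1 / (ps s + t) := by
    apply Finset.sum_nonneg
    intro s _
    have := ps_nonneg s
    positivity
  have h7 := mul_le_mul h5 h5 h6 (h6.trans h5)
  nlinarith

end

end Pool.Agent.Helper19
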