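import Pool.Agent.Helper19.Comb
import Pool.Agent.Helper19.Lower

set_option autoImplicit false

open MeasureTheory Filter Topology Matrix
open scoped ENNReal NNReal Real

namespace Pool.Agent.Helper19

set_option linter.unusedSectionVars false

/-- reduction modulo the periods -/
def red (N L : ℕ) (x : Site) : Site := (x.1 % (N : ℤ), x.2 % (L : ℤ))

/-- seam weight -/
noncomputable def wt (N : ℕ) (w : ℂ) (x : Site) : ℂ := w ^ (x.1 / (N : ℤ))

/-- hopping with a twist -/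
noncomputable def TR (N L : ℕ) (w : ℂ) {α β : Type*} (t : α → Site) (u : β → Site) : Matrix α β ℂ :=
  fun p q => -∑ d ∈ dirs, if red N L (t p + d) = u q then wt N w (t p + d) else 0

/-- lattice box -/
def InBox (N L : ℕ) (x : Site) : Prop := 0 ≤ x.1 ∧ x.1 < N ∧ 0 ≤ x.2 ∧ x.2 < L

lemma ecases {N : ℕ} (hN : 2 ≤ N) {y : ℤ} (h1 : -1 ≤ y) (h2 : y ≤ N) :
    (y = -1 ∧ y % (N : ℤ) = N - 1 ∧ y / (N : ℤ) = -1) ∨
    (y = N ∧ y % (N : ℤ) = 0 ∧ y / (N : ℤ) = 1) ∨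
    (0 ≤ y ∧ y < N ∧ y % (N : ℤ) = y ∧ y / (N : ℤ) = 0) := by
  have hN' : (2 : ℤ) ≤ N := by exact_mod_cast hN
  rcases lt_trichotomy y 0 with h | h | h
  · left
    have hy : y = -1 := by omega
    subst hy
    refine ⟨rfl, ?_, ?_⟩
    · rw [Int.emod_eq_iff (by omega)]
      refine ⟨by omega, by omega, ?_⟩
      exact ⟨1, by ring⟩
    · have h3 := Int.emod_add_mul_ediv (-1) (N : ℤ)
      have h4 := Int.emod_nonneg (-1) (by omega : (N : ℤ) ≠ 0)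
      have h5 := Int.emod_lt_of_pos (-1) (by omega : (0 : ℤ) < N)
      rcases lt_trichotomy ((-1 : ℤ) / (N : ℤ)) (-1) with h6 | h6 | h6
      · nlinarith
      · exact h6
      · have : (0 : ℤ) ≤ (-1 : ℤ) / (N : ℤ) := by omega
        nlinarith
  · right; right
    subst h
    refine ⟨le_rfl, by omega, Int.zero_emod _, Int.zero_ediv _⟩
  · rcases lt_or_ge y N with h3 | h3
    · right; right
      exact ⟨h.le, h3, Int.emod_eq_of_lt h.le h3, Int.ediv_eq_zero_of_lt h.le h3⟩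
    · right; left
      have : y = N := by omega
      subst this
      refine ⟨rfl, Int.emod_self, Int.ediv_self (by omega)⟩

lemma red_of_inBox {N L : ℕ} {x : Site} (h : InBox N L x) : red N L x = x := by
  obtain ⟨h1, h2, h3, h4⟩ := h
  unfold red
  rw [Int.emod_eq_of_lt h1 h2, Int.emod_eq_of_lt h3 h4]

lemma wt_of_range {N : ℕ} (w : ℂ) {x : Site} (h1 : 0 ≤ x.1) (h2 : x.1 < N) : wt N w x = 1 := by
  unfold wt
  rw [Int.ediv_eq_zero_of_lt h1 h2, zpow_zero]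

lemma dirs_cases {d : Site} (hd : d ∈ dirs) :
    (d.1 = 1 ∧ d.2 = 0) ∨ (d.1 = -1 ∧ d.2 = 0) ∨ (d.1 = 0 ∧ d.2 = 1) ∨ (d.1 = 0 ∧ d.2 = -1) := by
  simp only [dirs, Finset.mem_insert, Finset.mem_singleton] at hd
  rcases hd with rfl | rfl | rfl | rfl <;> simp

/-- reversal of an edge -/
lemma red_rev {N L : ℕ} {x y d : Site} (hx : InBox N L x)
    (h : red N L (x + d) = y) :
    red N L (y + -d) = x ∧ (y + -d).1 / (N : ℤ) = -((x + d).1 / (N : ℤ)) := by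
  obtain ⟨h1, h2, h3, h4⟩ := hx
  have e1 := Int.emod_add_mul_ediv (x + d).1 (N : ℤ)
  have e2 := Int.emod_add_mul_ediv (x + d).2 (L : ℤ)
  have g1 : (x + d).1 % (N : ℤ) = y.1 := congrArg Prod.fst h
  have g2 : (x + d).2 % (L : ℤ) = y.2 := congrArg Prod.snd h
  rw [g1] at e1
  rw [g2] at e2
  simp only [Prod.fst_add, Prod.snd_add] at e1 e2
  set a := (x.1 + d.1) / (N : ℤ) with ha
  set b := (x.2 + d.2) / (L : ℤ) with hb
  have f1 : (y + -d).1 = x.1 + (-a) * N := by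
    simp only [Prod.fst_add, Prod.fst_neg]
    linarith
  have f2 : (y + -d).2 = x.2 + (-b) * L := by
    simp only [Prod.snd_add, Prod.snd_neg]
    linarith
  constructor
  · unfold red
    rw [f1, f2, Int.add_mul_emod_self_right, Int.add_mul_emod_self_right, Int.emod_eq_of_lt h1 h2,
      Int.emod_eq_of_lt h3 h4]
  · have hN0 : (N : ℤ) ≠ 0 := by omega
    rw [f1, Int.add_mul_ediv_right _ _ hN0, Int.ediv_eq_zero_of_lt h1 h2, zero_add]
    rfl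

section
variable {α β : Type*}

lemma TR_hermitian {N L : ℕ} {w : ℂ} (hw : ‖w‖ = 1) {t : α → Site} (ht : ∀ p, InBox N L (t p)) :
    (TR N L w t t).IsHermitian := by
  ext p q
  rw [Matrix.conjTranspose_apply]
  unfold TR
  rw [star_neg, star_sum]
  congr 1
  refine Finset.sum_nbij' (fun d => -d) (fun d => -d) (fun d hd => neg_mem_dirs hd)
    (fun d hd => neg_mem_dirs hd) (fun d _ => neg_neg d) (fun d _ => neg_neg d) ?_
  intro d _
  by_cases h : red N L (t q + d) = t p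
  · obtain ⟨h1, h2⟩ := red_rev (ht q) h
    rw [if_pos h, if_pos h1]
    unfold wt
    rw [h2, star_zpow₀, _root_.zpow_neg, ← _root_.inv_zpow]
    congr 1
    apply eq_inv_of_mul_eq_one_left
    rw [RCLike.star_def, ← Complex.normSq_eq_conj_mul_self, Complex.normSq_eq_norm_sq, hw]
    norm_num
  · rw [if_neg h, star_zero, if_neg]
    intro h1
    have := (red_rev (ht p) h1).1
    rw [neg_neg] at this
    exact h this

lemma TR_sum (N L : ℕ) (w : ℂ) (t1 : α → Site) (t2 : β → Site) :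
    TR N L w (Sum.elim t1 t2) (Sum.elim t1 t2)
      = Matrix.fromBlocks (TR N L w t1 t1) (TR N L w t1 t2) (TR N L w t2 t1) (TR N L w t2 t2) := by
  ext p q
  rcases p with p | p <;> rcases q with q | q <;> rfl

lemma RM_sum [Fintype α] [DecidableEq α] [Fintype β] [DecidableEq β] (N L : ℕ) (w : ℂ)
    (t1 : α → Site) (t2 : β → Site) (V : Site → ℝ) :
    RM (TR N L w (Sum.elim t1 t2) (Sum.elim t1 t2)) (Sum.elim t1 t2) V
      = Matrix.fromBlocks (RM (TR N L w t1 t1) t1 V) (TR N L w t1 t2) (TR N L w t2 t1)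
        (RM (TR N L w t2 t2) t2 V) := by
  ext p q
  rcases p with p | p <;> rcases q with q | q
  · rw [Matrix.fromBlocks_apply₁₁]
    unfold RM TR
    simp only [Sum.elim_inl, Sum.inl.injEq] <;> rfl
  · rw [Matrix.fromBlocks_apply₁₂]
    unfold RM TR
    simp only [Sum.elim_inl, Sum.elim_inr, reduceCtorEq, if_false, add_zero] <;> rfl
  · rw [Matrix.fromBlocks_apply₂₁]
    unfold RM TR
    simp only [Sum.elim_inl, Sum.elim_inr, reduceCtorEq, if_false, add_zero] <;> rfl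
  · rw [Matrix.fromBlocks_apply₂₂]
    unfold RM TR
    simp only [Sum.elim_inr, Sum.inr.injEq] <;> rfl

end

/-- columns `0 .. j+1` -/
def sA (j L : ℕ) (p : Fin (j + 2) × Fin L) : Site := (((p.1 : ℕ) : ℤ), ((p.2 : ℕ) : ℤ))
/-- columns `j+2 .. 2j+2` -/
def sB (j L : ℕ) (p : Fin (j + 1) × Fin L) : Site := ((j : ℤ) + 2 + ((p.1 : ℕ) : ℤ), ((p.2 : ℕ) : ℤ))
/-- column `2j+3` -/
def sC (j L : ℕ) (r : Fin L) : Site := (2 * (j : ℤ) + 3, ((r : ℕ) : ℤ))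
/-- the cylinder -/
def s1 (j L : ℕ) : (Fin (j + 2) × Fin L) ⊕ (Fin (j + 1) × Fin L) → Site := Sum.elim (sA j L) (sB j L)
/-- the torus -/
def s0 (j L : ℕ) : ((Fin (j + 2) × Fin L) ⊕ (Fin (j + 1) × Fin L)) ⊕ Fin L → Site :=
  Sum.elim (s1 j L) (sC j L)

lemma s0_injective (j L : ℕ) : Function.Injective (s0 j L) := by
  rintro ((⟨a, b⟩ | ⟨a, b⟩) | r) ((⟨c, d⟩ | ⟨c, d⟩) | r') h
  all_goals
    simp only [s0, s1, Sum.elim_inl, Sum.elim_inr, sA, sB, sC, Prod.mk.injEq] at h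
    obtain ⟨h1, h2⟩ := h
  · have e1 : a = c := Fin.ext (by omega)
    have e2 : b = d := Fin.ext (by omega)
    rw [e1, e2]
  · have := a.2; omega
  · have := a.2; omega
  · have := c.2; omega
  · have e1 : a = c := Fin.ext (by omega)
    have e2 : b = d := Fin.ext (by omega)
    rw [e1, e2]
  · have := a.2; omega
  · have := c.2; omega
  · have := c.2; omega
  · have e2 : r = r' := Fin.ext (by omega)
    rw [e2]

lemma s1_injective (j L : ℕ) : Function.Injective (s1 j L) := by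
  intro p q h
  have : s0 j L (Sum.inl p) = s0 j L (Sum.inl q) := h
  exact Sum.inl_injective (s0_injective j L this)

lemma sB_injective (j L : ℕ) : Function.Injective (sB j L) := by
  intro p q h
  have : s1 j L (Sum.inr p) = s1 j L (Sum.inr q) := h
  exact Sum.inr_injective (s1_injective j L this)

lemma s0_inBox (j L : ℕ) (p : ((Fin (j + 2) × Fin L) ⊕ (Fin (j + 1) × Fin L)) ⊕ Fin L) :
    InBox (2 * j + 4) L (s0 j L p) := by
  unfold InBox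
  rcases p with ((⟨a, b⟩ | ⟨a, b⟩) | r)
  · have := a.2; have := b.2
    simp only [s0, s1, Sum.elim_inl, sA]
    push_cast
    omega
  · have := a.2; have := b.2
    simp only [s0, s1, Sum.elim_inl, Sum.elim_inr, sB]
    push_cast
    omega
  · have := r.2
    simp only [s0, Sum.elim_inr, sC]
    push_cast
    omega

lemma s0_card (j L : ℕ) : Fintype.card (((Fin (j + 2) × Fin L) ⊕ (Fin (j + 1) × Fin L)) ⊕ Fin L)
    = (2 * j + 4) * L := by
  simp only [Fintype.card_sum, Fintype.card_prod, Fintype.card_fin]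
  ring

/-- evaluation of a hopping sum -/
lemma hop_eval {N L : ℕ} (w : ℂ) {x : Site} (hx : InBox N L x) (y : Site) :
    ∑ d ∈ dirs, (if red N L (x + d) = y then wt N w (x + d) else 0)
      = (if (x.1 + 1) % (N : ℤ) = y.1 ∧ x.2 = y.2 then w ^ ((x.1 + 1) / (N : ℤ)) else 0)
      + (if (x.1 - 1) % (N : ℤ) = y.1 ∧ x.2 = y.2 then w ^ ((x.1 - 1) / (N : ℤ)) else 0)
      + (if x.1 = y.1 ∧ (x.2 + 1) % (L : ℤ) = y.2 then 1 else 0)
      + (if x.1 = y.1 ∧ (x.2 - 1) % (L : ℤ) = y.2 then 1 else 0) := by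
  obtain ⟨h1, h2, h3, h4⟩ := hx
  rw [sum_dirs]
  have e1 : x.1 % (N : ℤ) = x.1 := Int.emod_eq_of_lt h1 h2
  have e2 : x.2 % (L : ℤ) = x.2 := Int.emod_eq_of_lt h3 h4
  have e3 : x.1 / (N : ℤ) = 0 := Int.ediv_eq_zero_of_lt h1 h2
  unfold red wt
  simp only [Prod.fst_add, Prod.snd_add, Prod.ext_iff, add_zero, e1, e2, e3, zpow_zero,
    ← sub_eq_add_neg]

section
variable {j L : ℕ}

lemma rowlt (r : Fin L) : (0 : ℤ) ≤ ((r : ℕ) : ℤ) ∧ ((r : ℕ) : ℤ) < (L : ℤ) := by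
  have := r.2; omega

lemma TR_CA (w : ℂ) (r : Fin L) (a : Fin (j + 2) × Fin L) :
    TR (2 * j + 4) L w (sC j L) (sA j L) r a = if a = (0, r) then -w else 0 := by
  unfold TR
  have hr := rowlt r
  rw [hop_eval w (x := sC j L r) (by unfold InBox sC; push_cast; omega)]
  have ha := a.1.2
  have e1 : ((2 * (j : ℤ) + 3) + 1) % ((2 * j + 4 : ℕ) : ℤ) = 0 := by
    have : ((2 * (j : ℤ) + 3) + 1) = ((2 * j + 4 : ℕ) : ℤ) := by push_cast; ring
    rw [this, Int.emod_self]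
  have e2 : ((2 * (j : ℤ) + 3) + 1) / ((2 * j + 4 : ℕ) : ℤ) = 1 := by
    have : ((2 * (j : ℤ) + 3) + 1) = ((2 * j + 4 : ℕ) : ℤ) := by push_cast; ring
    rw [this, Int.ediv_self (by push_cast; omega)]
  have e3 : ((2 * (j : ℤ) + 3) - 1) % ((2 * j + 4 : ℕ) : ℤ) = 2 * (j : ℤ) + 2 := by
    rw [Int.emod_eq_of_lt (by omega) (by push_cast; omega)]; ring
  unfold sC sA
  simp only [e1, e2, e3]
  rw [if_neg (c := 2 * (j : ℤ) + 2 = ((a.1 : ℕ) : ℤ) ∧ _) (by omega),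
    if_neg (c := 2 * (j : ℤ) + 3 = ((a.1 : ℕ) : ℤ) ∧ _) (by omega),
    if_neg (c := 2 * (j : ℤ) + 3 = ((a.1 : ℕ) : ℤ) ∧ _) (by omega), add_zero, add_zero, add_zero,
    zpow_one]
  have e4 : (0 = ((a.1 : ℕ) : ℤ) ∧ ((r : ℕ) : ℤ) = ((a.2 : ℕ) : ℤ)) ↔ a = (0, r) := by
    rw [Prod.ext_iff, Fin.ext_iff, Fin.ext_iff]
    simp only [Fin.val_zero]
    omega
  rw [if_congr e4 rfl rfl]
  split_ifs <;> simp

lemma TR_CB (w : ℂ) (r : Fin L) (b : Fin (j + 1) × Fin L) :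
    TR (2 * j + 4) L w (sC j L) (sB j L) r b = if b = (Fin.last j, r) then -1 else 0 := by
  unfold TR
  have hr := rowlt r
  rw [hop_eval w (x := sC j L r) (by unfold InBox sC; push_cast; omega)]
  have hb := b.1.2
  have e1 : ((2 * (j : ℤ) + 3) + 1) % ((2 * j + 4 : ℕ) : ℤ) = 0 := by
    have : ((2 * (j : ℤ) + 3) + 1) = ((2 * j + 4 : ℕ) : ℤ) := by push_cast; ring
    rw [this, Int.emod_self]
  have e3 : ((2 * (j : ℤ) + 3) - 1) % ((2 * j + 4 : ℕ) : ℤ) = 2 * (j : ℤ) + 2 := by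
    rw [Int.emod_eq_of_lt (by omega) (by push_cast; omega)]; ring
  have e5 : ((2 * (j : ℤ) + 3) - 1) / ((2 * j + 4 : ℕ) : ℤ) = 0 :=
    Int.ediv_eq_zero_of_lt (by omega) (by push_cast; omega)
  unfold sC sB
  simp only [e1, e5, e3]
  rw [if_neg (c := 0 = (j : ℤ) + 2 + ((b.1 : ℕ) : ℤ) ∧ _) (by omega),
    if_neg (c := 2 * (j : ℤ) + 3 = (j : ℤ) + 2 + ((b.1 : ℕ) : ℤ) ∧ _) (by omega),
    if_neg (c := 2 * (j : ℤ) + 3 = (j : ℤ) + 2 + ((b.1 : ℕ) : ℤ) ∧ _) (by omega), add_zero, add_zero,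
    zero_add, zpow_zero]
  have e4 : (2 * (j : ℤ) + 2 = (j : ℤ) + 2 + ((b.1 : ℕ) : ℤ) ∧ ((r : ℕ) : ℤ) = ((b.2 : ℕ) : ℤ))
      ↔ b = (Fin.last j, r) := by
    rw [Prod.ext_iff, Fin.ext_iff, Fin.ext_iff]
    simp only [Fin.val_last]
    omega
  rw [if_congr e4 rfl rfl]
  split_ifs <;> simp

lemma TR_AC (w : ℂ) (a : Fin (j + 2) × Fin L) (r : Fin L) :
    TR (2 * j + 4) L w (sA j L) (sC j L) a r = if a = (0, r) then -w⁻¹ else 0 := by
  unfold TR
  have hr := rowlt a.2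
  have ha := a.1.2
  rw [hop_eval w (x := sA j L a) (by unfold InBox sA; push_cast; omega)]
  unfold sC sA
  simp only
  have e1 : (((a.1 : ℕ) : ℤ) + 1) % ((2 * j + 4 : ℕ) : ℤ) = ((a.1 : ℕ) : ℤ) + 1 :=
    Int.emod_eq_of_lt (by omega) (by push_cast; omega)
  rw [e1]
  rw [if_neg (c := ((a.1 : ℕ) : ℤ) + 1 = 2 * (j : ℤ) + 3 ∧ _) (by omega),
    if_neg (c := ((a.1 : ℕ) : ℤ) = 2 * (j : ℤ) + 3 ∧ _) (by omega),
    if_neg (c := ((a.1 : ℕ) : ℤ) = 2 * (j : ℤ) + 3 ∧ _) (by omega), add_zero, add_zero,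
    zero_add]
  rcases ecases (N := 2 * j + 4) (by omega) (y := ((a.1 : ℕ) : ℤ) - 1) (by omega) (by push_cast; omega)
    with ⟨h1, h2, h3⟩ | ⟨h1, h2, h3⟩ | ⟨h1, h2, h3, h4⟩
  · rw [h2, h3]
    have e4 : (((2 * j + 4 : ℕ) : ℤ) - 1 = 2 * (j : ℤ) + 3 ∧ ((a.2 : ℕ) : ℤ) = ((r : ℕ) : ℤ))
        ↔ a = (0, r) := by
      rw [Prod.ext_iff, Fin.ext_iff, Fin.ext_iff]
      simp only [Fin.val_zero]
      push_cast
      omega
    rw [if_congr e4 rfl rfl]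
    split_ifs
    · rw [_root_.zpow_neg_one]
    · simp
  · push_cast at h1; omega
  · rw [h3, h4, if_neg (by omega), if_neg]
    · simp
    · rintro rfl
      simp only [Fin.val_zero] at h1
      omega

lemma TR_BC (w : ℂ) (b : Fin (j + 1) × Fin L) (r : Fin L) :
    TR (2 * j + 4) L w (sB j L) (sC j L) b r = if b = (Fin.last j, r) then -1 else 0 := by
  unfold TR
  have hr := rowlt b.2
  have hb := b.1.2
  rw [hop_eval w (x := sB j L b) (by unfold InBox sB; push_cast; omega)]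
  unfold sC sB
  simp only
  have e1 : ((j : ℤ) + 2 + ((b.1 : ℕ) : ℤ) + 1) % ((2 * j + 4 : ℕ) : ℤ) = (j : ℤ) + 2 + ((b.1 : ℕ) : ℤ) + 1 :=
    Int.emod_eq_of_lt (by omega) (by push_cast; omega)
  have e2 : ((j : ℤ) + 2 + ((b.1 : ℕ) : ℤ) + 1) / ((2 * j + 4 : ℕ) : ℤ) = 0 :=
    Int.ediv_eq_zero_of_lt (by omega) (by push_cast; omega)
  have e3 : ((j : ℤ) + 2 + ((b.1 : ℕ) : ℤ) - 1) % ((2 * j + 4 : ℕ) : ℤ) = (j : ℤ) + 2 + ((b.1 : ℕ) : ℤ) - 1 :=
    Int.emod_eq_of_lt (by omega) (by push_cast; omega)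
  rw [e1, e2, e3, if_neg (c := (j : ℤ) + 2 + ((b.1 : ℕ) : ℤ) - 1 = 2 * (j : ℤ) + 3 ∧ _) (by omega),
    if_neg (c := (j : ℤ) + 2 + ((b.1 : ℕ) : ℤ) = 2 * (j : ℤ) + 3 ∧ _) (by omega),
    if_neg (c := (j : ℤ) + 2 + ((b.1 : ℕ) : ℤ) = 2 * (j : ℤ) + 3 ∧ _) (by omega), add_zero, add_zero,
    add_zero, zpow_zero]
  have e4 : ((j : ℤ) + 2 + ((b.1 : ℕ) : ℤ) + 1 = 2 * (j : ℤ) + 3 ∧ ((b.2 : ℕ) : ℤ) = ((r : ℕ) : ℤ))
      ↔ b = (Fin.last j, r) := by
    rw [Prod.ext_iff, Fin.ext_iff, Fin.ext_iff]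
    simp only [Fin.val_last]
    omega
  rw [if_congr e4 rfl rfl]
  split_ifs <;> simp

lemma TR_AB (w : ℂ) (a : Fin (j + 2) × Fin L) (b : Fin (j + 1) × Fin L) :
    TR (2 * j + 4) L w (sA j L) (sB j L) a b
      = if a.1 = Fin.last (j + 1) ∧ b.1 = 0 ∧ a.2 = b.2 then -1 else 0 := by
  unfold TR
  have hr := rowlt a.2
  have ha := a.1.2
  have hb := b.1.2
  rw [hop_eval w (x := sA j L a) (by unfold InBox sA; push_cast; omega)]
  unfold sB sA
  simp only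
  have e1 : (((a.1 : ℕ) : ℤ) + 1) % ((2 * j + 4 : ℕ) : ℤ) = ((a.1 : ℕ) : ℤ) + 1 :=
    Int.emod_eq_of_lt (by omega) (by push_cast; omega)
  have e2 : (((a.1 : ℕ) : ℤ) + 1) / ((2 * j + 4 : ℕ) : ℤ) = 0 :=
    Int.ediv_eq_zero_of_lt (by omega) (by push_cast; omega)
  have e3 : (((a.1 : ℕ) : ℤ) - 1) % ((2 * j + 4 : ℕ) : ℤ) ≠ (j : ℤ) + 2 + ((b.1 : ℕ) : ℤ) := by
    rcases ecases (N := 2 * j + 4) (by omega) (y := ((a.1 : ℕ) : ℤ) - 1) (by omega) (by push_cast; omega)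
      with ⟨h1, h2, h3⟩ | ⟨h1, h2, h3⟩ | ⟨h1, h2, h3, h4⟩
    · rw [h2]; push_cast; omega
    · push_cast at h1; omega
    · rw [h3]; omega
  rw [e1, e2, if_neg (c := (((a.1 : ℕ) : ℤ) - 1) % ((2 * j + 4 : ℕ) : ℤ)
      = (j : ℤ) + 2 + ((b.1 : ℕ) : ℤ) ∧ _) (fun h => e3 h.1),
    if_neg (c := ((a.1 : ℕ) : ℤ) = (j : ℤ) + 2 + ((b.1 : ℕ) : ℤ) ∧ _) (by omega),
    if_neg (c := ((a.1 : ℕ) : ℤ) = (j : ℤ) + 2 + ((b.1 : ℕ) : ℤ) ∧ _) (by omega), add_zero, add_zero,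
    add_zero, zpow_zero]
  have e4 : (((a.1 : ℕ) : ℤ) + 1 = (j : ℤ) + 2 + ((b.1 : ℕ) : ℤ) ∧ ((a.2 : ℕ) : ℤ) = ((b.2 : ℕ) : ℤ))
      ↔ (a.1 = Fin.last (j + 1) ∧ b.1 = 0 ∧ a.2 = b.2) := by
    rw [Fin.ext_iff, Fin.ext_iff, Fin.ext_iff]
    simp only [Fin.val_last, Fin.val_zero]
    omega
  rw [if_congr e4 rfl rfl]
  split_ifs <;> simp

/-- no seam inside the cylinder -/
lemma TR_cyl (w : ℂ) : TR (2 * j + 4) L w (s1 j L) (s1 j L) = TR (2 * j + 4) L 1 (s1 j L) (s1 j L) := by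
  have hin : ∀ p, InBox (2 * j + 4) L (s1 j L p) := fun p => s0_inBox j L (Sum.inl p)
  have hmax : ∀ p, (s1 j L p).1 ≤ 2 * (j : ℤ) + 2 := by
    rintro (⟨a, b⟩ | ⟨a, b⟩)
    · have := a.2
      simp only [s1, Sum.elim_inl, sA]; omega
    · have := a.2
      simp only [s1, Sum.elim_inr, sB]; omega
  ext p q
  unfold TR
  congr 1
  apply Finset.sum_congr rfl
  intro d hd
  by_cases h : red (2 * j + 4) L (s1 j L p + d) = s1 j L q
  · rw [if_pos h, if_pos h]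
    have h1 : (s1 j L p + d).1 % ((2 * j + 4 : ℕ) : ℤ) = (s1 j L q).1 := congrArg Prod.fst h
    have h2 := hmax p
    have h3 := hmax q
    have h4 := (hin p).1
    have h5 := dirs_cases hd
    have h6 : (s1 j L p + d).1 = (s1 j L p).1 + d.1 := rfl
    rcases ecases (N := 2 * j + 4) (by omega) (y := (s1 j L p + d).1) (by omega) (by push_cast; omega)
      with ⟨g1, g2, g3⟩ | ⟨g1, g2, g3⟩ | ⟨g1, g2, g3, g4⟩
    · rw [g2] at h1; push_cast at h1; omega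
    · push_cast at g1; omega
    · unfold wt
      rw [g4, zpow_zero, zpow_zero]
  · rw [if_neg h, if_neg h]

lemma norm_TR_CC (w : ℂ) (r r' : Fin L) :
    ‖TR (2 * j + 4) L w (sC j L) (sC j L) r r'‖ ≤ 2 := by
  unfold TR
  have hr := rowlt r
  rw [hop_eval w (x := sC j L r) (by unfold InBox sC; push_cast; omega)]
  have e1 : ((2 * (j : ℤ) + 3) + 1) % ((2 * j + 4 : ℕ) : ℤ) = 0 := by
    have : ((2 * (j : ℤ) + 3) + 1) = ((2 * j + 4 : ℕ) : ℤ) := by push_cast; ring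
    rw [this, Int.emod_self]
  have e3 : ((2 * (j : ℤ) + 3) - 1) % ((2 * j + 4 : ℕ) : ℤ) = 2 * (j : ℤ) + 2 := by
    rw [Int.emod_eq_of_lt (by omega) (by push_cast; omega)]; ring
  have f1 : ¬ (((sC j L r).1 + 1) % ((2 * j + 4 : ℕ) : ℤ) = (sC j L r').1 ∧ (sC j L r).2 = (sC j L r').2) := by
    rintro ⟨h, _⟩
    unfold sC at h
    simp only [e1] at h
    omega
  have f2 : ¬ (((sC j L r).1 - 1) % ((2 * j + 4 : ℕ) : ℤ) = (sC j L r').1 ∧ (sC j L r).2 = (sC j L r').2) := by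
    rintro ⟨h, _⟩
    unfold sC at h
    simp only [e3] at h
    omega
  rw [if_neg f1, if_neg f2, zero_add, zero_add, norm_neg]
  refine (norm_add_le _ _).trans ?_
  have : ∀ p : Prop, ∀ [Decidable p], ‖(if p then (1 : ℂ) else 0)‖ ≤ 1 := by
    intro p _
    split_ifs <;> simp
  have h1 := this ((sC j L r).1 = (sC j L r').1 ∧ ((sC j L r).2 + 1) % (L : ℤ) = (sC j L r').2)
  have h2 := this ((sC j L r).1 = (sC j L r').1 ∧ ((sC j L r).2 - 1) % (L : ℤ) = (sC j L r').2)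
  linarith

end

end Pool.Agent.Helper19
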