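import Pool.Agent.Helper19.Four

set_option autoImplicit false

open MeasureTheory Filter Topology Matrix
open scoped ENNReal NNReal ComplexOrder

namespace Pool.Agent.Helper19

section
variable {ι : Type*} [Fintype ι] [DecidableEq ι]

omit [DecidableEq ι] in
lemma fro_add_le (X Y : Matrix ι ι ℂ) {t : ℝ} (ht : 0 < t) :
    fro (X + Y) ≤ (1 + t) * fro X + (1 + t⁻¹) * fro Y := by
  unfold fro
  rw [Finset.mul_sum, Finset.mul_sum, ← Finset.sum_add_distrib]
  apply Finset.sum_le_sum
  intro i _
  rw [Finset.mul_sum, Finset.mul_sum, ← Finset.sum_add_distrib]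
  apply Finset.sum_le_sum
  intro j _
  rw [Matrix.add_apply]
  set a := ‖X i j‖ with ha
  set b := ‖Y i j‖ with hb
  have h1 : ‖X i j + Y i j‖ ≤ a + b := norm_add_le _ _
  have h2 : ‖X i j + Y i j‖ ^ 2 ≤ (a + b) ^ 2 := pow_le_pow_left₀ (norm_nonneg _) h1 2
  have h3 : 0 ≤ (t * a - b) ^ 2 * t⁻¹ := by positivity
  have h4 : (t * a - b) ^ 2 * t⁻¹ = t * a ^ 2 - 2 * a * b + t⁻¹ * b ^ 2 := by
    field_simp
    ring
  nlinarith

lemma fro_unitary {U : Matrix ι ι ℂ} (hU : Uᴴ * U = 1) (B : Matrix ι ι ℂ) :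
    fro (Uᴴ * B * U) = fro B := by
  have hU2 : U * Uᴴ = 1 := mul_eq_one_comm.mp hU
  have h1 : ((fro (Uᴴ * B * U) : ℝ) : ℂ) = fro B := by
    rw [← trace_conj_mul, ← trace_conj_mul]
    have : (Uᴴ * B * U)ᴴ * (Uᴴ * B * U) = Uᴴ * (Bᴴ * B) * U := by
      rw [Matrix.conjTranspose_mul, Matrix.conjTranspose_mul, Matrix.conjTranspose_conjTranspose]
      calc Uᴴ * (Bᴴ * U) * (Uᴴ * B * U) = Uᴴ * Bᴴ * (U * Uᴴ) * B * U := by
            simp only [Matrix.mul_assoc]
        _ = _ := by rw [hU2, Matrix.mul_one]; simp only [Matrix.mul_assoc]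
    rw [this, Matrix.trace_mul_comm, ← Matrix.mul_assoc, hU2, Matrix.one_mul]
  exact_mod_cast h1

end

section
variable {L : ℕ} [NeZero L]

/-- boundary correction -/
noncomputable def BC (L : ℕ) [NeZero L] : Matrix (Fin L × Fin L) (Fin L × Fin L) ℂ :=
  fun p q => ∑ d ∈ dirs, ((if tn p d q then 1 else 0) - if st L L q = st L L p + d then 1 else 0)

lemma BM_decomp (V : Site → ℝ) :
    BM L L V = Matrix.diagonal (fun p => ((V (st L L p) : ℝ) : ℂ)) - PA L + BC L := by
  ext p q
  rw [Matrix.add_apply, Matrix.sub_apply, Matrix.diagonal_apply]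
  unfold BM PA BC
  rw [Finset.sum_sub_distrib]
  ring

lemma tn_of_st {p q : Fin L × Fin L} {d : Site} (h : st L L q = st L L p + d) : tn p d q := by
  have h1 : ((q.1 : ℕ) : ℤ) = ((p.1 : ℕ) : ℤ) + d.1 := congrArg Prod.fst h
  have h2 : ((q.2 : ℕ) : ℤ) = ((p.2 : ℕ) : ℤ) + d.2 := congrArg Prod.snd h
  constructor
  · rw [zq_apply, zq_apply]
    have := congrArg (fun z : ℤ => (z : ZMod L)) h1
    push_cast at this
    exact this
  · rw [zq_apply, zq_apply]
    have := congrArg (fun z : ℤ => (z : ZMod L)) h2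
    push_cast at this
    exact this

/-- number of boundary defects at a site -/
noncomputable def bd (p : Fin L × Fin L) : ℝ :=
  (if (p.1 : ℕ) + 1 = L then 1 else 0) + (if (p.1 : ℕ) = 0 then 1 else 0)
    + (if (p.2 : ℕ) + 1 = L then 1 else 0) + (if (p.2 : ℕ) = 0 then 1 else 0)

omit [NeZero L] in
lemma bd_nonneg (p : Fin L × Fin L) : 0 ≤ bd p := by
  unfold bd; positivity

omit [NeZero L] in
lemma one_le_bd {p : Fin L × Fin L} {d : Site} (hd : d ∈ dirs)
    (h : ¬ ∃ q, st L L q = st L L p + d) : 1 ≤ bd p := by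
  rw [mem_range_st] at h
  have hp1 := p.1.2
  have hp2 := p.2.2
  unfold bd
  have key : (p.1 : ℕ) + 1 = L ∨ (p.1 : ℕ) = 0 ∨ (p.2 : ℕ) + 1 = L ∨ (p.2 : ℕ) = 0 := by
    simp only [dirs, Finset.mem_insert, Finset.mem_singleton] at hd
    by_contra hcon
    simp only [not_or] at hcon
    apply h
    rcases hd with rfl | rfl | rfl | rfl
    all_goals simp only [st, Prod.mk_add_mk]; omega
  rcases key with h1 | h1 | h1 | h1
  all_goals rw [if_pos h1]
  · have : (0 : ℝ) ≤ (if (p.1 : ℕ) = 0 then 1 else 0) := by positivity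
    have : (0 : ℝ) ≤ (if (p.2 : ℕ) = 0 then 1 else 0) := by positivity
    have : (0 : ℝ) ≤ (if (p.2 : ℕ) + 1 = L then 1 else 0) := by positivity
    linarith
  · have : (0 : ℝ) ≤ (if (p.1 : ℕ) + 1 = L then 1 else 0) := by positivity
    have : (0 : ℝ) ≤ (if (p.2 : ℕ) = 0 then 1 else 0) := by positivity
    have : (0 : ℝ) ≤ (if (p.2 : ℕ) + 1 = L then 1 else 0) := by positivity
    linarith
  · have : (0 : ℝ) ≤ (if (p.1 : ℕ) = 0 then 1 else 0) := by positivity
    have : (0 : ℝ) ≤ (if (p.2 : ℕ) = 0 then 1 else 0) := by positivity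
    have : (0 : ℝ) ≤ (if (p.1 : ℕ) + 1 = L then 1 else 0) := by positivity
    linarith
  · have : (0 : ℝ) ≤ (if (p.1 : ℕ) = 0 then 1 else 0) := by positivity
    have : (0 : ℝ) ≤ (if (p.1 : ℕ) + 1 = L then 1 else 0) := by positivity
    have : (0 : ℝ) ≤ (if (p.2 : ℕ) + 1 = L then 1 else 0) := by positivity
    linarith

omit [NeZero L] in
lemma sum_bd_le : ∑ p : Fin L × Fin L, bd p ≤ 4 * L := by
  unfold bd
  simp only [Finset.sum_add_distrib]
  have h1 : ∀ c : ℕ, ∑ x : Fin L, (if (x : ℕ) = c then (1 : ℝ) else 0) ≤ 1 := by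
    intro c
    rw [Finset.sum_boole]
    have : (Finset.univ.filter (fun x : Fin L => (x : ℕ) = c)).card ≤ 1 := by
      rw [Finset.card_le_one]
      intro a ha b hb
      simp only [Finset.mem_filter] at ha hb
      exact Fin.ext (ha.2.trans hb.2.symm)
    exact_mod_cast this
  have h1' : ∑ x : Fin L, (if (x : ℕ) + 1 = L then (1 : ℝ) else 0) ≤ 1 := by
    refine le_trans (le_of_eq ?_) (h1 (L - 1))
    apply Finset.sum_congr rfl
    intro x _
    have := x.2
    have : ((x : ℕ) + 1 = L) ↔ ((x : ℕ) = L - 1) := by omega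
    simp only [this]
  have e1 : ∀ f : Fin L → ℝ, ∑ p : Fin L × Fin L, f p.1 = L * ∑ x, f x := by
    intro f
    rw [Fintype.sum_prod_type, Finset.mul_sum]
    apply Finset.sum_congr rfl
    intro x _
    simp
  have e2 : ∀ f : Fin L → ℝ, ∑ p : Fin L × Fin L, f p.2 = L * ∑ x, f x := by
    intro f
    rw [Fintype.sum_prod_type]
    simp
  rw [e1 (fun x => if (x : ℕ) + 1 = L then 1 else 0), e1 (fun x => if (x : ℕ) = 0 then 1 else 0),
    e2 (fun x => if (x : ℕ) + 1 = L then 1 else 0), e2 (fun x => if (x : ℕ) = 0 then 1 else 0)]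
  have hL : (0 : ℝ) ≤ L := Nat.cast_nonneg _
  have a1 := mul_le_mul_of_nonneg_left h1' hL
  have a2 := mul_le_mul_of_nonneg_left (h1 0) hL
  linarith

lemma fro_BC_le : fro (BC L) ≤ 64 * L := by
  have h1 : ∀ p : Fin L × Fin L, ∑ q, ‖BC L p q‖ ^ 2 ≤ 16 * bd p := by
    intro p
    have h2 : ∀ q, ‖BC L p q‖ ^ 2 ≤ 4 * ∑ d ∈ dirs, (((if tn p d q then (1 : ℝ) else 0)
        - if st L L q = st L L p + d then 1 else 0)) := by
      intro q
      have h3 : BC L p q = ((∑ d ∈ dirs, ((if tn p d q then (1 : ℝ) else 0)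
        - if st L L q = st L L p + d then 1 else 0) : ℝ) : ℂ) := by
        unfold BC
        rw [Complex.ofReal_sum]
        apply Finset.sum_congr rfl
        intro d _
        split_ifs <;> simp
      rw [h3, Complex.norm_real, Real.norm_eq_abs, sq_abs]
      have h4 := sq_sum_le_card_mul_sum_sq (s := dirs) (f := fun d => ((if tn p d q then (1 : ℝ) else 0)
        - if st L L q = st L L p + d then 1 else 0))
      have h5 : (dirs.card : ℝ) ≤ 4 := by
        have : dirs.card ≤ 4 := by
          unfold dirs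
          exact Finset.card_le_four
        exact_mod_cast this
      have h6 : ∀ d ∈ dirs, ((if tn p d q then (1 : ℝ) else 0)
        - if st L L q = st L L p + d then 1 else 0) ^ 2 = ((if tn p d q then (1 : ℝ) else 0)
        - if st L L q = st L L p + d then 1 else 0) := by
        intro d _
        by_cases h : st L L q = st L L p + d
        · rw [if_pos h, if_pos (tn_of_st h)]; norm_num
        · rw [if_neg h]
          split_ifs <;> norm_num
      rw [Finset.sum_congr rfl h6] at h4
      refine h4.trans ?_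
      apply mul_le_mul_of_nonneg_right h5
      apply Finset.sum_nonneg
      intro d hd
      rw [← h6 d hd]
      positivity
    refine (Finset.sum_le_sum (fun q _ => h2 q)).trans ?_
    rw [← Finset.mul_sum, Finset.sum_comm]
    have h7 : ∀ d ∈ dirs, ∑ q, ((if tn p d q then (1 : ℝ) else 0)
        - if st L L q = st L L p + d then 1 else 0) ≤ bd p := by
      intro d hd
      obtain ⟨q0, hq0⟩ := exists_tn p d
      by_cases h : ∃ q, st L L q = st L L p + d
      · obtain ⟨q1, hq1⟩ := h
        have h8 : ∀ q, st L L q = st L L p + d ↔ q = q1 := by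
          intro q
          constructor
          · intro h; exact st_injective L L (h.trans hq1.symm)
          · rintro rfl; exact hq1
        have h9 : q1 = q0 := (hq0 q1).mp (tn_of_st hq1)
        have : ∑ q, ((if tn p d q then (1 : ℝ) else 0)
          - if st L L q = st L L p + d then 1 else 0) = 0 := by
          apply Finset.sum_eq_zero
          intro q _
          simp only [hq0, h8, h9, sub_self]
        rw [this]
        exact bd_nonneg p
      · refine le_trans ?_ (one_le_bd hd h)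
        have h8 : ∀ q, ¬ (st L L q = st L L p + d) := fun q hq => h ⟨q, hq⟩
        simp only [hq0, h8, if_false, sub_zero, Finset.sum_ite_eq', Finset.mem_univ, if_true, le_refl]
    have h10 := Finset.sum_le_sum h7
    rw [Finset.sum_const, nsmul_eq_mul] at h10
    have h5 : (dirs.card : ℝ) ≤ 4 := by
      have : dirs.card ≤ 4 := by
        unfold dirs
        exact Finset.card_le_four
      exact_mod_cast this
    have h11 := mul_le_mul_of_nonneg_right h5 (bd_nonneg p)
    linarith
  unfold fro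
  refine (Finset.sum_le_sum (fun p _ => h1 p)).trans ?_
  rw [← Finset.mul_sum]
  have := sum_bd_le (L := L)
  linarith

end

end Pool.Agent.Helper19
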