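import Pool.Agent.Helper19.Upper
import Pool.Agent.Helper19.Lower

set_option autoImplicit false

open MeasureTheory Filter Topology Matrix
open scoped ENNReal NNReal ComplexOrder

namespace Pool.Agent.Helper19

section
variable {L : ℕ} [NeZero L]

/-- squared weights -/
noncomputable def d2 (η : ℝ) (k : Fin L × Fin L) : ℝ := (Real.sqrt (al k ^ 2 + η ^ 2))⁻¹

/-- weights -/
noncomputable def dd (η : ℝ) (k : Fin L × Fin L) : ℝ := Real.sqrt (d2 η k)

lemma sq_add_pos {η : ℝ} (hη : 0 < η) (k : Fin L × Fin L) : 0 < al k ^ 2 + η ^ 2 := by positivity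

lemma d2_pos {η : ℝ} (hη : 0 < η) (k : Fin L × Fin L) : 0 < d2 η k := by
  unfold d2
  have := sq_add_pos hη k
  positivity

lemma dd_pos {η : ℝ} (hη : 0 < η) (k : Fin L × Fin L) : 0 < dd η k :=
  Real.sqrt_pos.mpr (d2_pos hη k)

lemma dd_sq {η : ℝ} (hη : 0 < η) (k : Fin L × Fin L) : dd η k ^ 2 = d2 η k :=
  Real.sq_sqrt (d2_pos hη k).le

lemma d2_le {η : ℝ} (hη : 0 < η) (k : Fin L × Fin L) : d2 η k ≤ η⁻¹ := by
  unfold d2
  apply inv_anti₀ hη
  apply Real.le_sqrt_of_sq_le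
  nlinarith [sq_nonneg (al k)]

/-- scaled Fourier matrix -/
noncomputable def FM (L : ℕ) [NeZero L] (η : ℝ) : Matrix (Fin L × Fin L) (Fin L × Fin L) ℂ :=
  FU L * Matrix.diagonal (fun k => (dd η k : ℂ))

lemma FM_apply (η : ℝ) (p k : Fin L × Fin L) : FM L η p k = FU L p k * (dd η k : ℂ) := by
  unfold FM
  rw [Matrix.mul_diagonal]

lemma conj_FM (η : ℝ) (X : Matrix (Fin L × Fin L) (Fin L × Fin L) ℂ) (k l : Fin L × Fin L) :
    ((FM L η)ᴴ * X * FM L η) k l = (dd η k : ℂ) * ((FU L)ᴴ * X * FU L) k l * (dd η l : ℂ) := by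
  unfold FM
  rw [Matrix.conjTranspose_mul, Matrix.diagonal_conjTranspose]
  have : (Matrix.diagonal (star fun k : Fin L × Fin L => (dd η k : ℂ))) * (FU L)ᴴ * X *
      (FU L * Matrix.diagonal (fun k => (dd η k : ℂ)))
      = Matrix.diagonal (fun k => (dd η k : ℂ)) * ((FU L)ᴴ * X * FU L)
        * Matrix.diagonal (fun k => (dd η k : ℂ)) := by
    have h : (star fun k : Fin L × Fin L => (dd η k : ℂ)) = fun k => (dd η k : ℂ) := by
      funext k; simp
    rw [h]
    simp only [Matrix.mul_assoc]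
  rw [this, Matrix.mul_diagonal, Matrix.diagonal_mul]

lemma norm_det_FU : ‖(FU L).det‖ = 1 := by
  have h := congrArg Matrix.det (FU_unitary (L := L))
  rw [Matrix.det_mul, Matrix.det_one, Matrix.det_conjTranspose, RCLike.star_def,
    ← Complex.normSq_eq_conj_mul_self, Complex.normSq_eq_norm_sq] at h
  have h2 : ‖(FU L).det‖ ^ 2 = 1 := by exact_mod_cast h
  have h3 := norm_nonneg (FU L).det
  nlinarith

lemma log_det_upper {η : ℝ} (hη : 0 < η) {V : Site → ℝ} (hdet : (BM L L V).det ≠ 0) :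
    Real.log ‖(BM L L V).det‖ ≤ (1 / 2) * ∑ k : Fin L × Fin L, Real.log (al k ^ 2 + η ^ 2)
      + (fro ((FM L η)ᴴ * BM L L V * FM L η) - (L : ℝ) * L) / 2 := by
  have hF : ‖(FM L η).det‖ = ∏ k : Fin L × Fin L, dd η k := by
    unfold FM
    rw [Matrix.det_mul, norm_mul, norm_det_FU, one_mul, Matrix.det_diagonal, norm_prod]
    apply Finset.prod_congr rfl
    intro k _
    rw [Complex.norm_real, Real.norm_eq_abs, abs_of_pos (dd_pos hη k)]
  have hFpos : 0 < ‖(FM L η).det‖ := by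
    rw [hF]; exact Finset.prod_pos (fun k _ => dd_pos hη k)
  have hF0 : (FM L η).det ≠ 0 := norm_pos_iff.mp hFpos
  have hdetpos : 0 < ‖(BM L L V).det‖ := norm_pos_iff.mpr hdet
  have hne : ((FM L η)ᴴ * BM L L V * FM L η).det ≠ 0 := by
    rw [Matrix.det_mul, Matrix.det_mul, Matrix.det_conjTranspose]
    exact mul_ne_zero (mul_ne_zero (star_ne_zero.mpr hF0) hdet) hF0
  have h1 := log_det_le _ hne
  rw [Matrix.det_mul, Matrix.det_mul, Matrix.det_conjTranspose, norm_mul, norm_mul, norm_star,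
    Real.log_mul (by positivity) hFpos.ne', Real.log_mul hFpos.ne' hdetpos.ne', hF,
    Real.log_prod (fun k _ => (dd_pos hη k).ne'), Fintype.card_prod, Fintype.card_fin] at h1
  have h2 : ∀ k : Fin L × Fin L, Real.log (dd η k) = -(1 / 4) * Real.log (al k ^ 2 + η ^ 2) := by
    intro k
    unfold dd d2
    rw [Real.log_sqrt (by positivity), Real.log_inv, Real.log_sqrt (sq_add_pos hη k).le]
    ring
  simp only [h2] at h1
  rw [← Finset.mul_sum] at h1
  push_cast at h1
  linarith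

end

end Pool.Agent.Helper19
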