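import Pool.Agent.Helper19.VarLin

set_option autoImplicit false

open MeasureTheory Filter Topology Matrix ProbabilityTheory
open scoped ENNReal NNReal

namespace Pool.Agent.Helper19

section
variable {μ : Measure ℝ} [IsProbabilityMeasure μ] {ι : Type*} [Fintype ι] {s : ι → Site}

lemma memLp_of_bdd {g : ℝ → ℝ} (hg : Measurable g) {B : ℝ} (hB : ∀ t, |g t| ≤ B) (x : Site) :
    MemLp (fun w : Site → ℝ => g (w x)) 2 (iid Site μ) := by
  apply MemLp.of_bound (C := B)
  · exact (hg.comp (measurable_pi_apply x)).aestronglyMeasurable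
  · exact Filter.Eventually.of_forall (fun w => by rw [Real.norm_eq_abs]; exact hB _)

lemma real_var (hs : Function.Injective s) {g : ι → ℝ → ℝ} (hg : ∀ p, Measurable (g p)) {B : ℝ}
    (hB : ∀ p t, |g p t| ≤ B) (hmean : ∀ p, ∫ t, g p t ∂μ = 0) (c : ℝ) :
    Integrable (fun w : Site → ℝ => (c + ∑ p, g p (w (s p))) ^ 2) (iid Site μ) ∧
    ∫ w, (c + ∑ p, g p (w (s p))) ^ 2 ∂(iid Site μ) = c ^ 2 + ∑ p, ∫ t, (g p t) ^ 2 ∂μ := by
  classical
  have hmem : ∀ p, MemLp (fun w : Site → ℝ => g p (w (s p))) 2 (iid Site μ) := fun p =>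
    memLp_of_bdd (hg p) (hB p) (s p)
  have hZ : MemLp (fun w : Site → ℝ => ∑ p, g p (w (s p))) 2 (iid Site μ) :=
    memLp_finsetSum _ (fun p _ => hmem p)
  have hev : ∀ p, ∫ w, g p (w (s p)) ∂(iid Site μ) = 0 := by
    intro p
    rw [integral_eval (hg p).aestronglyMeasurable (s p), hmean p]
  have hlin : ∫ w, ∑ p, g p (w (s p)) ∂(iid Site μ) = 0 := by
    rw [integral_finsetSum _ (fun p _ => (hmem p).integrable (by norm_num))]
    exact Finset.sum_eq_zero (fun p _ => hev p)
  have h1 : Var[fun w : Site → ℝ => ∑ p, g p (w (s p)); iid Site μ]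
      = ∫ w, (∑ p, g p (w (s p))) ^ 2 ∂(iid Site μ) :=
    variance_of_integral_eq_zero hZ.aemeasurable hlin
  have h2 : (fun w : Site → ℝ => ∑ p, g p (w (s p))) = ∑ p, (fun w : Site → ℝ => g p (w (s p))) := by
    funext w; simp
  have hind : iIndepFun (fun (x : Site) (w : Site → ℝ) => w x) (iid Site μ) :=
    iIndepFun_infinitePi (X := fun _ t => t) (fun _ => by fun_prop)
  have h3 : ∫ w, (∑ p, g p (w (s p))) ^ 2 ∂(iid Site μ) = ∑ p, ∫ t, (g p t) ^ 2 ∂μ := by
    rw [← h1, h2, IndepFun.variance_sum (fun p _ => hmem p)]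
    · apply Finset.sum_congr rfl
      intro p _
      rw [variance_of_integral_eq_zero (hmem p).aemeasurable (hev p)]
      exact integral_eval (f := fun t => (g p t) ^ 2) ((hg p).pow_const 2).aestronglyMeasurable (s p)
    · intro p _ q _ hpq
      have h3 := hind.indepFun (fun h => hpq (hs h) : s p ≠ s q)
      exact h3.comp (hg p) (hg q)
  have hc : MemLp (fun w : Site → ℝ => c + ∑ p, g p (w (s p))) 2 (iid Site μ) :=
    (memLp_const c).add hZ
  refine ⟨hc.integrable_sq, ?_⟩
  have h4 : ∀ w : Site → ℝ, (c + ∑ p, g p (w (s p))) ^ 2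
      = (c ^ 2 + 2 * c * ∑ p, g p (w (s p))) + (∑ p, g p (w (s p))) ^ 2 := fun w => by ring
  simp only [h4]
  have hZ1 : Integrable (fun w : Site → ℝ => ∑ p, g p (w (s p))) (iid Site μ) :=
    hZ.integrable (by norm_num)
  have hZ3 : Integrable (fun w : Site → ℝ => c ^ 2 + 2 * c * ∑ p, g p (w (s p))) (iid Site μ) :=
    (integrable_const _).add (hZ1.const_mul _)
  rw [integral_add hZ3 hZ.integrable_sq,
    integral_add (integrable_const _) (hZ1.const_mul _), integral_const_mul, hlin, h3]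
  simp

lemma cplx_var (hs : Function.Injective s) {h : ℝ → ℂ} (hh : Measurable h) {B : ℝ}
    (hB : ∀ t, ‖h t‖ ≤ B) (hmean : ∫ t, h t ∂μ = 0) (c : ℂ) (a : ι → ℂ) :
    Integrable (fun w : Site → ℝ => ‖c + ∑ p, a p * h (w (s p))‖ ^ 2) (iid Site μ) ∧
    ∫ w, ‖c + ∑ p, a p * h (w (s p))‖ ^ 2 ∂(iid Site μ)
      = ‖c‖ ^ 2 + (∫ t, ‖h t‖ ^ 2 ∂μ) * ∑ p, ‖a p‖ ^ 2 := by
  have hB0 : 0 ≤ B := (norm_nonneg _).trans (hB 0)
  have hint : Integrable h μ := by
    apply Integrable.of_bound hh.aestronglyMeasurable B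
    exact Filter.Eventually.of_forall hB
  set A := ∑ p, ‖a p‖ with hA
  have hbd : ∀ p t, ‖a p * h t‖ ≤ A * B := by
    intro p t
    rw [norm_mul]
    apply mul_le_mul _ (hB t) (norm_nonneg _) (by positivity)
    exact Finset.single_le_sum (f := fun p => ‖a p‖) (fun i _ => norm_nonneg _) (Finset.mem_univ p)
  have hmean2 : ∀ p, ∫ t, a p * h t ∂μ = 0 := by
    intro p; rw [integral_const_mul, hmean, mul_zero]
  obtain ⟨hr, hr2⟩ := real_var (μ := μ) (s := s) hs (g := fun p t => (a p * h t).re)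
    (fun p => Complex.measurable_re.comp (measurable_const.mul hh)) (B := A * B)
    (fun p t => (Complex.abs_re_le_norm _).trans (hbd p t)) (fun p => by
      have := hmean2 p
      have h1 : ∫ t, (a p * h t).re ∂μ = (∫ t, a p * h t ∂μ).re :=
        (Complex.reCLM.integral_comp_comm (hint.const_mul (a p)))
      rw [h1, this, Complex.zero_re]) c.re
  obtain ⟨hi, hi2⟩ := real_var (μ := μ) (s := s) hs (g := fun p t => (a p * h t).im)
    (fun p => Complex.measurable_im.comp (measurable_const.mul hh)) (B := A * B)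
    (fun p t => (Complex.abs_im_le_norm _).trans (hbd p t)) (fun p => by
      have := hmean2 p
      have h1 : ∫ t, (a p * h t).im ∂μ = (∫ t, a p * h t ∂μ).im :=
        (Complex.imCLM.integral_comp_comm (hint.const_mul (a p)))
      rw [h1, this, Complex.zero_im]) c.im
  have h1 : ∀ w : Site → ℝ, ‖c + ∑ p, a p * h (w (s p))‖ ^ 2
      = (c.re + ∑ p, (a p * h (w (s p))).re) ^ 2 + (c.im + ∑ p, (a p * h (w (s p))).im) ^ 2 := by
    intro w
    rw [← Complex.normSq_eq_norm_sq, Complex.normSq_apply, Complex.add_re, Complex.add_im,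
      Complex.re_sum, Complex.im_sum]
    ring
  simp only [h1]
  refine ⟨hr.add hi, ?_⟩
  rw [integral_add hr hi, hr2, hi2]
  have h2 : ∀ z : ℂ, ‖z‖ ^ 2 = z.re ^ 2 + z.im ^ 2 := by
    intro z
    rw [← Complex.normSq_eq_norm_sq, Complex.normSq_apply]; ring
  have h3 : ∀ p, ∫ t, (a p * h t).re ^ 2 ∂μ + ∫ t, (a p * h t).im ^ 2 ∂μ
      = (∫ t, ‖h t‖ ^ 2 ∂μ) * ‖a p‖ ^ 2 := by
    intro p
    have hm : Measurable (fun t => a p * h t) := measurable_const.mul hh
    have b1 : ∀ t, (a p * h t).re ^ 2 ≤ (A * B) ^ 2 := fun t => by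
      have := (Complex.abs_re_le_norm (a p * h t)).trans (hbd p t)
      rw [← sq_abs]; exact pow_le_pow_left₀ (abs_nonneg _) this 2
    have b2 : ∀ t, (a p * h t).im ^ 2 ≤ (A * B) ^ 2 := fun t => by
      have := (Complex.abs_im_le_norm (a p * h t)).trans (hbd p t)
      rw [← sq_abs]; exact pow_le_pow_left₀ (abs_nonneg _) this 2
    have i1 : Integrable (fun t => (a p * h t).re ^ 2) μ := by
      apply Integrable.of_bound ((Complex.measurable_re.comp hm).pow_const 2).aestronglyMeasurable ((A * B) ^ 2)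
      exact Filter.Eventually.of_forall (fun t => by
        rw [Real.norm_eq_abs, abs_of_nonneg (sq_nonneg _)]; exact b1 t)
    have i2 : Integrable (fun t => (a p * h t).im ^ 2) μ := by
      apply Integrable.of_bound ((Complex.measurable_im.comp hm).pow_const 2).aestronglyMeasurable ((A * B) ^ 2)
      exact Filter.Eventually.of_forall (fun t => by
        rw [Real.norm_eq_abs, abs_of_nonneg (sq_nonneg _)]; exact b2 t)
    rw [← integral_add i1 i2, mul_comm, ← integral_const_mul]
    apply integral_congr_ae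
    apply Filter.Eventually.of_forall
    intro t
    simp only
    rw [← h2, norm_mul, mul_pow]
  rw [h2 c, Finset.mul_sum, ← Finset.sum_congr rfl (fun p _ => h3 p), Finset.sum_add_distrib]
  ring

end

end Pool.Agent.Helper19
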